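import Mathlib
import Pool.Graph.R_seed8.H393R2.Geom3

/-! # Boxes given by many linear forms: a basis of least weight and small independent points -/

set_option autoImplicit false
set_option linter.unusedSectionVars false

open Finset Matrix

namespace Pool.Agent.KS6_27

open Pool.Agent.H393R2.Geom (app app_apply minkowski_forms minima prod_upper KK one_le_KK)

variable {k : ℕ} {ι : Type} [Fintype ι] [DecidableEq ι]

/-- the value of the form `p` at an integer point -/
noncomputable def fv (M : ι → Fin k → ℝ) (p : ι) (x : Fin k → ℤ) : ℝ := ∑ j, M p j * (x j : ℝ)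

/-- the matrix of a choice of forms -/
def sb (M : ι → Fin k → ℝ) (b : Fin k → ι) : Matrix (Fin k) (Fin k) ℝ :=
  Matrix.of fun i j => M (b i) j

lemma sb_update (M : ι → Fin k → ℝ) (b : Fin k → ι) (i : Fin k) (p : ι) :
    sb M (Function.update b i p) = (sb M b).updateRow i (M p) := by
  ext a j
  by_cases h : a = i
  · subst h
    simp [sb]
  · rw [Matrix.updateRow_ne h]
    simp [sb, Function.update_of_ne h]

/-- Cramer's rule for rows -/
lemma cramer_row (N : Matrix (Fin k) (Fin k) ℝ) (u : Fin k → ℝ) (j : Fin k) :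
    N.det * u j = ∑ i, (N.updateRow i u).det * N i j := by
  have h := Matrix.mulVec_cramer N.transpose u
  rw [Matrix.det_transpose] at h
  have h2 := congrFun h j
  simp only [Matrix.mulVec, dotProduct, Matrix.transpose_apply, Matrix.cramer_transpose_apply,
    Pi.smul_apply, smul_eq_mul] at h2
  rw [← h2]
  exact Finset.sum_congr rfl fun i _ => mul_comm _ _

lemma det_mul_fv (M : ι → Fin k → ℝ) (b : Fin k → ι) (p : ι) (x : Fin k → ℤ) :
    (sb M b).det * fv M p x = ∑ i, (sb M (Function.update b i p)).det * fv M (b i) x := by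
  unfold fv
  rw [Finset.mul_sum]
  simp only [Finset.mul_sum]
  rw [Finset.sum_comm]
  refine Finset.sum_congr rfl fun j _ => ?_
  rw [← mul_assoc, cramer_row, Finset.sum_mul]
  refine Finset.sum_congr rfl fun i _ => ?_
  rw [sb_update]
  simp only [sb, Matrix.of_apply]
  ring

/-- all the quotients of the determinants are bounded -/
lemma exists_quot (M : ι → Fin k → ℝ) : ∃ Γ : ℝ, 1 ≤ Γ ∧ ∀ b b' : Fin k → ι, (sb M b).det ≠ 0 →
    |(sb M b').det| ≤ Γ * |(sb M b).det| := by
  classical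
  set Γ : ℝ := 1 + ∑ q : (Fin k → ι) × (Fin k → ι), |(sb M q.2).det| / |(sb M q.1).det| with hΓ
  have h0 : ∀ q : (Fin k → ι) × (Fin k → ι), 0 ≤ |(sb M q.2).det| / |(sb M q.1).det| :=
    fun q => by positivity
  refine ⟨Γ, by rw [hΓ]; linarith [Finset.sum_nonneg fun q (_ : q ∈ Finset.univ) => h0 q],
    fun b b' hb => ?_⟩
  have h1 : |(sb M b').det| / |(sb M b).det| ≤ Γ := by
    have := Finset.single_le_sum (f := fun q : (Fin k → ι) × (Fin k → ι) =>
      |(sb M q.2).det| / |(sb M q.1).det|) (fun q _ => h0 q) (Finset.mem_univ (b, b'))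
    rw [hΓ]
    linarith
  rwa [div_le_iff₀ (abs_pos.2 hb)] at h1

/-- a basis of least weight -/
lemma exists_min (M : ι → Fin k → ℝ) (hM : ∃ b : Fin k → ι, (sb M b).det ≠ 0) (ω : ι → ℝ) :
    ∃ b : Fin k → ι, (sb M b).det ≠ 0 ∧ ∀ i p, (sb M (Function.update b i p)).det ≠ 0 →
      ω (b i) ≤ ω p := by
  classical
  obtain ⟨b₀, hb₀⟩ := hM
  obtain ⟨b, hb, hmin⟩ := Finset.exists_min_image
    (Finset.univ.filter fun b : Fin k → ι => (sb M b).det ≠ 0) (fun b => ∑ i, ω (b i))
    ⟨b₀, Finset.mem_filter.2 ⟨Finset.mem_univ _, hb₀⟩⟩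
  refine ⟨b, (Finset.mem_filter.1 hb).2, fun i p hp => ?_⟩
  have h1 := hmin _ (Finset.mem_filter.2 ⟨Finset.mem_univ _, hp⟩)
  rw [← Finset.add_sum_erase _ _ (Finset.mem_univ i),
    ← Finset.add_sum_erase (a := i) _ (fun j => ω (Function.update b i p j))
      (Finset.mem_univ i)] at h1
  have h2 : ∑ j ∈ Finset.univ.erase i, ω (Function.update b i p j) =
      ∑ j ∈ Finset.univ.erase i, ω (b j) := by
    refine Finset.sum_congr rfl fun j hj => ?_
    rw [Function.update_of_ne (Finset.ne_of_mem_erase hj)]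
  rw [h2, Function.update_self] at h1
  linarith

/-- the values of all forms are controlled by the values of the forms of a basis -/
lemma fv_le {M : ι → Fin k → ℝ} {Γ : ℝ} (hΓ : ∀ b b' : Fin k → ι, (sb M b).det ≠ 0 →
    |(sb M b').det| ≤ Γ * |(sb M b).det|) (hΓ0 : 0 ≤ Γ) {b : Fin k → ι} (hb : (sb M b).det ≠ 0)
    {ω : ι → ℝ} {ρ : ℝ} (hρ : 0 ≤ ρ) {x : Fin k → ℤ}
    (hx : ∀ i, |fv M (b i) x| ≤ ρ * Real.exp (ω (b i))) {p : ι} {θ : ℝ}
    (hp : ∀ i, (sb M (Function.update b i p)).det ≠ 0 → ω (b i) ≤ θ) :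
    |fv M p x| ≤ k * Γ * ρ * Real.exp θ := by
  have hb' : 0 < |(sb M b).det| := abs_pos.2 hb
  have h1 : |(sb M b).det| * |fv M p x| ≤ |(sb M b).det| * (k * Γ * ρ * Real.exp θ) := by
    rw [← abs_mul, det_mul_fv]
    refine (Finset.abs_sum_le_sum_abs _ _).trans ?_
    have h2 : ∀ i ∈ (Finset.univ : Finset (Fin k)),
        |(sb M (Function.update b i p)).det * fv M (b i) x| ≤
          |(sb M b).det| * (Γ * ρ * Real.exp θ) := by
      intro i _
      by_cases h : (sb M (Function.update b i p)).det = 0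
      · rw [h, zero_mul, abs_zero]
        positivity
      · rw [abs_mul]
        calc |(sb M (Function.update b i p)).det| * |fv M (b i) x| ≤
              (Γ * |(sb M b).det|) * (ρ * Real.exp θ) := by
                refine mul_le_mul (hΓ _ _ hb) ((hx i).trans ?_) (abs_nonneg _) (by positivity)
                exact mul_le_mul_of_nonneg_left (Real.exp_le_exp.2 (hp i h)) hρ
          _ = _ := by ring
    refine (Finset.sum_le_sum h2).trans (le_of_eq ?_)
    rw [Finset.sum_const, Finset.card_univ, Fintype.card_fin, nsmul_eq_mul]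
    ring
  exact le_of_mul_le_mul_left h1 hb'

/-- many independent small points, from a lower bound at all points -/
lemma exists_small (hk : 0 < k) {c : ℝ} (hc : 0 < c) : ∃ C : ℝ, 1 ≤ C ∧
    ∀ L : Matrix (Fin k) (Fin k) ℝ, L.det ≠ 0 →
      (∀ x : Fin k → ℤ, x ≠ 0 → ∃ i, c ≤ |(L *ᵥ fun j => (x j : ℝ)) i|) →
      ∃ G : Matrix (Fin k) (Fin k) ℤ, G.det ≠ 0 ∧
        ∀ r i, |(L *ᵥ fun j => (G r j : ℝ)) i| ≤ C * |L.det| := by
  classical
  have hK := one_le_KK hk
  set C : ℝ := (2 * KK k) ^ k / c ^ (k - 1) + 1 with hC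
  have hq : 0 < (2 * KK k) ^ k / c ^ (k - 1) := by positivity
  refine ⟨C, by rw [hC]; linarith, fun L hL hlow => ?_⟩
  set D : ℝ := |L.det| with hD
  have hD0 : 0 < D := abs_pos.2 hL
  have hk' : (k : ℝ) ≠ 0 := by exact_mod_cast hk.ne'
  -- the normalised matrix
  set μ : ℝ := D ^ ((1 : ℝ) / k) with hμ
  have hμ0 : 0 < μ := Real.rpow_pos_of_pos hD0 _
  have hμk : μ ^ k = D := by
    rw [hμ, ← Real.rpow_natCast, ← Real.rpow_mul hD0.le, one_div, inv_mul_cancel₀ hk',
      Real.rpow_one]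
  set L' : Matrix (Fin k) (Fin k) ℝ := μ⁻¹ • L with hL'
  have hdet' : |L'.det| = 1 := by
    rw [hL', Matrix.det_smul, Fintype.card_fin, abs_mul, abs_pow, abs_inv, abs_of_pos hμ0, inv_pow,
      hμk]
    exact inv_mul_cancel₀ hD0.ne'
  have hdet'0 : L'.det ≠ 0 := by
    intro h
    rw [h, abs_zero] at hdet'
    exact zero_ne_one hdet'
  have hLs : (L'⁻¹.transpose).transpose * L' = 1 := by
    rw [Matrix.transpose_transpose, Matrix.nonsing_inv_mul _ (isUnit_iff_ne_zero.2 hdet'0)]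
  obtain ⟨G, hG, hmono, hmin⟩ := minima L' (L'⁻¹.transpose) hLs
  have hup := prod_upper L' G hk hdet' hG hmono hmin
  have happ : ∀ x : Fin k → ℤ, ∀ i, app L' x i = μ⁻¹ * (L *ᵥ fun j => (x j : ℝ)) i := by
    intro x i
    rw [app_apply, hL', Matrix.smul_mulVec, Pi.smul_apply, smul_eq_mul]
  have hne : ∀ r, G r ≠ 0 := by
    intro r h
    apply hG
    exact Matrix.det_eq_zero_of_row_eq_zero r fun j => congrFun h j
  have hlow' : ∀ r, μ⁻¹ * c ≤ ‖app L' (G r)‖ := by
    intro r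
    obtain ⟨i, hi⟩ := hlow _ (hne r)
    refine le_trans ?_ (norm_le_pi_norm (app L' (G r)) i)
    rw [happ, Real.norm_eq_abs, abs_mul, abs_of_pos (inv_pos.2 hμ0)]
    exact mul_le_mul_of_nonneg_left hi (inv_pos.2 hμ0).le
  refine ⟨G, hG, fun r i => ?_⟩
  -- the product without `r`
  have h1 : (μ⁻¹ * c) ^ (k - 1) * ‖app L' (G r)‖ ≤ (2 * KK k) ^ k := by
    refine le_trans ?_ hup
    rw [← Finset.mul_prod_erase _ _ (Finset.mem_univ r), mul_comm]
    refine mul_le_mul_of_nonneg_left ?_ (norm_nonneg _)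
    calc (μ⁻¹ * c) ^ (k - 1) = ∏ _j ∈ Finset.univ.erase r, (μ⁻¹ * c) := by
          rw [Finset.prod_const, Finset.card_erase_of_mem (Finset.mem_univ r), Finset.card_univ,
            Fintype.card_fin]
      _ ≤ _ := Finset.prod_le_prod (fun _ _ => by positivity) fun j _ => hlow' j
  have h2 : |(L *ᵥ fun j => (G r j : ℝ)) i| ≤ μ * ‖app L' (G r)‖ := by
    have h3 := norm_le_pi_norm (app L' (G r)) i
    rw [happ, Real.norm_eq_abs, abs_mul, abs_of_pos (inv_pos.2 hμ0)] at h3
    calc |(L *ᵥ fun j => (G r j : ℝ)) i| = μ * (μ⁻¹ * |(L *ᵥ fun j => (G r j : ℝ)) i|) := by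
          rw [← mul_assoc, mul_inv_cancel₀ hμ0.ne', one_mul]
      _ ≤ _ := mul_le_mul_of_nonneg_left h3 hμ0.le
  have h4 : ‖app L' (G r)‖ ≤ (2 * KK k) ^ k / (μ⁻¹ * c) ^ (k - 1) := by
    rw [le_div_iff₀ (by positivity), mul_comm]
    exact h1
  have h5 : μ * ((2 * KK k) ^ k / (μ⁻¹ * c) ^ (k - 1)) = (2 * KK k) ^ k / c ^ (k - 1) * D := by
    rw [mul_pow μ⁻¹ c, inv_pow, ← hμk]
    have h6 : μ ^ k = μ * μ ^ (k - 1) := by
      rw [← pow_succ', Nat.sub_add_cancel hk]
    rw [h6]
    field_simp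
  calc |(L *ᵥ fun j => (G r j : ℝ)) i| ≤ μ * ‖app L' (G r)‖ := h2
    _ ≤ μ * ((2 * KK k) ^ k / (μ⁻¹ * c) ^ (k - 1)) := mul_le_mul_of_nonneg_left h4 hμ0.le
    _ = (2 * KK k) ^ k / c ^ (k - 1) * D := h5
    _ ≤ C * D := by
        refine mul_le_mul_of_nonneg_right ?_ hD0.le
        rw [hC]
        linarith

/-- **The main lemma on boxes.** -/
theorem abs_main (hk : 0 < k) (M : ι → Fin k → ℝ) (hM : ∃ b : Fin k → ι, (sb M b).det ≠ 0)
    {c : ℝ} (hc : 0 < c) (O : ι → Prop) [DecidablePred O] :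
    ∃ C : ℝ, 1 ≤ C ∧ ∀ (ω : ι → ℝ) (s t : ℝ), 0 ≤ t → C + t < s →
      (∀ x : Fin k → ℤ, x ≠ 0 → ∃ p, c * Real.exp (ω p) ≤ |fv M p x|) →
      (∀ b : Fin k → ι, (sb M b).det ≠ 0 → -t ≤ ∑ i, (ω (b i) - if O (b i) then s else 0)) →
      (∃ b : Fin k → ι, (sb M b).det ≠ 0 ∧ (∀ i, ¬ O (b i)) ∧
        (∀ p i, (sb M (Function.update b i p)).det ≠ 0 → ω (b i) ≤ ω p) ∧
        (∀ p, O p → ∀ i, (sb M (Function.update b i p)).det ≠ 0 → ω (b i) ≤ ω p - s + t + C)) ∧
      ∃ G : Matrix (Fin k) (Fin k) ℤ, G.det ≠ 0 ∧ ∀ r p,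
        |fv M p (G r)| ≤ C * Real.exp t * Real.exp (ω p) ∧
        (O p → |fv M p (G r)| ≤ C * Real.exp (2 * t - s) * Real.exp (ω p)) := by
  classical
  have hk' : (0 : ℝ) < k := by exact_mod_cast hk
  obtain ⟨Γ, hΓ1, hΓ⟩ := exists_quot M
  have hΓ0 : 0 < Γ := by linarith
  set ρ : ℝ := c / (2 * k * Γ) with hρ
  have hρ0 : 0 < ρ := by positivity
  have hρc : k * Γ * ρ = c / 2 := by
    rw [hρ]
    field_simp
  obtain ⟨Cs, hCs1, hCs⟩ := exists_small hk hρ0
  -- the maximum of the determinants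
  set Δ : ℝ := 1 + ∑ b : Fin k → ι, |(sb M b).det| with hΔ
  have hΔ1 : 1 ≤ Δ := by
    rw [hΔ]
    linarith [Finset.sum_nonneg fun (b : Fin k → ι) (_ : b ∈ Finset.univ) =>
      abs_nonneg (sb M b).det]
  have hΔle : ∀ b : Fin k → ι, |(sb M b).det| ≤ Δ := by
    intro b
    have := Finset.single_le_sum (f := fun b : Fin k → ι => |(sb M b).det|)
      (fun b _ => abs_nonneg _) (Finset.mem_univ b)
    rw [hΔ]
    linarith
  set C' : ℝ := |Real.log Δ - k * Real.log ρ| with hC'
  have hC'0 : 0 ≤ C' := abs_nonneg _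
  set C : ℝ := 1 + C' + k * Γ * (Cs * Δ) * Real.exp C' with hC
  have hkG : 0 ≤ k * Γ * (Cs * Δ) := by positivity
  have hexpC' : 1 ≤ Real.exp C' := Real.one_le_exp hC'0
  have hCC' : C' ≤ C := by
    rw [hC]
    have : 0 ≤ k * Γ * (Cs * Δ) * Real.exp C' := by positivity
    linarith
  have hC2 : k * Γ * (Cs * Δ) * Real.exp C' ≤ C := by
    rw [hC]
    linarith
  have hC3 : k * Γ * (Cs * Δ) ≤ C := by
    refine le_trans ?_ hC2
    exact le_mul_of_one_le_right hkG hexpC'
  refine ⟨C, by rw [hC]; linarith [mul_nonneg hkG (Real.exp_pos C').le], ?_⟩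
  intro ω s t ht hst hLB h4
  have hs0 : 0 ≤ s := by linarith
  obtain ⟨b, hb, hmin⟩ := exists_min M hM ω
  -- no small points
  have hno : ∀ x : Fin k → ℤ, x ≠ 0 → ¬ ∀ i, |fv M (b i) x| ≤ ρ * Real.exp (ω (b i)) := by
    intro x hx hall
    obtain ⟨p, hp⟩ := hLB x hx
    have h1 := fv_le hΓ hΓ0.le hb hρ0.le hall (p := p) (θ := ω p) fun i hi => hmin i p hi
    rw [hρc] at h1
    have h2 : c * Real.exp (ω p) ≤ c / 2 * Real.exp (ω p) := hp.trans h1
    have h3 : 0 < c / 2 * Real.exp (ω p) := by positivity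
    have h4 : c * Real.exp (ω p) = c / 2 * Real.exp (ω p) + c / 2 * Real.exp (ω p) := by ring
    linarith
  have happ : ∀ (x : Fin k → ℤ) i, app (sb M b) x i = fv M (b i) x := fun x i => rfl
  -- the weight of the basis is at most `C'`
  have hsum : ∑ i, ω (b i) ≤ C' := by
    by_contra hcon
    rw [not_le] at hcon
    have hprod : |(sb M b).det| < ∏ i, (ρ * Real.exp (ω (b i))) := by
      rw [Finset.prod_mul_distrib, Finset.prod_const, Finset.card_univ, Fintype.card_fin,
        ← Real.exp_sum]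
      have h1 : Real.log Δ - k * Real.log ρ < ∑ i, ω (b i) := lt_of_le_of_lt (le_abs_self _) hcon
      have h2 : Real.log Δ < Real.log (ρ ^ k * Real.exp (∑ i, ω (b i))) := by
        rw [Real.log_mul (by positivity) (Real.exp_pos _).ne', Real.log_pow, Real.log_exp]
        linarith
      exact lt_of_le_of_lt (hΔle b) ((Real.log_lt_log_iff (by linarith) (by positivity)).1 h2)
    obtain ⟨x, hx0, hx⟩ := minkowski_forms (sb M b) hb (fun i => ρ * Real.exp (ω (b i)))
      (fun i => by positivity) hprod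
    exact hno x hx0 fun i => by rw [← happ]; exact hx i
  have hnO : ∀ i, ¬ O (b i) := by
    intro i hi
    have h1 := h4 b hb
    rw [Finset.sum_sub_distrib] at h1
    have h2 : s ≤ ∑ i, (if O (b i) then s else 0) := by
      have := Finset.single_le_sum (f := fun i => if O (b i) then s else 0)
        (fun i _ => by split_ifs <;> linarith) (Finset.mem_univ i)
      simp only [if_pos hi] at this
      exact this
    linarith
  have hsw : ∀ p, O p → ∀ i, (sb M (Function.update b i p)).det ≠ 0 →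
      ω (b i) ≤ ω p - s + t + C' := by
    intro p hp i hi
    have h1 := h4 _ hi
    rw [← Finset.add_sum_erase _ _ (Finset.mem_univ i)] at h1
    have h2 : ∑ j ∈ Finset.univ.erase i, (ω (Function.update b i p j) -
        if O (Function.update b i p j) then s else 0) = ∑ j ∈ Finset.univ.erase i, ω (b j) := by
      refine Finset.sum_congr rfl fun j hj => ?_
      rw [Function.update_of_ne (Finset.ne_of_mem_erase hj), if_neg (hnO j), sub_zero]
    rw [h2, Function.update_self, if_pos hp] at h1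
    have h3 := Finset.add_sum_erase Finset.univ (fun j => ω (b j)) (Finset.mem_univ i)
    linarith
  refine ⟨⟨b, hb, hnO, fun p i hi => hmin i p hi, fun p hp i hi => ?_⟩, ?_⟩
  · linarith [hsw p hp i hi]
  -- small points
  set L : Matrix (Fin k) (Fin k) ℝ := Matrix.diagonal (fun i => Real.exp (-ω (b i))) * sb M b
    with hL
  have hLdet : L.det = Real.exp (-∑ i, ω (b i)) * (sb M b).det := by
    rw [hL, Matrix.det_mul, Matrix.det_diagonal, ← Real.exp_sum, Finset.sum_neg_distrib]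
  have hLx : ∀ (x : Fin k → ℤ) i, (L *ᵥ fun j => (x j : ℝ)) i =
      Real.exp (-ω (b i)) * fv M (b i) x := by
    intro x i
    rw [hL, ← Matrix.mulVec_mulVec, Matrix.mulVec_diagonal]
    rfl
  have hfvL : ∀ (x : Fin k → ℤ) i, |fv M (b i) x| =
      |(L *ᵥ fun j => (x j : ℝ)) i| * Real.exp (ω (b i)) := by
    intro x i
    rw [hLx, abs_mul, abs_of_pos (Real.exp_pos _), mul_comm, ← mul_assoc, ← Real.exp_add,
      add_neg_cancel, Real.exp_zero, one_mul]
  obtain ⟨G, hG, hGs⟩ := hCs L (by rw [hLdet]; exact mul_ne_zero (Real.exp_pos _).ne' hb) (by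
    intro x hx
    by_contra hcon
    push Not at hcon
    refine hno x hx fun i => ?_
    rw [hfvL]
    exact mul_le_mul_of_nonneg_right (hcon i).le (Real.exp_pos _).le)
  refine ⟨G, hG, fun r p => ?_⟩
  have hdetL : |L.det| ≤ Real.exp t * Δ := by
    rw [hLdet, abs_mul, abs_of_pos (Real.exp_pos _)]
    refine mul_le_mul (Real.exp_le_exp.2 ?_) (hΔle b) (abs_nonneg _) (Real.exp_pos _).le
    have h1 := h4 b hb
    rw [Finset.sum_sub_distrib, Finset.sum_eq_zero (f := fun i => if O (b i) then s else 0)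
      (fun i _ => if_neg (hnO i))] at h1
    linarith
  have hval : ∀ i, |fv M (b i) (G r)| ≤ (Cs * (Real.exp t * Δ)) * Real.exp (ω (b i)) := by
    intro i
    rw [hfvL]
    refine mul_le_mul_of_nonneg_right ((hGs r i).trans ?_) (Real.exp_pos _).le
    exact mul_le_mul_of_nonneg_left hdetL (by linarith)
  have hρ' : 0 ≤ Cs * (Real.exp t * Δ) := by positivity
  constructor
  · refine (fv_le hΓ hΓ0.le hb hρ' hval (p := p) (θ := ω p) fun i hi => hmin i p hi).trans ?_
    have e1 : k * Γ * (Cs * (Real.exp t * Δ)) = k * Γ * (Cs * Δ) * Real.exp t := by ring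
    rw [e1]
    exact mul_le_mul_of_nonneg_right (mul_le_mul_of_nonneg_right hC3 (Real.exp_pos _).le)
      (Real.exp_pos _).le
  · intro hp
    refine (fv_le hΓ hΓ0.le hb hρ' hval (p := p) (θ := ω p - s + t + C')
      fun i hi => hsw p hp i hi).trans ?_
    have e1 : k * Γ * (Cs * (Real.exp t * Δ)) * Real.exp (ω p - s + t + C') =
        k * Γ * (Cs * Δ) * Real.exp C' * (Real.exp (2 * t - s) * Real.exp (ω p)) := by
      have h1 : ω p - s + t + C' = C' + ((2 * t - s) + ω p) - t := by ring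
      rw [h1, Real.exp_sub, Real.exp_add, Real.exp_add]
      field_simp
    rw [e1, mul_assoc C]
    exact mul_le_mul_of_nonneg_right hC2 (by positivity)

end Pool.Agent.KS6_27
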