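import Mathlib

/-! # Algebras generated by finitely many matrices -/

set_option autoImplicit false
set_option linter.unusedSectionVars false

open Finset Matrix Module
open scoped Pointwise

namespace Pool.Agent.KS6_27

/-- the algebra generated by a set is spanned by the products of a fixed number of elements -/
theorem adjoin_eq_span_pow {B : Type} [Ring B] [Algebra ℚ B] [FiniteDimensional ℚ B]
    (T : Set B) (h1 : (1 : B) ∈ Submodule.span ℚ T) (N : ℕ) (hN : finrank ℚ B ≤ N) :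
    Subalgebra.toSubmodule (Algebra.adjoin ℚ T) = Submodule.span ℚ (T ^ N) := by
  classical
  set W : Submodule ℚ B := Submodule.span ℚ T with hW
  have hone : (1 : Submodule ℚ B) ≤ W := by
    rw [Submodule.one_le]
    exact h1
  have hmono : ∀ m, W ^ m ≤ W ^ (m + 1) := by
    intro m
    rw [pow_succ]
    calc W ^ m = W ^ m * 1 := (mul_one _).symm
      _ ≤ W ^ m * W := mul_le_mul_right hone (W ^ m)
  have hmono' : Monotone fun m => W ^ m := monotone_nat_of_le_succ hmono
  have hstab : ∀ n, finrank ℚ B ≤ n →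
      finrank ℚ (W ^ n : Submodule ℚ B) = finrank ℚ (W ^ (finrank ℚ B) : Submodule ℚ B) := by
    intro n hn
    refine Nat.stabilises_of_monotone (f := fun m => finrank ℚ (W ^ m : Submodule ℚ B))
      (b := finrank ℚ B) (fun m m' h => Submodule.finrank_mono (hmono' h))
      (fun m => Submodule.finrank_le _) (fun m hm => ?_) hn
    have h2 : (W ^ m : Submodule ℚ B) = W ^ (m + 1) :=
      Submodule.eq_of_le_of_finrank_eq (hmono m) hm
    have h3 : (W ^ (m + 1) : Submodule ℚ B) = W ^ (m + 1 + 1) := by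
      rw [pow_succ W m, pow_succ W (m + 1), ← h2]
    change finrank ℚ (W ^ (m + 1) : Submodule ℚ B) = finrank ℚ (W ^ (m + 1 + 1) : Submodule ℚ B)
    rw [← h3]
  have heq : ∀ n, N ≤ n → (W ^ N : Submodule ℚ B) = W ^ n := by
    intro n hn
    refine Submodule.eq_of_le_of_finrank_eq (hmono' hn) ?_
    rw [hstab N hN, hstab n (hN.trans hn)]
  rw [← Submodule.span_pow, ← hW]
  refine le_antisymm ?_ ?_
  · have hmul : ∀ x y, x ∈ (W ^ N : Submodule ℚ B) → y ∈ (W ^ N : Submodule ℚ B) →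
        x * y ∈ (W ^ N : Submodule ℚ B) := by
      intro x y hx hy
      rw [heq (N + N) (by omega), pow_add]
      exact Submodule.mul_mem_mul hx hy
    have hone' : (1 : B) ∈ (W ^ N : Submodule ℚ B) := by
      have : (W ^ 0 : Submodule ℚ B) ≤ W ^ N := hmono' (Nat.zero_le N)
      rw [pow_zero, Submodule.one_le] at this
      exact this
    have h2 : Algebra.adjoin ℚ T ≤ (W ^ N : Submodule ℚ B).toSubalgebra hone' hmul := by
      rw [Algebra.adjoin_le_iff]
      intro x hx
      have hx1 : x ∈ W := Submodule.subset_span hx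
      have h4 : (W ^ 1 : Submodule ℚ B) ≤ W ^ N := by
        rw [heq (N + 1) (Nat.le_succ N)]
        exact hmono' (Nat.succ_le_succ (Nat.zero_le N))
      rw [pow_one] at h4
      exact h4 hx1
    intro x hx
    exact h2 hx
  · have h2 : ∀ m, W ^ m ≤ Subalgebra.toSubmodule (Algebra.adjoin ℚ T) := by
      intro m
      induction m with
      | zero =>
        rw [pow_zero, Submodule.one_le]
        exact Subalgebra.one_mem _
      | succ m ih =>
        rw [pow_succ, Submodule.mul_le]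
        intro x hx y hy
        refine Subalgebra.mul_mem _ (ih hx) ?_
        have h3 : W ≤ Subalgebra.toSubmodule (Algebra.adjoin ℚ T) := by
          rw [hW, Submodule.span_le]
          exact Algebra.subset_adjoin
        exact h3 hy
    exact h2 N

variable {d : ℕ}

/-- an invertible matrix has its inverse in every algebra which contains it -/
lemma inv_mem_alg (S : Subalgebra ℚ (Matrix (Fin d) (Fin d) ℚ)) {u : Matrix (Fin d) (Fin d) ℚ}
    (hu : u ∈ S) (hdet : IsUnit u.det) : u⁻¹ ∈ S := by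
  have h1 := Matrix.aeval_self_charpoly u
  have h2 := Polynomial.divX_mul_X_add u.charpoly
  rw [← h2, map_add, map_mul, Polynomial.aeval_X, Polynomial.aeval_C] at h1
  have hc : u.charpoly.coeff 0 ≠ 0 := by
    have h3 := Matrix.det_eq_sign_charpoly_coeff u
    intro h0
    rw [h0, mul_zero] at h3
    exact hdet.ne_zero h3
  have hq : Polynomial.aeval u u.charpoly.divX ∈ S := by
    have := Algebra.adjoin_le (S := S) (s := {u}) (by simpa using hu)
    exact this (Polynomial.aeval_mem_adjoin_singleton ℚ u)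
  have h4 : u⁻¹ = (-(u.charpoly.coeff 0)⁻¹) • Polynomial.aeval u u.charpoly.divX := by
    refine Matrix.inv_eq_left_inv ?_
    rw [Matrix.smul_mul]
    have h5 : Polynomial.aeval u u.charpoly.divX * u =
        -(algebraMap ℚ (Matrix (Fin d) (Fin d) ℚ) (u.charpoly.coeff 0)) :=
      eq_neg_of_add_eq_zero_left h1
    rw [h5, smul_neg, neg_smul, neg_neg, Algebra.algebraMap_eq_smul_one, smul_smul,
      inv_mul_cancel₀ hc, one_smul]
  rw [h4]
  exact S.smul_mem hq _

/-- the algebra of the left quotients of a space of matrices -/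
def LA (V : Submodule ℚ (Matrix (Fin d) (Fin d) ℚ)) (δ : Matrix (Fin d) (Fin d) ℚ) :
    Subalgebra ℚ (Matrix (Fin d) (Fin d) ℚ) :=
  Algebra.adjoin ℚ {Y | ∃ X ∈ V, Y = X * δ⁻¹}

lemma mem_LA {V : Submodule ℚ (Matrix (Fin d) (Fin d) ℚ)} {δ X : Matrix (Fin d) (Fin d) ℚ}
    (hX : X ∈ V) : X * δ⁻¹ ∈ LA V δ := Algebra.subset_adjoin ⟨X, hX, rfl⟩

lemma LA_le {V : Submodule ℚ (Matrix (Fin d) (Fin d) ℚ)} {δ δ' : Matrix (Fin d) (Fin d) ℚ}
    (hδ : IsUnit δ.det) (hδ' : IsUnit δ'.det) (hδV : δ' ∈ V) : LA V δ' ≤ LA V δ := by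
  rw [LA, Algebra.adjoin_le_iff]
  rintro _ ⟨X, hX, rfl⟩
  have hu : δ' * δ⁻¹ ∈ LA V δ := mem_LA hδV
  have hdet : IsUnit (δ' * δ⁻¹).det := by
    rw [Matrix.det_mul]
    exact hδ'.mul (Matrix.isUnit_nonsing_inv_det _ hδ)
  have h1 := inv_mem_alg _ hu hdet
  have h2 : X * δ'⁻¹ = (X * δ⁻¹) * (δ' * δ⁻¹)⁻¹ := by
    rw [Matrix.mul_inv_rev, Matrix.nonsing_inv_nonsing_inv _ hδ]
    calc X * δ'⁻¹ = X * 1 * δ'⁻¹ := by rw [Matrix.mul_one]
      _ = X * (δ⁻¹ * δ) * δ'⁻¹ := by rw [Matrix.nonsing_inv_mul _ hδ]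
      _ = _ := by simp only [Matrix.mul_assoc]
  rw [SetLike.mem_coe, h2]
  exact Subalgebra.mul_mem _ (mem_LA hX) h1

lemma LA_eq {V : Submodule ℚ (Matrix (Fin d) (Fin d) ℚ)} {δ δ' : Matrix (Fin d) (Fin d) ℚ}
    (hδ : IsUnit δ.det) (hδ' : IsUnit δ'.det) (hV : δ ∈ V) (hV' : δ' ∈ V) :
    LA V δ' = LA V δ := le_antisymm (LA_le hδ hδ' hV') (LA_le hδ' hδ hV)

end Pool.Agent.KS6_27
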