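import Mathlib
import Pool.Agent.KS6_27.Abs
import Pool.Graph.R_pool_sql_team_seeded_47a924f7.T6.H49.CSD.NearDiag

/-! # Integer matrices seen in the coordinates given by a lattice, near returns of an orbit -/

set_option autoImplicit false
set_option linter.unusedSectionVars false

open Finset Matrix Filter Topology H715R2
open Pool.Agent.T6.H49.CSD (cj cj_one cj_mul cj_add cj_sub cj_smul cj_diagonal rigid zR_add
  zR_smul)

namespace Pool.Agent.KS6_27

variable {d k : ℕ}

/-- the matrix of a vector with entries indexed by pairs -/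
def iM (v : Fin d × Fin d → ℤ) : Matrix (Fin d) (Fin d) ℤ := Matrix.of fun i j => v (i, j)

/-- the entries of a matrix -/
def vc (γ : Matrix (Fin d) (Fin d) ℤ) : Fin d × Fin d → ℤ := fun p => γ p.1 p.2

lemma iM_vc (γ : Matrix (Fin d) (Fin d) ℤ) : iM (vc γ) = γ := rfl

lemma vc_ne {γ : Matrix (Fin d) (Fin d) ℤ} (h : γ ≠ 0) : vc γ ≠ 0 := by
  intro h0
  apply h
  rw [← iM_vc γ, h0]
  rfl

/-- the forms `γ ↦ (g γ g⁻¹) i j` in the coordinates given by some integer matrices -/
noncomputable def Mf (g : Matrix (Fin d) (Fin d) ℝ) (v : Fin k → Fin d × Fin d → ℤ) :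
    Fin d × Fin d → Fin k → ℝ := fun p r => cj g (iM (v r)) p.1 p.2

lemma cj_sum {κ : Type} (s : Finset κ) (g : Matrix (Fin d) (Fin d) ℝ)
    (f : κ → Matrix (Fin d) (Fin d) ℤ) : cj g (∑ r ∈ s, f r) = ∑ r ∈ s, cj g (f r) := by
  classical
  induction s using Finset.induction_on with
  | empty =>
    rw [Finset.sum_empty, Finset.sum_empty, cj]
    have : zR (0 : Matrix (Fin d) (Fin d) ℤ) = 0 := by
      ext i j
      simp [zR]
    rw [this, Matrix.mul_zero, Matrix.zero_mul]
  | insert r s hr ih => rw [Finset.sum_insert hr, Finset.sum_insert hr, cj_add, ih]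

lemma iM_sum (v : Fin k → Fin d × Fin d → ℤ) (x : Fin k → ℤ) :
    iM (fun a => ∑ r, x r * v r a) = ∑ r, x r • iM (v r) := by
  ext i j
  rw [Matrix.sum_apply]
  rfl

lemma fv_Mf (g : Matrix (Fin d) (Fin d) ℝ) (v : Fin k → Fin d × Fin d → ℤ)
    (p : Fin d × Fin d) (x : Fin k → ℤ) :
    fv (Mf g v) p x = cj g (iM fun a => ∑ r, x r * v r a) p.1 p.2 := by
  rw [iM_sum, cj_sum, Matrix.sum_apply]
  unfold fv Mf
  refine Finset.sum_congr rfl fun r _ => ?_
  rw [cj_smul, Matrix.smul_apply, smul_eq_mul, mul_comm]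

/-- forms without a common zero contain a basis -/
lemma exists_det {ι : Type} [Fintype ι] [DecidableEq ι] (M : ι → Fin k → ℝ)
    (hM : ∀ c : Fin k → ℝ, (∀ p, ∑ r, M p r * c r = 0) → c = 0) :
    ∃ b : Fin k → ι, (sb M b).det ≠ 0 := by
  classical
  have hspan : Submodule.span ℝ (Set.range M) = ⊤ := by
    by_contra hne
    obtain ⟨f, hf0, hf⟩ := Submodule.exists_le_ker_of_lt_top _ (lt_top_iff_ne_top.2 hne)
    apply hf0
    have h1 : (fun r => f (Pi.single r 1)) = (0 : Fin k → ℝ) := by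
      refine hM _ fun p => ?_
      have h2 : f (M p) = 0 := hf (Submodule.subset_span ⟨p, rfl⟩)
      have h3 : M p = ∑ r, M p r • (Pi.single r 1 : Fin k → ℝ) := by
        funext r
        rw [Finset.sum_apply]
        simp [Pi.single_apply]
      rw [h3, map_sum] at h2
      rw [← h2]
      refine Finset.sum_congr rfl fun r _ => ?_
      rw [map_smul, smul_eq_mul]
    refine LinearMap.pi_ext' fun r => ?_
    refine LinearMap.ext_ring ?_
    have := congrFun h1 r
    simpa using this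
  obtain ⟨S, hS, hSspan, hSli⟩ := exists_linearIndependent ℝ (Set.range M)
  have hSfin : S.Finite := (Set.finite_range M).subset hS
  let B : Module.Basis S ℝ (Fin k → ℝ) := Module.Basis.mk hSli (by
    rw [Subtype.range_coe, hSspan, hspan])
  have : Fintype S := hSfin.fintype
  let e : S ≃ Fin k := B.indexEquiv (Pi.basisFun ℝ (Fin k))
  have hpre : ∀ i : Fin k, ∃ p : ι, M p = (e.symm i : Fin k → ℝ) := by
    intro i
    obtain ⟨p, hp⟩ := hS (e.symm i).2
    exact ⟨p, hp⟩
  choose b hb using hpre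
  refine ⟨b, ?_⟩
  have hli : LinearIndependent ℝ (fun i => sb M b i) := by
    have h1 : (fun i => sb M b i) = (fun s : S => (s : Fin k → ℝ)) ∘ e.symm := by
      funext i
      exact hb i
    rw [h1]
    exact hSli.comp _ e.symm.injective
  have h2 := (Matrix.linearIndependent_rows_iff_isUnit (A := sb M b)).1 hli
  exact ((Matrix.isUnit_iff_isUnit_det _).1 h2).ne_zero

/-- a combination of integer matrices with an integral inverse system is zero only if the
coefficients are zero -/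
lemma exists_det_Mf {g : Matrix (Fin d) (Fin d) ℝ} (hg : g.det ≠ 0)
    {v A : Fin k → Fin d × Fin d → ℤ} {D : ℤ} (hD : D ≠ 0)
    (hA : ∀ i j, ∑ a, A i a * v j a = if i = j then D else 0) :
    ∃ b : Fin k → Fin d × Fin d, (sb (Mf g v) b).det ≠ 0 := by
  classical
  refine exists_det _ fun c hc => ?_
  have hu := isUnit_iff_ne_zero.2 hg
  have h1 : ∑ r, c r • cj g (iM (v r)) = 0 := by
    ext i j
    rw [Matrix.sum_apply, Matrix.zero_apply, ← hc (i, j)]
    refine Finset.sum_congr rfl fun r _ => ?_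
    rw [Matrix.smul_apply, smul_eq_mul, mul_comm]
    rfl
  have h2 : ∑ r, c r • zR (iM (v r)) = 0 := by
    have h3 : g⁻¹ * (∑ r, c r • cj g (iM (v r))) * g = ∑ r, c r • zR (iM (v r)) := by
      rw [Finset.mul_sum, Finset.sum_mul]
      refine Finset.sum_congr rfl fun r _ => ?_
      rw [Matrix.mul_smul, Matrix.smul_mul, cj]
      congr 1
      calc g⁻¹ * (g * zR (iM (v r)) * g⁻¹) * g = (g⁻¹ * g) * zR (iM (v r)) * (g⁻¹ * g) := by
            simp only [Matrix.mul_assoc]
        _ = _ := by rw [Matrix.nonsing_inv_mul _ hu, Matrix.one_mul, Matrix.mul_one]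
    rw [← h3, h1, Matrix.mul_zero, Matrix.zero_mul]
  have h3 : ∀ a : Fin d × Fin d, ∑ r, c r * (v r a : ℝ) = 0 := by
    intro a
    have := congrFun (congrFun h2 a.1) a.2
    rw [Matrix.sum_apply] at this
    rw [Matrix.zero_apply] at this
    rw [← this]
    rfl
  funext i
  have h4 : ∑ r, c r * (∑ a, (A i a : ℝ) * (v r a : ℝ)) = 0 := by
    have h5 : ∑ r, c r * (∑ a, (A i a : ℝ) * (v r a : ℝ)) =
        ∑ a, (A i a : ℝ) * ∑ r, c r * (v r a : ℝ) := by
      simp only [Finset.mul_sum]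
      rw [Finset.sum_comm]
      exact Finset.sum_congr rfl fun a _ => Finset.sum_congr rfl fun r _ => by ring
    rw [h5]
    exact Finset.sum_eq_zero fun a _ => by rw [h3, mul_zero]
  have h5 : ∀ r, ∑ a, (A i a : ℝ) * (v r a : ℝ) = if i = r then (D : ℝ) else 0 := by
    intro r
    have := hA i r
    have h6 : ((∑ a, A i a * v r a : ℤ) : ℝ) = ((if i = r then D else 0 : ℤ) : ℝ) := by rw [this]
    push_cast at h6
    rw [h6]
  simp only [h5, mul_ite, mul_zero] at h4
  rw [Finset.sum_ite_eq Finset.univ i (fun r => c r * (D : ℝ)), if_pos (Finset.mem_univ _)] at h4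
  have hD' : (D : ℝ) ≠ 0 := by exact_mod_cast hD
  exact (mul_eq_zero.1 h4).resolve_right hD'

/-- the integer matrix `τ` is nearly diagonal in the coordinates given by `h` -/
def ND (h : Matrix (Fin d) (Fin d) ℝ) (Q δ : ℝ) (τ : Matrix (Fin d) (Fin d) ℤ) : Prop :=
  (∀ i j, d * |cj h τ i j| ≤ Q) ∧ ∀ i j, i ≠ j → d * |cj h τ i j| ≤ Q * δ

lemma ND.mul {h : Matrix (Fin d) (Fin d) ℝ} (hh : h.det ≠ 0) {Q δ Q' δ' : ℝ} (hQ : 0 ≤ Q)
    (hQ' : 0 ≤ Q') (hδ : 0 ≤ δ) (hδ' : 0 ≤ δ') {τ τ' : Matrix (Fin d) (Fin d) ℤ}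
    (h1 : ND h Q δ τ) (h2 : ND h Q' δ' τ') : ND h (Q * Q') (δ + δ') (τ * τ') := by
  have hexp : ∀ i j, cj h (τ * τ') i j = ∑ m, cj h τ i m * cj h τ' m j := by
    intro i j
    rw [cj_mul hh, Matrix.mul_apply]
  constructor
  · intro i j
    rcases Nat.eq_zero_or_pos d with hd | hd
    · subst hd
      exact i.elim0
    have hd' : (0 : ℝ) < d := by exact_mod_cast hd
    rw [hexp]
    have h3 : ∀ m ∈ (Finset.univ : Finset (Fin d)), d * |cj h τ i m * cj h τ' m j| ≤ Q * Q' / d := by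
      intro m _
      rw [le_div_iff₀ hd', abs_mul]
      calc d * (|cj h τ i m| * |cj h τ' m j|) * d = (d * |cj h τ i m|) * (d * |cj h τ' m j|) := by
            ring
        _ ≤ Q * Q' := mul_le_mul (h1.1 i m) (h2.1 m j) (by positivity) hQ
    calc d * |∑ m, cj h τ i m * cj h τ' m j| ≤ d * ∑ m, |cj h τ i m * cj h τ' m j| :=
          mul_le_mul_of_nonneg_left (Finset.abs_sum_le_sum_abs _ _) hd'.le
      _ = ∑ m, d * |cj h τ i m * cj h τ' m j| := by rw [Finset.mul_sum]
      _ ≤ ∑ _m : Fin d, Q * Q' / d := Finset.sum_le_sum h3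
      _ = Q * Q' := by
          rw [Finset.sum_const, Finset.card_univ, Fintype.card_fin, nsmul_eq_mul]
          field_simp
  · intro i j hij
    rcases Nat.eq_zero_or_pos d with hd | hd
    · subst hd
      exact i.elim0
    have hd' : (0 : ℝ) < d := by exact_mod_cast hd
    rw [hexp]
    have h3 : ∀ m ∈ (Finset.univ : Finset (Fin d)), d * |cj h τ i m * cj h τ' m j| ≤
        Q * Q' * (δ + δ') / d := by
      intro m _
      rw [le_div_iff₀ hd', abs_mul]
      have e1 : d * (|cj h τ i m| * |cj h τ' m j|) * d =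
          (d * |cj h τ i m|) * (d * |cj h τ' m j|) := by ring
      rw [e1]
      by_cases him : i = m
      · subst him
        calc (d * |cj h τ i i|) * (d * |cj h τ' i j|) ≤ Q * (Q' * δ') :=
              mul_le_mul (h1.1 i i) (h2.2 i j hij) (by positivity) hQ
          _ ≤ Q * Q' * (δ + δ') := by nlinarith [mul_nonneg (mul_nonneg hQ hQ') hδ]
      · calc (d * |cj h τ i m|) * (d * |cj h τ' m j|) ≤ (Q * δ) * Q' :=
              mul_le_mul (h1.2 i m him) (h2.1 m j) (by positivity) (by positivity)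
          _ ≤ Q * Q' * (δ + δ') := by nlinarith [mul_nonneg (mul_nonneg hQ hQ') hδ']
    calc d * |∑ m, cj h τ i m * cj h τ' m j| ≤ d * ∑ m, |cj h τ i m * cj h τ' m j| :=
          mul_le_mul_of_nonneg_left (Finset.abs_sum_le_sum_abs _ _) hd'.le
      _ = ∑ m, d * |cj h τ i m * cj h τ' m j| := by rw [Finset.mul_sum]
      _ ≤ ∑ _m : Fin d, Q * Q' * (δ + δ') / d := Finset.sum_le_sum h3
      _ = Q * Q' * (δ + δ') := by
          rw [Finset.sum_const, Finset.card_univ, Fintype.card_fin, nsmul_eq_mul]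
          field_simp

/-- the points `diag(a) g` and `diag(a') g` of the orbit are close, with the integral change of
variables `δ` -/
def Rt (g : Matrix (Fin d) (Fin d) ℝ) (K ε : ℝ) (a a' : Fin d → ℝ)
    (δ : Matrix (Fin d) (Fin d) ℤ) : Prop :=
  IsUnit δ.det ∧ ∃ (b : Fin d → ℝ) (E : Matrix (Fin d) (Fin d) ℝ),
    (∀ i, 1 / K ≤ b i ∧ b i ≤ K) ∧ (∀ i j, |E i j| ≤ ε) ∧
    ∀ i j, cj g δ i j = (a i)⁻¹ * b i * (1 + E) i j * a' j

/-- the inverse of a near return -/
lemma Rt.inv {g : Matrix (Fin d) (Fin d) ℝ} (hg : g.det ≠ 0) {K ε : ℝ} (hK : 1 ≤ K)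
    (hdε : d * ε ≤ 1 / 2) {a a' : Fin d → ℝ} (ha : ∀ i, 0 < a i)
    (ha' : ∀ i, 0 < a' i) {δ : Matrix (Fin d) (Fin d) ℤ} (h : Rt g K ε a a' δ) :
    ∃ N : Matrix (Fin d) (Fin d) ℝ, (∀ i j, |N i j| ≤ 2 * K) ∧
      (∀ i j, i ≠ j → |N i j| ≤ 2 * K * (d * ε)) ∧
      ∀ i j, cj g δ⁻¹ i j = (a' i)⁻¹ * N i j * a j := by
  classical
  obtain ⟨hδ, b, E, hb, hE, heq⟩ := h
  have hK0 : 0 < K := by linarith
  have hb0 : ∀ i, 0 < b i := fun i => lt_of_lt_of_le (by positivity) (hb i).1
  set N : Matrix (Fin d) (Fin d) ℝ := Matrix.of fun i j => a' i * cj g δ⁻¹ i j * (a j)⁻¹ with hN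
  have hNapp : ∀ i j, N i j = a' i * cj g δ⁻¹ i j * (a j)⁻¹ := fun i j => rfl
  have hprod : cj g δ * cj g δ⁻¹ = 1 := by
    rw [← cj_mul hg, Matrix.mul_nonsing_inv _ hδ, cj_one hg]
  have hrel : ∀ i j, N i j + ∑ m, E i m * N m j = (b i)⁻¹ * (1 : Matrix (Fin d) (Fin d) ℝ) i j := by
    intro i j
    have h1 := congrFun (congrFun hprod i) j
    rw [Matrix.mul_apply] at h1
    have h2 : ∑ m, (1 + E) i m * N m j = N i j + ∑ m, E i m * N m j := by
      simp only [Matrix.add_apply, add_mul, Finset.sum_add_distrib]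
      congr 1
      rw [Finset.sum_eq_single i]
      · rw [Matrix.one_apply_eq, one_mul]
      · intro m _ hm
        rw [Matrix.one_apply_ne hm.symm, zero_mul]
      · intro h
        exact absurd (Finset.mem_univ i) h
    rw [← h2]
    have h3 : ∑ m, (1 + E) i m * N m j = (b i)⁻¹ * (a i * (∑ m, cj g δ i m * cj g δ⁻¹ m j) *
        (a j)⁻¹) := by
      rw [Finset.mul_sum, Finset.sum_mul, Finset.mul_sum]
      refine Finset.sum_congr rfl fun m _ => ?_
      rw [heq, hNapp]
      have e1 := (ha i).ne'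
      have e2 := (hb0 i).ne'
      field_simp
    rw [h3, h1]
    by_cases hij : i = j
    · subst hij
      rw [Matrix.one_apply_eq, mul_one, mul_inv_cancel₀ (ha i).ne']
    · rw [Matrix.one_apply_ne hij, mul_zero, zero_mul]
  have hε0 : 0 ≤ ε ∨ d = 0 := by
    rcases Nat.eq_zero_or_pos d with h | h
    · exact Or.inr h
    · exact Or.inl ((abs_nonneg _).trans (hE ⟨0, h⟩ ⟨0, h⟩))
  have hbinv : ∀ i, (b i)⁻¹ ≤ K := by
    intro i
    rw [inv_le_comm₀ (hb0 i) hK0, ← one_div]
    exact (hb i).1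
  have hsum : ∀ (i j : Fin d) (μ : ℝ), (∀ m, |N m j| ≤ μ) → |∑ m, E i m * N m j| ≤ d * ε * μ := by
    intro i j μ hμ
    have hε' : 0 ≤ ε := by
      rcases hε0 with h | h
      · exact h
      · subst h
        exact i.elim0
    calc |∑ m, E i m * N m j| ≤ ∑ m, |E i m * N m j| := Finset.abs_sum_le_sum_abs _ _
      _ ≤ ∑ _m : Fin d, ε * μ := by
          refine Finset.sum_le_sum fun m _ => ?_
          rw [abs_mul]
          exact mul_le_mul (hE i m) (hμ m) (abs_nonneg _) hε'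
      _ = d * ε * μ := by
          rw [Finset.sum_const, Finset.card_univ, Fintype.card_fin, nsmul_eq_mul, mul_assoc]
  have hone : ∀ i j, |(b i)⁻¹ * (1 : Matrix (Fin d) (Fin d) ℝ) i j| ≤ K := by
    intro i j
    rw [abs_mul, abs_of_pos (inv_pos.2 (hb0 i))]
    by_cases hij : i = j
    · subst hij
      rw [Matrix.one_apply_eq, abs_one, mul_one]
      exact hbinv i
    · rw [Matrix.one_apply_ne hij, abs_zero, mul_zero]
      exact hK0.le
  have hN2 : ∀ i j, |N i j| ≤ 2 * K := by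
    intro i j
    obtain ⟨i₀, -, hi₀⟩ := Finset.exists_max_image (Finset.univ : Finset (Fin d))
      (fun m => |N m j|) ⟨i, Finset.mem_univ _⟩
    have h1 := hsum i₀ j (|N i₀ j|) fun m => hi₀ m (Finset.mem_univ _)
    have h2 := hrel i₀ j
    have h3 : |N i₀ j| ≤ K + d * ε * |N i₀ j| := by
      have h4 : N i₀ j = (b i₀)⁻¹ * (1 : Matrix (Fin d) (Fin d) ℝ) i₀ j - ∑ m, E i₀ m * N m j := by
        rw [← h2]
        ring
      calc |N i₀ j| ≤ |(b i₀)⁻¹ * (1 : Matrix (Fin d) (Fin d) ℝ) i₀ j| + |∑ m, E i₀ m * N m j| := by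
            nth_rewrite 1 [h4]
            exact abs_sub _ _
        _ ≤ _ := add_le_add (hone _ _) h1
    have h4 := abs_nonneg (N i₀ j)
    have h5 : |N i₀ j| ≤ 2 * K := by nlinarith
    exact (hi₀ i (Finset.mem_univ _)).trans h5
  refine ⟨N, hN2, fun i j hij => ?_, fun i j => ?_⟩
  · have h1 := hsum i j (2 * K) fun m => hN2 m j
    have h2 := hrel i j
    rw [Matrix.one_apply_ne hij, mul_zero] at h2
    have h4 : N i j = -∑ m, E i m * N m j := by linarith
    rw [h4, abs_neg]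
    linarith
  · rw [hNapp]
    have e1 := (ha j).ne'
    have e2 := (ha' i).ne'
    field_simp

/-- products with the inverse of a near return -/
lemma T_eq {g : Matrix (Fin d) (Fin d) ℝ} (hg : g.det ≠ 0) {a a' : Fin d → ℝ}
    (ha : ∀ i, 0 < a i) {δ κ : Matrix (Fin d) (Fin d) ℤ}
    {N : Matrix (Fin d) (Fin d) ℝ} (hN : ∀ i j, cj g δ⁻¹ i j = (a' i)⁻¹ * N i j * a j)
    (i j : Fin d) :
    cj (diagonal a * g) (κ * δ⁻¹) i j = ∑ m, (a i * cj g κ i m * (a' m)⁻¹) * N m j := by
  rw [cj_diagonal hg (fun i => (ha i).ne'), cj_mul hg, Matrix.mul_apply, Finset.mul_sum]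
  refine Finset.sum_congr rfl fun m _ => ?_
  rw [hN]
  have := (ha j).ne'
  field_simp

end Pool.Agent.KS6_27
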