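import Mathlib
import Pool.Agent.KS6_27.Mat

/-! # A space with many nearly diagonal integer matrices has an exact eigenvector -/

set_option autoImplicit false
set_option linter.unusedSectionVars false

open Finset Matrix Filter Topology H715R2
open Pool.Agent.T6.H49.CSD (cj cj_one cj_mul cj_add cj_sub cj_smul cj_diagonal rigid)
open Pool.Agent.H393R2.Geom (abs_det_le)

namespace Pool.Agent.KS6_27

variable {d m : ℕ}

lemma exists_min_det {k : ℕ} {ι : Type} [Fintype ι] [DecidableEq ι] (M : ι → Fin k → ℝ) :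
    ∃ Δ : ℝ, 0 < Δ ∧ Δ ≤ 1 ∧ ∀ b : Fin k → ι, (sb M b).det ≠ 0 → Δ ≤ |(sb M b).det| := by
  classical
  by_cases hne : (Finset.univ.filter fun b : Fin k → ι => (sb M b).det ≠ 0).Nonempty
  · obtain ⟨b₀, hb₀, hmin⟩ := Finset.exists_min_image _ (fun b => |(sb M b).det|) hne
    refine ⟨min 1 |(sb M b₀).det|, lt_min one_pos (abs_pos.2 (Finset.mem_filter.1 hb₀).2),
      min_le_left _ _, fun b hb => (min_le_right _ _).trans ?_⟩
    exact hmin b (Finset.mem_filter.2 ⟨Finset.mem_univ _, hb⟩)
  · refine ⟨1, one_pos, le_rfl, fun b hb => absurd ?_ hne⟩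
    exact ⟨b, Finset.mem_filter.2 ⟨Finset.mem_univ _, hb⟩⟩

lemma iM_ne {u A : Fin m → Fin d × Fin d → ℤ} {D : ℤ} (hD : D ≠ 0)
    (hA : ∀ i j, ∑ a, A i a * u j a = if i = j then D else 0) {x : Fin m → ℤ} (hx : x ≠ 0) :
    iM (fun a => ∑ r, x r * u r a) ≠ 0 := by
  classical
  intro h0
  apply hx
  funext i
  have h1 : ∀ a : Fin d × Fin d, ∑ r, x r * u r a = 0 := by
    intro a
    have := congrFun (congrFun h0 a.1) a.2
    simpa [iM] using this
  have h2 : ∑ r, x r * (∑ a, A i a * u r a) = 0 := by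
    have h5 : ∑ r, x r * (∑ a, A i a * u r a) = ∑ a, A i a * ∑ r, x r * u r a := by
      simp only [Finset.mul_sum]
      rw [Finset.sum_comm]
      exact Finset.sum_congr rfl fun a _ => Finset.sum_congr rfl fun r _ => by ring
    rw [h5]
    exact Finset.sum_eq_zero fun a _ => by rw [h1, mul_zero]
  simp only [hA, mul_ite, mul_zero] at h2
  rw [Finset.sum_ite_eq Finset.univ i (fun r => x r * D), if_pos (Finset.mem_univ _)] at h2
  exact (mul_eq_zero.1 h2).resolve_right hD

theorem row_zero (hm : 0 < m) {g : Matrix (Fin d) (Fin d) ℝ} (hg : g.det ≠ 0)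
    {u A : Fin m → Fin d × Fin d → ℤ} {D : ℤ} (hD : D ≠ 0)
    (hA : ∀ i j, ∑ a, A i a * u j a = if i = j then D else 0) {η : ℝ} (hη : 0 < η) :
    ∃ C₀ : ℝ, ∀ a : Fin d → ℝ, (∀ i, 0 < a i) →
      (∀ κ : Matrix (Fin d) (Fin d) ℤ, κ ≠ 0 → ∃ i j, η ≤ |cj (diagonal a * g) κ i j|) →
      ∀ P δ' : ℝ, 1 ≤ P → 0 < δ' → δ' ≤ 1 →
      ∀ (w : Fin m → Matrix (Fin d) (Fin d) ℤ) (z : Matrix (Fin m) (Fin m) ℤ), z.det ≠ 0 →
      (∀ s, D • w s = iM fun a => ∑ r, z s r * u r a) →
      (∀ s, ND (diagonal a * g) (d * P) δ' (w s)) → C₀ + m * Real.log P < -Real.log δ' →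
      ∀ i, (∀ j, a j ≤ a i) → ∀ j, j ≠ i → ∀ r, cj g (iM (u r)) i j = 0 := by
  classical
  set M := Mf g u with hMdef
  obtain ⟨C, hC1, hC⟩ := abs_main hm M (exists_det_Mf hg hD hA) hη
    (fun p : Fin d × Fin d => p.1 ≠ p.2)
  obtain ⟨Δ, hΔ0, hΔ1, hΔ⟩ := exists_min_det M
  have hDR : (1 : ℝ) ≤ |(D : ℝ)| := by
    have := Int.one_le_abs hD
    exact_mod_cast this
  have hlogD : 0 ≤ Real.log |(D : ℝ)| := Real.log_nonneg hDR
  have hlogm : 0 ≤ Real.log (m.factorial : ℝ) := Real.log_nonneg (by
    exact_mod_cast Nat.succ_le_of_lt (Nat.factorial_pos m))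
  have hlogΔ : 0 ≤ -Real.log Δ := by
    have := Real.log_nonpos hΔ0.le hΔ1
    linarith
  refine ⟨C + (Real.log (m.factorial : ℝ) + m * Real.log |(D : ℝ)| - Real.log Δ), ?_⟩
  intro a ha hLB P δ' hP hδ0 hδ1 w z hz hw hND hbig i hi j hj r
  have hlogP : 0 ≤ Real.log P := Real.log_nonneg hP
  have hP0 : 0 < P := by linarith
  have hd0 : 0 < d := i.pos
  have hdR : (0 : ℝ) < d := by exact_mod_cast hd0
  set θ : Fin d × Fin d → ℝ := fun p => Real.log (a p.2) - Real.log (a p.1) with hθ
  have hexpθ : ∀ p, Real.exp (θ p) = a p.2 / a p.1 := by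
    intro p
    rw [hθ]
    simp only
    rw [Real.exp_sub, Real.exp_log (ha _), Real.exp_log (ha _)]
  set t : ℝ := Real.log (m.factorial : ℝ) + m * Real.log |(D : ℝ)| - Real.log Δ + m * Real.log P
    with ht
  set s : ℝ := -Real.log δ' with hs
  have ht0 : 0 ≤ t := by
    rw [ht]
    have h1 : 0 ≤ (m : ℝ) * Real.log |(D : ℝ)| := by positivity
    have h2 : 0 ≤ (m : ℝ) * Real.log P := by positivity
    linarith
  have hst : C + t < s := by
    rw [ht]
    linarith
  have hcjg : ∀ (κ : Matrix (Fin d) (Fin d) ℤ) (p : Fin d × Fin d),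
      cj g κ p.1 p.2 = Real.exp (θ p) * cj (diagonal a * g) κ p.1 p.2 := by
    intro κ p
    rw [hexpθ, cj_diagonal hg (fun i => (ha i).ne')]
    have e1 := (ha p.1).ne'
    have e2 := (ha p.2).ne'
    field_simp
  have hmain := (hC θ s t ht0 hst ?_ ?_).1
  · obtain ⟨b, hb, hbO, hbmin, hbO2⟩ := hmain
    -- the diagonal forms have weight zero
    have hzero : ∀ i', θ (b i') = 0 := by
      intro i'
      have h1 := hbO i'
      rw [not_not] at h1
      simp only [hθ]
      rw [h1, sub_self]
    have hcoef : ∀ i', (sb M (Function.update b i' (i, j))).det = 0 := by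
      intro i'
      by_contra hne
      have h1 := hbO2 (i, j) (fun h => hj h.symm) i' hne
      rw [hzero] at h1
      have h2 : θ (i, j) ≤ 0 := by
        simp only [hθ]
        have := Real.log_le_log (ha j) (hi j)
        linarith
      linarith
    have h3 := det_mul_fv M b (i, j) (Pi.single r 1)
    rw [Finset.sum_eq_zero (fun i' _ => by rw [hcoef i', zero_mul])] at h3
    have h4 : fv M (i, j) (Pi.single r 1) = 0 := (mul_eq_zero.1 h3).resolve_left hb
    have h5 : fv M (i, j) (Pi.single r 1) = cj g (iM (u r)) i j := by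
      unfold fv
      rw [Finset.sum_eq_single r]
      · simp [hMdef, Mf]
      · intro r' _ hr'
        rw [Pi.single_eq_of_ne hr']
        simp
      · intro h
        exact absurd (Finset.mem_univ r) h
    rw [← h5, h4]
  · -- the lower bound
    intro x hx
    obtain ⟨i', j', h1⟩ := hLB _ (iM_ne hD hA hx)
    refine ⟨(i', j'), ?_⟩
    rw [hMdef, fv_Mf, hcjg, abs_mul, abs_of_pos (Real.exp_pos _), mul_comm]
    exact mul_le_mul_of_nonneg_left h1 (Real.exp_pos _).le
  · -- the lower bound for the weights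
    intro b hb
    set Y : Matrix (Fin m) (Fin m) ℝ := Matrix.of fun i' s' => fv M (b i') (z s') with hY
    have hYdet : Y = sb M b * (z.map (Int.cast : ℤ → ℝ)).transpose := by
      ext i' s'
      rw [Matrix.mul_apply]
      rfl
    have hzdet : (z.map (Int.cast : ℤ → ℝ)).det = (z.det : ℝ) := by
      have := (Int.castRingHom ℝ).map_det z
      simpa using this.symm
    have h1 : Δ ≤ |Y.det| := by
      rw [hYdet, Matrix.det_mul, Matrix.det_transpose, hzdet, abs_mul]
      have h2 : (1 : ℝ) ≤ |(z.det : ℝ)| := by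
        have := Int.one_le_abs hz
        exact_mod_cast this
      calc Δ ≤ |(sb M b).det| * 1 := by rw [mul_one]; exact hΔ b hb
        _ ≤ _ := mul_le_mul_of_nonneg_left h2 (abs_nonneg _)
    set F : Fin d × Fin d → ℝ := fun p => if p.1 ≠ p.2 then δ' else 1 with hF
    have hF0 : ∀ p, 0 < F p := by
      intro p
      rw [hF]
      simp only
      split_ifs
      · exact hδ0
      · exact one_pos
    have hval : ∀ i' s', |Y i' s'| ≤ |(D : ℝ)| * (Real.exp (θ (b i')) * (P * F (b i'))) := by
      intro i' s'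
      have e1 : Y i' s' = D * cj g (w s') (b i').1 (b i').2 := by
        rw [hY, Matrix.of_apply, hMdef, fv_Mf, ← hw, cj_smul, Matrix.smul_apply, smul_eq_mul]
      rw [e1, abs_mul, hcjg, abs_mul, abs_of_pos (Real.exp_pos _)]
      refine mul_le_mul_of_nonneg_left ?_ (abs_nonneg _)
      refine mul_le_mul_of_nonneg_left ?_ (Real.exp_pos _).le
      rw [hF]
      simp only
      split_ifs with hoff
      · have h2 := (hND s').2 _ _ hoff
        rw [mul_assoc] at h2
        exact le_of_mul_le_mul_left h2 hdR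
      · have h2 := (hND s').1 (b i').1 (b i').2
        rw [mul_one]
        exact le_of_mul_le_mul_left h2 hdR
    have h2 := abs_det_le Y _ hval
    have h3 := h1.trans h2
    have hprod : (0 : ℝ) < ∏ i', |(D : ℝ)| * (Real.exp (θ (b i')) * (P * F (b i'))) :=
      Finset.prod_pos fun i' _ => by
        have := hF0 (b i')
        positivity
    have h4 := Real.log_le_log hΔ0 h3
    rw [Real.log_mul (by positivity) hprod.ne', Real.log_prod (fun i' _ => by
      have := hF0 (b i')
      positivity)] at h4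
    have h5 : ∀ i' ∈ (Finset.univ : Finset (Fin m)),
        Real.log (|(D : ℝ)| * (Real.exp (θ (b i')) * (P * F (b i')))) =
          (Real.log |(D : ℝ)| + Real.log P) +
          (θ (b i') - if (b i').1 ≠ (b i').2 then s else 0) := by
      intro i' _
      have h6 := hF0 (b i')
      rw [Real.log_mul (by positivity) (by positivity), Real.log_mul (by positivity)
        (by positivity), Real.log_exp, Real.log_mul (by positivity) h6.ne']
      have h7 : Real.log (F (b i')) = -(if (b i').1 ≠ (b i').2 then s else 0) := by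
        rw [hF]
        simp only
        split_ifs
        · rw [hs, neg_neg]
        · rw [Real.log_one, neg_zero]
      rw [h7]
      ring
    rw [Finset.sum_congr rfl h5, Finset.sum_add_distrib, Finset.sum_const, Finset.card_univ,
      Fintype.card_fin, nsmul_eq_mul] at h4
    rw [ht]
    linarith

end Pool.Agent.KS6_27
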