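import Mathlib
import Pool.Agent.KS6_27.Abs
import Pool.Graph.R_pool_sql_team_seeded_843ab51a.V1189.RT.SubQ

/-! # The subspace theorem for a generic sequence of integer points of a rational subspace -/

set_option autoImplicit false
set_option linter.unusedSectionVars false

open Finset Matrix Filter Topology

namespace Pool.Agent.KS6_27

/-- a common denominator -/
lemma exists_den {J : Type} [Fintype J] (f : J → ℚ) :
    ∃ N : ℕ, 0 < N ∧ ∀ i, ∃ z : ℤ, (N : ℚ) * f i = z := by
  classical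
  refine ⟨∏ i, (f i).den, Finset.prod_pos fun i _ => (f i).den_pos, fun i => ?_⟩
  rw [← Finset.mul_prod_erase _ _ (Finset.mem_univ i)]
  refine ⟨(∏ j ∈ Finset.univ.erase i, (f j).den : ℕ) * (f i).num, ?_⟩
  push_cast
  have h1 : ((f i).den : ℚ) * f i = (f i).num := by
    rw [mul_comm]
    exact Rat.mul_den_eq_num (f i)
  calc ((f i).den : ℚ) * (∏ j ∈ Finset.univ.erase i, ((f j).den : ℚ)) * f i =
        (∏ j ∈ Finset.univ.erase i, ((f j).den : ℚ)) * (((f i).den : ℚ) * f i) := by ring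
    _ = _ := by rw [h1]

/-- the rational vector of an integer vector -/
def iQ {J : Type} (x : J → ℤ) : J → ℚ := fun i => (x i : ℚ)

lemma iQ_ne {J : Type} {x : J → ℤ} (hx : x ≠ 0) : iQ x ≠ 0 := by
  intro h
  apply hx
  funext i
  have := congrFun h i
  simpa [iQ] using this

/-- **An integral basis of a rational subspace**, with integral coordinate functions. -/
theorem int_basis {J : Type} [Fintype J] [DecidableEq J] {k : ℕ} (W : Submodule ℚ (J → ℚ))
    (hW : Module.finrank ℚ W = k) :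
    ∃ (v A : Fin k → J → ℤ) (D : ℤ), D ≠ 0 ∧ (∀ j, iQ (v j) ∈ W) ∧
      (∀ i j, ∑ a, A i a * v j a = if i = j then D else 0) ∧
      ∀ x : J → ℤ, iQ x ∈ W → ∀ i, D * x i = ∑ j, (∑ a, A j a * x a) * v j i := by
  classical
  let w : Module.Basis (Fin k) ℚ W := Module.finBasisOfFinrankEq ℚ W hW
  have hden : ∀ j, ∃ N : ℕ, 0 < N ∧ ∀ i, ∃ z : ℤ, (N : ℚ) * (w j : J → ℚ) i = z :=
    fun j => exists_den _
  choose N hN0 hN using hden
  choose v hv using hN
  have hvw : ∀ j, iQ (v j) = (N j : ℚ) • ((w j : W) : J → ℚ) := by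
    intro j
    funext i
    rw [Pi.smul_apply, smul_eq_mul, hv]
    rfl
  have hvW : ∀ j, iQ (v j) ∈ W := fun j => by
    rw [hvw]
    exact W.smul_mem _ (w j).2
  have hNQ : ∀ j, (N j : ℚ) ≠ 0 := fun j => by exact_mod_cast (hN0 j).ne'
  -- coordinates
  have hext : ∀ j, ∃ f : (J → ℚ) →ₗ[ℚ] ℚ, ∀ u : W, f u = (N j : ℚ)⁻¹ * w.repr u j := by
    intro j
    obtain ⟨g, hg⟩ := LinearMap.exists_extend ((N j : ℚ)⁻¹ • (w.coord j))
    refine ⟨g, fun u => ?_⟩
    have := LinearMap.congr_fun hg u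
    rw [LinearMap.comp_apply, Submodule.subtype_apply] at this
    rw [this]
    simp
  choose f hf using hext
  have hfv : ∀ i j, f i (iQ (v j)) = if i = j then 1 else 0 := by
    intro i j
    have h1 := hf i ⟨iQ (v j), hvW j⟩
    have h2 : (⟨iQ (v j), hvW j⟩ : W) = (N j : ℚ) • w j := by
      apply Subtype.ext
      exact hvw j
    rw [h2, map_smul, Finsupp.smul_apply, w.repr_self, Finsupp.single_apply] at h1
    simp only [SetLike.val_smul] at h1
    rw [hvw]
    by_cases hij : i = j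
    · subst hij
      rw [if_pos rfl]
      rw [if_pos rfl] at h1
      rw [h1, smul_eq_mul, mul_one, inv_mul_cancel₀ (hNQ i)]
    · rw [if_neg hij]
      rw [if_neg (fun h => hij h.symm)] at h1
      rw [h1, smul_zero, mul_zero]
  have hrec : ∀ u ∈ W, u = ∑ j, f j u • iQ (v j) := by
    intro u hu
    have h1 := w.sum_repr ⟨u, hu⟩
    have h2 := congrArg (Subtype.val) h1
    rw [AddSubmonoidClass.coe_finsetSum] at h2
    simp only [SetLike.val_smul] at h2
    rw [← h2]
    refine Finset.sum_congr rfl fun j _ => ?_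
    rw [h2]
    have h3 := hf j ⟨u, hu⟩
    simp only at h3
    rw [h3, hvw, smul_smul]
    congr 1
    rw [mul_comm, ← mul_assoc, mul_inv_cancel₀ (hNQ j), one_mul]
  -- the common denominator of the coordinates
  obtain ⟨D, hD0, hD⟩ := exists_den (J := Fin k × J) fun q => f q.1 (Pi.single q.2 1)
  choose A hA using hD
  have hfx : ∀ j (y : J → ℤ), ((∑ i, A (j, i) * y i : ℤ) : ℚ) = D * f j (iQ y) := by
    intro j y
    have h1 : iQ y = ∑ i, (y i : ℚ) • (Pi.single i 1 : J → ℚ) := by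
      funext i
      rw [Finset.sum_apply]
      simp [Pi.single_apply, iQ]
    rw [h1, map_sum, Finset.mul_sum]
    push_cast
    refine Finset.sum_congr rfl fun i _ => ?_
    rw [← hA, map_smul, smul_eq_mul]
    ring
  refine ⟨v, fun j a => A (j, a), D, by exact_mod_cast hD0.ne', hvW, fun i j => ?_,
    fun x hx i => ?_⟩
  · have h1 := hfx i (v j)
    rw [hfv] at h1
    by_cases hij : i = j
    · rw [if_pos hij] at h1 ⊢
      rw [mul_one] at h1
      exact_mod_cast h1
    · rw [if_neg hij] at h1 ⊢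
      rw [mul_zero] at h1
      exact_mod_cast h1
  · have h1 := congrFun (hrec _ hx) i
    rw [Finset.sum_apply] at h1
    have h2 : ((D * x i : ℤ) : ℚ) = ((∑ j, (∑ i, A (j, i) * x i) * v j i : ℤ) : ℚ) := by
      rw [Int.cast_mul, Int.cast_sum]
      simp only [Int.cast_mul (∑ i, _) _, hfx]
      have h3 : ((x i : ℤ) : ℚ) = iQ x i := rfl
      rw [h3, h1, Finset.mul_sum]
      refine Finset.sum_congr rfl fun j _ => ?_
      rw [Pi.smul_apply, smul_eq_mul, mul_assoc]
      rfl
    exact_mod_cast h2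

/-- **The smallest rational subspace which contains infinitely many points of a sequence.** -/
theorem exists_generic {J : Type} [Fintype J] [DecidableEq J] (x : ℕ → J → ℤ)
    (hx : ∀ n, x n ≠ 0) :
    ∃ (k : ℕ) (v A : Fin k → J → ℤ) (D : ℤ) (φ : ℕ → ℕ) (z : ℕ → Fin k → ℤ), 0 < k ∧ D ≠ 0 ∧
      (∀ i j, ∑ a, A i a * v j a = if i = j then D else 0) ∧ StrictMono φ ∧
      (∀ n i, D * x (φ n) i = ∑ j, z n j * v j i) ∧
      ∀ y : Fin k → ℤ, y ≠ 0 → ∀ᶠ n in atTop, ∑ j, y j * z n j ≠ 0 := by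
  classical
  let P : ℕ → Prop := fun r => ∃ W : Submodule ℚ (J → ℚ), Module.finrank ℚ W = r ∧
    ∃ᶠ n in atTop, iQ (x n) ∈ W
  have hP : ∃ r, P r := ⟨Module.finrank ℚ (⊤ : Submodule ℚ (J → ℚ)), ⊤, rfl,
    Filter.Frequently.of_forall fun n => Submodule.mem_top⟩
  obtain ⟨W, hW, hfreq⟩ := Nat.find_spec hP
  set k := Nat.find hP with hk
  have hmin : ∀ W' : Submodule ℚ (J → ℚ), Module.finrank ℚ W' < k →
      ¬ ∃ᶠ n in atTop, iQ (x n) ∈ W' := by
    intro W' hW' hf
    exact Nat.find_min hP hW' ⟨W', rfl, hf⟩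
  obtain ⟨φ, hφ, hφW⟩ := extraction_of_frequently_atTop hfreq
  have hk0 : 0 < k := by
    rcases Nat.eq_zero_or_pos k with h | h
    · exfalso
      rw [h] at hW
      have h1 : W = ⊥ := Submodule.finrank_eq_zero.1 hW
      have h2 := hφW 0
      rw [h1, Submodule.mem_bot] at h2
      exact iQ_ne (hx _) h2
    · exact h
  obtain ⟨v, A, D, hD0, hvW, hAv, hrec⟩ := int_basis W hW
  refine ⟨k, v, A, D, φ, fun n j => ∑ a, A j a * x (φ n) a, hk0, hD0, hAv, hφ,
    fun n i => hrec _ (hφW n) i, fun y hy => ?_⟩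
  by_contra hcon
  rw [Filter.not_eventually] at hcon
  -- the linear form
  set g : (J → ℚ) →ₗ[ℚ] ℚ :=
    ∑ a, (((∑ j, y j * A j a : ℤ) : ℚ)) • (LinearMap.proj a : (J → ℚ) →ₗ[ℚ] ℚ) with hg
  have hgapp : ∀ u : J → ℤ, g (iQ u) = ((∑ j, y j * ∑ a, A j a * u a : ℤ) : ℚ) := by
    intro u
    rw [hg, LinearMap.sum_apply]
    simp only [LinearMap.smul_apply, LinearMap.proj_apply, smul_eq_mul, iQ]
    push_cast
    simp only [Finset.sum_mul, Finset.mul_sum]
    rw [Finset.sum_comm]
    refine Finset.sum_congr rfl fun j _ => Finset.sum_congr rfl fun a _ => ?_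
    ring
  obtain ⟨j₀, hj₀⟩ := Function.ne_iff.1 hy
  have hlt : W ⊓ LinearMap.ker g < W := by
    refine lt_of_le_of_ne inf_le_left fun h => ?_
    have h1 : iQ (v j₀) ∈ W ⊓ LinearMap.ker g := by
      rw [h]
      exact hvW j₀
    have h2 := (Submodule.mem_inf.1 h1).2
    rw [LinearMap.mem_ker, hgapp] at h2
    simp only [hAv, mul_ite, mul_zero] at h2
    rw [Finset.sum_ite_eq' Finset.univ j₀ (fun j => y j * D), if_pos (Finset.mem_univ _)] at h2
    have h3 : y j₀ * D = 0 := by exact_mod_cast h2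
    exact (mul_ne_zero hj₀ hD0) h3
  refine hmin (W ⊓ LinearMap.ker g) (by rw [← hW]; exact Submodule.finrank_lt_finrank_of_lt hlt) ?_
  have h1 : ∃ᶠ n in atTop, iQ (x (φ n)) ∈ W ⊓ LinearMap.ker g := by
    refine hcon.mono fun n hn => Submodule.mem_inf.2 ⟨hφW n, ?_⟩
    rw [not_not] at hn
    rw [LinearMap.mem_ker, hgapp]
    exact_mod_cast hn
  exact hφ.tendsto_atTop.frequently h1

/-- **The subspace theorem for a generic sequence**, for all choices of independent forms. -/
theorem subspace_seq {k : ℕ} (hk : 0 < k) {ι : Type} [Fintype ι] [DecidableEq ι]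
    (M : ι → Fin k → ℝ) (halg : ∀ p j, IsAlgebraic ℚ (M p j)) (z : ℕ → Fin k → ℤ)
    (hz : ∀ n, z n ≠ 0)
    (hgen : ∀ y : Fin k → ℤ, y ≠ 0 → ∀ᶠ n in atTop, ∑ j, y j * z n j ≠ 0)
    (L : ℕ → ℝ) (hL : Tendsto L atTop atTop) (w : ℕ → ι → ℝ) (C₀ C₁ : ℝ) (hC₁ : 0 < C₁)
    (hw : ∀ n p, |w n p| ≤ C₀ * L n)
    (hb : ∀ n p, |fv M p (z n)| ≤ C₁ * Real.exp (w n p)) {η : ℝ} (hη : 0 < η) :
    ∀ᶠ n in atTop, ∀ b : Fin k → ι, (sb M b).det ≠ 0 → -(η * L n) ≤ ∑ i, w n (b i) := by
  classical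
  have hne : Nonempty (Fin k) := ⟨⟨0, hk⟩⟩
  rw [Filter.eventually_all]
  intro b
  by_cases hdet : (sb M b).det = 0
  · exact Filter.Eventually.of_forall fun n h => absurd hdet h
  by_contra hcon
  rw [Filter.not_eventually] at hcon
  have hcon' : ∃ᶠ n in atTop, ∑ i, w n (b i) < -(η * L n) := by
    refine hcon.mono fun n hn => ?_
    push Not at hn
    exact hn.2
  have hbig : ∀ᶠ n in atTop, 1 ≤ L n ∧ k * Real.log C₁ ≤ η / 2 * L n := by
    have h2 := hL.eventually (eventually_ge_atTop (1 : ℝ))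
    have h3 := hL.eventually (eventually_ge_atTop (k * Real.log C₁ / (η / 2)))
    filter_upwards [h2, h3] with n h2 h3
    refine ⟨h2, ?_⟩
    rw [div_le_iff₀ (by positivity)] at h3
    linarith
  obtain ⟨ψ, hψ, hψb⟩ := extraction_of_frequently_atTop (hcon'.and_eventually hbig)
  set c : ℝ := |C₀| + |Real.log C₁| + 1 with hc
  have habs0 : 0 ≤ |C₀| := abs_nonneg _
  have habs1 : 0 ≤ |Real.log C₁| := abs_nonneg _
  obtain ⟨y, hy, hyf⟩ := Pool.Agent.V1189.RT.subR (sb M b) (fun i j => halg (b i) j) hdet 0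
    (fun v => v.elim0) (fun v => v.elim0) c (η / 2) (by rw [hc]; linarith) (by positivity)
    (fun t => L (ψ t)) (hL.comp hψ.tendsto_atTop) (fun _ v => v.elim0) (fun _ _ => 1)
    (fun t l => by simp) (fun t i => C₁ * Real.exp (w (ψ t) (b i)))
    (fun t i => by positivity) (fun t i => by
      rw [Real.log_mul hC₁.ne' (Real.exp_pos _).ne', Real.log_exp]
      refine (abs_add_le _ _).trans ?_
      have h1 := hw (ψ t) (b i)
      have h2 := (hψb t).2.1
      have h3 : C₀ * L (ψ t) ≤ |C₀| * L (ψ t) :=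
        mul_le_mul_of_nonneg_right (le_abs_self _) (by linarith)
      have h4 : |Real.log C₁| ≤ |Real.log C₁| * L (ψ t) := le_mul_of_one_le_right habs1 h2
      rw [hc]
      have h5 : (|C₀| + |Real.log C₁| + 1) * L (ψ t) =
        |C₀| * L (ψ t) + |Real.log C₁| * L (ψ t) + L (ψ t) := by ring
      rw [h5]
      linarith) (fun t => by
      simp only [Nat.cast_one, Real.log_one, Finset.sum_const_zero]
      have := (hψb t).2.1
      have h2 : 0 ≤ c := by rw [hc]; linarith
      positivity) (fun t => by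
      simp only [Nat.cast_one, Real.log_one, Finset.sum_const_zero]
      have h1 : ∑ i, Real.log (C₁ * Real.exp (w (ψ t) (b i))) =
          k * Real.log C₁ + ∑ i, w (ψ t) (b i) := by
        have h0 : ∀ i ∈ (Finset.univ : Finset (Fin k)),
            Real.log (C₁ * Real.exp (w (ψ t) (b i))) = Real.log C₁ + w (ψ t) (b i) := fun i _ => by
          rw [Real.log_mul hC₁.ne' (Real.exp_pos _).ne', Real.log_exp]
        rw [Finset.sum_congr rfl h0, Finset.sum_add_distrib, Finset.sum_const, Finset.card_univ,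
          Fintype.card_fin, nsmul_eq_mul]
      rw [h1]
      have h2 := (hψb t).1
      have h3 := (hψb t).2.2
      linarith) (fun t => z (ψ t)) (fun t => hz _) (fun t i => by
      simp only [Nat.cast_one, one_mul]
      exact hb (ψ t) (b i))
  have h1 := hgen y hy
  have h2 := (hψ.tendsto_atTop.eventually h1)
  obtain ⟨t, ht1, ht2⟩ := (hyf.and_eventually h2).exists
  apply ht2
  rw [← ht1]
  refine Finset.sum_congr rfl fun j _ => ?_
  simp

end Pool.Agent.KS6_27
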