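import Mathlib
import Pool.Agent.KS6_27.Row
import Pool.Agent.KS6_27.Alg
import Pool.Agent.KS6_27.Sub

/-! # The structure of a sequence of exponentially good returns -/

set_option autoImplicit false
set_option linter.unusedSectionVars false

open Finset Matrix Filter Topology H715R2
open Pool.Agent.T6.H49.CSD (cj cj_one cj_mul cj_add cj_sub cj_smul cj_diagonal rigid)
open scoped Pointwise

namespace Pool.Agent.KS6_27

variable {d k : ℕ}

/-- integer matrices as rational matrices -/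
noncomputable def zQ : Matrix (Fin d) (Fin d) ℤ →+* Matrix (Fin d) (Fin d) ℚ :=
  (Int.castRingHom ℚ).mapMatrix

lemma zQ_apply (γ : Matrix (Fin d) (Fin d) ℤ) (i j : Fin d) : zQ γ i j = (γ i j : ℚ) := rfl

lemma zQ_det (γ : Matrix (Fin d) (Fin d) ℤ) : (zQ γ).det = (γ.det : ℚ) :=
  ((Int.castRingHom ℚ).map_det γ).symm

lemma zQ_unit {γ : Matrix (Fin d) (Fin d) ℤ} (h : IsUnit γ.det) : IsUnit (zQ γ).det := by
  rw [zQ_det, isUnit_iff_ne_zero]
  rcases Int.isUnit_iff.1 h with h | h <;> simp [h]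

lemma zQ_inv {γ : Matrix (Fin d) (Fin d) ℤ} (h : IsUnit γ.det) : zQ γ⁻¹ = (zQ γ)⁻¹ := by
  symm
  refine Matrix.inv_eq_left_inv ?_
  rw [← map_mul, Matrix.nonsing_inv_mul _ h, map_one]

lemma zQ_inj {γ δ : Matrix (Fin d) (Fin d) ℤ} (h : zQ γ = zQ δ) : γ = δ := by
  ext i j
  have := congrFun (congrFun h i) j
  rw [zQ_apply, zQ_apply] at this
  exact_mod_cast this

/-- vectors indexed by pairs as matrices -/
def mat : (Fin d × Fin d → ℚ) ≃ₗ[ℚ] Matrix (Fin d) (Fin d) ℚ where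
  toFun v := Matrix.of fun i j => v (i, j)
  invFun X := fun p => X p.1 p.2
  map_add' _ _ := rfl
  map_smul' _ _ := rfl
  left_inv _ := rfl
  right_inv _ := rfl

lemma mat_iQ (γ : Matrix (Fin d) (Fin d) ℤ) : mat (iQ (vc γ)) = zQ γ := rfl

lemma ND.mono {h : Matrix (Fin d) (Fin d) ℝ} {Q δ δ' : ℝ} (hQ : 0 ≤ Q) (hδ : δ ≤ δ')
    {τ : Matrix (Fin d) (Fin d) ℤ} (h1 : ND h Q δ τ) : ND h Q δ' τ :=
  ⟨h1.1, fun i j hij => (h1.2 i j hij).trans (mul_le_mul_of_nonneg_left hδ hQ)⟩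

/-- products of nearly diagonal matrices -/
lemma nd_words {h : Matrix (Fin d) (Fin d) ℝ} (hh : h.det ≠ 0) {Q δ : ℝ} (hQ : 0 ≤ Q)
    (hδ : 0 ≤ δ) (τ : Fin k → Matrix (Fin d) (Fin d) ℤ) (hτ : ∀ r, ND h Q δ (τ r)) (N : ℕ) :
    ∀ X ∈ (Set.range fun r => zQ (τ r)) ^ N, ∃ w : Matrix (Fin d) (Fin d) ℤ, zQ w = X ∧
      ND h (d * Q ^ N) (N * δ) w := by
  induction N with
  | zero =>
    intro X hX
    rw [pow_zero, Set.mem_one] at hX
    refine ⟨1, by rw [map_one, hX], fun i j => ?_, fun i j hij => ?_⟩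
    · rw [cj_one hh, pow_zero, mul_one]
      have : |(1 : Matrix (Fin d) (Fin d) ℝ) i j| ≤ 1 := by
        by_cases hij : i = j
        · subst hij
          rw [Matrix.one_apply_eq, abs_one]
        · rw [Matrix.one_apply_ne hij, abs_zero]
          exact zero_le_one
      exact mul_le_of_le_one_right (Nat.cast_nonneg d) this
    · rw [cj_one hh, Matrix.one_apply_ne hij]
      simp
  | succ N ih =>
    intro X hX
    rw [pow_succ, Set.mem_mul] at hX
    obtain ⟨X₁, hX₁, X₂, ⟨r, rfl⟩, rfl⟩ := hX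
    obtain ⟨w, hw, hwND⟩ := ih X₁ hX₁
    refine ⟨w * τ r, by rw [map_mul, hw], ?_⟩
    have h1 := ND.mul hh (by positivity) hQ (by positivity) hδ hwND (hτ r)
    have e1 : (d : ℝ) * Q ^ N * Q = d * Q ^ (N + 1) := by rw [pow_succ]; ring
    have e2 : (N : ℝ) * δ + δ = ((N + 1 : ℕ) : ℝ) * δ := by push_cast; ring
    rw [e1, e2] at h1
    exact h1

/-- quotients of small integer matrices by near returns are nearly diagonal -/
lemma nd_tau {g : Matrix (Fin d) (Fin d) ℝ} (hg : g.det ≠ 0) {K ε : ℝ} (hK : 1 ≤ K)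
    (hε : 0 ≤ ε) {a a' : Fin d → ℝ} (ha : ∀ i, 0 < a i)
    {δ κ : Matrix (Fin d) (Fin d) ℤ} {N : Matrix (Fin d) (Fin d) ℝ} (hN1 : ∀ i j, |N i j| ≤ 2 * K)
    (hN2 : ∀ i j, i ≠ j → |N i j| ≤ 2 * K * (d * ε))
    (hN : ∀ i j, cj g δ⁻¹ i j = (a' i)⁻¹ * N i j * a j) {X y : ℝ} (hX : 0 ≤ X) (hy : 0 ≤ y)
    (h1 : ∀ i m, |a i * cj g κ i m * (a' m)⁻¹| ≤ X)
    (h2 : ∀ i m, i ≠ m → |a i * cj g κ i m * (a' m)⁻¹| ≤ X * y) :
    ND (diagonal a * g) (2 * K * d ^ 2 * X) (d * ε + y) (κ * δ⁻¹) := by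
  have hd0 : (0 : ℝ) ≤ d := Nat.cast_nonneg d
  constructor
  · intro i j
    rw [T_eq hg ha hN]
    have h3 : |∑ m, (a i * cj g κ i m * (a' m)⁻¹) * N m j| ≤ d * (X * (2 * K)) := by
      calc |∑ m, (a i * cj g κ i m * (a' m)⁻¹) * N m j| ≤
            ∑ m, |(a i * cj g κ i m * (a' m)⁻¹) * N m j| := Finset.abs_sum_le_sum_abs _ _
        _ ≤ ∑ _m : Fin d, X * (2 * K) := by
            refine Finset.sum_le_sum fun m _ => ?_
            rw [abs_mul]
            exact mul_le_mul (h1 i m) (hN1 m j) (abs_nonneg _) hX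
        _ = _ := by rw [Finset.sum_const, Finset.card_univ, Fintype.card_fin, nsmul_eq_mul]
    calc (d : ℝ) * |∑ m, (a i * cj g κ i m * (a' m)⁻¹) * N m j| ≤ d * (d * (X * (2 * K))) :=
          mul_le_mul_of_nonneg_left h3 hd0
      _ = _ := by ring
  · intro i j hij
    rw [T_eq hg ha hN]
    have h3 : |∑ m, (a i * cj g κ i m * (a' m)⁻¹) * N m j| ≤ d * (2 * K * X * (d * ε + y)) := by
      calc |∑ m, (a i * cj g κ i m * (a' m)⁻¹) * N m j| ≤
            ∑ m, |(a i * cj g κ i m * (a' m)⁻¹) * N m j| := Finset.abs_sum_le_sum_abs _ _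
        _ ≤ ∑ _m : Fin d, 2 * K * X * (d * ε + y) := by
            refine Finset.sum_le_sum fun m _ => ?_
            rw [abs_mul]
            have hdε : 0 ≤ d * ε := by positivity
            by_cases him : i = m
            · subst him
              calc |a i * cj g κ i i * (a' i)⁻¹| * |N i j| ≤ X * (2 * K * (d * ε)) :=
                    mul_le_mul (h1 i i) (hN2 i j hij) (abs_nonneg _) hX
                _ = 2 * K * X * (d * ε) := by ring
                _ ≤ _ := mul_le_mul_of_nonneg_left (by linarith) (by positivity)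
            · calc |a i * cj g κ i m * (a' m)⁻¹| * |N m j| ≤ (X * y) * (2 * K) :=
                    mul_le_mul (h2 i m him) (hN1 m j) (abs_nonneg _) (by positivity)
                _ = 2 * K * X * y := by ring
                _ ≤ _ := mul_le_mul_of_nonneg_left (by linarith) (by positivity)
        _ = _ := by rw [Finset.sum_const, Finset.card_univ, Fintype.card_fin, nsmul_eq_mul]
    calc (d : ℝ) * |∑ m, (a i * cj g κ i m * (a' m)⁻¹) * N m j| ≤
          d * (d * (2 * K * X * (d * ε + y))) := mul_le_mul_of_nonneg_left h3 hd0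
      _ = _ := by ring

/-- the span of the small matrices -/
lemma span_kappa {v : Fin k → Fin d × Fin d → ℤ} {G : Matrix (Fin k) (Fin k) ℤ}
    (hG : G.det ≠ 0) :
    Submodule.span ℚ (Set.range fun r => zQ (iM (v r))) ≤
      Submodule.span ℚ (Set.range fun r => zQ (iM fun a => ∑ j, G r j * v j a)) := by
  classical
  rw [Submodule.span_le]
  rintro _ ⟨i, rfl⟩
  have hk : ∀ r, zQ (iM fun a => ∑ j, G r j * v j a) = ∑ j, (G r j : ℚ) • zQ (iM (v j)) := by
    intro r
    ext a b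
    rw [Matrix.sum_apply, zQ_apply]
    simp only [iM, Matrix.of_apply, Matrix.smul_apply, smul_eq_mul, zQ_apply]
    push_cast
    rfl
  have hcomb : (G.det : ℚ) • zQ (iM (v i)) =
      ∑ r, (G.adjugate i r : ℚ) • zQ (iM fun a => ∑ j, G r j * v j a) := by
    simp only [hk, Finset.smul_sum, smul_smul]
    rw [Finset.sum_comm]
    simp only [← Finset.sum_smul]
    have h1 : ∀ j, ∑ r, (G.adjugate i r : ℚ) * (G r j : ℚ) = if i = j then (G.det : ℚ) else 0 := by
      intro j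
      have h2 := congrFun (congrFun (Matrix.adjugate_mul G) i) j
      rw [Matrix.mul_apply, Matrix.smul_apply, Matrix.one_apply, smul_eq_mul, mul_ite, mul_one,
        mul_zero] at h2
      have h3 : ((∑ r, G.adjugate i r * G r j : ℤ) : ℚ) = ((if i = j then G.det else 0 : ℤ) : ℚ) := by
        rw [h2]
      simp only [Int.cast_sum, Int.cast_mul, Int.cast_ite, Int.cast_zero] at h3
      rw [h3]
    simp only [h1, ite_smul, zero_smul]
    rw [Finset.sum_ite_eq Finset.univ i, if_pos (Finset.mem_univ _)]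
  have hdet : (G.det : ℚ) ≠ 0 := by exact_mod_cast hG
  have h1 : zQ (iM (v i)) = (G.det : ℚ)⁻¹ •
      ∑ r, (G.adjugate i r : ℚ) • zQ (iM fun a => ∑ j, G r j * v j a) := by
    rw [← hcomb, smul_smul, inv_mul_cancel₀ hdet, one_smul]
  change zQ (iM (v i)) ∈ _
  rw [h1]
  refine Submodule.smul_mem _ _ (Submodule.sum_mem _ fun r _ => Submodule.smul_mem _ _ ?_)
  exact Submodule.subset_span ⟨r, rfl⟩

end Pool.Agent.KS6_27
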