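import Mathlib
import Pool.Agent.KS6_27.Str

/-! # The field of the rational matrices with a given left eigenvector -/

set_option autoImplicit false
set_option linter.unusedSectionVars false

open Finset Matrix Filter Topology H715R2 Module
open Pool.Agent.T6.H49.CSD (cj cj_one cj_mul cj_add cj_sub cj_smul cj_diagonal rigid
  cj_mul_right)

namespace Pool.Agent.KS6_27

variable {d : ℕ}

/-- the row `r` is an eigenvector of the rational matrix `X`, with eigenvalue `x` -/
def Eg (r : Fin d → ℝ) (X : Matrix (Fin d) (Fin d) ℚ) (x : ℝ) : Prop :=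
  ∀ j, ∑ l, r l * (X l j : ℝ) = x * r j

/-- the entries of `r` are independent over `ℚ` -/
def Ind (r : Fin d → ℝ) : Prop := ∀ y : Fin d → ℚ, ∑ j, r j * (y j : ℝ) = 0 → y = 0

lemma ind_of_int {r : Fin d → ℝ} (h : ∀ y : Fin d → ℤ, y ≠ 0 → ∑ j, r j * (y j : ℝ) ≠ 0) :
    Ind r := by
  classical
  intro y hy
  by_contra hne
  obtain ⟨N, hN0, hN⟩ := exists_den y
  choose z hz using hN
  have hz0 : z ≠ 0 := by
    intro h0
    apply hne
    funext i
    have h1 := hz i
    rw [h0] at h1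
    have hNQ : (N : ℚ) ≠ 0 := by exact_mod_cast hN0.ne'
    have h2 : (N : ℚ) * y i = 0 := by rw [h1]; simp
    exact (mul_eq_zero.1 h2).resolve_left hNQ
  apply h z hz0
  have h1 : ∀ j, (z j : ℝ) = N * (y j : ℝ) := by
    intro j
    have := congrArg (Rat.cast : ℚ → ℝ) (hz j)
    push_cast at this
    exact this.symm
  calc ∑ j, r j * (z j : ℝ) = N * ∑ j, r j * (y j : ℝ) := by
        rw [Finset.mul_sum]
        refine Finset.sum_congr rfl fun j _ => ?_
        rw [h1]
        ring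
    _ = 0 := by rw [hy, mul_zero]

lemma Eg.mul {r : Fin d → ℝ} {X Y : Matrix (Fin d) (Fin d) ℚ} {x y : ℝ} (hX : Eg r X x)
    (hY : Eg r Y y) : Eg r (X * Y) (x * y) := by
  intro j
  simp only [Matrix.mul_apply]
  push_cast
  simp only [Finset.mul_sum]
  rw [Finset.sum_comm]
  calc ∑ m, ∑ l, r l * ((X l m : ℝ) * (Y m j : ℝ)) =
        ∑ m, (∑ l, r l * (X l m : ℝ)) * (Y m j : ℝ) := by
        refine Finset.sum_congr rfl fun m _ => ?_
        rw [Finset.sum_mul]
        exact Finset.sum_congr rfl fun l _ => by ring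
    _ = ∑ m, x * (r m * (Y m j : ℝ)) := by
        refine Finset.sum_congr rfl fun m _ => ?_
        rw [hX m]
        ring
    _ = x * y * r j := by rw [← Finset.mul_sum, hY j]; ring

lemma Eg.add {r : Fin d → ℝ} {X Y : Matrix (Fin d) (Fin d) ℚ} {x y : ℝ} (hX : Eg r X x)
    (hY : Eg r Y y) : Eg r (X + Y) (x + y) := by
  intro j
  simp only [Matrix.add_apply]
  push_cast
  simp only [mul_add, Finset.sum_add_distrib, hX j, hY j, add_mul]

lemma Eg.algebraMap (r : Fin d → ℝ) (q : ℚ) :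
    Eg r (algebraMap ℚ (Matrix (Fin d) (Fin d) ℚ) q) (q : ℝ) := by
  intro j
  rw [Finset.sum_eq_single j]
  · rw [Matrix.algebraMap_matrix_apply, if_pos rfl]
    simp [mul_comm]
  · intro l _ hl
    rw [Matrix.algebraMap_matrix_apply, if_neg hl]
    simp
  · intro h
    exact absurd (Finset.mem_univ j) h

lemma Eg.unique {r : Fin d → ℝ} (hr : Ind r) {X Y : Matrix (Fin d) (Fin d) ℚ} {x : ℝ}
    (hX : Eg r X x) (hY : Eg r Y x) : X = Y := by
  ext l j
  have h1 := hr (fun l => X l j - Y l j) (by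
    have h2 : ∑ l, r l * ((X l j - Y l j : ℚ) : ℝ) =
        (∑ l, r l * (X l j : ℝ)) - ∑ l, r l * (Y l j : ℝ) := by
      rw [← Finset.sum_sub_distrib]
      refine Finset.sum_congr rfl fun l _ => ?_
      push_cast
      ring
    rw [h2, hX j, hY j, sub_self])
  have := congrFun h1 l
  simp only [Pi.zero_apply] at this
  linarith

lemma Eg.mulVec {r : Fin d → ℝ} {X : Matrix (Fin d) (Fin d) ℚ} {x : ℝ} (hX : Eg r X x)
    (y : Fin d → ℚ) : ∑ l, r l * ((X *ᵥ y) l : ℝ) = x * ∑ j, r j * (y j : ℝ) := by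
  simp only [Matrix.mulVec, dotProduct]
  push_cast
  simp only [Finset.mul_sum]
  rw [Finset.sum_comm]
  refine Finset.sum_congr rfl fun j _ => ?_
  have := hX j
  calc ∑ l, r l * ((X l j : ℝ) * (y j : ℝ)) = (∑ l, r l * (X l j : ℝ)) * (y j : ℝ) := by
        rw [Finset.sum_mul]
        exact Finset.sum_congr rfl fun l _ => by ring
    _ = _ := by rw [this]; ring

lemma Eg.det_ne {r : Fin d → ℝ} (hr : Ind r) {X : Matrix (Fin d) (Fin d) ℚ} {x : ℝ}
    (hX : Eg r X x) (hx : x ≠ 0) : X.det ≠ 0 := by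
  intro h0
  obtain ⟨y, hy0, hy⟩ := Matrix.exists_mulVec_eq_zero_iff.2 h0
  apply hy0
  apply hr
  have h1 := hX.mulVec y
  rw [hy] at h1
  simp only [Pi.zero_apply, Rat.cast_zero, mul_zero, Finset.sum_const_zero] at h1
  exact (mul_eq_zero.1 h1.symm).resolve_left hx

lemma Eg.inv {r : Fin d → ℝ} (hr : Ind r) {X : Matrix (Fin d) (Fin d) ℚ} {x : ℝ}
    (hX : Eg r X x) (hx : x ≠ 0) : Eg r X⁻¹ x⁻¹ := by
  have hdet := isUnit_iff_ne_zero.2 (hX.det_ne hr hx)
  intro j
  have h1 := fun l => hX l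
  have h2 : ∑ m, (∑ l, r l * (X l m : ℝ)) * (X⁻¹ m j : ℝ) = r j := by
    have h3 : X * X⁻¹ = 1 := Matrix.mul_nonsing_inv _ hdet
    calc ∑ m, (∑ l, r l * (X l m : ℝ)) * (X⁻¹ m j : ℝ) =
          ∑ l, r l * ((X * X⁻¹) l j : ℝ) := by
          simp only [Matrix.mul_apply]
          push_cast
          simp only [Finset.mul_sum, Finset.sum_mul]
          rw [Finset.sum_comm]
          exact Finset.sum_congr rfl fun l _ => Finset.sum_congr rfl fun m _ => by ring
      _ = r j := by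
          rw [h3, Finset.sum_eq_single j]
          · simp
          · intro l _ hl
            rw [Matrix.one_apply_ne hl]
            simp
          · intro h
            exact absurd (Finset.mem_univ j) h
  simp only [hX _] at h2
  have h4 : x * ∑ m, r m * (X⁻¹ m j : ℝ) = r j := by
    rw [Finset.mul_sum]
    rw [← h2]
    exact Finset.sum_congr rfl fun m _ => by ring
  rw [← h4, ← mul_assoc, inv_mul_cancel₀ hx, one_mul]

/-- the field of the eigenvalues -/
noncomputable def Kf (r : Fin d → ℝ) (hr : Ind r) : IntermediateField ℚ ℝ where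
  carrier := {x | ∃ X, Eg r X x}
  mul_mem' := by
    rintro x y ⟨X, hX⟩ ⟨Y, hY⟩
    exact ⟨X * Y, hX.mul hY⟩
  add_mem' := by
    rintro x y ⟨X, hX⟩ ⟨Y, hY⟩
    exact ⟨X + Y, hX.add hY⟩
  algebraMap_mem' := fun q => ⟨_, Eg.algebraMap r q⟩
  inv_mem' := by
    rintro x ⟨X, hX⟩
    by_cases hx : x = 0
    · subst hx
      rw [_root_.inv_zero]
      exact ⟨X, hX⟩
    · exact ⟨_, hX.inv hr hx⟩

lemma mem_Kf {r : Fin d → ℝ} {hr : Ind r} {x : ℝ} : x ∈ Kf r hr ↔ ∃ X, Eg r X x := Iff.rfl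

/-- the matrix with a given eigenvalue -/
noncomputable def ψf (r : Fin d → ℝ) (hr : Ind r) :
    Kf r hr →ₐ[ℚ] Matrix (Fin d) (Fin d) ℚ where
  toFun x := (mem_Kf.1 x.2).choose
  map_one' := by
    refine Eg.unique hr (mem_Kf.1 (1 : Kf r hr).2).choose_spec ?_
    have := Eg.algebraMap r 1
    rw [map_one] at this
    simpa using this
  map_mul' x y := Eg.unique hr (mem_Kf.1 (x * y : Kf r hr).2).choose_spec
    ((mem_Kf.1 x.2).choose_spec.mul (mem_Kf.1 y.2).choose_spec)
  map_zero' := by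
    refine Eg.unique hr (mem_Kf.1 (0 : Kf r hr).2).choose_spec ?_
    have := Eg.algebraMap r 0
    rw [map_zero] at this
    simpa using this
  map_add' x y := Eg.unique hr (mem_Kf.1 (x + y : Kf r hr).2).choose_spec
    ((mem_Kf.1 x.2).choose_spec.add (mem_Kf.1 y.2).choose_spec)
  commutes' q := Eg.unique hr (mem_Kf.1 (algebraMap ℚ (Kf r hr) q).2).choose_spec
    (Eg.algebraMap r q)

lemma ψf_spec {r : Fin d → ℝ} {hr : Ind r} (x : Kf r hr) : Eg r (ψf r hr x) (x : ℝ) :=
  (mem_Kf.1 x.2).choose_spec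

variable (r : Fin d → ℝ) (hr : Ind r)

lemma ψf_inj (hd : 0 < d) : Function.Injective (ψf r hr) := by
  have : Nonempty (Fin d) := ⟨⟨0, hd⟩⟩
  exact (ψf r hr).toRingHom.injective

lemma Kf_fin (hd : 0 < d) : FiniteDimensional ℚ (Kf r hr) :=
  FiniteDimensional.of_injective (ψf r hr).toLinearMap (ψf_inj r hr hd)

lemma Kf_dvd : finrank ℚ (Kf r hr) ∣ d := by
  let f : Kf r hr →+* Module.End ℚ (Fin d → ℚ) :=
    (Matrix.toLinAlgEquiv' : Matrix (Fin d) (Fin d) ℚ ≃ₐ[ℚ] _).toRingHom.comp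
      (ψf r hr).toRingHom
  let _ : Module (Kf r hr) (Fin d → ℚ) := Module.compHom (Fin d → ℚ) f
  have hsmul : ∀ (x : Kf r hr) (v : Fin d → ℚ), x • v = (ψf r hr x) *ᵥ v := fun x v => rfl
  have : IsScalarTower ℚ (Kf r hr) (Fin d → ℚ) := by
    refine ⟨fun q x v => ?_⟩
    rw [hsmul, hsmul, map_smul, Matrix.smul_mulVec]
  have h1 := Module.finrank_mul_finrank ℚ (Kf r hr) (Fin d → ℚ)
  rw [Module.finrank_fin_fun] at h1
  exact ⟨_, h1.symm⟩

lemma Kf_full (hd : 0 < d) (h : finrank ℚ (Kf r hr) = d) :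
    ∃ s : ℝ, s ≠ 0 ∧ ∀ j, s * r j ∈ Kf r hr := by
  classical
  set o : Fin d := ⟨0, hd⟩ with ho
  have hro : r o ≠ 0 := by
    intro h0
    have h1 := hr (Pi.single o 1) (by
      rw [Finset.sum_eq_single o]
      · rw [h0, zero_mul]
      · intro j _ hj
        rw [Pi.single_eq_of_ne hj]
        simp
      · intro hh
        exact absurd (Finset.mem_univ o) hh)
    have h2 := congrFun h1 o
    simp at h2
  let F : Kf r hr →ₗ[ℚ] (Fin d → ℚ) :=
    { toFun := fun x => (ψf r hr x) *ᵥ (Pi.single o 1)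
      map_add' := fun x y => by rw [map_add, Matrix.add_mulVec]
      map_smul' := fun q x => by rw [map_smul, Matrix.smul_mulVec]; rfl }
  have hF : ∀ x : Kf r hr, ∑ l, r l * ((F x) l : ℝ) = x * r o := by
    intro x
    have h1 := (ψf_spec x).mulVec (Pi.single o 1)
    refine h1.trans ?_
    congr 1
    rw [Finset.sum_eq_single o]
    · simp
    · intro j _ hj
      rw [Pi.single_eq_of_ne hj]
      simp
    · intro hh
      exact absurd (Finset.mem_univ o) hh
  have hinj : Function.Injective F := by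
    rw [injective_iff_map_eq_zero]
    intro x hx
    have h1 := hF x
    rw [hx] at h1
    simp only [Pi.zero_apply, Rat.cast_zero, mul_zero, Finset.sum_const_zero] at h1
    have h2 := (mul_eq_zero.1 h1.symm).resolve_right hro
    exact_mod_cast h2
  have := Kf_fin r hr hd
  have hsurj : Function.Surjective F :=
    (LinearMap.injective_iff_surjective_of_finrank_eq_finrank (by
      rw [h, Module.finrank_fin_fun])).1 hinj
  refine ⟨(r o)⁻¹, inv_ne_zero hro, fun j => ?_⟩
  obtain ⟨x, hx⟩ := hsurj (Pi.single j 1)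
  have h1 := hF x
  rw [hx, Finset.sum_eq_single j] at h1
  · have h2 : (r o)⁻¹ * r j = x := by
      rw [Pi.single_eq_same, Rat.cast_one, mul_one] at h1
      rw [h1]
      field_simp
    rw [h2]
    exact x.2
  · intro l _ hl
    rw [Pi.single_eq_of_ne hl]
    simp
  · intro hh
    exact absurd (Finset.mem_univ j) hh

/-- a row of `g` which is mapped to a multiple by an integer matrix -/
lemma Eg_of_cj {g : Matrix (Fin d) (Fin d) ℝ} (hg : g.det ≠ 0) {γ : Matrix (Fin d) (Fin d) ℤ}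
    {i : Fin d} (h : ∀ j, j ≠ i → cj g γ i j = 0) : Eg (g i) (zQ γ) (cj g γ i i) := by
  intro j
  have h1 := congrFun (congrFun (cj_mul_right hg γ) i) j
  rw [Matrix.mul_apply, Matrix.mul_apply, Finset.sum_eq_single i] at h1
  · rw [h1]
    refine Finset.sum_congr rfl fun l _ => ?_
    rw [zQ_apply, zR, Matrix.map_apply]
    push_cast
    rfl
  · intro l _ hl
    rw [h l hl, zero_mul]
  · intro hh
    exact absurd (Finset.mem_univ i) hh

lemma isIntegral_zQ (γ : Matrix (Fin d) (Fin d) ℤ) : IsIntegral ℤ (zQ γ) := by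
  refine ⟨γ.charpoly, Matrix.charpoly_monic γ, ?_⟩
  have h1 := Matrix.aeval_self_charpoly γ
  have h2 := congrArg (zQ : Matrix (Fin d) (Fin d) ℤ →+* _) h1
  rw [map_zero, Polynomial.aeval_def, Polynomial.hom_eval₂] at h2
  have h3 : (zQ : Matrix (Fin d) (Fin d) ℤ →+* Matrix (Fin d) (Fin d) ℚ).comp
      (algebraMap ℤ (Matrix (Fin d) (Fin d) ℤ)) = algebraMap ℤ (Matrix (Fin d) (Fin d) ℚ) :=
    RingHom.ext_int _ _
  rw [h3] at h2
  exact h2

lemma Kf_integral (hd : 0 < d) {γ : Matrix (Fin d) (Fin d) ℤ} (x : Kf r hr)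
    (hx : ψf r hr x = zQ γ) : IsIntegral ℤ x := by
  have h1 : IsIntegral ℤ (ψf r hr x) := by rw [hx]; exact isIntegral_zQ γ
  exact (isIntegral_algHom_iff ((ψf r hr).toRingHom.toIntAlgHom) (ψf_inj r hr hd)).1 h1

/-- the conjugates of the eigenvalue are bounded by the entries in the coordinates `g` -/
lemma Kf_norm_le {g : Matrix (Fin d) (Fin d) ℝ} (hg : g.det ≠ 0) (hd : 0 < d)
    {γ : Matrix (Fin d) (Fin d) ℤ} (x : Kf r hr) (hx : ψf r hr x = zQ γ) {B : ℝ}
    (hB : ∀ i j, |cj g γ i j| ≤ B) (φ : Kf r hr →+* ℂ) : ‖φ x‖ ≤ d * B := by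
  classical
  set μ := φ x with hμ
  have hB0 : 0 ≤ B := (abs_nonneg _).trans (hB ⟨0, hd⟩ ⟨0, hd⟩)
  -- `μ` is a root of the characteristic polynomial
  have hroot : Polynomial.eval₂ (algebraMap ℤ ℂ) μ γ.charpoly = 0 := by
    have h0 : Polynomial.aeval x γ.charpoly = 0 := by
      apply ψf_inj r hr hd
      rw [map_zero]
      have h1 := Matrix.aeval_self_charpoly γ
      have h2 := congrArg (zQ : Matrix (Fin d) (Fin d) ℤ →+* _) h1
      rw [map_zero, Polynomial.aeval_def, Polynomial.hom_eval₂] at h2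
      rw [← h2, Polynomial.aeval_def]
      have h3 := Polynomial.hom_eval₂ γ.charpoly (algebraMap ℤ (Kf r hr)) (ψf r hr).toRingHom x
      refine h3.trans ?_
      have h4 : (ψf r hr).toRingHom x = zQ γ := hx
      rw [h4]
      congr 1
      exact RingHom.ext_int _ _
    have h1 := congrArg φ h0
    rw [map_zero, Polynomial.aeval_def, Polynomial.hom_eval₂] at h1
    have h3 : φ.comp (algebraMap ℤ (Kf r hr)) = algebraMap ℤ ℂ := RingHom.ext_int _ _
    rw [h3] at h1
    exact h1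
  have hdet : (Matrix.scalar (Fin d) μ - γ.map (algebraMap ℤ ℂ)).det = 0 := by
    have h1 : (γ.map (algebraMap ℤ ℂ)).charpoly = γ.charpoly.map (algebraMap ℤ ℂ) :=
      Matrix.charpoly_map _ _
    rw [← Matrix.eval_charpoly, h1, Polynomial.eval_map]
    exact hroot
  obtain ⟨v, hv0, hv⟩ := Matrix.exists_mulVec_eq_zero_iff.2 hdet
  have hv' : (γ.map (algebraMap ℤ ℂ)) *ᵥ v = μ • v := by
    rw [Matrix.sub_mulVec, sub_eq_zero] at hv
    rw [← hv]
    funext i
    simp [Matrix.scalar_apply, Matrix.mulVec_diagonal]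
  set G : Matrix (Fin d) (Fin d) ℂ := g.map (algebraMap ℝ ℂ) with hG
  have hGdet : G.det ≠ 0 := by
    have h1 : G.det = algebraMap ℝ ℂ g.det := by
      have := (algebraMap ℝ ℂ).map_det g
      rw [this]
      rfl
    rw [h1]
    simpa using hg
  set w := G *ᵥ v with hw
  have hw0 : w ≠ 0 := by
    intro h0
    exact hGdet (Matrix.exists_mulVec_eq_zero_iff.1 ⟨v, hv0, h0⟩)
  have hcw : ((cj g γ).map (algebraMap ℝ ℂ)) *ᵥ w = μ • w := by
    have h1 : (cj g γ).map (algebraMap ℝ ℂ) * G = G * γ.map (algebraMap ℤ ℂ) := by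
      have h2 := congrArg (algebraMap ℝ ℂ).mapMatrix (cj_mul_right hg γ)
      rw [map_mul, map_mul] at h2
      have h3 : (algebraMap ℝ ℂ).mapMatrix (zR γ) = γ.map (algebraMap ℤ ℂ) := by
        ext a b
        simp [zR]
      rw [h3] at h2
      exact h2
    rw [hw, Matrix.mulVec_mulVec, h1, ← Matrix.mulVec_mulVec, hv', Matrix.mulVec_smul]
  obtain ⟨i₀, -, hi₀⟩ := Finset.exists_max_image (Finset.univ : Finset (Fin d))
    (fun i => ‖w i‖) ⟨⟨0, hd⟩, Finset.mem_univ _⟩
  have hwi : 0 < ‖w i₀‖ := by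
    rw [norm_pos_iff]
    intro h0
    apply hw0
    funext i
    have := hi₀ i (Finset.mem_univ _)
    rw [h0, norm_zero] at this
    exact norm_le_zero_iff.1 this
  have h1 := congrArg norm (congrFun hcw i₀)
  rw [Pi.smul_apply, smul_eq_mul, norm_mul] at h1
  have h2 : ‖(((cj g γ).map (algebraMap ℝ ℂ)) *ᵥ w) i₀‖ ≤ (d * B) * ‖w i₀‖ := by
    rw [Matrix.mulVec, dotProduct]
    calc ‖∑ j, ((cj g γ).map (algebraMap ℝ ℂ)) i₀ j * w j‖ ≤
          ∑ j, ‖((cj g γ).map (algebraMap ℝ ℂ)) i₀ j * w j‖ := norm_sum_le _ _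
      _ ≤ ∑ _j : Fin d, B * ‖w i₀‖ := by
          refine Finset.sum_le_sum fun j _ => ?_
          rw [norm_mul, Matrix.map_apply]
          have h3 : ‖(algebraMap ℝ ℂ) (cj g γ i₀ j)‖ = |cj g γ i₀ j| := by
            rw [Complex.coe_algebraMap, Complex.norm_real, Real.norm_eq_abs]
          rw [h3]
          exact mul_le_mul (hB _ _) (hi₀ j (Finset.mem_univ _)) (norm_nonneg _) hB0
      _ = _ := by
          rw [Finset.sum_const, Finset.card_univ, Fintype.card_fin, nsmul_eq_mul]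
          ring
  rw [h1] at h2
  exact le_of_mul_le_mul_right h2 hwi

end Pool.Agent.KS6_27
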