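import Mathlib
import Pool.Agent.KS6_27.Str

/-! # The structure of a sequence of exponentially good returns: the main theorem -/

set_option autoImplicit false
set_option linter.unusedSectionVars false

open Finset Matrix Filter Topology H715R2 Module
open Pool.Agent.T6.H49.CSD (cj cj_one cj_mul cj_add cj_sub cj_smul cj_diagonal rigid)
open scoped Pointwise

namespace Pool.Agent.KS6_27

variable {d k : ℕ}

lemma det_mem_field {n : ℕ} (S : IntermediateField ℚ ℝ) {M : Matrix (Fin n) (Fin n) ℝ}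
    (h : ∀ i j, M i j ∈ S) : M.det ∈ S := by
  rw [Matrix.det_apply]
  refine sum_mem fun σ _ => ?_
  rw [Units.smul_def]
  exact zsmul_mem (prod_mem fun i _ => h _ _) _

lemma inv_mem_field {n : ℕ} (S : IntermediateField ℚ ℝ) {M : Matrix (Fin n) (Fin n) ℝ}
    (h : ∀ i j, M i j ∈ S) (i j : Fin n) : M⁻¹ i j ∈ S := by
  rw [Matrix.inv_def, Matrix.smul_apply, Matrix.adjugate_apply, Ring.inverse_eq_inv', smul_eq_mul]
  refine mul_mem (inv_mem (det_mem_field S h)) (det_mem_field S fun a b => ?_)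
  by_cases hab : a = j
  · subst hab
    rw [Matrix.updateRow_self, Pi.single_apply]
    split_ifs
    · exact one_mem _
    · exact zero_mem _
  · rw [Matrix.updateRow_ne hab]
    exact h a b

lemma cj_alg {g : Matrix (Fin d) (Fin d) ℝ} (halg : ∀ i j, IsAlgebraic ℚ (g i j))
    (γ : Matrix (Fin d) (Fin d) ℤ) (i j : Fin d) : IsAlgebraic ℚ (cj g γ i j) := by
  have h1 : ∀ i j, g i j ∈ algebraicClosure ℚ ℝ := fun i j =>
    mem_algebraicClosure_iff.2 (halg i j)
  rw [← mem_algebraicClosure_iff, cj, Matrix.mul_apply]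
  refine sum_mem fun m _ => mul_mem ?_ (inv_mem_field _ h1 _ _)
  rw [Matrix.mul_apply]
  exact sum_mem fun l _ => mul_mem (h1 _ _) (intCast_mem _ _)

lemma det_diag' {g : Matrix (Fin d) (Fin d) ℝ} {a : Fin d → ℝ} (ha : ∏ i, a i = 1) :
    (diagonal a * g).det = g.det := by
  rw [Matrix.det_mul, Matrix.det_diagonal, ha, one_mul]

lemma hasNu_diag {g : Matrix (Fin d) (Fin d) ℝ} {ν : ℝ} (hnu : HasNu g ν) {a : Fin d → ℝ}
    (ha : ∏ i, a i = 1) : HasNu (diagonal a * g) ν := by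
  intro m hm
  rw [FF_diag_mul, ha, one_mul]
  exact hnu m hm

/-- **The structure of a sequence of exponentially good returns.** -/
theorem struct (hd : 0 < d) {g : Matrix (Fin d) (Fin d) ℝ} (hg : g.det ≠ 0)
    (halg : ∀ i j, IsAlgebraic ℚ (g i j)) {ν : ℝ} (hν : 0 < ν) (hnu : HasNu g ν) {K ε : ℝ}
    (hK : 1 ≤ K) (hε : 0 < ε) (a a' : ℕ → Fin d → ℝ) (ha : ∀ n i, 0 < a n i)
    (ha1 : ∀ n, ∏ i, a n i = 1) (ha' : ∀ n i, 0 < a' n i)
    (L : ℕ → ℝ) (hL : Tendsto L atTop atTop)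
    (hLa : ∀ n i, |Real.log (a n i)| ≤ L n) (hLa' : ∀ n i, |Real.log (a' n i)| ≤ L n)
    (δ : ℕ → Matrix (Fin d) (Fin d) ℤ)
    (hRt : ∀ n, Rt g K (Real.exp (-(ε * L n))) (a n) (a' n) (δ n)) :
    ∃ φ : ℕ → ℕ, StrictMono φ ∧ ∀ᶠ n in atTop, ∀ n' i, (∀ j, a (φ n) j ≤ a (φ n) i) →
      ∀ j, j ≠ i → cj g (δ (φ n') * (δ (φ n))⁻¹) i j = 0 := by
  classical
  have hdR : (0 : ℝ) < d := by exact_mod_cast hd
  have hd1 : (1 : ℝ) ≤ d := by exact_mod_cast hd
  have hK0 : 0 < K := by linarith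
  have : Nonempty (Fin d) := ⟨⟨0, hd⟩⟩
  have hne : ∀ n, δ n ≠ 0 := by
    intro n h0
    have := (hRt n).1
    rw [h0, Matrix.det_zero] at this
    exact not_isUnit_zero this
  obtain ⟨k, v, A, D, φ, z, hk, hD, hA, hφ, hz, hgen⟩ := exists_generic (fun n => vc (δ n))
    (fun n => vc_ne (hne n))
  refine ⟨φ, hφ, ?_⟩
  have hDR : (1 : ℝ) ≤ |(D : ℝ)| := by
    have := Int.one_le_abs hD
    exact_mod_cast this
  -- the sequences along `φ`
  have hLφ : Tendsto (fun n => L (φ n)) atTop atTop := hL.comp hφ.tendsto_atTop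
  have hDδ : ∀ n, D • δ (φ n) = iM fun a => ∑ r, z n r * v r a := by
    intro n
    ext i j
    have := hz n (i, j)
    rw [Matrix.smul_apply, smul_eq_mul]
    exact this
  have hzne : ∀ n, z n ≠ 0 := by
    intro n h0
    have h1 := hDδ n
    rw [h0] at h1
    have h2 : D • δ (φ n) = 0 := by
      rw [h1]
      ext i j
      simp [iM]
    exact (smul_ne_zero hD (hne _)) h2
  set M := Mf g v with hM
  have hMalg : ∀ p j, IsAlgebraic ℚ (M p j) := fun p j => cj_alg halg _ _ _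
  set O : Fin d × Fin d → Prop := fun p => p.1 ≠ p.2 with hO
  set ω : ℕ → Fin d × Fin d → ℝ := fun n p => Real.log (a' (φ n) p.2) - Real.log (a (φ n) p.1)
    with hω
  have hexpω : ∀ n p, Real.exp (ω n p) = a' (φ n) p.2 / a (φ n) p.1 := by
    intro n p
    rw [hω]
    simp only
    rw [Real.exp_sub, Real.exp_log (ha' _ _), Real.exp_log (ha _ _)]
  -- rigidity
  obtain ⟨η₀, hη₀, hrig⟩ := rigid hd (abs_pos.2 hg) hν
  have hrig' : ∀ n, ∀ κ : Matrix (Fin d) (Fin d) ℤ, κ ≠ 0 →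
      ∃ i j, η₀ ≤ |cj (diagonal (a (φ n)) * g) κ i j| := by
    intro n κ hκ
    by_contra hcon
    push Not at hcon
    refine hκ (hrig _ (by rw [det_diag' (ha1 _)]) (hasNu_diag hnu (ha1 _)) κ fun i j =>
      (hcon i j).le)
  -- the inverses
  have hLev : ∀ B : ℝ, ∀ᶠ n in atTop, B ≤ L (φ n) := fun B => hLφ.eventually_ge_atTop B
  have hinv : ∀ᶠ n in atTop, ∃ N : Matrix (Fin d) (Fin d) ℝ, (∀ i j, |N i j| ≤ 2 * K) ∧
      (∀ i j, i ≠ j → |N i j| ≤ 2 * K * (d * Real.exp (-(ε * L (φ n))))) ∧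
      ∀ i j, cj g (δ (φ n))⁻¹ i j = (a' (φ n) i)⁻¹ * N i j * a (φ n) j := by
    filter_upwards [hLev (Real.log (2 * d) / ε)] with n hn
    refine Rt.inv hg hK ?_ (ha _) (ha' _) (hRt _)
    rw [div_le_iff₀ hε] at hn
    have h1 : Real.exp (-(ε * L (φ n))) ≤ 1 / (2 * d) := by
      rw [Real.exp_neg, inv_eq_one_div]
      refine div_le_div_of_nonneg_left zero_le_one (by positivity) ?_
      rw [← Real.exp_log (by positivity : (0 : ℝ) < 2 * d)]
      exact Real.exp_le_exp.2 (by linarith)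
    calc (d : ℝ) * Real.exp (-(ε * L (φ n))) ≤ d * (1 / (2 * d)) :=
          mul_le_mul_of_nonneg_left h1 hdR.le
      _ = 1 / 2 := by field_simp
  -- the lower bound for the space
  set c : ℝ := η₀ / (2 * K * d) with hc
  have hc0 : 0 < c := by positivity
  have hlow : ∀ᶠ n in atTop, ∀ x : Fin k → ℤ, x ≠ 0 →
      ∃ p, c * Real.exp (ω n p) ≤ |fv M p x| := by
    filter_upwards [hinv] with n hn x hx
    obtain ⟨N, hN1, -, hN⟩ := hn
    by_contra hcon
    push Not at hcon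
    have hκ := iM_ne hD hA hx
    set κ := iM fun a => ∑ r, x r * v r a with hκdef
    have hunit := (hRt (φ n)).1
    have hprod : κ * (δ (φ n))⁻¹ ≠ 0 := by
      intro h0
      apply hκ
      calc κ = κ * ((δ (φ n))⁻¹ * δ (φ n)) := by
            rw [Matrix.nonsing_inv_mul _ hunit, Matrix.mul_one]
        _ = 0 := by rw [← Matrix.mul_assoc, h0, Matrix.zero_mul]
    obtain ⟨i, j, hij⟩ := hrig' n _ hprod
    have h1 : ∀ i m, |a (φ n) i * cj g κ i m * (a' (φ n) m)⁻¹| < c := by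
      intro i m
      have h2 := hcon (i, m)
      rw [hM, fv_Mf, hexpω] at h2
      have e1 := ha (φ n) i
      have e2 := ha' (φ n) m
      rw [abs_mul, abs_mul, abs_of_pos e1, abs_of_pos (inv_pos.2 e2)]
      have h3 : |cj g κ i m| < c * (a' (φ n) m / a (φ n) i) := h2
      calc a (φ n) i * |cj g κ i m| * (a' (φ n) m)⁻¹ <
            a (φ n) i * (c * (a' (φ n) m / a (φ n) i)) * (a' (φ n) m)⁻¹ := by gcongr
        _ = c := by field_simp
    rw [T_eq hg (ha _) hN] at hij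
    have h3 : |∑ m, (a (φ n) i * cj g κ i m * (a' (φ n) m)⁻¹) * N m j| < η₀ := by
      calc |∑ m, (a (φ n) i * cj g κ i m * (a' (φ n) m)⁻¹) * N m j| ≤
            ∑ m, |(a (φ n) i * cj g κ i m * (a' (φ n) m)⁻¹) * N m j| :=
            Finset.abs_sum_le_sum_abs _ _
        _ < ∑ _m : Fin d, c * (2 * K) := by
            refine Finset.sum_lt_sum_of_nonempty Finset.univ_nonempty fun m _ => ?_
            rw [abs_mul]
            exact mul_lt_mul_of_lt_of_le_of_nonneg_of_pos (h1 i m) (hN1 m j) (abs_nonneg _)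
              (by positivity)
        _ = η₀ := by
            rw [Finset.sum_const, Finset.card_univ, Fintype.card_fin, nsmul_eq_mul, hc]
            field_simp
    linarith
  obtain ⟨C₁, hC₁1, hC₁⟩ := abs_main hk M (exists_det_Mf hg hD hA) hc0 O
  -- the space and the algebra
  set V : Submodule ℚ (Matrix (Fin d) (Fin d) ℚ) :=
    Submodule.span ℚ (Set.range fun r => zQ (iM (v r))) with hV
  have hDQ : (D : ℚ) ≠ 0 := by exact_mod_cast hD
  have hδV : ∀ n, zQ (δ (φ n)) ∈ V := by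
    intro n
    have h1 : (D : ℚ) • zQ (δ (φ n)) = ∑ r, (z n r : ℚ) • zQ (iM (v r)) := by
      ext i j
      have h2 := hz n (i, j)
      rw [Matrix.sum_apply, Matrix.smul_apply, smul_eq_mul, zQ_apply]
      have h3 : ((D * vc (δ (φ n)) (i, j) : ℤ) : ℚ) = ((∑ r, z n r * v r (i, j) : ℤ) : ℚ) := by
        rw [h2]
      push_cast at h3
      exact h3
    have h2 : zQ (δ (φ n)) = (D : ℚ)⁻¹ • ∑ r, (z n r : ℚ) • zQ (iM (v r)) := by
      rw [← h1, smul_smul, inv_mul_cancel₀ hDQ, one_smul]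
    rw [h2]
    exact V.smul_mem _ (Submodule.sum_mem _ fun r _ => V.smul_mem _
      (Submodule.subset_span ⟨r, rfl⟩))
  have hunitQ : ∀ n, IsUnit (zQ (δ n)).det := fun n => zQ_unit (hRt n).1
  set 𝒲 := LA V (zQ (δ (φ 0))) with h𝒲
  have h𝒲n : ∀ n, LA V (zQ (δ (φ n))) = 𝒲 := fun n =>
    LA_eq (hunitQ _) (hunitQ _) (hδV 0) (hδV n)
  set W : Submodule ℚ (Fin d × Fin d → ℚ) :=
    (Subalgebra.toSubmodule 𝒲).comap (mat : _ ≃ₗ[ℚ] Matrix (Fin d) (Fin d) ℚ).toLinearMap
    with hW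
  have hWmem : ∀ w : Matrix (Fin d) (Fin d) ℤ, iQ (vc w) ∈ W ↔ zQ w ∈ 𝒲 := fun w => Iff.rfl
  obtain ⟨m, hm⟩ : ∃ m, finrank ℚ W = m := ⟨_, rfl⟩
  obtain ⟨u, A', D', hD', huW, hA', hrec⟩ := int_basis W hm
  have hfin : finrank ℚ (Subalgebra.toSubmodule 𝒲) = m := by
    rw [← hm]
    have h1 : W.map (mat : _ ≃ₗ[ℚ] Matrix (Fin d) (Fin d) ℚ).toLinearMap =
        Subalgebra.toSubmodule 𝒲 := by
      rw [hW]
      exact Submodule.map_comap_eq_of_surjective mat.surjective _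
    rw [← h1]
    exact LinearEquiv.finrank_map_eq mat W
  have hm0 : 0 < m := by
    rw [← hm]
    have h1 : iQ (vc (1 : Matrix (Fin d) (Fin d) ℤ)) ∈ W := by
      rw [hWmem, map_one]
      exact 𝒲.one_mem
    have : Nontrivial W := ⟨⟨⟨_, h1⟩, 0, fun h => iQ_ne (vc_ne (one_ne_zero (α := Matrix (Fin d)
      (Fin d) ℤ))) (congrArg Subtype.val h)⟩⟩
    exact Module.finrank_pos
  obtain ⟨C₀, hC₀⟩ := row_zero hm0 hg hD' hA' hη₀
  -- the parameters
  set N : ℕ := d * d with hN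
  set η₁ : ℝ := ε / (2 * (m * N + 2)) with hη₁
  have hη₁0 : 0 < η₁ := by positivity
  have hη₁e : (m * N + 2) * η₁ = ε / 2 := by
    rw [hη₁]
    field_simp
  have hsub := subspace_seq hk M hMalg z hzne hgen (fun n => L (φ n)) hLφ
    (fun n p => ω n p - if O p then ε * L (φ n) else 0) (2 + ε) (|(D : ℝ)| * (2 * K))
    (by positivity) (fun n p => by
      have h1 := hLa (φ n) p.1
      have h2 := hLa' (φ n) p.2
      have hL0 : 0 ≤ L (φ n) := (abs_nonneg _).trans h1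
      have h3 : |ω n p| ≤ 2 * L (φ n) := by
        rw [hω]
        simp only
        refine (abs_sub _ _).trans ?_
        linarith
      have h4 : |(if O p then ε * L (φ n) else 0)| ≤ ε * L (φ n) := by
        split_ifs
        · rw [abs_of_nonneg (by positivity)]
        · rw [abs_zero]
          positivity
      refine (abs_sub _ _).trans ?_
      rw [add_mul]
      linarith) (fun n p => by
      obtain ⟨-, b, E, hb, hE, heq⟩ := hRt (φ n)
      have hb0 : ∀ i, 0 < b i := fun i => lt_of_lt_of_le (by positivity) (hb i).1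
      have hexp1 : Real.exp (-(ε * L (φ n))) ≤ 1 := by
        rw [Real.exp_le_one_iff]
        have : 0 ≤ L (φ n) := (abs_nonneg _).trans (hLa (φ n) p.1)
        have h3 : 0 ≤ ε * L (φ n) := by positivity
        linarith
      have h1 : fv M p (z n) = D * cj g (δ (φ n)) p.1 p.2 := by
        rw [hM, fv_Mf, ← hDδ, cj_smul, Matrix.smul_apply, smul_eq_mul]
      rw [h1, abs_mul, mul_assoc]
      refine mul_le_mul_of_nonneg_left ?_ (abs_nonneg _)
      rw [heq, abs_mul, abs_mul, abs_mul, abs_of_pos (inv_pos.2 (ha _ _)), abs_of_pos (hb0 _),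
        abs_of_pos (ha' _ _), Real.exp_sub, hexpω]
      have hE1 : |(1 + E) p.1 p.2| ≤ 2 * (Real.exp (if O p then ε * L (φ n) else 0))⁻¹ := by
        by_cases hp : O p
        · rw [if_pos hp, ← Real.exp_neg, Matrix.add_apply, Matrix.one_apply_ne hp, zero_add]
          refine (hE _ _).trans ?_
          have := Real.exp_pos (-(ε * L (φ n)))
          linarith
        · rw [if_neg hp, Real.exp_zero, inv_one, mul_one]
          have hp' : p.1 = p.2 := not_not.1 hp
          rw [hp', Matrix.add_apply, Matrix.one_apply_eq]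
          refine (abs_add_le _ _).trans ?_
          rw [abs_one]
          linarith [hE p.2 p.2]
      have e1 := ha (φ n) p.1
      have e2 := ha' (φ n) p.2
      calc (a (φ n) p.1)⁻¹ * b p.1 * |(1 + E) p.1 p.2| * a' (φ n) p.2 ≤
            (a (φ n) p.1)⁻¹ * K * (2 * (Real.exp (if O p then ε * L (φ n) else 0))⁻¹) *
              a' (φ n) p.2 := by
              gcongr
              exact (hb _).2
        _ = _ := by
            field_simp) hη₁0
  -- the final inequality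
  set R : ℝ := Real.log (2 * K * d ^ 2 * C₁) with hR
  have hQ₁ : 1 ≤ 2 * K * d ^ 2 * C₁ := by
    have h1 : 1 ≤ (d : ℝ) ^ 2 := one_le_pow₀ hd1
    have h2 : 1 ≤ 2 * K := by linarith
    have h3 : 1 ≤ 2 * K * (d : ℝ) ^ 2 := one_le_mul_of_one_le_of_one_le h2 h1
    exact one_le_mul_of_one_le_of_one_le h3 hC₁1
  have hR0 : 0 ≤ R := Real.log_nonneg hQ₁
  have hNpos : (0 : ℝ) < N := by
    have : 0 < N := Nat.mul_pos hd hd
    exact_mod_cast this
  set S : ℝ := Real.log (N * (d + 1)) with hS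
  have hS0 : 0 ≤ S := by
    refine Real.log_nonneg ?_
    have h1 : (1 : ℝ) ≤ N := by
      have : 1 ≤ N := Nat.mul_pos hd hd
      exact_mod_cast this
    exact one_le_mul_of_one_le_of_one_le h1 (by linarith)
  filter_upwards [hinv, hlow, hsub, hLev 0, hLev (2 * (C₁ + 1) / ε),
    hLev (2 * (|C₀| + m * (N * R) + S + 1) / ε)] with n hn1 hn2 hn3 hn4 hn5 hn6
  intro n' i hi j hj
  set ℓ : ℝ := L (φ n) with hℓ
  rw [div_le_iff₀ hε] at hn5 hn6
  have hηℓ : (m * N + 2) * (η₁ * ℓ) = ε * ℓ / 2 := by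
    rw [← mul_assoc, hη₁e]
    ring
  have ht0 : 0 ≤ η₁ * ℓ := by positivity
  have hmN : 0 ≤ (m : ℝ) * N * (η₁ * ℓ) := by positivity
  have hηℓ2 : (m : ℝ) * N * (η₁ * ℓ) + 2 * (η₁ * ℓ) = ε * ℓ / 2 := by
    rw [← hηℓ]
    ring
  obtain ⟨-, G, hG, hGs⟩ := hC₁ (ω n) (ε * ℓ) (η₁ * ℓ) ht0 (by linarith) hn2 hn3
  obtain ⟨Ni, hN1, hN2, hN3⟩ := hn1
  set κ : Fin k → Matrix (Fin d) (Fin d) ℤ := fun r => iM fun a => ∑ j, G r j * v j a with hκ
  set τ : Fin k → Matrix (Fin d) (Fin d) ℤ := fun r => κ r * (δ (φ n))⁻¹ with hτ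
  have hne' : (diagonal (a (φ n)) * g).det ≠ 0 := by rw [det_diag' (ha1 _)]; exact hg
  -- the bounds for `τ`
  have hval : ∀ r p, fv M p (G r) = cj g (κ r) p.1 p.2 := fun r p => by rw [hM, fv_Mf]
  have hS1 : ∀ r i m, |a (φ n) i * cj g (κ r) i m * (a' (φ n) m)⁻¹| ≤
      C₁ * Real.exp (η₁ * ℓ) := by
    intro r i m
    have h1 := (hGs r (i, m)).1
    rw [hval, hexpω] at h1
    have e1 := ha (φ n) i
    have e2 := ha' (φ n) m
    rw [abs_mul, abs_mul, abs_of_pos e1, abs_of_pos (inv_pos.2 e2)]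
    calc a (φ n) i * |cj g (κ r) i m| * (a' (φ n) m)⁻¹ ≤
          a (φ n) i * (C₁ * Real.exp (η₁ * ℓ) * (a' (φ n) m / a (φ n) i)) * (a' (φ n) m)⁻¹ := by
            gcongr
      _ = _ := by field_simp
  have hS2 : ∀ r i m, i ≠ m → |a (φ n) i * cj g (κ r) i m * (a' (φ n) m)⁻¹| ≤
      C₁ * Real.exp (η₁ * ℓ) * Real.exp (η₁ * ℓ - ε * ℓ) := by
    intro r i m him
    have h1 := (hGs r (i, m)).2 him
    rw [hval, hexpω] at h1
    have e1 := ha (φ n) i
    have e2 := ha' (φ n) m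
    rw [abs_mul, abs_mul, abs_of_pos e1, abs_of_pos (inv_pos.2 e2)]
    have e3 : C₁ * Real.exp (η₁ * ℓ) * Real.exp (η₁ * ℓ - ε * ℓ) =
        C₁ * Real.exp (2 * (η₁ * ℓ) - ε * ℓ) := by
      rw [mul_assoc, ← Real.exp_add]
      congr 2
      ring
    rw [e3]
    calc a (φ n) i * |cj g (κ r) i m| * (a' (φ n) m)⁻¹ ≤
          a (φ n) i * (C₁ * Real.exp (2 * (η₁ * ℓ) - ε * ℓ) * (a' (φ n) m / a (φ n) i)) *
            (a' (φ n) m)⁻¹ := by
            gcongr
      _ = _ := by field_simp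
  set Q₁ : ℝ := 2 * K * d ^ 2 * (C₁ * Real.exp (η₁ * ℓ)) with hQ₁def
  set δ₁ : ℝ := (d + 1) * Real.exp (η₁ * ℓ - ε * ℓ) with hδ₁def
  have hQ₁0 : 0 ≤ Q₁ := by positivity
  have hδ₁0 : 0 < δ₁ := by positivity
  have hτND : ∀ r, ND (diagonal (a (φ n)) * g) Q₁ δ₁ (τ r) := by
    intro r
    refine ND.mono hQ₁0 ?_ (nd_tau hg hK (Real.exp_pos _).le (ha _) hN1 hN2 hN3
      (by positivity) (Real.exp_pos _).le (hS1 r) (hS2 r))
    have h1 : Real.exp (-(ε * ℓ)) ≤ Real.exp (η₁ * ℓ - ε * ℓ) :=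
      Real.exp_le_exp.2 (by linarith)
    rw [hδ₁def, add_mul, one_mul]
    have := mul_le_mul_of_nonneg_left h1 hdR.le
    linarith
  -- the algebra generated by the `τ`
  set T : Set (Matrix (Fin d) (Fin d) ℚ) := Set.range fun r => zQ (τ r) with hT
  have hzτ : ∀ r, zQ (τ r) = zQ (κ r) * (zQ (δ (φ n)))⁻¹ := by
    intro r
    rw [hτ]
    simp only
    rw [map_mul, zQ_inv (hRt _).1]
  have hκV : ∀ r, zQ (κ r) ∈ V := by
    intro r
    have h1 : zQ (κ r) = ∑ j, (G r j : ℚ) • zQ (iM (v j)) := by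
      ext a b
      rw [Matrix.sum_apply, zQ_apply, hκ]
      simp only [iM, Matrix.of_apply, Matrix.smul_apply, smul_eq_mul, zQ_apply]
      push_cast
      rfl
    rw [h1]
    exact Submodule.sum_mem _ fun j _ => V.smul_mem _ (Submodule.subset_span ⟨j, rfl⟩)
  have hVT : ∀ X ∈ V, X * (zQ (δ (φ n)))⁻¹ ∈ Submodule.span ℚ T := by
    intro X hX
    have h1 := span_kappa hG hX
    have h2 : (LinearMap.mulRight ℚ (zQ (δ (φ n)))⁻¹) X ∈
        (Submodule.span ℚ (Set.range fun r => zQ (κ r))).map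
          (LinearMap.mulRight ℚ (zQ (δ (φ n)))⁻¹) := Submodule.mem_map_of_mem h1
    rw [Submodule.map_span, ← Set.range_comp] at h2
    have h3 : (⇑(LinearMap.mulRight ℚ (zQ (δ (φ n)))⁻¹) ∘ fun r => zQ (κ r)) =
        fun r => zQ (τ r) := by
      funext r
      rw [Function.comp_apply, LinearMap.mulRight_apply, hzτ]
    rw [h3, LinearMap.mulRight_apply] at h2
    exact h2
  have h1T : (1 : Matrix (Fin d) (Fin d) ℚ) ∈ Submodule.span ℚ T := by
    have := hVT _ (hδV n)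
    rwa [Matrix.mul_nonsing_inv _ (hunitQ _)] at this
  have hadj : Algebra.adjoin ℚ T = 𝒲 := by
    rw [← h𝒲n n]
    refine le_antisymm ?_ ?_
    · rw [Algebra.adjoin_le_iff]
      rintro _ ⟨r, rfl⟩
      change zQ (τ r) ∈ LA V (zQ (δ (φ n)))
      rw [hzτ]
      exact mem_LA (hκV r)
    · rw [LA, Algebra.adjoin_le_iff]
      rintro _ ⟨X, hX, rfl⟩
      have h1 := hVT X hX
      have h2 : Submodule.span ℚ T ≤ Subalgebra.toSubmodule (Algebra.adjoin ℚ T) := by
        rw [Submodule.span_le]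
        exact Algebra.subset_adjoin
      exact h2 h1
  have hspan : Subalgebra.toSubmodule 𝒲 = Submodule.span ℚ (T ^ N) := by
    rw [← hadj]
    refine adjoin_eq_span_pow T h1T N ?_
    rw [Module.finrank_matrix]
    simp [hN]
  -- independent words
  obtain ⟨B, hBT, hBspan, hBli⟩ := exists_linearIndependent ℚ (T ^ N)
  have hBfin : B.Finite := hBli.setFinite
  have : Fintype B := hBfin.fintype
  have hBcard : Fintype.card B = m := by
    rw [← hfin, hspan, ← hBspan]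
    have h1 := finrank_span_eq_card hBli
    rw [Subtype.range_coe] at h1
    exact h1.symm
  let e : Fin m ≃ B := (Fintype.equivFinOfCardEq hBcard).symm
  have hword : ∀ s : Fin m, ∃ w : Matrix (Fin d) (Fin d) ℤ, zQ w = (e s : Matrix _ _ ℚ) ∧
      ND (diagonal (a (φ n)) * g) (d * Q₁ ^ N) (N * δ₁) w := fun s =>
    nd_words hne' hQ₁0 hδ₁0.le τ hτND N _ (hBT (e s).2)
  choose w hwB hwND using hword
  have hwW : ∀ s, iQ (vc (w s)) ∈ W := by
    intro s
    rw [hWmem, hwB]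
    have h1 : (e s : Matrix (Fin d) (Fin d) ℚ) ∈ Subalgebra.toSubmodule 𝒲 := by
      rw [hspan]
      exact Submodule.subset_span (hBT (e s).2)
    exact h1
  set Z : Matrix (Fin m) (Fin m) ℤ := Matrix.of fun s r => ∑ a, A' r a * vc (w s) a with hZ
  have hDw : ∀ s, D' • w s = iM fun a => ∑ r, Z s r * u r a := by
    intro s
    ext i j
    have h1 := hrec _ (hwW s) (i, j)
    rw [Matrix.smul_apply, smul_eq_mul]
    exact h1
  have hZdet : Z.det ≠ 0 := by
    intro h0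
    obtain ⟨cc, hcc, hccZ⟩ := Matrix.exists_vecMul_eq_zero_iff.2 h0
    have h1 : ∑ s, cc s • (D' • w s) = 0 := by
      simp only [hDw]
      ext i j
      rw [Matrix.sum_apply, Matrix.zero_apply]
      simp only [Matrix.smul_apply, smul_eq_mul, iM, Matrix.of_apply]
      have h2 : ∑ s, cc s * ∑ r, Z s r * u r (i, j) = ∑ r, (∑ s, cc s * Z s r) * u r (i, j) := by
        simp only [Finset.mul_sum, Finset.sum_mul]
        rw [Finset.sum_comm]
        exact Finset.sum_congr rfl fun r _ => Finset.sum_congr rfl fun s _ => by ring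
      rw [h2]
      refine Finset.sum_eq_zero fun r _ => ?_
      have h3 := congrFun hccZ r
      rw [Matrix.vecMul, dotProduct] at h3
      rw [h3]
      simp
    have h2 : ∑ s, (cc s : ℚ) • (e s : Matrix (Fin d) (Fin d) ℚ) = 0 := by
      have h3 : (D' : ℚ) • ∑ s, (cc s : ℚ) • (e s : Matrix (Fin d) (Fin d) ℚ) = 0 := by
        have h4 := congrArg zQ h1
        rw [map_zero, map_sum] at h4
        rw [← h4, Finset.smul_sum]
        refine Finset.sum_congr rfl fun s _ => ?_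
        rw [← hwB]
        ext i j
        simp only [Matrix.smul_apply, smul_eq_mul, zQ_apply]
        push_cast
        ring
      have hD'Q : (D' : ℚ) ≠ 0 := by exact_mod_cast hD'
      exact (smul_eq_zero.1 h3).resolve_left hD'Q
    have hli : LinearIndependent ℚ (fun s => (e s : Matrix (Fin d) (Fin d) ℚ)) :=
      hBli.comp _ e.injective
    have h3 := Fintype.linearIndependent_iff.1 hli (fun s => (cc s : ℚ)) h2
    apply hcc
    funext s
    exact_mod_cast h3 s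
  have hQ₁1 : 1 ≤ Q₁ := by
    rw [hQ₁def]
    have h1 : 1 ≤ Real.exp (η₁ * ℓ) := Real.one_le_exp ht0
    have h2 : 2 * K * (d : ℝ) ^ 2 * (C₁ * Real.exp (η₁ * ℓ)) =
        (2 * K * d ^ 2 * C₁) * Real.exp (η₁ * ℓ) := by ring
    rw [h2]
    exact one_le_mul_of_one_le_of_one_le hQ₁ h1
  have hlogQ₁ : Real.log Q₁ = R + η₁ * ℓ := by
    have h2 : Q₁ = (2 * K * d ^ 2 * C₁) * Real.exp (η₁ * ℓ) := by
      rw [hQ₁def]
      ring
    rw [h2, Real.log_mul (by positivity) (Real.exp_pos _).ne', Real.log_exp]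
  have hlogδ : Real.log (N * δ₁) = S + (η₁ * ℓ - ε * ℓ) := by
    have h2 : (N : ℝ) * δ₁ = (N * (d + 1)) * Real.exp (η₁ * ℓ - ε * ℓ) := by
      rw [hδ₁def]
      ring
    rw [h2, Real.log_mul (by positivity) (Real.exp_pos _).ne', Real.log_exp]
  have hC₀abs : C₀ ≤ |C₀| := le_abs_self _
  have hmNR : 0 ≤ (m : ℝ) * (N * R) := by positivity
  have hkey : C₀ + m * Real.log (Q₁ ^ N) < -Real.log (N * δ₁) := by
    rw [Real.log_pow, hlogQ₁, hlogδ]
    have h1 : (m : ℝ) * (N * (R + η₁ * ℓ)) = m * (N * R) + m * N * (η₁ * ℓ) := by ring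
    rw [h1]
    linarith
  have hNδ1 : (N : ℝ) * δ₁ ≤ 1 := by
    rw [← Real.log_nonpos_iff (by positivity), hlogδ]
    have := abs_nonneg C₀
    linarith
  have hrow := hC₀ (a (φ n)) (ha _) (hrig' n) (Q₁ ^ N) (N * δ₁) (one_le_pow₀ hQ₁1)
    (by positivity) hNδ1 w Z hZdet hDw hwND hkey i hi j hj
  -- the conclusion for all elements of the algebra
  have hmem : zQ (δ (φ n') * (δ (φ n))⁻¹) ∈ 𝒲 := by
    rw [map_mul, zQ_inv (hRt _).1, ← h𝒲n n]
    exact mem_LA (hδV n')
  rw [← hWmem] at hmem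
  have h1 := fun p => hrec _ hmem p
  set γ := δ (φ n') * (δ (φ n))⁻¹ with hγ
  have h2 : D' • γ = ∑ r, (∑ a, A' r a * vc γ a) • iM (u r) := by
    ext i j
    have h3 := h1 (i, j)
    rw [Matrix.sum_apply, Matrix.smul_apply, smul_eq_mul]
    exact h3
  have h3 : (D' : ℝ) * cj g γ i j = 0 := by
    have h4 := congrFun (congrFun (congrArg (cj g) h2) i) j
    rw [cj_smul, cj_sum, Matrix.sum_apply, Matrix.smul_apply, smul_eq_mul] at h4
    rw [h4]
    refine Finset.sum_eq_zero fun r _ => ?_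
    rw [cj_smul, Matrix.smul_apply, hrow r, smul_zero]
  have hD'R : (D' : ℝ) ≠ 0 := by exact_mod_cast hD'
  exact (mul_eq_zero.1 h3).resolve_left hD'R

end Pool.Agent.KS6_27
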