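import Mathlib
import Pool.Agent.KS6_27.Str2

/-! # Exponentially good returns: exactness in the largest direction -/

set_option autoImplicit false
set_option linter.unusedSectionVars false

open Finset Matrix Filter Topology H715R2 Module
open Pool.Agent.T6.H49.CSD (cj cj_one cj_mul cj_add cj_sub cj_smul cj_diagonal rigid)

namespace Pool.Agent.KS6_27

variable {d : ℕ}

lemma Rt.diag_ge {g : Matrix (Fin d) (Fin d) ℝ} {K ε : ℝ} (hK : 1 ≤ K) (hε : ε ≤ 1 / 2)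
    {a a' : Fin d → ℝ} (ha : ∀ i, 0 < a i) (ha' : ∀ i, 0 < a' i)
    {δ : Matrix (Fin d) (Fin d) ℤ} (h : Rt g K ε a a' δ) (i : Fin d) :
    a' i / a i * (1 / (2 * K)) ≤ cj g δ i i := by
  obtain ⟨-, b, E, hb, hE, heq⟩ := h
  have hK0 : 0 < K := by linarith
  rw [heq, Matrix.add_apply, Matrix.one_apply_eq]
  have h1 := (abs_le.1 ((hE i i).trans hε)).1
  have e1 := ha i
  have e2 := ha' i
  calc a' i / a i * (1 / (2 * K)) = (a i)⁻¹ * (1 / K) * (1 / 2) * a' i := by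
        field_simp
    _ ≤ (a i)⁻¹ * b i * (1 + E i i) * a' i := by
        have hb' := (hb i).1
        have h2 : (1 : ℝ) / 2 ≤ 1 + E i i := by linarith
        have h3 : 0 < b i := lt_of_lt_of_le (by positivity) hb'
        gcongr

lemma Rt.diag_le {g : Matrix (Fin d) (Fin d) ℝ} {K ε : ℝ} (hK : 1 ≤ K) (hε : ε ≤ 1 / 2)
    {a a' : Fin d → ℝ} (ha : ∀ i, 0 < a i) (ha' : ∀ i, 0 < a' i)
    {δ : Matrix (Fin d) (Fin d) ℤ} (h : Rt g K ε a a' δ) (i : Fin d) :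
    cj g δ i i ≤ a' i / a i * (2 * K) := by
  obtain ⟨-, b, E, hb, hE, heq⟩ := h
  have hK0 : 0 < K := by linarith
  rw [heq, Matrix.add_apply, Matrix.one_apply_eq]
  have h1 := abs_le.1 ((hE i i).trans hε)
  have e1 := ha i
  have e2 := ha' i
  calc (a i)⁻¹ * b i * (1 + E i i) * a' i ≤ (a i)⁻¹ * K * 2 * a' i := by
        have h2 : 1 + E i i ≤ 2 := by linarith
        have h3 : 0 < b i := lt_of_lt_of_le (by positivity) (hb i).1
        have h4 : 0 ≤ 1 + E i i := by linarith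
        gcongr
        exact (hb i).2
    _ = _ := by field_simp

lemma Rt.off_le {g : Matrix (Fin d) (Fin d) ℝ} {K ε : ℝ} (hK : 1 ≤ K)
    {a a' : Fin d → ℝ} (ha : ∀ i, 0 < a i) (ha' : ∀ i, 0 < a' i)
    {δ : Matrix (Fin d) (Fin d) ℤ} (h : Rt g K ε a a' δ) {i j : Fin d} (hij : i ≠ j) :
    |cj g δ i j| ≤ a' j / a i * (K * ε) := by
  obtain ⟨-, b, E, hb, hE, heq⟩ := h
  have hK0 : 0 < K := by linarith
  rw [heq, Matrix.add_apply, Matrix.one_apply_ne hij, zero_add]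
  have e1 := ha i
  have e2 := ha' j
  have h3 : 0 < b i := lt_of_lt_of_le (by positivity) (hb i).1
  rw [abs_mul, abs_mul, abs_mul, abs_of_pos (inv_pos.2 e1), abs_of_pos h3, abs_of_pos e2]
  have hE' := hE i j
  have hε0 : 0 ≤ ε := (abs_nonneg _).trans hE'
  calc (a i)⁻¹ * b i * |E i j| * a' j ≤ (a i)⁻¹ * K * ε * a' j := by
        gcongr
        exact (hb i).2
    _ = _ := by field_simp

/-- **Exponentially good returns of an algebraic lattice are exact in the largest direction.** -/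
theorem returns (hd : 0 < d) {g : Matrix (Fin d) (Fin d) ℝ} (hg : g.det ≠ 0)
    (halg : ∀ i j, IsAlgebraic ℚ (g i j)) {ν : ℝ} (hν : 0 < ν) (hnu : HasNu g ν) {K ε : ℝ}
    (hK : 1 ≤ K) (hε : 0 < ε) :
    ∃ L₀ : ℝ, ∀ L : ℝ, L₀ ≤ L → ∀ (a a' : Fin d → ℝ) (δ : Matrix (Fin d) (Fin d) ℤ),
      (∀ i, 0 < a i) → ∏ i, a i = 1 → (∀ i, 0 < a' i) →
      (∀ i, |Real.log (a i)| ≤ L) → (∀ i, |Real.log (a' i)| ≤ L) →
      Rt g K (Real.exp (-(ε * L))) a a' δ →
      ∀ i, (∀ j, a j ≤ a i) → (∀ j, a' j ≤ a' i) → ∀ j, j ≠ i → cj g δ i j = 0 := by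
  classical
  by_contra hcon
  push Not at hcon
  have hcon' : ∀ n : ℕ, ∃ (L : ℝ) (a a' : Fin d → ℝ) (δ : Matrix (Fin d) (Fin d) ℤ) (i j : Fin d),
      (n : ℝ) ≤ L ∧ (∀ i, 0 < a i) ∧ ∏ i, a i = 1 ∧ (∀ i, 0 < a' i) ∧
      (∀ i, |Real.log (a i)| ≤ L) ∧ (∀ i, |Real.log (a' i)| ≤ L) ∧
      Rt g K (Real.exp (-(ε * L))) a a' δ ∧ (∀ j, a j ≤ a i) ∧ (∀ j, a' j ≤ a' i) ∧ j ≠ i ∧
      cj g δ i j ≠ 0 := by
    intro n
    obtain ⟨L, hL, a, a', δ, h1, h2, h3, h4, h5, h6, i, h7, h8, j, h9, h10⟩ := hcon n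
    exact ⟨L, a, a', δ, i, j, hL, h1, h2, h3, h4, h5, h6, h7, h8, h9, h10⟩
  choose L a a' δ i j hL ha ha1 ha' hLa hLa' hRt hmax hmax' hji hne using hcon'
  -- the index `i` may be taken constant
  have hpig : ∃ i₀ j₀, ∃ᶠ n in atTop, i n = i₀ ∧ j n = j₀ := by
    by_contra hc
    push Not at hc
    have h1 : ∀ p : Fin d × Fin d, ∀ᶠ n in atTop, ¬ (i n = p.1 ∧ j n = p.2) := fun p =>
      Filter.not_frequently.1 (by
        intro hf
        exact absurd hf (by simpa using hc p.1 p.2))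
    have h2 := Filter.eventually_all.2 h1
    obtain ⟨n, hn⟩ := h2.exists
    exact hn (i n, j n) ⟨rfl, rfl⟩
  obtain ⟨i₀, j₀, hfreq⟩ := hpig
  obtain ⟨ψ, hψ, hψi⟩ := extraction_of_frequently_atTop hfreq
  have hLt : Tendsto L atTop atTop :=
    tendsto_atTop_mono (fun n => hL n) tendsto_natCast_atTop_atTop
  obtain ⟨φ, hφ, hev⟩ := struct hd hg halg hν hnu hK hε (fun n => a (ψ n)) (fun n => a' (ψ n))
    (fun n => ha _) (fun n => ha1 _) (fun n => ha' _) (fun n => L (ψ n))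
    (hLt.comp hψ.tendsto_atTop) (fun n => hLa _) (fun n => hLa' _) (fun n => δ (ψ n))
    (fun n => hRt _)
  obtain ⟨n, hn⟩ := hev.exists
  set p := ψ (φ n) with hp
  have hip : i p = i₀ := (hψi _).1
  have hjp : j p = j₀ := (hψi _).2
  have hji₀ : j₀ ≠ i₀ := by rw [← hip, ← hjp]; exact hji p
  have hne₀ : cj g (δ p) i₀ j₀ ≠ 0 := by rw [← hip, ← hjp]; exact hne p
  have hmaxp : ∀ j, a p j ≤ a p i₀ := by rw [← hip]; exact hmax p
  -- the rows are proportional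
  have hrow : ∀ n', cj g (δ (ψ (φ n'))) i₀ j₀ * cj g (δ p) i₀ i₀ =
      cj g (δ (ψ (φ n'))) i₀ i₀ * cj g (δ p) i₀ j₀ := by
    intro n'
    have h1 := hn n' i₀ hmaxp
    have h2 : ∀ l, cj g (δ (ψ (φ n'))) i₀ l =
        cj g (δ (ψ (φ n')) * (δ p)⁻¹) i₀ i₀ * cj g (δ p) i₀ l := by
      intro l
      have h3 : δ (ψ (φ n')) = (δ (ψ (φ n')) * (δ p)⁻¹) * δ p := by
        rw [Matrix.mul_assoc, Matrix.nonsing_inv_mul _ (hRt p).1, Matrix.mul_one]
      have h4 : cj g (δ (ψ (φ n'))) = cj g (δ (ψ (φ n')) * (δ p)⁻¹) * cj g (δ p) := by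
        rw [← cj_mul hg, ← h3]
      have h5 := congrFun (congrFun h4 i₀) l
      rw [Matrix.mul_apply, Finset.sum_eq_single i₀] at h5
      · exact h5
      · intro m _ hm
        rw [h1 m hm, zero_mul]
      · intro h
        exact absurd (Finset.mem_univ _) h
    rw [h2 i₀, h2 j₀]
    ring
  -- the limit
  have hLt2 : Tendsto (fun n' => L (ψ (φ n'))) atTop atTop :=
    hLt.comp (hψ.tendsto_atTop.comp hφ.tendsto_atTop)
  have hexp : Tendsto (fun n' => Real.exp (-(ε * L (ψ (φ n'))))) atTop (𝓝 0) :=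
    Real.tendsto_exp_neg_atTop_nhds_zero.comp (hLt2.const_mul_atTop hε)
  have hbound : ∀ᶠ n' in atTop, |cj g (δ p) i₀ j₀| ≤
      2 * K ^ 2 * |cj g (δ p) i₀ i₀| * Real.exp (-(ε * L (ψ (φ n')))) := by
    have hhalf : ∀ᶠ n' in atTop, Real.exp (-(ε * L (ψ (φ n')))) ≤ 1 / 2 :=
      (hexp.eventually (gt_mem_nhds (by norm_num : (0 : ℝ) < 1 / 2))).mono fun _ h => le_of_lt h
    filter_upwards [hhalf] with n' hn'
    set q := ψ (φ n') with hq
    have hiq : i q = i₀ := (hψi _).1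
    have h1 := Rt.diag_ge hK hn' (ha q) (ha' q) (hRt q) i₀
    have h2 := Rt.off_le hK (ha q) (ha' q) (hRt q) hji₀.symm
    have h3 : a' q j₀ ≤ a' q i₀ := by
      have := hmax' q j₀
      rw [hiq] at this
      exact this
    have e1 := ha q i₀
    have e2 := ha' q i₀
    have hK0 : 0 < K := by linarith
    have h4 : |cj g (δ q) i₀ j₀| ≤ a' q i₀ / a q i₀ * (K * Real.exp (-(ε * L q))) := by
      refine h2.trans ?_
      have := Real.exp_pos (-(ε * L q))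
      gcongr
    have h5 : 0 < a' q i₀ / a q i₀ := by positivity
    have h6 : a' q i₀ / a q i₀ * (1 / (2 * K)) * |cj g (δ p) i₀ j₀| ≤
        a' q i₀ / a q i₀ * (K * Real.exp (-(ε * L q))) * |cj g (δ p) i₀ i₀| := by
      calc a' q i₀ / a q i₀ * (1 / (2 * K)) * |cj g (δ p) i₀ j₀| ≤
            |cj g (δ q) i₀ i₀| * |cj g (δ p) i₀ j₀| := by
              gcongr
              exact h1.trans (le_abs_self _)
        _ = |cj g (δ q) i₀ j₀| * |cj g (δ p) i₀ i₀| := by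
            rw [← abs_mul, ← abs_mul, hrow n']
        _ ≤ _ := by gcongr
    have h7 : a' q i₀ / a q i₀ * (1 / (2 * K)) * |cj g (δ p) i₀ j₀| =
        a' q i₀ / a q i₀ * (1 / (2 * K) * |cj g (δ p) i₀ j₀|) := by ring
    have h8 : a' q i₀ / a q i₀ * (K * Real.exp (-(ε * L q))) * |cj g (δ p) i₀ i₀| =
        a' q i₀ / a q i₀ * (K * Real.exp (-(ε * L q)) * |cj g (δ p) i₀ i₀|) := by ring
    rw [h7, h8] at h6
    have h9 := le_of_mul_le_mul_left h6 h5
    calc |cj g (δ p) i₀ j₀| = 2 * K * (1 / (2 * K) * |cj g (δ p) i₀ j₀|) := by field_simp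
      _ ≤ 2 * K * (K * Real.exp (-(ε * L q)) * |cj g (δ p) i₀ i₀|) := by gcongr
      _ = _ := by ring
  have hlim : Tendsto (fun n' => 2 * K ^ 2 * |cj g (δ p) i₀ i₀| *
      Real.exp (-(ε * L (ψ (φ n'))))) atTop (𝓝 0) := by
    have := hexp.const_mul (2 * K ^ 2 * |cj g (δ p) i₀ i₀|)
    rwa [mul_zero] at this
  have h0 : |cj g (δ p) i₀ j₀| ≤ 0 := ge_of_tendsto hlim hbound
  exact hne₀ (abs_nonpos_iff.1 h0)

end Pool.Agent.KS6_27
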