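import Mathlib

/-! # The number of units of a number field in a box -/

set_option autoImplicit false
set_option linter.unusedSectionVars false

open Finset Module NumberField

namespace Pool.Agent.KS6_27

variable {K : Type} [Field K] [NumberField K]

lemma abs_norm_eq (x : K) : |(Algebra.norm ℚ x : ℚ)| = ((∏ φ : K →+* ℂ, ‖φ x‖ : ℝ)) := by
  have h1 := Algebra.norm_eq_prod_embeddings ℚ ℂ x
  have h2 := congrArg norm h1
  rw [norm_prod] at h2
  have h3 : ‖(algebraMap ℚ ℂ) (Algebra.norm ℚ x)‖ = (|(Algebra.norm ℚ x : ℚ)| : ℝ) := by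
    rw [eq_ratCast, Complex.norm_ratCast]
  rw [h3] at h2
  have h4 : ∏ σ : K →ₐ[ℚ] ℂ, ‖σ x‖ = ∏ φ : K →+* ℂ, ‖φ x‖ := by
    rw [← Equiv.prod_comp (RingHom.equivRatAlgHom (R := K) (S := ℂ)) (fun σ : K →ₐ[ℚ] ℂ => ‖σ x‖)]
    rfl
  rw [← h4, ← h2]
  push_cast
  rfl

lemma one_le_abs_norm {x : K} (hx0 : x ≠ 0) (hx : IsIntegral ℤ x) :
    (1 : ℚ) ≤ |(Algebra.norm ℚ x : ℚ)| := by
  have h1 : IsIntegral ℤ (Algebra.norm ℚ x) := Algebra.isIntegral_norm ℚ hx
  obtain ⟨z, hz⟩ := IsIntegrallyClosed.isIntegral_iff.1 h1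
  have hne : Algebra.norm ℚ x ≠ 0 := Algebra.norm_ne_zero_iff.2 hx0
  rw [← hz] at hne ⊢
  have hz0 : z ≠ 0 := by
    intro h
    rw [h, map_zero] at hne
    exact hne rfl
  rw [eq_intCast]
  have := Int.one_le_abs hz0
  exact_mod_cast this

lemma sum_log_eq {x : K} (hx0 : x ≠ 0) (hx : IsIntegral ℤ x) (hx' : IsIntegral ℤ x⁻¹) :
    ∑ φ : K →+* ℂ, Real.log ‖φ x‖ = 0 := by
  have h1 := one_le_abs_norm hx0 hx
  have h2 := one_le_abs_norm (inv_ne_zero hx0) hx'
  have h3 : |(Algebra.norm ℚ x : ℚ)| * |(Algebra.norm ℚ x⁻¹ : ℚ)| = 1 := by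
    rw [← abs_mul, ← map_mul, mul_inv_cancel₀ hx0, map_one, abs_one]
  have h4 : |(Algebra.norm ℚ x : ℚ)| = 1 := by nlinarith
  have h5 := abs_norm_eq x
  rw [h4] at h5
  rw [← Real.log_prod (fun φ _ => (norm_pos_iff.2 ((map_ne_zero φ).2 hx0)).ne'), ← h5]
  simp

/-- **The number of units in a box.** -/
theorem unit_count (K : Type) [Field K] [NumberField K] : ∃ C : ℕ, ∀ (X : ℕ) (S : Finset K),
    (∀ x ∈ S, x ≠ 0 ∧ IsIntegral ℤ x ∧ IsIntegral ℤ x⁻¹ ∧
      ∀ φ : K →+* ℂ, |Real.log ‖φ x‖| ≤ X) →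
    S.card ≤ C * (2 * X + 3) ^ (finrank ℚ K - 1) := by
  classical
  set B : ℝ := Real.exp (Fintype.card (K →+* ℂ)) with hB
  have hfin := Embeddings.finite_of_norm_le K ℂ B
  refine ⟨hfin.toFinset.card, fun X S hS => ?_⟩
  obtain ⟨φ₀⟩ : Nonempty (K →+* ℂ) := inferInstance
  set I : Finset (K →+* ℂ) := Finset.univ.erase φ₀ with hI
  have hIcard : I.card = finrank ℚ K - 1 := by
    rw [hI, Finset.card_erase_of_mem (Finset.mem_univ _), Finset.card_univ,
      NumberField.Embeddings.card]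
  set T : Finset (I → ℤ) := Fintype.piFinset fun _ => Finset.Icc (-(X : ℤ) - 1) (X + 1) with hT
  have hTcard : T.card = (2 * X + 3) ^ (finrank ℚ K - 1) := by
    rw [hT, Fintype.card_piFinset, Finset.prod_const, Finset.card_univ, Fintype.card_coe, hIcard,
      Int.card_Icc]
    congr 1
    omega
  rw [← hTcard]
  refine Finset.card_le_mul_card_image_of_maps_to (f := fun x => fun φ : I =>
    ⌊Real.log ‖φ.1 x‖⌋) (s := S) (t := T) ?_ _ ?_
  · intro x hx
    rw [hT, Fintype.mem_piFinset]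
    intro φ
    have h1 := abs_le.1 ((hS x hx).2.2.2 φ.1)
    rw [Finset.mem_Icc]
    constructor
    · rw [Int.le_floor]
      push_cast
      linarith
    · have h2 : (⌊Real.log ‖φ.1 x‖⌋ : ℝ) ≤ X := (Int.floor_le _).trans h1.2
      have h3 : ⌊Real.log ‖φ.1 x‖⌋ ≤ (X : ℤ) := by exact_mod_cast h2
      omega
  · intro τ _
    by_cases hne : (S.filter fun x => (fun φ : I => ⌊Real.log ‖φ.1 x‖⌋) = τ).Nonempty
    swap
    · rw [Finset.not_nonempty_iff_eq_empty.1 hne]
      simp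
    obtain ⟨y, hy⟩ := hne
    rw [Finset.mem_filter] at hy
    have hy' := hS y hy.1
    refine Finset.card_le_card_of_injOn (fun x => x / y) ?_ ?_
    · intro x hx
      rw [Finset.mem_coe, Finset.mem_filter] at hx
      have hx' := hS x hx.1
      rw [Finset.mem_coe, Set.Finite.mem_toFinset]
      have hdiff : ∀ φ ∈ I, |Real.log ‖φ x‖ - Real.log ‖φ y‖| ≤ 1 := by
        intro φ hφ
        have h1 : ⌊Real.log ‖φ x‖⌋ = ⌊Real.log ‖φ y‖⌋ := by
          have h2 := congrFun hx.2 ⟨φ, hφ⟩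
          have h3 := congrFun hy.2 ⟨φ, hφ⟩
          exact h2.trans h3.symm
        exact (Int.abs_sub_lt_one_of_floor_eq_floor h1).le
      have hcard0 : (1 : ℝ) ≤ Fintype.card (K →+* ℂ) := by
        have : 0 < Fintype.card (K →+* ℂ) := Fintype.card_pos_iff.2 ⟨φ₀⟩
        exact_mod_cast this
      have hall : ∀ φ : K →+* ℂ, |Real.log ‖φ x‖ - Real.log ‖φ y‖| ≤
          Fintype.card (K →+* ℂ) := by
        intro φ
        by_cases hφ : φ = φ₀
        · subst hφ
          have h1 := sum_log_eq hx'.1 hx'.2.1 hx'.2.2.1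
          have h2 := sum_log_eq hy'.1 hy'.2.1 hy'.2.2.1
          rw [← Finset.add_sum_erase _ _ (Finset.mem_univ φ)] at h1 h2
          have h3 : Real.log ‖φ x‖ - Real.log ‖φ y‖ =
              -∑ ψ ∈ I, (Real.log ‖ψ x‖ - Real.log ‖ψ y‖) := by
            rw [Finset.sum_sub_distrib]
            rw [hI]
            linarith
          rw [h3, abs_neg]
          refine (Finset.abs_sum_le_sum_abs _ _).trans ((Finset.sum_le_sum hdiff).trans ?_)
          rw [Finset.sum_const, nsmul_eq_mul, mul_one]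
          have : I.card ≤ Fintype.card (K →+* ℂ) := Finset.card_le_univ _
          exact_mod_cast this
        · exact (hdiff φ (Finset.mem_erase.2 ⟨hφ, Finset.mem_univ _⟩)).trans hcard0
      refine ⟨?_, fun φ => ?_⟩
      · change IsIntegral ℤ (x / y)
        rw [div_eq_mul_inv]
        exact hx'.2.1.mul hy'.2.2.1
      · change ‖φ (x / y)‖ ≤ B
        have hx0 : 0 < ‖φ x‖ := norm_pos_iff.2 ((map_ne_zero φ).2 hx'.1)
        have hy0 : 0 < ‖φ y‖ := norm_pos_iff.2 ((map_ne_zero φ).2 hy'.1)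
        rw [map_div₀, norm_div, hB, ← Real.exp_log (div_pos hx0 hy0), Real.log_div hx0.ne' hy0.ne']
        exact Real.exp_le_exp.2 ((le_abs_self _).trans (hall φ))
    · intro x _ x' _ hxx
      exact (div_left_inj' hy'.1).1 hxx

end Pool.Agent.KS6_27
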