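import Mathlib
import Pool.Agent.KS6_27.Ret
import Pool.Agent.KS6_27.Fld
import Pool.Agent.KS6_27.Unit
import Pool.Graph.R_pool_sql_team_seeded_47a924f7.T6.H49.CSD.ComplexPer
import Pool.Graph.R_seed8.H715R2.LimitAlg

/-! # The complexity of the orbit of an algebraic lattice -/

set_option autoImplicit false
set_option linter.unusedSectionVars false

open Finset Matrix Filter Topology H715R2 Module
open Pool.Agent.T6.H49.CSD (cj cj_one cj_mul cj_add cj_sub cj_smul cj_diagonal rigid Cl cl_entry)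
open Pool.Agent.TH314.CSD (plc plc_sum plc_inj plc_le pla pla_pos pla_prod)

namespace Pool.Agent.KS6_27

variable {d : ℕ}

lemma rt_of_cl {g : Matrix (Fin d) (Fin d) ℝ} (hg : g.det ≠ 0) {K ε ε' : ℝ} (hε : ε ≤ ε')
    {a a' : Fin d → ℝ} (ha : ∀ i, 0 < a i)
    (h : Cl K ε (diagonal a * g) (diagonal a' * g)) : ∃ δ, Rt g K ε' a a' δ := by
  obtain ⟨b, E, γ, hb, hE, hγ, heq⟩ := h
  have hγ' : IsUnit (γ⁻¹).det := Matrix.isUnit_nonsing_inv_det _ hγ
  exact ⟨γ⁻¹, hγ', b, E, hb, fun i j => (hE i j).trans hε, fun i j =>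
    cl_entry hg (fun i => (ha i).ne') hγ heq i j⟩

lemma row_ind {g : Matrix (Fin d) (Fin d) ℝ} {ν : ℝ} (hν : 0 < ν) (hnu : HasNu g ν) (i : Fin d) :
    Ind (g i) := by
  refine ind_of_int fun y hy h0 => ?_
  have h1 := hnu y hy
  have h2 : FF g (iR y) = 0 := by
    rw [FF]
    exact Finset.prod_eq_zero (Finset.mem_univ i) h0
  rw [h2, abs_zero] at h1
  linarith

/-- the degree of the field of a row -/
lemma deg_le (hd : 3 ≤ d) {g : Matrix (Fin d) (Fin d) ℝ} (hg : g.det ≠ 0) {ν : ℝ} (hν : 0 < ν)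
    (hnu : HasNu g ν) (hint : ¬ PropInt g) (i : Fin d) :
    finrank ℚ (Kf (g i) (row_ind hν hnu i)) ≤ d / d.minFac := by
  classical
  set r := g i
  set hr := row_ind hν hnu i
  have hd0 : 0 < d := by omega
  have hfin := Kf_fin r hr hd0
  obtain ⟨m, hm⟩ := Kf_dvd r hr
  have hne : finrank ℚ (Kf r hr) ≠ d := by
    intro h
    obtain ⟨s, hs, hmem⟩ := Kf_full r hr hd0 h
    have h1 := limit_alg' hd hg (h := g) (fun _ _ => 1) (fun _ => 1) (fun _ => by simp)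
      (fun _ => by simp) (by
        have h2 : (fun _ : ℕ => diagonal (fun _ : Fin d => (1 : ℝ)) * g *
            (1 : Matrix (Fin d) (Fin d) ℤ).map (Int.cast : ℤ → ℝ)) = fun _ => g := by
          funext _
          rw [diagonal_one, Matrix.one_mul]
          have : (1 : Matrix (Fin d) (Fin d) ℤ).map (Int.cast : ℤ → ℝ) = 1 := zR_one
          rw [this, Matrix.mul_one]
        rw [h2]
        exact tendsto_const_nhds) i s hs (Kf r hr) h.le hmem
    rcases h1 with h1 | ⟨h1, -⟩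
    · exact hint h1
    · obtain ⟨x, hx, hx2⟩ := h1 ν hν
      exact absurd (hnu x hx) (not_le.2 hx2)
  have hm2 : 2 ≤ m := by
    rcases Nat.lt_or_ge m 2 with h | h
    · exfalso
      interval_cases m
      · omega
      · exact hne (by omega)
    · exact h
  have h1 : d.minFac ≤ m := Nat.minFac_le_of_dvd hm2 ⟨_, by rw [mul_comm]; exact hm⟩
  have hp : 0 < d.minFac := Nat.minFac_pos d
  rw [Nat.le_div_iff_mul_le hp]
  calc finrank ℚ (Kf r hr) * d.minFac ≤ finrank ℚ (Kf r hr) * m := Nat.mul_le_mul_left _ h1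
    _ = d := hm.symm

/-- the number of places in a class, for a fixed largest direction -/
theorem class_bound_dir {e : ℕ} (he : 2 ≤ e) {g : Matrix (Fin (e + 1)) (Fin (e + 1)) ℝ}
    (hg : g.det ≠ 0) (halg : ∀ i j, IsAlgebraic ℚ (g i j)) {ν : ℝ} (hν : 0 < ν)
    (hnu : HasNu g ν) (hint : ¬ PropInt g) {K : ℝ} (hK : 1 ≤ K) (i : Fin (e + 1)) :
    ∃ C : ℕ, ∀ ε₁ : ℝ, 0 < ε₁ → ∃ n₀ : ℕ, ∀ n : ℕ, n₀ ≤ n → ∀ ε : ℝ,
      ε ≤ Real.exp (-(ε₁ * (2 * (e * n)))) → ∀ 𝓕 : Finset (Fin e → Fin (n + 1)),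
      (∀ u ∈ 𝓕, ∀ j, pla u j ≤ pla u i) →
      (∀ u ∈ 𝓕, ∀ u' ∈ 𝓕, Cl K ε (diagonal (pla u) * g) (diagonal (pla u') * g)) →
      𝓕.card ≤ C * (n + 1) ^ ((e + 1) / (e + 1).minFac - 1) := by
  classical
  set r := g i with hrdef
  have hr : Ind r := row_ind hν hnu i
  have hd0 : 0 < e + 1 := Nat.succ_pos e
  have hfin := Kf_fin r hr hd0
  have hNF : NumberField (Kf r hr) :=
    { to_charZero := inferInstance, to_finiteDimensional := hfin }
  obtain ⟨Cu, hCu⟩ := unit_count (Kf r hr)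
  have hdeg : finrank ℚ (Kf r hr) ≤ (e + 1) / (e + 1).minFac := deg_le (by omega) hg hν hnu hint i
  set κ' := (e + 1) / (e + 1).minFac - 1 with hκ'
  have hK0 : 0 < K := by linarith
  obtain ⟨L₁, hL₁⟩ := exists_nat_ge (Real.log (4 * K ^ 2))
  set D : ℝ := ((e + 1 : ℕ) : ℝ) with hD
  have hD1 : 1 ≤ D := by
    rw [hD]
    exact_mod_cast Nat.succ_le_succ (Nat.zero_le e)
  obtain ⟨X₁, hX₁⟩ := exists_nat_ge (Real.log (D * (2 * K)))
  set C₂ : ℕ := 2 * X₁ + 8 * e + 3 with hC₂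
  refine ⟨(2 * L₁ + 1) ^ (e + 1) * (Cu * C₂ ^ κ'), fun ε₁ hε₁ => ?_⟩
  obtain ⟨L₀, hL₀⟩ := returns hd0 hg halg hν hnu hK hε₁
  obtain ⟨n₁, hn₁⟩ := exists_nat_ge (max L₀ (Real.log (2 * D) / ε₁))
  refine ⟨n₁, fun n hn ε hε 𝓕 hmax hcl => ?_⟩
  have he1 : (1 : ℝ) ≤ e := by
    have : 1 ≤ e := by omega
    exact_mod_cast this
  set L : ℝ := 2 * (e * n) with hL
  have hnn : (n₁ : ℝ) ≤ n := by exact_mod_cast hn
  have hn0 : (0 : ℝ) ≤ n := Nat.cast_nonneg n
  have hLn : (n : ℝ) ≤ L := by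
    rw [hL]
    nlinarith
  have hLL₀ : L₀ ≤ L := ((le_max_left _ _).trans hn₁).trans (hnn.trans hLn)
  have hLlog : Real.log (2 * D) ≤ ε₁ * L := by
    have h1 : Real.log (2 * D) / ε₁ ≤ L :=
      ((le_max_right _ _).trans hn₁).trans (hnn.trans hLn)
    rw [div_le_iff₀ hε₁] at h1
    linarith
  have hdε : D * Real.exp (-(ε₁ * L)) ≤ 1 / 2 := by
    have h1 : Real.exp (-(ε₁ * L)) ≤ 1 / (2 * D) := by
      rw [Real.exp_neg, inv_eq_one_div]
      refine div_le_div_of_nonneg_left zero_le_one (by positivity) ?_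
      rw [← Real.exp_log (by positivity : (0 : ℝ) < 2 * D)]
      exact Real.exp_le_exp.2 hLlog
    calc D * Real.exp (-(ε₁ * L)) ≤ D * (1 / (2 * D)) :=
          mul_le_mul_of_nonneg_left h1 (by linarith)
      _ = 1 / 2 := by field_simp
  have hexp_half : Real.exp (-(ε₁ * L)) ≤ 1 / 2 := by
    have h1 := Real.exp_pos (-(ε₁ * L))
    nlinarith
  -- the places
  have hlogpla : ∀ (u : Fin e → Fin (n + 1)) j, Real.log (pla u j) = 2 * (plc u j : ℝ) := by
    intro u j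
    rw [pla, Real.log_exp]
  have hplc : ∀ (u : Fin e → Fin (n + 1)) j, |(plc u j : ℝ)| ≤ e * n := by
    intro u j
    have := plc_le (by omega : 1 ≤ e) u j
    exact_mod_cast this
  have hlogle : ∀ (u : Fin e → Fin (n + 1)) j, |Real.log (pla u j)| ≤ L := by
    intro u j
    rw [hlogpla, abs_mul, abs_two, hL]
    linarith [hplc u j]
  have hplale : ∀ (u : Fin e → Fin (n + 1)) j, pla u j ≤ Real.exp L := by
    intro u j
    rw [pla]
    refine Real.exp_le_exp.2 ?_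
    have := (abs_le.1 (hplc u j)).2
    linarith
  have hplainv : ∀ (u : Fin e → Fin (n + 1)) j, (pla u j)⁻¹ ≤ Real.exp L := by
    intro u j
    rw [pla, ← Real.exp_neg]
    refine Real.exp_le_exp.2 ?_
    have := (abs_le.1 (hplc u j)).1
    linarith
  rcases Finset.eq_empty_or_nonempty 𝓕 with h𝓕 | ⟨u₀, hu₀⟩
  · rw [h𝓕, Finset.card_empty]
    exact Nat.zero_le _
  -- the returns
  have hδex : ∀ u, ∃ δ, u ∈ 𝓕 → Rt g K (Real.exp (-(ε₁ * L))) (pla u) (pla u₀) δ := by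
    intro u
    by_cases hu : u ∈ 𝓕
    · obtain ⟨δ, hδ⟩ := rt_of_cl hg hε (pla_pos u) (hcl u hu u₀ hu₀)
      exact ⟨δ, fun _ => hδ⟩
    · exact ⟨0, fun h => absurd h hu⟩
  choose δ hδ using hδex
  have hrow : ∀ u ∈ 𝓕, ∀ j, j ≠ i → cj g (δ u) i j = 0 := fun u hu =>
    hL₀ L hLL₀ (pla u) (pla u₀) (δ u) (pla_pos u) (pla_prod u) (pla_pos u₀) (hlogle u)
      (hlogle u₀) (hδ u hu) i (hmax u hu) (hmax u₀ hu₀)
  have hEg : ∀ u ∈ 𝓕, Eg r (zQ (δ u)) (cj g (δ u) i i) := fun u hu => Eg_of_cj hg (hrow u hu)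
  have hxex : ∀ u, ∃ x : Kf r hr, u ∈ 𝓕 → (x : ℝ) = cj g (δ u) i i := by
    intro u
    by_cases hu : u ∈ 𝓕
    · exact ⟨⟨_, ⟨_, hEg u hu⟩⟩, fun _ => rfl⟩
    · exact ⟨0, fun h => absurd h hu⟩
  choose x hx using hxex
  have hψ : ∀ u ∈ 𝓕, ψf r hr (x u) = zQ (δ u) := by
    intro u hu
    refine Eg.unique hr (ψf_spec (x u)) ?_
    rw [hx u hu]
    exact hEg u hu
  have hxpos : ∀ u ∈ 𝓕, x u ≠ 0 := by
    intro u hu h0
    have h1 := Rt.diag_ge hK hexp_half (pla_pos u) (pla_pos u₀) (hδ u hu) i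
    rw [← hx u hu, h0] at h1
    have h2 : 0 < pla u₀ i / pla u i * (1 / (2 * K)) := by
      have e1 := pla_pos u₀ i
      have e2 := pla_pos u i
      positivity
    have h3 : ((0 : Kf r hr) : ℝ) = 0 := rfl
    rw [h3] at h1
    linarith
  have hψinv : ∀ u ∈ 𝓕, ψf r hr (x u)⁻¹ = zQ (δ u)⁻¹ := by
    intro u hu
    have h1 : ψf r hr (x u)⁻¹ * zQ (δ u) = 1 := by
      rw [← hψ u hu, ← map_mul, inv_mul_cancel₀ (hxpos u hu), map_one]
    rw [zQ_inv (hδ u hu).1]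
    exact (Matrix.inv_eq_left_inv h1).symm
  -- the bounds
  set B : ℝ := 2 * K * Real.exp (2 * L) with hB
  have hexp2 : Real.exp (2 * L) = Real.exp L * Real.exp L := by
    rw [← Real.exp_add]
    congr 1
    ring
  have hB1 : ∀ u ∈ 𝓕, ∀ a b, |cj g (δ u) a b| ≤ B := by
    intro u hu a b
    obtain ⟨-, bb, E, hb, hE, heq⟩ := hδ u hu
    rw [heq]
    have e1 := pla_pos u a
    have e2 := pla_pos u₀ b
    have e3 : 0 < bb a := lt_of_lt_of_le (by positivity) (hb a).1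
    have h1 : |(1 + E) a b| ≤ 2 := by
      rw [Matrix.add_apply]
      refine (abs_add_le _ _).trans ?_
      have h2 : |(1 : Matrix (Fin (e + 1)) (Fin (e + 1)) ℝ) a b| ≤ 1 := by
        by_cases hab : a = b
        · rw [hab, Matrix.one_apply_eq, abs_one]
        · rw [Matrix.one_apply_ne hab, abs_zero]
          exact zero_le_one
      have h3 := hE a b
      linarith
    rw [abs_mul, abs_mul, abs_mul, abs_of_pos (inv_pos.2 e1), abs_of_pos e2, abs_of_pos e3, hB,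
      hexp2]
    calc (pla u a)⁻¹ * bb a * |(1 + E) a b| * pla u₀ b ≤ Real.exp L * K * 2 * Real.exp L := by
          have h5 := hplale u₀ b
          have h6 := hplainv u a
          have h7 := (hb a).2
          gcongr
      _ = _ := by ring
  have hB2 : ∀ u ∈ 𝓕, ∀ a b, |cj g (δ u)⁻¹ a b| ≤ B := by
    intro u hu a b
    obtain ⟨N, hN1, -, hN⟩ := Rt.inv hg hK hdε (pla_pos u) (pla_pos u₀) (hδ u hu)
    rw [hN]
    have e1 := pla_pos u b
    have e2 := pla_pos u₀ a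
    rw [abs_mul, abs_mul, abs_of_pos (inv_pos.2 e2), abs_of_pos e1, hB, hexp2]
    calc (pla u₀ a)⁻¹ * |N a b| * pla u b ≤ Real.exp L * (2 * K) * Real.exp L := by
          have h5 := hplale u b
          have h6 := hplainv u₀ a
          have h7 := hN1 a b
          gcongr
      _ = _ := by ring
  set X : ℕ := X₁ + 4 * (e * n) with hX
  have hlogB : Real.log (D * B) ≤ X := by
    have h1 : D * B = (D * (2 * K)) * Real.exp (2 * L) := by
      rw [hB]
      ring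
    rw [h1, Real.log_mul (by positivity) (Real.exp_pos _).ne', Real.log_exp, hX, hL]
    push_cast
    linarith
  have hS : ∀ y ∈ 𝓕.image x, y ≠ 0 ∧ IsIntegral ℤ y ∧ IsIntegral ℤ y⁻¹ ∧
      ∀ φ : Kf r hr →+* ℂ, |Real.log ‖φ y‖| ≤ X := by
    intro y hy
    obtain ⟨u, hu, rfl⟩ := Finset.mem_image.1 hy
    refine ⟨hxpos u hu, Kf_integral r hr hd0 _ (hψ u hu), Kf_integral r hr hd0 _ (hψinv u hu),
      fun φ => ?_⟩
    have h1 := Kf_norm_le r hr hg hd0 (x u) (hψ u hu) (hB1 u hu) φ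
    have h2 := Kf_norm_le r hr hg hd0 (x u)⁻¹ (hψinv u hu) (hB2 u hu) φ
    have hpos : 0 < ‖φ (x u)‖ := norm_pos_iff.2 ((map_ne_zero φ).2 (hxpos u hu))
    rw [map_inv₀, norm_inv] at h2
    have h3 := Real.log_le_log hpos h1
    have h4 := Real.log_le_log (inv_pos.2 hpos) h2
    rw [Real.log_inv] at h4
    rw [abs_le]
    constructor <;> linarith
  have h1 := hCu X (𝓕.image x) hS
  -- the fibres
  have hfib : 𝓕.card ≤ (2 * L₁ + 1) ^ (e + 1) * (𝓕.image x).card := by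
    refine Finset.card_le_mul_card_image 𝓕 _ fun y hy => ?_
    obtain ⟨u, hu, rfl⟩ := Finset.mem_image.1 hy
    set T : Finset (Fin (e + 1) → ℤ) := Fintype.piFinset fun _ => Finset.Icc (-(L₁ : ℤ)) L₁ with hT
    have hTcard : T.card = (2 * L₁ + 1) ^ (e + 1) := by
      rw [hT, Fintype.card_piFinset, Finset.prod_const, Finset.card_univ, Fintype.card_fin,
        Int.card_Icc]
      congr 1
      omega
    rw [← hTcard]
    refine Finset.card_le_card_of_injOn (fun u' l => plc u' l - plc u l) ?_ ?_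
    · intro u' hu'
      rw [Finset.mem_coe, Finset.mem_filter] at hu'
      rw [Finset.mem_coe, hT, Fintype.mem_piFinset]
      intro l
      rw [Finset.mem_Icc, ← abs_le]
      have hδeq : δ u' = δ u := by
        apply zQ_inj
        rw [← hψ u' hu'.1, ← hψ u hu, hu'.2]
      have hone : ∀ v v' : Fin e → Fin (n + 1), v ∈ 𝓕 → v' ∈ 𝓕 → δ v = δ v' →
          2 * ((plc v' l : ℝ) - plc v l) ≤ L₁ := by
        intro v v' hv hv' hvv
        have g1 := Rt.diag_ge hK hexp_half (pla_pos v) (pla_pos u₀) (hδ v hv) l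
        have g2 := Rt.diag_le hK hexp_half (pla_pos v') (pla_pos u₀) (hδ v' hv') l
        rw [hvv] at g1
        have g3 := g1.trans g2
        have e1 := pla_pos v l
        have e2 := pla_pos v' l
        have e3 := pla_pos u₀ l
        have g4 : pla v' l ≤ 4 * K ^ 2 * pla v l := by
          rw [div_mul_div_comm, mul_one, div_mul_eq_mul_div, div_le_div_iff₀ (by positivity) e2] at g3
          have g5 : pla u₀ l * pla v' l ≤ pla u₀ l * (4 * K ^ 2 * pla v l) := by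
            calc pla u₀ l * pla v' l ≤ pla u₀ l * (2 * K) * (pla v l * (2 * K)) := g3
              _ = _ := by ring
          exact le_of_mul_le_mul_left g5 e3
        have g6 := Real.log_le_log e2 g4
        rw [Real.log_mul (by positivity) e1.ne', hlogpla, hlogpla] at g6
        linarith
      have g1 := hone u u' hu hu'.1 hδeq.symm
      have g2 := hone u' u hu'.1 hu hδeq
      have g3 : |((plc u' l - plc u l : ℤ) : ℝ)| ≤ (L₁ : ℝ) := by
        have hL₁0 : (0 : ℝ) ≤ L₁ := Nat.cast_nonneg _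
        push_cast
        rw [abs_le]
        constructor <;> linarith
      exact_mod_cast g3
    · intro u' _ u'' _ heq
      apply plc_inj
      funext l
      have := congrFun heq l
      simp only at this
      linarith
  -- conclusion
  have hC₂le : 2 * X + 3 ≤ C₂ * (n + 1) := by
    rw [hX, hC₂]
    have h5 : 0 ≤ X₁ * n := Nat.zero_le _
    nlinarith
  have hpow : (2 * X + 3) ^ (finrank ℚ (Kf r hr) - 1) ≤ C₂ ^ κ' * (n + 1) ^ κ' := by
    rw [← mul_pow]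
    refine (Nat.pow_le_pow_left hC₂le _).trans ?_
    refine Nat.pow_le_pow_right ?_ (by omega)
    exact Nat.mul_pos (by rw [hC₂]; omega) (Nat.succ_pos n)
  calc 𝓕.card ≤ (2 * L₁ + 1) ^ (e + 1) * (𝓕.image x).card := hfib
    _ ≤ (2 * L₁ + 1) ^ (e + 1) * (Cu * (2 * X + 3) ^ (finrank ℚ (Kf r hr) - 1)) :=
        Nat.mul_le_mul_left _ h1
    _ ≤ (2 * L₁ + 1) ^ (e + 1) * (Cu * (C₂ ^ κ' * (n + 1) ^ κ')) :=
        Nat.mul_le_mul_left _ (Nat.mul_le_mul_left _ hpow)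
    _ = _ := by ring

/-- the number of places in a class -/
theorem class_bound {e : ℕ} (he : 2 ≤ e) {g : Matrix (Fin (e + 1)) (Fin (e + 1)) ℝ}
    (hg : g.det ≠ 0) (halg : ∀ i j, IsAlgebraic ℚ (g i j)) {ν : ℝ} (hν : 0 < ν)
    (hnu : HasNu g ν) (hint : ¬ PropInt g) {K : ℝ} (hK : 1 ≤ K) :
    ∃ C : ℕ, ∀ ε₁ : ℝ, 0 < ε₁ → ∃ n₀ : ℕ, ∀ n : ℕ, n₀ ≤ n → ∀ ε : ℝ,
      ε ≤ Real.exp (-(ε₁ * (2 * (e * n)))) → ∀ 𝓕 : Finset (Fin e → Fin (n + 1)),
      (∀ u ∈ 𝓕, ∀ u' ∈ 𝓕, Cl K ε (diagonal (pla u) * g) (diagonal (pla u') * g)) →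
      𝓕.card ≤ C * (n + 1) ^ ((e + 1) / (e + 1).minFac - 1) := by
  classical
  choose C hC using fun i => class_bound_dir he hg halg hν hnu hint hK i
  refine ⟨∑ i, C i, fun ε₁ hε₁ => ?_⟩
  choose n₀ hn₀ using fun i => hC i ε₁ hε₁
  refine ⟨∑ i, n₀ i, fun n hn ε hε 𝓕 hcl => ?_⟩
  have hmax : ∀ u : Fin e → Fin (n + 1), ∃ i, ∀ j, pla u j ≤ pla u i := by
    intro u
    obtain ⟨i, -, hi⟩ := Finset.exists_max_image (Finset.univ : Finset (Fin (e + 1)))
      (fun j => pla u j) ⟨0, Finset.mem_univ _⟩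
    exact ⟨i, fun j => hi j (Finset.mem_univ _)⟩
  choose μ hμ using hmax
  have h1 : 𝓕.card = ∑ i, (𝓕.filter fun u => μ u = i).card :=
    Finset.card_eq_sum_card_fiberwise fun u _ => Finset.mem_univ _
  rw [h1, Finset.sum_mul]
  refine Finset.sum_le_sum fun i _ => ?_
  refine hn₀ i n ((Finset.single_le_sum (f := n₀) (fun _ _ => Nat.zero_le _)
    (Finset.mem_univ i)).trans hn) ε hε _ (fun u hu j => ?_) (fun u hu u' hu' => ?_)
  · rw [← (Finset.mem_filter.1 hu).2]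
    exact hμ u j
  · exact hcl u (Finset.mem_filter.1 hu).1 u' (Finset.mem_filter.1 hu').1

/-- **The complexity of the orbit of an algebraic lattice.** -/
theorem complexity_alg {e : ℕ} (he : 2 ≤ e) {g : Matrix (Fin (e + 1)) (Fin (e + 1)) ℝ}
    (hg : g.det ≠ 0) (halg : ∀ i j, IsAlgebraic ℚ (g i j)) {ν : ℝ} (hν : 0 < ν)
    (hnu : HasNu g ν) (hint : ¬ PropInt g) {K : ℝ} (hK : 1 ≤ K) (A : ℝ) :
    ∃ ε₀ : ℝ, 0 < ε₀ ∧ ∀ ε : ℝ, 0 < ε → ε < ε₀ →
      ∀ (k : ℕ) (col : (Fin (e + 1) → ℝ) → Fin k),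
      (∀ a a' : Fin (e + 1) → ℝ, (∀ i, 0 < a i) → ∏ i, a i = 1 → (∀ i, 0 < a' i) →
        ∏ i, a' i = 1 → col a = col a' → Cl K ε (diagonal a * g) (diagonal a' * g)) →
      A * Real.log (1 / ε) ^ ((e + 1) - (e + 1) / (e + 1).minFac) ≤ k := by
  classical
  obtain ⟨C, hC⟩ := class_bound he hg halg hν hnu hint hK
  set κ := (e + 1) - (e + 1) / (e + 1).minFac with hκ
  set κ' := (e + 1) / (e + 1).minFac - 1 with hκ'
  have hp1 : 0 < (e + 1) / (e + 1).minFac :=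
    Nat.div_pos (Nat.minFac_le (Nat.succ_pos e)) (Nat.minFac_pos _)
  have hp2 : (e + 1) / (e + 1).minFac < e + 1 :=
    Nat.div_lt_self (Nat.succ_pos e) (Nat.minFac_prime (by omega)).one_lt
  have hκe : e = κ + κ' := by omega
  have hκ0 : κ ≠ 0 := by omega
  have he0 : (0 : ℝ) < e := by
    have : 0 < e := by omega
    exact_mod_cast this
  set y : ℝ := max 1 (A * (C + 1)) with hy
  have hy1 : 1 ≤ y := le_max_left _ _
  have hy0 : 0 < y := by linarith
  set ε₁ : ℝ := 1 / (2 * e * y) with hε₁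
  have hε₁0 : 0 < ε₁ := by positivity
  obtain ⟨n₀, hn₀⟩ := hC ε₁ hε₁0
  refine ⟨Real.exp (-(n₀ + 1)), Real.exp_pos _, fun ε hε0 hε k col hcol => ?_⟩
  set ℓ : ℝ := Real.log (1 / ε) with hℓ
  have hεℓ : ε = Real.exp (-ℓ) := by
    rw [hℓ, one_div, Real.log_inv, neg_neg, Real.exp_log hε0]
  have hℓℓ : (n₀ : ℝ) + 1 < ℓ := by
    rw [hεℓ, Real.exp_lt_exp] at hε
    linarith
  have hn₀0 : (0 : ℝ) ≤ n₀ := Nat.cast_nonneg _
  have hℓ0 : 0 < ℓ := by linarith
  set n : ℕ := ⌊ℓ * y⌋₊ with hn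
  have hnle : (n : ℝ) ≤ ℓ * y := Nat.floor_le (by positivity)
  have hnge : ℓ * y < n + 1 := Nat.lt_floor_add_one _
  have hnn₀ : n₀ ≤ n := by
    rw [hn]
    refine Nat.le_floor ?_
    nlinarith
  have hεn : ε ≤ Real.exp (-(ε₁ * (2 * (e * n)))) := by
    rw [hεℓ]
    refine Real.exp_le_exp.2 ?_
    have h1 : ε₁ * (2 * (e * n)) = n / y := by
      rw [hε₁]
      field_simp
    rw [h1]
    have h2 : (n : ℝ) / y ≤ ℓ := by
      rw [div_le_iff₀ hy0]
      exact hnle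
    linarith
  -- the pigeonhole principle
  have hk : (n + 1) ^ e ≤ k * (C * (n + 1) ^ κ') := by
    have h1 : Fintype.card (Fin e → Fin (n + 1)) = (n + 1) ^ e := by
      rw [Fintype.card_fun, Fintype.card_fin, Fintype.card_fin]
    rw [← h1, ← Finset.card_univ]
    have h2 := Finset.card_le_mul_card_image_of_maps_to
      (s := (Finset.univ : Finset (Fin e → Fin (n + 1)))) (t := (Finset.univ : Finset (Fin k)))
      (f := fun u => col (pla u)) (fun _ _ => Finset.mem_univ _)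
      (C * (n + 1) ^ κ') (fun j _ => ?_)
    · rw [Finset.card_univ (α := Fin k), Fintype.card_fin] at h2
      rw [mul_comm]
      exact h2
    · refine hn₀ n hnn₀ ε hεn _ fun u hu u' hu' => ?_
      exact hcol (pla u) (pla u') (pla_pos u) (pla_prod u) (pla_pos u') (pla_prod u')
        ((Finset.mem_filter.1 hu).2.trans (Finset.mem_filter.1 hu').2.symm)
  have hk2 : (n + 1) ^ κ ≤ k * C := by
    have h1 : (n + 1) ^ e = (n + 1) ^ κ * (n + 1) ^ κ' := by
      rw [← pow_add, ← hκe]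
    rw [h1] at hk
    refine Nat.le_of_mul_le_mul_right ?_ (Nat.pow_pos (Nat.succ_pos n) : 0 < (n + 1) ^ κ')
    calc (n + 1) ^ κ * (n + 1) ^ κ' ≤ k * (C * (n + 1) ^ κ') := hk
      _ = k * C * (n + 1) ^ κ' := by ring
  have hk3 : (ℓ * y) ^ κ ≤ k * C := by
    have h1 : (ℓ * y) ^ κ ≤ ((n : ℝ) + 1) ^ κ := pow_le_pow_left₀ (by positivity) hnge.le _
    refine h1.trans ?_
    exact_mod_cast hk2
  have hk4 : ℓ ^ κ * y ≤ k * C := by
    have h1 : y ≤ y ^ κ := le_self_pow₀ hy1 hκ0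
    calc ℓ ^ κ * y ≤ ℓ ^ κ * y ^ κ := mul_le_mul_of_nonneg_left h1 (by positivity)
      _ = (ℓ * y) ^ κ := by rw [mul_pow]
      _ ≤ k * C := hk3
  have hk5 : ℓ ^ κ * (A * (C + 1)) ≤ k * (C + 1) := by
    calc ℓ ^ κ * (A * (C + 1)) ≤ ℓ ^ κ * y :=
          mul_le_mul_of_nonneg_left (le_max_right _ _) (by positivity)
      _ ≤ k * C := hk4
      _ ≤ k * (C + 1) := mul_le_mul_of_nonneg_left (by linarith) (Nat.cast_nonneg k)
  have hC1 : (0 : ℝ) < (C : ℝ) + 1 := by positivity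
  have h6 : (A * ℓ ^ κ) * ((C : ℝ) + 1) ≤ k * (C + 1) := by
    calc (A * ℓ ^ κ) * ((C : ℝ) + 1) = ℓ ^ κ * (A * (C + 1)) := by ring
      _ ≤ _ := hk5
  exact le_of_mul_le_mul_right h6 hC1

end Pool.Agent.KS6_27
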