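import Mathlib
import Pool.Agent.KS6_27.Cnt

/-! # Forms with algebraic coefficients -/

set_option autoImplicit false
set_option linter.unusedSectionVars false

open Finset Matrix Filter Topology H715R2 Module
open Pool.Agent.T6.H49.CSD (Cl)

namespace Pool.Agent.KS6_27

variable {d : ℕ}

/-- the form is proportional to a form with algebraic coefficients -/
def AlgF (g : Matrix (Fin d) (Fin d) ℝ) : Prop :=
  ∃ c : ℝ, c ≠ 0 ∧ ∀ m : Fin d →₀ ℕ, IsAlgebraic ℚ (MvPolynomial.coeff m (c • polyF g))

/-- the rows of a form with algebraic coefficients are algebraic up to scaling -/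
theorem exists_scale (hd : 0 < d) {g : Matrix (Fin d) (Fin d) ℝ} (halg : AlgF g) {ν : ℝ}
    (hν : 0 < ν) (hnu : HasNu g ν) :
    ∃ t : Fin d → ℝ, (∀ i, t i ≠ 0) ∧ ∀ i j, IsAlgebraic ℚ (t i * g i j) := by
  classical
  obtain ⟨c, hc, hcoef⟩ := halg
  set o : Fin d := ⟨0, hd⟩ with ho
  have hgo : ∀ i, g i o ≠ 0 := by
    intro i h0
    have h1 := hnu (Pi.single o 1) (by
      intro h
      have := congrFun h o
      simp at this)
    have h2 : FF g (iR (Pi.single o 1)) = 0 := by
      rw [FF]
      refine Finset.prod_eq_zero (Finset.mem_univ i) ?_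
      rw [Finset.sum_eq_single o]
      · rw [h0, zero_mul]
      · intro j _ hj
        simp [iR, Pi.single_eq_of_ne hj]
      · intro h
        exact absurd (Finset.mem_univ o) h
    rw [h2, abs_zero] at h1
    linarith
  refine ⟨fun i => (g i o)⁻¹, fun i => inv_ne_zero (hgo i), fun i j => ?_⟩
  by_cases hj : j = o
  · subst hj
    rw [inv_mul_cancel₀ (hgo i)]
    exact isAlgebraic_one
  set A := algebraicClosure ℚ ℝ with hA
  have hlift : c • polyF g ∈ Set.range (MvPolynomial.map (σ := Fin d) (algebraMap A ℝ)) := by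
    rw [MvPolynomial.mem_range_map_iff_coeffs_subset]
    intro x hx
    rw [Finset.mem_coe, MvPolynomial.mem_coeffs_iff] at hx
    obtain ⟨m, -, rfl⟩ := hx
    exact ⟨⟨_, mem_algebraicClosure_iff.2 (hcoef m)⟩, rfl⟩
  obtain ⟨Q', hQ'⟩ := hlift
  -- the polynomial in one variable
  set P' : Polynomial A := MvPolynomial.aeval
    (fun l => if l = o then (Polynomial.X : Polynomial A) else if l = j then -1 else 0) Q' with hP'
  have hmap : P'.map (algebraMap A ℝ) =
      Polynomial.C c * ∏ i, (Polynomial.C (g i o) * Polynomial.X - Polynomial.C (g i j)) := by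
    have h1 : P'.map (algebraMap A ℝ) = MvPolynomial.aeval
        (fun l => if l = o then (Polynomial.X : Polynomial ℝ) else if l = j then -1 else 0)
        (MvPolynomial.map (algebraMap A ℝ) Q') := by
      rw [hP', MvPolynomial.aeval_def, MvPolynomial.aeval_def, MvPolynomial.eval₂_map]
      have h2 := MvPolynomial.eval₂_comp_left (Polynomial.mapRingHom (algebraMap A ℝ))
        (algebraMap A (Polynomial A))
        (fun l => if l = o then (Polynomial.X : Polynomial A) else if l = j then -1 else 0) Q'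
      rw [← Polynomial.coe_mapRingHom, h2]
      congr 1
      · ext x
        simp
      · funext l
        simp only [Function.comp_apply]
        split_ifs <;> simp
    have hQ'' : (MvPolynomial.map (σ := Fin d) (algebraMap A ℝ)) Q' = c • polyF g := hQ'
    rw [h1, hQ'', map_smul, polyF, map_prod, Polynomial.smul_eq_C_mul]
    congr 1
    refine Finset.prod_congr rfl fun i _ => ?_
    rw [map_sum]
    have h3 : ∀ l, MvPolynomial.aeval
        (fun l => if l = o then (Polynomial.X : Polynomial ℝ) else if l = j then -1 else 0)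
        (MvPolynomial.C (g i l) * MvPolynomial.X l : MvPolynomial (Fin d) ℝ) =
        Polynomial.C (g i l) *
          (if l = o then (Polynomial.X : Polynomial ℝ) else if l = j then -1 else 0) := by
      intro l
      rw [map_mul, MvPolynomial.aeval_X, MvPolynomial.aeval_C]
      rfl
    simp only [h3]
    rw [← Finset.add_sum_erase _ _ (Finset.mem_univ o),
      ← Finset.add_sum_erase _ _ (Finset.mem_erase.2 ⟨hj, Finset.mem_univ j⟩),
      Finset.sum_eq_zero]
    · rw [if_pos rfl, if_neg hj, if_pos rfl]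
      ring
    · intro l hl
      have hl1 := (Finset.mem_erase.1 hl).1
      have hl2 := (Finset.mem_erase.1 (Finset.mem_erase.1 hl).2).1
      rw [if_neg hl2, if_neg hl1, mul_zero]
  have hP0 : P' ≠ 0 := by
    intro h0
    rw [h0, Polynomial.map_zero] at hmap
    have h1 : (Polynomial.C c * ∏ i, (Polynomial.C (g i o) * Polynomial.X -
        Polynomial.C (g i j)) : Polynomial ℝ) ≠ 0 := by
      refine mul_ne_zero (Polynomial.C_ne_zero.2 hc) (Finset.prod_ne_zero_iff.2 fun i _ => ?_)
      intro h2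
      have h3 := congrArg (fun p => Polynomial.coeff p 1) h2
      simp at h3
      exact hgo i h3
    exact h1 hmap.symm
  have hroot : Polynomial.aeval ((g i o)⁻¹ * g i j) P' = 0 := by
    rw [Polynomial.aeval_def, ← Polynomial.eval_map, hmap, Polynomial.eval_mul,
      Polynomial.eval_prod, Finset.prod_eq_zero (Finset.mem_univ i), mul_zero]
    simp only [Polynomial.eval_sub, Polynomial.eval_mul, Polynomial.eval_C, Polynomial.eval_X]
    rw [← mul_assoc, mul_inv_cancel₀ (hgo i), one_mul, sub_self]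
  have h1 : IsAlgebraic A ((g i o)⁻¹ * g i j) := ⟨P', hP0, hroot⟩
  have hAalg : Algebra.IsAlgebraic ℚ A := algebraicClosure.isAlgebraic ℚ ℝ
  exact h1.restrictScalars ℚ

/-- scaling of the rows -/
lemma propInt_scale {g : Matrix (Fin d) (Fin d) ℝ} {t : Fin d → ℝ} (ht : ∀ i, t i ≠ 0)
    (h : PropInt (diagonal t * g)) : PropInt g := by
  classical
  obtain ⟨c, hc, hz⟩ := h
  have hpoly : polyF (diagonal t * g) = (∏ i, t i) • polyF g := by
    rw [polyF, polyF, MvPolynomial.smul_eq_C_mul, map_prod, ← Finset.prod_mul_distrib]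
    refine Finset.prod_congr rfl fun i _ => ?_
    rw [Finset.mul_sum]
    refine Finset.sum_congr rfl fun j _ => ?_
    rw [diagonal_mul, map_mul]
    ring
  refine ⟨c * ∏ i, t i, mul_ne_zero hc (Finset.prod_ne_zero_iff.2 fun i _ => ht i), fun m => ?_⟩
  obtain ⟨z, hz⟩ := hz m
  refine ⟨z, ?_⟩
  rw [← hz, hpoly, smul_smul]

lemma cl_scale {g : Matrix (Fin d) (Fin d) ℝ} {t : Fin d → ℝ} (ht : ∀ i, t i ≠ 0) {T : ℝ}
    (hT : ∀ i j, |t i / t j| ≤ T) {K ε : ℝ} {a a' : Fin d → ℝ}
    (h : Cl K ε (diagonal a * g) (diagonal a' * g)) :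
    Cl K (T * ε) (diagonal a * (diagonal t * g)) (diagonal a' * (diagonal t * g)) := by
  classical
  obtain ⟨b, E, γ, hb, hE, hγ, heq⟩ := h
  refine ⟨b, Matrix.of fun i j => t i * E i j * (t j)⁻¹, γ, hb, fun i j => ?_, hγ, ?_⟩
  · rw [Matrix.of_apply]
    have h1 : t i * E i j * (t j)⁻¹ = t i / t j * E i j := by
      rw [div_eq_mul_inv]
      ring
    rw [h1, abs_mul]
    have hT0 : 0 ≤ T := (abs_nonneg _).trans (hT i j)
    exact mul_le_mul (hT i j) (hE i j) (abs_nonneg _) hT0
  · have hE' : (1 + Matrix.of fun i j => t i * E i j * (t j)⁻¹ : Matrix (Fin d) (Fin d) ℝ) =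
        diagonal t * (1 + E) * diagonal fun i => (t i)⁻¹ := by
      ext i j
      rw [mul_diagonal, diagonal_mul, Matrix.add_apply, Matrix.add_apply, Matrix.of_apply]
      by_cases hij : i = j
      · subst hij
        rw [Matrix.one_apply_eq]
        have := ht i
        field_simp
      · rw [Matrix.one_apply_ne hij, zero_add, zero_add]
    have hcomm : ∀ x y : Fin d → ℝ, (diagonal x * diagonal y : Matrix (Fin d) (Fin d) ℝ) =
        diagonal y * diagonal x := by
      intro x y
      rw [diagonal_mul_diagonal, diagonal_mul_diagonal]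
      congr 1
      funext i
      exact mul_comm _ _
    have hinv : (diagonal (fun i => (t i)⁻¹) * diagonal t : Matrix (Fin d) (Fin d) ℝ) = 1 := by
      rw [diagonal_mul_diagonal, ← diagonal_one]
      congr 1
      funext i
      exact inv_mul_cancel₀ (ht i)
    rw [hE']
    calc diagonal a * (diagonal t * g) = (diagonal a * diagonal t) * g := by
          simp only [Matrix.mul_assoc]
      _ = diagonal t * (diagonal a * g) := by
          rw [hcomm a t]
          simp only [Matrix.mul_assoc]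
      _ = diagonal t * (diagonal b * (1 + E) * (diagonal a' * g) * zR γ) := by rw [heq]
      _ = (diagonal t * diagonal b) * (1 + E) * (diagonal a' * g) * zR γ := by
          simp only [Matrix.mul_assoc]
      _ = (diagonal b * diagonal t) * (1 + E) * (1 * diagonal a' * g) * zR γ := by
          rw [hcomm t b, Matrix.one_mul]
      _ = (diagonal b * diagonal t) * (1 + E) *
            ((diagonal (fun i => (t i)⁻¹) * diagonal t) * diagonal a' * g) * zR γ := by
          rw [hinv]
      _ = (diagonal b * diagonal t) * (1 + E) *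
            (diagonal (fun i => (t i)⁻¹) * (diagonal t * diagonal a') * g) * zR γ := by
          simp only [Matrix.mul_assoc]
      _ = (diagonal b * diagonal t) * (1 + E) *
            (diagonal (fun i => (t i)⁻¹) * (diagonal a' * diagonal t) * g) * zR γ := by
          rw [hcomm t a']
      _ = _ := by simp only [Matrix.mul_assoc]

lemma hasNu_scale {g : Matrix (Fin d) (Fin d) ℝ} {ν : ℝ} (hnu : HasNu g ν) (t : Fin d → ℝ) :
    HasNu (diagonal t * g) (|∏ i, t i| * ν) := by
  intro m hm
  rw [FF_diag_mul, abs_mul]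
  exact mul_le_mul_of_nonneg_left (hnu m hm) (abs_nonneg _)

/-- **The complexity of the orbit of a form with algebraic coefficients.** -/
theorem complexity_algF {e : ℕ} (he : 2 ≤ e) {g : Matrix (Fin (e + 1)) (Fin (e + 1)) ℝ}
    (hg : g.det ≠ 0) (halg : AlgF g) {ν : ℝ} (hν : 0 < ν)
    (hnu : HasNu g ν) (hint : ¬ PropInt g) {K : ℝ} (hK : 1 ≤ K) (A : ℝ) :
    ∃ ε₀ : ℝ, 0 < ε₀ ∧ ∀ ε : ℝ, 0 < ε → ε < ε₀ →
      ∀ (k : ℕ) (col : (Fin (e + 1) → ℝ) → Fin k),
      (∀ a a' : Fin (e + 1) → ℝ, (∀ i, 0 < a i) → ∏ i, a i = 1 → (∀ i, 0 < a' i) →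
        ∏ i, a' i = 1 → col a = col a' → Cl K ε (diagonal a * g) (diagonal a' * g)) →
      A * Real.log (1 / ε) ^ ((e + 1) - (e + 1) / (e + 1).minFac) ≤ k := by
  classical
  obtain ⟨t, ht, htalg⟩ := exists_scale (Nat.succ_pos e) halg hν hnu
  set g₀ := diagonal t * g with hg₀
  have hprod : (∏ i, t i) ≠ 0 := Finset.prod_ne_zero_iff.2 fun i _ => ht i
  have hg₀det : g₀.det ≠ 0 := by
    rw [hg₀, Matrix.det_mul, Matrix.det_diagonal]
    exact mul_ne_zero hprod hg
  have halg₀ : ∀ i j, IsAlgebraic ℚ (g₀ i j) := fun i j => by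
    rw [hg₀, diagonal_mul]
    exact htalg i j
  have hnu₀ := hasNu_scale hnu t
  have hν₀ : 0 < |∏ i, t i| * ν := mul_pos (abs_pos.2 hprod) hν
  have hint₀ : ¬ PropInt g₀ := fun h => hint (propInt_scale ht h)
  set κ := (e + 1) - (e + 1) / (e + 1).minFac with hκ
  set T : ℝ := 1 + ∑ p : Fin (e + 1) × Fin (e + 1), |t p.1 / t p.2| with hT
  have hT0 : 0 ≤ ∑ p : Fin (e + 1) × Fin (e + 1), |t p.1 / t p.2| :=
    Finset.sum_nonneg fun _ _ => abs_nonneg _
  have hT1 : 1 ≤ T := by rw [hT]; linarith
  have hTle : ∀ i j, |t i / t j| ≤ T := by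
    intro i j
    have := Finset.single_le_sum (f := fun p : Fin (e + 1) × Fin (e + 1) => |t p.1 / t p.2|)
      (fun _ _ => abs_nonneg _) (Finset.mem_univ (i, j))
    rw [hT]
    simp only at this
    linarith
  obtain ⟨ε₀, hε₀, hmain⟩ := complexity_alg he hg₀det halg₀ hν₀ hnu₀ hint₀ hK (|A| * 2 ^ κ)
  refine ⟨min (ε₀ / T) (1 / T ^ 2), by positivity, fun ε hε0 hε k col hcol => ?_⟩
  have h1 : T * ε < ε₀ := by
    have := lt_of_lt_of_le hε (min_le_left _ _)
    rw [lt_div_iff₀ (by linarith)] at this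
    linarith
  have h2 := hmain (T * ε) (by positivity) h1 k col fun a a' ha0 ha1 ha0' ha1' h =>
    cl_scale ht hTle (hcol a a' ha0 ha1 ha0' ha1' h)
  have hT00 : 0 < T := by linarith
  have h3 : Real.log (1 / ε) ≤ 2 * Real.log (1 / (T * ε)) := by
    have h4 : ε < 1 / T ^ 2 := lt_of_lt_of_le hε (min_le_right _ _)
    rw [lt_div_iff₀ (by positivity)] at h4
    have h5 : Real.log (ε * T ^ 2) ≤ 0 := Real.log_nonpos (by positivity) h4.le
    rw [Real.log_mul hε0.ne' (by positivity), Real.log_pow] at h5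
    rw [one_div, Real.log_inv, one_div, Real.log_inv, Real.log_mul hT00.ne' hε0.ne']
    push_cast at h5
    linarith
  have h4 : 0 ≤ Real.log (1 / ε) := by
    refine Real.log_nonneg ?_
    rw [le_div_iff₀ hε0, one_mul]
    have h4 : ε < 1 / T ^ 2 := lt_of_lt_of_le hε (min_le_right _ _)
    have h5 : 1 / T ^ 2 ≤ 1 := by
      rw [div_le_one (by positivity)]
      exact one_le_pow₀ hT1
    linarith
  refine le_trans ?_ h2
  calc A * Real.log (1 / ε) ^ κ ≤ |A| * Real.log (1 / ε) ^ κ :=
        mul_le_mul_of_nonneg_right (le_abs_self A) (by positivity)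
    _ ≤ |A| * (2 * Real.log (1 / (T * ε))) ^ κ :=
        mul_le_mul_of_nonneg_left (pow_le_pow_left₀ h4 h3 _) (abs_nonneg _)
    _ = |A| * 2 ^ κ * Real.log (1 / (T * ε)) ^ κ := by rw [mul_pow]; ring

end Pool.Agent.KS6_27
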