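import Mathlib
import Pool.Graph.R_pool_sql_team_39128cda.Lib.helper1_.Rigid2

/-! Inserting a vertex next to a side of a braced polygon (Henneberg moves). -/

set_option autoImplicit false

namespace Pool.Agent.KS6_27.BP

abbrev E2 := EuclideanSpace ℝ (Fin 2)

lemma dist_eq_iff (x y x' y' : E2) : dist x y = dist x' y' ↔
    (x 0 - y 0) ^ 2 + (x 1 - y 1) ^ 2 = (x' 0 - y' 0) ^ 2 + (x' 1 - y' 1) ^ 2 :=
  Pool.Agent.Lib.helper1.Rigid2.dist_eq_iff x y x' y'

/-- twice the signed area of the triangle `a b c` -/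
def orient (a b c : E2) : ℝ := (b 0 - a 0) * (c 1 - a 1) - (b 1 - a 1) * (c 0 - a 0)

/-- the points, in this order, are the vertices of a strictly convex polygon -/
def StrictlyConvex {n : ℕ} (p : Fin n → E2) : Prop :=
  ∀ i j k : Fin n, i < j → j < k → 0 < orient (p i) (p j) (p k)

/-- a motion which preserves the lengths of the bars and changes the distance of two joints -/
def Motion {n : ℕ} (G : SimpleGraph (Fin n)) (p : Fin n → E2)
    (γ : unitInterval → Fin n → E2) : Prop :=
  Continuous γ ∧ γ 0 = p ∧ (∀ t u w, G.Adj u w → dist (γ t u) (γ t w) = dist (p u) (p w)) ∧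
    ∃ t u w, dist (γ t u) (γ t w) ≠ dist (p u) (p w)

/-- the graph contains the cycle `0, 1, …, N` -/
def Cyc {N : ℕ} (G : SimpleGraph (Fin (N + 1))) : Prop :=
  (∀ i : Fin N, G.Adj i.castSucc i.succ) ∧ G.Adj (Fin.last N) 0

/-- infinitesimal rigidity of the placement `m` when `a`, `b` are pinned -/
def Inf {V : Type} (G : SimpleGraph V) (a b : V) (m : V → Fin 2 → ℝ) : Prop :=
  ∀ d : V → Fin 2 → ℝ,
    (∀ u w, G.Adj u w → (m u 0 - m w 0) * (d u 0 - d w 0) + (m u 1 - m w 1) * (d u 1 - d w 1) = 0) →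
    (∀ i, d a i = 0 ∧ d b i = 0) → ∀ v i, d v i = 0

/-- add a new last vertex, adjacent to the vertices of `S` -/
def addV {N : ℕ} (G : SimpleGraph (Fin (N + 1))) (S : Set (Fin (N + 1))) :
    SimpleGraph (Fin (N + 2)) where
  Adj u v := (∃ a b : Fin (N + 1), u = a.castSucc ∧ v = b.castSucc ∧ G.Adj a b) ∨
    (∃ a ∈ S, u = Fin.castSucc a ∧ v = Fin.last (N + 1)) ∨
    (∃ a ∈ S, v = Fin.castSucc a ∧ u = Fin.last (N + 1))
  symm := ⟨by
    rintro u v (⟨a, b, h1, h2, h3⟩ | h | h)
    · exact Or.inl ⟨b, a, h2, h1, h3.symm⟩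
    · exact Or.inr (Or.inr h)
    · exact Or.inr (Or.inl h)⟩
  loopless := ⟨by
    rintro u (⟨a, b, h1, h2, h3⟩ | ⟨a, h1, h2, h3⟩ | ⟨a, h1, h2, h3⟩)
    · rw [h1] at h2
      exact h3.ne (Fin.castSucc_injective _ h2)
    · rw [h2] at h3
      exact (Fin.castSucc_lt_last a).ne h3
    · rw [h2] at h3
      exact (Fin.castSucc_lt_last a).ne h3⟩

section adj
variable {N : ℕ} (G : SimpleGraph (Fin (N + 1))) (S : Set (Fin (N + 1)))

lemma addV_cc (a b : Fin (N + 1)) : (addV G S).Adj a.castSucc b.castSucc ↔ G.Adj a b := by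
  constructor
  · rintro (⟨a', b', h1, h2, h3⟩ | ⟨a', h1, h2, h3⟩ | ⟨a', h1, h2, h3⟩)
    · rwa [Fin.castSucc_injective _ h1, Fin.castSucc_injective _ h2]
    · exact absurd h3 (Fin.castSucc_lt_last b).ne
    · exact absurd h3 (Fin.castSucc_lt_last a).ne
  · intro h
    exact Or.inl ⟨a, b, rfl, rfl, h⟩

lemma addV_cl (a : Fin (N + 1)) : (addV G S).Adj a.castSucc (Fin.last (N + 1)) ↔ a ∈ S := by
  constructor
  · rintro (⟨a', b', h1, h2, h3⟩ | ⟨a', h1, h2, h3⟩ | ⟨a', h1, h2, h3⟩)
    · exact absurd h2.symm (Fin.castSucc_lt_last b').ne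
    · rwa [Fin.castSucc_injective _ h2]
    · exact absurd h2.symm (Fin.castSucc_lt_last a').ne
  · intro h
    exact Or.inr (Or.inl ⟨a, h, rfl, rfl⟩)

lemma addV_cases {u v : Fin (N + 2)} (h : (addV G S).Adj u v)
    {P : Fin (N + 2) → Fin (N + 2) → Prop} (hs : ∀ u v, P u v → P v u)
    (h1 : ∀ a b : Fin (N + 1), G.Adj a b → P a.castSucc b.castSucc)
    (h2 : ∀ a ∈ S, P (Fin.castSucc a) (Fin.last (N + 1))) : P u v := by
  rcases h with ⟨a', b', e1, e2, e3⟩ | ⟨a', e1, e2, e3⟩ | ⟨a', e1, e2, e3⟩
  · subst e1 e2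
    exact h1 _ _ e3
  · subst e2 e3
    exact h2 _ e1
  · subst e2 e3
    exact hs _ _ (h2 _ e1)

lemma edges_addV : (addV G S).edgeSet.ncard = G.edgeSet.ncard + S.ncard := by
  have h1 : (addV G S).edgeSet = (Sym2.map Fin.castSucc '' G.edgeSet) ∪
      ((fun a : Fin (N + 1) => s(a.castSucc, Fin.last (N + 1))) '' S) := by
    ext e
    induction e using Sym2.ind with
    | _ u v =>
      rw [SimpleGraph.mem_edgeSet]
      constructor
      · intro h
        refine addV_cases G S (P := fun u v => s(u, v) ∈ (Sym2.map Fin.castSucc '' G.edgeSet) ∪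
          ((fun a : Fin (N + 1) => s(a.castSucc, Fin.last (N + 1))) '' S)) h ?_ ?_ ?_
        · intro u v h
          rwa [Sym2.eq_swap]
        · intro a b hab
          exact Or.inl ⟨s(a, b), hab, rfl⟩
        · intro a ha
          exact Or.inr ⟨a, ha, rfl⟩
      · rintro (⟨e, he, h⟩ | ⟨a, ha, h⟩)
        · induction e using Sym2.ind with
          | _ a b =>
            rw [← SimpleGraph.mem_edgeSet, ← h]
            exact (addV_cc G S a b).2 he
        · rw [← SimpleGraph.mem_edgeSet, ← h]
          exact (addV_cl G S a).2 ha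
  have hd : Disjoint (Sym2.map Fin.castSucc '' G.edgeSet)
      ((fun a : Fin (N + 1) => s(a.castSucc, Fin.last (N + 1))) '' S) := by
    rw [Set.disjoint_left]
    rintro _ ⟨e, he, rfl⟩ ⟨a, ha, h⟩
    have : Fin.last (N + 1) ∈ Sym2.map Fin.castSucc e := by
      rw [← h]
      exact Sym2.mem_mk_right _ _
    rw [Sym2.mem_map] at this
    obtain ⟨b, hb, h2⟩ := this
    exact (Fin.castSucc_lt_last b).ne h2
  rw [h1, Set.ncard_union_eq hd (Set.toFinite _) (Set.toFinite _),
    Set.ncard_image_of_injective _ (Sym2.map.injective (Fin.castSucc_injective _)),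
    Set.ncard_image_of_injective]
  intro a b hab
  have hab : s(a.castSucc, Fin.last (N + 1)) = s(b.castSucc, Fin.last (N + 1)) := hab
  rw [Sym2.eq_iff] at hab
  rcases hab with ⟨h, -⟩ | ⟨h, -⟩
  · exact Fin.castSucc_injective _ h
  · exact absurd h (Fin.castSucc_lt_last a).ne

end adj

lemma cyc_addV {N : ℕ} {G : SimpleGraph (Fin (N + 1))} {S : Set (Fin (N + 1))}
    (h : ∀ i : Fin N, G.Adj i.castSucc i.succ) (h0 : 0 ∈ S) (hL : Fin.last N ∈ S) :
    Cyc (addV G S) := by
  constructor
  · intro i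
    induction i using Fin.lastCases with
    | last => exact (addV_cl G S _).2 hL
    | cast j =>
      rw [Fin.succ_castSucc]
      exact (addV_cc G S _ _).2 (h j)
  · exact ((addV_cl G S 0).2 h0).symm

/-- a strictly convex polygon can be extended by a vertex close to one of its sides -/
lemma convex_ext {N : ℕ} (p : Fin (N + 1) → E2) (hp : StrictlyConvex p)
    (h0L : p 0 ≠ p (Fin.last N)) :
    ∃ v : E2, StrictlyConvex (Fin.snoc (α := fun _ => E2) p v : Fin (N + 2) → E2) := by
  set A := p 0 with hA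
  set B := p (Fin.last N) with hB
  let v : ℝ → E2 := fun ε => !₂[(A 0 + B 0) / 2 - ε * (B 1 - A 1), (A 1 + B 1) / 2 + ε * (B 0 - A 0)]
  have hw : 0 < (B 0 - A 0) ^ 2 + (B 1 - A 1) ^ 2 := by
    by_contra hc
    have h1 : (B 0 - A 0) ^ 2 = 0 := le_antisymm (by nlinarith [sq_nonneg (B 1 - A 1)]) (sq_nonneg _)
    have h2 : (B 1 - A 1) ^ 2 = 0 := le_antisymm (by nlinarith [sq_nonneg (B 0 - A 0)]) (sq_nonneg _)
    apply h0L
    ext i
    fin_cases i
    · have := pow_eq_zero_iff (two_ne_zero) |>.1 h1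
      simp only [Fin.zero_eta]
      linarith
    · have := pow_eq_zero_iff (two_ne_zero) |>.1 h2
      simp only [Fin.mk_one]
      linarith
  have key : ∀ i j : Fin (N + 1), i < j → ∀ᶠ ε in nhdsWithin (0 : ℝ) (Set.Ioi 0),
      0 < orient (p i) (p j) (v ε) := by
    intro i j hij
    by_cases hc : i = 0 ∧ j = Fin.last N
    · obtain ⟨rfl, rfl⟩ := hc
      filter_upwards [self_mem_nhdsWithin] with ε hε
      have : orient (p 0) (p (Fin.last N)) (v ε) = ε * ((B 0 - A 0) ^ 2 + (B 1 - A 1) ^ 2) := by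
        rw [← hA, ← hB]
        simp only [orient, v, Matrix.cons_val_zero, Matrix.cons_val_one]
        ring
      rw [this]
      exact mul_pos hε hw
    · have hcont : Continuous fun ε => orient (p i) (p j) (v ε) := by
        simp only [orient, v, Matrix.cons_val_zero, Matrix.cons_val_one]
        fun_prop
      have hpos : 0 < orient (p i) (p j) (v 0) := by
        have e : orient (p i) (p j) (v 0) =
            (orient (p i) (p j) B + orient A (p i) (p j)) / 2 := by
          simp only [orient, v, Matrix.cons_val_zero, Matrix.cons_val_one]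
          ring
        have e1 : 0 ≤ orient (p i) (p j) B := by
          by_cases hj : j = Fin.last N
          · subst hj
            apply le_of_eq
            simp only [orient, ← hB]
            ring
          · exact (hp i j _ hij (Fin.lt_last_iff_ne_last.2 hj)).le
        have e2 : 0 ≤ orient A (p i) (p j) := by
          by_cases hi : i = 0
          · subst hi
            apply le_of_eq
            simp only [orient, ← hA]
            ring
          · exact (hp _ i j (Fin.pos_iff_ne_zero.2 hi) hij).le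
        rw [e]
        by_cases hj : j = Fin.last N
        · have hi : i ≠ 0 := fun h => hc ⟨h, hj⟩
          have := hp _ i j (Fin.pos_iff_ne_zero.2 hi) hij
          rw [← hA] at this
          linarith
        · have := hp i j _ hij (Fin.lt_last_iff_ne_last.2 hj)
          rw [← hB] at this
          linarith
      exact (hcont.tendsto 0).eventually (lt_mem_nhds hpos) |>.filter_mono nhdsWithin_le_nhds
  have hall : ∀ᶠ ε in nhdsWithin (0 : ℝ) (Set.Ioi 0), ∀ i j : Fin (N + 1), i < j →
      0 < orient (p i) (p j) (v ε) := by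
    rw [Filter.eventually_all]
    intro i
    rw [Filter.eventually_all]
    intro j
    by_cases h : i < j
    · filter_upwards [key i j h] with ε hε _
      exact hε
    · exact Filter.Eventually.of_forall fun ε h' => absurd h' h
  obtain ⟨ε, hε⟩ := hall.exists
  refine ⟨v ε, ?_⟩
  intro i j k hij hjk
  induction k using Fin.lastCases with
  | last =>
    induction j using Fin.lastCases with
    | last => exact absurd hjk (lt_irrefl _)
    | cast j =>
      induction i using Fin.lastCases with
      | last => exact absurd (hij.trans hjk) (lt_irrefl _)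
      | cast i =>
        simp only [Fin.snoc_castSucc, Fin.snoc_last]
        exact hε i j (Fin.castSucc_lt_castSucc_iff.1 hij)
  | cast k =>
    have hj' : j < Fin.last (N + 1) := hjk.trans (Fin.castSucc_lt_last k)
    obtain ⟨j, rfl⟩ := Fin.exists_castSucc_eq.2 hj'.ne
    obtain ⟨i, rfl⟩ := Fin.exists_castSucc_eq.2 (hij.trans hj').ne
    simp only [Fin.snoc_castSucc]
    exact hp i j k (Fin.castSucc_lt_castSucc_iff.1 hij) (Fin.castSucc_lt_castSucc_iff.1 hjk)

end Pool.Agent.KS6_27.BP
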