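import Mathlib
import Pool.Agent.KS6_27.BPa

/-! Motions, infinitesimal rigidity and 3-connectivity of the extended braced polygon. -/

set_option autoImplicit false

namespace Pool.Agent.KS6_27.BP

/-- extending a motion when the new vertex is rigidly attached -/
lemma motion_ext {N : ℕ} {G : SimpleGraph (Fin (N + 1))} {G' : SimpleGraph (Fin (N + 1))}
    (hG : ∀ u v, G'.Adj u v → G.Adj u v) {S : Set (Fin (N + 1))}
    {p : Fin (N + 1) → E2} {γ : unitInterval → Fin (N + 1) → E2} (h : Motion G p γ)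
    (v : E2) (w : unitInterval → E2) (hw : Continuous w) (hw0 : w 0 = v)
    (hd : ∀ t, ∀ a ∈ S, dist (γ t a) (w t) = dist (p a) v) :
    Motion (addV G' S) (Fin.snoc (α := fun _ => E2) p v)
      (fun t => Fin.snoc (α := fun _ => E2) (γ t) (w t)) := by
  obtain ⟨h1, h2, h3, t, a, b, h4⟩ := h
  refine ⟨?_, ?_, ?_, t, a.castSucc, b.castSucc, ?_⟩
  · refine continuous_pi fun i => ?_
    induction i using Fin.lastCases with
    | last => simpa only [Fin.snoc_last] using hw
    | cast i =>
      simp only [Fin.snoc_castSucc]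
      exact (continuous_apply i).comp h1
  · simp only [h2, hw0]
  · intro t u w' huw
    refine addV_cases G' S (P := fun u w' => dist (Fin.snoc (α := fun _ => E2) (γ t) (w t) u)
      (Fin.snoc (α := fun _ => E2) (γ t) (w t) w') =
      dist (Fin.snoc (α := fun _ => E2) p v u) (Fin.snoc (α := fun _ => E2) p v w')) huw ?_ ?_ ?_
    · intro u w' h
      rw [dist_comm, h, dist_comm]
    · intro a b hab
      simp only [Fin.snoc_castSucc]
      exact h3 t a b (hG _ _ hab)
    · intro a ha
      simp only [Fin.snoc_castSucc, Fin.snoc_last]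
      exact hd t a ha
  · simpa only [Fin.snoc_castSucc] using h4

/-- a point attached rigidly to a segment of constant length -/
lemma attach2 (A B : unitInterval → E2) (hA : Continuous A) (hB : Continuous B)
    (hAB : ∀ t, dist (A t) (B t) = dist (A 0) (B 0)) (hne : A 0 ≠ B 0) (v : E2) :
    ∃ w : unitInterval → E2, Continuous w ∧ w 0 = v ∧
      ∀ t, dist (A t) (w t) = dist (A 0) v ∧ dist (B t) (w t) = dist (B 0) v := by
  obtain ⟨L, hL⟩ : ∃ L, L = (B 0 0 - A 0 0) ^ 2 + (B 0 1 - A 0 1) ^ 2 := ⟨_, rfl⟩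
  have hL0 : L ≠ 0 := by
    intro h
    apply hne
    have h1 : (B 0 0 - A 0 0) ^ 2 = 0 := by nlinarith [sq_nonneg (B 0 1 - A 0 1), sq_nonneg (B 0 0 - A 0 0)]
    have h2 : (B 0 1 - A 0 1) ^ 2 = 0 := by nlinarith [sq_nonneg (B 0 1 - A 0 1), sq_nonneg (B 0 0 - A 0 0)]
    have h3 := pow_eq_zero_iff (two_ne_zero) |>.1 h1
    have h4 := pow_eq_zero_iff (two_ne_zero) |>.1 h2
    ext i
    fin_cases i
    · simp only [Fin.zero_eta]
      linarith
    · simp only [Fin.mk_one]
      linarith
  let s : ℝ := ((v 0 - A 0 0) * (B 0 0 - A 0 0) + (v 1 - A 0 1) * (B 0 1 - A 0 1)) / L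
  let c : ℝ := (-(v 0 - A 0 0) * (B 0 1 - A 0 1) + (v 1 - A 0 1) * (B 0 0 - A 0 0)) / L
  let w : unitInterval → E2 := fun t =>
    !₂[A t 0 + s * (B t 0 - A t 0) - c * (B t 1 - A t 1), A t 1 + s * (B t 1 - A t 1) + c * (B t 0 - A t 0)]
  have hw0 : w 0 = v := by
    ext i
    fin_cases i
    · simp only [w, s, c, Fin.zero_eta, Matrix.cons_val_zero]
      field_simp
      rw [hL]
      ring
    · simp only [w, s, c, Fin.mk_one, Matrix.cons_val_one, Matrix.cons_val_fin_one]
      field_simp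
      rw [hL]
      ring
  have hk : ∀ t, (B t 0 - A t 0) ^ 2 + (B t 1 - A t 1) ^ 2 = (B 0 0 - A 0 0) ^ 2 + (B 0 1 - A 0 1) ^ 2 := by
    intro t
    have := hAB t
    rw [dist_comm, dist_comm (A 0), dist_eq_iff] at this
    exact this
  refine ⟨w, ?_, hw0, fun t => ⟨?_, ?_⟩⟩
  · simp only [w]
    fun_prop
  · rw [← hw0, dist_eq_iff]
    have := hk t
    simp only [w, Matrix.cons_val_zero, Matrix.cons_val_one]
    linear_combination (s ^ 2 + c ^ 2) * this
  · rw [← hw0, dist_eq_iff]
    have := hk t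
    simp only [w, Matrix.cons_val_zero, Matrix.cons_val_one]
    linear_combination ((1 - s) ^ 2 + c ^ 2) * this

/-- a point attached rigidly to a rigid triangle -/
lemma attach3 (A B X : unitInterval → E2) (hA : Continuous A) (hB : Continuous B)
    (hX : Continuous X) (hAB : ∀ t, dist (A t) (B t) = dist (A 0) (B 0))
    (hAX : ∀ t, dist (A t) (X t) = dist (A 0) (X 0))
    (hBX : ∀ t, dist (B t) (X t) = dist (B 0) (X 0)) (hne : orient (A 0) (B 0) (X 0) ≠ 0) (v : E2) :
    ∃ w : unitInterval → E2, Continuous w ∧ w 0 = v ∧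
      ∀ t, dist (A t) (w t) = dist (A 0) v ∧ dist (B t) (w t) = dist (B 0) v ∧
        dist (X t) (w t) = dist (X 0) v := by
  obtain ⟨D, hD⟩ : ∃ D, D = orient (A 0) (B 0) (X 0) := ⟨_, rfl⟩
  rw [← hD] at hne
  simp only [orient] at hD
  let β : ℝ := ((v 0 - A 0 0) * (X 0 1 - A 0 1) - (v 1 - A 0 1) * (X 0 0 - A 0 0)) / D
  let ξ : ℝ := ((B 0 0 - A 0 0) * (v 1 - A 0 1) - (B 0 1 - A 0 1) * (v 0 - A 0 0)) / D
  let w : unitInterval → E2 := fun t =>
    !₂[A t 0 + β * (B t 0 - A t 0) + ξ * (X t 0 - A t 0), A t 1 + β * (B t 1 - A t 1) + ξ * (X t 1 - A t 1)]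
  have hw0 : w 0 = v := by
    ext i
    fin_cases i
    · simp only [w, β, ξ, Fin.zero_eta, Matrix.cons_val_zero]
      field_simp
      rw [hD]
      ring
    · simp only [w, β, ξ, Fin.mk_one, Matrix.cons_val_one, Matrix.cons_val_fin_one]
      field_simp
      rw [hD]
      ring
  refine ⟨w, ?_, hw0, fun t => ?_⟩
  · simp only [w]
    fun_prop
  · have h1 := (dist_eq_iff _ _ _ _).1 (hAB t)
    have h2 := (dist_eq_iff _ _ _ _).1 (hAX t)
    have h3 := (dist_eq_iff _ _ _ _).1 (hBX t)
    rw [← hw0]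
    refine ⟨?_, ?_, ?_⟩
    · rw [dist_eq_iff]
      simp only [w, Matrix.cons_val_zero, Matrix.cons_val_one]
      linear_combination (β ^ 2 + β * ξ) * h1 + (ξ ^ 2 + β * ξ) * h2 - β * ξ * h3
    · rw [dist_eq_iff]
      simp only [w, Matrix.cons_val_zero, Matrix.cons_val_one]
      linear_combination ((1 - β - ξ) ^ 2 + (1 - β - ξ) * ξ) * h1 +
        (ξ ^ 2 + (1 - β - ξ) * ξ) * h3 - (1 - β - ξ) * ξ * h2
    · rw [dist_eq_iff]
      simp only [w, Matrix.cons_val_zero, Matrix.cons_val_one]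
      linear_combination ((1 - β - ξ) ^ 2 + (1 - β - ξ) * β) * h2 +
        (β ^ 2 + (1 - β - ξ) * β) * h3 - (1 - β - ξ) * β * h1

/-- Henneberg I and infinitesimal rigidity -/
lemma inf_I {N : ℕ} {G : SimpleGraph (Fin (N + 1))} {a b : Fin (N + 1)}
    {m : Fin (N + 1) → Fin 2 → ℝ} (h : Inf G a b m) (hm : m (Fin.last N) ≠ m 0) :
    ∃ c : Fin 2 → ℝ, Inf (addV G {0, Fin.last N}) a.castSucc b.castSucc
      (Fin.snoc (α := fun _ => Fin 2 → ℝ) m c) ∧ c ≠ m 0 := by
  set w0 := m (Fin.last N) 0 - m 0 0 with hw0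
  set w1 := m (Fin.last N) 1 - m 0 1 with hw1
  have hw : w0 ^ 2 + w1 ^ 2 ≠ 0 := by
    intro hc
    apply hm
    have h1 : w0 ^ 2 = 0 := by nlinarith [sq_nonneg w0, sq_nonneg w1]
    have h2 : w1 ^ 2 = 0 := by nlinarith [sq_nonneg w0, sq_nonneg w1]
    have h3 := pow_eq_zero_iff (two_ne_zero) |>.1 h1
    have h4 := pow_eq_zero_iff (two_ne_zero) |>.1 h2
    ext i
    fin_cases i
    · simp only [Fin.zero_eta]
      linarith
    · simp only [Fin.mk_one]
      linarith
  refine ⟨![m 0 0 - w1, m 0 1 + w0], ?_, ?_⟩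
  · intro d hd hp
    have hold : ∀ v i, d (Fin.castSucc v) i = 0 := by
      apply h (fun v => d v.castSucc)
      · intro u w huw
        have := hd _ _ ((addV_cc G {0, Fin.last N} u w).2 huw)
        simpa only [Fin.snoc_castSucc] using this
      · exact hp
    have e1 := hd _ _ ((addV_cl G {0, Fin.last N} 0).2 (Set.mem_insert _ _))
    have e2 := hd _ _ ((addV_cl G {0, Fin.last N} (Fin.last N)).2 (Set.mem_insert_of_mem _ rfl))
    simp only [Fin.snoc_castSucc, Fin.snoc_last, hold, Matrix.cons_val_zero,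
      Matrix.cons_val_one] at e1 e2
    set x := d (Fin.last (N + 1)) 0 with hx
    set y := d (Fin.last (N + 1)) 1 with hy
    have f1 : w1 * x = w0 * y := by linear_combination -e1
    have f2 : (w0 + w1) * x + (w1 - w0) * y = 0 := by
      linear_combination -e2 + x * hw0 + y * hw1
    have g1 : w0 * x + w1 * y = 0 := by linear_combination f2 - f1
    have g2 : (w0 ^ 2 + w1 ^ 2) * x = 0 := by linear_combination w0 * g1 + w1 * f1
    have g3 : (w0 ^ 2 + w1 ^ 2) * y = 0 := by linear_combination w1 * g1 - w0 * f1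
    have gx := (mul_eq_zero.1 g2).resolve_left hw
    have gy := (mul_eq_zero.1 g3).resolve_left hw
    intro v i
    induction v using Fin.lastCases with
    | last =>
      fin_cases i
      · exact gx
      · exact gy
    | cast v => exact hold v i
  · intro hc
    have h1 := congrFun hc 0
    have h2 := congrFun hc 1
    simp only [Matrix.cons_val_zero, Matrix.cons_val_one] at h1 h2
    apply hw
    have e1 : w1 = 0 := by linarith
    have e2 : w0 = 0 := by linarith
    rw [e1, e2]
    norm_num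

/-- Henneberg II and infinitesimal rigidity -/
lemma inf_II {N : ℕ} {G : SimpleGraph (Fin (N + 1))} {a b x : Fin (N + 1)}
    {m : Fin (N + 1) → Fin 2 → ℝ} (h : Inf G a b m)
    (hm : (m (Fin.last N) 0 - m 0 0) * (m x 1 - m 0 1) -
      (m (Fin.last N) 1 - m 0 1) * (m x 0 - m 0 0) ≠ 0) :
    ∃ c : Fin 2 → ℝ, Inf (addV (G.deleteEdges {s(0, Fin.last N)}) {0, Fin.last N, x})
      a.castSucc b.castSucc (Fin.snoc (α := fun _ => Fin 2 → ℝ) m c) ∧
      (c 0 - m 0 0) * (m x 1 - m 0 1) - (c 1 - m 0 1) * (m x 0 - m 0 0) ≠ 0 := by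
  refine ⟨![(m 0 0 + m (Fin.last N) 0) / 2, (m 0 1 + m (Fin.last N) 1) / 2], ?_, ?_⟩
  · intro d hd hp
    have e1 := hd _ _ ((addV_cl (G.deleteEdges {s(0, Fin.last N)}) {0, Fin.last N, x} 0).2 (by simp))
    have e2 := hd _ _ ((addV_cl (G.deleteEdges {s(0, Fin.last N)}) {0, Fin.last N, x}
      (Fin.last N)).2 (by simp))
    have e3 := hd _ _ ((addV_cl (G.deleteEdges {s(0, Fin.last N)}) {0, Fin.last N, x} x).2 (by simp))
    simp only [Fin.snoc_castSucc, Fin.snoc_last, Matrix.cons_val_zero,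
      Matrix.cons_val_one] at e1 e2 e3
    have e4 : (m 0 0 - m (Fin.last N) 0) * (d (Fin.castSucc 0) 0 - d (Fin.last N).castSucc 0) +
        (m 0 1 - m (Fin.last N) 1) * (d (Fin.castSucc 0) 1 - d (Fin.last N).castSucc 1) = 0 := by
      linear_combination 2 * e1 + 2 * e2
    have hold : ∀ v i, d (Fin.castSucc v) i = 0 := by
      apply h (fun v => d v.castSucc)
      · intro u w huw
        by_cases hc : s(u, w) = s(0, Fin.last N)
        · rw [Sym2.eq_iff] at hc
          rcases hc with ⟨rfl, rfl⟩ | ⟨rfl, rfl⟩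
          · exact e4
          · linear_combination e4
        · have := hd _ _ ((addV_cc (G.deleteEdges {s(0, Fin.last N)}) {0, Fin.last N, x} u w).2 (by
            rw [SimpleGraph.deleteEdges_adj]
            exact ⟨huw, hc⟩))
          simpa only [Fin.snoc_castSucc] using this
      · exact hp
    simp only [hold] at e1 e2 e3
    set X := d (Fin.last (N + 1)) 0 with hX
    set Y := d (Fin.last (N + 1)) 1 with hY
    set w0 := m (Fin.last N) 0 - m 0 0 with hw0
    set w1 := m (Fin.last N) 1 - m 0 1 with hw1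
    have f1 : w0 * X + w1 * Y = 0 := by
      rw [hw0, hw1]
      linear_combination 2 * e1
    have f3 : (m x 0 - m 0 0) * X + (m x 1 - m 0 1) * Y = 0 := by
      linear_combination -e3 + e1
    have gX : X = 0 := by
      have : (w0 * (m x 1 - m 0 1) - w1 * (m x 0 - m 0 0)) * X = 0 := by
        linear_combination (m x 1 - m 0 1) * f1 - w1 * f3
      exact (mul_eq_zero.1 this).resolve_left hm
    have gY : Y = 0 := by
      have : (w0 * (m x 1 - m 0 1) - w1 * (m x 0 - m 0 0)) * Y = 0 := by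
        linear_combination w0 * f3 - (m x 0 - m 0 0) * f1
      exact (mul_eq_zero.1 this).resolve_left hm
    intro v i
    induction v using Fin.lastCases with
    | last =>
      fin_cases i
      · exact gX
      · exact gY
    | cast v => exact hold v i
  · simp only [Matrix.cons_val_zero, Matrix.cons_val_one]
    intro hc
    apply hm
    linear_combination 2 * hc

end Pool.Agent.KS6_27.BP
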