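import Mathlib
import Pool.Agent.KS6_27.BPa

/-! 3-connectivity of the extended braced polygon. -/

set_option autoImplicit false

namespace Pool.Agent.KS6_27.BP

/-- `G` is 3-connected: more than three vertices, and connected after deleting at most two. -/
def ThreeConnected {n : ℕ} (G : SimpleGraph (Fin n)) : Prop :=
  3 < n ∧ ∀ X : Finset (Fin n), X.card ≤ 2 → (G.induce ((↑X : Set (Fin n))ᶜ)).Connected

lemma reach_map {V W : Type} {G : SimpleGraph V} {H : SimpleGraph W} (f : V → W)
    (h : ∀ a b, G.Adj a b → H.Reachable (f a) (f b)) {a b : V} (hab : G.Reachable a b) :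
    H.Reachable (f a) (f b) := by
  obtain ⟨w⟩ := hab
  induction w with
  | nil => exact SimpleGraph.Reachable.refl _
  | cons h' _ ih => exact (h _ _ h').trans ih

lemma conn_II {N : ℕ} {G : SimpleGraph (Fin (N + 1))} (hG : ThreeConnected G) (x : Fin (N + 1))
    (hx0 : x ≠ 0) (hxL : x ≠ Fin.last N) :
    ThreeConnected (addV (G.deleteEdges {s(0, Fin.last N)}) {0, Fin.last N, x}) := by
  classical
  obtain ⟨hN, hG⟩ := hG
  have h0L : (0 : Fin (N + 1)) ≠ Fin.last N := by
    intro h
    have := congrArg Fin.val h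
    simp at this
    omega
  refine ⟨by omega, fun X hX => ?_⟩
  set G' := addV (G.deleteEdges {s(0, Fin.last N)}) {0, Fin.last N, x} with hG'
  -- the old vertices of `X`
  obtain ⟨Y, hY⟩ : ∃ Y : Finset (Fin (N + 1)), ∀ a, a ∈ Y ↔ Fin.castSucc a ∈ X :=
    ⟨Finset.univ.filter fun a => Fin.castSucc a ∈ X, by simp⟩
  have hYX : Y.map Fin.castSuccEmb ⊆ X := by
    intro u hu
    rw [Finset.mem_map] at hu
    obtain ⟨a, ha, rfl⟩ := hu
    exact (hY a).1 ha
  have hYc : Y.card ≤ X.card := by
    have := Finset.card_le_card hYX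
    rwa [Finset.card_map] at this
  by_cases hnew : Fin.last (N + 1) ∈ X
  · have hYc1 : Y.card + 1 ≤ X.card := by
      have h1 : insert (Fin.last (N + 1)) (Y.map Fin.castSuccEmb) ⊆ X := by
        intro u hu
        rw [Finset.mem_insert] at hu
        rcases hu with rfl | hu
        · exact hnew
        · exact hYX hu
      have h2 := Finset.card_le_card h1
      rw [Finset.card_insert_of_notMem, Finset.card_map] at h2
      · exact h2
      · intro h
        rw [Finset.mem_map] at h
        obtain ⟨a, -, h⟩ := h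
        exact (Fin.castSucc_lt_last a).ne h
    -- a third vertex
    obtain ⟨z, hz⟩ : ∃ z : Fin (N + 1), z ∉ insert 0 (insert (Fin.last N) Y) := by
      by_contra hc
      push Not at hc
      have h1 : (Finset.univ : Finset (Fin (N + 1))) ⊆ insert 0 (insert (Fin.last N) Y) :=
        fun z _ => hc z
      have h2 := Finset.card_le_card h1
      have h3 := Finset.card_insert_le 0 (insert (Fin.last N) Y)
      have h4 := Finset.card_insert_le (Fin.last N) Y
      rw [Finset.card_univ, Fintype.card_fin] at h2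
      omega
    simp only [Finset.mem_insert, not_or] at hz
    have hzX : Fin.castSucc z ∈ ((↑X : Set (Fin (N + 2)))ᶜ) := by
      rw [Set.mem_compl_iff, Finset.mem_coe, ← hY]
      exact hz.2.2
    -- avoid one end vertex of the deleted edge
    have avoid : ∀ (q : Fin (N + 1)), (q = 0 ∨ q = Fin.last N) → ∀ u : Fin (N + 1), u ∉ Y → u ≠ q →
        ∀ hu : Fin.castSucc u ∈ ((↑X : Set (Fin (N + 2)))ᶜ),
        (G'.induce ((↑X : Set (Fin (N + 2)))ᶜ)).Reachable ⟨u.castSucc, hu⟩ ⟨z.castSucc, hzX⟩ := by
      intro q hq u huY huq hu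
      have hcard : (insert q Y).card ≤ 2 := by
        have := Finset.card_insert_le q Y
        omega
      have hzq : z ≠ q := by
        rcases hq with rfl | rfl
        · exact hz.1
        · exact hz.2.1
      have hconn := (hG (insert q Y) hcard).preconnected
        ⟨u, by simp only [Set.mem_compl_iff, Finset.mem_coe, Finset.mem_insert, not_or]; exact ⟨huq, huY⟩⟩
        ⟨z, by simp only [Set.mem_compl_iff, Finset.mem_coe, Finset.mem_insert, not_or]
               exact ⟨hzq, hz.2.2⟩⟩
      have hin : ∀ c : ↑((↑(insert q Y) : Set (Fin (N + 1)))ᶜ), Fin.castSucc c.1 ∈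
          ((↑X : Set (Fin (N + 2)))ᶜ) := by
        rintro ⟨c, hc⟩
        simp only [Set.mem_compl_iff, Finset.mem_coe, Finset.mem_insert, not_or] at hc
        rw [Set.mem_compl_iff, Finset.mem_coe, ← hY]
        exact hc.2
      refine reach_map (G := G.induce ((↑(insert q Y) : Set (Fin (N + 1)))ᶜ))
        (H := G'.induce ((↑X : Set (Fin (N + 2)))ᶜ)) (fun c => ⟨Fin.castSucc c.1, hin c⟩) ?_ hconn
      rintro ⟨c, hc⟩ ⟨d, hd⟩ hcd
      apply SimpleGraph.Adj.reachable
      rw [SimpleGraph.comap_adj] at hcd ⊢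
      have hcd' : G.Adj c d := hcd
      refine (addV_cc _ _ c d).2 ?_
      rw [SimpleGraph.deleteEdges_adj]
      refine ⟨hcd', fun he => ?_⟩
      have he' : s(c, d) = s(0, Fin.last N) := he
      simp only [Set.mem_compl_iff, Finset.mem_coe, Finset.mem_insert, not_or] at hc hd
      rw [Sym2.eq_iff] at he'
      rcases he' with ⟨e1, e2⟩ | ⟨e1, e2⟩ <;> rcases hq with rfl | rfl
      · exact hc.1 e1
      · exact hd.1 e2
      · exact hd.1 e2
      · exact hc.1 e1
    rw [SimpleGraph.connected_iff_exists_forall_reachable]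
    refine ⟨⟨z.castSucc, hzX⟩, ?_⟩
    rintro ⟨u, hu⟩
    refine SimpleGraph.Reachable.symm ?_
    have hul : u ≠ Fin.last (N + 1) := by
      rintro rfl
      exact hu hnew
    obtain ⟨u, rfl⟩ := Fin.exists_castSucc_eq.2 hul
    have huY : u ∉ Y := by
      rw [hY]
      exact hu
    by_cases h : u = 0
    · subst h
      exact avoid (Fin.last N) (Or.inr rfl) 0 huY h0L hu
    · exact avoid 0 (Or.inl rfl) u huY h hu
  · have hnew' : Fin.last (N + 1) ∈ ((↑X : Set (Fin (N + 2)))ᶜ) := hnew
    have hin : ∀ c : ↑((↑Y : Set (Fin (N + 1)))ᶜ), Fin.castSucc c.1 ∈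
        ((↑X : Set (Fin (N + 2)))ᶜ) := by
      rintro ⟨c, hc⟩
      rw [Set.mem_compl_iff, Finset.mem_coe, ← hY]
      exact hc
    have old : ∀ c d : ↑((↑Y : Set (Fin (N + 1)))ᶜ), (G'.induce ((↑X : Set (Fin (N + 2)))ᶜ)).Reachable
        ⟨Fin.castSucc c.1, hin c⟩ ⟨Fin.castSucc d.1, hin d⟩ := by
      intro c d
      have hconn := (hG Y (hYc.trans hX)).preconnected c d
      refine reach_map (G := G.induce ((↑Y : Set (Fin (N + 1)))ᶜ))
        (H := G'.induce ((↑X : Set (Fin (N + 2)))ᶜ)) (fun c => ⟨Fin.castSucc c.1, hin c⟩) ?_ hconn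
      rintro ⟨c, hc⟩ ⟨d, hd⟩ hcd
      rw [SimpleGraph.comap_adj] at hcd
      have hcd' : G.Adj c d := hcd
      by_cases he : s(c, d) = s(0, Fin.last N)
      · have hc2 : c ∈ ({0, Fin.last N, x} : Set (Fin (N + 1))) ∧
            d ∈ ({0, Fin.last N, x} : Set (Fin (N + 1))) := by
          rw [Sym2.eq_iff] at he
          rcases he with ⟨rfl, rfl⟩ | ⟨rfl, rfl⟩ <;> simp
        refine SimpleGraph.Reachable.trans (v := ⟨Fin.last (N + 1), hnew'⟩) ?_ ?_
        · apply SimpleGraph.Adj.reachable
          rw [SimpleGraph.comap_adj]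
          exact (addV_cl _ _ c).2 hc2.1
        · apply SimpleGraph.Adj.reachable
          rw [SimpleGraph.comap_adj]
          exact ((addV_cl _ _ d).2 hc2.2).symm
      · apply SimpleGraph.Adj.reachable
        rw [SimpleGraph.comap_adj]
        refine (addV_cc _ _ c d).2 ?_
        rw [SimpleGraph.deleteEdges_adj]
        exact ⟨hcd', he⟩
    -- a neighbour of the new vertex which is not deleted
    obtain ⟨y, hyS, hyY⟩ : ∃ y ∈ ({0, Fin.last N, x} : Set (Fin (N + 1))), y ∉ Y := by
      by_contra hc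
      push Not at hc
      have h1 : ({0, Fin.last N, x} : Finset (Fin (N + 1))) ⊆ Y := by
        intro y hy
        apply hc
        simpa using hy
      have h2 := Finset.card_le_card h1
      have h3 : ({0, Fin.last N, x} : Finset (Fin (N + 1))).card = 3 := by
        rw [Finset.card_eq_three]
        exact ⟨_, _, _, h0L, hx0.symm, hxL.symm, rfl⟩
      omega
    rw [SimpleGraph.connected_iff_exists_forall_reachable]
    refine ⟨⟨y.castSucc, hin ⟨y, hyY⟩⟩, ?_⟩
    rintro ⟨u, hu⟩
    by_cases hul : u = Fin.last (N + 1)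
    · subst hul
      apply SimpleGraph.Adj.reachable
      rw [SimpleGraph.comap_adj]
      exact (addV_cl _ _ y).2 hyS
    · obtain ⟨u, rfl⟩ := Fin.exists_castSucc_eq.2 hul
      have huY : u ∉ Y := by
        rw [hY]
        exact hu
      exact old ⟨y, hyY⟩ ⟨u, huY⟩

end Pool.Agent.KS6_27.BP
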