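import Mathlib
import Pool.Agent.KS6_27.BPb
import Pool.Agent.KS6_27.BPc
import Pool.Graph.R_pool_sql_team_39128cda.Results.MP_ab14aa_co.Yes
import Pool.Graph.R_pool_sql_team_ae5b0c61.Results.MP_ab14aa_co.Dixon

/-! Base cases and induction. -/

set_option autoImplicit false

namespace Pool.Agent.KS6_27.BP

/-- the induction statement without 3-connectivity -/
def StA (N : ℕ) : Prop :=
  ∃ (G : SimpleGraph (Fin (N + 1))) (p : Fin (N + 1) → E2) (γ : unitInterval → Fin (N + 1) → E2)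
    (m : Fin (N + 1) → Fin 2 → ℝ) (a b : Fin (N + 1)), Cyc G ∧ G.edgeSet.ncard + 3 = 2 * (N + 1) ∧
    Inf G a b m ∧ G.Adj a b ∧ StrictlyConvex p ∧ Motion G p γ ∧ m (Fin.last N) ≠ m 0

/-- the induction statement with 3-connectivity -/
def StB (N : ℕ) : Prop :=
  ∃ (G : SimpleGraph (Fin (N + 1))) (p : Fin (N + 1) → E2) (γ : unitInterval → Fin (N + 1) → E2)
    (m : Fin (N + 1) → Fin 2 → ℝ) (a b x : Fin (N + 1)),
    Cyc G ∧ G.edgeSet.ncard + 3 = 2 * (N + 1) ∧
    Inf G a b m ∧ G.Adj a b ∧ a ≠ Fin.last N ∧ b ≠ Fin.last N ∧ StrictlyConvex p ∧ Motion G p γ ∧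
    ThreeConnected G ∧ G.Adj 0 x ∧ G.Adj (Fin.last N) x ∧
    (m (Fin.last N) 0 - m 0 0) * (m x 1 - m 0 1) -
      (m (Fin.last N) 1 - m 0 1) * (m x 0 - m 0 0) ≠ 0

lemma orient_ne {a b c : E2} (h : 0 < orient a b c) : a ≠ c := by
  rintro rfl
  simp [orient] at h

theorem stepA (N : ℕ) (hN : 2 ≤ N) (h : StA N) : StA (N + 1) := by
  obtain ⟨G, p, γ, m, a, b, hc, he, hi, hab, hp, hγ, hm⟩ := h
  have h0L : p 0 ≠ p (Fin.last N) := by
    have h1 : (0 : Fin (N + 1)) < ⟨1, by omega⟩ := by simp [Fin.lt_def]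
    have h2 : (⟨1, by omega⟩ : Fin (N + 1)) < Fin.last N := by simp [Fin.lt_def]; omega
    exact orient_ne (hp _ _ _ h1 h2)
  obtain ⟨v, hv⟩ := convex_ext p hp h0L
  obtain ⟨c, hc1, hc2⟩ := inf_I hi hm
  obtain ⟨hγ1, hγ2, hγ3, -⟩ := id hγ
  have hcv : ∀ i, Continuous fun t => γ t i := fun i => (continuous_apply i).comp hγ1
  obtain ⟨w, hw1, hw2, hw3⟩ := attach2 (fun t => γ t 0) (fun t => γ t (Fin.last N))
    (hcv _) (hcv _) (fun t => by
      rw [hγ2]
      exact hγ3 t _ _ hc.2.symm) (by rw [hγ2]; exact h0L) v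
  refine ⟨addV G {0, Fin.last N}, _, _, _, a.castSucc, b.castSucc,
    cyc_addV hc.1 (by simp) (by simp), ?_, hc1, (addV_cc _ _ _ _).2 hab, hv,
    motion_ext (G' := G) (fun _ _ h => h) hγ v w hw1 hw2 ?_, ?_⟩
  · rw [edges_addV, Set.ncard_pair]
    · omega
    · intro h
      exact h0L (by rw [h])
  · intro t i hi
    simp only [Set.mem_insert_iff, Set.mem_singleton_iff] at hi
    have := hw3 t
    simp only [hγ2] at this
    rcases hi with rfl | rfl
    · exact this.1
    · exact this.2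
  · have e : (0 : Fin (N + 2)) = Fin.castSucc 0 := rfl
    rw [e, Fin.snoc_castSucc, Fin.snoc_last]
    exact hc2

theorem stepB (N : ℕ) (hN : 2 ≤ N) (h : StB N) : StB (N + 1) := by
  obtain ⟨G, p, γ, m, a, b, x, hc, he, hi, hab, haL, hbL, hp, hγ, h3, hx0, hxL, hm⟩ := h
  have h0L : p 0 ≠ p (Fin.last N) := by
    have h1 : (0 : Fin (N + 1)) < ⟨1, by omega⟩ := by simp [Fin.lt_def]
    have h2 : (⟨1, by omega⟩ : Fin (N + 1)) < Fin.last N := by simp [Fin.lt_def]; omega
    exact orient_ne (hp _ _ _ h1 h2)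
  have h0L' : (0 : Fin (N + 1)) ≠ Fin.last N := fun h => h0L (by rw [h])
  obtain ⟨v, hv⟩ := convex_ext p hp h0L
  obtain ⟨c, hc1, hc2⟩ := inf_II hi hm
  obtain ⟨hγ1, hγ2, hγ3, -⟩ := id hγ
  have hcv : ∀ i, Continuous fun t => γ t i := fun i => (continuous_apply i).comp hγ1
  have hor : orient (p 0) (p (Fin.last N)) (p x) ≠ 0 := by
    have h1 : 0 < x := Fin.pos_iff_ne_zero.2 hx0.ne.symm
    have h2 : x < Fin.last N := Fin.lt_last_iff_ne_last.2 hxL.ne.symm
    have := hp _ _ _ h1 h2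
    intro h
    simp only [orient] at this h
    linarith
  obtain ⟨w, hw1, hw2, hw3⟩ := attach3 (fun t => γ t 0) (fun t => γ t (Fin.last N))
    (fun t => γ t x) (hcv _) (hcv _) (hcv _)
    (fun t => by
      rw [hγ2]
      exact hγ3 t _ _ hc.2.symm)
    (fun t => by
      rw [hγ2]
      exact hγ3 t _ _ hx0)
    (fun t => by
      rw [hγ2]
      exact hγ3 t _ _ hxL) (by rw [hγ2]; exact hor) v
  have hdel : ∀ u w, (G.deleteEdges {s(0, Fin.last N)}).Adj u w → G.Adj u w := by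
    intro u w h
    rw [SimpleGraph.deleteEdges_adj] at h
    exact h.1
  refine ⟨addV (G.deleteEdges {s(0, Fin.last N)}) {0, Fin.last N, x}, _, _, _, a.castSucc,
    b.castSucc, x.castSucc, cyc_addV ?_ (by simp) (by simp), ?_, hc1, (addV_cc _ _ _ _).2 ?_,
    (Fin.castSucc_lt_last a).ne, (Fin.castSucc_lt_last b).ne, hv,
    motion_ext (G' := G.deleteEdges {s(0, Fin.last N)}) hdel hγ v w hw1 hw2 ?_,
    conn_II h3 x hx0.ne.symm hxL.ne.symm, (addV_cc _ _ 0 x).2 ?_, ((addV_cl _ _ x).2 (by simp)).symm,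
    ?_⟩
  · intro i
    rw [SimpleGraph.deleteEdges_adj]
    refine ⟨hc.1 i, fun h => ?_⟩
    have h' : s(i.castSucc, i.succ) = s(0, Fin.last N) := h
    rw [Sym2.eq_iff] at h'
    rcases h' with ⟨h1, h2⟩ | ⟨h1, h2⟩
    · have e1 := congrArg Fin.val h1
      have e2 := congrArg Fin.val h2
      simp at e1 e2
      omega
    · exact (Fin.succ_ne_zero i) h2
  · have hmem : s(0, Fin.last N) ∈ G.edgeSet := by
      rw [SimpleGraph.mem_edgeSet]
      exact hc.2.symm
    have h1 : (G.deleteEdges {s(0, Fin.last N)}).edgeSet.ncard + 1 = G.edgeSet.ncard := by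
      rw [SimpleGraph.edgeSet_deleteEdges]
      exact Set.ncard_sdiff_singleton_add_one hmem (Set.toFinite _)
    have h2 : ({0, Fin.last N, x} : Set (Fin (N + 1))).ncard = 3 := by
      rw [Set.ncard_eq_three]
      exact ⟨_, _, _, h0L', hx0.ne, hxL.ne, rfl⟩
    rw [edges_addV, h2]
    omega
  · rw [SimpleGraph.deleteEdges_adj]
    refine ⟨hab, fun h => ?_⟩
    have h' : s(a, b) = s(0, Fin.last N) := h
    rw [Sym2.eq_iff] at h'
    rcases h' with ⟨h1, h2⟩ | ⟨h1, h2⟩
    · exact hbL h2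
    · exact haL h1
  · intro t i hi
    simp only [Set.mem_insert_iff, Set.mem_singleton_iff] at hi
    have := hw3 t
    simp only [hγ2] at this
    rcases hi with rfl | rfl | rfl
    · exact this.1
    · exact this.2.1
    · exact this.2.2
  · rw [SimpleGraph.deleteEdges_adj]
    refine ⟨hx0, fun h => ?_⟩
    have h' : s(0, x) = s(0, Fin.last N) := h
    rw [Sym2.eq_iff] at h'
    rcases h' with ⟨h1, h2⟩ | ⟨h1, h2⟩
    · exact hxL.ne h2.symm
    · exact h0L' h1
  · have e : (0 : Fin (N + 2)) = Fin.castSucc 0 := rfl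
    rw [e, Fin.snoc_castSucc, Fin.snoc_last, Fin.snoc_castSucc]
    exact hc2

open Pool.Agent.Results.MP_ab14aa_co.Yes in
theorem baseA : StA 7 := by
  refine ⟨GG, pts 1 2 2 1 (1 / 2) (1 / 2),
    fun t => pts (fa t) (fb t) (fc t) (fd t) (fe t) (ff t),
    ![![0, 0], ![1, 0], ![1, 2], ![0, 1], ![2, 1], ![3, 1], ![2, 3], ![1, 1]], 0, 1,
    ⟨?_, ?_⟩, ?_, ?_, ?_, ?_, ⟨cont, ?_, ?_, 1, 1, 3, ?_⟩, ?_⟩
  · intro i
    unfold GG
    revert i
    decide
  · unfold GG
    decide
  · have : DecidableRel GG.Adj := fun u w => inferInstanceAs (Decidable ((u, w) ∈ EL ∨ (w, u) ∈ EL))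
    have h : GG.edgeSet = ((Finset.univ.image fun i : Fin 13 => s((EL.get (i.cast rfl)).1, (EL.get (i.cast rfl)).2) :
        Finset (Sym2 (Fin 8))) : Set (Sym2 (Fin 8))) := by
      ext e
      induction e using Sym2.ind with
      | _ u v =>
        rw [SimpleGraph.mem_edgeSet]
        unfold GG
        revert u v
        decide +kernel
    rw [h, Set.ncard_coe_finset]
    decide +kernel
  · intro d h hp
    have e1 := h 0 3 (by unfold GG; decide)
    have e2 := h 0 7 (by unfold GG; decide)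
    have e3 := h 4 1 (by unfold GG; decide)
    have e4 := h 4 3 (by unfold GG; decide)
    have e5 := h 4 7 (by unfold GG; decide)
    have e6 := h 6 1 (by unfold GG; decide)
    have e7 := h 6 3 (by unfold GG; decide)
    have e8 := h 6 7 (by unfold GG; decide)
    have e9 := h 2 1 (by unfold GG; decide)
    have e10 := h 2 3 (by unfold GG; decide)
    have e11 := h 5 4 (by unfold GG; decide)
    have e12 := h 5 6 (by unfold GG; decide)
    have p0 := hp 0
    have p1 := hp 1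
    simp [p0.1, p0.2, p1.1, p1.2] at e1 e2 e3 e4 e5 e6 e7 e8 e9 e10 e11 e12
    norm_num at e1 e2 e3 e4 e5 e6 e7 e8 e9 e10 e11 e12
    intro v i
    fin_cases v <;> fin_cases i <;> simp <;> linarith [p0.1, p0.2, p1.1, p1.2]
  · unfold GG
    decide
  · intro i j k h1 h2
    fin_cases i <;> fin_cases j <;> simp at h1 <;> fin_cases k <;> simp at h2 <;>
      simp [orient, pts] <;> norm_num
  · obtain ⟨a, b, c, d, e, f⟩ := at0
    simp only [Set.Icc.coe_zero, a, b, c, d, e, f]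
  · intro t u w huw
    obtain ⟨h1, h2, h3, h4, h5⟩ := facts t t.2.1 t.2.2
    rw [dist_eq_iff]
    have key : ∀ x ∈ EL,
        (pts (fa t) (fb t) (fc t) (fd t) (fe t) (ff t) x.1 0 -
          pts (fa t) (fb t) (fc t) (fd t) (fe t) (ff t) x.2 0) ^ 2 +
        (pts (fa t) (fb t) (fc t) (fd t) (fe t) (ff t) x.1 1 -
          pts (fa t) (fb t) (fc t) (fd t) (fe t) (ff t) x.2 1) ^ 2 =
        (pts 1 2 2 1 (1 / 2) (1 / 2) x.1 0 - pts 1 2 2 1 (1 / 2) (1 / 2) x.2 0) ^ 2 +
        (pts 1 2 2 1 (1 / 2) (1 / 2) x.1 1 - pts 1 2 2 1 (1 / 2) (1 / 2) x.2 1) ^ 2 := by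
      intro x hx
      simp only [EL, List.mem_cons, List.not_mem_nil, or_false] at hx
      rcases hx with rfl | rfl | rfl | rfl | rfl | rfl | rfl | rfl | rfl | rfl | rfl | rfl | rfl <;>
        simp [pts] <;> nlinarith
    rcases huw with h | h
    · exact key _ h
    · have := key _ h
      simp only at this
      linear_combination this
  · intro this
    rw [dist_eq_iff] at this
    simp [pts, fa] at this
    norm_num at this
  · intro h
    have := congrFun h 0
    have e : Fin.last 7 = (7 : Fin 8) := rfl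
    rw [e] at this
    simp at this

end Pool.Agent.KS6_27.BP
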