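import Mathlib
import Pool.Agent.KS6_27.BPd

/-! The 3-connected base case with twelve vertices. -/

set_option autoImplicit false

namespace Pool.Agent.KS6_27.BP

open Pool.Agent.Results.MP_ab14aa_co.Dixon

noncomputable def m12 : Fin 12 → Fin 2 → ℝ :=
  ![![1, 2], ![2, 0], ![2, 1], ![2, 2], ![2, 0], ![1, 0], ![0, 2], ![1, 0], ![0, 0], ![1, 2],
    ![2, 0], ![1, 1]]

theorem inf12 : Inf G0 0 1 m12 := by
  intro d h hp
  have e0 : d 0 0 = 0 := (hp 0).1
  have e1 : d 0 1 = 0 := (hp 1).1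
  have e2 : d 1 0 = 0 := (hp 0).2
  have e3 : d 1 1 = 0 := (hp 1).2
  have e4 : ((1 : ℝ) - 2) * (d 0 0 - d 3 0) + ((2 : ℝ) - 2) * (d 0 1 - d 3 1) = 0 := h 0 3 (by decide)
  have e5 : ((1 : ℝ) - 1) * (d 0 0 - d 7 0) + ((2 : ℝ) - 0) * (d 0 1 - d 7 1) = 0 := h 0 7 (by decide)
  have e6 : ((2 : ℝ) - 2) * (d 1 0 - d 2 0) + ((0 : ℝ) - 1) * (d 1 1 - d 2 1) = 0 := h 1 2 (by decide)
  have e7 : ((2 : ℝ) - 2) * (d 2 0 - d 3 0) + ((1 : ℝ) - 2) * (d 2 1 - d 3 1) = 0 := h 2 3 (by decide)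
  have e8 : ((2 : ℝ) - 1) * (d 2 0 - d 7 0) + ((1 : ℝ) - 0) * (d 2 1 - d 7 1) = 0 := h 2 7 (by decide)
  have e9 : ((2 : ℝ) - 0) * (d 1 0 - d 8 0) + ((0 : ℝ) - 0) * (d 1 1 - d 8 1) = 0 := h 1 8 (by decide)
  have e10 : ((2 : ℝ) - 0) * (d 3 0 - d 8 0) + ((2 : ℝ) - 0) * (d 3 1 - d 8 1) = 0 := h 3 8 (by decide)
  have e11 : ((1 : ℝ) - 0) * (d 7 0 - d 8 0) + ((0 : ℝ) - 0) * (d 7 1 - d 8 1) = 0 := h 7 8 (by decide)
  have e12 : ((2 : ℝ) - 2) * (d 3 0 - d 4 0) + ((2 : ℝ) - 0) * (d 3 1 - d 4 1) = 0 := h 3 4 (by decide)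
  have e13 : ((2 : ℝ) - 1) * (d 4 0 - d 5 0) + ((0 : ℝ) - 0) * (d 4 1 - d 5 1) = 0 := h 4 5 (by decide)
  have e14 : ((1 : ℝ) - 0) * (d 5 0 - d 6 0) + ((0 : ℝ) - 2) * (d 5 1 - d 6 1) = 0 := h 5 6 (by decide)
  have e15 : ((0 : ℝ) - 1) * (d 6 0 - d 7 0) + ((2 : ℝ) - 0) * (d 6 1 - d 7 1) = 0 := h 6 7 (by decide)
  have e16 : ((2 : ℝ) - 0) * (d 4 0 - d 6 0) + ((0 : ℝ) - 2) * (d 4 1 - d 6 1) = 0 := h 4 6 (by decide)
  have e17 : ((2 : ℝ) - 1) * (d 1 0 - d 5 0) + ((0 : ℝ) - 0) * (d 1 1 - d 5 1) = 0 := h 1 5 (by decide)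
  have e18 : ((0 : ℝ) - 1) * (d 8 0 - d 9 0) + ((0 : ℝ) - 2) * (d 8 1 - d 9 1) = 0 := h 8 9 (by decide)
  have e19 : ((1 : ℝ) - 2) * (d 9 0 - d 10 0) + ((2 : ℝ) - 0) * (d 9 1 - d 10 1) = 0 := h 9 10 (by decide)
  have e20 : ((2 : ℝ) - 1) * (d 10 0 - d 11 0) + ((0 : ℝ) - 1) * (d 10 1 - d 11 1) = 0 := h 10 11 (by decide)
  have e21 : ((1 : ℝ) - 1) * (d 0 0 - d 11 0) + ((2 : ℝ) - 1) * (d 0 1 - d 11 1) = 0 := h 0 11 (by decide)
  have e22 : ((1 : ℝ) - 1) * (d 9 0 - d 11 0) + ((2 : ℝ) - 1) * (d 9 1 - d 11 1) = 0 := h 9 11 (by decide)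
  have e23 : ((2 : ℝ) - 2) * (d 2 0 - d 10 0) + ((1 : ℝ) - 0) * (d 2 1 - d 10 1) = 0 := h 2 10 (by decide)
  have d0 : d 0 0 = 0 := by
    linear_combination (1) * e0
  have d1 : d 0 1 = 0 := by
    linear_combination (1) * e1
  have d2 : d 1 0 = 0 := by
    linear_combination (1) * e2
  have d3 : d 1 1 = 0 := by
    linear_combination (1) * e3
  have d4 : d 2 0 = 0 := by
    linear_combination (1) * e1 + (1) * e2 + (-1) * e3 + (-1/2) * e5 + (-1) * e6 + (1) * e8 + (-1/2) * e9 + (1) * e11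
  have d5 : d 2 1 = 0 := by
    linear_combination (1) * e3 + (1) * e6
  have d6 : d 3 0 = 0 := by
    linear_combination (1) * e0 + (1) * e4
  have d7 : d 3 1 = 0 := by
    linear_combination (1) * e3 + (1) * e6 + (1) * e7
  have d8 : d 4 0 = 0 := by
    linear_combination (1) * e2 + (1) * e13 + (-1) * e17
  have d9 : d 4 1 = 0 := by
    linear_combination (1) * e3 + (1) * e6 + (1) * e7 + (-1/2) * e12
  have d10 : d 5 0 = 0 := by
    linear_combination (1) * e2 + (-1) * e17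
  have d11 : d 5 1 = 0 := by
    linear_combination (1) * e1 + (-1/2) * e5 + (1/4) * e9 + (-1/2) * e11 + (-1/2) * e14 + (1/2) * e15 + (-1/2) * e17
  have d12 : d 6 0 = 0 := by
    linear_combination (2) * e1 + (1) * e2 + (-2) * e3 + (-1) * e5 + (-2) * e6 + (-2) * e7 + (1/2) * e9 + (-1) * e11 + (1) * e12 + (2) * e13 + (1) * e15 + (-1) * e16 + (-2) * e17
  have d13 : d 6 1 = 0 := by
    linear_combination (2) * e1 + (-1) * e3 + (-1) * e5 + (-1) * e6 + (-1) * e7 + (1/2) * e9 + (-1) * e11 + (1/2) * e12 + (1) * e13 + (1) * e15 + (-1/2) * e16 + (-1) * e17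
  have d14 : d 7 0 = 0 := by
    linear_combination (1) * e2 + (-1/2) * e9 + (1) * e11
  have d15 : d 7 1 = 0 := by
    linear_combination (1) * e1 + (-1/2) * e5
  have d16 : d 8 0 = 0 := by
    linear_combination (1) * e2 + (-1/2) * e9
  have d17 : d 8 1 = 0 := by
    linear_combination (1) * e0 + (-1) * e2 + (1) * e3 + (1) * e4 + (1) * e6 + (1) * e7 + (1/2) * e9 + (-1/2) * e10
  have d18 : d 9 0 = 0 := by
    linear_combination (2) * e0 + (-2) * e1 + (-1) * e2 + (2) * e3 + (2) * e4 + (2) * e6 + (2) * e7 + (1/2) * e9 + (-1) * e10 + (1) * e18 + (2) * e21 + (-2) * e22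
  have d19 : d 9 1 = 0 := by
    linear_combination (1) * e1 + (-1) * e21 + (1) * e22
  have d20 : d 10 0 = 0 := by
    linear_combination (2) * e0 + (-4) * e1 + (-1) * e2 + (4) * e3 + (2) * e4 + (4) * e6 + (2) * e7 + (1/2) * e9 + (-1) * e10 + (1) * e18 + (1) * e19 + (4) * e21 + (-4) * e22 + (-2) * e23
  have d21 : d 10 1 = 0 := by
    linear_combination (1) * e3 + (1) * e6 + (-1) * e23
  have d22 : d 11 0 = 0 := by
    linear_combination (2) * e0 + (-3) * e1 + (-1) * e2 + (3) * e3 + (2) * e4 + (3) * e6 + (2) * e7 + (1/2) * e9 + (-1) * e10 + (1) * e18 + (1) * e19 + (-1) * e20 + (3) * e21 + (-4) * e22 + (-1) * e23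
  have d23 : d 11 1 = 0 := by
    linear_combination (1) * e1 + (-1) * e21
  intro v k
  fin_cases v <;> fin_cases k <;> assumption

/-- relabelling `i ↦ i - 1` -/
def rot : Fin 12 → Fin 12 := fun i => i + 11

def rot' : Fin 12 → Fin 12 := fun i => i + 1

lemma rr (i : Fin 12) : rot (rot' i) = i := by revert i; decide
lemma rr' (i : Fin 12) : rot' (rot i) = i := by revert i; decide

def G1 : SimpleGraph (Fin 12) := G0.comap rot

lemma G1_adj (u v : Fin 12) : G1.Adj u v ↔ G0.Adj (rot u) (rot v) := Iff.rfl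

instance : DecidableRel G1.Adj := fun u v => inferInstanceAs (Decidable (G0.Adj (rot u) (rot v)))

theorem conn12 : ThreeConnected G1 := by
  classical
  refine ⟨by norm_num, fun X hX => ?_⟩
  have hc := (conn3.2 (X.image rot) (lt_of_le_of_lt Finset.card_image_le (by omega)))
  have hin : ∀ c : ↑((↑(X.image rot) : Set (Fin 12))ᶜ), rot' c.1 ∈ ((↑X : Set (Fin 12))ᶜ) := by
    rintro ⟨c, hc⟩ h
    apply hc
    rw [Finset.mem_coe, Finset.mem_image]
    exact ⟨rot' c, h, rr c⟩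
  have hout : ∀ c : ↑((↑X : Set (Fin 12))ᶜ), rot c.1 ∈ ((↑(X.image rot) : Set (Fin 12))ᶜ) := by
    rintro ⟨c, hc⟩ h
    apply hc
    rw [Finset.mem_coe, Finset.mem_image] at h
    obtain ⟨a, ha, hac⟩ := h
    have : a = c := by rw [← rr' a, hac, rr']
    rw [← this]
    exact ha
  obtain ⟨⟨z⟩⟩ := hc.nonempty
  rw [SimpleGraph.connected_iff_exists_forall_reachable]
  refine ⟨⟨rot' z, hin ⟨z, by assumption⟩⟩, ?_⟩
  rintro ⟨u, hu⟩
  have h1 := hc.preconnected ⟨z, by assumption⟩ ⟨rot u, hout ⟨u, hu⟩⟩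
  have h2 := reach_map (H := G1.induce ((↑X : Set (Fin 12))ᶜ)) (fun c => ⟨rot' c.1, hin c⟩) ?_ h1
  · have e : (⟨u, hu⟩ : ↑((↑X : Set (Fin 12))ᶜ)) = ⟨rot' (rot u), hin ⟨rot u, hout ⟨u, hu⟩⟩⟩ :=
      Subtype.ext (rr' u).symm
    rw [e]
    exact h2
  · rintro ⟨a, ha⟩ ⟨b, hb⟩ hab
    apply SimpleGraph.Adj.reachable
    rw [SimpleGraph.comap_adj] at hab ⊢
    have hab' : G0.Adj a b := hab
    show G1.Adj (rot' a) (rot' b)
    rw [G1_adj, rr, rr]
    exact hab'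

theorem baseB : StB 11 := by
  obtain ⟨q, hq, hq0, hlen, t, ht, u, v, hne⟩ := flex
  refine ⟨G1, fun i => pos x0 (rot i), fun t i => q t (rot i), fun i => m12 (rot i), 1, 2, 10,
    ⟨?_, ?_⟩, ?_, ?_, ?_, ?_, ?_, ?_, ⟨?_, ?_, ?_, ⟨t, ht⟩, rot' u, rot' v, ?_⟩, conn12, ?_, ?_, ?_⟩
  · decide
  · decide
  · have h : G1.edgeSet = ((Finset.univ.filter fun e : Fin 12 × Fin 12 => e.1 < e.2 ∧ G1.Adj e.1 e.2).image
        (fun e => s(e.1, e.2)) : Finset (Sym2 (Fin 12))) := by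
      ext e
      induction e using Sym2.ind with
      | _ a b =>
        rw [SimpleGraph.mem_edgeSet]
        simp only [Finset.coe_image, Set.mem_image, Finset.coe_filter, Finset.mem_univ, true_and,
          Set.mem_ofPred_eq, Prod.exists]
        constructor
        · intro h
          rcases lt_or_gt_of_ne h.ne with h1 | h1
          · exact ⟨a, b, ⟨h1, h⟩, rfl⟩
          · exact ⟨b, a, ⟨h1, h.symm⟩, Sym2.eq_swap⟩
        · rintro ⟨c, d, ⟨h1, h2⟩, h3⟩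
          rw [Sym2.eq_iff] at h3
          rcases h3 with ⟨rfl, rfl⟩ | ⟨rfl, rfl⟩
          · exact h2
          · exact h2.symm
    rw [h, Set.ncard_coe_finset]
    decide +kernel
  · intro d h hp v i
    have h1 := inf12 (fun v => d (rot' v)) ?_ hp (rot v) i
    · simpa only [rr'] using h1
    · intro a b hab
      have := h (rot' a) (rot' b) (by rw [G1_adj, rr, rr]; exact hab)
      simpa only [rr] using this
  · decide
  · decide
  · decide
  · let P : Fin 12 → Fin 2 → ℤ := ![![30, 10], ![10, 30], ![-30, 10], ![-10, -30], ![-7, -34],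
      ![-1, -37], ![5, -34], ![10, -30], ![30, -10], ![34, -5], ![36, 1], ![33, 6]]
    have hP : ∀ i k, pos x0 i k = (P i k : ℝ) := by
      intro i k
      fin_cases i <;> fin_cases k <;> simp [pos, x0, P]
    have hZ : ∀ i j k : Fin 12, i < j → j < k →
        0 < (P (rot j) 0 - P (rot i) 0) * (P (rot k) 1 - P (rot i) 1) -
          (P (rot j) 1 - P (rot i) 1) * (P (rot k) 0 - P (rot i) 0) := by
      decide +kernel
    intro i j k h1 h2
    simp only [orient, hP]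
    exact_mod_cast hZ i j k h1 h2
  · have h1 : Continuous fun t : unitInterval => q t := continuousOn_iff_continuous_domRestrict.1 hq
    refine continuous_pi fun i => ?_
    exact (continuous_apply (rot i)).comp h1
  · funext i
    show q ((0 : unitInterval) : ℝ) (rot i) = _
    rw [Set.Icc.coe_zero, hq0]
  · intro t u w huw
    exact hlen t t.2 _ _ huw
  · show dist (q t (rot (rot' u))) (q t (rot (rot' v))) ≠ dist (pos x0 (rot (rot' u))) (pos x0 (rot (rot' v)))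
    rw [rr, rr]
    exact hne
  · decide
  · decide
  · have e1 : rot (Fin.last 11) = 10 := by decide
    have e2 : rot 0 = 11 := by decide
    have e3 : rot 10 = 9 := by decide
    simp only [e1, e2, e3]
    simp [m12]
    norm_num

end Pool.Agent.KS6_27.BP
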