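import Pool.Graph.R_pool_sql_team_39128cda.H.MP_fa2eca_lc.A

set_option autoImplicit false

/-! A monotone approximation of a path, and a very complex such path. -/

namespace Pool.Agent.KS6_27.CK

open Pool.Agent.H.MP_d04dff_lc Pool.Agent.H.MP_fa2eca_lc Pool.Agent.Lib.helper21 Filter

theorem path {R : ℕ → Str → Prop} (hR : PrimrecRel R)
    (mono : ∀ s s' σ ρ, s ≤ s' → R s' (σ ++ ρ) → R s σ) (ne : ∀ s, ∃ σ : Str, σ.length = s ∧ R s σ) :
    ∃ (X : ℕ → Bool) (y : ℕ → ℕ → Bool), Primrec₂ y ∧ (∀ n, ∀ᶠ j in atTop, y j n = X n) ∧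
      (∀ s n, R s (pre X n)) ∧
      ∀ n j j', j ≤ j' → pre (y j) n = pre X n → pre (y j') n = pre X n := by
  classical
  let E : ℕ → Str → Prop := fun s σ => ∃ ρ ∈ all s, ρ.length = s ∧ R s (σ ++ ρ)
  have hE : PrimrecRel E := by
    have h1 : PrimrecRel fun (ρ : Str) (z : ℕ × Str) => ρ.length = z.1 ∧ R z.1 (z.2 ++ ρ) :=
      (Primrec.eq.comp (Primrec.list_length.comp Primrec.fst)
        (Primrec.fst.comp Primrec.snd)).and (hR.comp (Primrec.fst.comp Primrec.snd)
          (Primrec.list_append.comp (Primrec.snd.comp Primrec.snd) Primrec.fst))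
    exact h1.exists_mem_list.comp (all_prim.comp Primrec.fst) Primrec.id
  have Em : ∀ s s' σ, s ≤ s' → E s' σ → E s σ := fun s s' σ h ⟨ρ, _, h1, h2⟩ =>
    ⟨ρ.take s, mem_all.2 (by simp), by simp; omega, mono s s' _ (ρ.drop s) h (by simpa using h2)⟩
  let F : Str → Prop := fun σ => ∀ s, E s σ
  have lim : ∀ σ, ∀ᶠ s in atTop, (E s σ ↔ F σ) := fun σ => by
    by_cases h : F σ
    · exact Eventually.of_forall fun s => ⟨fun _ => h, fun _ => h s⟩
    · obtain ⟨s, hs⟩ := not_forall.1 h
      filter_upwards [eventually_ge_atTop s] with t ht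
      exact ⟨fun c => absurd (Em _ _ _ ht c) hs, fun c => absurd c h⟩
  have cv : ∀ n, ∀ᶠ s in atTop, walk (E s) n = walk F n := fun n => by
    induction n with
    | zero => exact Eventually.of_forall fun _ => rfl
    | succ n ih =>
      filter_upwards [ih, lim (walk F n ++ [false])] with s h1 h2
      rw [walk, walk, h1, h2]
  have hF : ∀ n, F (walk F n) := fun n => by
    induction n with
    | zero => exact fun s => let ⟨σ, h1, h2⟩ := ne s; ⟨σ, mem_all.2 h1.le, h1, h2⟩
    | succ n ih =>
      rw [walk]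
      by_cases h : F (walk F n ++ [false])
      · rw [decide_eq_false (not_not.2 h)]
        exact h
      · obtain ⟨s, hs⟩ := not_forall.1 h
        simp only [h, not_false_eq_true, decide_true]
        intro t
        obtain ⟨ρ, -, h1, h2⟩ := ih (s + t + 1)
        obtain ⟨b, ρ, rfl⟩ : ∃ b ρ', ρ = b :: ρ' := by
          cases ρ with
          | nil => simp at h1
          | cons b ρ => exact ⟨b, ρ, rfl⟩
        have h3 : E (s + t) (walk F n ++ [b]) := ⟨ρ, mem_all.2 (by simp at h1; omega),
          by simpa using h1, mono _ _ _ [] (Nat.le_succ _) (by simpa using h2)⟩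
        cases b
        · exact absurd (Em _ _ _ (by omega) h3) hs
        · exact Em _ _ _ (by omega) h3
  have h2 : Primrec₂ fun s (σ : Str) => decide (¬ E s (σ ++ [false])) :=
    (hE.comp Primrec.fst (Primrec.list_append.comp Primrec.snd
      (Primrec.const [false]))).not.decide
  have hw : Primrec₂ fun s n => walk (E s) n := by
    refine (Primrec.nat_rec' (α := ℕ × ℕ) Primrec.snd (Primrec.const ([] : Str))
      (h := fun z w => w.2 ++ [decide (¬ E z.1 (w.2 ++ [false]))])
      (Primrec.list_append.comp (Primrec.snd.comp Primrec.snd) (Primrec.list_cons.comp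
        (h2.comp (Primrec.fst.comp Primrec.fst) (Primrec.snd.comp Primrec.snd))
        (Primrec.const []))).to₂).of_eq fun z => ?_
    induction z.2 with
    | zero => rfl
    | succ n ih => simp only [walk, ← ih]
  refine ⟨fun n => decide (¬ F (walk F n ++ [false])),
    fun s n => decide (¬ E s (walk (E s) n ++ [false])), h2.comp Primrec.fst hw, fun n => ?_,
    fun s n => ?_, fun n j j' hj => ?_⟩
  · filter_upwards [cv n, lim (walk F n ++ [false])] with s h1 h2
    rw [h1, decide_eq_decide, h2]
  · have := walk_pre F n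
    rw [this]
    obtain ⟨ρ, -, -, h⟩ := hF n s
    exact mono _ _ _ _ le_rfl h
  · have w1 : ∀ s m, pre ((fun s n => decide (¬ E s (walk (E s) n ++ [false]))) s) m =
        walk (E s) m := fun s m =>
      (congrArg (fun g => pre g m) (funext fun k => decide_eq_decide.2 Iff.rfl)).trans
        (walk_pre (E s) m)
    rw [walk_pre F n, w1, w1]
    clear w1
    induction n with
    | zero => exact fun _ => rfl
    | succ n ih =>
      intro h
      rw [walk, walk] at h
      have h3 := List.append_inj_left' h (by simp)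
      have h4 := List.append_inj_right' h (by simp)
      simp only [List.cons.injEq, decide_eq_decide, and_true] at h4
      have h5 := ih h3
      rw [walk, walk, h5, List.append_cancel_left_eq]
      rw [h3] at h4
      simp only [List.cons.injEq, decide_eq_decide, and_true]
      refine not_congr ⟨fun h6 => ?_, fun h6 => h6 j'⟩
      by_contra h7
      exact (h4.2 h7) (Em _ _ _ hj h6)


/-- The allowed loss of complexity. -/
def dd (i : ℕ) : ℕ := 2 * Nat.log 2 (i + 1) + 5

theorem dd_big (k : ℕ) : 4 * (k + 1) * (k + 2) ≤ 2 ^ dd (k + 1) := by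
  have h1 := Nat.lt_pow_succ_log_self one_lt_two (k + 2)
  rw [pow_succ] at h1
  rw [dd, pow_add, pow_mul', show k + 1 + 1 = k + 2 by omega]
  nlinarith

theorem many (U : Str →. Str) (k : ℕ) : ∃ G : Finset Str, 2 ^ k * (k + 2) ≤ G.card * (2 * (k + 1)) ∧
    ∀ σ ∈ G, σ.length = k ∧ ∀ i ≤ k, ∀ p : Str, p.length + dd i ≤ i → σ.take i ∉ U p := by
  classical
  induction k with
  | zero =>
    refine ⟨{[]}, by simp, ?_⟩
    simp [dd]
  | succ k ih =>
    obtain ⟨G, h1, h2⟩ := ih
    let H := (G ×ˢ (Finset.univ : Finset Bool)).image fun z => z.1 ++ [z.2]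
    have h3 : H.card = G.card * 2 := by
      rw [Finset.card_image_of_injOn, Finset.card_product]
      · rfl
      rintro ⟨σ, a⟩ hz ⟨τ, b⟩ hw e
      simp only [Finset.coe_product, Set.mem_prod, Finset.mem_coe] at hz hw
      have := List.append_inj e (by rw [(h2 _ hz.1).1, (h2 _ hw.1).1])
      simp only [List.cons.injEq, and_true] at this
      exact Prod.ext this.1 this.2
    let P : Str → Prop := fun σ => ∃ p, σ ∈ U p ∧ p.length + dd (k + 1) ≤ k + 1
    have h4 : (H.filter P).card * (2 * (k + 1) * (k + 2)) ≤ 2 ^ (k + 1) := by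
      rcases Nat.lt_or_ge (k + 1) (dd (k + 1)) with c | c
      · rw [Finset.card_eq_zero.2 (Finset.filter_eq_empty_iff.2 fun σ _ ⟨p, _, h⟩ => by omega)]
        simp
      · have h5 := few (D := U) (n := k + 1 - dd (k + 1)) (H.filter P) fun s hs => by
          obtain ⟨p, h6, h7⟩ := (Finset.mem_filter.1 hs).2
          exact ⟨p, h6, by omega⟩
        have h6 := dd_big k
        have h7 : 2 ^ (k + 1 - dd (k + 1) + 1) * 2 ^ dd (k + 1) = 2 ^ (k + 1) * 2 := by
          rw [← pow_add, ← pow_succ]
          congr 1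
          omega
        nlinarith [Nat.mul_le_mul h5.le h6]
    have h5 := Finset.card_sdiff_add_card_eq_card (Finset.filter_subset P H)
    refine ⟨H \ H.filter P, ?_, fun σ hσ => ?_⟩
    · set g := G.card
      set b := (H.filter P).card
      set m := (H \ H.filter P).card
      have e1 : m + b = g * 2 := by omega
      have e2 : m * (2 * (k + 1)) + b * (2 * (k + 1)) = g * (2 * (k + 1)) * 2 := by
        rw [← add_mul, e1]; ring
      have e3 : 2 ^ (k + 1) = 2 ^ k * 2 := pow_succ _ _
      have e4 : m * (2 * (k + 1)) * (k + 2) + b * (2 * (k + 1) * (k + 2)) =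
          g * (2 * (k + 1)) * 2 * (k + 2) := by rw [← e2]; ring
      have e5 : (2 ^ k * (k + 2)) * 2 * (k + 2) ≤ g * (2 * (k + 1)) * 2 * (k + 2) := by gcongr
      have e6 : 2 ^ (k + 1) * ((k + 2) * (k + 2)) ≤ m * (2 * (k + 1)) * (k + 2) + 2 ^ (k + 1) := by
        rw [e3]
        rw [e3] at h4
        nlinarith
      have e7 : 2 ^ (k + 1) * (k + 3) * (k + 1) ≤ m * (2 * (k + 2)) * (k + 1) := by
        have : 2 ^ (k + 1) * ((k + 2) * (k + 2)) = 2 ^ (k + 1) * (k + 3) * (k + 1) + 2 ^ (k + 1) := by
          ring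
        nlinarith
      have := Nat.le_of_mul_le_mul_right e7 (by omega)
      rw [show k + 1 + 2 = k + 3 by omega, show k + 1 + 1 = k + 2 by omega]
      exact this
    · obtain ⟨h6, h7⟩ := Finset.mem_sdiff.1 hσ
      replace h7 : ¬ P σ := fun c => h7 (Finset.mem_filter.2 ⟨h6, c⟩)
      obtain ⟨⟨τ, a⟩, hz, rfl⟩ := Finset.mem_image.1 h6
      have h8 := h2 τ (Finset.mem_product.1 hz).1
      refine ⟨by simp [h8.1], fun i hi p hp c => ?_⟩
      rcases Nat.le_succ_iff.1 hi with hi | rfl
      · rw [List.take_append_of_le_length (by have := h8.1; simp only at this ⊢; omega)] at c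
        exact h8.2 i hi p hp c
      · rw [List.take_of_length_le (by simp [h8.1])] at c
        exact h7 ⟨p, c, hp⟩

theorem log_prim : Primrec fun n : ℕ => Nat.log 2 n := by
  have h : PrimrecRel fun (n k : ℕ) => 2 ^ k ≤ n :=
    Primrec.nat_le.comp (pow2.comp Primrec.snd) Primrec.fst
  refine (Primrec.nat_findGreatest Primrec.id h).of_eq fun n => ?_
  rw [id]
  rcases Nat.eq_zero_or_pos n with rfl | hn
  · simp
  · refine (Nat.findGreatest_eq_iff).2 ⟨?_, fun _ => Nat.pow_log_le_self 2 hn.ne', ?_⟩
    · exact (Nat.log_lt_self 2 hn.ne').le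
    · intro k h1 _ h2
      exact absurd (Nat.le_log_of_pow_le one_lt_two h2) (not_le.2 h1)

theorem dd_prim : Primrec dd :=
  Primrec.nat_add.comp (Primrec.nat_double.comp (log_prim.comp Primrec.succ)) (Primrec.const 5)

theorem complex {U : Str →. Str} (hU : Partrec U) :
    ∃ (X : ℕ → Bool) (y : ℕ → ℕ → Bool), Primrec₂ y ∧ (∀ n, ∀ᶠ j in atTop, y j n = X n) ∧
      (∀ n j j', j ≤ j' → pre (y j) n = pre X n → pre (y j') n = pre X n) ∧
      ∀ i, ∀ p : Str, p.length + dd i ≤ i → pre X i ∉ U p := by
  obtain ⟨N, hN, Nm, Ns⟩ := approxC (U := fun p _ => U p) (hU.comp Computable.fst)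
  let R : ℕ → Str → Prop := fun s σ => ∀ i < σ.length + 1, ∀ p ∈ all i,
    i < p.length + dd i ∨ N s [] (p, σ.take i) = false
  have h1 : PrimrecRel fun (p : Str) (z : ℕ × ℕ × Str) =>
      z.1 < p.length + dd z.1 ∨ N z.2.1 [] (p, z.2.2.take z.1) = false := by
    have a1 : Primrec fun w : Str × ℕ × ℕ × Str => w.2.2.2 :=
      Primrec.snd.comp (Primrec.snd.comp Primrec.snd)
    have a2 : Primrec fun w : Str × ℕ × ℕ × Str => w.2.1 := Primrec.fst.comp Primrec.snd
    have a3 := hN.comp (((Primrec.fst.comp (Primrec.snd.comp Primrec.snd)).pair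
      (Primrec.const [])).pair (Primrec.fst.pair (Primrec.list_take.comp a2 a1)))
    exact (Primrec.nat_lt.comp a2 (Primrec.nat_add.comp (Primrec.list_length.comp Primrec.fst)
      (dd_prim.comp a2))).or (Primrec.eq.comp a3 (Primrec.const false))
  have h2 : PrimrecRel fun (i : ℕ) (z : ℕ × Str) => ∀ p ∈ all i,
      i < p.length + dd i ∨ N z.1 [] (p, z.2.take i) = false :=
    h1.forall_mem_list.comp (all_prim.comp Primrec.fst) Primrec.id
  have hR' := h2.forall_mem_list.comp (Primrec.list_range.comp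
    (Primrec.succ.comp (Primrec.list_length.comp Primrec.snd))) Primrec.id
  have hR : PrimrecRel R := PrimrecPred.of_eq hR' fun z => by
    simp only [List.mem_range, R, id]
  obtain ⟨X, y, h3, h4, h5, h6⟩ := path hR (fun s s' σ ρ h h3 i hi p hp => by
      have := h3 i (by simp; omega) p hp
      refine this.imp_right fun this => ?_
      rw [List.take_append_of_le_length (by omega)] at this
      by_contra c2
      rw [Nm s s' _ _ h (by simpa using c2)] at this
      simp at this)
    fun s => by
      obtain ⟨G, h3, h4⟩ := many U s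
      obtain ⟨σ, hσ⟩ := Finset.card_pos.1 (Nat.pos_of_mul_pos_right (lt_of_lt_of_le
        (by positivity) h3))
      obtain ⟨h5, h6⟩ := h4 σ hσ
      refine ⟨σ, h5, fun i hi p hp => ?_⟩
      by_cases c : i < p.length + dd i
      · exact Or.inl c
      · refine Or.inr (by
          by_contra c2
          exact h6 i (by omega) p (by omega) ((Ns [] _ _).2 ⟨s, by simpa using c2⟩))
  refine ⟨X, y, h3, h4, h6, fun i p hp c => ?_⟩
  obtain ⟨s, hs⟩ := (Ns [] _ _).1 c
  have := (h5 s i i (by rw [pre_len]; omega) p (mem_all.2 (by omega))).resolve_left (by omega)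
  rw [pre_take X le_rfl, hs] at this
  simp at this

end Pool.Agent.KS6_27.CK
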