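import Pool.Agent.KS6_27.CKa

set_option autoImplicit false

/-! Short descriptions relative to an infinite subset. -/

namespace Pool.Agent.KS6_27.CK

open Pool.Agent.H.MP_d04dff_lc Pool.Agent.H.MP_fa2eca_lc Pool.Agent.Lib.helper21 Filter

/-- The modulus used at the first difference `t`. -/
def qq (t : ℕ) : ℕ := 2 ^ Nat.log 2 (Nat.log 2 t)

theorem qq_dvd {t t' : ℕ} (h : t ≤ t') : qq t ∣ qq t' :=
  pow_dvd_pow 2 (Nat.log_mono_right (Nat.log_mono_right h))

theorem qq_pos (t : ℕ) : 0 < qq t := by unfold qq; positivity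

theorem qq_le (t : ℕ) : qq t ≤ max 1 (Nat.log 2 t) := by
  rcases Nat.eq_zero_or_pos (Nat.log 2 t) with h | h
  · simp [qq, h]
  · exact (Nat.pow_log_le_self 2 h.ne').trans (le_max_right _ _)

/-- The numbers and the string coded by a program. -/
def d1 (p : Str) : ℕ := (dec p).1
def d2 (p : Str) : ℕ := (dec (dec p).2).1
def d3 (p : Str) : ℕ := (dec (dec (dec p).2).2).1
def d4 (p : Str) : ℕ := (dec (dec (dec (dec p).2).2).2).1
def d5 (p : Str) : Str := (dec (dec (dec (dec p).2).2).2).2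

theorem d1_prim : Primrec d1 := Primrec.fst.comp dec_prim
theorem e1_prim : Primrec fun p : Str => (dec p).2 := Primrec.snd.comp dec_prim
theorem d2_prim : Primrec d2 := d1_prim.comp e1_prim
theorem d3_prim : Primrec d3 := d2_prim.comp e1_prim
theorem d4_prim : Primrec d4 := d3_prim.comp e1_prim
theorem d5_prim : Primrec d5 := e1_prim.comp (e1_prim.comp (e1_prim.comp e1_prim))

theorem code (n k q r : ℕ) (D : Str) : ∃ p : Str, d1 p = n ∧ d2 p = k ∧ d3 p = q ∧ d4 p = r ∧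
    d5 p = D ∧ p.length = D.length + 2 * (Nat.log 2 n + Nat.log 2 k + Nat.log 2 q + Nat.log 2 r) +
      12 := by
  obtain ⟨p4, h1, h2⟩ := dec_surj r D
  obtain ⟨p3, h3, h4⟩ := dec_surj q p4
  obtain ⟨p2, h5, h6⟩ := dec_surj k p3
  obtain ⟨p1, h7, h8⟩ := dec_surj n p2
  refine ⟨p1, ?_, ?_, ?_, ?_, ?_, by omega⟩ <;> simp [d1, d2, d3, d4, d5, h7, h5, h3, h1]

/-- The data read from a program and a stage. -/
def Cond (y : ℕ → ℕ → Bool) (p : Str) (t v : ℕ) : Prop :=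
  (0 < t ∧ Fn.tb v (t - 1) = true) ∧
    d5 p = ((List.range (d2 p)).filter fun s => !decide (s % d3 p = d4 p)).map
      (fun s => y (Nat.log 2 (t - 1)) s) ∧
    ∃ m ∈ List.range (t - 1), (Fn.tb v m = true ∧ m % d3 p = d4 p) ∧
      (∀ s ∈ List.range (d2 p), y (Nat.log 2 (t - 1)) s = y (Nat.log 2 m) s) ∧
      y (Nat.log 2 (t - 1)) (d2 p) ≠ y (Nat.log 2 m) (d2 p)

theorem cond_prim {y : ℕ → ℕ → Bool} (hy : Primrec₂ y) :
    PrimrecPred fun z : (Str × ℕ) × ℕ => Cond y z.1.1 z.1.2 z.2 := by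
  have p0 : Primrec fun z : (Str × ℕ) × ℕ => z.1.1 := Primrec.fst.comp Primrec.fst
  have t0 : Primrec fun z : (Str × ℕ) × ℕ => z.1.2 := Primrec.snd.comp Primrec.fst
  have m0 : Primrec fun z : (Str × ℕ) × ℕ => z.1.2 - 1 := Primrec.pred.comp t0
  have l0 : Primrec fun z : (Str × ℕ) × ℕ => Nat.log 2 (z.1.2 - 1) := log_prim.comp m0
  have c1 : PrimrecPred fun z : (Str × ℕ) × ℕ => 0 < z.1.2 ∧ Fn.tb z.2 (z.1.2 - 1) = true :=
    (Primrec.nat_lt.comp (Primrec.const 0) t0).and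
      (Primrec.eq.comp (Fn.tb_prim.comp Primrec.snd m0) (Primrec.const true))
  have c2 : PrimrecPred fun z : (Str × ℕ) × ℕ =>
      d5 z.1.1 = ((List.range (d2 z.1.1)).filter fun s => !decide (s % d3 z.1.1 = d4 z.1.1)).map
        (fun s => y (Nat.log 2 (z.1.2 - 1)) s) := by
    refine Primrec.eq.comp (d5_prim.comp p0) (Primrec.list_map (filt
      (Primrec.list_range.comp (d2_prim.comp p0)) ?_) (hy.comp (l0.comp Primrec.fst)
        Primrec.snd).to₂)
    have : PrimrecRel fun (z : (Str × ℕ) × ℕ) (s : ℕ) => s % d3 z.1.1 = d4 z.1.1 :=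
      Primrec.eq.comp (Primrec.nat_mod.comp Primrec.snd (d3_prim.comp (p0.comp Primrec.fst)))
        (d4_prim.comp (p0.comp Primrec.fst))
    exact (Primrec.not.comp this.decide).to₂
  have c3 : PrimrecRel fun (m : ℕ) (z : (Str × ℕ) × ℕ) => (Fn.tb z.2 m = true ∧
      m % d3 z.1.1 = d4 z.1.1) ∧
      (∀ s ∈ List.range (d2 z.1.1), y (Nat.log 2 (z.1.2 - 1)) s = y (Nat.log 2 m) s) ∧
      y (Nat.log 2 (z.1.2 - 1)) (d2 z.1.1) ≠ y (Nat.log 2 m) (d2 z.1.1) := by
    have b1 : PrimrecPred fun w : ℕ × (Str × ℕ) × ℕ => Fn.tb w.2.2 w.1 = true ∧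
        w.1 % d3 w.2.1.1 = d4 w.2.1.1 :=
      (Primrec.eq.comp (Fn.tb_prim.comp (Primrec.snd.comp Primrec.snd) Primrec.fst)
        (Primrec.const true)).and (Primrec.eq.comp (Primrec.nat_mod.comp Primrec.fst
          (d3_prim.comp (p0.comp Primrec.snd))) (d4_prim.comp (p0.comp Primrec.snd)))
    have b2 : PrimrecRel fun (s : ℕ) (w : ℕ × (Str × ℕ) × ℕ) =>
        y (Nat.log 2 (w.2.1.2 - 1)) s = y (Nat.log 2 w.1) s :=
      Primrec.eq.comp (hy.comp (l0.comp (Primrec.snd.comp Primrec.snd)) Primrec.fst)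
        (hy.comp (log_prim.comp (Primrec.fst.comp Primrec.snd)) Primrec.fst)
    have b3 : PrimrecPred fun w : ℕ × (Str × ℕ) × ℕ => ∀ s ∈ List.range (d2 w.2.1.1),
        y (Nat.log 2 (w.2.1.2 - 1)) s = y (Nat.log 2 w.1) s :=
      b2.forall_mem_list.comp (Primrec.list_range.comp (d2_prim.comp (p0.comp Primrec.snd)))
        Primrec.id
    have b4 : PrimrecPred fun w : ℕ × (Str × ℕ) × ℕ =>
        y (Nat.log 2 (w.2.1.2 - 1)) (d2 w.2.1.1) ≠ y (Nat.log 2 w.1) (d2 w.2.1.1) :=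
      (Primrec.eq.comp (hy.comp (l0.comp Primrec.snd) (d2_prim.comp (p0.comp Primrec.snd)))
        (hy.comp (log_prim.comp Primrec.fst) (d2_prim.comp (p0.comp Primrec.snd)))).not
    exact b1.and (b3.and b4)
  exact c1.and (c2.and (c3.exists_mem_list.comp (Primrec.list_range.comp m0) Primrec.id))

end Pool.Agent.KS6_27.CK
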