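import Pool.Agent.KS6_27.CKb

set_option autoImplicit false

/-! Short descriptions relative to an infinite subset: the main estimate. -/

namespace Pool.Agent.KS6_27.CK

open Pool.Agent.H.MP_d04dff_lc Pool.Agent.H.MP_fa2eca_lc Pool.Agent.Lib.helper21 Filter

theorem pre_eq {X Z : ℕ → Bool} {n : ℕ} : pre Z n = pre X n ↔ ∀ s < n, Z s = X s := by
  rw [pre, pre, List.map_inj_left]
  simp only [List.mem_range]

theorem card_mod {k q r : ℕ} (hq : 0 < q) (hr : r < q) :
    ((List.range k).filter fun s => !decide (s % q = r)).length ≤ k - k / q := by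
  have h1 : ((List.range k).filter fun s => decide (s % q = r)).length +
      ((List.range k).filter fun s => !decide (s % q = r)).length = k := by
    have := List.length_eq_length_filter_add (l := List.range k) fun s => decide (s % q = r)
    simpa using this.symm
  have h2 : k / q ≤ ((List.range k).filter fun s => decide (s % q = r)).length := by
    have h3 := Nat.count_modEq_card (r := q) k hq r
    rw [Nat.count_eq_card_filter_range] at h3
    have h4 : ((List.range k).filter fun s => decide (s % q = r)).length =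
        ((Finset.range k).filter fun s => s ≡ r [MOD q]).card := by
      rw [Finset.card_def, Finset.filter_val, Finset.range_val, ← Multiset.coe_range,
        Multiset.filter_coe, Multiset.coe_card]
      congr 2
      funext s
      simp [Nat.ModEq, Nat.mod_eq_of_lt hr]
    omega
  omega

section
variable {X : ℕ → Bool} {y : ℕ → ℕ → Bool} (nd : ∀ j, ∃ n, y j n ≠ X n)

open Classical in
/-- The first difference of `y j` and `X`. -/
noncomputable def T (j : ℕ) : ℕ := Nat.find (nd j)

theorem T_spec (j : ℕ) : y j (T nd j) ≠ X (T nd j) := by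
  classical
  exact Nat.find_spec (nd j)

theorem le_T {j n : ℕ} : n ≤ T nd j ↔ ∀ s < n, y j s = X s := by
  classical
  rw [T, Nat.le_find_iff]
  simp only [ne_eq, not_not]

theorem T_mono (mo : ∀ n j j', j ≤ j' → pre (y j) n = pre X n → pre (y j') n = pre X n) :
    Monotone (T nd) := fun j j' h => by
  rw [le_T, ← pre_eq]
  exact mo _ _ _ h (pre_eq.2 ((le_T nd).1 le_rfl))

theorem T_tend (cv : ∀ n, ∀ᶠ j in atTop, y j n = X n) : Tendsto (T nd) atTop atTop := by
  refine tendsto_atTop.2 fun n => ?_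
  have : ∀ᶠ j in atTop, ∀ s ∈ Finset.range n, y j s = X s :=
    (Finset.eventually_all _).2 fun s _ => cv s
  filter_upwards [this] with j hj
  exact (le_T nd).2 fun s hs => hj s (Finset.mem_range.2 hs)

theorem log_tend : Tendsto (Nat.log 2) atTop atTop := by
  refine tendsto_atTop.2 fun n => ?_
  filter_upwards [eventually_ge_atTop (2 ^ n)] with m hm
  exact Nat.le_log_of_pow_le one_lt_two hm

theorem short (hy : Primrec₂ y) (cv : ∀ n, ∀ᶠ j in atTop, y j n = X n)
    (mo : ∀ n j j', j ≤ j' → pre (y j) n = pre X n → pre (y j') n = pre X n)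
    {B : ℕ → Bool} (hi : {m | B m = true}.Infinite)
    (hB : ∀ m, B m = true → m % qq (T nd (Nat.log 2 m)) ≠
      T nd (Nat.log 2 m) % qq (T nd (Nat.log 2 m)))
    {W : Str →. Str} (hW : ∀ f : Str → ℕ → ℕ → Option Str,
      (Primrec fun z : (Str × ℕ) × ℕ => f z.1.1 z.1.2 z.2) →
      ∃ c, Best W (fun a => Nat.rfindOpt fun t => f a t (Fn.cd B t)) c) :
    ∃ c n₀, ∀ n ≥ n₀, ∃ k < n, K W (pre X n) ≤ (k - k / qq k) + 8 * Nat.log 2 n + c := by
  classical
  let f : Str → ℕ → ℕ → Option Str := fun p t v =>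
    if Cond y p t v then some (pre (y (Nat.log 2 (t - 1))) (d1 p)) else none
  have t0 : Primrec fun z : (Str × ℕ) × ℕ => Nat.log 2 (z.1.2 - 1) :=
    log_prim.comp (Primrec.pred.comp (Primrec.snd.comp Primrec.fst))
  have hf : Primrec fun z : (Str × ℕ) × ℕ => f z.1.1 z.1.2 z.2 :=
    Primrec.ite (cond_prim hy) (Primrec.option_some.comp (Primrec.list_map (Primrec.list_range.comp
      (d1_prim.comp (Primrec.fst.comp Primrec.fst))) (hy.comp (t0.comp Primrec.fst)
        Primrec.snd).to₂)) (Primrec.const none)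
  obtain ⟨c, hc⟩ := hW f hf
  obtain ⟨m₀, hm₀⟩ := hi.nonempty
  refine ⟨c + 12, T nd (Nat.log 2 m₀) + 1, fun n hn => ?_⟩
  have Tl : ∀ {m m'}, m ≤ m' → T nd (Nat.log 2 m) ≤ T nd (Nat.log 2 m') := fun h =>
    T_mono nd mo (Nat.log_mono_right h)
  -- the last element of `B` with first difference below `n`
  obtain ⟨M, hM⟩ := eventually_atTop.1 ((((T_tend nd cv).comp log_tend)).eventually_ge_atTop n)
  let P : ℕ → Prop := fun m => B m = true ∧ T nd (Nat.log 2 m) < n
  have hmM : ∀ m, P m → m ≤ M := fun m hm => by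
    by_contra c
    have := hM m (by omega)
    simp only [Function.comp] at this
    exact absurd hm.2 (by omega)
  have hP0 : P m₀ := ⟨hm₀, by omega⟩
  set a := Nat.findGreatest P M with ha
  have haP : P a := Nat.findGreatest_spec (hmM _ hP0) hP0
  have hmax : ∀ m, P m → m ≤ a := fun m hm => Nat.le_findGreatest (hmM _ hm) hm
  obtain ⟨b, hab, hbB, hmin⟩ : ∃ b, a < b ∧ B b = true ∧ ∀ m, a < m → B m = true → b ≤ m := by
    have h : ∃ b, a < b ∧ B b = true := by
      obtain ⟨b, h1, h2⟩ := hi.exists_gt a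
      exact ⟨b, h2, h1⟩
    exact ⟨Nat.find h, (Nat.find_spec h).1, (Nat.find_spec h).2, fun m h1 h2 =>
      Nat.find_min' h ⟨h1, h2⟩⟩
  have hbn : n ≤ T nd (Nat.log 2 b) := by
    by_contra c
    have := hmax b ⟨hbB, by omega⟩
    omega
  set k := T nd (Nat.log 2 a) with hk
  have hkn : k < n := haP.2
  set q := qq k with hq
  have q0 : 0 < q := qq_pos k
  obtain ⟨p, p1, p2, p3, p4, p5, p6⟩ := code n k q (a % q)
    (((List.range k).filter fun s => !decide (s % q = a % q)).map X)
  refine ⟨k, hkn, ?_⟩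
  -- the search stops
  have stop : (f p (b + 1) (Fn.cd B (b + 1))).isSome = true := by
    have : Cond y p (b + 1) (Fn.cd B (b + 1)) := by
      refine ⟨⟨by omega, ?_⟩, ?_, a, List.mem_range.2 (by omega), ⟨?_, ?_⟩, fun s hs => ?_, ?_⟩
      · rw [Nat.add_sub_cancel, Fn.tb_cd _ _ _ (by omega), hbB]
      · rw [p5, p2, p3, p4, Nat.add_sub_cancel]
        refine List.map_congr_left fun s hs => ?_
        have := List.mem_range.1 (List.mem_filter.1 hs).1
        exact ((le_T nd).1 hbn s (by omega)).symm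
      · rw [Fn.tb_cd _ _ _ (by omega), haP.1]
      · rw [p3, p4]
      · rw [p2, List.mem_range] at hs
        rw [Nat.add_sub_cancel, (le_T nd).1 hbn s (by omega), (le_T nd).1 hk.le s hs]
      · rw [p2, Nat.add_sub_cancel, (le_T nd).1 hbn k (by omega)]
        exact (T_spec nd (Nat.log 2 a)).symm
    simp only [f, if_pos this, Option.isSome_some]
  obtain ⟨s, hs⟩ := Part.dom_iff_mem.1 ((Nat.rfindOpt_dom (f := fun t => f p t (Fn.cd B t))).2
    ⟨b + 1, Option.isSome_iff_exists.1 stop |>.choose, Option.isSome_iff_exists.1 stop |>.choose_spec⟩)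
  have hs' := hs
  rw [Nat.rfindOpt, Part.mem_bind_iff] at hs'
  obtain ⟨t, ht, hst⟩ := hs'
  replace ht := Nat.mem_rfind.1 ht
  have htb : t ≤ b + 1 := by
    by_contra c
    have := ht.2 (m := b + 1) (by omega)
    simp only [Part.coe_some, Part.mem_some_iff, stop] at this
    exact absurd this (by simp)
  simp only [Part.mem_coe, Option.mem_def] at hst
  have hC : Cond y p t (Fn.cd B t) := by
    by_contra c
    simp only [f, if_neg c] at hst
    exact absurd hst (by simp)
  simp only [f, if_pos hC, Option.some.injEq] at hst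
  obtain ⟨⟨t1, t2⟩, t3, m, t4, ⟨t5, t6⟩, t7, t8⟩ := hC
  rw [p5, p2, p3, p4] at t3
  rw [p3, p4] at t6
  rw [p2] at t7 t8
  rw [List.mem_range] at t4
  rw [Fn.tb_cd _ _ _ (by omega)] at t2 t5
  set m' := t - 1 with hm'
  have hma : m ≤ a := by
    by_contra c
    have := hmin m (by omega) t5
    omega
  have hTk : T nd (Nat.log 2 m) ≤ k := Tl hma
  have hTm : T nd (Nat.log 2 m) = k := by
    by_contra c
    set u := T nd (Nat.log 2 m) with hu
    have hu1 : u < k := by omega
    have hu2 : y (Nat.log 2 m) u ≠ X u := T_spec nd _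
    by_cases hur : u % q = a % q
    · have h1 : qq u ∣ q := qq_dvd hu1.le
      refine hB m t5 ?_
      rw [← hu]
      have h2 : m ≡ u [MOD q] := by rw [Nat.ModEq, t6, hur]
      exact h2.of_dvd h1
    · have h3 := List.map_inj_left.1 t3 u (List.mem_filter.2 ⟨List.mem_range.2 hu1, by simpa using hur⟩)
      have h4 := t7 u (List.mem_range.2 hu1)
      exact hu2 (by rw [← h4, ← h3])
  have h5 : k + 1 ≤ T nd (Nat.log 2 m') := by
    refine (le_T nd).2 fun i hi => ?_
    rcases Nat.lt_succ_iff_lt_or_eq.1 hi with hi | hi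
    · rw [t7 i (List.mem_range.2 hi)]
      exact (le_T nd).1 hTm.ge i hi
    · rw [hi]
      have h6 : y (Nat.log 2 m) k ≠ X k := by
        have := T_spec nd (Nat.log 2 m)
        rwa [hTm] at this
      revert h6 t8
      cases y (Nat.log 2 m) k <;> cases y (Nat.log 2 m') k <;> cases X k <;> simp
  have h6 : b ≤ m' := by
    refine hmin m' ?_ t2
    by_contra c
    have := Tl (m := m') (m' := a) (by omega)
    omega
  have h7 : m' = b := by omega
  rw [h7, p1, pre_eq.2 ((le_T nd).1 hbn)] at hst
  have h8 := hc.le hs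
  rw [← hst] at h8
  rw [p6, List.length_map] at h8
  have h9 := card_mod (k := k) q0 (Nat.mod_lt a q0)
  have l1 : Nat.log 2 k ≤ Nat.log 2 n := Nat.log_mono_right hkn.le
  have hqn : q ≤ n := (qq_le k).trans (max_le (by omega) (((Nat.log_le_self 2 k)).trans hkn.le))
  have l2 : Nat.log 2 q ≤ Nat.log 2 n := Nat.log_mono_right hqn
  have l3 : Nat.log 2 (a % q) ≤ Nat.log 2 n := Nat.log_mono_right ((Nat.mod_lt a q0).le.trans hqn)
  rw [← hq]
  omega

end

end Pool.Agent.KS6_27.CK
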