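import Pool.Agent.KS6_27.CKc

set_option autoImplicit false

/-! The density of the set, and the final inequality. -/

namespace Pool.Agent.KS6_27.CK

open Filter Topology

theorem sq_le_pow (C : ℕ) : ∀ᶠ L : ℕ in atTop, (10 * L + C) ^ 2 ≤ 2 ^ L := by
  have h := tendsto_pow_const_div_const_pow_of_one_lt 2 (r := (2 : ℝ)) one_lt_two
  filter_upwards [h.eventually (gt_mem_nhds (show (0 : ℝ) < 1 / 121 by norm_num)),
    eventually_ge_atTop C] with L hL hC
  rw [div_lt_iff₀ (by positivity)] at hL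
  have h2 : ((10 * L + C : ℕ) : ℝ) ^ 2 ≤ (11 * L : ℝ) ^ 2 := by
    have : ((10 * L + C : ℕ) : ℝ) ≤ 11 * L := by exact_mod_cast (by omega : 10 * L + C ≤ 11 * L)
    exact pow_le_pow_left₀ (by positivity) this 2
  have h3 : ((10 * L + C : ℕ) : ℝ) ^ 2 ≤ 2 ^ L := by nlinarith
  exact_mod_cast h3

theorem sqrt_ge (C : ℕ) : ∀ᶠ n : ℕ in atTop, 10 * Nat.log 2 n + C ≤ Nat.sqrt n := by
  filter_upwards [log_tend.eventually (sq_le_pow C), eventually_gt_atTop 0] with n hn h0
  refine Nat.le_sqrt'.2 (hn.trans (Nat.pow_log_le_self 2 h0.ne'))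

theorem final (C : ℕ) : ∀ᶠ n : ℕ in atTop, ∀ k < n,
    (k - k / qq k) + 10 * Nat.log 2 n + C + Nat.sqrt n < n := by
  filter_upwards [sqrt_ge (C + 1), eventually_ge_atTop 36] with n h1 h2 k hk
  have hs : Nat.sqrt n * Nat.sqrt n ≤ n := Nat.sqrt_le n
  have hs6 : 6 ≤ Nat.sqrt n := Nat.le_sqrt.2 h2
  have hL : 1 ≤ Nat.log 2 n := Nat.le_log_of_pow_le one_lt_two (by omega)
  set s := Nat.sqrt n
  set L := Nat.log 2 n
  have h5 : 6 * s ≤ n := (Nat.mul_le_mul_right s hs6).trans hs
  rcases Nat.lt_or_ge (2 * k) n with c | c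
  · have : k - k / qq k ≤ k := Nat.sub_le _ _
    omega
  · have q1 : qq k ≤ L := (qq_le k).trans (max_le hL (Nat.log_mono_right hk.le))
    have h6 : 10 * L + C + s ≤ k / qq k := by
      rw [Nat.le_div_iff_mul_le (qq_pos k)]
      refine (Nat.mul_le_mul (show 10 * L + C + s ≤ 2 * s by omega) q1).trans ?_
      have : 4 * L ≤ s := by omega
      have : 4 * L * s ≤ s * s := Nat.mul_le_mul_right s this
      nlinarith
    have h7 : k / qq k ≤ k := Nat.div_le_self _ _
    omega

theorem bad_le {T : ℕ → ℕ} (hT : Tendsto T atTop atTop) (e : ℕ) : ∃ c, ∀ n,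
    ((Finset.range n).filter fun m => m % qq (T (Nat.log 2 m)) =
      T (Nat.log 2 m) % qq (T (Nat.log 2 m))).card ≤ n / 2 ^ e + c := by
  classical
  obtain ⟨j₀, hj⟩ := eventually_atTop.1 ((((log_tend.comp log_tend).comp hT)).eventually_ge_atTop e)
  set J := max j₀ e with hJ
  refine ⟨1 + 2 ^ J, fun n => ?_⟩
  set Q := 2 ^ e with hQ
  have hQ0 : 0 < Q := by positivity
  have h1 : ((Finset.range n).filter fun m => m % qq (T (Nat.log 2 m)) =
      T (Nat.log 2 m) % qq (T (Nat.log 2 m))) ⊆ Finset.range (2 ^ J) ∪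
      ((Finset.range n).filter fun m => 2 ^ J ≤ m ∧ m % qq (T (Nat.log 2 m)) =
      T (Nat.log 2 m) % qq (T (Nat.log 2 m))) := fun m hm => by
    rw [Finset.mem_filter] at hm
    rw [Finset.mem_union, Finset.mem_range, Finset.mem_filter]
    rcases Nat.lt_or_ge m (2 ^ J) with c | c
    · exact Or.inl c
    · exact Or.inr ⟨hm.1, c, hm.2⟩
  have h2 : ((Finset.range n).filter fun m => 2 ^ J ≤ m ∧ m % qq (T (Nat.log 2 m)) =
      T (Nat.log 2 m) % qq (T (Nat.log 2 m))).card ≤ n / Q + 1 := by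
    conv_rhs => rw [← Finset.card_range (n / Q + 1)]
    refine Finset.card_le_card_of_injOn (fun m => m / Q) (fun m hm => ?_) fun m hm m' hm' h => ?_
    · rw [Finset.mem_coe, Finset.mem_filter, Finset.mem_range] at hm
      rw [Finset.mem_coe, Finset.mem_range]
      exact Nat.lt_succ_of_le (Nat.div_le_div_right hm.1.le)
    · rw [Finset.mem_coe, Finset.mem_filter] at hm hm'
      have e1 : ∀ m, 2 ^ J ≤ m → J ≤ Nat.log 2 m := fun m hm =>
        Nat.le_log_of_pow_le one_lt_two hm
      have a1 := e1 m hm.2.1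
      have a2 := e1 m' hm'.2.1
      have a3 : Nat.log 2 m = Nat.log 2 m' := by
        have b1 := Nat.log_div_base_pow 2 m e
        have b2 := Nat.log_div_base_pow 2 m' e
        simp only at h
        rw [h, b2] at b1
        have : e ≤ J := le_max_right _ _
        omega
      have a4 : Q ∣ qq (T (Nat.log 2 m)) := pow_dvd_pow 2 (hj _ ((le_max_left _ _).trans a1))
      have a5 : m ≡ T (Nat.log 2 m) [MOD Q] := Nat.ModEq.of_dvd a4 hm.2.2
      have a6 : m' ≡ T (Nat.log 2 m) [MOD Q] := by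
        have := hm'.2.2
        rw [← a3] at this
        exact Nat.ModEq.of_dvd a4 this
      have a7 : m % Q = m' % Q := a5.trans a6.symm
      rw [← Nat.div_add_mod m Q, ← Nat.div_add_mod m' Q, a7]
      simp only at h
      rw [h]
  have h3 := (Finset.card_le_card h1).trans (Finset.card_union_le _ _)
  rw [Finset.card_range] at h3
  omega

theorem dens {T : ℕ → ℕ} (hT : Tendsto T atTop atTop) {A : ℕ → Bool}
    (hA : ∀ m, A m = true ↔ m % qq (T (Nat.log 2 m)) ≠
      T (Nat.log 2 m) % qq (T (Nat.log 2 m))) :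
    Tendsto (fun n : ℕ => (((Finset.range n).filter fun m => A m = true).card : ℝ) / n)
      atTop (𝓝 1) := by
  classical
  have h1 : ∀ n : ℕ, (((Finset.range n).filter fun m => A m = true).card : ℝ) +
      (((Finset.range n).filter fun m => m % qq (T (Nat.log 2 m)) =
      T (Nat.log 2 m) % qq (T (Nat.log 2 m))).card : ℝ) = n := fun n => by
    have := Finset.card_filter_add_card_filter_not (s := Finset.range n) fun m => A m = true
    rw [Finset.card_range] at this
    have e : ((Finset.range n).filter fun m => ¬ A m = true) =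
        ((Finset.range n).filter fun m => m % qq (T (Nat.log 2 m)) =
      T (Nat.log 2 m) % qq (T (Nat.log 2 m))) := by
      refine Finset.filter_congr fun m _ => ?_
      rw [hA]
      exact not_not
    rw [e] at this
    exact_mod_cast this
  have h2 : Tendsto (fun n : ℕ => (((Finset.range n).filter fun m => m % qq (T (Nat.log 2 m)) =
      T (Nat.log 2 m) % qq (T (Nat.log 2 m))).card : ℝ) / n) atTop (𝓝 0) := by
    rw [Metric.tendsto_nhds]
    intro ε hε
    obtain ⟨e, he⟩ := exists_pow_lt_of_lt_one (half_pos hε) (show (1 / 2 : ℝ) < 1 by norm_num)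
    obtain ⟨c, hc⟩ := bad_le hT e
    have h3 : Tendsto (fun n : ℕ => (c : ℝ) / n) atTop (𝓝 0) :=
      tendsto_const_div_atTop_nhds_zero_nat _
    filter_upwards [h3.eventually (gt_mem_nhds (half_pos hε)), eventually_gt_atTop 0] with n hn h0
    have n0 : (0 : ℝ) < n := by exact_mod_cast h0
    rw [Real.dist_eq, sub_zero, abs_of_nonneg (by positivity)]
    have h4 : ((((Finset.range n).filter fun m => m % qq (T (Nat.log 2 m)) =
      T (Nat.log 2 m) % qq (T (Nat.log 2 m))).card : ℕ) : ℝ) ≤ (n : ℝ) / 2 ^ e + c := by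
      refine le_trans (by exact_mod_cast hc n : _ ≤ (((n / 2 ^ e + c : ℕ) : ℕ) : ℝ)) ?_
      push_cast
      gcongr
      have := @Nat.cast_div_le ℝ _ _ _ n (2 ^ e)
      push_cast at this
      exact this
    rw [div_lt_iff₀ n0]
    rw [div_lt_iff₀ n0] at hn
    have h5 : (n : ℝ) / 2 ^ e < ε / 2 * n := by
      rw [div_eq_mul_inv, mul_comm]
      refine mul_lt_mul_of_pos_right ?_ n0
      rwa [one_div, inv_pow] at he
    linarith
  have h3 : Tendsto (fun n : ℕ => (1 : ℝ) - (((Finset.range n).filter fun m =>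
      m % qq (T (Nat.log 2 m)) = T (Nat.log 2 m) % qq (T (Nat.log 2 m))).card : ℝ) / n)
      atTop (𝓝 (1 - 0)) := tendsto_const_nhds.sub h2
  rw [sub_zero] at h3
  refine h3.congr' ?_
  filter_upwards [eventually_gt_atTop 0] with n h0
  have n0 : (n : ℝ) ≠ 0 := by exact_mod_cast h0.ne'
  have := h1 n
  field_simp
  linarith

end Pool.Agent.KS6_27.CK
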