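import Mathlib
import Pool.Graph.R_seed8.Y563.BC.Bool

set_option autoImplicit false

/-!
# Boolean combinations of `Σ⁰_n` sets and partitions of exponent `n`, for all `n ≥ 2`

The library has the case `n ≥ 3`; the same argument works for `n = 2`.
-/

namespace Pool.Agent.KS6_27.CO

open Pool.Agent.Helper344.Coh1 Pool.Agent.Helper344.Coh2 Pool.Agent.Helper344.Coh3
open Pool.Agent.Results.MP_c357a0_lc.NoPiNCohesive Pool.Agent.Y563.BC

/-- The core: the infinite set of the `x` with `∀ k, ⟨x, k⟩ ∈ T` and `∃ k, ⟨x, k⟩ ∈ R` is not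
almost homogeneous for some computable partition of exponent `m + 2`, if `T` and `R` have
computable approximations with `m + 2` limits. -/
theorem core (m : ℕ) (T R A : Set ℕ) (hT : Approx (m + 1) T) (hR : Approx (m + 1) R)
    (hA : ∀ x, x ∈ A ↔ (∀ k, Nat.pair x k ∈ T) ∧ (∃ k, Nat.pair x k ∈ R)) (hinf : A.Infinite) :
    ∃ C, IsCompPartition (m + 2) C ∧ ¬ AlmostHomogeneous (m + 2) A C := by
  classical
  obtain ⟨gT, hgT, hlimT⟩ := hT
  obtain ⟨gR, hgR, hlimR⟩ := hR
  refine ⟨partC (colN gT gR) (m + 2), partC_comp _ (comp_colN gT gR hgT hgR) _, ?_⟩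
  rintro ⟨F, hF⟩
  set H : Set ℕ := A \ (F : Set ℕ) with hH
  have hHinf : H.Infinite := hinf.sdiff F.finite_toSet
  let t : ℕ → Bool := fun z => decide (z ∈ T)
  let r : ℕ → Bool := fun z => decide (z ∈ R)
  let D : ℕ → ℕ → Bool := DD t r
  let A' : Set ℕ := {i | ∀ s, i < s → alOf D s i = true}
  have hA' : ∀ i, i ∈ A' ↔ (i ∈ R ∧ ∀ y < i.unpair.2, Nat.pair i.unpair.1 y ∉ R) ∧
      ∀ k, Nat.pair i.unpair.1 k ∈ T := by
    intro i
    constructor
    · intro h
      have h1 : ∀ k, DD t r i k = true := by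
        intro k
        have h2 := h (max i k + 1) (by omega)
        rw [alOf_iff] at h2
        exact h2.2 k (by omega)
      have h3 := (DD_iff t r i 0).1 (h1 0)
      refine ⟨⟨by simpa [r] using h3.1.1, fun y hy => by simpa [r] using h3.1.2 y hy⟩, ?_⟩
      intro k
      have h4 := (DD_iff t r i k).1 (h1 k)
      simpa [t] using h4.2
    · rintro ⟨⟨h1, h2⟩, h3⟩ s hs
      rw [alOf_iff]
      refine ⟨hs, fun k _ => ?_⟩
      change DD t r i k = true
      rw [DD_iff]
      exact ⟨⟨by simpa [r] using h1, fun y hy => by simpa [r] using h2 y hy⟩,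
        by simpa [t] using h3 k⟩
  have hA'A : ∀ i ∈ A', i.unpair.1 ∈ A := by
    intro i hi
    obtain ⟨⟨h1, -⟩, h3⟩ := (hA' i).1 hi
    rw [hA]
    exact ⟨h3, i.unpair.2, by rw [Nat.pair_unpair]; exact h1⟩
  have hinj : ∀ i ∈ A', ∀ j ∈ A', i.unpair.1 = j.unpair.1 → i = j := by
    intro i hi j hj hij
    obtain ⟨⟨h1, h2⟩, -⟩ := (hA' i).1 hi
    obtain ⟨⟨h3, h4⟩, -⟩ := (hA' j).1 hj
    have h5 : i.unpair.2 = j.unpair.2 := by
      rcases lt_trichotomy i.unpair.2 j.unpair.2 with h | h | h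
      · exfalso
        apply h4 _ h
        rw [← hij, Nat.pair_unpair]
        exact h1
      · exact h
      · exfalso
        apply h2 _ h
        rw [hij, Nat.pair_unpair]
        exact h3
    rw [← Nat.pair_unpair i, ← Nat.pair_unpair j, hij, h5]
  have hsurj : ∀ x ∈ A, ∃ i ∈ A', i.unpair.1 = x := by
    intro x hx
    obtain ⟨h1, h2⟩ := (hA x).1 hx
    refine ⟨Nat.pair x (Nat.find h2), ?_, by simp⟩
    rw [hA']
    simp only [Nat.unpair_pair]
    exact ⟨⟨Nat.find_spec h2, fun y hy => Nat.find_min h2 hy⟩, h1⟩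
  have hA'inf : A'.Infinite := by
    intro hfin
    apply hinf
    refine (hfin.image (fun i => i.unpair.1)).subset ?_
    intro x hx
    obtain ⟨i, hi, hix⟩ := hsurj x hx
    exact ⟨i, hi, hix⟩
  -- indices whose first component lies in `F` are bounded
  obtain ⟨M, hM⟩ : ∃ M, ∀ i ∈ A', M < i → i.unpair.1 ∉ (F : Set ℕ) := by
    have hfin : {i | i ∈ A' ∧ i.unpair.1 ∈ (F : Set ℕ)}.Finite := by
      apply Set.Finite.of_finite_image (f := fun i : ℕ => i.unpair.1)
      · refine F.finite_toSet.subset ?_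
        rintro _ ⟨i, hi, rfl⟩
        exact hi.2
      · intro i hi j hj hij
        exact hinj i hi.1 j hj.1 hij
    obtain ⟨M, hM⟩ := hfin.bddAbove
    refine ⟨M, fun i hi hlt hmem => ?_⟩
    have := hM ⟨hi, hmem⟩
    omega
  obtain ⟨s, u, v, huv, hne, huA, hvA, hMu, hMv⟩ :=
    exists_pair (alOf D) (alOf_alive D) A' hA'inf (fun x => Iff.rfl) M
  have huH : u.unpair.1 ∈ H := ⟨hA'A u huA, hM u huA hMu⟩
  have hvH : v.unpair.1 ∈ H := ⟨hA'A v hvA, hM v hvA hMv⟩
  set N : ℕ := s * s + s + u + v + 2 with hN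
  have hL1 : IterLim (m + 1) (fun l => ∀ i < N, (gT l i = true ↔ i ∈ T)) :=
    IterLim.forall_lt (p := fun i l => (gT l i = true ↔ i ∈ T)) N hlimT
  have hL1' : IterLim (m + 1) (fun l => ∀ i < N, (gR l i = true ↔ i ∈ R)) :=
    IterLim.forall_lt (p := fun i l => (gR l i = true ↔ i ∈ R)) N hlimR
  have hL2 : IterLim (m + 1) (fun l => N ≤ l.headI) :=
    ⟨N, fun y hy => IterLim.of_forall (fun l => by simpa using hy)⟩
  obtain ⟨l, hlen, hlp, hlH, ⟨hl1, hl1'⟩, hl2⟩ :=
    ((hL1.and hL1').and hL2).exists_list H hHinf (max u.unpair.1 v.unpair.1)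
  have hgt : ∀ z < N, gT l z = t z := by
    intro z hz
    rw [Bool.eq_iff_iff, hl1 z hz]
    simp [t]
  have hgr : ∀ z < N, gR l z = r z := by
    intro z hz
    rw [Bool.eq_iff_iff, hl1' z hz]
    simp [r]
  have hDD : ∀ x < s, ∀ k < s, DD (gT l) (gR l) x k = D x k :=
    DD_congr _ _ _ _ s (fun z hz => hgt z (by omega)) (fun z hz => hgr z (by omega))
  have hrun : run (alOf (DD (gT l) (gR l))) s = run (alOf D) s :=
    run_congr _ _ s (alOf_congr _ _ s hDD)
  have hcol := col_ne (alOf (DD (gT l) (gR l))) (alOf_alive _) s u v hne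
    (by rw [hrun]; exact huv) l.headI (by omega)
  rw [← colT_eq, ← colT_eq] at hcol
  -- the index computed from `l` is right
  have hidx : ∀ w ∈ A', w ≤ u + v → idx (gR l) l.headI w.unpair.1 = w := by
    intro w hw hwle
    obtain ⟨⟨h1, h2⟩, -⟩ := (hA' w).1 hw
    have h5 : w.unpair.2 ≤ w := Nat.unpair_right_le w
    have h6 : ∀ y ≤ w.unpair.2, Nat.pair w.unpair.1 y ≤ w := by
      intro y hy
      rcases Nat.lt_or_eq_of_le hy with h | h
      · have h7 := Nat.pair_lt_pair_right w.unpair.1 h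
        rw [Nat.pair_unpair] at h7
        omega
      · rw [h, Nat.pair_unpair]
    unfold idx
    rw [least_spec (fun y => gR l (Nat.pair w.unpair.1 y)) w.unpair.2 ?_ ?_ l.headI (by omega),
      Nat.pair_unpair]
    · change gR l (Nat.pair w.unpair.1 w.unpair.2) = true
      rw [Nat.pair_unpair, hgr w (by omega)]
      simpa [r] using h1
    · intro y hy
      change gR l (Nat.pair w.unpair.1 y) = false
      have h8 := h6 y hy.le
      rw [hgr _ (by omega)]
      simpa [r] using h2 y hy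
  have hu : colN gT gR (u.unpair.1 :: l) = colT (DD (gT l) (gR l)) l.headI u := by
    change colT (DD (gT l) (gR l)) l.headI (idx (gR l) l.headI u.unpair.1) = _
    rw [hidx u huA (by omega)]
  have hv : colN gT gR (v.unpair.1 :: l) = colT (DD (gT l) (gR l)) l.headI v := by
    change colT (DD (gT l) (gR l)) l.headI (idx (gR l) l.headI v.unpair.1) = _
    rw [hidx v hvA (by omega)]
  rw [← hu, ← hv] at hcol
  have hup : (u.unpair.1 :: l).Pairwise (· < ·) := by
    rw [List.pairwise_cons]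
    exact ⟨fun z hz => by have := (hlH z hz).2; omega, hlp⟩
  have hvp : (v.unpair.1 :: l).Pairwise (· < ·) := by
    rw [List.pairwise_cons]
    exact ⟨fun z hz => by have := (hlH z hz).2; omega, hlp⟩
  have hsub : ∀ w, w ∈ H → (((w :: l).toFinset : Finset ℕ) : Set ℕ) ⊆ H := by
    intro w hw z hz
    simp only [List.coe_toFinset, List.mem_cons, Set.mem_ofPred_eq] at hz
    rcases hz with rfl | hz
    · exact hw
    · exact (hlH z hz).1
  have hcard : ∀ w, (w :: l).Pairwise (· < ·) → (w :: l).toFinset.card = m + 2 := by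
    intro w hw
    rw [List.toFinset_card_of_nodup (hw.imp (fun h => ne_of_lt h))]
    simp [hlen]
  have hmu := mem_partC (colN gT gR) (m + 2) (u.unpair.1 :: l) hup
  have hmv := mem_partC (colN gT gR) (m + 2) (v.unpair.1 :: l) hvp
  have hlu : (u.unpair.1 :: l).length = m + 2 := by simp [hlen]
  have hlv : (v.unpair.1 :: l).length = m + 2 := by simp [hlen]
  rcases hF with hF | hF
  · have h7 := (hmu.1 (hF _ (hcard _ hup) (hsub _ huH))).2
    have h8 := (hmv.1 (hF _ (hcard _ hvp) (hsub _ hvH))).2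
    exact hcol (by rw [h7, h8])
  · have h7 : ¬ colN gT gR (u.unpair.1 :: l) = true := fun h =>
      hF _ (hcard _ hup) (hsub _ huH) (hmu.2 ⟨hlu, h⟩)
    have h8 : ¬ colN gT gR (v.unpair.1 :: l) = true := fun h =>
      hF _ (hcard _ hvp) (hsub _ hvH) (hmv.2 ⟨hlv, h⟩)
    exact hcol (by rw [Bool.eq_false_iff.2 h7, Bool.eq_false_iff.2 h8])


/-- An infinite Boolean combination of `Σ⁰_n` sets, `n ≥ 2`, is not almost homogeneous for some
computable partition of exponent `n`. -/
theorem bool_main (n : ℕ) (hn : 2 ≤ n) (A : Set ℕ) (hinf : A.Infinite) (hA : BoolSigma n A) :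
    ∃ C, IsCompPartition n C ∧ ¬ AlmostHomogeneous n A C := by
  obtain ⟨m, rfl⟩ : ∃ m, n = m + 2 := ⟨n - 2, by omega⟩
  obtain ⟨L, h1, h2⟩ := dn_of_bool (n := m + 1) hA
  have h3 : ∃ p ∈ L, (p.1 ∩ p.2).Infinite := by
    by_contra hcon
    push Not at hcon
    apply hinf
    have h4 : A ⊆ ⋃ p ∈ L.toFinset.attach, (p.1.1 ∩ p.1.2) := by
      intro x hx
      obtain ⟨p, hp, hx1, hx2⟩ := (h2 x).1 hx
      simp only [Set.mem_iUnion]
      exact ⟨⟨p, List.mem_toFinset.2 hp⟩, by simp, hx1, hx2⟩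
    refine Set.Finite.subset ?_ h4
    apply Set.Finite.biUnion (Finset.finite_toSet _)
    intro p _
    have := hcon p.1 (List.mem_toFinset.1 p.2)
    simpa using this
  obtain ⟨p, hp, hpinf⟩ := h3
  obtain ⟨⟨T, hT, hpT⟩, ⟨R, hR, hpR⟩⟩ := h1 p hp
  obtain ⟨C, hC, hnot⟩ := core m T R (p.1 ∩ p.2) hT hR
    (fun x => by rw [Set.mem_inter_iff, hpT, hpR]) hpinf
  refine ⟨C, hC, fun hhom => hnot (almost_mono ?_ hhom)⟩
  intro x hx
  exact (h2 x).2 ⟨p, hp, hx.1, hx.2⟩


end Pool.Agent.KS6_27.CO
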