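import Mathlib
import Pool.Graph.R_seed8.Y563.BC.Bool

set_option autoImplicit false

/-!
# Growing components in which many surviving elements get pairwise different colours

The numbers are cut into intervals; at each stage one boundary is removed (glued) and the colours
of the right part are shifted so that the elements which are still alive keep pairwise different
colours modulo `K`.
-/

namespace Pool.Agent.KS6_27.CU

open Pool.Agent.Helper344.Coh1 (Alive dead_mono stage_exists)
open Pool.Agent.Helper344.Coh3 (allBelow allBelow_iff)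
open Pool.Agent.Y563.BC (least least_none least_spec)

/-- the boundary between `i` and `i + 1` is glued -/
def glued (B : List (ℕ × ℕ)) (i : ℕ) : Bool :=
  B.foldr (fun q acc => decide (q.1 = i) || acc) false

lemma glued_cons (q : ℕ × ℕ) (B : List (ℕ × ℕ)) (i : ℕ) :
    glued (q :: B) i = (decide (q.1 = i) || glued B i) := rfl

lemma glued_iff (B : List (ℕ × ℕ)) (i : ℕ) : glued B i = true ↔ ∃ q ∈ B, q.1 = i := by
  induction B with
  | nil => simp [glued]
  | cons q B ih =>
    rw [glued_cons, Bool.or_eq_true, ih]
    simp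

/-- the sum of the shifts at the boundaries between `x` and `y` -/
def sm (B : List (ℕ × ℕ)) (x y : ℕ) : ℕ :=
  B.foldr (fun q acc => if x ≤ q.1 ∧ q.1 < y then q.2 + acc else acc) 0

lemma sm_cons (q : ℕ × ℕ) (B : List (ℕ × ℕ)) (x y : ℕ) :
    sm (q :: B) x y = if x ≤ q.1 ∧ q.1 < y then q.2 + sm B x y else sm B x y := rfl

lemma sm_split (B : List (ℕ × ℕ)) (x i y : ℕ) (hx : x ≤ i) (hy : i ≤ y) :
    sm B x y = sm B x i + sm B i y := by
  induction B with
  | nil => rfl
  | cons q B ih =>
    rw [sm_cons, sm_cons, sm_cons, ih]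
    split_ifs <;> omega

lemma sm_succ (B : List (ℕ × ℕ)) (i y : ℕ) (h : glued B i = false) :
    sm B i y = sm B (i + 1) y := by
  induction B with
  | nil => rfl
  | cons q B ih =>
    rw [glued_cons, Bool.or_eq_false_iff, decide_eq_false_iff_not] at h
    rw [sm_cons, sm_cons, ih h.2]
    have := h.1
    split_ifs <;> omega

/-- all the boundaries between `x` and `y` are glued -/
def conn (B : List (ℕ × ℕ)) (x y : ℕ) : Bool := allBelow (fun i => decide (i < x) || glued B i) y

lemma conn_iff (B : List (ℕ × ℕ)) (x y : ℕ) :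
    conn B x y = true ↔ ∀ i, x ≤ i → i < y → glued B i = true := by
  unfold conn
  rw [allBelow_iff]
  constructor
  · intro h i h1 h2
    have := h i h2
    rw [Bool.or_eq_true, decide_eq_true_eq] at this
    rcases this with h3 | h3
    · omega
    · exact h3
  · intro h i h1
    rw [Bool.or_eq_true, decide_eq_true_eq]
    by_cases h2 : i < x
    · exact Or.inl h2
    · exact Or.inr (h i (by omega) h1)

/-- the shift `j` at the boundary `i` gives two alive elements `x`, `y` the same colour -/
def bad (K : ℕ) (a : ℕ → Bool) (B : List (ℕ × ℕ)) (i j x y : ℕ) : Bool :=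
  a x && (a y && (decide (i < y) && (conn B x i && (conn B (i + 1) y &&
    decide ((sm B x i + j + sm B (i + 1) y) % K = 0)))))

/-- the boundary `i` can be glued with the shift `j` -/
def ok (K : ℕ) (a : ℕ → Bool) (B : List (ℕ × ℕ)) (s i j : ℕ) : Bool :=
  !glued B i && allBelow (fun x => allBelow (fun y => !bad K a B i j x y) (s + 1)) (i + 1)

lemma bad_iff (K : ℕ) (a : ℕ → Bool) (B : List (ℕ × ℕ)) (i j x y : ℕ) :
    bad K a B i j x y = true ↔ a x = true ∧ a y = true ∧ i < y ∧ conn B x i = true ∧
      conn B (i + 1) y = true ∧ (sm B x i + j + sm B (i + 1) y) % K = 0 := by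
  simp [bad, Bool.and_eq_true]

lemma ok_iff (K : ℕ) (a : ℕ → Bool) (B : List (ℕ × ℕ)) (s i j : ℕ) :
    ok K a B s i j = true ↔ glued B i = false ∧
      ∀ x ≤ i, ∀ y ≤ s, ¬ bad K a B i j x y = true := by
  unfold ok
  rw [Bool.and_eq_true, allBelow_iff, Bool.not_eq_true']
  refine and_congr Iff.rfl ?_
  constructor
  · intro h x hx y hy
    have := (allBelow_iff _ _).1 (h x (by omega)) y (by omega)
    simpa using this
  · intro h x hx
    rw [allBelow_iff]
    intro y hy
    simpa using h x (by omega) y (by omega)

lemma least_cases (f : ℕ → Bool) (N : ℕ) : (least f N = N ∧ ∀ y < N, f y = false) ∨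
    (least f N < N ∧ f (least f N) = true ∧ ∀ y < least f N, f y = false) := by
  classical
  by_cases h : ∃ y, y < N ∧ f y = true
  · have h1 := Nat.find_spec h
    have h2 : ∀ y < Nat.find h, f y = false := by
      intro y hy
      have := Nat.find_min h hy
      rw [Bool.eq_false_iff]
      intro h3
      exact this ⟨by omega, h3⟩
    have h3 := least_spec f _ h1.2 h2 N h1.1
    right
    rw [h3]
    exact ⟨h1.1, h1.2, h2⟩
  · left
    push Not at h
    have h1 : ∀ y < N, f y = false := fun y hy => by
      rw [Bool.eq_false_iff]; exact h y hy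
    exact ⟨least_none f N h1, h1⟩

/-- the least good shift at the boundary `i` -/
def jj (K : ℕ) (a : ℕ → Bool) (B : List (ℕ × ℕ)) (s i : ℕ) : ℕ :=
  least (fun j => ok K a B s i j) K

/-- the least boundary which can be glued -/
def pick (K : ℕ) (a : ℕ → Bool) (B : List (ℕ × ℕ)) (s : ℕ) : ℕ :=
  least (fun i => decide (jj K a B s i < K)) s

/-- one step of the construction -/
def step (K : ℕ) (a : ℕ → Bool) (s : ℕ) (B : List (ℕ × ℕ)) : List (ℕ × ℕ) :=
  bif decide (pick K a B s < s) then (pick K a B s, jj K a B s (pick K a B s)) :: B else B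

/-- the construction -/
def run (K : ℕ) (al : ℕ → ℕ → Bool) (s : ℕ) : List (ℕ × ℕ) :=
  Nat.rec [] (fun s B => step K (al (s + 1)) s B) s

lemma run_succ (K : ℕ) (al : ℕ → ℕ → Bool) (s : ℕ) :
    run K al (s + 1) = step K (al (s + 1)) s (run K al s) := rfl

lemma step_cases (K : ℕ) (a : ℕ → Bool) (s : ℕ) (B : List (ℕ × ℕ)) :
    (step K a s B = B ∧ ∀ i < s, ∀ j < K, ok K a B s i j = false) ∨
    ∃ i j, i < s ∧ ok K a B s i j = true ∧ step K a s B = (i, j) :: B ∧
      ∀ i' < i, ∀ j < K, ok K a B s i' j = false := by
  have hj : ∀ i, (jj K a B s i < K ↔ ¬ ∀ j < K, ok K a B s i j = false) := by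
    intro i
    rcases least_cases (fun j => ok K a B s i j) K with ⟨h1, h2⟩ | ⟨h1, h2, h3⟩
    · unfold jj
      rw [h1]
      exact ⟨fun h => absurd h (lt_irrefl _), fun h => absurd h2 h⟩
    · unfold jj
      refine ⟨fun _ h => ?_, fun _ => h1⟩
      have := h _ h1
      rw [this] at h2
      exact absurd h2 (by simp)
  rcases least_cases (fun i => decide (jj K a B s i < K)) s with ⟨h1, h2⟩ | ⟨h1, h2, h3⟩
  · left
    have h4 : pick K a B s = s := h1
    refine ⟨?_, ?_⟩
    · unfold step
      rw [h4]
      simp
    · intro i hi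
      have h5 := h2 i hi
      rw [decide_eq_false_iff_not, hj, not_not] at h5
      exact h5
  · right
    change pick K a B s < s at h1
    rw [decide_eq_true_eq] at h2
    change jj K a B s (pick K a B s) < K at h2
    refine ⟨pick K a B s, jj K a B s (pick K a B s), h1, ?_, ?_, ?_⟩
    · rcases least_cases (fun j => ok K a B s (pick K a B s) j) K with ⟨h4, -⟩ | ⟨-, h4, -⟩
      · exfalso
        change jj K a B s (pick K a B s) = K at h4
        omega
      · exact h4
    · unfold step
      rw [decide_eq_true h1]
      rfl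
    · intro i' hi'
      have h5 := h3 i' hi'
      rw [decide_eq_false_iff_not, hj, not_not] at h5
      exact h5

lemma run_congr (K : ℕ) (al al' : ℕ → ℕ → Bool) (s : ℕ) (h : ∀ t, t ≤ s → ∀ x, al t x = al' t x) :
    run K al s = run K al' s := by
  induction s with
  | zero => rfl
  | succ s ih =>
    rw [run_succ, run_succ, ih (fun t ht x => h t (by omega) x),
      show al (s + 1) = al' (s + 1) from funext (h (s + 1) le_rfl)]

lemma persist (K : ℕ) (al : ℕ → ℕ → Bool) (s u v : ℕ) (hc : conn (run K al s) u v = true) :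
    ∀ t, s ≤ t → conn (run K al t) u v = true ∧ sm (run K al t) u v = sm (run K al s) u v := by
  intro t ht
  induction t, ht using Nat.le_induction with
  | base => exact ⟨hc, rfl⟩
  | succ t ht ih =>
    rw [run_succ]
    rcases step_cases K (al (t + 1)) t (run K al t) with ⟨h1, -⟩ | ⟨i, j, hi, hok, h1, -⟩
    · rw [h1]; exact ih
    · rw [h1]
      obtain ⟨ih1, ih2⟩ := ih
      have hun := ((ok_iff _ _ _ _ _ _).1 hok).1
      have hni : ¬ (u ≤ i ∧ i < v) := by
        rintro ⟨h2, h3⟩
        rw [(conn_iff _ _ _).1 ih1 i h2 h3] at hun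
        exact absurd hun (by simp)
      refine ⟨?_, ?_⟩
      · rw [conn_iff]
        intro i' h2 h3
        rw [glued_cons, (conn_iff _ _ _).1 ih1 i' h2 h3, Bool.or_true]
      · rw [sm_cons, if_neg hni, ih2]

lemma inv (K : ℕ) (al : ℕ → ℕ → Bool) (h : Alive al) (s : ℕ) :
    (∀ q ∈ run K al s, q.1 + 1 < s) ∧
    ∀ x y, x < y → conn (run K al s) x y = true → al s x = true → al s y = true →
      sm (run K al s) x y % K ≠ 0 := by
  induction s with
  | zero =>
    refine ⟨fun q hq => ?_, fun x y _ _ hx => ?_⟩
    · change q ∈ ([] : List (ℕ × ℕ)) at hq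
      simp at hq
    · have := h.lt 0 x hx
      omega
  | succ s ih =>
    obtain ⟨ih1, ih2⟩ := ih
    -- pairs connected in the old state
    have old : ∀ x y, x < y → conn (run K al s) x y = true → al (s + 1) x = true →
        al (s + 1) y = true → sm (run K al s) x y % K ≠ 0 := by
      intro x y hxy hc hx hy
      obtain ⟨q, hq, hq2⟩ := (glued_iff _ _).1 ((conn_iff _ _ _).1 hc (y - 1) (by omega) (by omega))
      have := ih1 q hq
      exact ih2 x y hxy hc (h.mono s x hx (by omega)) (h.mono s y hy (by omega))
    rw [run_succ]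
    rcases step_cases K (al (s + 1)) s (run K al s) with ⟨h1, -⟩ | ⟨i, j, hi, hok, h1, -⟩
    · rw [h1]
      exact ⟨fun q hq => by have := ih1 q hq; omega, old⟩
    · rw [h1]
      obtain ⟨hun, hbad⟩ := (ok_iff _ _ _ _ _ _).1 hok
      refine ⟨?_, ?_⟩
      · intro q hq
        rcases List.mem_cons.1 hq with rfl | hq
        · simpa using hi
        · have := ih1 q hq; omega
      · intro x y hxy hc hx hy
        have hc' : ∀ i', x ≤ i' → i' < y → i' ≠ i → glued (run K al s) i' = true := by
          intro i' h2 h3 h4
          have := (conn_iff _ _ _).1 hc i' h2 h3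
          rw [glued_cons, Bool.or_eq_true, decide_eq_true_eq] at this
          rcases this with h5 | h5
          · exact absurd h5.symm h4
          · exact h5
        by_cases hxi : x ≤ i ∧ i < y
        · have h2 : conn (run K al s) x i = true := by
            rw [conn_iff]; intro i' h3 h4; exact hc' i' h3 (by omega) (by omega)
          have h3 : conn (run K al s) (i + 1) y = true := by
            rw [conn_iff]; intro i' h4 h5; exact hc' i' (by omega) h5 (by omega)
          have hy2 := h.lt _ _ hy
          have h4 := hbad x hxi.1 y (by omega)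
          rw [bad_iff] at h4
          have h5 : (sm (run K al s) x i + j + sm (run K al s) (i + 1) y) % K ≠ 0 := fun h6 =>
            h4 ⟨hx, hy, hxi.2, h2, h3, h6⟩
          rw [sm_cons, if_pos hxi, sm_split _ x i y hxi.1 hxi.2.le, sm_succ _ i y hun]
          have h6 : j + (sm (run K al s) x i + sm (run K al s) (i + 1) y) =
              sm (run K al s) x i + j + sm (run K al s) (i + 1) y := by ring
          dsimp only
          rw [h6]
          exact h5
        · rw [sm_cons, if_neg hxi]
          exact old x y hxy ((conn_iff _ _ _).2 fun i' h2 h3 => hc' i' h2 h3 (by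
            rintro rfl; exact hxi ⟨h2, h3⟩)) hx hy

end Pool.Agent.KS6_27.CU
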