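import Mathlib
import Pool.Agent.KS6_27.CUa

set_option autoImplicit false

/-!
# Large blocks of surviving elements with pairwise different colours
-/

namespace Pool.Agent.KS6_27.CU

open Pool.Agent.Helper344.Coh1 (Alive dead_mono stage_exists)
open Pool.Agent.Helper344.Coh3 (allBelow allBelow_iff)

open Classical in
lemma window (A : Set ℕ) (hinf : A.Infinite) (k p : ℕ) :
    ∃ q, p ≤ q ∧ k < ((Finset.Icc p q).filter (· ∈ A)).card := by
  have h1 : (A \ Set.Iio p).Infinite := hinf.sdiff (Set.finite_Iio p)
  obtain ⟨F, hF, hc⟩ := h1.exists_subset_card_eq (k + 1)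
  refine ⟨max p (F.sup id), le_max_left _ _, ?_⟩
  have h2 : F ⊆ (Finset.Icc p (max p (F.sup id))).filter (· ∈ A) := by
    intro x hx
    have h3 := hF hx
    have h4 : x ≤ F.sup id := Finset.le_sup (f := id) hx
    rw [Finset.mem_filter, Finset.mem_Icc]
    exact ⟨⟨not_lt.1 h3.2, h4.trans (le_max_right _ _)⟩, h3.1⟩
  have := Finset.card_le_card h2
  omega

/-- if the left and the right component of an unglued boundary contain at most `k` alive elements,
then some shift is good -/
lemma good_shift (k : ℕ) (a : ℕ → Bool) (B : List (ℕ × ℕ)) (s i : ℕ) (hun : glued B i = false)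
    (hL : ((Finset.range (i + 1)).filter (fun x => a x = true ∧ conn B x i = true)).card ≤ k)
    (hR : ((Finset.Icc (i + 1) s).filter
      (fun y => a y = true ∧ conn B (i + 1) y = true)).card ≤ k) :
    ∃ j < k * k + 1, ok (k * k + 1) a B s i j = true := by
  by_contra hcon
  push Not at hcon
  set K := k * k + 1 with hK
  set L := (Finset.range (i + 1)).filter (fun x => a x = true ∧ conn B x i = true)
  set R := (Finset.Icc (i + 1) s).filter (fun y => a y = true ∧ conn B (i + 1) y = true)
  have h1 : ∀ j, j < K → ∃ p ∈ L ×ˢ R, (sm B p.1 i + j + sm B (i + 1) p.2) % K = 0 := by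
    intro j hj
    have h2 := hcon j hj
    rw [ne_eq, ok_iff] at h2
    have h3 : ¬ ∀ x ≤ i, ∀ y ≤ s, ¬ bad K a B i j x y = true := fun h => h2 ⟨hun, h⟩
    push Not at h3
    obtain ⟨x, hx, y, hy, hb⟩ := h3
    rw [bad_iff] at hb
    obtain ⟨b1, b2, b3, b4, b5, b6⟩ := hb
    refine ⟨(x, y), ?_, b6⟩
    rw [Finset.mem_product, Finset.mem_filter, Finset.mem_filter, Finset.mem_range,
      Finset.mem_Icc]
    exact ⟨⟨by omega, b1, b4⟩, ⟨⟨b3, hy⟩, b2, b5⟩⟩
  choose! f hf1 hf2 using h1
  have hcard : (L ×ˢ R).card < (Finset.range K).card := by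
    rw [Finset.card_product, Finset.card_range, hK]
    have := Nat.mul_le_mul hL hR
    omega
  obtain ⟨j, hj, j', hj', hne, heq⟩ := Finset.exists_ne_map_eq_of_card_lt_of_maps_to hcard
    (f := f) (fun j hj => hf1 j (Finset.mem_range.1 hj))
  rw [Finset.mem_range] at hj hj'
  have e1 := hf2 j hj
  have e2 := hf2 j' hj'
  rw [heq] at e1
  apply hne
  have e3 : (sm B (f j').1 i + sm B (i + 1) (f j').2 + j) ≡
      (sm B (f j').1 i + sm B (i + 1) (f j').2 + j') [MOD K] := by
    unfold Nat.ModEq
    rw [show sm B (f j').1 i + sm B (i + 1) (f j').2 + j =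
      sm B (f j').1 i + j + sm B (i + 1) (f j').2 by ring,
      show sm B (f j').1 i + sm B (i + 1) (f j').2 + j' =
      sm B (f j').1 i + j' + sm B (i + 1) (f j').2 by ring, e1, e2]
  have e4 := Nat.ModEq.add_left_cancel' _ e3
  unfold Nat.ModEq at e4
  rwa [Nat.mod_eq_of_lt hj, Nat.mod_eq_of_lt hj'] at e4

open Classical in
/-- at some stage more than `k` members of `A`, larger than `m`, are in one component -/
lemma exists_comp (k : ℕ) (al : ℕ → ℕ → Bool) (h : Alive al) (A : Set ℕ) (hinf : A.Infinite)
    (hA : ∀ x, x ∈ A ↔ ∀ s, x < s → al s x = true) (m : ℕ) :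
    ∃ s x y, m < x ∧ conn (run (k * k + 1) al s) x y = true ∧
      k < ((Finset.Icc x y).filter (· ∈ A)).card := by
  by_contra hcon
  push Not at hcon
  set K := k * k + 1
  obtain ⟨q1, hq1, hc1⟩ := window A hinf k (m + 1)
  obtain ⟨q2, hq2, hc2⟩ := window A hinf k q1
  obtain ⟨q3, hq3, hc3⟩ := window A hinf k q2
  have unglued : ∀ s p q, m < p → k < ((Finset.Icc p q).filter (· ∈ A)).card →
      ∃ i, p ≤ i ∧ i < q ∧ glued (run K al s) i = false := by
    intro s p q hp hc
    by_contra hno
    push Not at hno
    have h1 : conn (run K al s) p q = true := by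
      rw [conn_iff]
      intro i h2 h3
      simpa using hno i h2 h3
    have := hcon s p q hp h1
    omega
  obtain ⟨s₁, hs₁, hst⟩ := stage_exists al h A hA q3
  -- every step from `s₁` on glues a boundary below `q3`
  have grow : ∀ s, s₁ ≤ s → ∃ i j, i < q3 ∧ glued (run K al s) i = false ∧
      run K al (s + 1) = (i, j) :: run K al s := by
    intro s hs
    obtain ⟨i1, hi1, hi1', hu1⟩ := unglued s (m + 1) q1 (by omega) hc1
    obtain ⟨i2, hi2, hi2', hu2⟩ := unglued s q1 q2 (by omega) hc2
    obtain ⟨i3, hi3, hi3', hu3⟩ := unglued s q2 q3 (by omega) hc3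
    set B := run K al s with hB
    set a := al (s + 1) with ha
    have hal : ∀ x ≤ q3, (a x = true ↔ x ∈ A) := fun x hx => hst x hx (s + 1) (by omega)
    have hgood : ∃ j < K, ok K a B s i2 j = true := by
      apply good_shift k a B s i2 hu2
      · rcases Finset.eq_empty_or_nonempty ((Finset.range (i2 + 1)).filter
          (fun x => a x = true ∧ conn B x i2 = true)) with he | hne
        · rw [he]; simp
        · set x0 := ((Finset.range (i2 + 1)).filter
            (fun x => a x = true ∧ conn B x i2 = true)).min' hne with hx0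
          have hx0m := Finset.min'_mem _ hne
          rw [← hx0, Finset.mem_filter, Finset.mem_range] at hx0m
          have hx0i : i1 < x0 := by
            by_contra hle
            have := (conn_iff _ _ _).1 hx0m.2.2 i1 (by omega) (by omega)
            rw [this] at hu1
            exact absurd hu1 (by simp)
          refine le_trans (Finset.card_le_card ?_) (hcon s x0 i2 (by omega) hx0m.2.2)
          intro x hx
          have hmin := Finset.min'_le _ x hx
          rw [Finset.mem_filter, Finset.mem_range] at hx
          rw [Finset.mem_filter, Finset.mem_Icc]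
          exact ⟨⟨hmin, by omega⟩, (hal x (by omega)).1 hx.2.1⟩
      · rcases Finset.eq_empty_or_nonempty ((Finset.Icc (i2 + 1) s).filter
          (fun y => a y = true ∧ conn B (i2 + 1) y = true)) with he | hne
        · rw [he]; simp
        · set y0 := ((Finset.Icc (i2 + 1) s).filter
            (fun y => a y = true ∧ conn B (i2 + 1) y = true)).max' hne with hy0
          have hy0m := Finset.max'_mem _ hne
          rw [← hy0, Finset.mem_filter, Finset.mem_Icc] at hy0m
          have hy0i : y0 ≤ i3 := by
            by_contra hle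
            have := (conn_iff _ _ _).1 hy0m.2.2 i3 (by omega) (by omega)
            rw [this] at hu3
            exact absurd hu3 (by simp)
          refine le_trans (Finset.card_le_card ?_) (hcon s (i2 + 1) y0 (by omega) hy0m.2.2)
          intro y hy
          have hmax := Finset.le_max' _ y hy
          rw [Finset.mem_filter, Finset.mem_Icc] at hy
          rw [Finset.mem_filter, Finset.mem_Icc]
          exact ⟨⟨by omega, hmax⟩, (hal y (by omega)).1 hy.2.1⟩
    obtain ⟨j2, hj2, hok2⟩ := hgood
    rw [run_succ]
    rcases step_cases K a s B with ⟨-, h2⟩ | ⟨i, j, hi, hok, h2, h3⟩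
    · have := h2 i2 (by omega) j2 hj2
      rw [this] at hok2
      exact absurd hok2 (by simp)
    · refine ⟨i, j, ?_, ((ok_iff _ _ _ _ _ _).1 hok).1, h2⟩
      by_contra hge
      have := h3 i2 (by omega) j2 hj2
      rw [this] at hok2
      exact absurd hok2 (by simp)
  have count : ∀ n, n ≤ ((Finset.range q3).filter
      (fun i => glued (run K al (s₁ + n)) i = true)).card := by
    intro n
    induction n with
    | zero => exact Nat.zero_le _
    | succ n ih =>
      obtain ⟨i, j, hi, hu, hr⟩ := grow (s₁ + n) (by omega)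
      have h1 : insert i ((Finset.range q3).filter
          (fun i => glued (run K al (s₁ + n)) i = true)) ⊆ (Finset.range q3).filter
          (fun i => glued (run K al (s₁ + (n + 1))) i = true) := by
        intro x hx
        rw [← Nat.add_assoc, hr, Finset.mem_filter, glued_cons, Bool.or_eq_true,
          decide_eq_true_eq]
        rcases Finset.mem_insert.1 hx with rfl | hx
        · exact ⟨Finset.mem_range.2 hi, Or.inl rfl⟩
        · rw [Finset.mem_filter] at hx
          exact ⟨hx.1, Or.inr hx.2⟩
      have h2 : i ∉ (Finset.range q3).filter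
          (fun i => glued (run K al (s₁ + n)) i = true) := by
        rw [Finset.mem_filter]
        rintro ⟨-, h3⟩
        rw [hu] at h3
        exact absurd h3 (by simp)
      have h3 := Finset.card_le_card h1
      rw [Finset.card_insert_of_notMem h2] at h3
      omega
  have h1 := count (q3 + 1)
  have h2 := Finset.card_filter_le (Finset.range q3)
    (fun i => glued (run K al (s₁ + (q3 + 1))) i = true)
  rw [Finset.card_range] at h2
  omega

/-- at some stage there are more than `k` members of `A`, larger than `m`, in one component, with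
pairwise different colours -/
theorem exists_block (k : ℕ) (al : ℕ → ℕ → Bool) (h : Alive al) (A : Set ℕ) (hinf : A.Infinite)
    (hA : ∀ x, x ∈ A ↔ ∀ s, x < s → al s x = true) (m : ℕ) :
    ∃ (s : ℕ) (F : Finset ℕ), k < F.card ∧ (∀ x ∈ F, x ∈ A ∧ m < x) ∧
      ∀ u ∈ F, ∀ v ∈ F, u < v → conn (run (k * k + 1) al s) u v = true ∧
        sm (run (k * k + 1) al s) u v % (k * k + 1) ≠ 0 := by
  classical
  obtain ⟨s, x, y, hmx, hc, hk⟩ := exists_comp k al h A hinf hA m
  refine ⟨s, _, hk, ?_, ?_⟩
  · intro z hz
    rw [Finset.mem_filter, Finset.mem_Icc] at hz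
    exact ⟨hz.2, by omega⟩
  · intro u hu v hv huv
    rw [Finset.mem_filter, Finset.mem_Icc] at hu hv
    have huv' : conn (run (k * k + 1) al s) u v = true := by
      rw [conn_iff]
      intro i h1 h2
      exact (conn_iff _ _ _).1 hc i (by omega) (by omega)
    obtain ⟨i1, i2⟩ := inv (k * k + 1) al h s
    obtain ⟨q, hq, hq2⟩ := (glued_iff _ _).1 ((conn_iff _ _ _).1 huv' (v - 1) (by omega)
      (by omega))
    have hvs := i1 q hq
    exact ⟨huv', i2 u v huv huv' ((hA u).1 hu.2 s (by omega)) ((hA v).1 hv.2 s (by omega))⟩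

/-- the colour of `x` at stage `t` -/
def col (K : ℕ) (al : ℕ → ℕ → Bool) (t x : ℕ) : ℕ := sm (run K al t) 0 x % K

lemma col_ne (K : ℕ) (al : ℕ → ℕ → Bool) (s u v : ℕ) (huv : u < v)
    (hc : conn (run K al s) u v = true) (hs : sm (run K al s) u v % K ≠ 0) (t : ℕ) (ht : s ≤ t) :
    col K al t u ≠ col K al t v := by
  intro heq
  unfold col at heq
  obtain ⟨-, h2⟩ := persist K al s u v hc t ht
  rw [sm_split _ 0 u v (Nat.zero_le _) huv.le, h2] at heq
  apply hs
  have h3 : sm (run K al t) 0 u + 0 ≡ sm (run K al t) 0 u + sm (run K al s) u v [MOD K] := by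
    unfold Nat.ModEq
    rw [Nat.add_zero]
    exact heq
  have h4 := Nat.ModEq.add_left_cancel' _ h3
  unfold Nat.ModEq at h4
  rw [← h4]
  simp

end Pool.Agent.KS6_27.CU
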