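import Mathlib
import Pool.Agent.KS6_27.CUb

set_option autoImplicit false

/-!
# The construction is computable
-/

namespace Pool.Agent.KS6_27.CU

open Pool.Agent.Helper344.Coh3 (allBelow comp_allBelow comp_alOf alOf)
open Pool.Agent.Y563.BC (least comp_least DD idx)

open Primrec in
lemma prim_glued : Primrec₂ glued := by
  unfold glued
  refine Primrec.list_foldr (f := fun p : List (ℕ × ℕ) × ℕ => p.1) (g := fun _ => false)
    (h := fun p q => decide (q.1.1 = p.2) || q.2) fst (const false) ?_
  exact Primrec.or.comp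
    (Primrec.eq.comp (fst.comp (fst.comp snd)) (snd.comp fst)).decide (snd.comp snd)

open Primrec in
lemma prim_sm : Primrec (fun p : List (ℕ × ℕ) × ℕ × ℕ => sm p.1 p.2.1 p.2.2) := by
  unfold sm
  refine Primrec.list_foldr (f := fun p : List (ℕ × ℕ) × ℕ × ℕ => p.1) (g := fun _ => 0)
    (h := fun p q => if p.2.1 ≤ q.1.1 ∧ q.1.1 < p.2.2 then q.1.2 + q.2 else q.2)
    fst (const 0) ?_
  refine Primrec.ite (PrimrecPred.and ?_ ?_) ?_ (snd.comp snd)
  · exact Primrec.nat_le.comp (fst.comp (snd.comp fst)) (fst.comp (fst.comp snd))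
  · exact Primrec.nat_lt.comp (fst.comp (fst.comp snd)) (snd.comp (snd.comp fst))
  · exact Primrec.nat_add.comp (snd.comp (fst.comp snd)) (snd.comp snd)

open Computable in
lemma comp_conn {β : Type} [Primcodable β] (B : β → List (ℕ × ℕ)) (hB : Computable B)
    (x y : β → ℕ) (hx : Computable x) (hy : Computable y) :
    Computable (fun b => conn (B b) (x b) (y b)) := by
  unfold conn
  refine comp_allBelow (fun b i => decide (i < x b) || glued (B b) i) ?_ y hy
  refine (Primrec.or.to_comp).comp ?_ ?_
  · exact (Primrec.nat_lt.decide.to_comp).comp snd (hx.comp fst)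
  · exact (prim_glued.to_comp).comp (hB.comp fst) snd

open Computable in
lemma comp_bad {β : Type} [Primcodable β] (K : ℕ) (a : β → ℕ → Bool) (ha : Computable₂ a)
    (B : β → List (ℕ × ℕ)) (hB : Computable B) (i j x y : β → ℕ) (hi : Computable i)
    (hj : Computable j) (hx : Computable x) (hy : Computable y) :
    Computable (fun b => bad K (a b) (B b) (i b) (j b) (x b) (y b)) := by
  unfold bad
  have hand : Computable₂ (fun a b : Bool => a && b) := Primrec.and.to_comp
  have hi1 : Computable (fun b => i b + 1) := Computable.succ.comp hi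
  have h1 : Computable (fun b => a b (x b)) := ha.comp Computable.id hx
  have h2 : Computable (fun b => a b (y b)) := ha.comp Computable.id hy
  have h3 : Computable (fun b => decide (i b < y b)) := (Primrec.nat_lt.decide.to_comp).comp hi hy
  have h4 := comp_conn B hB x i hx hi
  have h5 := comp_conn B hB _ y hi1 hy
  have s1 : Computable (fun b => sm (B b) (x b) (i b)) :=
    (prim_sm.to_comp).comp (Computable.pair hB (Computable.pair hx hi))
  have s2 : Computable (fun b => sm (B b) (i b + 1) (y b)) :=
    (prim_sm.to_comp).comp (Computable.pair hB (Computable.pair hi1 hy))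
  have s3 : Computable (fun b => (sm (B b) (x b) (i b) + j b + sm (B b) (i b + 1) (y b)) % K) :=
    (Primrec.nat_mod.to_comp).comp
      ((Primrec.nat_add.to_comp).comp ((Primrec.nat_add.to_comp).comp s1 hj) s2) (const K)
  have h6 : Computable (fun b => decide
      ((sm (B b) (x b) (i b) + j b + sm (B b) (i b + 1) (y b)) % K = 0)) :=
    (Primrec.eq.decide.to_comp).comp s3 (const 0)
  exact hand.comp h1 (hand.comp h2 (hand.comp h3 (hand.comp h4 (hand.comp h5 h6))))

open Computable in
lemma comp_ok {β : Type} [Primcodable β] (K : ℕ) (a : β → ℕ → Bool) (ha : Computable₂ a)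
    (B : β → List (ℕ × ℕ)) (hB : Computable B) (s i j : β → ℕ) (hs : Computable s)
    (hi : Computable i) (hj : Computable j) :
    Computable (fun b => ok K (a b) (B b) (s b) (i b) (j b)) := by
  unfold ok
  refine (Primrec.and.to_comp).comp
    ((Primrec.not.to_comp).comp ((prim_glued.to_comp).comp hB hi)) ?_
  refine comp_allBelow (fun b x => allBelow (fun y => !bad K (a b) (B b) (i b) (j b) x y)
    (s b + 1)) ?_ _ (Computable.succ.comp hi)
  change Computable (fun p : β × ℕ => allBelow
    (fun y => !bad K (a p.1) (B p.1) (i p.1) (j p.1) p.2 y) (s p.1 + 1))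
  refine comp_allBelow (fun (p : β × ℕ) y => !bad K (a p.1) (B p.1) (i p.1) (j p.1) p.2 y) ?_ _
    (Computable.succ.comp (hs.comp fst))
  change Computable (fun q : (β × ℕ) × ℕ =>
    !bad K (a q.1.1) (B q.1.1) (i q.1.1) (j q.1.1) q.1.2 q.2)
  have f1 : Computable (fun q : (β × ℕ) × ℕ => q.1.1) := fst.comp fst
  refine (Primrec.not.to_comp).comp (comp_bad (β := (β × ℕ) × ℕ) K (fun q => a q.1.1) ?_
    (fun q => B q.1.1) (hB.comp f1) (fun q => i q.1.1) (fun q => j q.1.1) (fun q => q.1.2)
    (fun q => q.2) (hi.comp f1) (hj.comp f1) (snd.comp fst) snd)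
  exact ha.comp (f1.comp fst) snd

open Computable in
lemma comp_jj {β : Type} [Primcodable β] (K : ℕ) (a : β → ℕ → Bool) (ha : Computable₂ a)
    (B : β → List (ℕ × ℕ)) (hB : Computable B) (s i : β → ℕ) (hs : Computable s)
    (hi : Computable i) : Computable (fun b => jj K (a b) (B b) (s b) (i b)) := by
  unfold jj
  refine comp_least (fun b j => ok K (a b) (B b) (s b) (i b) j) ?_ _ (const K)
  change Computable (fun p : β × ℕ => ok K (a p.1) (B p.1) (s p.1) (i p.1) p.2)
  exact comp_ok (β := β × ℕ) K (fun p => a p.1) (ha.comp (fst.comp fst) snd) (fun p => B p.1)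
    (hB.comp fst) (fun p => s p.1) (fun p => i p.1) (fun p => p.2) (hs.comp fst) (hi.comp fst) snd

open Computable in
lemma comp_pick {β : Type} [Primcodable β] (K : ℕ) (a : β → ℕ → Bool) (ha : Computable₂ a)
    (B : β → List (ℕ × ℕ)) (hB : Computable B) (s : β → ℕ) (hs : Computable s) :
    Computable (fun b => pick K (a b) (B b) (s b)) := by
  unfold pick
  refine comp_least (fun b i => decide (jj K (a b) (B b) (s b) i < K)) ?_ _ hs
  change Computable (fun p : β × ℕ => decide (jj K (a p.1) (B p.1) (s p.1) p.2 < K))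
  exact (Primrec.nat_lt.decide.to_comp).comp (comp_jj (β := β × ℕ) K (fun p => a p.1)
    (ha.comp (fst.comp fst) snd) (fun p => B p.1) (hB.comp fst) (fun p => s p.1) (fun p => p.2)
    (hs.comp fst) snd) (const K)

open Computable in
lemma comp_step {β : Type} [Primcodable β] (K : ℕ) (a : β → ℕ → Bool) (ha : Computable₂ a)
    (B : β → List (ℕ × ℕ)) (hB : Computable B) (s : β → ℕ) (hs : Computable s) :
    Computable (fun b => step K (a b) (s b) (B b)) := by
  unfold step
  have hp := comp_pick K a ha B hB s hs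
  exact Computable.cond ((Primrec.nat_lt.decide.to_comp).comp hp hs)
    (Computable.list_cons.comp (Computable.pair hp (comp_jj K a ha B hB s _ hs hp)) hB) hB

open Computable in
lemma comp_run {α : Type} [Primcodable α] (K : ℕ) (al : α → ℕ → ℕ → Bool)
    (hal : Computable (fun p : α × ℕ × ℕ => al p.1 p.2.1 p.2.2)) (t : α → ℕ)
    (ht : Computable t) : Computable (fun a => run K (al a) (t a)) := by
  unfold run
  refine Computable.nat_rec (f := t) (g := fun _ => [])
    (h := fun a q => step K (al a (q.1 + 1)) q.1 q.2) ht (const []) ?_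
  change Computable (fun p : α × ℕ × List (ℕ × ℕ) => step K (al p.1 (p.2.1 + 1)) p.2.1 p.2.2)
  refine comp_step (β := α × ℕ × List (ℕ × ℕ)) K (fun p => al p.1 (p.2.1 + 1)) ?_
    (fun p => p.2.2) (snd.comp snd) (fun p => p.2.1) (fst.comp snd)
  change Computable (fun q : (α × ℕ × List (ℕ × ℕ)) × ℕ => al q.1.1 (q.1.2.1 + 1) q.2)
  exact hal.comp (Computable.pair (fst.comp fst)
    (Computable.pair (Computable.succ.comp (fst.comp (snd.comp fst))) snd))

open Computable in
lemma comp_col {α : Type} [Primcodable α] (K : ℕ) (al : α → ℕ → ℕ → Bool)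
    (hal : Computable (fun p : α × ℕ × ℕ => al p.1 p.2.1 p.2.2)) (t x : α → ℕ)
    (ht : Computable t) (hx : Computable x) : Computable (fun a => col K (al a) (t a) (x a)) := by
  unfold col
  exact (Primrec.nat_mod.to_comp).comp ((prim_sm.to_comp).comp
    (Computable.pair (comp_run K al hal t ht) (Computable.pair (const 0) hx))) (const K)

/-- the colouring of lists: the first entry has the colour `c` -/
def colC (K : ℕ) (gT gR : List ℕ → ℕ → Bool) (c : ℕ) (L : List ℕ) : Bool :=
  decide (col K (alOf (DD (gT L.tail) (gR L.tail))) L.tail.headI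
    (idx (gR L.tail) L.tail.headI L.headI) = c)

open Computable in
lemma comp_colC (K : ℕ) (gT gR : List ℕ → ℕ → Bool) (hT : Computable₂ gT) (hR : Computable₂ gR)
    (c : ℕ) : Computable (colC K gT gR c) := by
  have htail : Computable (fun L : List ℕ => L.tail) := Primrec.list_tail.to_comp
  have hhead : Computable (fun L : List ℕ => L.headI) := Primrec.list_headI.to_comp
  have hth : Computable (fun L : List ℕ => L.tail.headI) := hhead.comp htail
  -- the alive data
  have e1 : Computable (fun p : List ℕ × ℕ × ℕ => p.1.tail) := htail.comp fst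
  have ei : Computable (fun p : List ℕ × ℕ × ℕ => p.2.1.unpair) :=
    Computable.unpair.comp (fst.comp snd)
  have e2 : Computable (fun p : List ℕ × ℕ × ℕ => gR p.1.tail p.2.1) :=
    hR.comp e1 (fst.comp snd)
  have e3 : Computable₂ (fun (p : List ℕ × ℕ × ℕ) (y : ℕ) =>
      !gR p.1.tail (Nat.pair p.2.1.unpair.1 y)) := by
    have h1 : Computable (fun q : (List ℕ × ℕ × ℕ) × ℕ => Nat.pair q.1.2.1.unpair.1 q.2) :=
      (Primrec₂.natPair.to_comp).comp (fst.comp (ei.comp fst)) snd
    exact (Primrec.not.to_comp).comp (hR.comp (e1.comp fst) h1)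
  have e4 : Computable (fun p : List ℕ × ℕ × ℕ =>
      allBelow (fun y => !gR p.1.tail (Nat.pair p.2.1.unpair.1 y)) p.2.1.unpair.2) :=
    comp_allBelow _ e3 _ (snd.comp ei)
  have e5 : Computable (fun p : List ℕ × ℕ × ℕ => gT p.1.tail (Nat.pair p.2.1.unpair.1 p.2.2)) :=
    hT.comp e1 ((Primrec₂.natPair.to_comp).comp (fst.comp ei) (snd.comp snd))
  have hD : Computable (fun p : List ℕ × ℕ × ℕ => DD (gT p.1.tail) (gR p.1.tail) p.2.1 p.2.2) := by
    unfold DD
    exact (Primrec.and.to_comp).comp ((Primrec.and.to_comp).comp e2 e4) e5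
  have hal := comp_alOf (fun L : List ℕ => DD (gT L.tail) (gR L.tail)) hD
  -- the index
  have f1 : Computable₂ (fun (L : List ℕ) (y : ℕ) => gR L.tail (Nat.pair L.headI y)) :=
    hR.comp (htail.comp fst) ((Primrec₂.natPair.to_comp).comp (hhead.comp fst) snd)
  have f2 : Computable (fun L : List ℕ =>
      least (fun y => gR L.tail (Nat.pair L.headI y)) L.tail.headI) := comp_least _ f1 _ hth
  have f3 : Computable (fun L : List ℕ => idx (gR L.tail) L.tail.headI L.headI) :=
    (Primrec₂.natPair.to_comp).comp hhead f2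
  unfold colC
  exact (Primrec.eq.decide.to_comp).comp
    (comp_col K (fun L : List ℕ => alOf (DD (gT L.tail) (gR L.tail))) hal _ _ hth f3) (const c)

end Pool.Agent.KS6_27.CU
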