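import Mathlib
import Pool.Agent.KS6_27.CUc

set_option autoImplicit false

/-!
# Covers of Boolean combinations of `Σ⁰_n` sets by finitely many sets
-/

namespace Pool.Agent.KS6_27.CU

open Pool.Agent.Helper344.Coh1 Pool.Agent.Helper344.Coh2 Pool.Agent.Helper344.Coh3
open Pool.Agent.Results.MP_c357a0_lc.NoPiNCohesive Pool.Agent.Y563.BC

/-- The core. -/
theorem core (m k : ℕ) (T R A : Set ℕ) (hT : Approx (m + 1) T) (hR : Approx (m + 1) R)
    (hA : ∀ x, x ∈ A ↔ (∀ k, Nat.pair x k ∈ T) ∧ (∃ k, Nat.pair x k ∈ R)) (hinf : A.Infinite) :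
    ∃ C : ℕ → Set (Finset ℕ), (∀ c, IsCompPartition (m + 2) (C c)) ∧
      ∀ H : Fin k → Set ℕ, A ⊆ (⋃ i, H i) →
        ∃ i, ∃ c < k * k + 1, ¬ AlmostHomogeneous (m + 2) (H i) (C c) := by
  classical
  obtain ⟨gT, hgT, hlimT⟩ := hT
  obtain ⟨gR, hgR, hlimR⟩ := hR
  set K := k * k + 1 with hK
  refine ⟨fun c => partC (colC K gT gR c) (m + 2),
    fun c => partC_comp _ (comp_colC K gT gR hgT hgR c) _, ?_⟩
  intro Hs hcov
  by_contra hcon
  push Not at hcon
  have hcon' : ∀ i, ∀ c : Fin K, ∃ F : Finset ℕ,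
      (∀ s : Finset ℕ, s.card = m + 2 → (s : Set ℕ) ⊆ Hs i \ (F : Set ℕ) →
        s ∈ partC (colC K gT gR c) (m + 2)) ∨
      (∀ s : Finset ℕ, s.card = m + 2 → (s : Set ℕ) ⊆ Hs i \ (F : Set ℕ) →
        s ∉ partC (colC K gT gR c) (m + 2)) := fun i c => hcon i c c.2
  choose F hF using hcon'
  -- the finite set of exceptions
  let B : Set ℕ := (⋃ i, ⋃ c, (F i c : Set ℕ)) ∪ ⋃ i, (if (Hs i).Finite then Hs i else ∅)
  have hBfin : B.Finite := by
    refine Set.Finite.union ?_ ?_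
    · exact Set.finite_iUnion fun i => Set.finite_iUnion fun c => (F i c).finite_toSet
    · refine Set.finite_iUnion fun i => ?_
      split_ifs with h
      · exact h
      · exact Set.finite_empty
  let t : ℕ → Bool := fun z => decide (z ∈ T)
  let r : ℕ → Bool := fun z => decide (z ∈ R)
  let D : ℕ → ℕ → Bool := DD t r
  let A' : Set ℕ := {i | ∀ s, i < s → alOf D s i = true}
  have hA' : ∀ i, i ∈ A' ↔ (i ∈ R ∧ ∀ y < i.unpair.2, Nat.pair i.unpair.1 y ∉ R) ∧
      ∀ k, Nat.pair i.unpair.1 k ∈ T := by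
    intro i
    constructor
    · intro h
      have h1 : ∀ k, DD t r i k = true := by
        intro k
        have h2 := h (max i k + 1) (by omega)
        rw [alOf_iff] at h2
        exact h2.2 k (by omega)
      have h3 := (DD_iff t r i 0).1 (h1 0)
      refine ⟨⟨by simpa [r] using h3.1.1, fun y hy => by simpa [r] using h3.1.2 y hy⟩, ?_⟩
      intro k
      have h4 := (DD_iff t r i k).1 (h1 k)
      simpa [t] using h4.2
    · rintro ⟨⟨h1, h2⟩, h3⟩ s hs
      rw [alOf_iff]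
      refine ⟨hs, fun k _ => ?_⟩
      change DD t r i k = true
      rw [DD_iff]
      exact ⟨⟨by simpa [r] using h1, fun y hy => by simpa [r] using h2 y hy⟩,
        by simpa [t] using h3 k⟩
  have hA'A : ∀ i ∈ A', i.unpair.1 ∈ A := by
    intro i hi
    obtain ⟨⟨h1, -⟩, h3⟩ := (hA' i).1 hi
    rw [hA]
    exact ⟨h3, i.unpair.2, by rw [Nat.pair_unpair]; exact h1⟩
  have hinj : ∀ i ∈ A', ∀ j ∈ A', i.unpair.1 = j.unpair.1 → i = j := by
    intro i hi j hj hij
    obtain ⟨⟨h1, h2⟩, -⟩ := (hA' i).1 hi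
    obtain ⟨⟨h3, h4⟩, -⟩ := (hA' j).1 hj
    have h5 : i.unpair.2 = j.unpair.2 := by
      rcases lt_trichotomy i.unpair.2 j.unpair.2 with h | h | h
      · exfalso
        apply h4 _ h
        rw [← hij, Nat.pair_unpair]
        exact h1
      · exact h
      · exfalso
        apply h2 _ h
        rw [hij, Nat.pair_unpair]
        exact h3
    rw [← Nat.pair_unpair i, ← Nat.pair_unpair j, hij, h5]
  have hsurj : ∀ x ∈ A, ∃ i ∈ A', i.unpair.1 = x := by
    intro x hx
    obtain ⟨h1, h2⟩ := (hA x).1 hx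
    refine ⟨Nat.pair x (Nat.find h2), ?_, by simp⟩
    rw [hA']
    simp only [Nat.unpair_pair]
    exact ⟨⟨Nat.find_spec h2, fun y hy => Nat.find_min h2 hy⟩, h1⟩
  have hA'inf : A'.Infinite := by
    intro hfin
    apply hinf
    refine (hfin.image (fun i => i.unpair.1)).subset ?_
    intro x hx
    obtain ⟨i, hi, hix⟩ := hsurj x hx
    exact ⟨i, hi, hix⟩
  -- indices whose first component lies in `B` are bounded
  obtain ⟨M, hM⟩ : ∃ M, ∀ i ∈ A', M < i → i.unpair.1 ∉ B := by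
    have hfin : {i | i ∈ A' ∧ i.unpair.1 ∈ B}.Finite := by
      apply Set.Finite.of_finite_image (f := fun i : ℕ => i.unpair.1)
      · refine hBfin.subset ?_
        rintro _ ⟨i, hi, rfl⟩
        exact hi.2
      · intro i hi j hj hij
        exact hinj i hi.1 j hj.1 hij
    obtain ⟨M, hM⟩ := hfin.bddAbove
    refine ⟨M, fun i hi hlt hmem => ?_⟩
    have := hM ⟨hi, hmem⟩
    omega
  obtain ⟨s, G, hGk, hGA, hGp⟩ :=
    exists_block k (alOf D) (alOf_alive D) A' hA'inf (fun x => Iff.rfl) M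
  -- two members of the block in the same part
  have hpart : ∀ w : ℕ, ∃ i : Fin k, w ∈ G → w.unpair.1 ∈ Hs i := by
    intro w
    by_cases hw : w ∈ G
    · have h1 := hcov (hA'A w (hGA w hw).1)
      obtain ⟨i, hi⟩ := Set.mem_iUnion.1 h1
      exact ⟨i, fun _ => hi⟩
    · have hk : 0 < k := by
        have hne : G.Nonempty := Finset.card_pos.1 (by omega)
        obtain ⟨w', hw'⟩ := hne
        obtain ⟨i, -⟩ := Set.mem_iUnion.1 (hcov (hA'A w' (hGA w' hw').1))
        exact i.pos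
      exact ⟨⟨0, hk⟩, fun h => absurd h hw⟩
  choose f hf using hpart
  obtain ⟨u, hu, v, hv, hlt, hfe⟩ : ∃ u ∈ G, ∃ v ∈ G, u < v ∧ f u = f v := by
    obtain ⟨u, hu, v, hv, hne, hfe⟩ := Finset.exists_ne_map_eq_of_card_lt_of_maps_to
      (s := G) (t := (Finset.univ : Finset (Fin k))) (f := f) (by simpa using hGk)
      (fun _ _ => Finset.mem_univ _)
    rcases lt_or_gt_of_ne hne with h | h
    · exact ⟨u, hu, v, hv, h, hfe⟩
    · exact ⟨v, hv, u, hu, h, hfe.symm⟩
  obtain ⟨i, hi⟩ : ∃ i, i = f u := ⟨_, rfl⟩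
  have huH0 : u.unpair.1 ∈ Hs i := hi ▸ hf u hu
  have hvH0 : v.unpair.1 ∈ Hs i := by rw [hi, hfe]; exact hf v hv
  obtain ⟨huA, hMu⟩ := hGA u hu
  obtain ⟨hvA, hMv⟩ := hGA v hv
  have huB := hM u huA hMu
  have hvB := hM v hvA hMv
  have hHi : (Hs i).Infinite := by
    intro hfin
    apply huB
    refine Or.inr (Set.mem_iUnion.2 ⟨i, ?_⟩)
    rw [if_pos hfin]
    exact huH0
  set H : Set ℕ := Hs i \ B with hH
  have hHinf : H.Infinite := hHi.sdiff hBfin
  have huH : u.unpair.1 ∈ H := ⟨huH0, huB⟩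
  have hvH : v.unpair.1 ∈ H := ⟨hvH0, hvB⟩
  obtain ⟨huv, hne⟩ := hGp u hu v hv hlt
  set N : ℕ := s * s + s + u + v + 2 with hN
  have hL1 : IterLim (m + 1) (fun l => ∀ i < N, (gT l i = true ↔ i ∈ T)) :=
    IterLim.forall_lt (p := fun i l => (gT l i = true ↔ i ∈ T)) N hlimT
  have hL1' : IterLim (m + 1) (fun l => ∀ i < N, (gR l i = true ↔ i ∈ R)) :=
    IterLim.forall_lt (p := fun i l => (gR l i = true ↔ i ∈ R)) N hlimR
  have hL2 : IterLim (m + 1) (fun l => N ≤ l.headI) :=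
    ⟨N, fun y hy => IterLim.of_forall (fun l => by simpa using hy)⟩
  obtain ⟨l, hlen, hlp, hlH, ⟨hl1, hl1'⟩, hl2⟩ :=
    ((hL1.and hL1').and hL2).exists_list H hHinf (max u.unpair.1 v.unpair.1)
  have hgt : ∀ z < N, gT l z = t z := by
    intro z hz
    rw [Bool.eq_iff_iff, hl1 z hz]
    simp [t]
  have hgr : ∀ z < N, gR l z = r z := by
    intro z hz
    rw [Bool.eq_iff_iff, hl1' z hz]
    simp [r]
  have hDD : ∀ x < s, ∀ k < s, DD (gT l) (gR l) x k = D x k :=
    DD_congr _ _ _ _ s (fun z hz => hgt z (by omega)) (fun z hz => hgr z (by omega))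
  have hal := alOf_congr _ _ s hDD
  have hrun : run K (alOf (DD (gT l) (gR l))) s = run K (alOf D) s :=
    run_congr K _ _ s hal
  have hcol := col_ne K (alOf (DD (gT l) (gR l))) s u v hlt
    (by rw [hrun]; exact huv) (by rw [hrun]; exact hne) l.headI (by omega)
  -- the index computed from `l` is right
  have hidx : ∀ w ∈ A', w ≤ u + v → idx (gR l) l.headI w.unpair.1 = w := by
    intro w hw hwle
    obtain ⟨⟨h1, h2⟩, -⟩ := (hA' w).1 hw
    have h5 : w.unpair.2 ≤ w := Nat.unpair_right_le w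
    have h6 : ∀ y ≤ w.unpair.2, Nat.pair w.unpair.1 y ≤ w := by
      intro y hy
      rcases Nat.lt_or_eq_of_le hy with h | h
      · have h7 := Nat.pair_lt_pair_right w.unpair.1 h
        rw [Nat.pair_unpair] at h7
        omega
      · rw [h, Nat.pair_unpair]
    unfold idx
    rw [least_spec (fun y => gR l (Nat.pair w.unpair.1 y)) w.unpair.2 ?_ ?_ l.headI (by omega),
      Nat.pair_unpair]
    · change gR l (Nat.pair w.unpair.1 w.unpair.2) = true
      rw [Nat.pair_unpair, hgr w (by omega)]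
      simpa [r] using h1
    · intro y hy
      change gR l (Nat.pair w.unpair.1 y) = false
      have h8 := h6 y hy.le
      rw [hgr _ (by omega)]
      simpa [r] using h2 y hy
  set c : ℕ := col K (alOf (DD (gT l) (gR l))) l.headI u with hc
  have hcK : c < K := Nat.mod_lt _ (by omega)
  have hcu : colC K gT gR c (u.unpair.1 :: l) = true := by
    change decide (col K (alOf (DD (gT l) (gR l))) l.headI (idx (gR l) l.headI u.unpair.1) = c)
      = true
    rw [hidx u huA (by omega), decide_eq_true_eq]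
  have hcv : ¬ colC K gT gR c (v.unpair.1 :: l) = true := by
    change ¬ decide (col K (alOf (DD (gT l) (gR l))) l.headI
      (idx (gR l) l.headI v.unpair.1) = c) = true
    rw [hidx v hvA (by omega), decide_eq_true_eq]
    exact fun h => hcol h.symm
  have hup : (u.unpair.1 :: l).Pairwise (· < ·) := by
    rw [List.pairwise_cons]
    exact ⟨fun z hz => by have := (hlH z hz).2; omega, hlp⟩
  have hvp : (v.unpair.1 :: l).Pairwise (· < ·) := by
    rw [List.pairwise_cons]
    exact ⟨fun z hz => by have := (hlH z hz).2; omega, hlp⟩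
  have hsub : ∀ w, w ∈ H →
      (((w :: l).toFinset : Finset ℕ) : Set ℕ) ⊆ Hs i \ (F i ⟨c, hcK⟩ : Set ℕ) := by
    intro w hw z hz
    have hzH : z ∈ H := by
      simp only [List.coe_toFinset, List.mem_cons, Set.mem_ofPred_eq] at hz
      rcases hz with rfl | hz
      · exact hw
      · exact (hlH z hz).1
    refine ⟨hzH.1, fun hzF => hzH.2 ?_⟩
    exact Or.inl (Set.mem_iUnion.2 ⟨i, Set.mem_iUnion.2 ⟨⟨c, hcK⟩, hzF⟩⟩)
  have hcard : ∀ w, (w :: l).Pairwise (· < ·) → (w :: l).toFinset.card = m + 2 := by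
    intro w hw
    rw [List.toFinset_card_of_nodup (hw.imp (fun h => ne_of_lt h))]
    simp [hlen]
  have hmu := mem_partC (colC K gT gR c) (m + 2) (u.unpair.1 :: l) hup
  have hmv := mem_partC (colC K gT gR c) (m + 2) (v.unpair.1 :: l) hvp
  have hlu : (u.unpair.1 :: l).length = m + 2 := by simp [hlen]
  have hlv : (v.unpair.1 :: l).length = m + 2 := by simp [hlen]
  rcases hF i ⟨c, hcK⟩ with hF | hF
  · have h8 := (hmv.1 (hF _ (hcard _ hvp) (hsub _ hvH))).2
    exact hcv h8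
  · exact hF _ (hcard _ hup) (hsub _ huH) (hmu.2 ⟨hlu, hcu⟩)

/-- An infinite Boolean combination `A` of `Σ⁰_n` sets, `n ≥ 2`: there are finitely many computable
partitions of exponent `n` such that whenever `A` is covered by `k` sets, one of these sets is not
almost homogeneous for one of the partitions. -/
theorem bool_cover (n : ℕ) (hn : 2 ≤ n) (k : ℕ) (A : Set ℕ) (hinf : A.Infinite)
    (hA : BoolSigma n A) :
    ∃ C : ℕ → Set (Finset ℕ), (∀ c, IsCompPartition n (C c)) ∧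
      ∀ H : Fin k → Set ℕ, A ⊆ (⋃ i, H i) →
        ∃ i, ∃ c < k * k + 1, ¬ AlmostHomogeneous n (H i) (C c) := by
  obtain ⟨m, rfl⟩ : ∃ m, n = m + 2 := ⟨n - 2, by omega⟩
  obtain ⟨L, h1, h2⟩ := dn_of_bool (n := m + 1) hA
  have h3 : ∃ p ∈ L, (p.1 ∩ p.2).Infinite := by
    by_contra hcon
    push Not at hcon
    apply hinf
    have h4 : A ⊆ ⋃ p ∈ L.toFinset.attach, (p.1.1 ∩ p.1.2) := by
      intro x hx
      obtain ⟨p, hp, hx1, hx2⟩ := (h2 x).1 hx
      simp only [Set.mem_iUnion]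
      exact ⟨⟨p, List.mem_toFinset.2 hp⟩, by simp, hx1, hx2⟩
    refine Set.Finite.subset ?_ h4
    apply Set.Finite.biUnion (Finset.finite_toSet _)
    intro p _
    have := hcon p.1 (List.mem_toFinset.1 p.2)
    simpa using this
  obtain ⟨p, hp, hpinf⟩ := h3
  obtain ⟨⟨T, hT, hpT⟩, ⟨R, hR, hpR⟩⟩ := h1 p hp
  obtain ⟨C, hC, hnot⟩ := core m k T R (p.1 ∩ p.2) hT hR
    (fun x => by rw [Set.mem_inter_iff, hpT, hpR]) hpinf
  refine ⟨C, hC, fun H hH => hnot H (fun x hx => hH ?_)⟩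
  exact (h2 x).2 ⟨p, hp, hx.1, hx.2⟩

end Pool.Agent.KS6_27.CU
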