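import Mathlib
import Pool.Agent.KS6_27.Sub

/-! # The subspace theorem for a generic sequence, second version -/

set_option autoImplicit false
set_option linter.unusedSectionVars false

open Finset Matrix Filter Topology

namespace Pool.Agent.KS6_27

/-- **The subspace theorem for a generic sequence**, for all choices of independent forms. -/
theorem subspace_seq2 {k : ℕ} (hk : 0 < k) {ι : Type} [Fintype ι] [DecidableEq ι]
    (M : ι → Fin k → ℝ) (halg : ∀ p j, IsAlgebraic ℚ (M p j)) (z : ℕ → Fin k → ℤ)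
    (hz : ∀ n, z n ≠ 0)
    (hgen : ∀ y : Fin k → ℤ, y ≠ 0 → ∀ᶠ n in atTop, ∑ j, y j * z n j ≠ 0)
    (L : ℕ → ℝ) (hL : Tendsto L atTop atTop) (w : ℕ → ι → ℝ) (C₀ C₁ : ℝ) (hC₁ : 0 < C₁)
    (hw : ∀ᶠ n in atTop, ∀ p, |w n p| ≤ C₀ * L n)
    (hb : ∀ᶠ n in atTop, ∀ p, |fv M p (z n)| ≤ C₁ * Real.exp (w n p)) {η : ℝ} (hη : 0 < η) :
    ∀ᶠ n in atTop, ∀ b : Fin k → ι, (sb M b).det ≠ 0 → -(η * L n) ≤ ∑ i, w n (b i) := by
  classical
  have hne : Nonempty (Fin k) := ⟨⟨0, hk⟩⟩
  rw [Filter.eventually_all]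
  intro b
  by_cases hdet : (sb M b).det = 0
  · exact Filter.Eventually.of_forall fun n h => absurd hdet h
  by_contra hcon
  rw [Filter.not_eventually] at hcon
  have hcon' : ∃ᶠ n in atTop, ∑ i, w n (b i) < -(η * L n) := by
    refine hcon.mono fun n hn => ?_
    push Not at hn
    exact hn.2
  have hbig : ∀ᶠ n in atTop, 1 ≤ L n ∧ k * Real.log C₁ ≤ η / 2 * L n ∧
      (∀ p, |w n p| ≤ C₀ * L n) ∧ ∀ p, |fv M p (z n)| ≤ C₁ * Real.exp (w n p) := by
    have h2 := hL.eventually (eventually_ge_atTop (1 : ℝ))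
    have h3 := hL.eventually (eventually_ge_atTop (k * Real.log C₁ / (η / 2)))
    filter_upwards [h2, h3, hw, hb] with n h2 h3 h4 h5
    refine ⟨h2, ?_, h4, h5⟩
    rw [div_le_iff₀ (by positivity)] at h3
    linarith
  obtain ⟨ψ, hψ, hψb⟩ := extraction_of_frequently_atTop (hcon'.and_eventually hbig)
  set c : ℝ := |C₀| + |Real.log C₁| + 1 with hc
  have habs0 : 0 ≤ |C₀| := abs_nonneg _
  have habs1 : 0 ≤ |Real.log C₁| := abs_nonneg _
  obtain ⟨y, hy, hyf⟩ := Pool.Agent.V1189.RT.subR (sb M b) (fun i j => halg (b i) j) hdet 0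
    (fun v => v.elim0) (fun v => v.elim0) c (η / 2) (by rw [hc]; linarith) (by positivity)
    (fun t => L (ψ t)) (hL.comp hψ.tendsto_atTop) (fun _ v => v.elim0) (fun _ _ => 1)
    (fun t l => by simp) (fun t i => C₁ * Real.exp (w (ψ t) (b i)))
    (fun t i => by positivity) (fun t i => by
      rw [Real.log_mul hC₁.ne' (Real.exp_pos _).ne', Real.log_exp]
      refine (abs_add_le _ _).trans ?_
      have h1 := (hψb t).2.2.2.1 (b i)
      have h2 := (hψb t).2.1
      have h3 : C₀ * L (ψ t) ≤ |C₀| * L (ψ t) :=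
        mul_le_mul_of_nonneg_right (le_abs_self _) (by linarith)
      have h4 : |Real.log C₁| ≤ |Real.log C₁| * L (ψ t) := le_mul_of_one_le_right habs1 h2
      rw [hc]
      have h5 : (|C₀| + |Real.log C₁| + 1) * L (ψ t) =
        |C₀| * L (ψ t) + |Real.log C₁| * L (ψ t) + L (ψ t) := by ring
      rw [h5]
      linarith) (fun t => by
      simp only [Nat.cast_one, Real.log_one, Finset.sum_const_zero]
      have := (hψb t).2.1
      have h2 : 0 ≤ c := by rw [hc]; linarith
      positivity) (fun t => by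
      simp only [Nat.cast_one, Real.log_one, Finset.sum_const_zero]
      have h1 : ∑ i, Real.log (C₁ * Real.exp (w (ψ t) (b i))) =
          k * Real.log C₁ + ∑ i, w (ψ t) (b i) := by
        have h0 : ∀ i ∈ (Finset.univ : Finset (Fin k)),
            Real.log (C₁ * Real.exp (w (ψ t) (b i))) = Real.log C₁ + w (ψ t) (b i) := fun i _ => by
          rw [Real.log_mul hC₁.ne' (Real.exp_pos _).ne', Real.log_exp]
        rw [Finset.sum_congr rfl h0, Finset.sum_add_distrib, Finset.sum_const, Finset.card_univ,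
          Fintype.card_fin, nsmul_eq_mul]
      rw [h1]
      have h2 := (hψb t).1
      have h3 := (hψb t).2.2.1
      linarith) (fun t => z (ψ t)) (fun t => hz _) (fun t i => by
      simp only [Nat.cast_one, one_mul]
      exact (hψb t).2.2.2.2 (b i))
  have h1 := hgen y hy
  have h2 := (hψ.tendsto_atTop.eventually h1)
  obtain ⟨t, ht1, ht2⟩ := (hyf.and_eventually h2).exists
  apply ht2
  rw [← ht1]
  refine Finset.sum_congr rfl fun j _ => ?_
  simp

end Pool.Agent.KS6_27
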