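import Mathlib
import Pool.Agent.KS6_27.Str2
import Pool.Agent.KS6_27.Sub2

/-! # Two lattices: integer matrices which nearly map one orbit point to another -/

set_option autoImplicit false
set_option linter.unusedSectionVars false

open Finset Matrix Filter Topology H715R2 Module
open Pool.Agent.T6.H49.CSD (cj cj_one cj_mul cj_add cj_sub cj_smul cj_diagonal rigid zR_add
  zR_smul inv_diagonal_mul)

namespace Pool.Agent.KS6_27

variable {d k : ℕ}

/-- the integer matrix `γ` seen in the coordinates given by `g` and `h` -/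
noncomputable def c2 (g h : Matrix (Fin d) (Fin d) ℝ) (γ : Matrix (Fin d) (Fin d) ℤ) :
    Matrix (Fin d) (Fin d) ℝ := g * zR γ * h⁻¹

lemma c2_add (g h : Matrix (Fin d) (Fin d) ℝ) (γ δ : Matrix (Fin d) (Fin d) ℤ) :
    c2 g h (γ + δ) = c2 g h γ + c2 g h δ := by
  rw [c2, c2, c2, zR_add, Matrix.mul_add, Matrix.add_mul]

lemma c2_smul (g h : Matrix (Fin d) (Fin d) ℝ) (t : ℤ) (γ : Matrix (Fin d) (Fin d) ℤ) :
    c2 g h (t • γ) = (t : ℝ) • c2 g h γ := by
  rw [c2, c2, zR_smul, Matrix.mul_smul, Matrix.smul_mul]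

lemma c2_sum {κ : Type} (s : Finset κ) (g h : Matrix (Fin d) (Fin d) ℝ)
    (f : κ → Matrix (Fin d) (Fin d) ℤ) : c2 g h (∑ r ∈ s, f r) = ∑ r ∈ s, c2 g h (f r) := by
  classical
  induction s using Finset.induction_on with
  | empty =>
    rw [Finset.sum_empty, Finset.sum_empty, c2]
    have : zR (0 : Matrix (Fin d) (Fin d) ℤ) = 0 := by
      ext i j
      simp [zR]
    rw [this, Matrix.mul_zero, Matrix.zero_mul]
  | insert r s hr ih => rw [Finset.sum_insert hr, Finset.sum_insert hr, c2_add, ih]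

/-- the forms `γ ↦ (g γ h⁻¹) i j` in the coordinates given by some integer matrices -/
noncomputable def Mf2 (g h : Matrix (Fin d) (Fin d) ℝ) (v : Fin k → Fin d × Fin d → ℤ) :
    Fin d × Fin d → Fin k → ℝ := fun p r => c2 g h (iM (v r)) p.1 p.2

lemma fv_Mf2 (g h : Matrix (Fin d) (Fin d) ℝ) (v : Fin k → Fin d × Fin d → ℤ)
    (p : Fin d × Fin d) (x : Fin k → ℤ) :
    fv (Mf2 g h v) p x = c2 g h (iM fun a => ∑ r, x r * v r a) p.1 p.2 := by
  rw [iM_sum, c2_sum, Matrix.sum_apply]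
  unfold fv Mf2
  refine Finset.sum_congr rfl fun r _ => ?_
  rw [c2_smul, Matrix.smul_apply, smul_eq_mul, mul_comm]

lemma c2_eq_cj {g h : Matrix (Fin d) (Fin d) ℝ} (hg : g.det ≠ 0)
    (γ : Matrix (Fin d) (Fin d) ℤ) : c2 g h γ = cj g γ * (g * h⁻¹) := by
  rw [c2, cj]
  calc g * zR γ * h⁻¹ = g * zR γ * (g⁻¹ * g) * h⁻¹ := by
        rw [Matrix.nonsing_inv_mul _ (isUnit_iff_ne_zero.2 hg), Matrix.mul_one]
    _ = _ := by simp only [Matrix.mul_assoc]

lemma exists_det_Mf2 {g h : Matrix (Fin d) (Fin d) ℝ} (hg : g.det ≠ 0) (hh : h.det ≠ 0)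
    {v A : Fin k → Fin d × Fin d → ℤ} {D : ℤ} (hD : D ≠ 0)
    (hA : ∀ i j, ∑ a, A i a * v j a = if i = j then D else 0) :
    ∃ b : Fin k → Fin d × Fin d, (sb (Mf2 g h v) b).det ≠ 0 := by
  classical
  refine exists_det _ fun c hc => ?_
  have hu := isUnit_iff_ne_zero.2 hg
  have hu' := isUnit_iff_ne_zero.2 hh
  have h1 : ∑ r, c r • c2 g h (iM (v r)) = 0 := by
    ext i j
    rw [Matrix.sum_apply, Matrix.zero_apply, ← hc (i, j)]
    refine Finset.sum_congr rfl fun r _ => ?_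
    rw [Matrix.smul_apply, smul_eq_mul, mul_comm]
    rfl
  have h2 : ∑ r, c r • zR (iM (v r)) = 0 := by
    have h3 : g⁻¹ * (∑ r, c r • c2 g h (iM (v r))) * h = ∑ r, c r • zR (iM (v r)) := by
      rw [Finset.mul_sum, Finset.sum_mul]
      refine Finset.sum_congr rfl fun r _ => ?_
      rw [Matrix.mul_smul, Matrix.smul_mul, c2]
      congr 1
      calc g⁻¹ * (g * zR (iM (v r)) * h⁻¹) * h = (g⁻¹ * g) * zR (iM (v r)) * (h⁻¹ * h) := by
            simp only [Matrix.mul_assoc]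
        _ = _ := by
            rw [Matrix.nonsing_inv_mul _ hu, Matrix.nonsing_inv_mul _ hu', Matrix.one_mul,
              Matrix.mul_one]
    rw [← h3, h1, Matrix.mul_zero, Matrix.zero_mul]
  have h3 : ∀ a : Fin d × Fin d, ∑ r, c r * (v r a : ℝ) = 0 := by
    intro a
    have := congrFun (congrFun h2 a.1) a.2
    rw [Matrix.sum_apply] at this
    rw [Matrix.zero_apply] at this
    rw [← this]
    rfl
  funext i
  have h4 : ∑ r, c r * (∑ a, (A i a : ℝ) * (v r a : ℝ)) = 0 := by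
    have h5 : ∑ r, c r * (∑ a, (A i a : ℝ) * (v r a : ℝ)) =
        ∑ a, (A i a : ℝ) * ∑ r, c r * (v r a : ℝ) := by
      simp only [Finset.mul_sum]
      rw [Finset.sum_comm]
      exact Finset.sum_congr rfl fun a _ => Finset.sum_congr rfl fun r _ => by ring
    rw [h5]
    exact Finset.sum_eq_zero fun a _ => by rw [h3, mul_zero]
  have h5 : ∀ r, ∑ a, (A i a : ℝ) * (v r a : ℝ) = if i = r then (D : ℝ) else 0 := by
    intro r
    have := hA i r
    have h6 : ((∑ a, A i a * v r a : ℤ) : ℝ) = ((if i = r then D else 0 : ℤ) : ℝ) := by rw [this]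
    push_cast at h6
    rw [h6]
  simp only [h5, mul_ite, mul_zero] at h4
  rw [Finset.sum_ite_eq Finset.univ i (fun r => c r * (D : ℝ)), if_pos (Finset.mem_univ _)] at h4
  have hD' : (D : ℝ) ≠ 0 := by exact_mod_cast hD
  exact (mul_eq_zero.1 h4).resolve_right hD'

lemma c2_alg {g h : Matrix (Fin d) (Fin d) ℝ} (halg : ∀ i j, IsAlgebraic ℚ (g i j))
    (halg' : ∀ i j, IsAlgebraic ℚ (h i j))
    (γ : Matrix (Fin d) (Fin d) ℤ) (i j : Fin d) : IsAlgebraic ℚ (c2 g h γ i j) := by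
  have h1 : ∀ i j, g i j ∈ algebraicClosure ℚ ℝ := fun i j =>
    mem_algebraicClosure_iff.2 (halg i j)
  have h2 : ∀ i j, h i j ∈ algebraicClosure ℚ ℝ := fun i j =>
    mem_algebraicClosure_iff.2 (halg' i j)
  rw [← mem_algebraicClosure_iff, c2, Matrix.mul_apply]
  refine sum_mem fun m _ => mul_mem ?_ (inv_mem_field _ h2 _ _)
  rw [Matrix.mul_apply]
  exact sum_mem fun l _ => mul_mem (h1 _ _) (intCast_mem _ _)

lemma c2_diagonal {g h : Matrix (Fin d) (Fin d) ℝ} (hh : h.det ≠ 0) {a a' : Fin d → ℝ}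
    (ha' : ∀ i, a' i ≠ 0) (γ : Matrix (Fin d) (Fin d) ℤ) (i j : Fin d) :
    c2 (diagonal a * g) (diagonal a' * h) γ i j = a i * c2 g h γ i j * (a' j)⁻¹ := by
  have h1 : c2 (diagonal a * g) (diagonal a' * h) γ =
      diagonal a * c2 g h γ * diagonal fun i => (a' i)⁻¹ := by
    rw [c2, c2, inv_diagonal_mul hh ha']
    simp only [Matrix.mul_assoc]
  rw [h1, mul_diagonal, diagonal_mul]

/-- **Uniform rigidity for two lattices.** -/
theorem rigid2 (hd : 0 < d) {V ν : ℝ} (hV : 0 < V) (hν : 0 < ν) :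
    ∃ η : ℝ, 0 < η ∧ ∀ G H : Matrix (Fin d) (Fin d) ℝ, HasNu G ν → |H.det| = V → HasNu H ν →
      ∀ C : Matrix (Fin d) (Fin d) ℤ, (∀ i j, |c2 G H C i j| ≤ η) → C = 0 := by
  classical
  obtain ⟨R₀, hR₀⟩ := exists_bound hd V ν hV hν
  set R : ℝ := max R₀ 1 with hR
  have hR1 : 1 ≤ R := le_max_right _ _
  have hd' : (0 : ℝ) < d := by exact_mod_cast hd
  refine ⟨min 1 ν / (2 * d * R), by positivity, fun G H hG hdet hH C hC => ?_⟩
  have hne : H.det ≠ 0 := by
    intro h0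
    rw [h0, abs_zero] at hdet
    exact hV.ne hdet
  obtain ⟨P, hP, hPR⟩ := hR₀ H hdet hH
  have hGC : G * zR (C * P) = c2 G H C * (H * zR P) := by
    rw [c2, zR_mul]
    calc G * (zR C * zR P) = G * zR C * 1 * zR P := by
          rw [Matrix.mul_one]; simp only [Matrix.mul_assoc]
      _ = G * zR C * (H⁻¹ * H) * zR P := by
          rw [Matrix.nonsing_inv_mul _ (isUnit_iff_ne_zero.2 hne)]
      _ = _ := by simp only [Matrix.mul_assoc]
  have hent : ∀ i j, |(G * zR (C * P)) i j| ≤ min 1 ν / 2 := by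
    intro i j
    rw [hGC, Matrix.mul_apply]
    calc |∑ l, c2 G H C i l * (H * zR P) l j| ≤ ∑ l, |c2 G H C i l * (H * zR P) l j| :=
          Finset.abs_sum_le_sum_abs _ _
      _ ≤ ∑ _l : Fin d, min 1 ν / (2 * d * R) * R := by
          refine Finset.sum_le_sum fun l _ => ?_
          rw [abs_mul]
          exact mul_le_mul (hC i l) ((hPR l j).trans (le_max_left _ _)) (abs_nonneg _)
            (by positivity)
      _ = min 1 ν / 2 := by
          rw [Finset.sum_const, Finset.card_univ, Fintype.card_fin, nsmul_eq_mul]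
          field_simp
  have hCP : C * P = 0 := by
    ext l j
    by_contra hne'
    have hy : (fun l => (C * P) l j) ≠ 0 := by
      intro h0
      exact hne' (congrFun h0 l)
    have h1 := hG _ hy
    have h2 : |FF G (iR fun l => (C * P) l j)| ≤ min 1 ν / 2 := by
      rw [FF, Finset.abs_prod]
      have h3 : ∀ i, |∑ l, G i l * iR (fun l => (C * P) l j) l| ≤ min 1 ν / 2 := fun i => by
        have := hent i j
        rw [Matrix.mul_apply] at this
        exact this
      have h4 : (0 : ℝ) ≤ min 1 ν / 2 := by positivity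
      have h5 : min 1 ν / 2 ≤ 1 := by
        have := min_le_left 1 ν
        linarith
      calc ∏ i, |∑ l, G i l * iR (fun l => (C * P) l j) l| ≤ ∏ _i : Fin d, min 1 ν / 2 :=
            Finset.prod_le_prod (fun _ _ => abs_nonneg _) fun i _ => h3 i
        _ = (min 1 ν / 2) ^ d := by
            rw [Finset.prod_const, Finset.card_univ, Fintype.card_fin]
        _ ≤ (min 1 ν / 2) ^ 1 := pow_le_pow_of_le_one h4 h5 hd
        _ = _ := pow_one _
    have h6 : min 1 ν / 2 < ν := by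
      have := min_le_right 1 ν
      linarith
    linarith
  calc C = C * (P * P⁻¹) := by rw [Matrix.mul_nonsing_inv _ hP, Matrix.mul_one]
    _ = 0 := by rw [← Matrix.mul_assoc, hCP, Matrix.zero_mul]

/-- the inverse of a nearly diagonal matrix -/
lemma near_inv {N : Matrix (Fin d) (Fin d) ℝ} (hN : N.det ≠ 0) {s t : ℝ}
    (hdiag : ∀ i, Real.exp (-t) ≤ |N i i|) (hoff : ∀ i j, i ≠ j → |N i j| ≤ Real.exp (-s))
    (hst : d * Real.exp (t - s) ≤ 1 / 2) :
    (∀ i j, |N⁻¹ i j| ≤ 2 * Real.exp t) ∧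
      ∀ i j, i ≠ j → |N⁻¹ i j| ≤ 2 * Real.exp t * (d * Real.exp (t - s)) := by
  classical
  have hprod : N * N⁻¹ = 1 := Matrix.mul_nonsing_inv _ (isUnit_iff_ne_zero.2 hN)
  have hrel : ∀ i j (μ : ℝ), (∀ m, |N⁻¹ m j| ≤ μ) →
      |N⁻¹ i j| ≤ Real.exp t * (|(1 : Matrix (Fin d) (Fin d) ℝ) i j| + d * Real.exp (-s) * μ) := by
    intro i j μ hμ
    have h1 := congrFun (congrFun hprod i) j
    rw [Matrix.mul_apply, ← Finset.add_sum_erase _ _ (Finset.mem_univ i)] at h1
    have h2 : |∑ m ∈ Finset.univ.erase i, N i m * N⁻¹ m j| ≤ d * Real.exp (-s) * μ := by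
      have hμ0 : 0 ≤ μ := (abs_nonneg _).trans (hμ i)
      calc |∑ m ∈ Finset.univ.erase i, N i m * N⁻¹ m j| ≤
            ∑ m ∈ Finset.univ.erase i, |N i m * N⁻¹ m j| := Finset.abs_sum_le_sum_abs _ _
        _ ≤ ∑ _m ∈ Finset.univ.erase i, Real.exp (-s) * μ := by
            refine Finset.sum_le_sum fun m hm => ?_
            rw [abs_mul]
            exact mul_le_mul (hoff i m (Finset.ne_of_mem_erase hm).symm) (hμ m) (abs_nonneg _)
              (Real.exp_pos _).le
        _ ≤ ∑ _m : Fin d, Real.exp (-s) * μ :=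
            Finset.sum_le_sum_of_subset_of_nonneg (Finset.subset_univ _)
              fun _ _ _ => by positivity
        _ = _ := by
            rw [Finset.sum_const, Finset.card_univ, Fintype.card_fin, nsmul_eq_mul]
            ring
    have h3 : |N i i * N⁻¹ i j| ≤ |(1 : Matrix (Fin d) (Fin d) ℝ) i j| + d * Real.exp (-s) * μ := by
      have h4 : N i i * N⁻¹ i j = (1 : Matrix (Fin d) (Fin d) ℝ) i j -
          ∑ m ∈ Finset.univ.erase i, N i m * N⁻¹ m j := by linarith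
      rw [h4]
      exact (abs_sub _ _).trans (by linarith)
    rw [abs_mul] at h3
    have h5 : Real.exp (-t) * |N⁻¹ i j| ≤
        |(1 : Matrix (Fin d) (Fin d) ℝ) i j| + d * Real.exp (-s) * μ :=
      (mul_le_mul_of_nonneg_right (hdiag i) (abs_nonneg _)).trans h3
    calc |N⁻¹ i j| = Real.exp t * (Real.exp (-t) * |N⁻¹ i j|) := by
          rw [← mul_assoc, ← Real.exp_add, add_neg_cancel, Real.exp_zero, one_mul]
      _ ≤ _ := mul_le_mul_of_nonneg_left h5 (Real.exp_pos _).le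
  have hexp : Real.exp t * Real.exp (-s) = Real.exp (t - s) := by
    rw [← Real.exp_add]
    rfl
  have hall : ∀ i j, |N⁻¹ i j| ≤ 2 * Real.exp t := by
    intro i j
    obtain ⟨i₀, -, hi₀⟩ := Finset.exists_max_image (Finset.univ : Finset (Fin d))
      (fun m => |N⁻¹ m j|) ⟨i, Finset.mem_univ _⟩
    have h1 := hrel i₀ j (|N⁻¹ i₀ j|) fun m => hi₀ m (Finset.mem_univ _)
    have h2 : |(1 : Matrix (Fin d) (Fin d) ℝ) i₀ j| ≤ 1 := by
      by_cases h : i₀ = j
      · rw [h, Matrix.one_apply_eq, abs_one]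
      · rw [Matrix.one_apply_ne h, abs_zero]
        exact zero_le_one
    have h3 : |N⁻¹ i₀ j| ≤ Real.exp t + 1 / 2 * |N⁻¹ i₀ j| := by
      calc |N⁻¹ i₀ j| ≤ Real.exp t * (|(1 : Matrix (Fin d) (Fin d) ℝ) i₀ j| +
            d * Real.exp (-s) * |N⁻¹ i₀ j|) := h1
        _ ≤ Real.exp t * (1 + d * Real.exp (-s) * |N⁻¹ i₀ j|) := by gcongr
        _ = Real.exp t + (d * (Real.exp t * Real.exp (-s))) * |N⁻¹ i₀ j| := by ring
        _ ≤ _ := by
            rw [hexp]
            have := mul_le_mul_of_nonneg_right hst (abs_nonneg (N⁻¹ i₀ j))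
            linarith
    have h4 : |N⁻¹ i₀ j| ≤ 2 * Real.exp t := by linarith
    exact (hi₀ i (Finset.mem_univ _)).trans h4
  refine ⟨hall, fun i j hij => ?_⟩
  have h1 := hrel i j _ fun m => hall m j
  rw [Matrix.one_apply_ne hij, abs_zero, zero_add] at h1
  refine h1.trans (le_of_eq ?_)
  rw [← hexp]
  ring

/-- the left quotient of two integer matrices, in the coordinates given by the first lattice -/
lemma quot_eq {G H : Matrix (Fin d) (Fin d) ℝ} (hG : G.det ≠ 0) (hH : H.det ≠ 0)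
    {γ κ : Matrix (Fin d) (Fin d) ℤ} (hγ : γ.det ≠ 0) :
    cj G (κ * γ.adjugate) = (γ.det : ℝ) • (c2 G H κ * (c2 G H γ)⁻¹) := by
  have hγR : (zR γ).det ≠ 0 := by
    rw [det_zR]
    exact_mod_cast hγ
  have huG := isUnit_iff_ne_zero.2 hG
  have huH := isUnit_iff_ne_zero.2 hH
  have huγ := isUnit_iff_ne_zero.2 hγR
  have hadj : zR γ.adjugate = (γ.det : ℝ) • (zR γ)⁻¹ := by
    have h1 : zR γ * zR γ.adjugate = (γ.det : ℝ) • (1 : Matrix (Fin d) (Fin d) ℝ) := by
      rw [← zR_mul, Matrix.mul_adjugate, zR_smul, zR_one]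
    calc zR γ.adjugate = ((zR γ)⁻¹ * zR γ) * zR γ.adjugate := by
          rw [Matrix.nonsing_inv_mul _ huγ, Matrix.one_mul]
      _ = (zR γ)⁻¹ * ((γ.det : ℝ) • (1 : Matrix (Fin d) (Fin d) ℝ)) := by
          rw [Matrix.mul_assoc, h1]
      _ = _ := by rw [Matrix.mul_smul, Matrix.mul_one]
  have hinv : (c2 G H γ)⁻¹ = H * (zR γ)⁻¹ * G⁻¹ := by
    refine Matrix.inv_eq_right_inv ?_
    rw [c2]
    calc G * zR γ * H⁻¹ * (H * (zR γ)⁻¹ * G⁻¹) = G * zR γ * (H⁻¹ * H) * (zR γ)⁻¹ * G⁻¹ := by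
          simp only [Matrix.mul_assoc]
      _ = G * (zR γ * (zR γ)⁻¹) * G⁻¹ := by
          rw [Matrix.nonsing_inv_mul _ huH, Matrix.mul_one]
          simp only [Matrix.mul_assoc]
      _ = 1 := by
          rw [Matrix.mul_nonsing_inv _ huγ, Matrix.mul_one, Matrix.mul_nonsing_inv _ huG]
  rw [hinv, c2, cj, zR_mul, hadj, Matrix.mul_smul, Matrix.mul_smul, Matrix.smul_mul]
  congr 1
  calc G * (zR κ * (zR γ)⁻¹) * G⁻¹ = G * zR κ * 1 * (zR γ)⁻¹ * G⁻¹ := by
        rw [Matrix.mul_one]; simp only [Matrix.mul_assoc]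
    _ = G * zR κ * (H⁻¹ * H) * (zR γ)⁻¹ * G⁻¹ := by rw [Matrix.nonsing_inv_mul _ huH]
    _ = _ := by simp only [Matrix.mul_assoc]

end Pool.Agent.KS6_27
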