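import Mathlib
import Pool.Agent.KS6_27.Str3
import Pool.Agent.KS6_27.Cnt
import Pool.Agent.KS6_27.AlgF

/-! # Exponentially good encounters of two orbits of algebraic lattices -/

set_option autoImplicit false
set_option linter.unusedSectionVars false

open Finset Matrix Filter Topology H715R2 Module
open Pool.Agent.T6.H49.CSD (cj cj_one cj_mul cj_add cj_sub cj_smul cj_diagonal rigid)

namespace Pool.Agent.KS6_27

variable {d : ℕ}

/-- for a prime number of variables the rows have no rational eigenvalue equations -/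
lemma scalar_of_eg (hd : 3 ≤ d) (hp : d.Prime) {g : Matrix (Fin d) (Fin d) ℝ} (hg : g.det ≠ 0)
    {ν : ℝ} (hν : 0 < ν) (hnu : HasNu g ν) (hint : ¬ PropInt g) (i : Fin d)
    {X : Matrix (Fin d) (Fin d) ℚ} {x : ℝ} (hX : Eg (g i) X x) :
    ∃ q : ℚ, X = q • (1 : Matrix (Fin d) (Fin d) ℚ) := by
  have hr := row_ind hν hnu i
  have hd0 : 0 < d := by omega
  have hdeg := deg_le hd hg hν hnu hint i
  rw [hp.minFac_eq, Nat.div_self hd0] at hdeg
  have hfin := Kf_fin (g i) hr hd0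
  have h1 : finrank ℚ (Kf (g i) hr) = 1 := by
    have := Module.finrank_pos (R := ℚ) (M := Kf (g i) hr)
    omega
  have hbot : Kf (g i) hr = ⊥ := IntermediateField.finrank_eq_one_iff.1 h1
  have hx : x ∈ Kf (g i) hr := ⟨X, hX⟩
  rw [hbot, IntermediateField.mem_bot] at hx
  obtain ⟨q, hq⟩ := hx
  refine ⟨q, Eg.unique hr hX ?_⟩
  have h2 := Eg.algebraMap (g i) q
  rw [Algebra.algebraMap_eq_smul_one] at h2
  rw [← hq]
  exact h2

lemma cj_mul_c2 {g h : Matrix (Fin d) (Fin d) ℝ} (hg : g.det ≠ 0)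
    (γ δ : Matrix (Fin d) (Fin d) ℤ) : cj g γ * c2 g h δ = c2 g h (γ * δ) := by
  rw [cj, c2, c2, zR_mul]
  calc g * zR γ * g⁻¹ * (g * zR δ * h⁻¹) = g * zR γ * (g⁻¹ * g) * zR δ * h⁻¹ := by
        simp only [Matrix.mul_assoc]
    _ = g * zR γ * zR δ * h⁻¹ := by
        rw [Matrix.nonsing_inv_mul _ (isUnit_iff_ne_zero.2 hg), Matrix.mul_one]
    _ = _ := by simp only [Matrix.mul_assoc]

/-- **Exponentially good encounters of two orbits are exact in the largest direction.** -/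
theorem encounters (hd : 3 ≤ d) {g h : Matrix (Fin d) (Fin d) ℝ} (hg : g.det ≠ 0)
    (hh : h.det ≠ 0)
    (halg : ∀ i j, IsAlgebraic ℚ (g i j)) (halg' : ∀ i j, IsAlgebraic ℚ (h i j))
    {ν : ℝ} (hν : 0 < ν) (hnu : HasNu g ν) (hnu' : HasNu h ν) {ε : ℝ} (hε : 0 < ε) :
    ∃ η L₀ : ℝ, 0 < η ∧ ∀ L : ℝ, L₀ ≤ L → ∀ (a a' : Fin d → ℝ) (γ : Matrix (Fin d) (Fin d) ℤ),
      (∀ i, 0 < a i) → ∏ i, a i = 1 → (∀ i, 0 < a' i) → ∏ i, a' i = 1 →
      (∀ i, |Real.log (a i)| ≤ L) → (∀ i, |Real.log (a' i)| ≤ L) →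
      γ.det ≠ 0 → |(γ.det : ℝ)| ≤ Real.exp (η * L) →
      (∀ i, Real.exp (-(η * L)) ≤ |a i * c2 g h γ i i * (a' i)⁻¹| ∧
        |a i * c2 g h γ i i * (a' i)⁻¹| ≤ Real.exp (η * L)) →
      (∀ i j, i ≠ j → |a i * c2 g h γ i j * (a' j)⁻¹| ≤ Real.exp (-(ε * L))) →
      ∀ i, (∀ j, a j ≤ a i) → ((∀ j, a' j ≤ a' i) ∨ (d.Prime ∧ ¬ PropInt g)) →
        ∀ j, j ≠ i → c2 g h γ i j = 0 := by
  classical
  by_contra hcon
  push Not at hcon
  have hd0 : 0 < d := by omega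
  have hcon' : ∀ n : ℕ, ∃ (L : ℝ) (a a' : Fin d → ℝ) (γ : Matrix (Fin d) (Fin d) ℤ)
      (i j : Fin d), (n : ℝ) ≤ L ∧ (∀ i, 0 < a i) ∧ ∏ i, a i = 1 ∧ (∀ i, 0 < a' i) ∧
      ∏ i, a' i = 1 ∧ (∀ i, |Real.log (a i)| ≤ L) ∧ (∀ i, |Real.log (a' i)| ≤ L) ∧
      γ.det ≠ 0 ∧ |(γ.det : ℝ)| ≤ Real.exp (1 / ((n : ℝ) + 1) * L) ∧
      (∀ i, Real.exp (-(1 / ((n : ℝ) + 1) * L)) ≤ |a i * c2 g h γ i i * (a' i)⁻¹| ∧
        |a i * c2 g h γ i i * (a' i)⁻¹| ≤ Real.exp (1 / ((n : ℝ) + 1) * L)) ∧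
      (∀ i j, i ≠ j → |a i * c2 g h γ i j * (a' j)⁻¹| ≤ Real.exp (-(ε * L))) ∧
      (∀ j, a j ≤ a i) ∧ ((∀ j, a' j ≤ a' i) ∨ (d.Prime ∧ ¬ PropInt g)) ∧ j ≠ i ∧
      c2 g h γ i j ≠ 0 := by
    intro n
    obtain ⟨L, hL, a, a', γ, h1, h2, h3, h4, h5, h6, h7, h8, h9, h10, i, h11, h12, j, h13, h14⟩ :=
      hcon (1 / ((n : ℝ) + 1)) n (by positivity)
    exact ⟨L, a, a', γ, i, j, hL, h1, h2, h3, h4, h5, h6, h7, h8, h9, h10, h11, h12, h13, h14⟩
  choose L a a' γ i j hL ha ha1 ha' ha1' hLa hLa' hγ hdet hdiag hoff hmax hor hji hne using hcon'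
  have hpig : ∃ i₀ j₀, ∃ᶠ n in atTop, i n = i₀ ∧ j n = j₀ := by
    by_contra hc
    push Not at hc
    have h1 : ∀ p : Fin d × Fin d, ∀ᶠ n in atTop, ¬ (i n = p.1 ∧ j n = p.2) := fun p =>
      Filter.not_frequently.1 (by
        intro hf
        exact absurd hf (by simpa using hc p.1 p.2))
    have h2 := Filter.eventually_all.2 h1
    obtain ⟨n, hn⟩ := h2.exists
    exact hn (i n, j n) ⟨rfl, rfl⟩
  obtain ⟨i₀, j₀, hfreq⟩ := hpig
  obtain ⟨ψ, hψ, hψi⟩ := extraction_of_frequently_atTop hfreq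
  have hLt : Tendsto L atTop atTop :=
    tendsto_atTop_mono (fun n => hL n) tendsto_natCast_atTop_atTop
  have hL0 : ∀ n, 0 ≤ L n := fun n => (Nat.cast_nonneg n).trans (hL n)
  -- every positive rate is eventually reached
  have hrate : ∀ η : ℝ, 0 < η → ∀ᶠ n : ℕ in atTop, 1 / ((n : ℝ) + 1) * L n ≤ η * L n := by
    intro η hη
    have h1 : Tendsto (fun n : ℕ => 1 / ((n : ℝ) + 1)) atTop (𝓝 0) :=
      tendsto_one_div_add_atTop_nhds_zero_nat
    filter_upwards [h1.eventually (gt_mem_nhds hη)] with n hn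
    exact mul_le_mul_of_nonneg_right hn.le (hL0 n)
  obtain ⟨φ, hφ, hev⟩ := struct2 hd0 hg hh halg halg' hν hnu hnu' hε (fun n => a (ψ n))
    (fun n => a' (ψ n)) (fun n => ha _) (fun n => ha1 _) (fun n => ha' _) (fun n => ha1' _)
    (fun n => L (ψ n)) (hLt.comp hψ.tendsto_atTop) (fun n => hLa _) (fun n => hLa' _)
    (fun n => γ (ψ n)) (fun n => hγ _) (fun η hη => by
      filter_upwards [hψ.tendsto_atTop.eventually (hrate η hη)] with n hn
      exact (hdet _).trans (Real.exp_le_exp.2 hn)) (fun η hη => by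
      filter_upwards [hψ.tendsto_atTop.eventually (hrate η hη)] with n hn i
      exact ⟨(Real.exp_le_exp.2 (by linarith)).trans (hdiag _ i).1,
        (hdiag _ i).2.trans (Real.exp_le_exp.2 hn)⟩) (fun n => hoff _)
  obtain ⟨n, hn⟩ := hev.exists
  set p := ψ (φ n) with hp
  have hip : i p = i₀ := (hψi _).1
  have hjp : j p = j₀ := (hψi _).2
  have hji₀ : j₀ ≠ i₀ := by rw [← hip, ← hjp]; exact hji p
  have hne₀ : c2 g h (γ p) i₀ j₀ ≠ 0 := by rw [← hip, ← hjp]; exact hne p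
  have hmaxp : ∀ j, a p j ≤ a p i₀ := by rw [← hip]; exact hmax p
  have hdetp : ((γ p).det : ℝ) ≠ 0 := by exact_mod_cast hγ p
  -- the rows are proportional
  have hmul : ∀ n', ((γ p).det : ℝ) • c2 g h (γ (ψ (φ n'))) =
      cj g (γ (ψ (φ n')) * (γ p).adjugate) * c2 g h (γ p) := by
    intro n'
    rw [cj_mul_c2 hg, Matrix.mul_assoc, Matrix.adjugate_mul, Matrix.mul_smul, Matrix.mul_one,
      c2_smul]
  have hrow : ∀ n', c2 g h (γ (ψ (φ n'))) i₀ j₀ * c2 g h (γ p) i₀ i₀ =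
      c2 g h (γ (ψ (φ n'))) i₀ i₀ * c2 g h (γ p) i₀ j₀ := by
    intro n'
    have h1 := hn n' i₀ hmaxp
    have h2 : ∀ l, ((γ p).det : ℝ) * c2 g h (γ (ψ (φ n'))) i₀ l =
        cj g (γ (ψ (φ n')) * (γ p).adjugate) i₀ i₀ * c2 g h (γ p) i₀ l := by
      intro l
      have h5 := congrFun (congrFun (hmul n') i₀) l
      rw [Matrix.smul_apply, smul_eq_mul, Matrix.mul_apply, Finset.sum_eq_single i₀] at h5
      · exact h5
      · intro m _ hm
        rw [h1 m hm, zero_mul]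
      · intro h
        exact absurd (Finset.mem_univ _) h
    have h3 : ((γ p).det : ℝ) * (c2 g h (γ (ψ (φ n'))) i₀ j₀ * c2 g h (γ p) i₀ i₀) =
        ((γ p).det : ℝ) * (c2 g h (γ (ψ (φ n'))) i₀ i₀ * c2 g h (γ p) i₀ j₀) := by
      calc ((γ p).det : ℝ) * (c2 g h (γ (ψ (φ n'))) i₀ j₀ * c2 g h (γ p) i₀ i₀) =
            (((γ p).det : ℝ) * c2 g h (γ (ψ (φ n'))) i₀ j₀) * c2 g h (γ p) i₀ i₀ := by ring
        _ = (((γ p).det : ℝ) * c2 g h (γ (ψ (φ n'))) i₀ i₀) * c2 g h (γ p) i₀ j₀ := by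
            rw [h2 i₀, h2 j₀]
            ring
        _ = _ := by ring
    exact mul_left_cancel₀ hdetp h3
  -- the limit
  have hLt2 : Tendsto (fun n' => L (ψ (φ n'))) atTop atTop :=
    hLt.comp (hψ.tendsto_atTop.comp hφ.tendsto_atTop)
  have hexp : Tendsto (fun n' => Real.exp (-(ε / 2 * L (ψ (φ n'))))) atTop (𝓝 0) :=
    Real.tendsto_exp_neg_atTop_nhds_zero.comp (hLt2.const_mul_atTop (by positivity))
  have hrate2 := (hψ.tendsto_atTop.comp hφ.tendsto_atTop).eventually (hrate (ε / 2) (by positivity))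
  have hfinal : ∀ B : ℝ, (∀ᶠ n' in atTop, |c2 g h (γ p) i₀ j₀| ≤
      B * Real.exp (-(ε / 2 * L (ψ (φ n'))))) → False := by
    intro B hB
    have hlim : Tendsto (fun n' => B * Real.exp (-(ε / 2 * L (ψ (φ n'))))) atTop (𝓝 0) := by
      have := hexp.const_mul B
      rwa [mul_zero] at this
    have h0 : |c2 g h (γ p) i₀ j₀| ≤ 0 := ge_of_tendsto hlim hB
    exact hne₀ (abs_nonpos_iff.1 h0)
  have hexpq : ∀ q : ℕ, 1 / ((q : ℝ) + 1) * L q ≤ ε / 2 * L q →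
      Real.exp (-(ε * L q)) ≤ Real.exp (-(1 / ((q : ℝ) + 1) * L q)) *
        Real.exp (-(ε / 2 * L q)) := by
    intro q hq
    rw [← Real.exp_add]
    exact Real.exp_le_exp.2 (by linarith)
  by_cases hpr : d.Prime ∧ ¬ PropInt g
  · -- all the matrices are proportional
    refine hfinal |c2 g h (γ p) j₀ j₀| ?_
    filter_upwards [hrate2] with n' hn'
    set q := ψ (φ n') with hq
    have hiq : i q = i₀ := (hψi _).1
    have hEg := Eg_of_cj hg (hn n' i₀ hmaxp)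
    obtain ⟨x, hx⟩ := scalar_of_eg hd hpr.1 hg hν hnu hpr.2 i₀ hEg
    have hcj : cj g (γ q * (γ p).adjugate) = (x : ℝ) • (1 : Matrix (Fin d) (Fin d) ℝ) := by
      have h1 : zR (γ q * (γ p).adjugate) = (x : ℝ) • (1 : Matrix (Fin d) (Fin d) ℝ) := by
        ext a b
        have h2 := congrFun (congrFun hx a) b
        rw [zQ_apply, Matrix.smul_apply, smul_eq_mul, Matrix.one_apply] at h2
        rw [zR, Matrix.map_apply, Matrix.smul_apply, smul_eq_mul, Matrix.one_apply]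
        have h3 := congrArg (Rat.cast : ℚ → ℝ) h2
        rw [Rat.cast_mul, Rat.cast_intCast] at h3
        refine h3.trans ?_
        split_ifs <;> simp
      rw [cj, h1, Matrix.mul_smul, Matrix.smul_mul, Matrix.mul_one,
        Matrix.mul_nonsing_inv _ (isUnit_iff_ne_zero.2 hg)]
    have hprop : ∀ l m, ((γ p).det : ℝ) * c2 g h (γ q) l m = x * c2 g h (γ p) l m := by
      intro l m
      have h1 := congrFun (congrFun (hmul n') l) m
      rw [← hq, hcj, Matrix.smul_mul, Matrix.one_mul, Matrix.smul_apply, Matrix.smul_apply,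
        smul_eq_mul, smul_eq_mul] at h1
      exact h1
    have hrel : c2 g h (γ q) i₀ j₀ * c2 g h (γ p) j₀ j₀ =
        c2 g h (γ q) j₀ j₀ * c2 g h (γ p) i₀ j₀ := by
      refine mul_left_cancel₀ hdetp ?_
      calc ((γ p).det : ℝ) * (c2 g h (γ q) i₀ j₀ * c2 g h (γ p) j₀ j₀) =
            (((γ p).det : ℝ) * c2 g h (γ q) i₀ j₀) * c2 g h (γ p) j₀ j₀ := by ring
        _ = (((γ p).det : ℝ) * c2 g h (γ q) j₀ j₀) * c2 g h (γ p) i₀ j₀ := by
            rw [hprop, hprop]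
            ring
        _ = _ := by ring
    have e1 := ha q i₀
    have e2 := ha q j₀
    have e3 := ha' q j₀
    have h1 := hoff q i₀ j₀ hji₀.symm
    have h2 := (hdiag q j₀).1
    rw [abs_mul, abs_mul, abs_of_pos e1, abs_of_pos (inv_pos.2 e3)] at h1
    rw [abs_mul, abs_mul, abs_of_pos e2, abs_of_pos (inv_pos.2 e3)] at h2
    have h3 : a q j₀ ≤ a q i₀ := by
      have := hmax q j₀
      rw [hiq] at this
      exact this
    have hE := Real.exp_pos (-(1 / ((q : ℝ) + 1) * L q))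
    have h4 : Real.exp (-(1 / ((q : ℝ) + 1) * L q)) * |c2 g h (γ p) i₀ j₀| ≤
        Real.exp (-(1 / ((q : ℝ) + 1) * L q)) *
          (|c2 g h (γ p) j₀ j₀| * Real.exp (-(ε / 2 * L q))) := by
      calc Real.exp (-(1 / ((q : ℝ) + 1) * L q)) * |c2 g h (γ p) i₀ j₀| ≤
            (a q j₀ * |c2 g h (γ q) j₀ j₀| * (a' q j₀)⁻¹) * |c2 g h (γ p) i₀ j₀| := by gcongr
        _ = a q j₀ * (a' q j₀)⁻¹ * |c2 g h (γ q) j₀ j₀ * c2 g h (γ p) i₀ j₀| := by
            rw [abs_mul]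
            ring
        _ = a q j₀ * (a' q j₀)⁻¹ * |c2 g h (γ q) i₀ j₀ * c2 g h (γ p) j₀ j₀| := by rw [hrel]
        _ ≤ a q i₀ * (a' q j₀)⁻¹ * |c2 g h (γ q) i₀ j₀ * c2 g h (γ p) j₀ j₀| := by gcongr
        _ = (a q i₀ * |c2 g h (γ q) i₀ j₀| * (a' q j₀)⁻¹) * |c2 g h (γ p) j₀ j₀| := by
            rw [abs_mul]
            ring
        _ ≤ Real.exp (-(ε * L q)) * |c2 g h (γ p) j₀ j₀| := by gcongr
        _ ≤ (Real.exp (-(1 / ((q : ℝ) + 1) * L q)) * Real.exp (-(ε / 2 * L q))) *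
              |c2 g h (γ p) j₀ j₀| := by
            gcongr
            exact hexpq q hn'
        _ = _ := by ring
    exact le_of_mul_le_mul_left h4 hE
  · -- the index is the largest one for both
    refine hfinal |c2 g h (γ p) i₀ i₀| ?_
    filter_upwards [hrate2] with n' hn'
    set q := ψ (φ n') with hq
    have hiq : i q = i₀ := (hψi _).1
    have hrel := hrow n'
    rw [← hq] at hrel
    have e1 := ha q i₀
    have e2 := ha' q i₀
    have e3 := ha' q j₀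
    have h1 := hoff q i₀ j₀ hji₀.symm
    have h2 := (hdiag q i₀).1
    rw [abs_mul, abs_mul, abs_of_pos e1, abs_of_pos (inv_pos.2 e3)] at h1
    rw [abs_mul, abs_mul, abs_of_pos e1, abs_of_pos (inv_pos.2 e2)] at h2
    have h3 : a' q j₀ ≤ a' q i₀ := by
      have := (hor q).resolve_right hpr j₀
      rw [hiq] at this
      exact this
    have h3' : (a' q i₀)⁻¹ ≤ (a' q j₀)⁻¹ := inv_anti₀ e3 h3
    have hE := Real.exp_pos (-(1 / ((q : ℝ) + 1) * L q))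
    have h4 : Real.exp (-(1 / ((q : ℝ) + 1) * L q)) * |c2 g h (γ p) i₀ j₀| ≤
        Real.exp (-(1 / ((q : ℝ) + 1) * L q)) *
          (|c2 g h (γ p) i₀ i₀| * Real.exp (-(ε / 2 * L q))) := by
      calc Real.exp (-(1 / ((q : ℝ) + 1) * L q)) * |c2 g h (γ p) i₀ j₀| ≤
            (a q i₀ * |c2 g h (γ q) i₀ i₀| * (a' q i₀)⁻¹) * |c2 g h (γ p) i₀ j₀| := by gcongr
        _ = a q i₀ * (a' q i₀)⁻¹ * |c2 g h (γ q) i₀ i₀ * c2 g h (γ p) i₀ j₀| := by
            rw [abs_mul]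
            ring
        _ = a q i₀ * (a' q i₀)⁻¹ * |c2 g h (γ q) i₀ j₀ * c2 g h (γ p) i₀ i₀| := by rw [hrel]
        _ ≤ a q i₀ * (a' q j₀)⁻¹ * |c2 g h (γ q) i₀ j₀ * c2 g h (γ p) i₀ i₀| := by gcongr
        _ = (a q i₀ * |c2 g h (γ q) i₀ j₀| * (a' q j₀)⁻¹) * |c2 g h (γ p) i₀ i₀| := by
            rw [abs_mul]
            ring
        _ ≤ Real.exp (-(ε * L q)) * |c2 g h (γ p) i₀ i₀| := by gcongr
        _ ≤ (Real.exp (-(1 / ((q : ℝ) + 1) * L q)) * Real.exp (-(ε / 2 * L q))) *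
              |c2 g h (γ p) i₀ i₀| := by
            gcongr
            exact hexpq q hn'
        _ = _ := by ring
    exact le_of_mul_le_mul_left h4 hE

end Pool.Agent.KS6_27
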