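import Mathlib
import Pool.Agent.KS6_27.Enc

/-! # Exponentially good encounters of two orbits, forms with algebraic coefficients -/

set_option autoImplicit false
set_option linter.unusedSectionVars false

open Finset Matrix Filter Topology H715R2 Module

namespace Pool.Agent.KS6_27

variable {d : ℕ}

lemma c2_scale {g h : Matrix (Fin d) (Fin d) ℝ} (hh : h.det ≠ 0) {t t' : Fin d → ℝ}
    (ht' : ∀ i, t' i ≠ 0) (γ : Matrix (Fin d) (Fin d) ℤ) (i j : Fin d) :
    c2 (diagonal t * g) (diagonal t' * h) γ i j = t i * c2 g h γ i j * (t' j)⁻¹ :=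
  c2_diagonal hh ht' γ i j

theorem encountersF (hd : 3 ≤ d) {g h : Matrix (Fin d) (Fin d) ℝ} (hg : g.det ≠ 0)
    (hh : h.det ≠ 0) (halg : AlgF g) (halg' : AlgF h)
    {ν : ℝ} (hν : 0 < ν) (hnu : HasNu g ν) (hnu' : HasNu h ν) {ε : ℝ} (hε : 0 < ε) :
    ∃ η L₀ : ℝ, 0 < η ∧ ∀ L : ℝ, L₀ ≤ L → ∀ (a a' : Fin d → ℝ) (γ : Matrix (Fin d) (Fin d) ℤ),
      (∀ i, 0 < a i) → ∏ i, a i = 1 → (∀ i, 0 < a' i) → ∏ i, a' i = 1 →
      (∀ i, |Real.log (a i)| ≤ L) → (∀ i, |Real.log (a' i)| ≤ L) →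
      γ.det ≠ 0 → |(γ.det : ℝ)| ≤ Real.exp (η * L) →
      (∀ i, Real.exp (-(η * L)) ≤ |a i * c2 g h γ i i * (a' i)⁻¹| ∧
        |a i * c2 g h γ i i * (a' i)⁻¹| ≤ Real.exp (η * L)) →
      (∀ i j, i ≠ j → |a i * c2 g h γ i j * (a' j)⁻¹| ≤ Real.exp (-(ε * L))) →
      ∀ i, (∀ j, a j ≤ a i) → ((∀ j, a' j ≤ a' i) ∨ (d.Prime ∧ ¬ PropInt g)) →
        ∀ j, j ≠ i → c2 g h γ i j = 0 := by
  classical
  have hd0 : 0 < d := by omega
  obtain ⟨t, ht, htalg⟩ := exists_scale hd0 halg hν hnu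
  obtain ⟨t', ht', htalg'⟩ := exists_scale hd0 halg' hν hnu'
  set g₀ := diagonal t * g with hg₀
  set h₀ := diagonal t' * h with hh₀
  have hprod : (∏ i, t i) ≠ 0 := Finset.prod_ne_zero_iff.2 fun i _ => ht i
  have hprod' : (∏ i, t' i) ≠ 0 := Finset.prod_ne_zero_iff.2 fun i _ => ht' i
  have hg₀det : g₀.det ≠ 0 := by
    rw [hg₀, Matrix.det_mul, Matrix.det_diagonal]
    exact mul_ne_zero hprod hg
  have hh₀det : h₀.det ≠ 0 := by
    rw [hh₀, Matrix.det_mul, Matrix.det_diagonal]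
    exact mul_ne_zero hprod' hh
  have halg₀ : ∀ i j, IsAlgebraic ℚ (g₀ i j) := fun i j => by
    rw [hg₀, diagonal_mul]
    exact htalg i j
  have halg₀' : ∀ i j, IsAlgebraic ℚ (h₀ i j) := fun i j => by
    rw [hh₀, diagonal_mul]
    exact htalg' i j
  have hp1 : 0 < |∏ i, t i| := abs_pos.2 hprod
  have hp2 : 0 < |∏ i, t' i| := abs_pos.2 hprod'
  set ν₀ := min (|∏ i, t i| * ν) (|∏ i, t' i| * ν) with hν₀
  have hν₀0 : 0 < ν₀ := lt_min (mul_pos hp1 hν) (mul_pos hp2 hν)
  have hnu₀ : HasNu g₀ ν₀ := fun m hm => (min_le_left _ _).trans (hasNu_scale hnu t m hm)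
  have hnu₀' : HasNu h₀ ν₀ := fun m hm => (min_le_right _ _).trans (hasNu_scale hnu' t' m hm)
  obtain ⟨η, L₀, hη, hmain⟩ := encounters hd hg₀det hh₀det halg₀ halg₀' hν₀0 hnu₀ hnu₀'
    (half_pos hε)
  -- the constant
  set T : ℝ := 1 + ∑ p : Fin d × Fin d, (|t p.1 / t' p.2| + |t' p.2 / t p.1|) with hT
  have hT0 : 0 ≤ ∑ p : Fin d × Fin d, (|t p.1 / t' p.2| + |t' p.2 / t p.1|) :=
    Finset.sum_nonneg fun _ _ => by positivity
  have hT1 : 1 ≤ T := by rw [hT]; linarith
  have hTle : ∀ i j, |t i / t' j| ≤ T ∧ |t' j / t i| ≤ T := by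
    intro i j
    have := Finset.single_le_sum (f := fun p : Fin d × Fin d =>
      (|t p.1 / t' p.2| + |t' p.2 / t p.1|))
      (fun _ _ => by positivity) (Finset.mem_univ (i, j))
    simp only at this
    have h1 := abs_nonneg (t i / t' j)
    have h2 := abs_nonneg (t' j / t i)
    rw [hT]
    constructor <;> linarith
  have hlogT : 0 ≤ Real.log T := Real.log_nonneg hT1
  have hTpos : 0 < T := by linarith
  refine ⟨η / 2, max L₀ (max (2 * Real.log T / η) (2 * Real.log T / ε)), by positivity,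
    fun L hL a a' γ ha ha1 ha' ha1' hLa hLa' hγ hdet hdiag hoff i hi hor j hj => ?_⟩
  have hL1 : L₀ ≤ L := (le_max_left _ _).trans hL
  have hL2 : Real.log T ≤ η / 2 * L := by
    have h1 := ((le_max_left _ _).trans (le_max_right _ _)).trans hL
    rw [div_le_iff₀ hη] at h1
    linarith
  have hL3 : Real.log T ≤ ε / 2 * L := by
    have h1 := ((le_max_right _ _).trans (le_max_right _ _)).trans hL
    rw [div_le_iff₀ hε] at h1
    linarith
  have hL0 : 0 ≤ L := (abs_nonneg _).trans (hLa i)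
  have hηL : 0 ≤ η / 2 * L := by positivity
  have hTη : T ≤ Real.exp (η / 2 * L) := by
    rw [← Real.exp_log hTpos]
    exact Real.exp_le_exp.2 hL2
  have hTε : T ≤ Real.exp (ε / 2 * L) := by
    rw [← Real.exp_log hTpos]
    exact Real.exp_le_exp.2 hL3
  have hsc : ∀ i j, a i * c2 g₀ h₀ γ i j * (a' j)⁻¹ =
      t i / t' j * (a i * c2 g h γ i j * (a' j)⁻¹) := by
    intro i j
    rw [hg₀, hh₀, c2_scale hh ht', div_eq_mul_inv]
    ring
  have hee : Real.exp (η * L) = Real.exp (η / 2 * L) * Real.exp (η / 2 * L) := by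
    rw [← Real.exp_add]
    congr 1
    ring
  have hres := hmain L hL1 a a' γ ha ha1 ha' ha1' hLa hLa' hγ
    (hdet.trans (Real.exp_le_exp.2 (by linarith))) (fun i => by
      rw [hsc, abs_mul]
      have h1 := hdiag i
      have h2 := hTle i i
      set x := |a i * c2 g h γ i i * (a' i)⁻¹| with hx
      constructor
      · have h3 : |t i / t' i| * |t' i / t i| = 1 := by
          rw [← abs_mul]
          have e1 := ht i
          have e2 := ht' i
          have : t i / t' i * (t' i / t i) = 1 := by field_simp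
          rw [this, abs_one]
        have h4 : 0 ≤ |t i / t' i| := abs_nonneg _
        have h5 : (1 : ℝ) ≤ |t i / t' i| * Real.exp (η / 2 * L) := by
          calc (1 : ℝ) = |t i / t' i| * |t' i / t i| := h3.symm
            _ ≤ |t i / t' i| * T := by gcongr; exact h2.2
            _ ≤ _ := by gcongr
        calc Real.exp (-(η * L)) = Real.exp (-(η / 2 * L)) * Real.exp (-(η / 2 * L)) * 1 := by
              rw [mul_one, ← Real.exp_add]
              congr 1
              ring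
          _ ≤ Real.exp (-(η / 2 * L)) * Real.exp (-(η / 2 * L)) *
                (|t i / t' i| * Real.exp (η / 2 * L)) := by gcongr
          _ = |t i / t' i| * Real.exp (-(η / 2 * L)) *
                (Real.exp (-(η / 2 * L)) * Real.exp (η / 2 * L)) := by ring
          _ = |t i / t' i| * Real.exp (-(η / 2 * L)) := by
              rw [← Real.exp_add, neg_add_cancel, Real.exp_zero, mul_one]
          _ ≤ |t i / t' i| * x := by gcongr; exact h1.1
      · rw [hee]
        exact mul_le_mul (h2.1.trans hTη) h1.2 (abs_nonneg _) (Real.exp_pos _).le)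
    (fun i j hij => by
      rw [hsc, abs_mul]
      calc |t i / t' j| * |a i * c2 g h γ i j * (a' j)⁻¹| ≤
            Real.exp (ε / 2 * L) * Real.exp (-(ε * L)) :=
            mul_le_mul ((hTle i j).1.trans hTε) (hoff i j hij) (abs_nonneg _) (Real.exp_pos _).le
        _ = _ := by
            rw [← Real.exp_add]
            congr 1
            ring) i hi (hor.imp id fun hor => ⟨hor.1, fun hc => hor.2 (propInt_scale ht hc)⟩) j hj
  rw [hg₀, hh₀, c2_scale hh ht'] at hres
  have h1 : t i * (t' j)⁻¹ ≠ 0 := mul_ne_zero (ht i) (inv_ne_zero (ht' j))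
  have h2 : (t i * (t' j)⁻¹) * c2 g h γ i j = 0 := by
    rw [← hres]
    ring
  exact (mul_eq_zero.1 h2).resolve_left h1

end Pool.Agent.KS6_27
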