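import Mathlib
import Pool.Agent.KS6_27.Str3

/-! # Exponentially good encounters: the general structure theorem

The lattices need not be bounded along their whole orbits, only at the places which are considered,
and the conclusion is about all directions. -/

set_option autoImplicit false
set_option linter.unusedSectionVars false

open Finset Matrix Filter Topology H715R2 Module
open Pool.Agent.T6.H49.CSD (cj cj_one cj_mul cj_add cj_sub cj_smul cj_diagonal rigid)
open Pool.Agent.H393R2.Geom (abs_det_le)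
open scoped Pointwise

namespace Pool.Agent.KS6_27

variable {d k m : ℕ}

/-- the entries which belong to an order of the directions vanish -/
theorem row_zero3 (hm : 0 < m) {g : Matrix (Fin d) (Fin d) ℝ} (hg : g.det ≠ 0)
    {u A : Fin m → Fin d × Fin d → ℤ} {D : ℤ} (hD : D ≠ 0)
    (hA : ∀ i j, ∑ a, A i a * u j a = if i = j then D else 0) {η : ℝ} (hη : 0 < η) :
    ∃ C₀ : ℝ, ∀ a : Fin d → ℝ, (∀ i, 0 < a i) →
      (∀ κ : Matrix (Fin d) (Fin d) ℤ, κ ≠ 0 → ∃ i j, η ≤ |cj (diagonal a * g) κ i j|) →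
      ∀ P δ' : ℝ, 1 ≤ P → 0 < δ' → δ' ≤ 1 →
      ∀ (w : Fin m → Matrix (Fin d) (Fin d) ℤ) (z : Matrix (Fin m) (Fin m) ℤ), z.det ≠ 0 →
      (∀ s, D • w s = iM fun a => ∑ r, z s r * u r a) →
      (∀ s, ND (diagonal a * g) (d * P) δ' (w s)) → C₀ + m * Real.log P < -Real.log δ' →
      ∀ i j, j ≠ i → a j ≤ a i → ∀ r, cj g (iM (u r)) i j = 0 := by
  classical
  set M := Mf g u with hMdef
  obtain ⟨C, hC1, hC⟩ := abs_main hm M (exists_det_Mf hg hD hA) hη
    (fun p : Fin d × Fin d => p.1 ≠ p.2)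
  obtain ⟨Δ, hΔ0, hΔ1, hΔ⟩ := exists_min_det M
  have hDR : (1 : ℝ) ≤ |(D : ℝ)| := by
    have := Int.one_le_abs hD
    exact_mod_cast this
  have hlogD : 0 ≤ Real.log |(D : ℝ)| := Real.log_nonneg hDR
  have hlogm : 0 ≤ Real.log (m.factorial : ℝ) := Real.log_nonneg (by
    exact_mod_cast Nat.succ_le_of_lt (Nat.factorial_pos m))
  have hlogΔ : 0 ≤ -Real.log Δ := by
    have := Real.log_nonpos hΔ0.le hΔ1
    linarith
  refine ⟨C + (Real.log (m.factorial : ℝ) + m * Real.log |(D : ℝ)| - Real.log Δ), ?_⟩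
  intro a ha hLB P δ' hP hδ0 hδ1 w z hz hw hND hbig i j hj hi r
  have hlogP : 0 ≤ Real.log P := Real.log_nonneg hP
  have hP0 : 0 < P := by linarith
  have hd0 : 0 < d := i.pos
  have hdR : (0 : ℝ) < d := by exact_mod_cast hd0
  set θ : Fin d × Fin d → ℝ := fun p => Real.log (a p.2) - Real.log (a p.1) with hθ
  have hexpθ : ∀ p, Real.exp (θ p) = a p.2 / a p.1 := by
    intro p
    rw [hθ]
    simp only
    rw [Real.exp_sub, Real.exp_log (ha _), Real.exp_log (ha _)]
  set t : ℝ := Real.log (m.factorial : ℝ) + m * Real.log |(D : ℝ)| - Real.log Δ + m * Real.log P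
    with ht
  set s : ℝ := -Real.log δ' with hs
  have ht0 : 0 ≤ t := by
    rw [ht]
    have h1 : 0 ≤ (m : ℝ) * Real.log |(D : ℝ)| := by positivity
    have h2 : 0 ≤ (m : ℝ) * Real.log P := by positivity
    linarith
  have hst : C + t < s := by
    rw [ht]
    linarith
  have hcjg : ∀ (κ : Matrix (Fin d) (Fin d) ℤ) (p : Fin d × Fin d),
      cj g κ p.1 p.2 = Real.exp (θ p) * cj (diagonal a * g) κ p.1 p.2 := by
    intro κ p
    rw [hexpθ, cj_diagonal hg (fun i => (ha i).ne')]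
    have e1 := (ha p.1).ne'
    have e2 := (ha p.2).ne'
    field_simp
  have hmain := (hC θ s t ht0 hst ?_ ?_).1
  · obtain ⟨b, hb, hbO, hbmin, hbO2⟩ := hmain
    -- the diagonal forms have weight zero
    have hzero : ∀ i', θ (b i') = 0 := by
      intro i'
      have h1 := hbO i'
      rw [not_not] at h1
      simp only [hθ]
      rw [h1, sub_self]
    have hcoef : ∀ i', (sb M (Function.update b i' (i, j))).det = 0 := by
      intro i'
      by_contra hne
      have h1 := hbO2 (i, j) (fun h => hj h.symm) i' hne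
      rw [hzero] at h1
      have h2 : θ (i, j) ≤ 0 := by
        simp only [hθ]
        have := Real.log_le_log (ha j) hi
        linarith
      linarith
    have h3 := det_mul_fv M b (i, j) (Pi.single r 1)
    rw [Finset.sum_eq_zero (fun i' _ => by rw [hcoef i', zero_mul])] at h3
    have h4 : fv M (i, j) (Pi.single r 1) = 0 := (mul_eq_zero.1 h3).resolve_left hb
    have h5 : fv M (i, j) (Pi.single r 1) = cj g (iM (u r)) i j := by
      unfold fv
      rw [Finset.sum_eq_single r]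
      · simp [hMdef, Mf]
      · intro r' _ hr'
        rw [Pi.single_eq_of_ne hr']
        simp
      · intro h
        exact absurd (Finset.mem_univ r) h
    rw [← h5, h4]
  · -- the lower bound
    intro x hx
    obtain ⟨i', j', h1⟩ := hLB _ (iM_ne hD hA hx)
    refine ⟨(i', j'), ?_⟩
    rw [hMdef, fv_Mf, hcjg, abs_mul, abs_of_pos (Real.exp_pos _), mul_comm]
    exact mul_le_mul_of_nonneg_left h1 (Real.exp_pos _).le
  · -- the lower bound for the weights
    intro b hb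
    set Y : Matrix (Fin m) (Fin m) ℝ := Matrix.of fun i' s' => fv M (b i') (z s') with hY
    have hYdet : Y = sb M b * (z.map (Int.cast : ℤ → ℝ)).transpose := by
      ext i' s'
      rw [Matrix.mul_apply]
      rfl
    have hzdet : (z.map (Int.cast : ℤ → ℝ)).det = (z.det : ℝ) := by
      have := (Int.castRingHom ℝ).map_det z
      simpa using this.symm
    have h1 : Δ ≤ |Y.det| := by
      rw [hYdet, Matrix.det_mul, Matrix.det_transpose, hzdet, abs_mul]
      have h2 : (1 : ℝ) ≤ |(z.det : ℝ)| := by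
        have := Int.one_le_abs hz
        exact_mod_cast this
      calc Δ ≤ |(sb M b).det| * 1 := by rw [mul_one]; exact hΔ b hb
        _ ≤ _ := mul_le_mul_of_nonneg_left h2 (abs_nonneg _)
    set F : Fin d × Fin d → ℝ := fun p => if p.1 ≠ p.2 then δ' else 1 with hF
    have hF0 : ∀ p, 0 < F p := by
      intro p
      rw [hF]
      simp only
      split_ifs
      · exact hδ0
      · exact one_pos
    have hval : ∀ i' s', |Y i' s'| ≤ |(D : ℝ)| * (Real.exp (θ (b i')) * (P * F (b i'))) := by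
      intro i' s'
      have e1 : Y i' s' = D * cj g (w s') (b i').1 (b i').2 := by
        rw [hY, Matrix.of_apply, hMdef, fv_Mf, ← hw, cj_smul, Matrix.smul_apply, smul_eq_mul]
      rw [e1, abs_mul, hcjg, abs_mul, abs_of_pos (Real.exp_pos _)]
      refine mul_le_mul_of_nonneg_left ?_ (abs_nonneg _)
      refine mul_le_mul_of_nonneg_left ?_ (Real.exp_pos _).le
      rw [hF]
      simp only
      split_ifs with hoff
      · have h2 := (hND s').2 _ _ hoff
        rw [mul_assoc] at h2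
        exact le_of_mul_le_mul_left h2 hdR
      · have h2 := (hND s').1 (b i').1 (b i').2
        rw [mul_one]
        exact le_of_mul_le_mul_left h2 hdR
    have h2 := abs_det_le Y _ hval
    have h3 := h1.trans h2
    have hprod : (0 : ℝ) < ∏ i', |(D : ℝ)| * (Real.exp (θ (b i')) * (P * F (b i'))) :=
      Finset.prod_pos fun i' _ => by
        have := hF0 (b i')
        positivity
    have h4 := Real.log_le_log hΔ0 h3
    rw [Real.log_mul (by positivity) hprod.ne', Real.log_prod (fun i' _ => by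
      have := hF0 (b i')
      positivity)] at h4
    have h5 : ∀ i' ∈ (Finset.univ : Finset (Fin m)),
        Real.log (|(D : ℝ)| * (Real.exp (θ (b i')) * (P * F (b i')))) =
          (Real.log |(D : ℝ)| + Real.log P) +
          (θ (b i') - if (b i').1 ≠ (b i').2 then s else 0) := by
      intro i' _
      have h6 := hF0 (b i')
      rw [Real.log_mul (by positivity) (by positivity), Real.log_mul (by positivity)
        (by positivity), Real.log_exp, Real.log_mul (by positivity) h6.ne']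
      have h7 : Real.log (F (b i')) = -(if (b i').1 ≠ (b i').2 then s else 0) := by
        rw [hF]
        simp only
        split_ifs
        · rw [hs, neg_neg]
        · rw [Real.log_one, neg_zero]
      rw [h7]
      ring
    rw [Finset.sum_congr rfl h5, Finset.sum_add_distrib, Finset.sum_const, Finset.card_univ,
      Fintype.card_fin, nsmul_eq_mul] at h4
    rw [ht]
    linarith


/-- **The structure of a sequence of exponentially good encounters of two orbits.** -/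
theorem struct3 (hd : 0 < d) {g h : Matrix (Fin d) (Fin d) ℝ} (hg : g.det ≠ 0) (hh : h.det ≠ 0)
    (halg : ∀ i j, IsAlgebraic ℚ (g i j)) (halg' : ∀ i j, IsAlgebraic ℚ (h i j))
    {ε : ℝ}
    (hε : 0 < ε) (a a' : ℕ → Fin d → ℝ) (ha : ∀ n i, 0 < a n i) (ha' : ∀ n i, 0 < a' n i)
    {η₀ c : ℝ} (hη₀ : 0 < η₀) (hc0 : 0 < c)
    (hrig : ∀ n, ∀ κ : Matrix (Fin d) (Fin d) ℤ, κ ≠ 0 →
      ∃ i j, η₀ ≤ |cj (diagonal (a n) * g) κ i j|)
    (hrig2 : ∀ n, ∀ κ : Matrix (Fin d) (Fin d) ℤ, κ ≠ 0 →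
      ∃ i j, c < |c2 (diagonal (a n) * g) (diagonal (a' n) * h) κ i j|)
    (L : ℕ → ℝ) (hL : Tendsto L atTop atTop)
    (hLa : ∀ n i, |Real.log (a n i)| ≤ L n) (hLa' : ∀ n i, |Real.log (a' n i)| ≤ L n)
    (γ : ℕ → Matrix (Fin d) (Fin d) ℤ) (hγ : ∀ n, (γ n).det ≠ 0)
    (hdet : ∀ η : ℝ, 0 < η → ∀ᶠ n in atTop, |((γ n).det : ℝ)| ≤ Real.exp (η * L n))
    (hdiag : ∀ η : ℝ, 0 < η → ∀ᶠ n in atTop, ∀ i,
      Real.exp (-(η * L n)) ≤ |a n i * c2 g h (γ n) i i * (a' n i)⁻¹| ∧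
      |a n i * c2 g h (γ n) i i * (a' n i)⁻¹| ≤ Real.exp (η * L n))
    (hoff : ∀ n i j, i ≠ j → |a n i * c2 g h (γ n) i j * (a' n j)⁻¹| ≤ Real.exp (-(ε * L n))) :
    ∃ φ : ℕ → ℕ, StrictMono φ ∧ ∀ᶠ n in atTop, ∀ n' i j, j ≠ i → a (φ n) j ≤ a (φ n) i →
      cj g (γ (φ n') * (γ (φ n)).adjugate) i j = 0 := by
  classical
  have hdR : (0 : ℝ) < d := by exact_mod_cast hd
  have hd1 : (1 : ℝ) ≤ d := by exact_mod_cast hd
  have : Nonempty (Fin d) := ⟨⟨0, hd⟩⟩
  have hne : ∀ n, γ n ≠ 0 := by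
    intro n h0
    apply hγ n
    rw [h0, Matrix.det_zero]
  obtain ⟨k, v, A, D, φ, z, hk, hD, hA, hφ, hz, hgen⟩ := exists_generic (fun n => vc (γ n))
    (fun n => vc_ne (hne n))
  refine ⟨φ, hφ, ?_⟩
  have hDR : (1 : ℝ) ≤ |(D : ℝ)| := by
    have := Int.one_le_abs hD
    exact_mod_cast this
  have hkR : (0 : ℝ) < k := by exact_mod_cast hk
  -- the sequences along `φ`
  have hLφ : Tendsto (fun n => L (φ n)) atTop atTop := hL.comp hφ.tendsto_atTop
  have hdetφ : ∀ η : ℝ, 0 < η → ∀ᶠ n in atTop, |((γ (φ n)).det : ℝ)| ≤ Real.exp (η * L (φ n)) :=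
    fun η hη => hφ.tendsto_atTop.eventually (hdet η hη)
  have hdiagφ : ∀ η : ℝ, 0 < η → ∀ᶠ n in atTop, ∀ i,
      Real.exp (-(η * L (φ n))) ≤ |a (φ n) i * c2 g h (γ (φ n)) i i * (a' (φ n) i)⁻¹| ∧
      |a (φ n) i * c2 g h (γ (φ n)) i i * (a' (φ n) i)⁻¹| ≤ Real.exp (η * L (φ n)) :=
    fun η hη => hφ.tendsto_atTop.eventually (hdiag η hη)
  have hDγ : ∀ n, D • γ (φ n) = iM fun a => ∑ r, z n r * v r a := by
    intro n
    ext i j
    have := hz n (i, j)
    rw [Matrix.smul_apply, smul_eq_mul]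
    exact this
  have hzne : ∀ n, z n ≠ 0 := by
    intro n h0
    have h1 := hDγ n
    rw [h0] at h1
    have h2 : D • γ (φ n) = 0 := by
      rw [h1]
      ext i j
      simp [iM]
    exact (smul_ne_zero hD (hne _)) h2
  set M := Mf2 g h v with hM
  have hMalg : ∀ p j, IsAlgebraic ℚ (M p j) := fun p j => c2_alg halg halg' _ _ _
  set O : Fin d × Fin d → Prop := fun p => p.1 ≠ p.2 with hO
  set ω : ℕ → Fin d × Fin d → ℝ := fun n p => Real.log (a' (φ n) p.2) - Real.log (a (φ n) p.1)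
    with hω
  have hexpω : ∀ n p, Real.exp (ω n p) = a' (φ n) p.2 / a (φ n) p.1 := by
    intro n p
    rw [hω]
    simp only
    rw [Real.exp_sub, Real.exp_log (ha' _ _), Real.exp_log (ha _ _)]
  have hneG : ∀ n, (diagonal (a n) * g).det ≠ 0 := fun n => by
    rw [Matrix.det_mul, Matrix.det_diagonal]
    exact mul_ne_zero (Finset.prod_ne_zero_iff.2 fun i _ => (ha n i).ne') hg
  have hneH : ∀ n, (diagonal (a' n) * h).det ≠ 0 := fun n => by
    rw [Matrix.det_mul, Matrix.det_diagonal]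
    exact mul_ne_zero (Finset.prod_ne_zero_iff.2 fun i _ => (ha' n i).ne') hh
  -- rigidity
  have hrig' : ∀ n, ∀ κ : Matrix (Fin d) (Fin d) ℤ, κ ≠ 0 →
      ∃ i j, η₀ ≤ |cj (diagonal (a (φ n)) * g) κ i j| := fun n => hrig (φ n)
  have hlow : ∀ n, ∀ x : Fin k → ℤ, x ≠ 0 →
      ∃ p, c * Real.exp (ω n p) ≤ |fv M p x| := by
    intro n x hx
    obtain ⟨i, m, him⟩ := hrig2 (φ n) _ (iM_ne hD hA hx)
    refine ⟨(i, m), ?_⟩
    rw [hM, fv_Mf2, hexpω]
    have e1 := ha (φ n) i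
    have e2 := ha' (φ n) m
    rw [c2_diagonal hh (fun i => (ha' _ i).ne'), abs_mul, abs_mul, abs_of_pos e1,
      abs_of_pos (inv_pos.2 e2)] at him
    calc c * (a' (φ n) m / a (φ n) i) ≤
          (a (φ n) i * |c2 g h (iM fun a => ∑ r, x r * v r a) i m| * (a' (φ n) m)⁻¹) *
            (a' (φ n) m / a (φ n) i) := by gcongr
      _ = _ := by field_simp
  obtain ⟨C₁, hC₁1, hC₁⟩ := abs_main hk M (exists_det_Mf2 hg hh hD hA) hc0 O
  -- the space and the algebra
  set V : Submodule ℚ (Matrix (Fin d) (Fin d) ℚ) :=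
    Submodule.span ℚ (Set.range fun r => zQ (iM (v r))) with hV
  have hDQ : (D : ℚ) ≠ 0 := by exact_mod_cast hD
  have hγV : ∀ n, zQ (γ (φ n)) ∈ V := by
    intro n
    have h1 : (D : ℚ) • zQ (γ (φ n)) = ∑ r, (z n r : ℚ) • zQ (iM (v r)) := by
      ext i j
      have h2 := hz n (i, j)
      rw [Matrix.sum_apply, Matrix.smul_apply, smul_eq_mul, zQ_apply]
      have h3 : ((D * vc (γ (φ n)) (i, j) : ℤ) : ℚ) = ((∑ r, z n r * v r (i, j) : ℤ) : ℚ) := by
        rw [h2]
      push_cast at h3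
      exact h3
    have h2 : zQ (γ (φ n)) = (D : ℚ)⁻¹ • ∑ r, (z n r : ℚ) • zQ (iM (v r)) := by
      rw [← h1, smul_smul, inv_mul_cancel₀ hDQ, one_smul]
    rw [h2]
    exact V.smul_mem _ (Submodule.sum_mem _ fun r _ => V.smul_mem _
      (Submodule.subset_span ⟨r, rfl⟩))
  have hdetQ : ∀ n, ((γ n).det : ℚ) ≠ 0 := fun n => by exact_mod_cast hγ n
  have hunitQ : ∀ n, IsUnit (zQ (γ n)).det := fun n => by
    rw [zQ_det, isUnit_iff_ne_zero]
    exact hdetQ n
  have hadjQ : ∀ n, zQ (γ n).adjugate = ((γ n).det : ℚ) • (zQ (γ n))⁻¹ := by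
    intro n
    have h1 : zQ (γ n) * zQ (γ n).adjugate = ((γ n).det : ℚ) • (1 : Matrix (Fin d) (Fin d) ℚ) := by
      rw [← map_mul, Matrix.mul_adjugate]
      ext i j
      rw [zQ_apply, Matrix.smul_apply, Matrix.smul_apply, smul_eq_mul, smul_eq_mul,
        Matrix.one_apply, Matrix.one_apply]
      push_cast
      rfl
    calc zQ (γ n).adjugate = ((zQ (γ n))⁻¹ * zQ (γ n)) * zQ (γ n).adjugate := by
          rw [Matrix.nonsing_inv_mul _ (hunitQ n), Matrix.one_mul]
      _ = (zQ (γ n))⁻¹ * (((γ n).det : ℚ) • (1 : Matrix (Fin d) (Fin d) ℚ)) := by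
          rw [Matrix.mul_assoc, h1]
      _ = _ := by rw [Matrix.mul_smul, Matrix.mul_one]
  set 𝒲 := LA V (zQ (γ (φ 0))) with h𝒲
  have h𝒲n : ∀ n, LA V (zQ (γ (φ n))) = 𝒲 := fun n =>
    LA_eq (hunitQ _) (hunitQ _) (hγV 0) (hγV n)
  set W : Submodule ℚ (Fin d × Fin d → ℚ) :=
    (Subalgebra.toSubmodule 𝒲).comap (mat : _ ≃ₗ[ℚ] Matrix (Fin d) (Fin d) ℚ).toLinearMap
    with hW
  have hWmem : ∀ w : Matrix (Fin d) (Fin d) ℤ, iQ (vc w) ∈ W ↔ zQ w ∈ 𝒲 := fun w => Iff.rfl
  obtain ⟨m, hm⟩ : ∃ m, finrank ℚ W = m := ⟨_, rfl⟩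
  obtain ⟨u, A', D', hD', huW, hA', hrec⟩ := int_basis W hm
  have hfin : finrank ℚ (Subalgebra.toSubmodule 𝒲) = m := by
    rw [← hm]
    have h1 : W.map (mat : _ ≃ₗ[ℚ] Matrix (Fin d) (Fin d) ℚ).toLinearMap =
        Subalgebra.toSubmodule 𝒲 := by
      rw [hW]
      exact Submodule.map_comap_eq_of_surjective mat.surjective _
    rw [← h1]
    exact LinearEquiv.finrank_map_eq mat W
  have hm0 : 0 < m := by
    rw [← hm]
    have h1 : iQ (vc (1 : Matrix (Fin d) (Fin d) ℤ)) ∈ W := by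
      rw [hWmem, map_one]
      exact 𝒲.one_mem
    have : Nontrivial W := ⟨⟨⟨_, h1⟩, 0, fun h => iQ_ne (vc_ne (one_ne_zero (α := Matrix (Fin d)
      (Fin d) ℤ))) (congrArg Subtype.val h)⟩⟩
    exact Module.finrank_pos
  obtain ⟨C₀, hC₀⟩ := row_zero3 hm0 hg hD' hA' hη₀
  -- the parameters
  set N : ℕ := d * d with hN
  set η₁ : ℝ := ε / (2 * (3 * (m * N) + 2)) with hη₁
  have hη₁0 : 0 < η₁ := by positivity
  have hη₁e : (3 * (m * N) + 2) * η₁ = ε / 2 := by
    rw [hη₁]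
    field_simp
  set η₂ : ℝ := η₁ / (2 * k) with hη₂
  have hη₂0 : 0 < η₂ := by positivity
  have hη₂e : k * η₂ = η₁ / 2 := by
    rw [hη₂]
    field_simp
  have hsub := subspace_seq2 hk M hMalg z hzne hgen (fun n => L (φ n)) hLφ
    (fun n p => ω n p + if O p then -(ε * L (φ n)) else η₂ * L (φ n)) (2 + (ε + η₂)) |(D : ℝ)|
    (by positivity) (Filter.Eventually.of_forall fun n p => by
      have h1 := hLa (φ n) p.1
      have h2 := hLa' (φ n) p.2
      have hL0 : 0 ≤ L (φ n) := (abs_nonneg _).trans h1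
      have h3 : |ω n p| ≤ 2 * L (φ n) := by
        rw [hω]
        simp only
        refine (abs_sub _ _).trans ?_
        linarith
      have h4 : |(if O p then -(ε * L (φ n)) else η₂ * L (φ n))| ≤ (ε + η₂) * L (φ n) := by
        have e1 : 0 ≤ ε * L (φ n) := by positivity
        have e2 : 0 ≤ η₂ * L (φ n) := by positivity
        rw [add_mul]
        split_ifs
        · rw [abs_neg, abs_of_nonneg e1]
          linarith
        · rw [abs_of_nonneg e2]
          linarith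
      refine (abs_add_le _ _).trans ?_
      rw [add_mul]
      linarith) (by
      filter_upwards [hdiagφ η₂ hη₂0] with n hn p
      have h1 : fv M p (z n) = D * c2 g h (γ (φ n)) p.1 p.2 := by
        rw [hM, fv_Mf2, ← hDγ, c2_smul, Matrix.smul_apply, smul_eq_mul]
      have e1 := ha (φ n) p.1
      have e2 := ha' (φ n) p.2
      have h2 : |c2 g h (γ (φ n)) p.1 p.2| = a' (φ n) p.2 / a (φ n) p.1 *
          |a (φ n) p.1 * c2 g h (γ (φ n)) p.1 p.2 * (a' (φ n) p.2)⁻¹| := by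
        rw [abs_mul, abs_mul, abs_of_pos e1, abs_of_pos (inv_pos.2 e2)]
        field_simp
      rw [h1, abs_mul, h2, Real.exp_add, hexpω]
      refine mul_le_mul_of_nonneg_left (mul_le_mul_of_nonneg_left ?_ (by positivity))
        (abs_nonneg _)
      by_cases hp : O p
      · rw [if_pos hp]
        exact hoff _ _ _ hp
      · rw [if_neg hp]
        have hp' : p.1 = p.2 := not_not.1 hp
        rw [hp']
        exact (hn p.2).2) (η := η₁ / 2) (by positivity)
  -- the final inequality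
  set R : ℝ := Real.log (2 * d ^ 2 * C₁) with hR
  have hQ₁ : 1 ≤ 2 * (d : ℝ) ^ 2 * C₁ := by
    have h1 : 1 ≤ (d : ℝ) ^ 2 := one_le_pow₀ hd1
    have h3 : 1 ≤ 2 * (d : ℝ) ^ 2 := by linarith
    exact one_le_mul_of_one_le_of_one_le h3 hC₁1
  have hR0 : 0 ≤ R := Real.log_nonneg hQ₁
  have hNpos : (0 : ℝ) < N := by
    have : 0 < N := Nat.mul_pos hd hd
    exact_mod_cast this
  set S : ℝ := Real.log (N * (d + 1)) with hS
  have hS0 : 0 ≤ S := by
    refine Real.log_nonneg ?_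
    have h1 : (1 : ℝ) ≤ N := by
      have : 1 ≤ N := Nat.mul_pos hd hd
      exact_mod_cast this
    exact one_le_mul_of_one_le_of_one_le h1 (by linarith)
  have hLev : ∀ B : ℝ, ∀ᶠ n in atTop, B ≤ L (φ n) := fun B => hLφ.eventually_ge_atTop B
  filter_upwards [hdetφ η₁ hη₁0, hdiagφ η₁ hη₁0, hsub, hLev 0, hLev (2 * (C₁ + 1) / ε),
    hLev (2 * (|C₀| + m * (N * R) + S + 1) / ε), hLev (2 * Real.log (2 * d) / ε)]
    with n hn1 hn2 hn3 hn4 hn5 hn6 hn7
  intro n' i j hj hi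
  set ℓ : ℝ := L (φ n) with hℓ
  rw [div_le_iff₀ hε] at hn5 hn6 hn7
  have hηℓ : (3 * (m * N) + 2) * (η₁ * ℓ) = ε * ℓ / 2 := by
    rw [← mul_assoc, hη₁e]
    ring
  have ht0 : 0 ≤ η₁ * ℓ := by positivity
  have hmN : 0 ≤ (m : ℝ) * N * (η₁ * ℓ) := by positivity
  have hηℓ2 : 3 * ((m : ℝ) * N * (η₁ * ℓ)) + 2 * (η₁ * ℓ) = ε * ℓ / 2 := by
    rw [← hηℓ]
    ring
  obtain ⟨-, G, hG, hGs⟩ := hC₁ (ω n) (ε * ℓ) (η₁ * ℓ) ht0 (by linarith) (hlow n) (fun b hb => by
    have h1 := hn3 b hb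
    have h2 : ∑ i, (ω n (b i) + if O (b i) then -(ε * L (φ n)) else η₂ * L (φ n)) ≤
        ∑ i, (ω n (b i) - if O (b i) then ε * ℓ else 0) + k * (η₂ * ℓ) := by
      have h3 : ∀ i ∈ (Finset.univ : Finset (Fin k)),
          (ω n (b i) + if O (b i) then -(ε * L (φ n)) else η₂ * L (φ n)) ≤
          (ω n (b i) - if O (b i) then ε * ℓ else 0) + η₂ * ℓ := by
        intro i _
        have e2 : 0 ≤ η₂ * ℓ := by positivity
        split_ifs <;> linarith
      refine (Finset.sum_le_sum h3).trans (le_of_eq ?_)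
      rw [Finset.sum_add_distrib, Finset.sum_const, Finset.card_univ, Fintype.card_fin,
        nsmul_eq_mul]
    have h4 : k * (η₂ * ℓ) = η₁ / 2 * ℓ := by rw [← mul_assoc, hη₂e]
    have h5 : η₁ * ℓ = η₁ / 2 * ℓ + η₁ / 2 * ℓ := by ring
    rw [h5]
    linarith)
  -- the inverse of the near return
  set G₁ := diagonal (a (φ n)) * g with hG₁
  set H₁ := diagonal (a' (φ n)) * h with hH₁
  set Nr : Matrix (Fin d) (Fin d) ℝ := c2 G₁ H₁ (γ (φ n)) with hNr
  have hNrapp : ∀ i j, Nr i j = a (φ n) i * c2 g h (γ (φ n)) i j * (a' (φ n) j)⁻¹ := fun i j =>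
    c2_diagonal hh (fun i => (ha' _ i).ne') _ _ _
  have hNrdet : Nr.det ≠ 0 := by
    rw [hNr, c2, Matrix.det_mul, Matrix.det_mul, det_zR]
    refine mul_ne_zero (mul_ne_zero (hneG _) (by exact_mod_cast hγ _)) ?_
    rw [Matrix.det_nonsing_inv, Ring.inverse_eq_inv']
    exact inv_ne_zero (hneH _)
  have hexp_small : (d : ℝ) * Real.exp (η₁ * ℓ - ε * ℓ) ≤ 1 / 2 := by
    have h1 : Real.exp (η₁ * ℓ - ε * ℓ) ≤ 1 / (2 * d) := by
      have h2 : η₁ * ℓ - ε * ℓ ≤ -Real.log (2 * d) := by linarith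
      refine (Real.exp_le_exp.2 h2).trans (le_of_eq ?_)
      rw [Real.exp_neg, Real.exp_log (by positivity), one_div]
    calc (d : ℝ) * Real.exp (η₁ * ℓ - ε * ℓ) ≤ d * (1 / (2 * d)) :=
          mul_le_mul_of_nonneg_left h1 hdR.le
      _ = 1 / 2 := by field_simp
  obtain ⟨hI1, hI2⟩ := near_inv hNrdet (s := ε * ℓ) (t := η₁ * ℓ)
    (fun i => by rw [hNrapp]; exact (hn2 i).1) (fun i j hij => by rw [hNrapp]; exact hoff _ _ _ hij)
    hexp_small
  set κ : Fin k → Matrix (Fin d) (Fin d) ℤ := fun r => iM fun a => ∑ j, G r j * v j a with hκ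
  set τ : Fin k → Matrix (Fin d) (Fin d) ℤ := fun r => κ r * (γ (φ n)).adjugate with hτ
  -- the bounds for `τ`
  have hval : ∀ r p, fv M p (G r) = c2 g h (κ r) p.1 p.2 := fun r p => by rw [hM, fv_Mf2]
  have hS1 : ∀ r i m, |c2 G₁ H₁ (κ r) i m| ≤ C₁ * Real.exp (η₁ * ℓ) := by
    intro r i m
    have h1 := (hGs r (i, m)).1
    rw [hval, hexpω] at h1
    have e1 := ha (φ n) i
    have e2 := ha' (φ n) m
    rw [hG₁, hH₁, c2_diagonal hh (fun i => (ha' _ i).ne'), abs_mul, abs_mul, abs_of_pos e1,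
      abs_of_pos (inv_pos.2 e2)]
    calc a (φ n) i * |c2 g h (κ r) i m| * (a' (φ n) m)⁻¹ ≤
          a (φ n) i * (C₁ * Real.exp (η₁ * ℓ) * (a' (φ n) m / a (φ n) i)) * (a' (φ n) m)⁻¹ := by
            gcongr
      _ = _ := by field_simp
  have hS2 : ∀ r i m, i ≠ m → |c2 G₁ H₁ (κ r) i m| ≤
      C₁ * Real.exp (η₁ * ℓ) * Real.exp (η₁ * ℓ - ε * ℓ) := by
    intro r i m him
    have h1 := (hGs r (i, m)).2 him
    rw [hval, hexpω] at h1
    have e1 := ha (φ n) i
    have e2 := ha' (φ n) m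
    rw [hG₁, hH₁, c2_diagonal hh (fun i => (ha' _ i).ne'), abs_mul, abs_mul, abs_of_pos e1,
      abs_of_pos (inv_pos.2 e2)]
    have e3 : C₁ * Real.exp (η₁ * ℓ) * Real.exp (η₁ * ℓ - ε * ℓ) =
        C₁ * Real.exp (2 * (η₁ * ℓ) - ε * ℓ) := by
      rw [mul_assoc, ← Real.exp_add]
      congr 2
      ring
    rw [e3]
    calc a (φ n) i * |c2 g h (κ r) i m| * (a' (φ n) m)⁻¹ ≤
          a (φ n) i * (C₁ * Real.exp (2 * (η₁ * ℓ) - ε * ℓ) * (a' (φ n) m / a (φ n) i)) *
            (a' (φ n) m)⁻¹ := by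
            gcongr
      _ = _ := by field_simp
  set Q₁ : ℝ := 2 * d ^ 2 * (C₁ * Real.exp (3 * (η₁ * ℓ))) with hQ₁def
  set δ₁ : ℝ := (d + 1) * Real.exp (η₁ * ℓ - ε * ℓ) with hδ₁def
  have hQ₁0 : 0 ≤ Q₁ := by positivity
  have hδ₁0 : 0 < δ₁ := by positivity
  have hexp3 : Real.exp (3 * (η₁ * ℓ)) = Real.exp (η₁ * ℓ) * Real.exp (η₁ * ℓ) *
      Real.exp (η₁ * ℓ) := by
    rw [← Real.exp_add, ← Real.exp_add]
    congr 1
    ring
  have hquot : ∀ r i j, |cj G₁ (τ r) i j| =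
      |((γ (φ n)).det : ℝ)| * |∑ m, c2 G₁ H₁ (κ r) i m * Nr⁻¹ m j| := by
    intro r i j
    rw [hτ]
    simp only
    rw [quot_eq (hneG _) (hneH _) (hγ _), Matrix.smul_apply, smul_eq_mul, abs_mul,
      Matrix.mul_apply]
  have hτND : ∀ r, ND G₁ Q₁ δ₁ (τ r) := by
    intro r
    have hE := Real.exp_pos (η₁ * ℓ)
    have hE' := Real.exp_pos (η₁ * ℓ - ε * ℓ)
    constructor
    · intro i j
      rw [hquot]
      have h3 : |∑ m, c2 G₁ H₁ (κ r) i m * Nr⁻¹ m j| ≤
          d * ((C₁ * Real.exp (η₁ * ℓ)) * (2 * Real.exp (η₁ * ℓ))) := by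
        calc |∑ m, c2 G₁ H₁ (κ r) i m * Nr⁻¹ m j| ≤ ∑ m, |c2 G₁ H₁ (κ r) i m * Nr⁻¹ m j| :=
              Finset.abs_sum_le_sum_abs _ _
          _ ≤ ∑ _m : Fin d, (C₁ * Real.exp (η₁ * ℓ)) * (2 * Real.exp (η₁ * ℓ)) := by
              refine Finset.sum_le_sum fun m _ => ?_
              rw [abs_mul]
              exact mul_le_mul (hS1 r i m) (hI1 m j) (abs_nonneg _) (by positivity)
          _ = _ := by rw [Finset.sum_const, Finset.card_univ, Fintype.card_fin, nsmul_eq_mul]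
      calc (d : ℝ) * (|((γ (φ n)).det : ℝ)| * |∑ m, c2 G₁ H₁ (κ r) i m * Nr⁻¹ m j|) ≤
            d * (Real.exp (η₁ * ℓ) *
              (d * ((C₁ * Real.exp (η₁ * ℓ)) * (2 * Real.exp (η₁ * ℓ))))) := by gcongr
        _ = Q₁ := by rw [hQ₁def, hexp3]; ring
    · intro i j hij
      rw [hquot]
      have h3 : |∑ m, c2 G₁ H₁ (κ r) i m * Nr⁻¹ m j| ≤
          d * ((C₁ * Real.exp (η₁ * ℓ)) * (2 * Real.exp (η₁ * ℓ)) *
            ((d + 1) * Real.exp (η₁ * ℓ - ε * ℓ))) := by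
        calc |∑ m, c2 G₁ H₁ (κ r) i m * Nr⁻¹ m j| ≤ ∑ m, |c2 G₁ H₁ (κ r) i m * Nr⁻¹ m j| :=
              Finset.abs_sum_le_sum_abs _ _
          _ ≤ ∑ _m : Fin d, (C₁ * Real.exp (η₁ * ℓ)) * (2 * Real.exp (η₁ * ℓ)) *
                ((d + 1) * Real.exp (η₁ * ℓ - ε * ℓ)) := by
              refine Finset.sum_le_sum fun m _ => ?_
              rw [abs_mul]
              by_cases him : i = m
              · subst him
                calc |c2 G₁ H₁ (κ r) i i| * |Nr⁻¹ i j| ≤ (C₁ * Real.exp (η₁ * ℓ)) *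
                      (2 * Real.exp (η₁ * ℓ) * (d * Real.exp (η₁ * ℓ - ε * ℓ))) :=
                      mul_le_mul (hS1 r i i) (hI2 i j hij) (abs_nonneg _) (by positivity)
                  _ = (C₁ * Real.exp (η₁ * ℓ)) * (2 * Real.exp (η₁ * ℓ)) *
                        (d * Real.exp (η₁ * ℓ - ε * ℓ)) := by ring
                  _ ≤ _ := by
                      refine mul_le_mul_of_nonneg_left ?_ (by positivity)
                      exact mul_le_mul_of_nonneg_right (by linarith) hE'.le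
              · calc |c2 G₁ H₁ (κ r) i m| * |Nr⁻¹ m j| ≤
                      (C₁ * Real.exp (η₁ * ℓ) * Real.exp (η₁ * ℓ - ε * ℓ)) *
                        (2 * Real.exp (η₁ * ℓ)) :=
                      mul_le_mul (hS2 r i m him) (hI1 m j) (abs_nonneg _) (by positivity)
                  _ = (C₁ * Real.exp (η₁ * ℓ)) * (2 * Real.exp (η₁ * ℓ)) *
                        (1 * Real.exp (η₁ * ℓ - ε * ℓ)) := by ring
                  _ ≤ _ := by
                      refine mul_le_mul_of_nonneg_left ?_ (by positivity)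
                      exact mul_le_mul_of_nonneg_right (by linarith) hE'.le
          _ = _ := by rw [Finset.sum_const, Finset.card_univ, Fintype.card_fin, nsmul_eq_mul]
      calc (d : ℝ) * (|((γ (φ n)).det : ℝ)| * |∑ m, c2 G₁ H₁ (κ r) i m * Nr⁻¹ m j|) ≤
            d * (Real.exp (η₁ * ℓ) *
              (d * ((C₁ * Real.exp (η₁ * ℓ)) * (2 * Real.exp (η₁ * ℓ)) *
            ((d + 1) * Real.exp (η₁ * ℓ - ε * ℓ))))) := by gcongr
        _ = Q₁ * δ₁ := by rw [hQ₁def, hδ₁def, hexp3]; ring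
  -- the algebra generated by the `τ`
  set T : Set (Matrix (Fin d) (Fin d) ℚ) := Set.range fun r => zQ (τ r) with hT
  have hzτ : ∀ r, zQ (τ r) = ((γ (φ n)).det : ℚ) • (zQ (κ r) * (zQ (γ (φ n)))⁻¹) := by
    intro r
    rw [hτ]
    simp only
    rw [map_mul, hadjQ, Matrix.mul_smul]
  have hκV : ∀ r, zQ (κ r) ∈ V := by
    intro r
    have h1 : zQ (κ r) = ∑ j, (G r j : ℚ) • zQ (iM (v j)) := by
      ext a b
      rw [Matrix.sum_apply, zQ_apply, hκ]
      simp only [iM, Matrix.of_apply, Matrix.smul_apply, smul_eq_mul, zQ_apply]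
      push_cast
      rfl
    rw [h1]
    exact Submodule.sum_mem _ fun j _ => V.smul_mem _ (Submodule.subset_span ⟨j, rfl⟩)
  have hVT : ∀ X ∈ V, X * (zQ (γ (φ n)))⁻¹ ∈ Submodule.span ℚ T := by
    intro X hX
    have h1 := span_kappa hG hX
    have h2 : (LinearMap.mulRight ℚ (zQ (γ (φ n)))⁻¹) X ∈
        (Submodule.span ℚ (Set.range fun r => zQ (κ r))).map
          (LinearMap.mulRight ℚ (zQ (γ (φ n)))⁻¹) := Submodule.mem_map_of_mem h1
    rw [Submodule.map_span, ← Set.range_comp, LinearMap.mulRight_apply] at h2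
    refine Submodule.span_le.2 ?_ h2
    rintro _ ⟨r, rfl⟩
    have h3 : (⇑(LinearMap.mulRight ℚ (zQ (γ (φ n)))⁻¹) ∘ fun r => zQ (κ r)) r =
        ((γ (φ n)).det : ℚ)⁻¹ • zQ (τ r) := by
      rw [Function.comp_apply, LinearMap.mulRight_apply, hzτ, smul_smul,
        inv_mul_cancel₀ (hdetQ _), one_smul]
    rw [h3]
    exact Submodule.smul_mem _ _ (Submodule.subset_span ⟨r, rfl⟩)
  have h1T : (1 : Matrix (Fin d) (Fin d) ℚ) ∈ Submodule.span ℚ T := by
    have := hVT _ (hγV n)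
    rwa [Matrix.mul_nonsing_inv _ (hunitQ _)] at this
  have hadj : Algebra.adjoin ℚ T = 𝒲 := by
    rw [← h𝒲n n]
    refine le_antisymm ?_ ?_
    · rw [Algebra.adjoin_le_iff]
      rintro _ ⟨r, rfl⟩
      change zQ (τ r) ∈ LA V (zQ (γ (φ n)))
      rw [hzτ]
      exact Subalgebra.smul_mem _ (mem_LA (hκV r)) _
    · rw [LA, Algebra.adjoin_le_iff]
      rintro _ ⟨X, hX, rfl⟩
      have h1 := hVT X hX
      have h2 : Submodule.span ℚ T ≤ Subalgebra.toSubmodule (Algebra.adjoin ℚ T) := by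
        rw [Submodule.span_le]
        exact Algebra.subset_adjoin
      exact h2 h1
  have hspan : Subalgebra.toSubmodule 𝒲 = Submodule.span ℚ (T ^ N) := by
    rw [← hadj]
    refine adjoin_eq_span_pow T h1T N ?_
    rw [Module.finrank_matrix]
    simp [hN]
  -- independent words
  obtain ⟨B, hBT, hBspan, hBli⟩ := exists_linearIndependent ℚ (T ^ N)
  have hBfin : B.Finite := hBli.setFinite
  have : Fintype B := hBfin.fintype
  have hBcard : Fintype.card B = m := by
    rw [← hfin, hspan, ← hBspan]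
    have h1 := finrank_span_eq_card hBli
    rw [Subtype.range_coe] at h1
    exact h1.symm
  let e : Fin m ≃ B := (Fintype.equivFinOfCardEq hBcard).symm
  have hword : ∀ s : Fin m, ∃ w : Matrix (Fin d) (Fin d) ℤ, zQ w = (e s : Matrix _ _ ℚ) ∧
      ND G₁ (d * Q₁ ^ N) (N * δ₁) w := fun s =>
    nd_words (hneG _) hQ₁0 hδ₁0.le τ hτND N _ (hBT (e s).2)
  choose w hwB hwND using hword
  have hwW : ∀ s, iQ (vc (w s)) ∈ W := by
    intro s
    rw [hWmem, hwB]
    have h1 : (e s : Matrix (Fin d) (Fin d) ℚ) ∈ Subalgebra.toSubmodule 𝒲 := by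
      rw [hspan]
      exact Submodule.subset_span (hBT (e s).2)
    exact h1
  set Z : Matrix (Fin m) (Fin m) ℤ := Matrix.of fun s r => ∑ a, A' r a * vc (w s) a with hZ
  have hDw : ∀ s, D' • w s = iM fun a => ∑ r, Z s r * u r a := by
    intro s
    ext i j
    have h1 := hrec _ (hwW s) (i, j)
    rw [Matrix.smul_apply, smul_eq_mul]
    exact h1
  have hZdet : Z.det ≠ 0 := by
    intro h0
    obtain ⟨cc, hcc, hccZ⟩ := Matrix.exists_vecMul_eq_zero_iff.2 h0
    have h1 : ∑ s, cc s • (D' • w s) = 0 := by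
      simp only [hDw]
      ext i j
      rw [Matrix.sum_apply, Matrix.zero_apply]
      simp only [Matrix.smul_apply, smul_eq_mul, iM, Matrix.of_apply]
      have h2 : ∑ s, cc s * ∑ r, Z s r * u r (i, j) = ∑ r, (∑ s, cc s * Z s r) * u r (i, j) := by
        simp only [Finset.mul_sum, Finset.sum_mul]
        rw [Finset.sum_comm]
        exact Finset.sum_congr rfl fun r _ => Finset.sum_congr rfl fun s _ => by ring
      rw [h2]
      refine Finset.sum_eq_zero fun r _ => ?_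
      have h3 := congrFun hccZ r
      rw [Matrix.vecMul, dotProduct] at h3
      rw [h3]
      simp
    have h2 : ∑ s, (cc s : ℚ) • (e s : Matrix (Fin d) (Fin d) ℚ) = 0 := by
      have h3 : (D' : ℚ) • ∑ s, (cc s : ℚ) • (e s : Matrix (Fin d) (Fin d) ℚ) = 0 := by
        have h4 := congrArg zQ h1
        rw [map_zero, map_sum] at h4
        rw [← h4, Finset.smul_sum]
        refine Finset.sum_congr rfl fun s _ => ?_
        rw [← hwB]
        ext i j
        simp only [Matrix.smul_apply, smul_eq_mul, zQ_apply]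
        push_cast
        ring
      have hD'Q : (D' : ℚ) ≠ 0 := by exact_mod_cast hD'
      exact (smul_eq_zero.1 h3).resolve_left hD'Q
    have hli : LinearIndependent ℚ (fun s => (e s : Matrix (Fin d) (Fin d) ℚ)) :=
      hBli.comp _ e.injective
    have h3 := Fintype.linearIndependent_iff.1 hli (fun s => (cc s : ℚ)) h2
    apply hcc
    funext s
    exact_mod_cast h3 s
  have hQ₁eq : Q₁ = (2 * d ^ 2 * C₁) * Real.exp (3 * (η₁ * ℓ)) := by
    rw [hQ₁def]
    ring
  have hQ₁1 : 1 ≤ Q₁ := by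
    rw [hQ₁eq]
    exact one_le_mul_of_one_le_of_one_le hQ₁ (Real.one_le_exp (by positivity))
  have hlogQ₁ : Real.log Q₁ = R + 3 * (η₁ * ℓ) := by
    rw [hQ₁eq, Real.log_mul (by positivity) (Real.exp_pos _).ne', Real.log_exp]
  have hlogδ : Real.log (N * δ₁) = S + (η₁ * ℓ - ε * ℓ) := by
    have h2 : (N : ℝ) * δ₁ = (N * (d + 1)) * Real.exp (η₁ * ℓ - ε * ℓ) := by
      rw [hδ₁def]
      ring
    rw [h2, Real.log_mul (by positivity) (Real.exp_pos _).ne', Real.log_exp]
  have hC₀abs : C₀ ≤ |C₀| := le_abs_self _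
  have hmNR : 0 ≤ (m : ℝ) * (N * R) := by positivity
  have hkey : C₀ + m * Real.log (Q₁ ^ N) < -Real.log (N * δ₁) := by
    rw [Real.log_pow, hlogQ₁, hlogδ]
    have h1 : (m : ℝ) * (N * (R + 3 * (η₁ * ℓ))) = m * (N * R) + 3 * (m * N * (η₁ * ℓ)) := by ring
    rw [h1]
    linarith
  have hNδ1 : (N : ℝ) * δ₁ ≤ 1 := by
    rw [← Real.log_nonpos_iff (by positivity), hlogδ]
    have := abs_nonneg C₀
    linarith
  have hrow := hC₀ (a (φ n)) (ha _) (hrig' n) (Q₁ ^ N) (N * δ₁) (one_le_pow₀ hQ₁1)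
    (by positivity) hNδ1 w Z hZdet hDw hwND hkey i j hj hi
  -- the conclusion for all elements of the algebra
  have hmem : zQ (γ (φ n') * (γ (φ n)).adjugate) ∈ 𝒲 := by
    rw [map_mul, hadjQ, Matrix.mul_smul, ← h𝒲n n]
    exact Subalgebra.smul_mem _ (mem_LA (hγV n')) _
  rw [← hWmem] at hmem
  have h1 := fun p => hrec _ hmem p
  set γ' := γ (φ n') * (γ (φ n)).adjugate with hγ'
  have h2 : D' • γ' = ∑ r, (∑ a, A' r a * vc γ' a) • iM (u r) := by
    ext i j
    have h3 := h1 (i, j)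
    rw [Matrix.sum_apply, Matrix.smul_apply, smul_eq_mul]
    exact h3
  have h3 : (D' : ℝ) * cj g γ' i j = 0 := by
    have h4 := congrFun (congrFun (congrArg (cj g) h2) i) j
    rw [cj_smul, cj_sum, Matrix.sum_apply, Matrix.smul_apply, smul_eq_mul] at h4
    rw [h4]
    refine Finset.sum_eq_zero fun r _ => ?_
    rw [cj_smul, Matrix.smul_apply, hrow r, smul_zero]
  have hD'R : (D' : ℝ) ≠ 0 := by exact_mod_cast hD'
  exact (mul_eq_zero.1 h3).resolve_left hD'R

end Pool.Agent.KS6_27
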