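import Mathlib
import Pool.Agent.KS6_27.Gen
import Pool.Agent.KS6_27.Enc

/-! # Exponentially good encounters when only scalar matrices preserve the flags -/

set_option autoImplicit false
set_option linter.unusedSectionVars false

open Finset Matrix Filter Topology H715R2 Module
open Pool.Agent.T6.H49.CSD (cj cj_one cj_mul cj_add cj_sub cj_smul cj_diagonal rigid zR_smul)

namespace Pool.Agent.KS6_27

variable {d : ℕ}

/-- **Encounters when only scalar matrices preserve the flags.** -/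
theorem enc_scal (hd : 0 < d) {g h : Matrix (Fin d) (Fin d) ℝ} (hg : g.det ≠ 0)
    (hh : h.det ≠ 0)
    (halg : ∀ i j, IsAlgebraic ℚ (g i j)) (halg' : ∀ i j, IsAlgebraic ℚ (h i j))
    (P : (Fin d → ℝ) → (Fin d → ℝ) → Prop) (hPa : ∀ a a', P a a' → ∀ i, 0 < a i)
    (hPa' : ∀ a a', P a a' → ∀ i, 0 < a' i) {η₀ c : ℝ} (hη₀ : 0 < η₀) (hc0 : 0 < c)
    (hrig : ∀ a a', P a a' → ∀ κ : Matrix (Fin d) (Fin d) ℤ, κ ≠ 0 →
      ∃ i j, η₀ ≤ |cj (diagonal a * g) κ i j|)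
    (hrig2 : ∀ a a', P a a' → ∀ κ : Matrix (Fin d) (Fin d) ℤ, κ ≠ 0 →
      ∃ i j, c < |c2 (diagonal a * g) (diagonal a' * h) κ i j|)
    (hsc : ∀ a a', P a a' → ∀ κ : Matrix (Fin d) (Fin d) ℤ, κ.det ≠ 0 →
      (∀ i j, j ≠ i → a j ≤ a i → cj g κ i j = 0) → ∃ z : ℤ, κ = z • (1 : Matrix _ _ ℤ))
    {ε : ℝ} (hε : 0 < ε) :
    ∃ η L₀ : ℝ, 0 < η ∧ ∀ L : ℝ, L₀ ≤ L → ∀ (a a' : Fin d → ℝ) (γ : Matrix (Fin d) (Fin d) ℤ),
      P a a' → (∀ i, |Real.log (a i)| ≤ L) → (∀ i, |Real.log (a' i)| ≤ L) →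
      γ.det ≠ 0 → |(γ.det : ℝ)| ≤ Real.exp (η * L) →
      (∀ i, Real.exp (-(η * L)) ≤ |a i * c2 g h γ i i * (a' i)⁻¹| ∧
        |a i * c2 g h γ i i * (a' i)⁻¹| ≤ Real.exp (η * L)) →
      (∀ i j, i ≠ j → |a i * c2 g h γ i j * (a' j)⁻¹| ≤ Real.exp (-(ε * L))) →
      ∀ i j, j ≠ i → a j ≤ a i → c2 g h γ i j = 0 := by
  classical
  by_contra hcon
  push Not at hcon
  have hcon' : ∀ n : ℕ, ∃ (L : ℝ) (a a' : Fin d → ℝ) (γ : Matrix (Fin d) (Fin d) ℤ)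
      (i j : Fin d), (n : ℝ) ≤ L ∧ P a a' ∧ (∀ i, |Real.log (a i)| ≤ L) ∧
      (∀ i, |Real.log (a' i)| ≤ L) ∧
      γ.det ≠ 0 ∧ |(γ.det : ℝ)| ≤ Real.exp (1 / ((n : ℝ) + 1) * L) ∧
      (∀ i, Real.exp (-(1 / ((n : ℝ) + 1) * L)) ≤ |a i * c2 g h γ i i * (a' i)⁻¹| ∧
        |a i * c2 g h γ i i * (a' i)⁻¹| ≤ Real.exp (1 / ((n : ℝ) + 1) * L)) ∧
      (∀ i j, i ≠ j → |a i * c2 g h γ i j * (a' j)⁻¹| ≤ Real.exp (-(ε * L))) ∧
      j ≠ i ∧ a j ≤ a i ∧ c2 g h γ i j ≠ 0 := by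
    intro n
    obtain ⟨L, hL, a, a', γ, h1, h2, h3, h4, h5, h6, h7, i, j, h8, h9, h10⟩ :=
      hcon (1 / ((n : ℝ) + 1)) n (by positivity)
    exact ⟨L, a, a', γ, i, j, hL, h1, h2, h3, h4, h5, h6, h7, h8, h9, h10⟩
  choose L a a' γ i j hL hP hLa hLa' hγ hdet hdiag hoff hji hle hne using hcon'
  have ha : ∀ n i, 0 < a n i := fun n => hPa _ _ (hP n)
  have ha' : ∀ n i, 0 < a' n i := fun n => hPa' _ _ (hP n)
  have hpig : ∃ i₀ j₀, ∃ᶠ n in atTop, i n = i₀ ∧ j n = j₀ := by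
    by_contra hc
    push Not at hc
    have h1 : ∀ p : Fin d × Fin d, ∀ᶠ n in atTop, ¬ (i n = p.1 ∧ j n = p.2) := fun p =>
      Filter.not_frequently.1 (by
        intro hf
        exact absurd hf (by simpa using hc p.1 p.2))
    have h2 := Filter.eventually_all.2 h1
    obtain ⟨n, hn⟩ := h2.exists
    exact hn (i n, j n) ⟨rfl, rfl⟩
  obtain ⟨i₀, j₀, hfreq⟩ := hpig
  obtain ⟨ψ, hψ, hψi⟩ := extraction_of_frequently_atTop hfreq
  have hLt : Tendsto L atTop atTop :=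
    tendsto_atTop_mono (fun n => hL n) tendsto_natCast_atTop_atTop
  have hL0 : ∀ n, 0 ≤ L n := fun n => (Nat.cast_nonneg n).trans (hL n)
  have hrate : ∀ η : ℝ, 0 < η → ∀ᶠ n : ℕ in atTop, 1 / ((n : ℝ) + 1) * L n ≤ η * L n := by
    intro η hη
    have h1 : Tendsto (fun n : ℕ => 1 / ((n : ℝ) + 1)) atTop (𝓝 0) :=
      tendsto_one_div_add_atTop_nhds_zero_nat
    filter_upwards [h1.eventually (gt_mem_nhds hη)] with n hn
    exact mul_le_mul_of_nonneg_right hn.le (hL0 n)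
  obtain ⟨φ, hφ, hev⟩ := struct3 hd hg hh halg halg' hε (fun n => a (ψ n))
    (fun n => a' (ψ n)) (fun n => ha _) (fun n => ha' _) hη₀ hc0
    (fun n => hrig _ _ (hP _)) (fun n => hrig2 _ _ (hP _))
    (fun n => L (ψ n)) (hLt.comp hψ.tendsto_atTop) (fun n => hLa _) (fun n => hLa' _)
    (fun n => γ (ψ n)) (fun n => hγ _) (fun η hη => by
      filter_upwards [hψ.tendsto_atTop.eventually (hrate η hη)] with n hn
      exact (hdet _).trans (Real.exp_le_exp.2 hn)) (fun η hη => by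
      filter_upwards [hψ.tendsto_atTop.eventually (hrate η hη)] with n hn i
      exact ⟨(Real.exp_le_exp.2 (by linarith)).trans (hdiag _ i).1,
        (hdiag _ i).2.trans (Real.exp_le_exp.2 hn)⟩) (fun n => hoff _)
  obtain ⟨n, hn⟩ := hev.exists
  set p := ψ (φ n) with hp
  have hip : i p = i₀ := (hψi _).1
  have hjp : j p = j₀ := (hψi _).2
  have hji₀ : j₀ ≠ i₀ := by rw [← hip, ← hjp]; exact hji p
  have hne₀ : c2 g h (γ p) i₀ j₀ ≠ 0 := by rw [← hip, ← hjp]; exact hne p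
  have hdetp : ((γ p).det : ℝ) ≠ 0 := by exact_mod_cast hγ p
  -- the matrices are proportional
  have hmul : ∀ n', ((γ p).det : ℝ) • c2 g h (γ (ψ (φ n'))) =
      cj g (γ (ψ (φ n')) * (γ p).adjugate) * c2 g h (γ p) := by
    intro n'
    rw [cj_mul_c2 hg, Matrix.mul_assoc, Matrix.adjugate_mul, Matrix.mul_smul, Matrix.mul_one,
      c2_smul]
  have hscal : ∀ n', ∃ z : ℤ, γ (ψ (φ n')) * (γ p).adjugate = z • (1 : Matrix _ _ ℤ) := by
    intro n'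
    refine hsc _ _ (hP p) _ ?_ (fun i j hj hle' => hn n' i j hj hle')
    rw [Matrix.det_mul, Matrix.det_adjugate]
    exact mul_ne_zero (hγ _) (pow_ne_zero _ (hγ _))
  -- the limit
  have hLt2 : Tendsto (fun n' => L (ψ (φ n'))) atTop atTop :=
    hLt.comp (hψ.tendsto_atTop.comp hφ.tendsto_atTop)
  have hexp : Tendsto (fun n' => Real.exp (-(ε / 2 * L (ψ (φ n'))))) atTop (𝓝 0) :=
    Real.tendsto_exp_neg_atTop_nhds_zero.comp (hLt2.const_mul_atTop (by positivity))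
  have hrate2 := (hψ.tendsto_atTop.comp hφ.tendsto_atTop).eventually (hrate (ε / 2) (by positivity))
  have hB : ∀ᶠ n' in atTop, |c2 g h (γ p) i₀ j₀| ≤
      |c2 g h (γ p) j₀ j₀| * Real.exp (-(ε / 2 * L (ψ (φ n')))) := by
    filter_upwards [hrate2] with n' hn'
    set q := ψ (φ n') with hq
    have hiq : i q = i₀ := (hψi _).1
    have hjq : j q = j₀ := (hψi _).2
    obtain ⟨x, hx⟩ := hscal n'
    have hcj : cj g (γ q * (γ p).adjugate) = (x : ℝ) • (1 : Matrix (Fin d) (Fin d) ℝ) := by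
      rw [hx, cj_smul, cj_one hg]
    have hprop : ∀ l m, ((γ p).det : ℝ) * c2 g h (γ q) l m = x * c2 g h (γ p) l m := by
      intro l m
      have h1 := congrFun (congrFun (hmul n') l) m
      rw [← hq, hcj, Matrix.smul_mul, Matrix.one_mul, Matrix.smul_apply, Matrix.smul_apply,
        smul_eq_mul, smul_eq_mul] at h1
      exact h1
    have hrel : c2 g h (γ q) i₀ j₀ * c2 g h (γ p) j₀ j₀ =
        c2 g h (γ q) j₀ j₀ * c2 g h (γ p) i₀ j₀ := by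
      refine mul_left_cancel₀ hdetp ?_
      calc ((γ p).det : ℝ) * (c2 g h (γ q) i₀ j₀ * c2 g h (γ p) j₀ j₀) =
            (((γ p).det : ℝ) * c2 g h (γ q) i₀ j₀) * c2 g h (γ p) j₀ j₀ := by ring
        _ = (((γ p).det : ℝ) * c2 g h (γ q) j₀ j₀) * c2 g h (γ p) i₀ j₀ := by
            rw [hprop, hprop]
            ring
        _ = _ := by ring
    have e1 := ha q i₀
    have e2 := ha q j₀
    have e3 := ha' q j₀
    have h1 := hoff q i₀ j₀ hji₀.symm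
    have h2 := (hdiag q j₀).1
    rw [abs_mul, abs_mul, abs_of_pos e1, abs_of_pos (inv_pos.2 e3)] at h1
    rw [abs_mul, abs_mul, abs_of_pos e2, abs_of_pos (inv_pos.2 e3)] at h2
    have h3 : a q j₀ ≤ a q i₀ := by
      have := hle q
      rw [hiq, hjq] at this
      exact this
    have hexpq : Real.exp (-(ε * L q)) ≤ Real.exp (-(1 / ((q : ℝ) + 1) * L q)) *
        Real.exp (-(ε / 2 * L q)) := by
      have hn'' : 1 / ((q : ℝ) + 1) * L q ≤ ε / 2 * L q := hn'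
      rw [← Real.exp_add]
      exact Real.exp_le_exp.2 (by linarith)
    have hE := Real.exp_pos (-(1 / ((q : ℝ) + 1) * L q))
    have h4 : Real.exp (-(1 / ((q : ℝ) + 1) * L q)) * |c2 g h (γ p) i₀ j₀| ≤
        Real.exp (-(1 / ((q : ℝ) + 1) * L q)) *
          (|c2 g h (γ p) j₀ j₀| * Real.exp (-(ε / 2 * L q))) := by
      calc Real.exp (-(1 / ((q : ℝ) + 1) * L q)) * |c2 g h (γ p) i₀ j₀| ≤
            (a q j₀ * |c2 g h (γ q) j₀ j₀| * (a' q j₀)⁻¹) * |c2 g h (γ p) i₀ j₀| := by gcongr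
        _ = a q j₀ * (a' q j₀)⁻¹ * |c2 g h (γ q) j₀ j₀ * c2 g h (γ p) i₀ j₀| := by
            rw [abs_mul]
            ring
        _ = a q j₀ * (a' q j₀)⁻¹ * |c2 g h (γ q) i₀ j₀ * c2 g h (γ p) j₀ j₀| := by rw [hrel]
        _ ≤ a q i₀ * (a' q j₀)⁻¹ * |c2 g h (γ q) i₀ j₀ * c2 g h (γ p) j₀ j₀| := by gcongr
        _ = (a q i₀ * |c2 g h (γ q) i₀ j₀| * (a' q j₀)⁻¹) * |c2 g h (γ p) j₀ j₀| := by
            rw [abs_mul]
            ring
        _ ≤ Real.exp (-(ε * L q)) * |c2 g h (γ p) j₀ j₀| := by gcongr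
        _ ≤ (Real.exp (-(1 / ((q : ℝ) + 1) * L q)) * Real.exp (-(ε / 2 * L q))) *
              |c2 g h (γ p) j₀ j₀| := by gcongr
        _ = _ := by ring
    exact le_of_mul_le_mul_left h4 hE
  have hlim : Tendsto (fun n' => |c2 g h (γ p) j₀ j₀| *
      Real.exp (-(ε / 2 * L (ψ (φ n'))))) atTop (𝓝 0) := by
    have := hexp.const_mul |c2 g h (γ p) j₀ j₀|
    rwa [mul_zero] at this
  have h0 : |c2 g h (γ p) i₀ j₀| ≤ 0 := ge_of_tendsto hlim hB
  exact hne₀ (abs_nonpos_iff.1 h0)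

end Pool.Agent.KS6_27
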