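import Mathlib
import Pool.Graph.R_pool_sql_team_39128cda.Results.MP_019b27_al.NoCompleteExtension

set_option autoImplicit false

open Filter Set

namespace Pool.Agent.KS6_27.ML

open Pool.Agent.Results.MP_019b27_al.NoCompleteExtension

universe u w

/-- a sequence that cannot have a supremum -/
def Bad {L : Type w} [Lattice L] (X Y G D d : L) (a : ℕ → L) : Prop :=
  X ⊓ G = Y ⊓ G ∧ X ⊔ G = Y ⊔ G ∧ Y ⊓ D = X ⊓ D ∧ Y ⊔ D = X ⊔ D ∧ Y ⊓ D = Y ⊓ G ∧ X ⊓ G ≤ a 0 ∧
    (∀ m, a m ≤ X) ∧ (∀ m, tau X Y G D (a m) ≤ a (m + 1)) ∧ (∀ m, a m ≤ d) ∧ Monotone a ∧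
    ¬ a 1 ≤ tau X Y G D d

theorem persp' {K : Type u} [Lattice K] [IsModularLattice K] (Y G : K) (s : ℕ → K) (x : K)
    (hx : IsLUB (range s) x) (hs : ∀ m, s m ≤ Y ⊔ G) :
    IsLUB (range fun m => (s m ⊔ G) ⊓ Y) ((x ⊔ G) ⊓ Y) := by
  constructor
  · rintro _ ⟨m, rfl⟩
    exact inf_le_inf_right _ (sup_le_sup_right (hx.1 ⟨m, rfl⟩) _)
  · intro z hz
    have hm : ∀ m, (s m ⊔ G) ⊓ Y ≤ z ⊓ Y := fun m => le_inf (hz ⟨m, rfl⟩) inf_le_right
    have h1 : ∀ m, s m ≤ (z ⊓ Y) ⊔ G := by
      intro m
      calc s m ≤ (G ⊔ Y) ⊓ (s m ⊔ G) := le_inf (by rw [sup_comm]; exact hs m) le_sup_left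
        _ ≤ G ⊔ Y ⊓ (s m ⊔ G) := (sup_inf_assoc_of_le _ le_sup_right).le
        _ ≤ (z ⊓ Y) ⊔ G := sup_le le_sup_right (le_sup_of_le_left (by rw [inf_comm]; exact hm m))
    have h2 : x ≤ (z ⊓ Y) ⊔ G := hx.2 (by rintro _ ⟨m, rfl⟩; exact h1 m)
    calc (x ⊔ G) ⊓ Y ≤ ((z ⊓ Y) ⊔ G) ⊓ Y := inf_le_inf_right _ (sup_le h2 le_sup_right)
      _ ≤ (z ⊓ Y) ⊔ G ⊓ Y := (sup_inf_assoc_of_le _ inf_le_right).le
      _ ≤ z ⊓ Y := sup_le le_rfl ((inf_le_inf_right _ le_sup_right).trans (hm 0))
      _ ≤ z := inf_le_left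

theorem tau_map {L : Type w} [Lattice L] {K : Type u} [Lattice K] (f : LatticeHom L K)
    (X Y G D x : L) : f (tau X Y G D x) = tau (f X) (f Y) (f G) (f D) (f x) := by
  unfold tau
  rw [InfHomClass.map_inf, SupHomClass.map_sup, InfHomClass.map_inf, SupHomClass.map_sup]

theorem Bad.no_lub {L : Type w} [Lattice L] {X Y G D d : L} {a : ℕ → L} (hB : Bad X Y G D d a)
    {K : Type u} [Lattice K] [IsModularLattice K]
    (hK : Holds K prem (tauT, .var 4)) (f : LatticeHom L K) (hf : Function.Injective f) (s : K) :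
    ¬ IsLUB (range fun m => f (a m)) s := by
  intro hs
  obtain ⟨h1, h2, h3, h4, h5, h6, h7, h8, h9, -, h10⟩ := hB
  have hm : Monotone f := OrderHomClass.mono f
  have g1 := congrArg f h1
  have g2 := congrArg f h2
  have g3 := congrArg f h3
  have g4 := congrArg f h4
  have g5 := congrArg f h5
  have g6 := hm h6
  rw [InfHomClass.map_inf, InfHomClass.map_inf] at g1 g3 g5
  rw [SupHomClass.map_sup, SupHomClass.map_sup] at g2 g4
  rw [InfHomClass.map_inf] at g6
  have hle : ∀ m, f (a m) ≤ s := fun m => hs.1 ⟨m, rfl⟩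
  have p1 := persp' (f Y) (f G) (fun m => f (a m)) s hs
    (fun m => by rw [← g2]; exact le_sup_of_le_left (hm (h7 m)))
  have p2 := persp' (f X) (f D) (fun m => (f (a m) ⊔ f G) ⊓ f Y) _ p1
    (fun m => by rw [← g4]; exact le_sup_of_le_left inf_le_right)
  have e := (psi_iff K).1 hK (f X) (f Y) (f G) (f D) s g1 g2 g3 g4 g5
    (g6.trans (hle 0)) (hs.2 (by rintro _ ⟨m, rfl⟩; exact hm (h7 m))) (by
      refine p2.2 ?_
      rintro _ ⟨m, rfl⟩
      exact (tau_map f _ _ _ _ (a m)).symm.le.trans ((hm (h8 m)).trans (hle _)))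
  have h11 : f (a 1) ≤ f (tau X Y G D d) := by
    rw [tau_map]
    refine (hle 1).trans (e.symm.le.trans (tau_mono _ _ _ _ _ _ (hs.2 ?_)))
    rintro _ ⟨m, rfl⟩
    exact hm (h9 m)
  rw [← inf_eq_left, ← InfHomClass.map_inf] at h11
  exact h10 (inf_eq_left.1 (hf h11))

/-- `Bad` is preserved and reflected by embeddings. -/
theorem Bad_map {L : Type w} [Lattice L] {M : Type u} [Lattice M] (j : LatticeHom L M)
    (hj : Function.Injective j) (X Y G D d : L) (a : ℕ → L) :
    Bad X Y G D d a ↔ Bad (j X) (j Y) (j G) (j D) (j d) (fun m => j (a m)) := by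
  have hle : ∀ x y : L, j x ≤ j y ↔ x ≤ y := by
    intro x y
    rw [← inf_eq_left, ← inf_eq_left, ← InfHomClass.map_inf, hj.eq_iff]
  have hmono : Monotone (fun m => j (a m)) ↔ Monotone a :=
    ⟨fun h m n hmn => (hle _ _).1 (h hmn), fun h m n hmn => (hle _ _).2 (h hmn)⟩
  unfold Bad
  rw [hmono]
  simp only [← InfHomClass.map_inf, ← SupHomClass.map_sup, ← tau_map, hle, hj.eq_iff]

/-- the countable sublattice -/
theorem tm_countable : Countable Tm := by
  let enc : Tm → ℕ := fun t => Tm.rec (fun n => 3 * n)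
    (fun _ _ x y => 3 * Nat.pair x y + 1) (fun _ _ x y => 3 * Nat.pair x y + 2) t
  have h : Function.Injective enc := by
    intro s
    induction s with
    | var n =>
      intro t ht
      cases t with
      | var m =>
        have : 3 * n = 3 * m := ht
        congr 1; omega
      | meet a b =>
        have : 3 * n = 3 * Nat.pair (enc a) (enc b) + 1 := ht
        omega
      | join a b =>
        have : 3 * n = 3 * Nat.pair (enc a) (enc b) + 2 := ht
        omega
    | meet a b iha ihb =>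
      intro t ht
      cases t with
      | var m =>
        have : 3 * Nat.pair (enc a) (enc b) + 1 = 3 * m := ht
        omega
      | meet c d =>
        have h1 : 3 * Nat.pair (enc a) (enc b) + 1 = 3 * Nat.pair (enc c) (enc d) + 1 := ht
        have h2 : Nat.pair (enc a) (enc b) = Nat.pair (enc c) (enc d) := by omega
        rw [Nat.pair_eq_pair] at h2
        rw [iha h2.1, ihb h2.2]
      | join c d =>
        have h1 : 3 * Nat.pair (enc a) (enc b) + 1 = 3 * Nat.pair (enc c) (enc d) + 2 := ht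
        omega
    | join a b iha ihb =>
      intro t ht
      cases t with
      | var m =>
        have : 3 * Nat.pair (enc a) (enc b) + 2 = 3 * m := ht
        omega
      | meet c d =>
        have h1 : 3 * Nat.pair (enc a) (enc b) + 2 = 3 * Nat.pair (enc c) (enc d) + 1 := ht
        omega
      | join c d =>
        have h1 : 3 * Nat.pair (enc a) (enc b) + 2 = 3 * Nat.pair (enc c) (enc d) + 2 := ht
        have h2 : Nat.pair (enc a) (enc b) = Nat.pair (enc c) (enc d) := by omega
        rw [Nat.pair_eq_pair] at h2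
        rw [iha h2.1, ihb h2.2]
  exact h.countable

/-- the sublattice generated by a sequence -/
def gen {M : Type} [Lattice M] (v : ℕ → M) : Sublattice M where
  carrier := range fun t : Tm => t.eval v
  supClosed' := by
    rintro _ ⟨s, rfl⟩ _ ⟨t, rfl⟩
    exact ⟨.join s t, rfl⟩
  infClosed' := by
    rintro _ ⟨s, rfl⟩ _ ⟨t, rfl⟩
    exact ⟨.meet s t, rfl⟩

theorem gen_countable {M : Type} [Lattice M] (v : ℕ → M) : Countable (gen v) := by
  have := tm_countable
  exact (countable_range fun t : Tm => t.eval v).to_subtype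

theorem mem_gen {M : Type} [Lattice M] (v : ℕ → M) (n : ℕ) : v n ∈ gen v := ⟨.var n, rfl⟩

theorem eval_map {L : Type u} [Lattice L] {M : Type u} [Lattice M] (j : LatticeHom L M)
    (v : ℕ → L) (t : Tm) : j (t.eval v) = t.eval (fun n => j (v n)) := by
  induction t with
  | var n => rfl
  | meet a b ha hb => rw [Tm.eval, InfHomClass.map_inf, ha, hb]; rfl
  | join a b ha hb => rw [Tm.eval, SupHomClass.map_sup, ha, hb]; rfl

theorem holds_sub {L : Type u} [Lattice L] {M : Type u} [Lattice M] (j : LatticeHom L M)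
    (hj : Function.Injective j) (P : List (Tm × Tm)) (c : Tm × Tm) (h : Holds M P c) :
    Holds L P c := by
  intro v hv
  apply hj
  rw [eval_map, eval_map]
  apply h
  intro p hp
  rw [← eval_map, ← eval_map, hv p hp]

theorem eval_fst {L M : Type u} [Lattice L] [Lattice M] (v : ℕ → L × M) (t : Tm) :
    (t.eval v).1 = t.eval (fun n => (v n).1) := by
  induction t with
  | var n => rfl
  | meet a b ha hb => rw [Tm.eval, Prod.fst_inf, ha, hb]; rfl
  | join a b ha hb => rw [Tm.eval, Prod.fst_sup, ha, hb]; rfl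

theorem eval_snd {L M : Type u} [Lattice L] [Lattice M] (v : ℕ → L × M) (t : Tm) :
    (t.eval v).2 = t.eval (fun n => (v n).2) := by
  induction t with
  | var n => rfl
  | meet a b ha hb => rw [Tm.eval, Prod.snd_inf, ha, hb]; rfl
  | join a b ha hb => rw [Tm.eval, Prod.snd_sup, ha, hb]; rfl

theorem holds_prod {L M : Type u} [Lattice L] [Lattice M] (P : List (Tm × Tm)) (c : Tm × Tm)
    (h : Holds L P c) (h' : Holds M P c) : Holds (L × M) P c := by
  intro v hv
  apply Prod.ext
  · rw [eval_fst, eval_fst]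
    refine h _ fun p hp => ?_
    rw [← eval_fst, ← eval_fst, hv p hp]
  · rw [eval_snd, eval_snd]
    refine h' _ fun p hp => ?_
    rw [← eval_snd, ← eval_snd, hv p hp]

/-- the dual term -/
def du : Tm → Tm
  | .var n => .var n
  | .meet a b => .join (du a) (du b)
  | .join a b => .meet (du a) (du b)

theorem du_du (t : Tm) : du (du t) = t := by
  induction t with
  | var n => rfl
  | meet a b ha hb => simp only [du, ha, hb]
  | join a b ha hb => simp only [du, ha, hb]

/-- the dual quasi-identity -/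
def duP (P : List (Tm × Tm)) : List (Tm × Tm) := P.map fun p => (du p.1, du p.2)

theorem eval_du {L : Type u} [Lattice L] (v : ℕ → L) (t : Tm) :
    Tm.eval (L := Lᵒᵈ) (fun n => OrderDual.toDual (v n)) t = OrderDual.toDual ((du t).eval v) := by
  induction t with
  | var n => rfl
  | meet a b ha hb => rw [Tm.eval, ha, hb]; rfl
  | join a b ha hb => rw [Tm.eval, ha, hb]; rfl

theorem holds_dual {L : Type u} [Lattice L] (P : List (Tm × Tm)) (c : Tm × Tm) :
    Holds Lᵒᵈ P c ↔ Holds L (duP P) (du c.1, du c.2) := by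
  constructor
  · intro h v hv
    have h1 := h (fun n => OrderDual.toDual (v n)) (fun p hp => by
      rw [eval_du, eval_du]
      exact congrArg OrderDual.toDual (hv _ (List.mem_map_of_mem hp)))
    rw [eval_du, eval_du] at h1
    exact OrderDual.toDual_inj.1 h1
  · intro h v hv
    have h1 := h (fun n => OrderDual.ofDual (v n)) (by
      intro q hq
      obtain ⟨p, hp, rfl⟩ := List.mem_map.1 hq
      apply OrderDual.toDual_inj.1
      rw [← eval_du, ← eval_du]
      exact hv p hp)
    have h2 := congrArg OrderDual.toDual h1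
    rw [← eval_du, ← eval_du] at h2
    exact h2

end Pool.Agent.KS6_27.ML
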