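import Pool.Agent.KS6_27.MLa

set_option autoImplicit false

open Filter Set

namespace Pool.Agent.KS6_27.ML

open Pool.Agent.Results.MP_019b27_al.NoCompleteExtension

universe u w

/-- the lattice of germs -/
abbrev LL : Type := Germ (atTop : Filter ℕ) FD

theorem LL_mod : Holds LL [] modLaw := holds_germ _ _ ((mod_iff FD).1 FD_mod)

theorem LL_psi : Holds LL prem (tauT, .var 4) := holds_germ _ _ FD_psi

theorem FDd_psi : Holds FDᵒᵈ prem (tauT, .var 4) :=
  psi_of_val (L := FDᵒᵈ) (fun U => Module.finrank ℚ (OrderDual.ofDual U).1)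
    (fun a b => by
      have := Submodule.finrank_sup_add_finrank_inf_eq (OrderDual.ofDual a).1 (OrderDual.ofDual b).1
      have e1 : (OrderDual.ofDual (a ⊔ b)).1 = (OrderDual.ofDual a).1 ⊓ (OrderDual.ofDual b).1 := rfl
      have e2 : (OrderDual.ofDual (a ⊓ b)).1 = (OrderDual.ofDual a).1 ⊔ (OrderDual.ofDual b).1 := rfl
      rw [e1, e2]
      omega)
    (fun a b h e => OrderDual.ofDual_inj.1 (Subtype.ext
      (Submodule.eq_of_le_of_finrank_eq
        (show (OrderDual.ofDual b).1 ≤ (OrderDual.ofDual a).1 from h) e.symm).symm))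

theorem LLd_psi : Holds LLᵒᵈ prem (tauT, .var 4) :=
  (holds_dual _ _).2 (holds_germ _ _ ((holds_dual _ _).1 FDd_psi))

theorem LL_bad : Bad (L := LL) (Germ.ofFun sX) (Germ.ofFun sY)
    (Germ.ofFun sG) (Germ.ofFun sD) (Germ.ofFun fun n => sa n n) (fun m => Germ.ofFun (sa m)) := by
  refine ⟨congrArg Germ.ofFun (funext fun n => Subtype.ext ((X_inf _ _).trans (Y_inf _ _).symm)),
    congrArg Germ.ofFun (funext fun n => Subtype.ext
      ((X_sup _ _ (T_mem n)).trans (Y_sup _ _ (T_mem n)).symm)),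
    congrArg Germ.ofFun (funext fun n => Subtype.ext ((Y_inf _ _).trans (X_inf _ _).symm)),
    congrArg Germ.ofFun (funext fun n => Subtype.ext
      ((Y_sup _ _ fun _ => Iff.rfl).trans (X_sup _ _ fun _ => Iff.rfl).symm)),
    congrArg Germ.ofFun (funext fun n => Subtype.ext ((Y_inf _ _).trans (Y_inf _ _).symm)),
    Germ.coe_le.2 (Eventually.of_forall fun n => (X_inf (A n) T).le.trans bot_le),
    fun m => Germ.coe_le.2 (Eventually.of_forall fun n =>
      Submodule.prod_mono (fun _ h => h.1) le_rfl),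
    fun m => Germ.coe_le.2 (Eventually.of_forall fun n p hp => by
      obtain ⟨⟨g, hg, e⟩, h2⟩ := tau_mem (A n) (a0 m n) T p hp
      refine ⟨?_, h2⟩
      rw [e]
      exact ⟨(T_mem n g).2 hg.1, fun j h1 h2 => hg.2 (j - 1) (by omega) (by omega)⟩),
    fun m => Germ.coe_le.2 ((eventually_ge_atTop m).mono fun n hn =>
      Submodule.prod_mono (fun _ h => ⟨h.1, fun j h1 h2 => h.2 j (by omega) h2⟩) le_rfl),
    fun m m' hm => Germ.coe_le.2 (Eventually.of_forall fun n =>
      Submodule.prod_mono (fun _ h => ⟨h.1, fun j h1 h2 => h.2 j (by omega) h2⟩) le_rfl), ?_⟩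
  intro h
  obtain ⟨n, hn⟩ := (Germ.coe_le.1 h).exists
  exact final n hn

/-- the product with the dual -/
abbrev MM : Type := LL × LLᵒᵈ

theorem dual_mod {L : Type u} [Lattice L] (h : Holds L [] modLaw) : Holds Lᵒᵈ [] modLaw := by
  have := (mod_iff L).2 h
  exact (mod_iff _).1 inferInstance

theorem MM_mod : Holds MM [] modLaw := holds_prod _ _ LL_mod (dual_mod LL_mod)

theorem MM_psi : Holds MM prem (tauT, .var 4) := holds_prod _ _ LL_psi LLd_psi

theorem duP_duP (P : List (Tm × Tm)) : duP (duP P) = P := by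
  unfold duP
  rw [List.map_map]
  conv_rhs => rw [← List.map_id P]
  congr 1
  funext p
  simp [du_du]

theorem MM_psi' : Holds MM (duP prem) (du tauT, du (.var 4)) := by
  refine holds_prod _ _ ((holds_dual prem (tauT, .var 4)).1 LLd_psi) ?_
  rw [holds_dual, duP_duP]
  simp only [du_du]
  exact LL_psi

/-- first embedding -/
def j₁ (c : LL) : LatticeHom LL MM where
  toFun x := (x, OrderDual.toDual c)
  map_sup' x y := by
    change (x ⊔ y, OrderDual.toDual c) = (x ⊔ y, OrderDual.toDual c ⊔ OrderDual.toDual c)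
    rw [sup_idem]
  map_inf' x y := by
    change (x ⊓ y, OrderDual.toDual c) = (x ⊓ y, OrderDual.toDual c ⊓ OrderDual.toDual c)
    rw [inf_idem]

/-- second embedding -/
def j₂ (c : LL) : LatticeHom LL MMᵒᵈ where
  toFun x := OrderDual.toDual (c, OrderDual.toDual x)
  map_sup' x y := by
    change OrderDual.toDual ((c, OrderDual.toDual (x ⊔ y)) : MM) =
      OrderDual.toDual ((c ⊓ c, OrderDual.toDual (x ⊔ y)) : MM)
    rw [inf_idem]
  map_inf' x y := by
    change OrderDual.toDual ((c, OrderDual.toDual (x ⊓ y)) : MM) =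
      OrderDual.toDual ((c ⊔ c, OrderDual.toDual (x ⊓ y)) : MM)
    rw [sup_idem]

theorem j₁_inj (c : LL) : Function.Injective (j₁ c) := fun _ _ h => congrArg Prod.fst h

theorem j₂_inj (c : LL) : Function.Injective (j₂ c) := fun x y h =>
  OrderDual.toDual_inj.1 (congrArg Prod.snd (OrderDual.toDual_inj.1 h))

/-- the elements used -/
def el (X Y G D d : LL) (a : ℕ → LL) : ℕ → LL
  | 0 => X
  | 1 => Y
  | 2 => G
  | 3 => D
  | 4 => d
  | (m + 5) => a m

/-- the generating sequence -/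
def vv (c : LL) (e : ℕ → LL) (n : ℕ) : MM :=
  if n % 2 = 0 then j₁ c (e (n / 2)) else OrderDual.ofDual (j₂ c (e (n / 2)))

theorem vv_even (c : LL) (e : ℕ → LL) (k : ℕ) : j₁ c (e k) ∈ gen (vv c e) := by
  have h := mem_gen (vv c e) (2 * k)
  have e1 : vv c e (2 * k) = j₁ c (e k) := by
    unfold vv
    rw [if_pos (by omega)]
    congr 2; omega
  rwa [e1] at h

theorem vv_odd (c : LL) (e : ℕ → LL) (k : ℕ) : OrderDual.ofDual (j₂ c (e k)) ∈ gen (vv c e) := by
  have h := mem_gen (vv c e) (2 * k + 1)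
  have e1 : vv c e (2 * k + 1) = OrderDual.ofDual (j₂ c (e k)) := by
    unfold vv
    rw [if_neg (by omega)]
    congr 3; omega
  rwa [e1] at h

theorem main : ∃ (M : Type) (_ : Lattice M), Countable M ∧ Holds M [] modLaw ∧
    Holds M prem (tauT, .var 4) ∧ Holds M (duP prem) (du tauT, du (.var 4)) ∧
    (∃ X Y G D d : M, ∃ a : ℕ → M, Bad X Y G D d a) ∧
    (∃ X Y G D d : Mᵒᵈ, ∃ a : ℕ → Mᵒᵈ, Bad X Y G D d a) := by
  obtain ⟨X, Y, G, D, d, a, hB⟩ : ∃ X Y G D d : LL, ∃ a : ℕ → LL, Bad X Y G D d a :=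
    ⟨_, _, _, _, _, _, LL_bad⟩
  let e := el X Y G D d a
  let c : LL := X
  let M₀ := gen (vv c e)
  let i : LatticeHom M₀ MM := M₀.subtype
  have hi : Function.Injective i := Subtype.val_injective
  have hi' : Function.Injective (LatticeHom.dual i) := fun x y h =>
    OrderDual.ofDual_inj.1 (hi (OrderDual.toDual_inj.1 h))
  refine ⟨M₀, inferInstance, gen_countable _, holds_sub i hi _ _ MM_mod,
    holds_sub i hi _ _ MM_psi, holds_sub i hi _ _ MM_psi', ?_, ?_⟩
  · refine ⟨⟨_, vv_even c e 0⟩, ⟨_, vv_even c e 1⟩, ⟨_, vv_even c e 2⟩, ⟨_, vv_even c e 3⟩,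
      ⟨_, vv_even c e 4⟩, fun m => ⟨_, vv_even c e (m + 5)⟩, ?_⟩
    rw [Bad_map i hi]
    exact (Bad_map (j₁ c) (j₁_inj c) X Y G D d a).1 hB
  · refine ⟨OrderDual.toDual ⟨_, vv_odd c e 0⟩, OrderDual.toDual ⟨_, vv_odd c e 1⟩,
      OrderDual.toDual ⟨_, vv_odd c e 2⟩, OrderDual.toDual ⟨_, vv_odd c e 3⟩,
      OrderDual.toDual ⟨_, vv_odd c e 4⟩, fun m => OrderDual.toDual ⟨_, vv_odd c e (m + 5)⟩, ?_⟩
    rw [Bad_map (LatticeHom.dual i) hi']
    exact (Bad_map (j₂ c) (j₂_inj c) X Y G D d a).1 hB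

end Pool.Agent.KS6_27.ML
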