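import Mathlib
import Pool.Graph.R_pool_sql_team_seeded_3dad9d7b.NH29.GN.U1
import Pool.Graph.R_pool_sql_team_seeded_3dad9d7b.NH29.GN.U2
import Pool.Graph.R_pool_sql_team_seeded_3dad9d7b.NH29.GN.U3
import Pool.Graph.R_pool_sql_team_seeded_3dad9d7b.NH29.GN.U4
import Pool.Graph.R_pool_sql_team_seeded_3dad9d7b.NH29.GN.RU

/-! # Linear forms with values in a finitely generated multiplicative group

Along a generic sequence of integer points, linear forms with values in a finitely generated subgroup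
of the multiplicative group of the complex numbers are linearly independent, if they are pairwise not
proportional. The lines of such forms are permuted by the automorphisms of the complex numbers. -/

set_option autoImplicit false
set_option linter.unusedSectionVars false

open Filter Module

namespace Pool.Agent.KS6_27.MV

open Pool.Agent.NH29.GN (UE u1 u2 u3 u4 ru)

theorem ueC : UE ℂ := u4 (u2 u1) u3 ℂ

theorem ruC (T : Finset ℂ) : ∃ Γ : Subgroup ℂˣ, Γ.FG ∧ ∀ u : ℂˣ,
    (u : ℂ) ∈ Subring.closure (T : Set ℂ) → ((u⁻¹ : ℂˣ) : ℂ) ∈ Subring.closure (T : Set ℂ) →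
      u ∈ Γ := ru ℂ T

variable {m d : ℕ}

lemma fg_map {G H : Type} [Group G] [Group H] (f : G →* H) {P : Subgroup G} (h : P.FG) :
    (P.map f).FG := by
  classical
  obtain ⟨S, rfl⟩ := h
  refine ⟨S.image f, ?_⟩
  rw [Finset.coe_image, ← MonoidHom.map_closure]

/-- the value of a linear form at an integer point -/
def fm (v : Fin m → ℂ) (y : Fin m → ℤ) : ℂ := ∑ j, v j * (y j : ℂ)

lemma fm_sub_smul (v w : Fin m → ℂ) (c : ℂ) (y : Fin m → ℤ) :
    fm (v - c • w) y = fm v y - c * fm w y := by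
  unfold fm
  rw [Finset.mul_sum, ← Finset.sum_sub_distrib]
  refine Finset.sum_congr rfl fun j _ => ?_
  rw [Pi.sub_apply, Pi.smul_apply, smul_eq_mul]
  ring

lemma fm_zero (y : Fin m → ℤ) : fm (0 : Fin m → ℂ) y = 0 := by
  unfold fm
  simp

lemma fm_smul (v : Fin m → ℂ) (c : ℂ) (y : Fin m → ℤ) : fm (c • v) y = c * fm v y := by
  unfold fm
  rw [Finset.mul_sum]
  refine Finset.sum_congr rfl fun j _ => ?_
  rw [Pi.smul_apply, smul_eq_mul]
  ring

lemma fm_map (τ : ℂ ≃+* ℂ) (v : Fin m → ℂ) (y : Fin m → ℤ) :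
    fm (fun i => τ (v i)) y = τ (fm v y) := by
  unfold fm
  rw [map_sum]
  refine Finset.sum_congr rfl fun j _ => ?_
  rw [map_mul, map_intCast]

/-- no linear form vanishes at the points -/
def Gen (𝒰 : Ultrafilter ℕ) (y : ℕ → Fin m → ℤ) : Prop :=
  ∀ v : Fin m → ℂ, v ≠ 0 → ∀ᶠ t in (𝒰 : Filter ℕ), fm v (y t) ≠ 0

theorem indep {𝒰 : Ultrafilter ℕ} {y : ℕ → Fin m → ℤ} (hy : Gen 𝒰 y) (Γ : Subgroup ℂˣ)
    (hΓ : Γ.FG) {J : Type} [Fintype J] (l : J → Fin m → ℂ)
    (hl : ∀ i j, i ≠ j → ∀ c : ℂ, l i ≠ c • l j)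
    (hv : ∀ j t, ∃ u ∈ Γ, ((u : ℂˣ) : ℂ) = fm (l j) (y t)) : LinearIndependent ℂ l := by
  choose u hu hv using hv
  rw [Fintype.linearIndependent_iff]
  intro a ha
  refine ueC Γ hΓ 𝒰 J u hu ?_ a ?_
  · intro i j hij c hcon
    have h1 : l i - c • l j ≠ 0 := sub_ne_zero.2 (hl i j hij c)
    obtain ⟨t, ht1, ht2⟩ := ((hy _ h1).and hcon).exists
    apply ht1
    rw [fm_sub_smul, ← hv, ← hv, ht2, sub_self]
  · refine Filter.Eventually.of_forall fun t => ?_
    have h1 : fm (∑ j, a j • l j) (y t) = 0 := by rw [ha, fm_zero]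
    rw [← h1]
    unfold fm
    simp only [hv, fm, Finset.mul_sum, Finset.sum_apply, Pi.smul_apply, smul_eq_mul,
      Finset.sum_mul]
    rw [Finset.sum_comm]
    refine Finset.sum_congr rfl fun j _ => Finset.sum_congr rfl fun i _ => ?_
    ring

/-- proportional -/
def Prp (v w : Fin m → ℂ) : Prop := ∃ c : ℂ, c ≠ 0 ∧ v = c • w

lemma Prp.refl (v : Fin m → ℂ) : Prp v v := ⟨1, one_ne_zero, (one_smul _ _).symm⟩

lemma Prp.symm {v w : Fin m → ℂ} (h : Prp v w) : Prp w v := by
  obtain ⟨c, hc, h⟩ := h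
  exact ⟨c⁻¹, inv_ne_zero hc, by rw [h, smul_smul, inv_mul_cancel₀ hc, one_smul]⟩

lemma Prp.trans {v w z : Fin m → ℂ} (h : Prp v w) (h' : Prp w z) : Prp v z := by
  obtain ⟨c, hc, h⟩ := h
  obtain ⟨c', hc', h'⟩ := h'
  exact ⟨c * c', mul_ne_zero hc hc', by rw [h, h', smul_smul]⟩

lemma ne_smul {v w : Fin m → ℂ} (hv : v ≠ 0) (h : ¬ Prp v w) (c : ℂ) : v ≠ c • w := by
  intro hcon
  by_cases hc : c = 0
  · rw [hc, zero_smul] at hcon
    exact hv hcon
  · exact h ⟨c, hc, hcon⟩

lemma ne_zero_of_val {v : Fin m → ℂ} {y : Fin m → ℤ} {u : ℂˣ} (h : (u : ℂ) = fm v y) : v ≠ 0 := by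
  rintro rfl
  rw [fm_zero] at h
  exact u.ne_zero h

/-- **The lines of the forms** form a basis, and they are permuted by the automorphisms. -/
theorem frame (l : Fin d → Fin m → ℂ) (hspan : Submodule.span ℂ (Set.range l) = ⊤)
    {𝒰 : Ultrafilter ℕ} {y : ℕ → Fin m → ℤ} (hy : Gen 𝒰 y) (Γ : Subgroup ℂˣ) (hΓ : Γ.FG)
    (hv : ∀ i t, ∃ u ∈ Γ, ((u : ℂˣ) : ℂ) = fm (l i) (y t)) :
    ∃ (r : Fin m → Fin d) (p : Fin d → Fin m), LinearIndependent ℂ (fun j => l (r j)) ∧
      (∀ i, Prp (l i) (l (r (p i)))) ∧ (∀ j, p (r j) = j) ∧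
      ∀ τ : ℂ ≃+* ℂ, ∀ j, ∃ k, Prp (fun i => τ (l (r j) i)) (l (r k)) := by
  classical
  have hl0 : ∀ i, l i ≠ 0 := by
    intro i
    obtain ⟨u, -, hu⟩ := hv i 0
    exact ne_zero_of_val hu
  let s : Setoid (Fin d) := ⟨fun i j => Prp (l i) (l j), fun i => Prp.refl _, fun h => h.symm,
    fun h h' => h.trans h'⟩
  have hout : ∀ i : Fin d, Prp (l i) (l (Quotient.out (Quotient.mk s i))) := fun i =>
    ((Quotient.mk_out i : Prp _ _)).symm
  have hfin : Finite (Quotient s) := inferInstance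
  let _ : Fintype (Quotient s) := Fintype.ofFinite _
  have hneq : ∀ q q' : Quotient s, q ≠ q' → ¬ Prp (l q.out) (l q'.out) := by
    intro q q' hqq h
    apply hqq
    rw [← Quotient.out_eq q, ← Quotient.out_eq q']
    exact Quotient.sound h
  have hli : LinearIndependent ℂ fun q : Quotient s => l q.out :=
    indep hy Γ hΓ _ (fun q q' hqq c => ne_smul (hl0 _) (hneq q q' hqq) c) fun q t => hv _ t
  have hsp : ⊤ ≤ Submodule.span ℂ (Set.range fun q : Quotient s => l q.out) := by
    rw [← hspan, Submodule.span_le]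
    rintro v ⟨i, rfl⟩
    obtain ⟨c, hc, h⟩ := hout i
    rw [h]
    exact Submodule.smul_mem _ _ (Submodule.subset_span ⟨_, rfl⟩)
  have hcard : Fintype.card (Quotient s) = m := by
    have h1 := Module.finrank_eq_card_basis (Basis.mk hli hsp)
    rw [Module.finrank_fintype_fun_eq_card, Fintype.card_fin] at h1
    exact h1.symm
  let e : Fin m ≃ Quotient s := (Fintype.equivFinOfCardEq hcard).symm
  refine ⟨fun j => (e j).out, fun i => e.symm (Quotient.mk s i), ?_, ?_, ?_, ?_⟩
  · exact hli.comp e e.injective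
  · intro i
    beta_reduce
    rw [Equiv.apply_symm_apply]
    exact hout i
  · intro j
    beta_reduce
    rw [Quotient.out_eq, Equiv.symm_apply_apply]
  · intro τ j
    by_contra hcon
    push Not at hcon
    set Γ' : Subgroup ℂˣ := Γ ⊔ Γ.map (Units.map (τ : ℂ →* ℂ)) with hΓ'
    have hΓ'fg : Γ'.FG := Subgroup.FG.sup hΓ (fg_map _ hΓ)
    let f : Option (Fin m) → Fin m → ℂ := fun o =>
      o.elim (fun i => τ (l (e j).out i)) fun k => l (e k).out
    have hf0 : ∀ o, f o ≠ 0 := by
      intro o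
      cases o with
      | none =>
        intro h
        apply hl0 (e j).out
        funext i
        have h1 := congrFun h i
        simp only [f, Option.elim] at h1
        rw [Pi.zero_apply] at h1 ⊢
        exact (map_eq_zero_iff τ τ.injective).1 h1
      | some k => exact hl0 _
    have hnp : ∀ a b, a ≠ b → ¬ Prp (f a) (f b) := by
      intro a b hab h
      cases a with
      | none =>
        cases b with
        | none => exact hab rfl
        | some k => exact hcon k h
      | some k =>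
        cases b with
        | none => exact hcon k h.symm
        | some k' =>
          refine hneq _ _ ?_ h
          intro h1
          apply hab
          rw [e.injective h1]
    have hindep : LinearIndependent ℂ f := by
      refine indep hy Γ' hΓ'fg f (fun a b hab c => ne_smul (hf0 a) (hnp a b hab) c) ?_
      intro o t
      cases o with
      | none =>
        obtain ⟨u, hu, huv⟩ := hv (e j).out t
        refine ⟨Units.map (τ : ℂ →* ℂ) u, ?_, ?_⟩
        · exact (le_sup_right : _ ≤ Γ') (Subgroup.mem_map_of_mem _ hu)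
        · show τ (u : ℂ) = fm (fun i => τ (l (e j).out i)) (y t)
          rw [fm_map, huv]
      | some k =>
        obtain ⟨u, hu, huv⟩ := hv (e k).out t
        exact ⟨u, (le_sup_left : _ ≤ Γ') hu, huv⟩
    have h1 := hindep.fintype_card_le_finrank
    rw [Module.finrank_fintype_fun_eq_card, Fintype.card_option, Fintype.card_fin] at h1
    omega

end Pool.Agent.KS6_27.MV
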