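import Mathlib
import Pool.Agent.KS6_27.MV1
import Pool.Graph.R_pool_sql_team_ae5b0c61.H77.QfAO
import Pool.Graph.R_pool_sql_team_seeded_47a924f7.T6.H49.CSD.Classes

/-! # Forms whose lines are permuted by the automorphisms of the complex numbers -/

set_option autoImplicit false
set_option linter.unusedSectionVars false

open MvPolynomial H715R2

namespace Pool.Agent.KS6_27.MV

variable {m : ℕ}

/-- the polynomial over the complex numbers -/
noncomputable def polyC (l : Fin m → Fin m → ℂ) : MvPolynomial (Fin m) ℂ :=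
  ∏ i : Fin m, ∑ j : Fin m, C (l i j) * X j

lemma map_polyF (h : Matrix (Fin m) (Fin m) ℝ) :
    MvPolynomial.map (Complex.ofRealHom) (polyF h) = polyC fun i j => ((h i j : ℝ) : ℂ) := by
  unfold polyF polyC
  rw [map_prod]
  refine Finset.prod_congr rfl fun i _ => ?_
  rw [map_sum]
  refine Finset.sum_congr rfl fun j _ => ?_
  rw [map_mul, map_C, map_X]
  rfl

lemma map_polyC (τ : ℂ →+* ℂ) (l : Fin m → Fin m → ℂ) :
    MvPolynomial.map τ (polyC l) = polyC fun i j => τ (l i j) := by
  unfold polyC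
  rw [map_prod]
  refine Finset.prod_congr rfl fun i _ => ?_
  rw [map_sum]
  refine Finset.sum_congr rfl fun j _ => ?_
  rw [map_mul, map_C, map_X]

lemma polyC_perm (l l' : Fin m → Fin m → ℂ) (k : Fin m → Fin m) (hk : Function.Bijective k)
    (c : Fin m → ℂ) (h : ∀ j, l' j = c j • l (k j)) : polyC l' = C (∏ j, c j) * polyC l := by
  unfold polyC
  rw [← Function.Bijective.prod_comp hk fun i => ∑ j : Fin m, C (l i j) * X j, map_prod,
    ← Finset.prod_mul_distrib]
  refine Finset.prod_congr rfl fun i _ => ?_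
  rw [Finset.mul_sum]
  refine Finset.sum_congr rfl fun j _ => ?_
  rw [h, Pi.smul_apply, smul_eq_mul, C_mul]
  ring

/-- **A product of forms whose lines are permuted** is proportional to an integral form. -/
theorem propInt_of_frame {h : Matrix (Fin m) (Fin m) ℝ} (hh : h.det ≠ 0)
    (hli : LinearIndependent ℂ fun j : Fin m => fun i => ((h j i : ℝ) : ℂ))
    (hτ : ∀ τ : ℂ ≃+* ℂ, ∀ j, ∃ k, Prp (fun i => τ ((h j i : ℝ) : ℂ)) (fun i => ((h k i : ℝ) : ℂ))) :
    PropInt h := by
  classical
  set l : Fin m → Fin m → ℂ := fun i j => ((h i j : ℝ) : ℂ) with hl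
  have hpoly : polyF h ≠ 0 := by
    unfold polyF
    refine Finset.prod_ne_zero_iff.2 fun i _ h0 => hh ?_
    refine Matrix.det_eq_zero_of_row_eq_zero i fun j => ?_
    have h1 := congrArg (eval (Pi.single j (1 : ℝ))) h0
    simpa [Pi.single_apply] using h1
  obtain ⟨m0, hm0⟩ := MvPolynomial.exists_coeff_ne_zero hpoly
  set v := coeff m0 (polyF h) with hv
  have hfix : ∀ τ : ℂ ≃+* ℂ, ∃ c : ℂ, c ≠ 0 ∧ ∀ n, τ ((coeff n (polyF h) : ℝ) : ℂ) =
      c * ((coeff n (polyF h) : ℝ) : ℂ) := by
    intro τ
    choose k c hc hkc using hτ τ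
    have hinj : Function.Injective k := by
      intro j j' hjj
      by_contra hne
      have h1 : ∀ i, τ (l j i) = c j * l (k j) i := fun i => congrFun (hkc j) i
      have h2 : ∀ i, τ (l j' i) = c j' * l (k j) i := fun i => by
        rw [hjj]
        exact congrFun (hkc j') i
      have h3 : ∀ i, l j i = τ.symm (c j / c j') * l j' i := by
        intro i
        apply τ.injective
        rw [map_mul, RingEquiv.apply_symm_apply, h1, h2, div_mul_eq_mul_div, ← mul_assoc,
          mul_comm (c j) (c j'), mul_assoc, mul_div_cancel_left₀ _ (hc j')]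
      set a : ℂ := τ.symm (c j / c j') with ha
      have h4 := Fintype.linearIndependent_iff.1 hli
        ((Pi.single j 1 - Pi.single j' a : Fin m → ℂ)) ?_ j
      · rw [Pi.sub_apply, Pi.single_eq_same, Pi.single_eq_of_ne hne, sub_zero] at h4
        exact one_ne_zero h4
      · simp only [Pi.sub_apply, sub_smul, Finset.sum_sub_distrib, Pi.single_apply, ite_smul,
          one_smul, zero_smul, Finset.sum_ite_eq', Finset.mem_univ, if_true]
        rw [sub_eq_zero]
        funext i
        exact h3 i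
    have hbij : Function.Bijective k := Finite.injective_iff_bijective.1 hinj
    refine ⟨∏ j, c j, Finset.prod_ne_zero_iff.2 fun j _ => hc j, fun n => ?_⟩
    have h1 := congrArg (coeff n) (polyC_perm l (fun j i => τ (l j i)) k hbij c hkc)
    rw [← RingEquiv.coe_toRingHom] at h1
    rw [← map_polyC, coeff_map, coeff_C_mul, hl, ← map_polyF, coeff_map] at h1
    exact h1
  refine T6.H49.CSD.propInt_of_span hh v fun n => ?_
  have hrat : ∃ q : ℚ, (q : ℂ) = ((coeff n (polyF h) : ℝ) : ℂ) / ((v : ℝ) : ℂ) := by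
    refine H77.Qf.rat_of_fixed _ fun τ => ?_
    obtain ⟨c, hc, h1⟩ := hfix τ
    rw [map_div₀, h1, hv, h1, mul_div_mul_left _ _ hc]
  obtain ⟨q, hq⟩ := hrat
  rw [Submodule.mem_span_singleton]
  refine ⟨q, ?_⟩
  have hv0 : ((v : ℝ) : ℂ) ≠ 0 := by exact_mod_cast hm0
  rw [eq_div_iff hv0] at hq
  rw [Algebra.smul_def]
  exact_mod_cast hq

end Pool.Agent.KS6_27.MV
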