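import Mathlib

/-! # Stable families of vectors: the sum of the weights against a basis of least weight -/

set_option autoImplicit false
set_option linter.unusedSectionVars false

open Finset Matrix

namespace Pool.Agent.KS6_27.NV

variable {K : Type} [Field K] {e : ℕ} {ι : Type} [Fintype ι] [DecidableEq ι]

/-- the matrix of a choice of vectors -/
def sk (m : ι → Fin e → K) (b : Fin e → ι) : Matrix (Fin e) (Fin e) K :=
  Matrix.of fun i => m (b i)

lemma sk_update (m : ι → Fin e → K) (b : Fin e → ι) (i : Fin e) (p : ι) :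
    sk m (Function.update b i p) = (sk m b).updateRow i (m p) := by
  ext a j
  by_cases h : a = i
  · subst h
    simp [sk]
  · rw [Matrix.updateRow_ne h]
    simp [sk, Function.update_of_ne h]

/-- Cramer's rule for rows -/
lemma cramer_rowK (N : Matrix (Fin e) (Fin e) K) (u : Fin e → K) (j : Fin e) :
    N.det * u j = ∑ i, (N.updateRow i u).det * N i j := by
  have h := Matrix.mulVec_cramer N.transpose u
  rw [Matrix.det_transpose] at h
  have h2 := congrFun h j
  simp only [Matrix.mulVec, dotProduct, Matrix.transpose_apply, Matrix.cramer_transpose_apply,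
    Pi.smul_apply, smul_eq_mul] at h2
  rw [← h2]
  exact Finset.sum_congr rfl fun i _ => mul_comm _ _

lemma expand (m : ι → Fin e → K) (b : Fin e → ι) (hb : (sk m b).det ≠ 0) (p : ι) :
    m p = ∑ i, ((sk m b).det⁻¹ * (sk m (Function.update b i p)).det) • m (b i) := by
  funext j
  have h := cramer_rowK (sk m b) (m p) j
  rw [Finset.sum_apply]
  have h2 : m p j = (sk m b).det⁻¹ * ((sk m b).det * m p j) := by
    rw [← mul_assoc, inv_mul_cancel₀ hb, one_mul]
  rw [h2, h, Finset.mul_sum]
  refine Finset.sum_congr rfl fun i _ => ?_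
  rw [sk_update, Pi.smul_apply, smul_eq_mul]
  simp only [sk, Matrix.of_apply]
  ring

/-- a basis of least weight -/
lemma exists_minK (m : ι → Fin e → K) (hM : ∃ b : Fin e → ι, (sk m b).det ≠ 0) (ω : ι → ℝ) :
    ∃ b : Fin e → ι, (sk m b).det ≠ 0 ∧ ∀ i p, (sk m (Function.update b i p)).det ≠ 0 →
      ω (b i) ≤ ω p := by
  classical
  obtain ⟨b₀, hb₀⟩ := hM
  obtain ⟨b, hb, hmin⟩ := Finset.exists_min_image
    (Finset.univ.filter fun b : Fin e → ι => (sk m b).det ≠ 0) (fun b => ∑ i, ω (b i))
    ⟨b₀, Finset.mem_filter.2 ⟨Finset.mem_univ _, hb₀⟩⟩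
  refine ⟨b, (Finset.mem_filter.1 hb).2, fun i p hp => ?_⟩
  have h1 := hmin _ (Finset.mem_filter.2 ⟨Finset.mem_univ _, hp⟩)
  rw [← Finset.add_sum_erase _ _ (Finset.mem_univ i),
    ← Finset.add_sum_erase (a := i) _ (fun j => ω (Function.update b i p j))
      (Finset.mem_univ i)] at h1
  have h2 : ∑ j ∈ Finset.univ.erase i, ω (Function.update b i p j) =
      ∑ j ∈ Finset.univ.erase i, ω (b j) := by
    refine Finset.sum_congr rfl fun j hj => ?_
    rw [Function.update_of_ne (Finset.ne_of_mem_erase hj)]
  rw [h2, Function.update_self] at h1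
  linarith

/-- the span of a part of a basis -/
def spn (m : ι → Fin e → K) (b : Fin e → ι) (κ : Finset (Fin e)) : Submodule K (Fin e → K) :=
  Submodule.span K ((fun k => m (b k)) '' (κ : Set (Fin e)))

/-- stability of a family of vectors -/
def Stab (m : ι → Fin e → K) : Prop :=
  ∀ b : Fin e → ι, (sk m b).det ≠ 0 → ∀ κ : Finset (Fin e), κ.Nonempty → κ ≠ Finset.univ →
    e * Nat.card {i : ι // m i ∈ spn m b κ} < Fintype.card ι * κ.card

lemma mem_spn_of_min {m : ι → Fin e → K} {b : Fin e → ι} (hb : (sk m b).det ≠ 0) {r : ι → ℝ}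
    (hmin : ∀ i p, (sk m (Function.update b i p)).det ≠ 0 → r (b i) ≤ r p) {t : ℝ} {p : ι}
    (hp : r p ≤ t) : m p ∈ spn m b (Finset.univ.filter fun k => r (b k) ≤ t) := by
  rw [expand m b hb p]
  refine Submodule.sum_mem _ fun i _ => ?_
  by_cases h : (sk m (Function.update b i p)).det = 0
  · rw [h, mul_zero, zero_smul]
    exact Submodule.zero_mem _
  · refine Submodule.smul_mem _ _ (Submodule.subset_span ⟨i, ?_, rfl⟩)
    rw [Finset.mem_coe, Finset.mem_filter]
    exact ⟨Finset.mem_univ _, (hmin i p h).trans hp⟩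

/-- domination of sums -/
lemma sum_le_of_counts {α : Type} [Fintype α] (u v : α → ℝ)
    (h : ∀ t : ℝ, Nat.card {a // u a ≤ t} ≤ Nat.card {a // v a ≤ t}) :
    ∑ a, v a ≤ ∑ a, u a := by
  classical
  have hall : ∀ s : Finset α, s.card ≤ (s.biUnion fun a => Finset.univ.filter
      fun b => v b ≤ u a).card := by
    intro s
    rcases s.eq_empty_or_nonempty with rfl | hs
    · simp
    obtain ⟨a₀, ha₀, hmax⟩ := s.exists_max_image u hs
    have h1 : s ⊆ Finset.univ.filter fun a => u a ≤ u a₀ := fun a ha =>
      Finset.mem_filter.2 ⟨Finset.mem_univ _, hmax a ha⟩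
    have h2 := h (u a₀)
    rw [Nat.card_eq_fintype_card, Nat.card_eq_fintype_card, Fintype.card_subtype,
      Fintype.card_subtype] at h2
    refine (Finset.card_le_card h1).trans (h2.trans (Finset.card_le_card ?_))
    exact Finset.subset_biUnion_of_mem (fun a => Finset.univ.filter fun b => v b ≤ u a) ha₀
  obtain ⟨f, hf, hf2⟩ := (Finset.all_card_le_biUnion_card_iff_exists_injective _).1 hall
  have hbij : Function.Bijective f := Finite.injective_iff_bijective.1 hf
  calc ∑ a, v a = ∑ a, v (f a) := (Function.Bijective.sum_comp hbij v).symm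
    _ ≤ ∑ a, u a := Finset.sum_le_sum fun a _ => (Finset.mem_filter.1 (hf2 a)).2

/-- **The sum of the weights of a stable family against a basis.** -/
theorem stable_ineq (m : ι → Fin e → K) (hm0 : ∀ i, m i ≠ 0)
    (hM : ∃ b : Fin e → ι, (sk m b).det ≠ 0) (hs : Stab m) (r : ι → ℝ) :
    ∃ b : Fin e → ι, (sk m b).det ≠ 0 ∧ ∀ k k' : Fin e,
      Fintype.card ι * ∑ j, r (b j) + (r (b k) - r (b k')) ≤ e * ∑ i, r i := by
  classical
  obtain ⟨b, hb, hmin⟩ := exists_minK m hM r
  refine ⟨b, hb, fun k k' => ?_⟩
  -- reduce to the largest and the smallest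
  obtain ⟨k₁, -, hk₁⟩ := Finset.exists_max_image Finset.univ (fun j => r (b j)) ⟨k, Finset.mem_univ _⟩
  obtain ⟨k₂, -, hk₂⟩ := Finset.exists_min_image Finset.univ (fun j => r (b j)) ⟨k, Finset.mem_univ _⟩
  have key : Fintype.card ι * ∑ j, r (b j) + (r (b k₁) - r (b k₂)) ≤ e * ∑ i, r i := by
    let u : ι × Fin e → ℝ := fun q => r q.1
    let v : ι × Fin e → ℝ := fun q => if q = (b k₂, k₂) then r (b k₁) else r (b q.2)
    have hu : ∑ q, u q = e * ∑ i, r i := by
      rw [Fintype.sum_prod_type, Finset.mul_sum]
      refine Finset.sum_congr rfl fun i _ => ?_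
      simp [u]
    have hv : ∑ q, v q = Fintype.card ι * ∑ j, r (b j) + (r (b k₁) - r (b k₂)) := by
      have h1 : ∀ q : ι × Fin e, v q = r (b q.2) +
          if q = (b k₂, k₂) then (r (b k₁) - r (b k₂)) else 0 := by
        intro q
        by_cases hq : q = (b k₂, k₂)
        · simp only [v, if_pos hq]
          rw [hq]
          ring
        · simp only [v, if_neg hq, add_zero]
      rw [Finset.sum_congr rfl fun q _ => h1 q, Finset.sum_add_distrib, Finset.sum_ite_eq',
        if_pos (Finset.mem_univ _), Fintype.sum_prod_type]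
      simp
    rw [← hu, ← hv]
    apply sum_le_of_counts
    intro t
    set κ : Finset (Fin e) := Finset.univ.filter fun k => r (b k) ≤ t with hκ
    have hcu : Nat.card {q : ι × Fin e // u q ≤ t} = e * Nat.card {i : ι // r i ≤ t} := by
      rw [Nat.card_eq_fintype_card, Nat.card_eq_fintype_card, Fintype.card_subtype,
        Fintype.card_subtype]
      have : (Finset.univ.filter fun q : ι × Fin e => u q ≤ t) =
          (Finset.univ.filter fun i : ι => r i ≤ t) ×ˢ (Finset.univ : Finset (Fin e)) := by
        ext q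
        simp [u]
      rw [this, Finset.card_product, Finset.card_univ, Fintype.card_fin, mul_comm]
    have hsub : ∀ i, r i ≤ t → m i ∈ spn m b κ := fun i hi => mem_spn_of_min hb hmin hi
    rw [hcu]
    rcases κ.eq_empty_or_nonempty with he | hne
    · have h0 : Nat.card {i : ι // r i ≤ t} = 0 := by
        rw [Nat.card_eq_zero]
        left
        refine ⟨fun i => hm0 i.1 ?_⟩
        have h1 := hsub i.1 i.2
        rw [he, spn] at h1
        simpa using h1
      rw [h0, mul_zero]
      exact Nat.zero_le _
    rw [Nat.card_eq_fintype_card (α := {q : ι × Fin e // v q ≤ t}), Fintype.card_subtype]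
    by_cases hun : κ = Finset.univ
    · have hall : (Finset.univ.filter fun q : ι × Fin e => v q ≤ t) = Finset.univ := by
        ext q
        simp only [Finset.mem_filter, Finset.mem_univ, true_and, iff_true]
        have h1 : ∀ j, r (b j) ≤ t := fun j => by
          have : j ∈ κ := by rw [hun]; exact Finset.mem_univ _
          exact (Finset.mem_filter.1 this).2
        by_cases hq : q = (b k₂, k₂)
        · simp only [v, if_pos hq]
          exact h1 _
        · simp only [v, if_neg hq]
          exact h1 _
      rw [hall, Finset.card_univ, Fintype.card_prod, Fintype.card_fin, mul_comm]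
      refine Nat.mul_le_mul_right _ ?_
      rw [Nat.card_eq_fintype_card]
      exact Fintype.card_subtype_le _
    · have h1 := hs b hb κ hne hun
      have h2 : Nat.card {i : ι // r i ≤ t} ≤ Nat.card {i : ι // m i ∈ spn m b κ} := by
        refine Nat.card_le_card_of_injective
          (fun i : {i : ι // r i ≤ t} => (⟨i.1, hsub i.1 i.2⟩ : {i : ι // m i ∈ spn m b κ})) ?_
        intro i j hij
        exact Subtype.ext (by simpa using hij)
      have h3 : ((Finset.univ : Finset ι) ×ˢ κ).erase (b k₂, k₂) ⊆
          Finset.univ.filter fun q : ι × Fin e => v q ≤ t := by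
        intro q hq
        rw [Finset.mem_erase, Finset.mem_product] at hq
        rw [Finset.mem_filter]
        refine ⟨Finset.mem_univ _, ?_⟩
        simp only [v, if_neg hq.1]
        exact (Finset.mem_filter.1 hq.2.2).2
      have h4 := Finset.card_le_card h3
      have h5 : Fintype.card ι * κ.card ≤ (((Finset.univ : Finset ι) ×ˢ κ).erase (b k₂, k₂)).card + 1 := by
        have := Finset.pred_card_le_card_erase (s := (Finset.univ : Finset ι) ×ˢ κ)
          (a := (b k₂, k₂))
        rw [Finset.card_product, Finset.card_univ] at this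
        omega
      have h6 := Nat.mul_le_mul_left e h2
      omega
  have h1 := hk₁ k (Finset.mem_univ _)
  have h2 := hk₂ k' (Finset.mem_univ _)
  linarith

end Pool.Agent.KS6_27.NV
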