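import Mathlib
import Pool.Graph.R_seed8.R405.SchV
import Pool.Agent.KS6_27.NV1

/-! # Stable families of linear forms: growth of the product over finitely many places -/

set_option autoImplicit false
set_option linter.unusedSectionVars false

open Finset Matrix NumberField IsDedekindDomain Height Module

namespace Pool.Agent.KS6_27.NV

open Pool.Agent.W180.OP (Pl av wt nrm le_nrm nrm_pos nrm_nonneg exists_nrm wt_nonneg)
open Pool.Agent.R405 (exv exv_ne dot schV Good exists_good descend)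

/-- the norm of a vector is bounded by the values of a basis of forms -/
theorem basis_bound {M : Type} [Field M] (f : AbsoluteValue M ℝ) {e : ℕ}
    (A : Matrix (Fin e) (Fin e) M) (hA : A.det ≠ 0) :
    ∃ κ : ℝ, 1 ≤ κ ∧ ∀ (x : Fin e → M) (t : ℝ), 0 ≤ t →
      (∀ a, f (dot (A a) x) ≤ t) → nrm f x ≤ κ * t := by
  classical
  have hu : IsUnit A.det := IsUnit.mk0 _ hA
  have hB : A⁻¹ * A = 1 := Matrix.nonsing_inv_mul _ hu
  have h0 : 0 ≤ ∑ i, ∑ j, f (A⁻¹ i j) :=
    Finset.sum_nonneg fun _ _ => Finset.sum_nonneg fun _ _ => f.nonneg _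
  refine ⟨1 + ∑ i, ∑ j, f (A⁻¹ i j), by linarith, fun x t ht h => ?_⟩
  refine Pool.Agent.W180.OP.nrm_le (by positivity) fun i => ?_
  have h1 : x i = ∑ a, A⁻¹ i a * dot (A a) x := by
    have h2 : (A⁻¹ * A).mulVec x i = x i := by rw [hB, Matrix.one_mulVec]
    rw [← h2, ← Matrix.mulVec_mulVec]
    rfl
  rw [h1]
  have h3 : f (∑ a, A⁻¹ i a * dot (A a) x) ≤ ∑ a, f (A⁻¹ i a) * t := by
    refine (f.sum_le _ _).trans (Finset.sum_le_sum fun a _ => ?_)
    rw [map_mul]
    exact mul_le_mul_of_nonneg_left (h a) (f.nonneg _)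
  refine h3.trans ?_
  rw [← Finset.sum_mul]
  refine mul_le_mul_of_nonneg_right ?_ ht
  have h4 := Finset.single_le_sum (f := fun i => ∑ j, f (A⁻¹ i j))
    (fun i _ => Finset.sum_nonneg fun _ _ => f.nonneg _) (Finset.mem_univ i)
  linarith

/-- **Growth of the product of a stable family of forms over finitely many places.** -/
theorem stable_growth {e : ℕ} (he : 1 ≤ e) {M : Type} [Field M] [NumberField M] [IsGalois ℚ M]
    (hi : ∃ z : M, z ^ 2 = -1) {ι : Type} [Fintype ι] [DecidableEq ι] (m : ι → Fin e → M)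
    (hm0 : ∀ i, m i ≠ 0) (hM : ∃ b : Fin e → ι, (sk m b).det ≠ 0) (hs : Stab m) :
    ∃ Z : Finset (Fin e → ℚ), (∀ z ∈ Z, z ≠ 0) ∧ ∀ (S : Finset (Pl ℚ))
      (f : Pl ℚ → AbsoluteValue M ℝ), (∀ v ∈ S, Good v (f v)) →
      ∃ C : ℝ, ∀ x : Fin e → ℚ, x ≠ 0 → (∀ z ∈ Z, ∑ j, z j * x j ≠ 0) →
        (∀ i, dot (m i) (exv M x) ≠ 0) →
        logHeight x ≤ ∑ v ∈ S, wt v * Real.log (nrm (av v) x) →
        logHeight x / (4 * e) - C ≤
          ∑ v ∈ S, wt v * ∑ i, Real.log (f v (dot (m i) (exv M x))) := by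
  classical
  obtain ⟨Z, hZ0, hsch⟩ := schV (k := ℚ) hi he m
  refine ⟨Z, hZ0, fun S f hf => ?_⟩
  obtain ⟨b₀, hb₀⟩ := hM
  have hne : Nonempty (Fin e) := ⟨⟨0, he⟩⟩
  have hNe : Nonempty ι := ⟨b₀ ⟨0, he⟩⟩
  set N : ℕ := Fintype.card ι with hN
  have hN1 : 1 ≤ N := Fintype.card_pos
  have hN1' : (1 : ℝ) ≤ N := by exact_mod_cast hN1
  have he' : (1 : ℝ) ≤ e := by exact_mod_cast he
  obtain ⟨C0, hC0, hsch'⟩ := hsch S f hf (1 / (4 * N)) (by positivity)
  -- the constants of the bases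
  have hκ : ∀ (v : Pl ℚ) (b : Fin e → ι), ∃ κ : ℝ, 1 ≤ κ ∧ ((sk m b).det ≠ 0 →
      ∀ (x : Fin e → M) (t : ℝ), 0 ≤ t → (∀ a, f v (dot (m (b a)) x) ≤ t) →
        nrm (f v) x ≤ κ * t) := by
    intro v b
    by_cases hb : (sk m b).det = 0
    · exact ⟨1, le_refl _, fun h => absurd hb h⟩
    · obtain ⟨κ, h1, h2⟩ := basis_bound (f v) (sk m b) hb
      exact ⟨κ, h1, fun _ => h2⟩
  choose κ hκ1 hκ2 using hκ
  have hlogκ : ∀ v b, 0 ≤ Real.log (κ v b) := fun v b => Real.log_nonneg (hκ1 v b)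
  set C1 : ℝ := ∑ v ∈ S, wt v * ∑ b, Real.log (κ v b) with hC1
  have hC1' : 0 ≤ C1 := Finset.sum_nonneg fun v _ =>
    mul_nonneg (wt_nonneg v) (Finset.sum_nonneg fun b _ => hlogκ v b)
  refine ⟨N * (C0 + C1), fun x hx hZ hdot hh => ?_⟩
  have hb := fun v => stable_ineq m hm0 ⟨b₀, hb₀⟩ hs
    (fun i => Real.log (f v (dot (m i) (exv M x))))
  choose b hb1 hb2 using hb
  have hmx : ∀ v, ∃ k₁ k₂ : Fin e, ∀ k,
      Real.log (f v (dot (m (b v k)) (exv M x))) ≤ Real.log (f v (dot (m (b v k₁)) (exv M x))) ∧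
      Real.log (f v (dot (m (b v k₂)) (exv M x))) ≤ Real.log (f v (dot (m (b v k)) (exv M x))) := by
    intro v
    obtain ⟨k₁, -, h1⟩ := Finset.exists_max_image Finset.univ
      (fun k => Real.log (f v (dot (m (b v k)) (exv M x)))) Finset.univ_nonempty
    obtain ⟨k₂, -, h2⟩ := Finset.exists_min_image Finset.univ
      (fun k => Real.log (f v (dot (m (b v k)) (exv M x)))) Finset.univ_nonempty
    exact ⟨k₁, k₂, fun k => ⟨h1 k (Finset.mem_univ _), h2 k (Finset.mem_univ _)⟩⟩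
  choose k₁ k₂ hk using hmx
  set R : Pl ℚ → ι → ℝ := fun v i => Real.log (f v (dot (m i) (exv M x))) with hR
  have hfpos : ∀ v i, 0 < f v (dot (m i) (exv M x)) := fun v i => (f v).pos_iff.2 (hdot i)
  -- the largest value against the norm
  have hnorm : ∀ v ∈ S, Real.log (nrm (av v) x) ≤ R v (b v (k₁ v)) + ∑ b, Real.log (κ v b) := by
    intro v hv
    have h1 : nrm (f v) (exv M x) = nrm (av v) x := (hf v hv).nrm_ext x
    rw [← h1]
    have h2 := hκ2 v (b v) (hb1 v) (exv M x) (Real.exp (R v (b v (k₁ v)))) (Real.exp_pos _).le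
      (fun a => by
        rw [← Real.exp_log (hfpos v (b v a))]
        exact Real.exp_le_exp.2 (hk v a).1)
    have h3 : 0 < nrm (f v) (exv M x) := nrm_pos _ (exv_ne hx)
    have h4 := Real.log_le_log h3 h2
    rw [Real.log_mul (by linarith [hκ1 v (b v)]) (Real.exp_pos _).ne', Real.log_exp] at h4
    have h5 := Finset.single_le_sum (f := fun b => Real.log (κ v b)) (fun b _ => hlogκ v b)
      (Finset.mem_univ (b v))
    linarith
  set P : ℝ := ∑ v ∈ S, wt v * ∑ k, R v (b v k) with hP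
  set D : ℝ := ∑ v ∈ S, wt v * (R v (b v (k₁ v)) - R v (b v (k₂ v))) with hD
  set T : ℝ := ∑ v ∈ S, wt v * ∑ i, R v i with hT
  set Λ : ℝ := ∑ v ∈ S, wt v * Real.log (nrm (av v) x) with hΛ
  have hh0 : 0 ≤ logHeight x := logHeight_nonneg x
  have e1 : N * P + D ≤ e * T := by
    rw [hP, hD, hT, Finset.mul_sum, Finset.mul_sum, ← Finset.sum_add_distrib]
    refine Finset.sum_le_sum fun v _ => ?_
    have h1 := mul_le_mul_of_nonneg_left (hb2 v (k₁ v) (k₂ v)) (wt_nonneg v)
    calc (N : ℝ) * (wt v * ∑ k, R v (b v k)) + wt v * (R v (b v (k₁ v)) - R v (b v (k₂ v))) =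
        wt v * (N * ∑ k, R v (b v k) + (R v (b v (k₁ v)) - R v (b v (k₂ v)))) := by ring
      _ ≤ _ := h1
      _ = _ := by ring
  have e2 : -(1 / (4 * N) * logHeight x) - C0 ≤ P := by
    have h1 := hsch' x hx hZ hdot b (fun v _ => hb1 v)
    have h2 : ∑ v ∈ S, wt v * ∑ a, (Real.log (nrm (av v) x) -
        Real.log (f v (dot (m (b v a)) (exv M x)))) = e * Λ - P := by
      rw [hΛ, hP, Finset.mul_sum, ← Finset.sum_sub_distrib]
      refine Finset.sum_congr rfl fun v _ => ?_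
      rw [Finset.sum_sub_distrib, Finset.sum_const, Finset.card_univ, Fintype.card_fin,
        nsmul_eq_mul]
      ring
    rw [h2] at h1
    have h3 : (e : ℝ) * logHeight x ≤ e * Λ := mul_le_mul_of_nonneg_left hh (by linarith)
    linarith
  have e3 : e * (logHeight x - C1 - D) ≤ P := by
    have h1 : e * (Λ - C1 - D) ≤ P := by
      have h2 : e * (Λ - C1 - D) = ∑ v ∈ S, wt v * (e * (Real.log (nrm (av v) x) -
          ∑ b, Real.log (κ v b) - (R v (b v (k₁ v)) - R v (b v (k₂ v))))) := by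
        rw [hΛ, hC1, hD, ← Finset.sum_sub_distrib, ← Finset.sum_sub_distrib, Finset.mul_sum]
        refine Finset.sum_congr rfl fun v _ => ?_
        ring
      rw [h2, hP]
      refine Finset.sum_le_sum fun v hv => mul_le_mul_of_nonneg_left ?_ (wt_nonneg v)
      have h3 : (e : ℝ) * R v (b v (k₂ v)) ≤ ∑ k, R v (b v k) := by
        have := Finset.card_nsmul_le_sum (Finset.univ : Finset (Fin e)) (fun k => R v (b v k))
          (R v (b v (k₂ v))) (fun k _ => (hk v k).2)
        rwa [Finset.card_univ, Fintype.card_fin, nsmul_eq_mul] at this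
      refine le_trans (mul_le_mul_of_nonneg_left ?_ (by linarith)) h3
      have := hnorm v hv
      linarith
    refine le_trans (mul_le_mul_of_nonneg_left ?_ (by linarith)) h1
    linarith
  have hNpos : (0 : ℝ) < N := by linarith
  have hepos : (0 : ℝ) < e := by linarith
  rw [← mul_le_mul_iff_right₀ hepos]
  have hl : (e : ℝ) * (logHeight x / (4 * e) - N * (C0 + C1)) =
      logHeight x / 4 - e * (N * (C0 + C1)) := by
    field_simp
  rw [hl]
  have hNC0 : (N : ℝ) * C0 ≤ e * (N * (C0 + C1)) := by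
    have h1 : (N : ℝ) * C0 ≤ N * (C0 + C1) := mul_le_mul_of_nonneg_left (by linarith) hNpos.le
    have h2 : (N : ℝ) * (C0 + C1) ≤ e * (N * (C0 + C1)) :=
      le_mul_of_one_le_left (by positivity) he'
    linarith
  have hNC1 : (N : ℝ) * (e * C1) ≤ e * (N * (C0 + C1)) := by
    have h1 : (N : ℝ) * (e * C1) = e * (N * C1) := by ring
    rw [h1]
    exact mul_le_mul_of_nonneg_left (mul_le_mul_of_nonneg_left (by linarith) hNpos.le) hepos.le
  rcases le_or_gt (logHeight x / 2) D with hc | hc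
  · have h1 : N * (-(1 / (4 * N) * logHeight x) - C0) ≤ N * P :=
      mul_le_mul_of_nonneg_left e2 hNpos.le
    have h2 : (N : ℝ) * (-(1 / (4 * N) * logHeight x) - C0) = -(logHeight x / 4) - N * C0 := by
      field_simp
    linarith
  · have h1 : N * (e * (logHeight x - C1 - D)) ≤ N * P := mul_le_mul_of_nonneg_left e3 hNpos.le
    have h2 : (N : ℝ) * (e * (logHeight x / 2 - C1)) ≤ N * (e * (logHeight x - C1 - D)) :=
      mul_le_mul_of_nonneg_left (mul_le_mul_of_nonneg_left (by linarith) hepos.le) hNpos.le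
    have h3 : (N : ℝ) * (e * (logHeight x / 2 - C1)) =
        N * e * (logHeight x / 2) - N * (e * C1) := by ring
    have h4 : logHeight x / 2 ≤ N * e * (logHeight x / 2) := by
      refine le_mul_of_one_le_left (by linarith) ?_
      calc (1 : ℝ) = 1 * 1 := by ring
        _ ≤ N * e := mul_le_mul hN1' he' (by norm_num) hNpos.le
    have h5 : 0 ≤ D := Finset.sum_nonneg fun v _ => mul_nonneg (wt_nonneg v)
      (by linarith [(hk v (k₂ v)).1])
    linarith

end Pool.Agent.KS6_27.NV
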