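import Mathlib
import Pool.Agent.KS6_27.NV2

/-! # Families of forms which are stable on all rational subspaces: growth at all integer points -/

set_option autoImplicit false
set_option linter.unusedSectionVars false

open Finset Matrix NumberField IsDedekindDomain Height Module

namespace Pool.Agent.KS6_27.NV

open Pool.Agent.W180.OP (Pl av wt nrm le_nrm nrm_pos nrm_nonneg exists_nrm wt_nonneg)
open Pool.Agent.R405 (exv exv_ne dot schV Good exists_good descend)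

/-- an integral basis of the integer points of a rational hyperplane -/
theorem ker_basis {e : ℕ} (m : Fin e → ℚ) (hm : m ≠ 0) :
    ∃ e' < e, ∃ Q : Matrix (Fin e) (Fin e') ℤ, (∀ z, Q.mulVec z = 0 → z = 0) ∧
      ∀ z : Fin e → ℤ, ∑ j, m j * (z j : ℚ) = 0 → ∃ z', z = Q.mulVec z' := by
  classical
  let L : (Fin e → ℤ) →ₗ[ℤ] ℚ :=
    { toFun := fun z => ∑ j, m j * (z j : ℚ)
      map_add' := fun x y => by
        rw [← Finset.sum_add_distrib]
        refine Finset.sum_congr rfl fun j _ => ?_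
        rw [Pi.add_apply]
        push_cast
        ring
      map_smul' := fun c x => by
        rw [Finset.smul_sum]
        refine Finset.sum_congr rfl fun j _ => ?_
        simp only [Pi.smul_apply, smul_eq_mul, RingHom.id_apply, zsmul_eq_mul]
        push_cast
        ring }
  have hL : ∀ z, L z = ∑ j, m j * (z j : ℚ) := fun z => rfl
  obtain ⟨j₀, hj₀⟩ := Function.ne_iff.1 hm
  obtain ⟨n, ⟨b⟩⟩ := Submodule.nonempty_basis_of_pid (Pi.basisFun ℤ (Fin e)) (LinearMap.ker L)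
  have hli : LinearIndependent ℤ (fun k => ((b k : LinearMap.ker L) : Fin e → ℤ)) :=
    b.linearIndependent.map' (LinearMap.ker L).subtype (Submodule.ker_subtype _)
  have hmemspan : ∀ y ∈ Submodule.span ℤ (Set.range fun k => ((b k : LinearMap.ker L) : Fin e → ℤ)),
      L y = 0 := by
    intro y hy
    have h1 : Submodule.span ℤ (Set.range fun k => ((b k : LinearMap.ker L) : Fin e → ℤ)) ≤
        LinearMap.ker L := by
      rw [Submodule.span_le]
      rintro _ ⟨k, rfl⟩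
      exact (b k).2
    exact LinearMap.mem_ker.1 (h1 hy)
  have hcons : LinearIndependent ℤ (Fin.cons (Pi.single j₀ 1 : Fin e → ℤ)
      (fun k => ((b k : LinearMap.ker L) : Fin e → ℤ)) : Fin (n + 1) → Fin e → ℤ) := by
    refine LinearIndependent.finCons' _ _ hli ?_
    intro c y hy h
    have h1 := congrArg L h
    rw [map_add, map_smul, hmemspan _ hy, map_zero, add_zero, hL, Finset.sum_eq_single j₀] at h1
    · rw [Pi.single_eq_same, Int.cast_one, mul_one, zsmul_eq_mul] at h1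
      rcases mul_eq_zero.1 h1 with h2 | h2
      · exact_mod_cast h2
      · exact absurd h2 hj₀
    · intro j _ hj
      rw [Pi.single_eq_of_ne hj, Int.cast_zero, mul_zero]
    · intro h; exact absurd (Finset.mem_univ _) h
  have hcard := hcons.fintype_card_le_finrank
  rw [Fintype.card_fin, Module.finrank_fin_fun] at hcard
  refine ⟨n, hcard, Matrix.of fun j k => ((b k : LinearMap.ker L) : Fin e → ℤ) j, ?_, ?_⟩
  · intro z hz
    have h1 : ∑ k, z k • ((b k : LinearMap.ker L) : Fin e → ℤ) = 0 := by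
      funext j
      have := congrFun hz j
      rw [Matrix.mulVec, dotProduct] at this
      rw [Finset.sum_apply]
      simp only [Matrix.of_apply, Pi.zero_apply] at this
      rw [Pi.zero_apply, ← this]
      refine Finset.sum_congr rfl fun k _ => ?_
      rw [Pi.smul_apply, smul_eq_mul, mul_comm]
    funext k
    exact Fintype.linearIndependent_iff.1 hli z h1 k
  · intro z hz
    have hz' : z ∈ LinearMap.ker L := LinearMap.mem_ker.2 hz
    refine ⟨fun k => b.repr ⟨z, hz'⟩ k, ?_⟩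
    have h1 := b.sum_repr ⟨z, hz'⟩
    have h2 := congrArg (Subtype.val) h1
    rw [AddSubmonoidClass.coe_finsetSum] at h2
    simp only [SetLike.val_smul] at h2
    refine h2.symm.trans ?_
    funext j
    rw [Matrix.mulVec, dotProduct, Finset.sum_apply]
    refine Finset.sum_congr rfl fun k _ => ?_
    rw [Pi.smul_apply, smul_eq_mul, Matrix.of_apply, mul_comm]

/-- the rational vector of an integer vector -/
def qv {n : ℕ} (x : Fin n → ℤ) : Fin n → ℚ := (Int.cast : ℤ → ℚ) ∘ x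

lemma qv_ne {n : ℕ} {x : Fin n → ℤ} (hx : x ≠ 0) : qv x ≠ 0 := by
  intro h
  apply hx
  funext j
  have := congrFun h j
  simpa [qv] using this

lemma prim_ne {n : ℕ} {x : Fin n → ℤ} (hx : Finset.univ.gcd x = 1) : x ≠ 0 := by
  rintro rfl
  have h : (Finset.univ : Finset (Fin n)).gcd (0 : Fin n → ℤ) = 0 :=
    Finset.gcd_eq_zero_iff.2 fun _ _ => rfl
  rw [h] at hx
  exact zero_ne_one hx

lemma logHeight_prim {n : ℕ} {x : Fin n → ℤ} (hx : Finset.univ.gcd x = 1) :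
    logHeight (qv x) = Real.log (((⨆ i, |x i| : ℤ)) : ℝ) := by
  have hne : Nonempty (Fin n) := by
    obtain ⟨j, -⟩ := Function.ne_iff.1 (prim_ne hx)
    exact ⟨j⟩
  exact Rat.logHeight_eq_max_abs_of_gcd_eq_one hx

lemma nrm_inl {n : ℕ} (hn : 0 < n) (w : InfinitePlace ℚ) (x : Fin n → ℤ) :
    nrm (av (Sum.inl w : Pl ℚ)) (qv x) = ((⨆ i, |x i| : ℤ) : ℝ) := by
  have hne : Nonempty (Fin n) := ⟨⟨0, hn⟩⟩
  have h1 : ∀ i, av (Sum.inl w : Pl ℚ) (qv x i) = ((|x i| : ℤ) : ℝ) := by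
    intro i
    change w (qv x i) = _
    rw [Rat.infinitePlace_apply]
    simp [qv]
  unfold nrm
  rw [Finite.map_iSup_of_monotone _ Int.cast_mono]
  exact iSup_congr fun i => h1 i

lemma nrm_inr {n : ℕ} {x : Fin n → ℤ} (hx : Finset.univ.gcd x = 1)
    (v : HeightOneSpectrum (𝓞 ℚ)) : nrm (av (Sum.inr v : Pl ℚ)) (qv x) = 1 := by
  have hne : Nonempty (Fin n) := by
    obtain ⟨j, -⟩ := Function.ne_iff.1 (prim_ne hx)
    exact ⟨j⟩
  exact Rat.iSup_finitePlace_apply_eq_one_of_gcd_eq_one (FinitePlace.mk v) hx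

lemma wt_inl (w : InfinitePlace ℚ) : wt (Sum.inl w : Pl ℚ) = 1 := by
  have h1 : w = Rat.infinitePlace := Subsingleton.elim _ _
  have : w.IsReal := by
    rw [h1]
    exact Rat.isReal_infinitePlace
  change ((w.mult : ℕ) : ℝ) = 1
  rw [InfinitePlace.mult, if_pos this, Nat.cast_one]

/-- the heights of primitive points -/
lemma height_le_places {n : ℕ} {x : Fin n → ℤ} (hx : Finset.univ.gcd x = 1) (S : Finset (Pl ℚ))
    (w : InfinitePlace ℚ) (hw : (Sum.inl w : Pl ℚ) ∈ S) :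
    logHeight (qv x) ≤ ∑ v ∈ S, wt v * Real.log (nrm (av v) (qv x)) := by
  classical
  have hn : 0 < n := by
    obtain ⟨j, -⟩ := Function.ne_iff.1 (prim_ne hx)
    exact j.pos
  have h0 : ∀ v ∈ S, 0 ≤ wt v * Real.log (nrm (av v) (qv x)) := by
    intro v _
    refine mul_nonneg (wt_nonneg v) ?_
    rcases v with v | v
    · rw [nrm_inl hn]
      have h1 := logHeight_nonneg (qv x)
      rwa [logHeight_prim hx] at h1
    · rw [nrm_inr hx, Real.log_one]
  have h1 := Finset.single_le_sum h0 hw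
  rw [wt_inl, one_mul, nrm_inl hn, ← logHeight_prim hx] at h1
  exact h1

variable {M : Type} [Field M] [NumberField M] {ι : Type} [Fintype ι] [DecidableEq ι] {d : ℕ}

/-- the forms in the coordinates of a sublattice -/
def pb (A : ι → Fin d → M) {e : ℕ} (Q : Matrix (Fin d) (Fin e) ℤ) : ι → Fin e → M :=
  fun i k => ∑ j, A i j * (Q j k : M)

lemma dot_pb (A : ι → Fin d → M) {e : ℕ} (Q : Matrix (Fin d) (Fin e) ℤ) (i : ι)
    (z : Fin e → ℤ) : dot (pb A Q i) (exv M (qv z)) = dot (A i) (exv M (qv (Q.mulVec z))) := by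
  unfold dot pb exv qv
  simp only [Function.comp, map_intCast, Matrix.mulVec, dotProduct, Int.cast_sum, Int.cast_mul,
    Finset.sum_mul]
  rw [Finset.sum_comm]
  refine Finset.sum_congr rfl fun j _ => ?_
  rw [map_sum, Finset.mul_sum]
  refine Finset.sum_congr rfl fun k _ => ?_
  rw [map_mul, map_intCast, map_intCast]
  ring

/-- the sum over the places in `S` of the logarithms of the forms -/
noncomputable def TT (S : Finset (Pl ℚ)) (f : Pl ℚ → AbsoluteValue M ℝ) (A : ι → Fin d → M)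
    (x : Fin d → ℤ) : ℝ :=
  ∑ v ∈ S, wt v * ∑ i, Real.log (f v (dot (A i) (exv M (qv x))))

/-- growth on a set of integer points -/
def Gr (S : Finset (Pl ℚ)) (f : Pl ℚ → AbsoluteValue M ℝ) (A : ι → Fin d → M)
    (X : Set (Fin d → ℤ)) : Prop :=
  ∃ c C : ℝ, 0 < c ∧ ∀ x ∈ X, Finset.univ.gcd x = 1 →
    c * Real.log ((⨆ i, |x i| : ℤ) : ℝ) - C ≤ TT S f A x

lemma log_nonneg_prim {x : Fin d → ℤ} (hx : Finset.univ.gcd x = 1) :
    0 ≤ Real.log ((⨆ i, |x i| : ℤ) : ℝ) := by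
  rw [← logHeight_prim hx]
  exact logHeight_nonneg _

lemma Gr.union {S : Finset (Pl ℚ)} {f : Pl ℚ → AbsoluteValue M ℝ} {A : ι → Fin d → M}
    {X Y : Set (Fin d → ℤ)} (hX : Gr S f A X) (hY : Gr S f A Y) : Gr S f A (X ∪ Y) := by
  obtain ⟨c, C, hc, h⟩ := hX
  obtain ⟨c', C', hc', h'⟩ := hY
  refine ⟨min c c', max C C', lt_min hc hc', fun x hx hp => ?_⟩
  have h0 := log_nonneg_prim hp
  rcases hx with hx | hx
  · have h1 := h x hx hp
    have h2 := mul_le_mul_of_nonneg_right (min_le_left c c') h0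
    have h3 := le_max_left C C'
    linarith
  · have h1 := h' x hx hp
    have h2 := mul_le_mul_of_nonneg_right (min_le_right c c') h0
    have h3 := le_max_right C C'
    linarith

lemma Gr.mono {S : Finset (Pl ℚ)} {f : Pl ℚ → AbsoluteValue M ℝ} {A : ι → Fin d → M}
    {X Y : Set (Fin d → ℤ)} (hX : Gr S f A X) (hY : Y ⊆ X) : Gr S f A Y := by
  obtain ⟨c, C, hc, h⟩ := hX
  exact ⟨c, C, hc, fun x hx hp => h x (hY hx) hp⟩

lemma Gr.biUnion {S : Finset (Pl ℚ)} {f : Pl ℚ → AbsoluteValue M ℝ} {A : ι → Fin d → M}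
    {α : Type} (s : Finset α) (X : α → Set (Fin d → ℤ)) (h : ∀ a ∈ s, Gr S f A (X a)) :
    Gr S f A (⋃ a ∈ s, X a) := by
  classical
  induction s using Finset.induction_on with
  | empty =>
    refine ⟨1, 0, one_pos, fun x hx => ?_⟩
    simp at hx
  | insert a s ha ih =>
    rw [Finset.set_biUnion_insert]
    exact (h a (Finset.mem_insert_self _ _)).union
      (ih fun b hb => h b (Finset.mem_insert_of_mem hb))

lemma iSup_abs_mulVec_le {e : ℕ} (Q : Matrix (Fin d) (Fin e) ℤ) : ∃ C : ℝ, 1 ≤ C ∧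
    ∀ z : Fin e → ℤ, 0 < e → 0 < d → ((⨆ i, |Q.mulVec z i| : ℤ) : ℝ) ≤
      C * ((⨆ i, |z i| : ℤ) : ℝ) := by
  refine ⟨1 + ∑ i, ∑ j, |(Q i j : ℝ)|, ?_, fun z he hd => ?_⟩
  · have : 0 ≤ ∑ i, ∑ j, |(Q i j : ℝ)| :=
      Finset.sum_nonneg fun _ _ => Finset.sum_nonneg fun _ _ => abs_nonneg _
    linarith
  have hne : Nonempty (Fin d) := ⟨⟨0, hd⟩⟩
  have hne' : Nonempty (Fin e) := ⟨⟨0, he⟩⟩
  obtain ⟨i, hi⟩ := exists_eq_ciSup_of_finite (f := fun i => |Q.mulVec z i|)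
  rw [← hi]
  have hz : ∀ j, |(z j : ℝ)| ≤ ((⨆ i, |z i| : ℤ) : ℝ) := by
    intro j
    have := le_ciSup (f := fun i => |z i|) (Set.finite_range _).bddAbove j
    have h2 : ((|z j| : ℤ) : ℝ) ≤ ((⨆ i, |z i| : ℤ) : ℝ) := by exact_mod_cast this
    rwa [Int.cast_abs] at h2
  have hz0 : 0 ≤ ((⨆ i, |z i| : ℤ) : ℝ) := (abs_nonneg _).trans (hz ⟨0, he⟩)
  have h1 : ((|Q.mulVec z i| : ℤ) : ℝ) ≤ ∑ j, |(Q i j : ℝ)| * ((⨆ i, |z i| : ℤ) : ℝ) := by
    rw [Int.cast_abs, Matrix.mulVec, dotProduct, Int.cast_sum]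
    refine (Finset.abs_sum_le_sum_abs _ _).trans (Finset.sum_le_sum fun j _ => ?_)
    rw [Int.cast_mul, abs_mul]
    exact mul_le_mul_of_nonneg_left (hz j) (abs_nonneg _)
  refine h1.trans ?_
  rw [← Finset.sum_mul]
  refine mul_le_mul_of_nonneg_right ?_ hz0
  have h4 := Finset.single_le_sum (f := fun i => ∑ j, |(Q i j : ℝ)|)
    (fun i _ => Finset.sum_nonneg fun _ _ => abs_nonneg _) (Finset.mem_univ i)
  linarith

lemma prim_of_mulVec {e : ℕ} {Q : Matrix (Fin d) (Fin e) ℤ} {z : Fin e → ℤ}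
    (h : Finset.univ.gcd (Q.mulVec z) = 1) : Finset.univ.gcd z = 1 := by
  have h1 : Finset.univ.gcd z ∣ Finset.univ.gcd (Q.mulVec z) := by
    refine Finset.dvd_gcd fun i _ => ?_
    rw [Matrix.mulVec, dotProduct]
    exact Finset.dvd_sum fun j hj => Dvd.dvd.mul_left (Finset.gcd_dvd hj) _
  rw [h] at h1
  have h2 : IsUnit (Finset.univ.gcd z) := isUnit_of_dvd_one h1
  have h3 := Finset.normalize_gcd (s := Finset.univ) (f := z)
  rw [← h3]
  exact normalize_eq_one.2 h2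

/-- the forms are stable in the coordinates of the sublattice -/
def StQ (A : ι → Fin d → M) {e : ℕ} (Q : Matrix (Fin d) (Fin e) ℤ) : Prop :=
  (∀ i, pb A Q i ≠ 0) ∧ (∃ b, (sk (pb A Q) b).det ≠ 0) ∧ Stab (pb A Q)

/-- one step of the induction -/
theorem gr_step [IsGalois ℚ M] (hi : ∃ z : M, z ^ 2 = -1) (A : ι → Fin d → M)
    (hA : ∀ x : Fin d → ℤ, x ≠ 0 → ∀ i, dot (A i) (exv M (qv x)) ≠ 0)
    (S : Finset (Pl ℚ)) (f : Pl ℚ → AbsoluteValue M ℝ) (hf : ∀ v ∈ S, Good v (f v))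
    (w : InfinitePlace ℚ) (hw : (Sum.inl w : Pl ℚ) ∈ S) {e : ℕ} (he : 1 ≤ e) (hed : e ≤ d)
    (Q : Matrix (Fin d) (Fin e) ℤ) (hQ : ∀ z, Q.mulVec z = 0 → z = 0) (hst : StQ A Q)
    (ih : ∀ e' < e, ∀ Q' : Matrix (Fin d) (Fin e') ℤ, (∀ z, Q'.mulVec z = 0 → z = 0) →
      Gr S f A (Set.range Q'.mulVec)) : Gr S f A (Set.range Q.mulVec) := by
  classical
  have hd : 0 < d := by omega
  obtain ⟨Z, hZ0, hZ⟩ := stable_growth he hi (pb A Q) hst.1 hst.2.1 hst.2.2
  obtain ⟨C, hC⟩ := hZ S f hf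
  have hker : ∀ m : Fin e → ℚ, ∃ X : Set (Fin d → ℤ), m ≠ 0 → (Gr S f A X ∧
      ∀ z : Fin e → ℤ, ∑ j, m j * (z j : ℚ) = 0 → Q.mulVec z ∈ X) := by
    intro m
    by_cases hm : m = 0
    · exact ⟨∅, fun h => absurd hm h⟩
    · obtain ⟨e', he', Q', hQ', hz⟩ := ker_basis m hm
      refine ⟨Set.range (Q * Q').mulVec, fun _ => ⟨ih e' he' (Q * Q') fun z hz0 => ?_, ?_⟩⟩
      · rw [← Matrix.mulVec_mulVec] at hz0
        exact hQ' z (hQ _ hz0)
      · intro z hz1
        obtain ⟨z', rfl⟩ := hz z hz1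
        exact ⟨z', by rw [Matrix.mulVec_mulVec]⟩
  choose X hX using hker
  have h1 : Gr S f A (⋃ m ∈ Z, X m) := Gr.biUnion Z X fun m hm => (hX m (hZ0 m hm)).1
  obtain ⟨C1, hC1, hQC⟩ := iSup_abs_mulVec_le Q
  have h2 : Gr S f A {x | ∃ z : Fin e → ℤ, x = Q.mulVec z ∧
      ∀ m ∈ Z, ∑ j, m j * (z j : ℚ) ≠ 0} := by
    refine ⟨1 / (4 * e), 1 / (4 * e) * Real.log C1 + C, by positivity, ?_⟩
    rintro x ⟨z, rfl, hz⟩ hp
    have hzp : Finset.univ.gcd z = 1 := prim_of_mulVec hp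
    have hz0 : z ≠ 0 := prim_ne hzp
    have h3 := hC (qv z) (qv_ne hz0) hz (fun i => by
      rw [dot_pb]
      exact hA _ (prim_ne hp) i) (height_le_places hzp S w hw)
    have h4 : ∑ v ∈ S, wt v * ∑ i, Real.log (f v (dot (pb A Q i) (exv M (qv z)))) =
        TT S f A (Q.mulVec z) := by
      unfold TT
      refine Finset.sum_congr rfl fun v _ => ?_
      simp only [dot_pb]
    rw [h4, logHeight_prim hzp] at h3
    have h5 := hQC z he hd
    have h6 : (0 : ℝ) < ((⨆ i, |Q.mulVec z i| : ℤ) : ℝ) := by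
      have hne : Nonempty (Fin d) := ⟨⟨0, hd⟩⟩
      obtain ⟨j, hj⟩ := Function.ne_iff.1 (prim_ne hp)
      have h7 := le_ciSup (f := fun i => |Q.mulVec z i|) (Set.finite_range _).bddAbove j
      have h8 : 0 < |Q.mulVec z j| := abs_pos.2 hj
      exact_mod_cast lt_of_lt_of_le h8 h7
    have h9 : (0 : ℝ) < ((⨆ i, |z i| : ℤ) : ℝ) := by
      by_contra hcon
      have : C1 * ((⨆ i, |z i| : ℤ) : ℝ) ≤ 0 :=
        mul_nonpos_of_nonneg_of_nonpos (by linarith) (not_lt.1 hcon)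
      linarith
    have h10 := Real.log_le_log h6 h5
    rw [Real.log_mul (by linarith) h9.ne'] at h10
    have h11 : (0 : ℝ) < 1 / (4 * e) := by positivity
    have h12 := mul_le_mul_of_nonneg_left h10 h11.le
    have h13 : Real.log ((⨆ i, |z i| : ℤ) : ℝ) / (4 * e) =
      1 / (4 * e) * Real.log ((⨆ i, |z i| : ℤ) : ℝ) := by ring
    rw [h13] at h3
    linarith
  refine (h2.union h1).mono ?_
  rintro x ⟨z, rfl⟩
  by_cases hz : ∀ m ∈ Z, ∑ j, m j * (z j : ℚ) ≠ 0
  · exact Or.inl ⟨z, rfl, hz⟩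
  · push Not at hz
    obtain ⟨m, hm, hz⟩ := hz
    refine Or.inr ?_
    rw [Set.mem_iUnion₂]
    exact ⟨m, hm, (hX m (hZ0 m hm)).2 z hz⟩

/-- **Growth at all primitive integer points.** -/
theorem gr_all [IsGalois ℚ M] (hi : ∃ z : M, z ^ 2 = -1) (A : ι → Fin d → M) (hd : 1 ≤ d)
    (hA : ∀ x : Fin d → ℤ, x ≠ 0 → ∀ i, dot (A i) (exv M (qv x)) ≠ 0)
    (hst : ∀ e, 1 ≤ e → e < d → ∀ Q : Matrix (Fin d) (Fin e) ℤ,
      (∀ z, Q.mulVec z = 0 → z = 0) → StQ A Q) (hst1 : StQ A (1 : Matrix (Fin d) (Fin d) ℤ))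
    (S : Finset (Pl ℚ)) (f : Pl ℚ → AbsoluteValue M ℝ) (hf : ∀ v ∈ S, Good v (f v))
    (w : InfinitePlace ℚ) (hw : (Sum.inl w : Pl ℚ) ∈ S) : Gr S f A Set.univ := by
  classical
  have key : ∀ e, e < d → ∀ Q : Matrix (Fin d) (Fin e) ℤ, (∀ z, Q.mulVec z = 0 → z = 0) →
      Gr S f A (Set.range Q.mulVec) := by
    intro e
    induction e using Nat.strong_induction_on with
    | _ e ih =>
      intro hed Q hQ
      rcases Nat.eq_zero_or_pos e with rfl | he
      · refine ⟨1, 0, one_pos, ?_⟩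
        rintro x ⟨z, rfl⟩ hp
        exfalso
        apply prim_ne hp
        have : z = 0 := Subsingleton.elim _ _
        rw [this, Matrix.mulVec_zero]
      · exact gr_step hi A hA S f hf w hw he hed.le Q hQ (hst e he hed Q hQ)
          fun e' he' Q' hQ' => ih e' he' (he'.trans hed) Q' hQ'
  have h1 := gr_step hi A hA S f hf w hw hd le_rfl (1 : Matrix (Fin d) (Fin d) ℤ)
    (fun z hz => by rwa [Matrix.one_mulVec] at hz) hst1 key
  refine h1.mono fun x _ => ⟨x, by rw [Matrix.one_mulVec]⟩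

end Pool.Agent.KS6_27.NV
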