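import Mathlib
import Pool.Agent.KS6_27.NV3
import Pool.Graph.R_pool_sql_team_seeded_620a6dc7.Results.MP_edeaa2_an.Semistability

/-! # Stability of the conjugates of the forms on proper rational subspaces -/

set_option autoImplicit false
set_option linter.unusedSectionVars false

open Finset Matrix NumberField IsDedekindDomain Height Module

namespace Pool.Agent.KS6_27.NV

open Pool.Agent.W180.OP (Pl av wt nrm le_nrm nrm_pos nrm_nonneg exists_nrm wt_nonneg)
open Pool.Agent.R405 (exv exv_ne dot schV Good exists_good descend)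
open Pool.Agent.Results.MP_edeaa2_an.Semistability (rk subspace_bound strict)

variable {d : ℕ}

/-- the semistability inequality, from a weak lower bound -/
theorem semi {g : Matrix (Fin d) (Fin d) ℝ} {κ ν : ℝ} (hκ : 0 ≤ κ) (hκd : κ * d < 1)
    (hν : 0 < ν) (hF : ∀ x : Fin d → ℤ, x ≠ 0 →
      ν ≤ |∏ i, ∑ j, g i j * (x j : ℝ)| * ‖(fun j => (x j : ℝ))‖ ^ κ)
    (W : Submodule ℚ (Fin d → ℚ)) (S : Finset (Fin d)) :
    Module.finrank ℚ W * S.card ≤ d * rk g S W := by
  by_contra hcon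
  rw [not_le] at hcon
  have h1 := subspace_bound g κ ν hκ hν hF W S
  have h2 : rk g S W ≤ d := by
    unfold rk
    refine (Submodule.finrank_le _).trans ?_
    rw [Module.finrank_fintype_fun_eq_card, Fintype.card_coe]
    have := Finset.card_le_univ S
    simpa using this
  have h3 : (d * rk g S W + 1 : ℝ) ≤ (Module.finrank ℚ W : ℝ) * S.card := by
    exact_mod_cast hcon
  have h4 : κ * (rk g S W : ℝ) ≤ κ * d :=
    mul_le_mul_of_nonneg_left (by exact_mod_cast h2) hκ
  have h5 : ((d : ℝ) + κ) * rk g S W = d * rk g S W + κ * rk g S W := by ring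
  rw [h5] at h1
  linarith

/-- the rational subspace of an integer matrix -/
noncomputable def ws {e : ℕ} (Q : Matrix (Fin d) (Fin e) ℤ) : Submodule ℚ (Fin d → ℚ) :=
  LinearMap.range (Matrix.mulVecLin (Q.map (Int.cast : ℤ → ℚ)))

lemma cols_li {e : ℕ} {Q : Matrix (Fin d) (Fin e) ℤ} (hQ : ∀ z, Q.mulVec z = 0 → z = 0) :
    LinearIndependent ℤ (fun k : Fin e => fun j => Q j k) := by
  rw [Fintype.linearIndependent_iff]
  intro z hz k
  have : Q.mulVec z = 0 := by
    funext j
    have h1 := congrFun hz j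
    rw [Finset.sum_apply] at h1
    rw [Matrix.mulVec, dotProduct, Pi.zero_apply]
    simp only [Pi.smul_apply, smul_eq_mul, Pi.zero_apply] at h1
    rw [← h1]
    exact Finset.sum_congr rfl fun k _ => mul_comm _ _
  exact congrFun (hQ z this) k

lemma inj_field {e : ℕ} {Q : Matrix (Fin d) (Fin e) ℤ} (hQ : ∀ z, Q.mulVec z = 0 → z = 0)
    (L : Type) [Field L] [CharZero L] (y : Fin e → L)
    (hy : ∀ j, ∑ k, (Q j k : L) * y k = 0) : y = 0 := by
  have h1 := (linearIndependent_algebraMap_comp_iff (R := ℤ) (S := L)).2 (cols_li hQ)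
  rw [Fintype.linearIndependent_iff] at h1
  funext k
  refine h1 y ?_ k
  funext j
  rw [Finset.sum_apply, Pi.zero_apply, ← hy j]
  refine Finset.sum_congr rfl fun k _ => ?_
  rw [Pi.smul_apply, smul_eq_mul, mul_comm]
  rfl

lemma finrank_ws {e : ℕ} {Q : Matrix (Fin d) (Fin e) ℤ} (hQ : ∀ z, Q.mulVec z = 0 → z = 0) :
    Module.finrank ℚ (ws Q) = e := by
  have hinj : Function.Injective (Matrix.mulVecLin (Q.map (Int.cast : ℤ → ℚ))) := by
    rw [← LinearMap.ker_eq_bot, LinearMap.ker_eq_bot']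
    intro y hy
    refine inj_field hQ ℚ y fun j => ?_
    have := congrFun hy j
    simpa [Matrix.mulVec, dotProduct] using this
  rw [ws, LinearMap.finrank_range_of_inj hinj]
  simp

/-- the rank on the subspace is at most the number of forms which generate the others -/
lemma rk_le_card {e : ℕ} {Q : Matrix (Fin d) (Fin e) ℤ} (g : Matrix (Fin d) (Fin d) ℝ)
    (I : Finset (Fin d)) {κ : Type} [Fintype κ] (α : κ → Fin d) (C : Fin d → κ → ℝ)
    (h : ∀ i ∈ I, ∀ k, ∑ j, g i j * (Q j k : ℝ) = ∑ t, C i t * ∑ j, g (α t) j * (Q j k : ℝ)) :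
    rk g I (ws Q) ≤ Fintype.card κ := by
  classical
  let Φ : (κ → ℝ) →ₗ[ℝ] (I → ℝ) :=
    Matrix.mulVecLin (Matrix.of fun (i : I) (t : κ) => C i t)
  have hle : Submodule.span ℝ {v : I → ℝ | ∃ w ∈ ws Q, ∀ i : I, v i =
      ∑ j : Fin d, g i j * ((w j : ℚ) : ℝ)} ≤ LinearMap.range Φ := by
    rw [Submodule.span_le]
    rintro v ⟨w, ⟨z, rfl⟩, hv⟩
    refine ⟨fun t => ∑ j, g (α t) j * (((Matrix.mulVecLin (Q.map (Int.cast : ℤ → ℚ)) z) j : ℚ) : ℝ),
      ?_⟩
    funext i
    rw [hv i]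
    have hexp : ∀ i' : Fin d, ∑ j : Fin d, g i' j *
        (((Matrix.mulVecLin (Q.map (Int.cast : ℤ → ℚ)) z) j : ℚ) : ℝ) =
        ∑ k, (z k : ℝ) * ∑ j, g i' j * (Q j k : ℝ) := by
      intro i'
      simp only [Matrix.mulVecLin_apply, Matrix.mulVec, dotProduct, Matrix.map_apply,
        Finset.mul_sum, Rat.cast_sum, Rat.cast_mul, Rat.cast_intCast]
      rw [Finset.sum_comm]
      refine Finset.sum_congr rfl fun k _ => Finset.sum_congr rfl fun j _ => ?_
      ring
    rw [hexp]
    simp only [hexp]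
    change ∑ t, C i t * ∑ k, (z k : ℝ) * ∑ j, g (α t) j * (Q j k : ℝ) = _
    simp only [h i i.2, Finset.mul_sum]
    rw [Finset.sum_comm]
    refine Finset.sum_congr rfl fun k _ => Finset.sum_congr rfl fun t _ =>
      Finset.sum_congr rfl fun j _ => ?_
    ring
  unfold rk
  refine (Submodule.finrank_mono hle).trans ?_
  refine (LinearMap.finrank_range_le Φ).trans ?_
  rw [Module.finrank_fintype_fun_eq_card]

variable {M : Type} [Field M] [NumberField M]

/-- the conjugates of the forms -/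
def AG (a : Matrix (Fin d) (Fin d) M) : Fin d × (M ≃ₐ[ℚ] M) → Fin d → M :=
  fun q j => q.2 (a q.1 j)

lemma pb_AG (a : Matrix (Fin d) (Fin d) M) {e : ℕ} (Q : Matrix (Fin d) (Fin e) ℤ)
    (q : Fin d × (M ≃ₐ[ℚ] M)) (k : Fin e) :
    pb (AG a) Q q k = q.2 (∑ j, a q.1 j * (Q j k : M)) := by
  rw [map_sum]
  refine Finset.sum_congr rfl fun j _ => ?_
  rw [map_mul, map_intCast]
  rfl

/-- the number of conjugates of the forms for one automorphism in a subspace -/
theorem count_le {g : Matrix (Fin d) (Fin d) ℝ} (φ : M →+* ℂ) (a : Matrix (Fin d) (Fin d) M)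
    (ha : ∀ i j, φ (a i j) = (g i j : ℂ)) {e : ℕ} (Q : Matrix (Fin d) (Fin e) ℤ)
    (σ : M ≃ₐ[ℚ] M) (U : Submodule M (Fin e → M)) (I : Finset (Fin d))
    (hI : ∀ i ∈ I, pb (AG a) Q (i, σ) ∈ U) : rk g I (ws Q) ≤ Module.finrank M U := by
  classical
  obtain ⟨κ, α, hα, hspan, hli⟩ := exists_linearIndependent' M
    (fun i : I => pb (AG a) Q ((i : Fin d), σ))
  have hfin : Finite κ := Finite.of_injective α hα
  have : Fintype κ := Fintype.ofFinite κ
  have hcard : Fintype.card κ ≤ Module.finrank M U := by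
    have h1 : LinearIndependent M (fun t : κ => (⟨pb (AG a) Q ((α t : Fin d), σ),
        hI _ (α t).2⟩ : U)) := by
      refine LinearIndependent.of_comp U.subtype ?_
      exact hli
    exact h1.fintype_card_le_finrank
  refine le_trans ?_ hcard
  have hC : ∀ i : Fin d, ∃ C : κ → M, i ∈ I → ∀ k, pb (AG a) Q (i, σ) k =
      ∑ t, C t * pb (AG a) Q ((α t : Fin d), σ) k := by
    intro i
    by_cases hi : i ∈ I
    · have h1 : pb (AG a) Q (i, σ) ∈ Submodule.span M
          (Set.range ((fun i : I => pb (AG a) Q ((i : Fin d), σ)) ∘ α)) := by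
        rw [hspan]
        exact Submodule.subset_span ⟨⟨i, hi⟩, rfl⟩
      obtain ⟨C, hC⟩ := (Submodule.mem_span_range_iff_exists_fun M).1 h1
      refine ⟨C, fun _ k => ?_⟩
      rw [← hC, Finset.sum_apply]
      rfl
    · exact ⟨0, fun h => absurd h hi⟩
  choose C hC using hC
  refine rk_le_card g I (fun t => (α t : Fin d)) (fun i t => (φ (σ.symm (C i t))).re) ?_
  intro i hi k
  have h1 := congrArg (fun u => φ (σ.symm u)) (hC i hi k)
  simp only [map_sum, map_mul, pb_AG, AlgEquiv.symm_apply_apply, map_intCast] at h1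
  simp only [ha] at h1
  have h2 := congrArg Complex.re h1
  have e1 : ∀ i' : Fin d, (∑ j, (g i' j : ℂ) * (Q j k : ℂ)) =
      ((∑ j, g i' j * (Q j k : ℝ) : ℝ) : ℂ) := by
    intro i'
    push_cast
    rfl
  simp only [e1, Complex.ofReal_re, Complex.re_sum, Complex.re_mul_ofReal] at h2
  exact h2

/-- **Stability on proper rational subspaces**, for prime `d`. -/
theorem stQ_proper (hd : d.Prime) {g : Matrix (Fin d) (Fin d) ℝ} {κ ν : ℝ} (hκ : 0 ≤ κ)
    (hκd : κ * d < 1) (hν : 0 < ν) (hF : ∀ x : Fin d → ℤ, x ≠ 0 →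
      ν ≤ |∏ i, ∑ j, g i j * (x j : ℝ)| * ‖(fun j => (x j : ℝ))‖ ^ κ)
    (φ : M →+* ℂ) (a : Matrix (Fin d) (Fin d) M) (ha : ∀ i j, φ (a i j) = (g i j : ℂ))
    {e : ℕ} (he : 1 ≤ e) (hed : e < d) (Q : Matrix (Fin d) (Fin e) ℤ)
    (hQ : ∀ z, Q.mulVec z = 0 → z = 0) : Stab (pb (AG a) Q) := by
  classical
  intro b hb κ' hne hun
  set U := spn (pb (AG a) Q) b κ' with hU
  have hUr : Module.finrank M U ≤ κ'.card := by
    rw [hU, spn, ← Finset.coe_image]
    exact (finrank_span_finset_le_card _).trans Finset.card_image_le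
  have hκe : κ'.card < e := by
    obtain ⟨x, hx⟩ : ∃ x, x ∉ κ' := by
      by_contra hcon
      push Not at hcon
      exact hun (Finset.eq_univ_iff_forall.2 hcon)
    have := Finset.card_lt_univ_of_notMem hx
    simpa using this
  have hκ0 : 0 < κ'.card := Finset.card_pos.2 hne
  have hd0 : 0 < d := hd.pos
  have hW : Module.finrank ℚ (ws Q) = e := finrank_ws hQ
  have hW0 : ws Q ≠ ⊥ := by
    intro h
    rw [h, finrank_bot] at hW
    omega
  have hW1 : ws Q ≠ ⊤ := by
    intro h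
    rw [h, finrank_top, Module.finrank_fin_fun] at hW
    omega
  have hone : ∀ σ : M ≃ₐ[ℚ] M, e * (Finset.univ.filter fun i => pb (AG a) Q (i, σ) ∈ U).card <
      d * κ'.card := by
    intro σ
    set I : Finset (Fin d) := Finset.univ.filter fun i => pb (AG a) Q (i, σ) ∈ U with hI
    have hr : rk g I (ws Q) ≤ κ'.card :=
      (count_le φ a ha Q σ U I fun i hi => (Finset.mem_filter.1 hi).2).trans hUr
    rcases I.eq_empty_or_nonempty with h0 | h0
    · rw [h0, Finset.card_empty, mul_zero]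
      positivity
    by_cases h1 : I = Finset.univ
    · have h2 := semi hκ hκd hν hF (ws Q) I
      rw [hW, h1, Finset.card_univ, Fintype.card_fin] at h2
      rw [h1] at hr
      have h3 : e * d ≤ d * κ'.card := h2.trans (Nat.mul_le_mul_left _ hr)
      have h4 : d * κ'.card < d * e := Nat.mul_lt_mul_of_pos_left hκe hd0
      rw [mul_comm e d] at h3
      omega
    · have h2 := strict hd g (semi hκ hκd hν hF) (ws Q) I hW0 hW1 h0 h1
      rw [hW] at h2
      exact h2.trans_le (Nat.mul_le_mul_left _ hr)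
  have hcard : Nat.card {q : Fin d × (M ≃ₐ[ℚ] M) // pb (AG a) Q q ∈ U} =
      ∑ σ : M ≃ₐ[ℚ] M, (Finset.univ.filter fun i => pb (AG a) Q (i, σ) ∈ U).card := by
    rw [Nat.card_eq_fintype_card, Fintype.card_subtype, Finset.card_filter,
      Fintype.sum_prod_type_right]
    refine Finset.sum_congr rfl fun σ _ => ?_
    rw [Finset.card_filter]
  rw [hcard, Finset.mul_sum, Fintype.card_prod, Fintype.card_fin]
  have hsum : ∑ σ : M ≃ₐ[ℚ] M, e * (Finset.univ.filter fun i => pb (AG a) Q (i, σ) ∈ U).card <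
      ∑ _σ : M ≃ₐ[ℚ] M, d * κ'.card :=
    Finset.sum_lt_sum_of_nonempty ⟨1, Finset.mem_univ _⟩ fun σ _ => hone σ
  refine hsum.trans_le (le_of_eq ?_)
  rw [Finset.sum_const, Finset.card_univ, smul_eq_mul]
  ring

end Pool.Agent.KS6_27.NV
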