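import Mathlib
import Pool.Agent.KS6_27.MV2
import Pool.Agent.KS6_27.Sub
import Pool.Agent.KS6_27.NV4

/-! # The structure of the forms which take values in a finitely generated group -/

set_option autoImplicit false
set_option linter.unusedSectionVars false

open Filter Module

namespace Pool.Agent.KS6_27.MV

variable {m d : ℕ}

/-- The values of the factors lie in a finitely generated group. -/
theorem units (g : Matrix (Fin d) (Fin d) ℝ) (Γ₀ : Subgroup ℝˣ) (hΓ₀ : Γ₀.FG)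
    (X : Set (Fin d → ℤ))
    (hX : ∀ x ∈ X, ∃ γ ∈ Γ₀, ((γ : ℝˣ) : ℝ) = ∏ i, ∑ j, g i j * (x j : ℝ)) :
    ∃ Γ : Subgroup ℂˣ, Γ.FG ∧ ∀ x ∈ X, ∀ i, ∃ u ∈ Γ,
      ((u : ℂˣ) : ℂ) = ((∑ j, g i j * (x j : ℝ) : ℝ) : ℂ) := by
  classical
  obtain ⟨S, rfl⟩ := hΓ₀
  set T : Finset ℂ := (Finset.univ.image fun q : Fin d × Fin d => ((g q.1 q.2 : ℝ) : ℂ)) ∪
    (S.image fun u => (((u : ℝˣ) : ℝ) : ℂ)) ∪ (S.image fun u => (((u⁻¹ : ℝˣ) : ℝ) : ℂ)) with hT
  obtain ⟨Γ, hΓ, hΓu⟩ := ruC T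
  refine ⟨Γ, hΓ, ?_⟩
  set R := Subring.closure (T : Set ℂ) with hR
  have hg : ∀ i j, ((g i j : ℝ) : ℂ) ∈ R := fun i j => Subring.subset_closure (by
    rw [hT]
    simp only [Finset.coe_union, Finset.coe_image, Set.mem_union, Set.mem_image]
    exact Or.inl (Or.inl ⟨(i, j), by simp, rfl⟩))
  have hS : ∀ γ ∈ Subgroup.closure (S : Set ℝˣ), (((γ : ℝˣ) : ℝ) : ℂ) ∈ R ∧
      (((γ⁻¹ : ℝˣ) : ℝ) : ℂ) ∈ R := by
    intro γ hγ
    induction hγ using Subgroup.closure_induction with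
    | mem u hu =>
      constructor
      · refine Subring.subset_closure ?_
        rw [hT]
        simp only [Finset.coe_union, Finset.coe_image, Set.mem_union, Set.mem_image]
        exact Or.inl (Or.inr ⟨u, hu, rfl⟩)
      · refine Subring.subset_closure ?_
        rw [hT]
        simp only [Finset.coe_union, Finset.coe_image, Set.mem_union, Set.mem_image]
        exact Or.inr ⟨u, hu, rfl⟩
    | one => simp [R.one_mem]
    | mul a b _ _ ha hb =>
      constructor
      · rw [Units.val_mul, Complex.ofReal_mul]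
        exact R.mul_mem ha.1 hb.1
      · rw [mul_inv, Units.val_mul, Complex.ofReal_mul]
        exact R.mul_mem ha.2 hb.2
    | inv a _ ha =>
      rw [inv_inv]
      exact ⟨ha.2, ha.1⟩
  intro x hx i
  obtain ⟨γ, hγ, hγx⟩ := hX x hx
  set v : Fin d → ℝ := fun i => ∑ j, g i j * (x j : ℝ) with hv
  have hvR : ∀ i, ((v i : ℝ) : ℂ) ∈ R := by
    intro i
    rw [hv]
    push_cast
    exact R.sum_mem fun j _ => R.mul_mem (hg i j) (intCast_mem R _)
  have hprod : ∏ i, v i = γ := hγx.symm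
  have hne : ∀ i, v i ≠ 0 := fun i hi => by
    have h1 : ∏ i, v i = 0 := Finset.prod_eq_zero (Finset.mem_univ i) hi
    rw [hprod] at h1
    exact γ.ne_zero h1
  have hneC : ((v i : ℝ) : ℂ) ≠ 0 := by exact_mod_cast hne i
  refine ⟨Units.mk0 _ hneC, hΓu _ (hvR i) ?_, rfl⟩
  have h1 : (v i)⁻¹ = ((γ⁻¹ : ℝˣ) : ℝ) * ∏ j ∈ Finset.univ.erase i, v j := by
    rw [inv_eq_iff_eq_inv, mul_inv, Units.val_inv_eq_inv_val, inv_inv, ← hprod,
      ← Finset.mul_prod_erase _ _ (Finset.mem_univ i), mul_assoc, mul_inv_cancel₀, mul_one]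
    exact Finset.prod_ne_zero_iff.2 fun j _ => hne j
  rw [Units.val_inv_eq_inv_val, Units.val_mk0, ← Complex.ofReal_inv, h1]
  have h2 := (hS γ hγ).2
  rw [Complex.ofReal_mul, Complex.ofReal_prod]
  exact R.mul_mem h2 (R.prod_mem fun j _ => hvR j)

/-- complex forms do not vanish along a generic sequence -/
theorem gen_of_int {z : ℕ → Fin m → ℤ}
    (hz : ∀ y : Fin m → ℤ, y ≠ 0 → ∀ᶠ n in atTop, ∑ j, y j * z n j ≠ 0) :
    Gen (hyperfilter ℕ) z := by
  classical
  intro v hv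
  obtain ⟨j0, hj0⟩ := Function.ne_iff.1 hv
  have h1 : ∃ f : Module.Dual ℚ ℂ, f (v j0) ≠ 0 := by
    by_contra hcon
    push Not at hcon
    exact hj0 ((Module.forall_dual_apply_eq_zero_iff ℚ (v j0)).1 hcon)
  obtain ⟨f, hf⟩ := h1
  obtain ⟨N, hN, hNz⟩ := exists_den fun j => f (v j)
  choose y hy using hNz
  have hy0 : y ≠ 0 := by
    intro h
    have h2 := hy j0
    rw [h, Pi.zero_apply, Int.cast_zero] at h2
    rcases mul_eq_zero.1 h2 with h3 | h3
    · exact hN.ne' (by exact_mod_cast h3)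
    · exact hf h3
  have h2 : ∀ᶠ n in atTop, fm v (z n) ≠ 0 := by
    filter_upwards [hz y hy0] with n hn hcon
    apply hn
    have h3 : f (fm v (z n)) = 0 := by rw [hcon, map_zero]
    unfold fm at h3
    rw [map_sum] at h3
    have h4 : ∀ j, f (v j * (z n j : ℂ)) = (z n j : ℚ) * f (v j) := by
      intro j
      have : v j * (z n j : ℂ) = ((z n j : ℚ)) • v j := by
        rw [Algebra.smul_def, mul_comm]
        simp
      rw [this, map_smul, smul_eq_mul]
    simp only [h4] at h3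
    have h5 : ((∑ j, y j * z n j : ℤ) : ℚ) = 0 := by
      push_cast
      simp only [← hy]
      have h6 : ∀ j, (N : ℚ) * f (v j) * (z n j : ℚ) = N * ((z n j : ℚ) * f (v j)) := fun j => by
        ring
      simp only [h6]
      rw [← Finset.mul_sum, h3, mul_zero]
    exact_mod_cast h5
  have h3 : (hyperfilter ℕ : Filter ℕ) ≤ atTop := by
    rw [← Nat.cofinite_eq_atTop]
    exact hyperfilter_le_cofinite
  exact h3 h2

end Pool.Agent.KS6_27.MV
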