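import Mathlib
import Pool.Agent.KS6_27.MV3

/-! # The structure of the forms which take values in a finitely generated group -/

set_option autoImplicit false
set_option linter.unusedSectionVars false

open Filter Module H715R2

namespace Pool.Agent.KS6_27.MV

open Pool.Agent.KS6_27.NV (ws finrank_ws inj_field rk_le_card)
open Pool.Agent.Results.MP_edeaa2_an.Semistability (subspace_bound rk)

variable {m d : ℕ}

/-- the product of the forms at an integer point -/
noncomputable def F (h : Matrix (Fin d) (Fin d) ℝ) (x : Fin d → ℤ) : ℝ :=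
  ∏ i : Fin d, ∑ j : Fin d, h i j * (x j : ℝ)

/-- the forms span everything -/
lemma span_top {g : Matrix (Fin d) (Fin d) ℝ} (hg : g.det ≠ 0) {B : Matrix (Fin d) (Fin m) ℤ}
    (hB : ∀ z, B.mulVec z = 0 → z = 0) :
    Submodule.span ℂ (Set.range fun i : Fin d => fun j : Fin m =>
      ((∑ a, g i a * (B a j : ℝ) : ℝ) : ℂ)) = ⊤ := by
  classical
  by_contra hne
  obtain ⟨f, hf0, hf⟩ := Submodule.exists_le_ker_of_lt_top _ (lt_top_iff_ne_top.2 hne)
  apply hf0
  set y : Fin m → ℂ := fun k => f (Pi.single k 1) with hy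
  have hfy : ∀ v : Fin m → ℂ, f v = ∑ k, v k * y k := by
    intro v
    conv_lhs => rw [← Finset.univ_sum_single v]
    rw [map_sum]
    refine Finset.sum_congr rfl fun k _ => ?_
    have : (Pi.single k (v k) : Fin m → ℂ) = v k • Pi.single k 1 := by
      rw [← Pi.single_smul, smul_eq_mul, mul_one]
    rw [this, map_smul, smul_eq_mul]
  have h1 : ∀ i : Fin d, ∑ a, ((g i a : ℝ) : ℂ) * ∑ k, (B a k : ℂ) * y k = 0 := by
    intro i
    have h2 := LinearMap.mem_ker.1 (hf (Submodule.subset_span ⟨i, rfl⟩))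
    rw [hfy] at h2
    rw [← h2]
    push_cast
    simp only [Finset.mul_sum, Finset.sum_mul]
    rw [Finset.sum_comm]
    refine Finset.sum_congr rfl fun k _ => Finset.sum_congr rfl fun j _ => ?_
    ring
  have h3 : (fun a => ∑ k, (B a k : ℂ) * y k) = 0 := by
    have h4 : (g.map (Complex.ofRealHom)).mulVec (fun a => ∑ k, (B a k : ℂ) * y k) = 0 := by
      funext i
      exact h1 i
    refine Matrix.eq_zero_of_mulVec_eq_zero ?_ h4
    have h5 : (g.map (Complex.ofRealHom)).det = ((g.det : ℝ) : ℂ) := by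
      have := RingHom.map_det Complex.ofRealHom g
      rw [RingHom.mapMatrix_apply] at this
      exact this.symm
    rw [h5]
    exact_mod_cast hg
  have h5 : y = 0 := inj_field hB ℂ y fun j => congrFun h3 j
  apply LinearMap.ext
  intro v
  rw [hfy, h5]
  simp

/-- a complex factor between real vectors is real -/
lemma real_factor {v w : Fin m → ℝ} (hw : w ≠ 0) (h : Prp (fun i => ((v i : ℝ) : ℂ))
    (fun i => ((w i : ℝ) : ℂ))) : ∃ c : ℝ, c ≠ 0 ∧ v = c • w := by
  obtain ⟨c, hc, h⟩ := h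
  obtain ⟨j, hj⟩ := Function.ne_iff.1 hw
  rw [Pi.zero_apply] at hj
  have h1 : ((v j : ℝ) : ℂ) = c * ((w j : ℝ) : ℂ) := congrFun h j
  have hjC : ((w j : ℝ) : ℂ) ≠ 0 := by exact_mod_cast hj
  have h2 : c = ((v j / w j : ℝ) : ℂ) := by
    rw [Complex.ofReal_div, h1, mul_div_cancel_right₀ _ hjC]
  refine ⟨v j / w j, ?_, ?_⟩
  · intro h0
    rw [h0, Complex.ofReal_zero] at h2
    exact hc h2
  · funext i
    have h3 : ((v i : ℝ) : ℂ) = c * ((w i : ℝ) : ℂ) := congrFun h i
    rw [h2, ← Complex.ofReal_mul] at h3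
    exact_mod_cast h3

/-- the number of the forms proportional to a given one on a rational subspace -/
theorem mult_le {g : Matrix (Fin d) (Fin d) ℝ} {κ ν : ℝ} (hκ : 0 ≤ κ) (hκ1 : κ < 1) (hν : 0 < ν)
    (hF : ∀ x : Fin d → ℤ, x ≠ 0 →
      ν ≤ |∏ i, ∑ j, g i j * (x j : ℝ)| * ‖(fun j => (x j : ℝ))‖ ^ κ)
    {B : Matrix (Fin d) (Fin m) ℤ} (hB : ∀ z, B.mulVec z = 0 → z = 0) (i0 : Fin d)
    (I : Finset (Fin d)) (c : Fin d → ℝ)
    (hI : ∀ i ∈ I, ∀ k, ∑ a, g i a * (B a k : ℝ) = c i * ∑ a, g i0 a * (B a k : ℝ)) :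
    m * I.card ≤ d := by
  have h1 := subspace_bound g κ ν hκ hν hF (ws B) I
  rw [finrank_ws hB] at h1
  have h2 : rk g I (ws B) ≤ 1 := by
    have := rk_le_card g I (κ := Fin 1) (fun _ => i0) (fun i _ => c i) (Q := B) (by
      intro i hi k
      rw [hI i hi k]
      simp)
    simpa using this
  have h3 : ((d : ℝ) + κ) * rk g I (ws B) ≤ (d + κ) * 1 :=
    mul_le_mul_of_nonneg_left (by exact_mod_cast h2) (by positivity)
  have h4 : ((m * I.card : ℕ) : ℝ) < d + 1 := by
    push_cast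
    linarith
  have h5 : m * I.card < d + 1 := by exact_mod_cast h4
  omega

/-- the form is proportional to a power of an integral form of full rank on a rational subspace -/
def Pw (g : Matrix (Fin d) (Fin d) ℝ) : Prop :=
  ∃ (m k : ℕ) (B : Matrix (Fin d) (Fin m) ℤ) (h : Matrix (Fin m) (Fin m) ℝ) (c : ℝ), 2 ≤ m ∧
    m * k = d ∧ c ≠ 0 ∧ (∀ z, B.mulVec z = 0 → z = 0) ∧ h.det ≠ 0 ∧ PropInt h ∧
    ∀ y : Fin m → ℤ, F g (B.mulVec y) = c * F h y ^ k

theorem structure_of {g : Matrix (Fin d) (Fin d) ℝ} (hg : g.det ≠ 0) {κ ν : ℝ} (hκ : 0 ≤ κ)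
    (hκ1 : κ < 1) (hν : 0 < ν)
    (hF : ∀ x : Fin d → ℤ, x ≠ 0 →
      ν ≤ |∏ i, ∑ j, g i j * (x j : ℝ)| * ‖(fun j => (x j : ℝ))‖ ^ κ)
    (x : ℕ → Fin d → ℤ) (hx : ∀ n, x n ≠ 0) (Γ₀ : Subgroup ℝˣ) (hΓ₀ : Γ₀.FG)
    (hΓ : ∀ n, ∃ γ ∈ Γ₀, ((γ : ℝˣ) : ℝ) = F g (x n))
    (hline : ∀ v : Fin d → ℤ, ¬ ∃ φ : ℕ → ℕ, StrictMono φ ∧ ∃ D : ℤ, D ≠ 0 ∧
      ∀ n, ∃ b : ℤ, ∀ i, D * x (φ n) i = b * v i) : Pw g := by
  classical
  obtain ⟨m, v, A, D, φ, z, hm0, hD, hAv, hφ, hxz, hgen⟩ := exists_generic x hx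
  have hm : 2 ≤ m := by
    by_contra hcon
    have hm1 : m = 1 := by omega
    subst hm1
    refine hline (v 0) ⟨φ, hφ, D, hD, fun n => ⟨z n 0, fun i => ?_⟩⟩
    rw [hxz n i, Fin.sum_univ_one]
  set B : Matrix (Fin d) (Fin m) ℤ := Matrix.of fun a j => v j a with hBdef
  have hB : ∀ y, B.mulVec y = 0 → y = 0 := by
    intro y hy
    funext j
    have h1 : ∀ a, ∑ j, v j a * y j = 0 := fun a => congrFun hy a
    have h2 : D * y j = ∑ a, A j a * ∑ i, v i a * y i := by
      simp only [Finset.mul_sum]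
      rw [Finset.sum_comm]
      have h3 : ∀ i, ∑ a, A j a * (v i a * y i) = (if j = i then D else 0) * y i := by
        intro i
        rw [← hAv j i, Finset.sum_mul]
        exact Finset.sum_congr rfl fun a _ => by ring
      simp only [h3, ite_mul, zero_mul]
      rw [Finset.sum_ite_eq Finset.univ j fun i => D * y i, if_pos (Finset.mem_univ _)]
    simp only [h1, mul_zero, Finset.sum_const_zero] at h2
    exact (mul_eq_zero.1 h2).resolve_left hD
  have hBz : ∀ n, ∀ a, D * x (φ n) a = ∑ j, B a j * z n j := by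
    intro n a
    rw [hxz n a]
    exact Finset.sum_congr rfl fun j _ => mul_comm _ _
  -- the forms on the subspace
  set G : Fin d → Fin m → ℝ := fun i j => ∑ a, g i a * (B a j : ℝ) with hG
  have hval : ∀ i n, ∑ j, G i j * (z n j : ℝ) = D * ∑ a, g i a * (x (φ n) a : ℝ) := by
    intro i n
    have h1 : ∀ a, (D : ℝ) * (x (φ n) a : ℝ) = ∑ j, (B a j : ℝ) * (z n j : ℝ) := by
      intro a
      exact_mod_cast hBz n a
    rw [hG, Finset.mul_sum]
    have h2 : ∀ a, (D : ℝ) * (g i a * (x (φ n) a : ℝ)) =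
        g i a * ∑ j, (B a j : ℝ) * (z n j : ℝ) := fun a => by
      rw [← h1]
      ring
    simp only [h2, Finset.mul_sum, Finset.sum_mul]
    rw [Finset.sum_comm]
    refine Finset.sum_congr rfl fun k _ => Finset.sum_congr rfl fun j _ => ?_
    ring
  have hspan := span_top hg hB
  -- units
  obtain ⟨Γ, hΓfg, hΓu⟩ := units g Γ₀ hΓ₀ {x' | ∃ n, x' = x n} (by
    rintro x' ⟨n, rfl⟩
    exact hΓ n)
  have hDC : (D : ℂ) ≠ 0 := by exact_mod_cast hD
  set Γ' : Subgroup ℂˣ := Γ ⊔ Subgroup.closure {Units.mk0 (D : ℂ) hDC} with hΓ'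
  have hΓ'fg : Γ'.FG := Subgroup.FG.sup hΓfg ⟨{Units.mk0 (D : ℂ) hDC}, by simp⟩
  have hunit : ∀ (i : Fin d) (n : ℕ), ∃ u ∈ Γ', ((u : ℂˣ) : ℂ) =
      fm (fun j => ((G i j : ℝ) : ℂ)) (z n) := by
    intro i n
    obtain ⟨u, hu, hux⟩ := hΓu (x (φ n)) ⟨_, rfl⟩ i
    refine ⟨Units.mk0 (D : ℂ) hDC * u, Γ'.mul_mem ?_ ?_, ?_⟩
    · exact (le_sup_right : _ ≤ Γ') (Subgroup.subset_closure rfl)
    · exact (le_sup_left : _ ≤ Γ') hu
    · rw [Units.val_mul, Units.val_mk0, hux]
      have h1 := hval i n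
      unfold fm
      have h2 : ((∑ j, G i j * (z n j : ℝ) : ℝ) : ℂ) = ((D * ∑ a, g i a * (x (φ n) a : ℝ) : ℝ) : ℂ) := by
        rw [h1]
      push_cast at h2
      push_cast
      exact h2.symm
  obtain ⟨r, p, hli, hprp, hpr, hτ⟩ := frame (fun i j => ((G i j : ℝ) : ℂ)) hspan
    (gen_of_int hgen) Γ' hΓ'fg hunit
  set h : Matrix (Fin m) (Fin m) ℝ := Matrix.of fun j i => G (r j) i with hh
  have hdet : h.det ≠ 0 := by
    intro h0
    have h1 : (h.map (Complex.ofRealHom)).det = 0 := by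
      have := RingHom.map_det Complex.ofRealHom h
      rw [RingHom.mapMatrix_apply] at this
      rw [← this, h0, map_zero]
    have h2 : LinearIndependent ℂ (h.map (Complex.ofRealHom)).row := hli
    rw [Matrix.linearIndependent_rows_iff_isUnit, Matrix.isUnit_iff_isUnit_det, h1] at h2
    exact not_isUnit_zero h2
  have hrow : ∀ j, h j ≠ 0 := by
    intro j h0
    exact hdet (Matrix.det_eq_zero_of_row_eq_zero j fun i => congrFun h0 i)
  have hPI : PropInt h := propInt_of_frame hdet hli hτ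
  have hreal : ∀ i, ∃ c : ℝ, c ≠ 0 ∧ G i = c • h (p i) := fun i =>
    real_factor (hrow _) (hprp i)
  choose c hc hcG using hreal
  -- multiplicities
  have hmul : ∀ j, m * (Finset.univ.filter fun i => p i = j).card ≤ d := by
    intro j
    refine mult_le hκ hκ1 hν hF hB (r j) _ c fun i hi k => ?_
    have h1 := (Finset.mem_filter.1 hi).2
    have h2 := congrFun (hcG i) k
    rw [h1, Pi.smul_apply, smul_eq_mul] at h2
    exact h2
  have hsum : ∑ j, (Finset.univ.filter fun i => p i = j).card = d := by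
    rw [← Finset.card_eq_sum_card_fiberwise (fun i _ => Finset.mem_univ (p i))]
    simp
  have heq : ∀ j, m * (Finset.univ.filter fun i => p i = j).card = d := by
    have h1 : ∑ j : Fin m, m * (Finset.univ.filter fun i => p i = j).card = ∑ j : Fin m, d := by
      rw [← Finset.mul_sum, hsum]
      simp
    intro j
    exact (Finset.sum_eq_sum_iff_of_le fun j _ => hmul j).1 h1 j (Finset.mem_univ _)
  have hm0' : (⟨0, hm0⟩ : Fin m) = ⟨0, hm0⟩ := rfl
  refine ⟨m, (Finset.univ.filter fun i => p i = ⟨0, hm0⟩).card, B, h, ∏ i, c i, hm, heq _,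
    Finset.prod_ne_zero_iff.2 fun i _ => hc i, hB, hdet, hPI, fun y => ?_⟩
  have hk : ∀ j, (Finset.univ.filter fun i => p i = j).card =
      (Finset.univ.filter fun i => p i = ⟨0, hm0⟩).card := by
    intro j
    have h1 := (heq j).trans (heq ⟨0, hm0⟩).symm
    exact Nat.eq_of_mul_eq_mul_left hm0 h1
  have h1 : ∀ i, ∑ a, g i a * ((B.mulVec y) a : ℝ) = c i * ∑ j, h (p i) j * (y j : ℝ) := by
    intro i
    have h2 : ∑ a, g i a * ((B.mulVec y) a : ℝ) = ∑ j, G i j * (y j : ℝ) := by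
      rw [hG]
      simp only [Matrix.mulVec, dotProduct, Int.cast_sum, Int.cast_mul, Finset.mul_sum,
        Finset.sum_mul]
      rw [Finset.sum_comm]
      refine Finset.sum_congr rfl fun k _ => Finset.sum_congr rfl fun j _ => ?_
      ring
    rw [h2, hcG i, Finset.mul_sum]
    refine Finset.sum_congr rfl fun j _ => ?_
    rw [Pi.smul_apply, smul_eq_mul]
    ring
  unfold F
  rw [Finset.prod_congr rfl fun i _ => h1 i, Finset.prod_mul_distrib]
  congr 1
  rw [← Finset.prod_fiberwise Finset.univ p, ← Finset.prod_pow]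
  refine Finset.prod_congr rfl fun j _ => ?_
  rw [← hk j, ← Finset.prod_const]
  refine Finset.prod_congr rfl fun i hi => ?_
  rw [(Finset.mem_filter.1 hi).2]

end Pool.Agent.KS6_27.MV
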