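import Mathlib
import Pool.Agent.KS6_27.MV4
import Pool.Graph.R_pool_sql_team_seeded_3997aac3.Q118.VC.Global
import Pool.Graph.R_pool_sql_team_seeded_47a924f7.T6.H49.CSD.Closure
import Pool.Graph.R_pool_sql_team_seeded_63374d34.N759.FV.MultFin
import Pool.Graph.R_pool_sql_team_seeded_843ab51a.V11299.SP.CsdA

/-! # Values which are taken infinitely often -/

set_option autoImplicit false
set_option linter.unusedSectionVars false

open Filter Module H715R2 Topology

namespace Pool.Agent.KS6_27.MV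

variable {m d : ℕ}

lemma FF_eq (g : Matrix (Fin d) (Fin d) ℝ) (x : Fin d → ℤ) : FF g (iR x) = F g x := rfl

/-- an integral form which is bounded away from zero takes its values infinitely often -/
theorem infinite_value (hd : 2 ≤ d) {h : Matrix (Fin d) (Fin d) ℝ} (hh : h.det ≠ 0)
    (hP : PropInt h) (h0 : ∀ y : Fin d → ℤ, y ≠ 0 → F h y ≠ 0) {x₀ : Fin d → ℤ} (hx₀ : x₀ ≠ 0) :
    {x : Fin d → ℤ | F h x = F h x₀}.Infinite := by
  intro hfin
  obtain ⟨c, hc, hval⟩ := T6.H49.CSD.propInt_values (g := h) hP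
  have hnu : HasNu h (1 / |c|) := by
    intro m hm
    obtain ⟨n, hn⟩ := hval m
    have hn0 : n ≠ 0 := by
      rintro rfl
      rw [Int.cast_zero] at hn
      rcases mul_eq_zero.1 hn with h | h
      · exact hc h
      · exact h0 m hm h
    have h1 : (1 : ℝ) ≤ |(n : ℝ)| := by
      have := Int.one_le_abs hn0
      exact_mod_cast this
    rw [← hn, abs_mul] at h1
    rw [div_le_iff₀ (abs_pos.2 hc)]
    linarith
  obtain ⟨κ', hκ', X₀, hX⟩ := Q118.VC.periodic_growth hd hh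
    (one_div_pos.2 (abs_pos.2 hc)) hnu hP hx₀
  have hlim : Tendsto (fun X : ℝ => κ' * Real.log X ^ (d - 1)) atTop atTop :=
    ((tendsto_pow_atTop (by omega)).comp Real.tendsto_log_atTop).const_mul_atTop hκ'
  obtain ⟨X, hX1, hX2⟩ := ((hlim.eventually_gt_atTop
    (({x : Fin d → ℤ | F h x = F h x₀}).ncard : ℝ)).and (eventually_ge_atTop X₀)).exists
  have h2 := hX X hX2
  have h3 : (({x : Fin d → ℤ | (∀ j, |(x j : ℝ)| ≤ X) ∧
      H715R2.FF h (H715R2.iR x) = H715R2.FF h (H715R2.iR x₀)}).ncard : ℝ) ≤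
      (({x : Fin d → ℤ | F h x = F h x₀}).ncard : ℝ) := by
    have hsub : {x : Fin d → ℤ | (∀ j, |(x j : ℝ)| ≤ X) ∧
        H715R2.FF h (H715R2.iR x) = H715R2.FF h (H715R2.iR x₀)} ⊆
        {x : Fin d → ℤ | F h x = F h x₀} := fun x hx => hx.2
    exact_mod_cast Set.ncard_le_ncard hsub hfin
  linarith

/-- the form takes some value infinitely often, if it is a power of an integral form on a rational
subspace -/
theorem often_of_pw (hd : 0 < d) {g : Matrix (Fin d) (Fin d) ℝ}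
    (h0 : ∀ x : Fin d → ℤ, x ≠ 0 → F g x ≠ 0) (hP : Pw g) :
    ∃ v : ℝ, {x : Fin d → ℤ | F g x = v}.Infinite := by
  obtain ⟨m, k, B, h, c, hm, hmk, hc, hB, hh, hPI, hval⟩ := hP
  have hk : k ≠ 0 := by
    rintro rfl
    omega
  have hne : ∀ y : Fin m → ℤ, y ≠ 0 → F h y ≠ 0 := by
    intro y hy h1
    have h2 : B.mulVec y ≠ 0 := fun h3 => hy (hB y h3)
    apply h0 _ h2
    rw [hval, h1, zero_pow hk, mul_zero]
  have hinj : Function.Injective fun y : Fin m → ℤ => B.mulVec y := by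
    intro y y' hyy
    have h1 : B.mulVec (y - y') = 0 := by
      rw [Matrix.mulVec_sub]
      exact sub_eq_zero.2 hyy
    exact sub_eq_zero.1 (hB _ h1)
  have hx0 : (Pi.single ⟨0, by omega⟩ 1 : Fin m → ℤ) ≠ 0 := by
    intro h
    have := congrFun h ⟨0, by omega⟩
    simp at this
  refine ⟨c * F h (Pi.single ⟨0, by omega⟩ 1) ^ k,
    ((infinite_value hm hh hPI hne hx0).image hinj.injOn).mono ?_⟩
  rintro x ⟨y, hy, rfl⟩
  show F g (B.mulVec y) = _
  rw [hval]
  rw [Set.mem_ofPred_eq] at hy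
  rw [hy]

lemma F_smul (g : Matrix (Fin d) (Fin d) ℝ) (a : ℤ) (x : Fin d → ℤ) :
    F g (a • x) = (a : ℝ) ^ d * F g x := by
  unfold F
  have h2 : ∀ i, ∑ j, g i j * (((a • x) j : ℤ) : ℝ) = (a : ℝ) * ∑ j, g i j * (x j : ℝ) := by
    intro i
    rw [Finset.mul_sum]
    refine Finset.sum_congr rfl fun j _ => ?_
    rw [Pi.smul_apply, smul_eq_mul]
    push_cast
    ring
  rw [Finset.prod_congr rfl fun i _ => h2 i, Finset.prod_mul_distrib, Finset.prod_const,
    Finset.card_univ, Fintype.card_fin]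

/-- pairwise not proportional -/
def NonProp (X : Set (Fin d → ℤ)) : Prop :=
  ∀ x ∈ X, ∀ x' ∈ X, x ≠ x' → ∀ a b : ℤ, a • x = b • x' → a = 0 ∧ b = 0

theorem nonProp_of_often (hd : 0 < d) {g : Matrix (Fin d) (Fin d) ℝ}
    (h0 : ∀ x : Fin d → ℤ, x ≠ 0 → F g x ≠ 0) {v : ℝ} (hv : {x : Fin d → ℤ | F g x = v}.Infinite) :
    ∃ Γ : Subgroup ℝˣ, Γ.FG ∧ ∃ X : Set (Fin d → ℤ), X.Infinite ∧ NonProp X ∧
      ∀ x ∈ X, ∃ γ ∈ Γ, ((γ : ℝˣ) : ℝ) = F g x := by
  classical
  have hv0 : v ≠ 0 := by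
    obtain ⟨x, hx, hx0⟩ := (hv.sdiff (Set.finite_singleton (0 : Fin d → ℤ))).nonempty
    rw [← (show F g x = v from hx)]
    exact h0 x hx0
  have hne : ∀ x : Fin d → ℤ, F g x = v → x ≠ 0 := by
    rintro x hx rfl
    apply hv0
    rw [← hx, F]
    exact Finset.prod_eq_zero (Finset.mem_univ ⟨0, hd⟩) (by simp)
  let e : (Fin d → ℤ) → ℕ := Encodable.encode
  have he : Function.Injective e := Encodable.encode_injective
  set X : Set (Fin d → ℤ) := {x | F g x = v ∧ (F g (-x) = v → e x ≤ e (-x))} with hX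
  refine ⟨Subgroup.closure {Units.mk0 v hv0}, ⟨{Units.mk0 v hv0}, by simp⟩, X, ?_, ?_, ?_⟩
  · intro hfin
    refine hv ((hfin.union (hfin.image fun x => -x)).subset fun x hx => ?_)
    by_cases hxX : x ∈ X
    · exact Or.inl hxX
    · right
      have hx' : F g x = v := hx
      have h1 : F g (-x) = v ∧ e (-x) < e x := by
        by_contra hcon
        apply hxX
        refine ⟨hx', fun h2 => ?_⟩
        by_contra h3
        exact hcon ⟨h2, not_le.1 h3⟩
      refine ⟨-x, ⟨h1.1, fun _ => ?_⟩, neg_neg x⟩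
      rw [neg_neg]
      exact h1.2.le
  · intro x hx x' hx' hxx a b hab
    by_contra hcon
    have hx0 := hne x hx.1
    have hx0' := hne x' hx'.1
    have ha : a ≠ 0 := by
      rintro rfl
      rw [zero_smul] at hab
      rcases smul_eq_zero.1 hab.symm with h | h
      · exact hcon ⟨rfl, h⟩
      · exact hx0' h
    have h1 : (a : ℝ) ^ d * v = (b : ℝ) ^ d * v := by
      have h2 := congrArg (F g) hab
      rw [F_smul, F_smul, hx.1, hx'.1] at h2
      exact h2
    have h2 : (a : ℝ) ^ d = (b : ℝ) ^ d := mul_right_cancel₀ hv0 h1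
    have h3 : |(a : ℝ)| = |(b : ℝ)| := by
      have h4 : |(a : ℝ)| ^ d = |(b : ℝ)| ^ d := by rw [← abs_pow, ← abs_pow, h2]
      exact (pow_left_inj₀ (abs_nonneg _) (abs_nonneg _) hd.ne').1 h4
    have h4 : a = b ∨ a = -b := by
      rcases abs_eq_abs.1 h3 with h | h
      · left
        exact_mod_cast h
      · right
        exact_mod_cast h
    rcases h4 with h | h
    · subst h
      exact hxx (smul_right_injective _ ha hab)
    · have hb : b ≠ 0 := fun h5 => ha (by rw [h, h5, neg_zero])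
      have h5 : x' = -x := by
        rw [h, neg_smul, ← smul_neg] at hab
        exact (smul_right_injective _ hb hab).symm
      have h6 : e x ≤ e x' := by
        rw [h5]
        apply hx.2
        rw [← h5]
        exact hx'.1
      have h7 : e x' ≤ e x := by
        have h8 : x = -x' := by rw [h5, neg_neg]
        conv_rhs => rw [h8]
        apply hx'.2
        rw [← h8]
        exact hx.1
      exact hxx (he (le_antisymm h6 h7))
  · intro x hx
    exact ⟨_, Subgroup.subset_closure rfl, hx.1.symm⟩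

theorem pw_of_group (hd : 0 < d) {g : Matrix (Fin d) (Fin d) ℝ} (hg : g.det ≠ 0) {κ ν : ℝ}
    (hκ : 0 ≤ κ) (hκ1 : κ < 1) (hν : 0 < ν)
    (hF : ∀ x : Fin d → ℤ, x ≠ 0 → ν ≤ |F g x| * ‖(fun j => (x j : ℝ))‖ ^ κ)
    (Γ : Subgroup ℝˣ) (hΓ : Γ.FG) (X : Set (Fin d → ℤ)) (hX : X.Infinite) (hXp : NonProp X)
    (hXΓ : ∀ x ∈ X, ∃ γ ∈ Γ, ((γ : ℝˣ) : ℝ) = F g x) : Pw g := by
  classical
  have hne : ∀ x ∈ X, x ≠ 0 := by
    rintro x hx rfl
    obtain ⟨γ, -, h⟩ := hXΓ _ hx
    apply γ.ne_zero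
    rw [h, F]
    exact Finset.prod_eq_zero (Finset.mem_univ ⟨0, hd⟩) (by simp)
  set x : ℕ → Fin d → ℤ := fun n => (hX.natEmbedding X n : Fin d → ℤ) with hx
  have hxX : ∀ n, x n ∈ X := fun n => (hX.natEmbedding X n).2
  have hxinj : Function.Injective x := fun n n' h =>
    (hX.natEmbedding X).injective (Subtype.ext h)
  refine structure_of hg hκ hκ1 hν hF x (fun n => hne _ (hxX n)) Γ hΓ (fun n => hXΓ _ (hxX n)) ?_
  rintro v ⟨φ, hφ, D, hD, h⟩
  obtain ⟨b0, hb0⟩ := h 0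
  obtain ⟨b1, hb1⟩ := h 1
  have h1 : x (φ 0) ≠ x (φ 1) := fun h2 => by
    have := hφ.injective (hxinj h2)
    omega
  have h2 := hXp _ (hxX (φ 0)) _ (hxX (φ 1)) h1 (D * b1) (D * b0) (by
    funext i
    rw [Pi.smul_apply, Pi.smul_apply, smul_eq_mul, smul_eq_mul]
    have e0 := hb0 i
    have e1 := hb1 i
    calc D * b1 * x (φ 0) i = b1 * (D * x (φ 0) i) := by ring
      _ = b0 * (b1 * v i) := by rw [e0]; ring
      _ = D * b0 * x (φ 1) i := by rw [← e1]; ring)
  have h3 : b0 = 0 := (mul_eq_zero.1 h2.2).resolve_left hD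
  apply hne _ (hxX (φ 0))
  funext i
  have e0 := hb0 i
  rw [h3, zero_mul] at e0
  exact (mul_eq_zero.1 e0).resolve_left hD

/-- **prime degree** -/
theorem propInt_of_pw (hd : d.Prime) {g : Matrix (Fin d) (Fin d) ℝ} (hP : Pw g) : PropInt g := by
  obtain ⟨m, k, B, h, c, hm, hmk, hc, hB, hh, hPI, hval⟩ := hP
  have hmd : m = d := by
    rcases (Nat.dvd_prime hd).1 ⟨k, hmk.symm⟩ with h1 | h1
    · omega
    · exact h1
  subst hmd
  have hk : k = 1 := Nat.eq_of_mul_eq_mul_left (by omega : 0 < m) (by rw [hmk, mul_one])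
  subst hk
  have hdet : B.det ≠ 0 := by
    intro h0
    obtain ⟨v, hv0, hv⟩ := Matrix.exists_mulVec_eq_zero_iff.2 h0
    exact hv0 (hB v hv)
  rw [← V11299.SP.propInt_mul_iff hdet]
  obtain ⟨c0, hc0, hv⟩ := T6.H49.CSD.propInt_values (g := h) hPI
  refine N759.FV.propInt_of_multiples (η := c / c0) (div_ne_zero hc hc0) fun p => ?_
  obtain ⟨z, hz⟩ := hv p
  refine ⟨z, ?_⟩
  have h1 : FF (g * zR B) (iR p) = F g (B.mulVec p) := by
    rw [← FF_eq, FF_mul, zR_mulVec_iR]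
  rw [h1, hval, pow_one, ← hz, FF_eq]
  field_simp

end Pool.Agent.KS6_27.MV
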