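import Mathlib
import Pool.Agent.KS6_27.NV4

/-! # Bases among the conjugates of the forms; Galois conjugates of coordinate subspaces -/

set_option autoImplicit false
set_option linter.unusedSectionVars false

open Finset Matrix NumberField IsDedekindDomain Height Module

namespace Pool.Agent.KS6_27.NV

open Pool.Agent.W180.OP (Pl av wt nrm le_nrm nrm_pos nrm_nonneg exists_nrm wt_nonneg)
open Pool.Agent.R405 (exv exv_ne dot schV Good exists_good descend)

variable {d : ℕ} {M : Type} [Field M] [NumberField M]

/-- a basis among the forms on a rational subspace -/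
theorem exists_basis (a : Matrix (Fin d) (Fin d) M) (ha : a.det ≠ 0) {e : ℕ}
    (Q : Matrix (Fin d) (Fin e) ℤ) (hQ : ∀ z, Q.mulVec z = 0 → z = 0) :
    ∃ b : Fin e → Fin d × (M ≃ₐ[ℚ] M), (sk (pb (AG a) Q) b).det ≠ 0 := by
  classical
  obtain ⟨κ, α, hα, hspan, hli⟩ := exists_linearIndependent' M
    (fun i : Fin d => pb (AG a) Q (i, 1))
  have hfin : Finite κ := Finite.of_injective α hα
  have : Fintype κ := Fintype.ofFinite κ
  -- the forms span everything
  have htop : Submodule.span M (Set.range fun i : Fin d => pb (AG a) Q (i, 1)) = ⊤ := by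
    by_contra hne
    obtain ⟨f, hf0, hf⟩ := Submodule.exists_le_ker_of_lt_top _ (lt_top_iff_ne_top.2 hne)
    apply hf0
    set y : Fin e → M := fun k => f (Pi.single k 1) with hy
    have hfy : ∀ v : Fin e → M, f v = ∑ k, v k * y k := by
      intro v
      conv_lhs => rw [← Finset.univ_sum_single v]
      rw [map_sum]
      refine Finset.sum_congr rfl fun k _ => ?_
      have : (Pi.single k (v k) : Fin e → M) = v k • Pi.single k 1 := by
        rw [← Pi.single_smul, smul_eq_mul, mul_one]
      rw [this, map_smul, smul_eq_mul]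
    have h1 : ∀ i : Fin d, ∑ j, a i j * ∑ k, (Q j k : M) * y k = 0 := by
      intro i
      have h2 : f (pb (AG a) Q (i, 1)) = 0 :=
        LinearMap.mem_ker.1 (hf (Submodule.subset_span ⟨i, rfl⟩))
      rw [hfy] at h2
      rw [← h2]
      simp only [pb_AG, AlgEquiv.one_apply, Finset.mul_sum, Finset.sum_mul]
      rw [Finset.sum_comm]
      refine Finset.sum_congr rfl fun k _ => Finset.sum_congr rfl fun j _ => ?_
      ring
    have h3 : (fun j => ∑ k, (Q j k : M) * y k) = 0 := by
      have h4 : a.mulVec (fun j => ∑ k, (Q j k : M) * y k) = 0 := by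
        funext i
        exact h1 i
      exact Matrix.eq_zero_of_mulVec_eq_zero ha h4
    have h5 : y = 0 := inj_field hQ M y fun j => congrFun h3 j
    apply LinearMap.ext
    intro v
    rw [hfy, h5]
    simp
  rw [htop] at hspan
  have hb := Module.Basis.mk hli hspan.ge
  have hcard : Fintype.card κ = e := by
    have := Module.finrank_eq_card_basis hb
    rw [Module.finrank_fin_fun] at this
    exact this.symm
  let eq : Fin e ≃ κ := (Fintype.equivFinOfCardEq hcard).symm
  refine ⟨fun k => (α (eq k), 1), ?_⟩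
  have h1 : LinearIndependent M (fun k : Fin e => pb (AG a) Q (α (eq k), 1)) :=
    hli.comp eq eq.injective
  have h2 : IsUnit (sk (pb (AG a) Q) fun k => (α (eq k), 1)) := by
    rw [← Matrix.linearIndependent_rows_iff_isUnit]
    exact h1
  exact ((Matrix.isUnit_iff_isUnit_det _).1 h2).ne_zero

/-- the forms do not vanish on the subspace -/
theorem pb_ne (A : (Fin d × (M ≃ₐ[ℚ] M)) → Fin d → M)
    (hA : ∀ x : Fin d → ℤ, x ≠ 0 → ∀ i, dot (A i) (exv M (qv x)) ≠ 0) {e : ℕ} (he : 1 ≤ e)
    (Q : Matrix (Fin d) (Fin e) ℤ) (hQ : ∀ z, Q.mulVec z = 0 → z = 0)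
    (i : Fin d × (M ≃ₐ[ℚ] M)) : pb A Q i ≠ 0 := by
  classical
  intro h
  have hz : (Pi.single (⟨0, he⟩ : Fin e) 1 : Fin e → ℤ) ≠ 0 := by
    intro h0
    have := congrFun h0 ⟨0, he⟩
    simp at this
  have h1 := hA (Q.mulVec (Pi.single ⟨0, he⟩ 1)) (fun h0 => hz (hQ _ h0)) i
  apply h1
  rw [← dot_pb, h]
  simp [dot]

/-! ### the action of the Galois group on subspaces -/

/-- the conjugate of a subspace -/
def act (σ : M ≃ₐ[ℚ] M) (U : Submodule M (Fin d → M)) : Submodule M (Fin d → M) where
  carrier := {v | (fun j => σ.symm (v j)) ∈ U}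
  add_mem' := by
    intro v w hv hw
    have := U.add_mem hv hw
    refine (congrArg (· ∈ U) ?_).mp this
    funext j
    simp
  zero_mem' := by
    have := U.zero_mem
    refine (congrArg (· ∈ U) ?_).mp this
    funext j
    simp
  smul_mem' := by
    intro c v hv
    have := U.smul_mem (σ.symm c) hv
    refine (congrArg (· ∈ U) ?_).mp this
    funext j
    simp

lemma mem_act {σ : M ≃ₐ[ℚ] M} {U : Submodule M (Fin d → M)} {v : Fin d → M} :
    v ∈ act σ U ↔ (fun j => σ.symm (v j)) ∈ U := Iff.rfl

lemma map_mem_act {σ : M ≃ₐ[ℚ] M} {U : Submodule M (Fin d → M)} {v : Fin d → M} :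
    (fun j => σ (v j)) ∈ act σ U ↔ v ∈ U := by
  rw [mem_act]
  simp

lemma act_one (U : Submodule M (Fin d → M)) : act 1 U = U := by
  ext v
  rw [mem_act]
  rfl

lemma act_mul (σ τ : M ≃ₐ[ℚ] M) (U : Submodule M (Fin d → M)) :
    act (σ * τ) U = act σ (act τ U) := by
  ext v
  rw [mem_act, mem_act, mem_act]
  rfl

lemma act_inf (σ : M ≃ₐ[ℚ] M) (U V : Submodule M (Fin d → M)) :
    act σ (U ⊓ V) = act σ U ⊓ act σ V := by
  ext v
  rw [Submodule.mem_inf, mem_act, mem_act, mem_act, Submodule.mem_inf]

lemma act_mono (σ : M ≃ₐ[ℚ] M) {U V : Submodule M (Fin d → M)} (h : U ≤ V) :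
    act σ U ≤ act σ V := fun _ hv => h hv

lemma finrank_act (σ : M ≃ₐ[ℚ] M) (U : Submodule M (Fin d → M)) :
    Module.finrank M (act σ U) = Module.finrank M U := by
  have h : Module.rank M U = Module.rank M (act σ U) := by
    refine rank_eq_of_equiv_equiv (R := M) (R' := M) (M := U) (M₁ := act σ U)
      (σ : M → M) ?_ σ.bijective ?_
    · exact
        { toFun := fun v => ⟨fun j => σ ((v : Fin d → M) j), map_mem_act.2 v.2⟩
          invFun := fun v => ⟨fun j => σ.symm ((v : Fin d → M) j), v.2⟩
          left_inv := fun v => by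
            apply Subtype.ext
            funext j
            simp
          right_inv := fun v => by
            apply Subtype.ext
            funext j
            simp
          map_add' := fun v w => by
            apply Subtype.ext
            funext j
            simp }
    · intro r m
      apply Subtype.ext
      funext j
      simp
  unfold Module.finrank
  rw [h]

/-- the span of some of the rows -/
def Lsp (a : Matrix (Fin d) (Fin d) M) (J : Finset (Fin d)) : Submodule M (Fin d → M) :=
  Submodule.span M ((fun i => a i) '' (J : Set (Fin d)))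

end Pool.Agent.KS6_27.NV
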