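import Mathlib
import Pool.Agent.KS6_27.NV5
import Pool.Agent.KS6_27.Sub

/-! # The conjugates of the forms are stable unless the Galois group permutes the forms -/

set_option autoImplicit false
set_option linter.unusedSectionVars false

open Finset Matrix NumberField IsDedekindDomain Height Module

namespace Pool.Agent.KS6_27.NV

open Pool.Agent.W180.OP (Pl av wt nrm le_nrm nrm_pos nrm_nonneg exists_nrm wt_nonneg)
open Pool.Agent.R405 (exv exv_ne dot schV Good exists_good descend)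

variable {d : ℕ} {M : Type} [Field M] [NumberField M]

lemma rows_li {a : Matrix (Fin d) (Fin d) M} (ha : a.det ≠ 0) : LinearIndependent M fun i => a i := by
  have h1 : IsUnit a := (Matrix.isUnit_iff_isUnit_det _).2 (IsUnit.mk0 _ ha)
  exact Matrix.linearIndependent_rows_iff_isUnit.2 h1

lemma mem_Lsp {a : Matrix (Fin d) (Fin d) M} (ha : a.det ≠ 0) (J : Finset (Fin d))
    (v : Fin d → M) : v ∈ Lsp a J ↔ ∀ i, i ∉ J → (v ᵥ* a⁻¹) i = 0 := by
  classical
  have hu : IsUnit a.det := IsUnit.mk0 _ ha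
  have hrow : ∀ i, (a i) ᵥ* a⁻¹ = Pi.single i 1 := by
    intro i
    have h1 : a * a⁻¹ = 1 := Matrix.mul_nonsing_inv _ hu
    funext j
    have := congrFun (congrFun h1 i) j
    rw [Matrix.mul_apply] at this
    rw [Matrix.vecMul, dotProduct, this, Matrix.one_apply, Pi.single_apply]
    by_cases h : i = j
    · simp [h]
    · simp [h, Ne.symm h]
  constructor
  · intro hv
    induction hv using Submodule.span_induction with
    | mem x hx =>
      obtain ⟨k, hk, rfl⟩ := hx
      intro i hi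
      simp only
      rw [hrow, Pi.single_eq_of_ne]
      rintro rfl
      exact hi hk
    | zero =>
      intro i _
      rw [Matrix.zero_vecMul, Pi.zero_apply]
    | add x y _ _ hx hy =>
      intro i hi
      rw [Matrix.add_vecMul, Pi.add_apply, hx i hi, hy i hi, add_zero]
    | smul c x _ hx =>
      intro i hi
      rw [Matrix.smul_vecMul, Pi.smul_apply, hx i hi, smul_zero]
  · intro h
    have h1 : v = ∑ i, (v ᵥ* a⁻¹) i • a i := by
      have h2 : (v ᵥ* a⁻¹) ᵥ* a = v := by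
        rw [Matrix.vecMul_vecMul, Matrix.nonsing_inv_mul _ hu, Matrix.vecMul_one]
      funext j
      rw [Finset.sum_apply]
      conv_lhs => rw [← h2]
      rw [Matrix.vecMul, dotProduct]
      rfl
    rw [h1]
    refine Submodule.sum_mem _ fun i _ => ?_
    by_cases hi : i ∈ J
    · exact Submodule.smul_mem _ _ (Submodule.subset_span ⟨i, hi, rfl⟩)
    · rw [h i hi, zero_smul]
      exact Submodule.zero_mem _

lemma Lsp_inter {a : Matrix (Fin d) (Fin d) M} (ha : a.det ≠ 0) (J K : Finset (Fin d)) :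
    Lsp a (J ∩ K) = Lsp a J ⊓ Lsp a K := by
  ext v
  rw [Submodule.mem_inf, mem_Lsp ha, mem_Lsp ha, mem_Lsp ha]
  constructor
  · intro h
    exact ⟨fun i hi => h i fun h' => hi (Finset.mem_inter.1 h').1,
      fun i hi => h i fun h' => hi (Finset.mem_inter.1 h').2⟩
  · rintro ⟨h1, h2⟩ i hi
    by_cases hJ : i ∈ J
    · exact h2 i fun h' => hi (Finset.mem_inter.2 ⟨hJ, h'⟩)
    · exact h1 i hJ

lemma row_mem_Lsp {a : Matrix (Fin d) (Fin d) M} (ha : a.det ≠ 0) (J : Finset (Fin d))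
    (i : Fin d) : a i ∈ Lsp a J ↔ i ∈ J := by
  constructor
  · intro h
    by_contra hi
    have h1 := (mem_Lsp ha J _).1 h i hi
    have hu : IsUnit a.det := IsUnit.mk0 _ ha
    have h2 : a * a⁻¹ = 1 := Matrix.mul_nonsing_inv _ hu
    have h3 := congrFun (congrFun h2 i) i
    rw [Matrix.mul_apply, Matrix.one_apply_eq] at h3
    rw [Matrix.vecMul, dotProduct, h3] at h1
    exact one_ne_zero h1
  · intro h
    exact Submodule.subset_span ⟨i, h, rfl⟩

lemma Lsp_mono {a : Matrix (Fin d) (Fin d) M} {J K : Finset (Fin d)} (h : J ⊆ K) :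
    Lsp a J ≤ Lsp a K := Submodule.span_mono (Set.image_mono (by exact_mod_cast h))

lemma Lsp_inj {a : Matrix (Fin d) (Fin d) M} (ha : a.det ≠ 0) {J K : Finset (Fin d)}
    (h : Lsp a J = Lsp a K) : J = K := by
  ext i
  rw [← row_mem_Lsp ha J, ← row_mem_Lsp ha K, h]

lemma finrank_Lsp {a : Matrix (Fin d) (Fin d) M} (ha : a.det ≠ 0) (J : Finset (Fin d)) :
    Module.finrank M (Lsp a J) = J.card := by
  classical
  have h1 : LinearIndependent M (fun i : J => a (i : Fin d)) :=
    (rows_li ha).comp _ Subtype.val_injective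
  have h2 := finrank_span_eq_card h1
  rw [Fintype.card_coe] at h2
  have hset : (fun i => a i) '' (J : Set (Fin d)) = Set.range fun i : J => a (i : Fin d) := by
    ext v
    constructor
    · rintro ⟨i, hi, rfl⟩
      exact ⟨⟨i, hi⟩, rfl⟩
    · rintro ⟨i, rfl⟩
      exact ⟨i, i.2, rfl⟩
  rw [Lsp, hset, h2]

/-- the conjugates of a span of rows which lie in a subspace -/
lemma act_Lsp_le {a : Matrix (Fin d) (Fin d) M} (σ : M ≃ₐ[ℚ] M) (J : Finset (Fin d))
    (U : Submodule M (Fin d → M)) (h : ∀ i ∈ J, AG a (i, σ) ∈ U) : act σ (Lsp a J) ≤ U := by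
  have h1 : Lsp a J ≤ act σ⁻¹ U := by
    rw [Lsp, Submodule.span_le]
    rintro _ ⟨i, hi, rfl⟩
    exact h i hi
  intro v hv
  have h2 := h1 (mem_act.1 hv)
  rw [mem_act] at h2
  refine (congrArg (· ∈ U) ?_).mp h2
  funext j
  change σ (σ.symm (v j)) = v j
  simp

/-- **Coordinate subspaces all of whose conjugates are coordinate subspaces.** -/
def Fam (a : Matrix (Fin d) (Fin d) M) (J : Finset (Fin d)) : Prop :=
  ∀ σ : M ≃ₐ[ℚ] M, ∃ J' : Finset (Fin d), act σ (Lsp a J) = Lsp a J'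

lemma Fam.inter {a : Matrix (Fin d) (Fin d) M} (ha : a.det ≠ 0) {J K : Finset (Fin d)}
    (hJ : Fam a J) (hK : Fam a K) : Fam a (J ∩ K) := by
  intro σ
  obtain ⟨J', hJ'⟩ := hJ σ
  obtain ⟨K', hK'⟩ := hK σ
  exact ⟨J' ∩ K', by rw [Lsp_inter ha, act_inf, hJ', hK', ← Lsp_inter ha]⟩

lemma Fam.conj {a : Matrix (Fin d) (Fin d) M} {J J' : Finset (Fin d)}
    (hJ : Fam a J) {σ : M ≃ₐ[ℚ] M} (h : act σ (Lsp a J) = Lsp a J') : Fam a J' := by
  intro τ
  obtain ⟨K, hK⟩ := hJ (τ * σ)
  exact ⟨K, by rw [← h, ← act_mul, hK]⟩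

/-- an unstable system contains a proper member of the family -/
theorem exists_fam {a : Matrix (Fin d) (Fin d) M} (ha : a.det ≠ 0) (hns : ¬ Stab (AG a)) :
    ∃ B : Finset (Fin d), Fam a B ∧ B.Nonempty ∧ B.card < d := by
  classical
  unfold Stab at hns
  push Not at hns
  obtain ⟨b, hb, κ, hκ0, hκ1, hle⟩ := hns
  set U := spn (AG a) b κ with hU
  have hUr : Module.finrank M U ≤ κ.card := by
    rw [hU, spn, ← Finset.coe_image]
    exact (finrank_span_finset_le_card _).trans Finset.card_image_le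
  have hκd : κ.card < d := by
    obtain ⟨x, hx⟩ : ∃ x, x ∉ κ := by
      by_contra hcon
      push Not at hcon
      exact hκ1 (Finset.eq_univ_iff_forall.2 hcon)
    have := Finset.card_lt_univ_of_notMem hx
    simpa using this
  have hκp : 0 < κ.card := Finset.card_pos.2 hκ0
  set I : (M ≃ₐ[ℚ] M) → Finset (Fin d) := fun σ => Finset.univ.filter fun i => AG a (i, σ) ∈ U
    with hI
  have hIU : ∀ σ, act σ (Lsp a (I σ)) ≤ U := fun σ =>
    act_Lsp_le σ _ U fun i hi => (Finset.mem_filter.1 hi).2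
  have hIc : ∀ σ, (I σ).card ≤ Module.finrank M U := by
    intro σ
    have h1 := Submodule.finrank_mono (hIU σ)
    rwa [finrank_act, finrank_Lsp ha] at h1
  have hcard : Nat.card {q : Fin d × (M ≃ₐ[ℚ] M) // AG a q ∈ U} = ∑ σ, (I σ).card := by
    rw [Nat.card_eq_fintype_card, Fintype.card_subtype, Finset.card_filter,
      Fintype.sum_prod_type_right]
    refine Finset.sum_congr rfl fun σ _ => ?_
    rw [hI, Finset.card_filter]
  rw [hcard, Fintype.card_prod, Fintype.card_fin] at hle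
  have hd0 : 0 < d := by omega
  have hle2 : Fintype.card (M ≃ₐ[ℚ] M) * κ.card ≤ ∑ σ, (I σ).card := by
    rw [mul_assoc] at hle
    exact Nat.le_of_mul_le_mul_left hle hd0
  have hsum : ∑ _σ : M ≃ₐ[ℚ] M, κ.card ≤ ∑ σ, (I σ).card := by
    rw [Finset.sum_const, Finset.card_univ, smul_eq_mul]
    exact hle2
  have heq : ∀ σ, (I σ).card = κ.card := by
    by_contra hcon
    push Not at hcon
    obtain ⟨σ, hσ⟩ := hcon
    have h1 : ∑ σ, (I σ).card < ∑ _σ : M ≃ₐ[ℚ] M, κ.card :=
      Finset.sum_lt_sum (fun τ _ => (hIc τ).trans hUr)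
        ⟨σ, Finset.mem_univ _, lt_of_le_of_ne ((hIc σ).trans hUr) hσ⟩
    omega
  have hUeq : ∀ σ, act σ (Lsp a (I σ)) = U := by
    intro σ
    refine Submodule.eq_of_le_of_finrank_le (hIU σ) ?_
    rw [finrank_act, finrank_Lsp ha, heq σ]
    exact hUr
  refine ⟨I 1, fun σ => ⟨I σ⁻¹, ?_⟩, ?_, ?_⟩
  · have h1 := hUeq 1
    rw [act_one] at h1
    rw [h1, ← hUeq σ⁻¹, ← act_mul, mul_inv_cancel, act_one]
  · rw [← Finset.card_pos, heq]
    exact hκp
  · rw [heq]
    exact hκd

lemma map_row_ne {a : Matrix (Fin d) (Fin d) M} (ha : a.det ≠ 0) (σ : M ≃ₐ[ℚ] M) (i : Fin d) :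
    (fun j => σ (a i j)) ≠ 0 := by
  intro h
  have h1 : a i = 0 := by
    funext j
    have := congrFun h j
    simpa using this
  exact ha (Matrix.det_eq_zero_of_row_eq_zero i fun j => congrFun h1 j)

/-- a subspace spanned by rows which is stable under the Galois group contains all the rows -/
theorem full_of_stable [IsGalois ℚ M] {a : Matrix (Fin d) (Fin d) M} (ha : a.det ≠ 0)
    (hA : ∀ x : Fin d → ℤ, x ≠ 0 → ∀ i, dot (AG a i) (exv M (qv x)) ≠ 0)
    (C : Finset (Fin d)) (hC0 : C.Nonempty)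
    (hC : ∀ i ∈ C, ∀ σ : M ≃ₐ[ℚ] M, (fun j => σ (a i j)) ∈ Lsp a C) : C = Finset.univ := by
  classical
  by_contra hne
  obtain ⟨i₀, hi₀⟩ : ∃ x, x ∉ C := by
    by_contra hcon
    push Not at hcon
    exact hne (Finset.eq_univ_iff_forall.2 hcon)
  have hu : IsUnit a.det := IsUnit.mk0 _ ha
  have h1 : a * a⁻¹ = 1 := Matrix.mul_nonsing_inv _ hu
  -- a vector killed by the rows in `C`
  obtain ⟨j₀, hj₀⟩ : ∃ j, a⁻¹ j i₀ ≠ 0 := by
    by_contra hcon
    push Not at hcon
    have := congrFun (congrFun h1 i₀) i₀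
    rw [Matrix.mul_apply, Matrix.one_apply_eq] at this
    simp only [hcon, mul_zero, Finset.sum_const_zero] at this
    exact zero_ne_one this
  set v : Fin d → M := fun j => (a⁻¹ j₀ i₀)⁻¹ * a⁻¹ j i₀ with hv
  have hvj : v j₀ = 1 := inv_mul_cancel₀ hj₀
  have hkill : ∀ u ∈ Lsp a C, ∑ j, u j * v j = 0 := by
    intro u hu'
    induction hu' using Submodule.span_induction with
    | mem x hx =>
      obtain ⟨k, hk, rfl⟩ := hx
      have hne : k ≠ i₀ := fun h => hi₀ (h ▸ hk)
      have h2 := congrFun (congrFun h1 k) i₀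
      rw [Matrix.mul_apply, Matrix.one_apply_ne hne] at h2
      calc ∑ j, a k j * v j = (a⁻¹ j₀ i₀)⁻¹ * ∑ j, a k j * a⁻¹ j i₀ := by
            rw [Finset.mul_sum]
            exact Finset.sum_congr rfl fun j _ => by rw [hv]; ring
        _ = 0 := by rw [h2, mul_zero]
    | zero => simp
    | add x y _ _ hx hy =>
      simp only [Pi.add_apply, add_mul, Finset.sum_add_distrib, hx, hy, add_zero]
    | smul c x _ hx =>
      simp only [Pi.smul_apply, smul_eq_mul, mul_assoc, ← Finset.mul_sum, hx, mul_zero]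
  -- the trace
  set w : Fin d → M := fun j => ∑ σ : M ≃ₐ[ℚ] M, σ (v j) with hw
  have hwj : w j₀ ≠ 0 := by
    rw [hw]
    simp only [hvj, map_one, Finset.sum_const, Finset.card_univ, nsmul_eq_mul, mul_one]
    exact_mod_cast Fintype.card_ne_zero
  have hwQ : ∀ j, ∃ q : ℚ, algebraMap ℚ M q = w j := by
    intro j
    have h2 : w j ∈ (⊥ : IntermediateField ℚ M) := by
      rw [IsGalois.mem_bot_iff_fixed]
      intro τ
      rw [hw]
      simp only [map_sum]
      exact Fintype.sum_equiv (Equiv.mulLeft τ) _ _ fun σ => rfl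
    exact IntermediateField.mem_bot.1 h2
  choose q hq using hwQ
  obtain ⟨N, hN0, hN⟩ := exists_den q
  choose z hz using hN
  have hzne : z ≠ 0 := by
    intro h
    have h2 := hz j₀
    rw [h, Pi.zero_apply, Int.cast_zero] at h2
    have h3 : q j₀ = 0 := by
      rcases mul_eq_zero.1 h2 with h4 | h4
      · exact absurd h4 (by exact_mod_cast hN0.ne')
      · exact h4
    apply hwj
    rw [← hq, h3, map_zero]
  obtain ⟨i, hi⟩ := hC0
  refine hA z hzne (i, 1) ?_
  unfold dot exv qv AG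
  have h3 : ∀ j, algebraMap ℚ M (((Int.cast : ℤ → ℚ) ∘ z) j) = (N : M) * w j := by
    intro j
    rw [Function.comp, ← hz, map_mul, hq, map_natCast]
  simp only [h3, AlgEquiv.one_apply]
  have h4 : ∑ j, a i j * ((N : M) * w j) = N * ∑ σ : M ≃ₐ[ℚ] M, ∑ j, a i j * σ (v j) := by
    rw [Finset.sum_comm, Finset.mul_sum]
    refine Finset.sum_congr rfl fun j _ => ?_
    rw [← Finset.mul_sum, hw]
    ring
  rw [h4]
  have h5 : ∀ σ : M ≃ₐ[ℚ] M, ∑ j, a i j * σ (v j) = 0 := by
    intro σ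
    have h6 := hkill _ (hC i hi σ.symm)
    have h7 := congrArg σ h6
    rw [map_sum, map_zero] at h7
    rw [← h7]
    refine Finset.sum_congr rfl fun j _ => ?_
    have h8 : σ (σ.symm (a i j) * v j) = a i j * σ (v j) := by
      rw [map_mul]
      congr 1
      exact σ.apply_symm_apply _
    exact h8.symm
  simp only [h5, Finset.sum_const_zero, mul_zero]

/-- **For prime `d` the conjugates of the forms are stable unless the Galois group permutes the
forms up to factors.** -/
theorem permutes (hd : d.Prime) [IsGalois ℚ M] {a : Matrix (Fin d) (Fin d) M} (ha : a.det ≠ 0)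
    (hA : ∀ x : Fin d → ℤ, x ≠ 0 → ∀ i, dot (AG a i) (exv M (qv x)) ≠ 0)
    (hns : ¬ Stab (AG a)) (τ : M ≃ₐ[ℚ] M) :
    ∃ (π : Fin d → Fin d) (c : Fin d → M), Function.Injective π ∧ (∀ i, c i ≠ 0) ∧
      ∀ i j, τ (a i j) = c i * a (π i) j := by
  classical
  obtain ⟨B, hB, hB0, hBd⟩ := exists_fam ha hns
  -- a smallest member
  obtain ⟨J, hJ, hJmin⟩ := Finset.exists_min_image
    (Finset.univ.filter fun J : Finset (Fin d) => Fam a J ∧ J.Nonempty) (fun J => J.card)
    ⟨B, Finset.mem_filter.2 ⟨Finset.mem_univ _, hB, hB0⟩⟩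
  obtain ⟨hJF, hJ0⟩ := (Finset.mem_filter.1 hJ).2
  have hmin : ∀ K : Finset (Fin d), Fam a K → K.Nonempty → J.card ≤ K.card := fun K h1 h2 =>
    hJmin K (Finset.mem_filter.2 ⟨Finset.mem_univ _, h1, h2⟩)
  have hJd : J.card < d := (hmin B hB hB0).trans_lt hBd
  choose Js hJs using hJF
  have hJsF : ∀ σ, Fam a (Js σ) := fun σ => Fam.conj (fun τ => ⟨_, hJs τ⟩) (hJs σ)
  have hJsc : ∀ σ, (Js σ).card = J.card := by
    intro σ
    rw [← finrank_Lsp ha, ← hJs σ, finrank_act, finrank_Lsp ha]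
  have hJs0 : ∀ σ, (Js σ).Nonempty := fun σ => by
    rw [← Finset.card_pos, hJsc σ]
    exact Finset.card_pos.2 hJ0
  have hdisj : ∀ σ τ, Js σ = Js τ ∨ Disjoint (Js σ) (Js τ) := by
    intro σ τ
    rcases (Js σ ∩ Js τ).eq_empty_or_nonempty with h | h
    · exact Or.inr (Finset.disjoint_iff_inter_eq_empty.2 h)
    · left
      have h1 := hmin _ ((hJsF σ).inter ha (hJsF τ)) h
      have h2 : Js σ ∩ Js τ = Js σ :=
        Finset.eq_of_subset_of_card_le Finset.inter_subset_left (by rw [hJsc]; exact h1)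
      have h3 : Js σ ∩ Js τ = Js τ :=
        Finset.eq_of_subset_of_card_le Finset.inter_subset_right (by rw [hJsc]; exact h1)
      rw [← h2, h3]
  have hmul : ∀ σ τ, act σ (Lsp a (Js τ)) = Lsp a (Js (σ * τ)) := by
    intro σ τ
    rw [← hJs, ← hJs, act_mul]
  set C : Finset (Fin d) := (Finset.univ.image Js).biUnion id with hC
  have hmemC : ∀ i, i ∈ C ↔ ∃ σ, i ∈ Js σ := by
    intro i
    rw [hC, Finset.mem_biUnion]
    constructor
    · rintro ⟨K, hK, hi⟩
      obtain ⟨σ, -, rfl⟩ := Finset.mem_image.1 hK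
      exact ⟨σ, hi⟩
    · rintro ⟨σ, hi⟩
      exact ⟨Js σ, Finset.mem_image_of_mem _ (Finset.mem_univ _), hi⟩
  have hCu : C = Finset.univ := by
    refine full_of_stable ha hA C ?_ ?_
    · obtain ⟨i, hi⟩ := hJs0 1
      exact ⟨i, (hmemC i).2 ⟨1, hi⟩⟩
    · intro i hi σ
      obtain ⟨τ, hτ⟩ := (hmemC i).1 hi
      have h1 : (fun j => σ (a i j)) ∈ act σ (Lsp a (Js τ)) :=
        map_mem_act.2 ((row_mem_Lsp ha _ _).2 hτ)
      rw [hmul] at h1
      exact Lsp_mono (fun k hk => (hmemC k).2 ⟨_, hk⟩) h1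
  have hcard : (Finset.univ.image Js).card * J.card = d := by
    have h1 : C.card = ∑ K ∈ Finset.univ.image Js, K.card := by
      rw [hC, Finset.card_biUnion]
      · rfl
      · intro K hK K' hK' hne
        obtain ⟨σ, -, rfl⟩ := Finset.mem_image.1 hK
        obtain ⟨σ', -, rfl⟩ := Finset.mem_image.1 hK'
        rcases hdisj σ σ' with h | h
        · exact absurd h hne
        · exact h
    rw [hCu, Finset.card_univ, Fintype.card_fin] at h1
    have h2 : ∑ K ∈ Finset.univ.image Js, K.card = (Finset.univ.image Js).card * J.card := by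
      refine Finset.sum_const_nat ?_
      intro K hK
      obtain ⟨σ, -, rfl⟩ := Finset.mem_image.1 hK
      exact hJsc σ
    rw [← h2]
    exact h1.symm
  have hJ1 : J.card = 1 := by
    rcases (Nat.dvd_prime hd).1 ⟨_, by rw [mul_comm]; exact hcard.symm⟩ with h | h
    · exact h
    · omega
  have hsing : ∀ σ, ∃ i, Js σ = {i} := fun σ => Finset.card_eq_one.1 (by rw [hJsc, hJ1])
  have hrow : ∀ i : Fin d, ∃ i', act τ (Lsp a {i}) = Lsp a {i'} := by
    intro i
    have hi : i ∈ C := by rw [hCu]; exact Finset.mem_univ _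
    obtain ⟨σ, hσ⟩ := (hmemC i).1 hi
    obtain ⟨k, hk⟩ := hsing σ
    obtain ⟨i', hi'⟩ := hsing (τ * σ)
    have hik : i = k := by rw [hk] at hσ; exact Finset.mem_singleton.1 hσ
    refine ⟨i', ?_⟩
    rw [hik, ← hk, hmul, hi']
  choose π hπ using hrow
  have hc : ∀ i, ∃ c : M, ∀ j, τ (a i j) = c * a (π i) j := by
    intro i
    have h1 : (fun j => τ (a i j)) ∈ act τ (Lsp a {i}) :=
      map_mem_act.2 ((row_mem_Lsp ha _ _).2 (Finset.mem_singleton_self i))
    rw [hπ, Lsp, Finset.coe_singleton, Set.image_singleton, Submodule.mem_span_singleton] at h1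
    obtain ⟨c, hc⟩ := h1
    refine ⟨c, fun j => ?_⟩
    have := congrFun hc j
    rw [← this]
    rfl
  choose c hc using hc
  refine ⟨π, c, ?_, ?_, hc⟩
  · intro i i' h
    have h1 : act τ (Lsp a {i}) = act τ (Lsp a {i'}) := by rw [hπ, hπ, h]
    have h2 := congrArg (act τ⁻¹) h1
    rw [← act_mul, ← act_mul, inv_mul_cancel, act_one, act_one] at h2
    exact Finset.singleton_injective (Lsp_inj ha h2)
  · intro i h0
    apply map_row_ne ha τ i
    funext j
    rw [hc, h0, zero_mul, Pi.zero_apply]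

end Pool.Agent.KS6_27.NV
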