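import Mathlib
import Pool.Agent.KS6_27.NV6
import Pool.Graph.R_pool_sql_team_seeded_3997aac3.Q118.VC.Tools

/-! # Norms of the values and places of the rationals -/

set_option autoImplicit false
set_option linter.unusedSectionVars false

open Finset Matrix NumberField IsDedekindDomain Height Module

namespace Pool.Agent.KS6_27.NV

open Pool.Agent.W180.OP (Pl av wt nrm le_nrm nrm_pos nrm_nonneg exists_nrm wt_nonneg
  fv_support_finite)
open Pool.Agent.R405 (exv exv_ne dot schV Good exists_good descend)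

/-! ### places of the rationals -/

lemma fin_le_one (v : HeightOneSpectrum (𝓞 ℚ)) (n : ℕ) : av (Sum.inr v : Pl ℚ) (n : ℚ) ≤ 1 := by
  have hv : IsNonarchimedean ((FinitePlace.mk v : FinitePlace ℚ) ·) := FinitePlace.add_le _
  exact IsNonarchimedean.apply_natCast_le_one hv

lemma fin_prod {n : ℕ} (hn : n ≠ 0) (T : Finset (HeightOneSpectrum (𝓞 ℚ)))
    (hT : ∀ v, av (Sum.inr v : Pl ℚ) (n : ℚ) ≠ 1 → v ∈ T) :
    ∑ v ∈ T, Real.log (av (Sum.inr v : Pl ℚ) (n : ℚ)) = -Real.log n := by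
  have hnQ : (n : ℚ) ≠ 0 := by exact_mod_cast hn
  have h1 := NumberField.prod_abs_eq_one (K := ℚ) hnQ
  rw [← finprod_comp_equiv FinitePlace.equivHeightOneSpectrum.symm] at h1
  have hnR : (n : ℝ) ≠ 0 := by exact_mod_cast hn
  have h2 : ∏ᶠ v : HeightOneSpectrum (𝓞 ℚ), av (Sum.inr v : Pl ℚ) (n : ℚ) = (n : ℝ)⁻¹ := by
    have h3 : ∏ w : InfinitePlace ℚ, w (n : ℚ) ^ w.mult = (n : ℝ) := by
      rw [Fintype.prod_subsingleton _ Rat.infinitePlace]
      have h4 : (Rat.infinitePlace).mult = 1 := by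
        rw [InfinitePlace.mult, if_pos Rat.isReal_infinitePlace]
      rw [h4, pow_one, Rat.infinitePlace_apply]
      simp
    rw [h3] at h1
    refine (eq_inv_of_mul_eq_one_right h1).symm ▸ ?_
    rfl
  rw [finprod_eq_prod_of_mulSupport_subset _ (s := T) (fun v hv => hT v hv)] at h2
  rw [← Real.log_prod, h2, Real.log_inv]
  intro v _
  exact ((av (Sum.inr v : Pl ℚ)).pos_iff.2 hnQ).ne'

lemma fin_sum_ge {n : ℕ} (hn : n ≠ 0) (T : Finset (HeightOneSpectrum (𝓞 ℚ))) :
    -Real.log n ≤ ∑ v ∈ T, Real.log (av (Sum.inr v : Pl ℚ) (n : ℚ)) := by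
  classical
  have hnQ : (n : ℚ) ≠ 0 := by exact_mod_cast hn
  have hfin : {v : HeightOneSpectrum (𝓞 ℚ) | Pool.Agent.W180.OP.fv v (n : ℚ) ≠ 1}.Finite := fv_support_finite hnQ
  have h1 := fin_prod hn (T ∪ hfin.toFinset) (fun v hv =>
    Finset.mem_union_right _ (hfin.mem_toFinset.2 hv))
  have h5 : ∑ v ∈ T, -Real.log (av (Sum.inr v : Pl ℚ) (n : ℚ)) ≤
      ∑ v ∈ T ∪ hfin.toFinset, -Real.log (av (Sum.inr v : Pl ℚ) (n : ℚ)) :=
    Finset.sum_le_sum_of_subset_of_nonneg Finset.subset_union_left fun v _ _ =>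
      neg_nonneg.2 (Real.log_nonpos ((av (Sum.inr v : Pl ℚ)).nonneg _) (fin_le_one v n))
  simp only [Finset.sum_neg_distrib] at h5
  linarith

/-- the finite places which are not trivial at the numbers in `S` -/
noncomputable def plS (S : Finset ℕ) : Finset (HeightOneSpectrum (𝓞 ℚ)) := by
  classical
  exact S.biUnion fun p => if hp : p ≠ 0 then
    (fv_support_finite (x := (p : ℚ)) (by exact_mod_cast hp)).toFinset else ∅

lemma mem_plS {S : Finset ℕ} {p : ℕ} (hp : p ∈ S) (hp0 : p ≠ 0) {v : HeightOneSpectrum (𝓞 ℚ)}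
    (hv : av (Sum.inr v : Pl ℚ) (p : ℚ) ≠ 1) : v ∈ plS S := by
  classical
  unfold plS
  rw [Finset.mem_biUnion]
  refine ⟨p, hp, ?_⟩
  rw [dif_pos hp0, Set.Finite.mem_toFinset]
  exact hv

lemma supp_plS {S : Finset ℕ} {A : ℕ} (hA : A ≠ 0) (h : ∀ p : ℕ, p.Prime → p ∣ A → p ∈ S)
    {v : HeightOneSpectrum (𝓞 ℚ)} (hv : v ∉ plS S) : av (Sum.inr v : Pl ℚ) (A : ℚ) = 1 := by
  induction A using Nat.recOnMul with
  | zero => exact absurd rfl hA
  | one => simp
  | prime p hp =>
    by_contra hcon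
    exact hv (mem_plS (h p hp dvd_rfl) hp.ne_zero hcon)
  | mul a b iha ihb =>
    rw [Nat.cast_mul, map_mul, iha (left_ne_zero_of_mul hA) fun p hp hpa => h p hp
      (hpa.mul_right b), ihb (right_ne_zero_of_mul hA) fun p hp hpb => h p hp (hpb.mul_left a),
      one_mul]

/-- the places over `S` and the infinite place -/
noncomputable def PS (S : Finset ℕ) : Finset (Pl ℚ) := by
  classical
  exact insert (Sum.inl Rat.infinitePlace) ((plS S).image Sum.inr)

/-- **The part of a rational number outside of `S`.** -/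
theorem sum_places_le {c : ℚ} (hc : c ≠ 0) (S : Finset ℕ) {A B : ℕ} (hAB : c.num.natAbs = A * B)
    (hA : ∀ p : ℕ, p.Prime → p ∣ A → p ∈ S) :
    ∑ v ∈ PS S, wt v * Real.log (av v c) ≤ Real.log B := by
  classical
  have hnum : c.num.natAbs ≠ 0 := by
    rw [Int.natAbs_ne_zero]
    exact Rat.num_ne_zero.2 hc
  have hA0 : A ≠ 0 := fun h => hnum (by rw [hAB, h, zero_mul])
  have hB0 : B ≠ 0 := fun h => hnum (by rw [hAB, h, mul_zero])
  have hD0 : c.den ≠ 0 := c.den_ne_zero
  have hABQ : (A : ℚ) * B ≠ 0 := by exact_mod_cast mul_ne_zero hA0 hB0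
  have hDQ : (c.den : ℚ) ≠ 0 := by exact_mod_cast hD0
  have hav : ∀ v : Pl ℚ, Real.log (av v c) =
      Real.log (av v (A : ℚ)) + Real.log (av v (B : ℚ)) - Real.log (av v (c.den : ℚ)) := by
    intro v
    have h1 : av v c = av v (A : ℚ) * av v (B : ℚ) / av v (c.den : ℚ) := by
      have h2 : av v ((c.num : ℤ) : ℚ) = av v (A : ℚ) * av v (B : ℚ) := by
        rw [← map_mul]
        have h3 : (((c.num.natAbs : ℕ) : ℤ) : ℚ) = (A : ℚ) * B := by
          rw [hAB]
          push_cast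
          ring
        rw [← h3]
        rcases Int.natAbs_eq c.num with h4 | h4
        · rw [← h4]
        · conv_lhs => rw [h4]
          rw [Int.cast_neg, AbsoluteValue.map_neg]
      rw [← h2, ← map_div₀, Rat.num_div_den]
    have e1 : av v (A : ℚ) ≠ 0 := ((av v).pos_iff.2 (by exact_mod_cast hA0)).ne'
    have e2 : av v (B : ℚ) ≠ 0 := ((av v).pos_iff.2 (by exact_mod_cast hB0)).ne'
    have e3 : av v (c.den : ℚ) ≠ 0 := ((av v).pos_iff.2 hDQ).ne'
    rw [h1, Real.log_div (mul_ne_zero e1 e2) e3, Real.log_mul e1 e2]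
  have hinl : ∀ n : ℕ, av (Sum.inl Rat.infinitePlace : Pl ℚ) (n : ℚ) = n := by
    intro n
    change Rat.infinitePlace (n : ℚ) = _
    rw [Rat.infinitePlace_apply]
    simp
  have hni : (Sum.inl Rat.infinitePlace : Pl ℚ) ∉ (plS S).image Sum.inr := by
    intro h
    obtain ⟨v, -, hv⟩ := Finset.mem_image.1 h
    cases hv
  unfold PS
  rw [Finset.sum_insert hni, wt_inl, one_mul, hav, hinl, hinl, hinl, Finset.sum_image (by
    intro a _ b _ h
    exact Sum.inr_injective h)]
  have h1 : ∀ v ∈ plS S, wt (Sum.inr v : Pl ℚ) * Real.log (av (Sum.inr v : Pl ℚ) c) =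
      Real.log (av (Sum.inr v : Pl ℚ) (A : ℚ)) + Real.log (av (Sum.inr v : Pl ℚ) (B : ℚ)) -
        Real.log (av (Sum.inr v : Pl ℚ) (c.den : ℚ)) := by
    intro v _
    rw [← hav]
    change (1 : ℝ) * _ = _
    rw [one_mul]
  rw [Finset.sum_congr rfl h1, Finset.sum_sub_distrib, Finset.sum_add_distrib]
  have h2 := fin_prod hA0 (plS S) (fun v hv => by
    by_contra hcon
    exact hv (supp_plS hA0 hA hcon))
  have h3 : ∑ v ∈ plS S, Real.log (av (Sum.inr v : Pl ℚ) (B : ℚ)) ≤ 0 :=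
    Finset.sum_nonpos fun v _ => Real.log_nonpos ((av (Sum.inr v : Pl ℚ)).nonneg _)
      (fin_le_one v B)
  have h4 := fin_sum_ge hD0 (plS S)
  linarith

/-! ### norms -/

variable {M : Type} [Field M] [NumberField M]

/-- the norm and the constant coefficient of the minimal polynomial -/
theorem norm_coeff (y : M) : ∃ m : ℕ, 1 ≤ m ∧ m ≤ Module.finrank ℚ M ∧
    |Algebra.norm ℚ y| = |(minpoly ℚ y).coeff 0| ^ m := by
  have hint : IsIntegral ℚ y := Algebra.IsIntegral.isIntegral y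
  refine ⟨Module.finrank (IntermediateField.adjoin ℚ {y}) M, Module.finrank_pos, ?_, ?_⟩
  · have h1 := Module.finrank_mul_finrank ℚ (IntermediateField.adjoin ℚ {y}) M
    have h2 : 0 < Module.finrank ℚ (IntermediateField.adjoin ℚ {y}) := by
      have : FiniteDimensional ℚ (IntermediateField.adjoin ℚ {y}) :=
        IntermediateField.adjoin.finiteDimensional hint
      exact Module.finrank_pos
    rw [← h1]
    exact Nat.le_mul_of_pos_left _ h2
  · rw [Algebra.norm_eq_norm_adjoin ℚ y, abs_pow, ← IntermediateField.adjoin.powerBasis_gen hint,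
      Algebra.PowerBasis.norm_gen_eq_coeff_zero_minpoly, abs_mul, abs_pow, abs_neg, abs_one,
      one_pow, one_mul, IntermediateField.adjoin.powerBasis_gen hint,
      IntermediateField.minpoly_gen]

end Pool.Agent.KS6_27.NV
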