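import Mathlib
import Pool.Agent.KS6_27.NV7
import Pool.Agent.KS6_27.AlgF
import Pool.Graph.R_seed8.TH286.GT.GrowD

/-! # Growth of the norms of the values of a form which is not integral -/

set_option autoImplicit false
set_option linter.unusedSectionVars false

open Finset Matrix NumberField IsDedekindDomain Height Module H715R2

namespace Pool.Agent.KS6_27.NV

open Pool.Agent.W180.OP (Pl av wt nrm le_nrm nrm_pos nrm_nonneg exists_nrm wt_nonneg)
open Pool.Agent.R405 (exv exv_ne dot schV Good exists_good descend)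

variable {d : ℕ}

section gal

variable {M : Type} [Field M] [NumberField M]

/-- the value of the form in the field -/
def Nx (a : Matrix (Fin d) (Fin d) M) (x : Fin d → ℤ) : M := ∏ i, ∑ j, a i j * (x j : M)

lemma phi_Nx (φ : M →+* ℂ) {g : Matrix (Fin d) (Fin d) ℝ} {a : Matrix (Fin d) (Fin d) M}
    (ha : ∀ i j, φ (a i j) = (g i j : ℂ)) (x : Fin d → ℤ) :
    φ (Nx a x) = ((FF g (iR x) : ℝ) : ℂ) := by
  unfold Nx FF iR
  rw [map_prod]
  push_cast
  refine Finset.prod_congr rfl fun i _ => ?_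
  rw [map_sum]
  refine Finset.sum_congr rfl fun j _ => ?_
  rw [map_mul, ha, map_intCast]

lemma dot_AG (a : Matrix (Fin d) (Fin d) M) (q : Fin d × (M ≃ₐ[ℚ] M)) (x : Fin d → ℤ) :
    dot (AG a q) (exv M (qv x)) = q.2 (∑ j, a q.1 j * (x j : M)) := by
  unfold dot AG exv qv
  rw [map_sum]
  refine Finset.sum_congr rfl fun j _ => ?_
  rw [map_mul, Function.comp, map_intCast, map_intCast]

/-- the forms are integral if the conjugates are not stable -/
theorem propInt_of_unstable (hd : d.Prime) [IsGalois ℚ M] (φ : M →+* ℂ)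
    {g : Matrix (Fin d) (Fin d) ℝ} {a : Matrix (Fin d) (Fin d) M}
    (ha : ∀ i j, φ (a i j) = (g i j : ℂ)) (hdet : a.det ≠ 0)
    (hA : ∀ x : Fin d → ℤ, x ≠ 0 → ∀ i, dot (AG a i) (exv M (qv x)) ≠ 0)
    (hns : ¬ Stab (AG a)) : PropInt g := by
  classical
  have hN0 : ∀ x : Fin d → ℤ, x ≠ 0 → Nx a x ≠ 0 := by
    intro x hx
    refine Finset.prod_ne_zero_iff.2 fun i _ => ?_
    have := hA x hx (i, 1)
    rwa [dot_AG] at this
  have hτ : ∀ τ : M ≃ₐ[ℚ] M, ∃ c : M, c ≠ 0 ∧ ∀ x, τ (Nx a x) = c * Nx a x := by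
    intro τ
    obtain ⟨π, c, hπ, hc0, hc⟩ := permutes hd hdet hA hns τ
    have hbij : Function.Bijective π := Finite.injective_iff_bijective.1 hπ
    refine ⟨∏ i, c i, Finset.prod_ne_zero_iff.2 fun i _ => hc0 i, fun x => ?_⟩
    unfold Nx
    rw [map_prod]
    have h1 : ∀ i, τ (∑ j, a i j * (x j : M)) = c i * ∑ j, a (π i) j * (x j : M) := by
      intro i
      rw [map_sum, Finset.mul_sum]
      refine Finset.sum_congr rfl fun j _ => ?_
      rw [map_mul, map_intCast, hc]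
      ring
    rw [Finset.prod_congr rfl fun i _ => h1 i, Finset.prod_mul_distrib]
    congr 1
    exact Function.Bijective.prod_comp hbij fun i => ∑ j, a i j * (x j : M)
  set y₀ : Fin d → ℤ := Pi.single ⟨0, hd.pos⟩ 1 with hy₀
  have hy0 : y₀ ≠ 0 := by
    intro h
    have := congrFun h ⟨0, hd.pos⟩
    simp [hy₀] at this
  have hNy := hN0 y₀ hy0
  have hF0 : FF g (iR y₀) ≠ 0 := by
    intro h
    apply hNy
    apply φ.injective
    rw [phi_Nx φ ha, h, map_zero]
    simp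
  refine Pool.Agent.Q118.VC.propInt_of_values hF0 fun x => ?_
  have h1 : Nx a x / Nx a y₀ ∈ (⊥ : IntermediateField ℚ M) := by
    rw [IsGalois.mem_bot_iff_fixed]
    intro τ
    obtain ⟨c, hc, h2⟩ := hτ τ
    rw [map_div₀, h2, h2, mul_div_mul_left _ _ hc]
  obtain ⟨q, hq⟩ := IntermediateField.mem_bot.1 h1
  rw [Submodule.mem_span_singleton]
  refine ⟨q, ?_⟩
  have h2 : Nx a x = algebraMap ℚ M q * Nx a y₀ := by
    rw [hq, div_mul_cancel₀ _ hNy]
  have h3 := congrArg φ h2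
  rw [map_mul, phi_Nx φ ha, phi_Nx φ ha, eq_ratCast, map_ratCast] at h3
  rw [Rat.smul_def]
  exact_mod_cast h3.symm

lemma pb_one (A : Fin d × (M ≃ₐ[ℚ] M) → Fin d → M) : pb A (1 : Matrix (Fin d) (Fin d) ℤ) = A := by
  classical
  funext i k
  unfold pb
  rw [Finset.sum_eq_single k]
  · rw [Matrix.one_apply_eq, Int.cast_one, mul_one]
  · intro j _ hj
    rw [Matrix.one_apply_ne hj, Int.cast_zero, mul_zero]
  · intro h
    exact absurd (Finset.mem_univ _) h

/-- the sum over the places is the sum for the norm -/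
lemma TT_eq [IsGalois ℚ M] {a : Matrix (Fin d) (Fin d) M}
    (hA : ∀ x : Fin d → ℤ, x ≠ 0 → ∀ i, dot (AG a i) (exv M (qv x)) ≠ 0) (S : Finset (Pl ℚ))
    (f : Pl ℚ → AbsoluteValue M ℝ) (hf : ∀ v ∈ S, Good v (f v)) {x : Fin d → ℤ} (hx : x ≠ 0) :
    TT S f (AG a) x = ∑ v ∈ S, wt v * Real.log (av v (Algebra.norm ℚ (Nx a x))) := by
  classical
  unfold TT
  refine Finset.sum_congr rfl fun v hv => ?_
  congr 1
  have h1 : ∏ q : Fin d × (M ≃ₐ[ℚ] M), dot (AG a q) (exv M (qv x)) =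
      algebraMap ℚ M (Algebra.norm ℚ (Nx a x)) := by
    rw [Algebra.norm_eq_prod_automorphisms, Fintype.prod_prod_type_right]
    refine Finset.prod_congr rfl fun σ _ => ?_
    unfold Nx
    rw [map_prod]
    exact Finset.prod_congr rfl fun i _ => dot_AG a (i, σ) x
  rw [← (hf v hv).ext, ← h1, map_prod, Real.log_prod]
  intro q _
  exact ((f v).pos_iff.2 (hA x hx q)).ne'

end gal

/-- **Growth of the norms**, in a number field containing the coefficients. -/
theorem core0 (hd : d.Prime) {g : Matrix (Fin d) (Fin d) ℝ} (hg : g.det ≠ 0)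
    (halg : ∀ i j, IsAlgebraic ℚ (g i j)) {κ ν : ℝ} (hκ : 0 ≤ κ) (hκd : κ * d < 1) (hν : 0 < ν)
    (hF : ∀ x : Fin d → ℤ, x ≠ 0 →
      ν ≤ |∏ i, ∑ j, g i j * (x j : ℝ)| * ‖(fun j => (x j : ℝ))‖ ^ κ)
    (hint : ¬ PropInt g) :
    ∃ (K : IntermediateField ℚ ℂ) (_ : NumberField K) (a : Matrix (Fin d) (Fin d) K),
      (∀ x, algebraMap K ℂ (Nx a x) = ((FF g (iR x) : ℝ) : ℂ)) ∧
      ∀ T : Finset (Pl ℚ), (Sum.inl Rat.infinitePlace : Pl ℚ) ∈ T →
        ∃ c C : ℝ, 0 < c ∧ 0 ≤ C ∧ ∀ x : Fin d → ℤ, Finset.univ.gcd x = 1 →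
          c * Real.log ((⨆ i, |x i| : ℤ) : ℝ) - C ≤
            ∑ v ∈ T, wt v * Real.log (av v (Algebra.norm ℚ (Nx a x))) := by
  classical
  obtain ⟨K, hfd, hnorm, hK⟩ := Pool.Agent.TH286.GT.GrowD.exists_field
    ((Finset.univ.image fun q : Fin d × Fin d => ((g q.1 q.2 : ℝ) : ℂ)) ∪ {Complex.I}) (by
      intro x hx
      rcases Finset.mem_union.1 hx with hx | hx
      · obtain ⟨q, -, rfl⟩ := Finset.mem_image.1 hx
        exact (halg q.1 q.2).algebraMap
      · rw [Finset.mem_singleton] at hx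
        subst hx
        refine ⟨Polynomial.X ^ 2 + 1, ?_, by simp⟩
        intro h
        have := congrArg (fun p => Polynomial.coeff p 0) h
        simp at this)
  have hNF : NumberField K := { to_charZero := inferInstance, to_finiteDimensional := hfd }
  have hGal : IsGalois ℚ K := { to_isSeparable := inferInstance, to_normal := hnorm }
  set φ : K →+* ℂ := algebraMap K ℂ with hφ
  have hmem : ∀ i j, ((g i j : ℝ) : ℂ) ∈ K := fun i j => hK _ (Finset.mem_union_left _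
    (Finset.mem_image.2 ⟨(i, j), Finset.mem_univ _, rfl⟩))
  set a : Matrix (Fin d) (Fin d) K := Matrix.of fun i j => ⟨_, hmem i j⟩ with ha'
  have ha : ∀ i j, φ (a i j) = (g i j : ℂ) := fun i j => rfl
  have hi : ∃ z : K, z ^ 2 = -1 := by
    refine ⟨⟨Complex.I, hK _ (Finset.mem_union_right _ (Finset.mem_singleton_self _))⟩, ?_⟩
    apply Subtype.ext
    simp
  have hdet : a.det ≠ 0 := by
    intro h
    have h1 : φ a.det = ((g.det : ℝ) : ℂ) := by
      rw [RingHom.map_det]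
      have h2 : ((g.det : ℝ) : ℂ) = Complex.ofRealHom g.det := rfl
      rw [h2, RingHom.map_det]
      congr 1
    rw [h, map_zero] at h1
    exact hg (by exact_mod_cast h1.symm)
  have hF0 : ∀ x : Fin d → ℤ, x ≠ 0 → FF g (iR x) ≠ 0 := by
    intro x hx h
    have h1 := hF x hx
    have h2 : (∏ i, ∑ j, g i j * (x j : ℝ)) = 0 := h
    rw [h2, abs_zero, zero_mul] at h1
    linarith
  have hA : ∀ x : Fin d → ℤ, x ≠ 0 → ∀ i, dot (AG a i) (exv K (qv x)) ≠ 0 := by
    intro x hx q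
    rw [dot_AG]
    intro h
    have h1 : ∑ j, a q.1 j * (x j : K) = 0 := by
      apply q.2.injective
      rw [h, map_zero]
    have h2 : Nx a x = 0 := Finset.prod_eq_zero (Finset.mem_univ q.1) h1
    apply hF0 x hx
    have h3 := phi_Nx φ ha x
    rw [h2, map_zero] at h3
    exact_mod_cast h3.symm
  have hst : Stab (AG a) := by
    by_contra hns
    exact hint (propInt_of_unstable hd φ ha hdet hA hns)
  choose f hf using fun v : Pl ℚ => exists_good (K := K) v
  refine ⟨K, hNF, a, phi_Nx φ ha, fun T hT => ?_⟩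
  have hgr := gr_all hi (AG a) hd.one_lt.le hA
    (fun e he hed Q hQ => ⟨pb_ne (AG a) hA he Q hQ, exists_basis a hdet Q hQ,
      stQ_proper hd hκ hκd hν hF φ a ha he hed Q hQ⟩)
    ⟨pb_ne (AG a) hA hd.one_lt.le 1 (fun z hz => by rwa [Matrix.one_mulVec] at hz),
      exists_basis a hdet 1 (fun z hz => by rwa [Matrix.one_mulVec] at hz),
      by rw [pb_one]; exact hst⟩
    T f (fun v _ => hf v) Rat.infinitePlace hT
  obtain ⟨c, C, hc, h⟩ := hgr
  refine ⟨c, |C|, hc, abs_nonneg _, fun x hx => ?_⟩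
  have h1 := h x (Set.mem_univ x) hx
  rw [TT_eq hA _ f (fun v _ => hf v) (prim_ne hx)] at h1
  have := le_abs_self C
  linarith

/-- the constant coefficient of the minimal polynomial of the value -/
lemma coeff_value {g : Matrix (Fin d) (Fin d) ℝ} {K : IntermediateField ℚ ℂ} [NumberField K]
    {a : Matrix (Fin d) (Fin d) K}
    (ha : ∀ x, algebraMap K ℂ (Nx a x) = ((FF g (iR x) : ℝ) : ℂ)) (x : Fin d → ℤ) :
    ∃ m : ℕ, 1 ≤ m ∧ m ≤ Module.finrank ℚ K ∧
      |Algebra.norm ℚ (Nx a x)| = |(minpoly ℚ (FF g (iR x))).coeff 0| ^ m := by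
  have hmin : minpoly ℚ (FF g (iR x)) = minpoly ℚ (Nx a x) := by
    have e1 : minpoly ℚ (((FF g (iR x) : ℝ)) : ℂ) = minpoly ℚ (FF g (iR x)) :=
      minpoly.algebraMap_eq (algebraMap ℝ ℂ).injective _
    have e2 : minpoly ℚ (algebraMap K ℂ (Nx a x)) = minpoly ℚ (Nx a x) :=
      minpoly.algebraMap_eq (algebraMap K ℂ).injective _
    rw [← e1, ← e2, ha]
  rw [hmin]
  exact norm_coeff _

/-- **Growth of the norms outside of a finite set of primes.** -/
theorem core (hd : d.Prime) {g : Matrix (Fin d) (Fin d) ℝ} (hg : g.det ≠ 0)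
    (halg : ∀ i j, IsAlgebraic ℚ (g i j)) {κ ν : ℝ} (hκ : 0 ≤ κ) (hκd : κ * d < 1) (hν : 0 < ν)
    (hF : ∀ x : Fin d → ℤ, x ≠ 0 →
      ν ≤ |∏ i, ∑ j, g i j * (x j : ℝ)| * ‖(fun j => (x j : ℝ))‖ ^ κ)
    (hint : ¬ PropInt g) (S : Finset ℕ) :
    ∃ c C : ℝ, 0 < c ∧ ∀ x : Fin d → ℤ, Finset.univ.gcd x = 1 → ∀ A B : ℕ,
      ((minpoly ℚ (FF g (iR x))).coeff 0).num.natAbs = A * B →
      (∀ p : ℕ, p.Prime → p ∣ A → p ∈ S) →
      c * Real.log ((⨆ i, |x i| : ℤ) : ℝ) - C ≤ Real.log B := by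
  classical
  obtain ⟨K, hNF, a, ha, hT⟩ := core0 hd hg halg hκ hκd hν hF hint
  obtain ⟨c, C, hc, hC, h⟩ := hT (PS S) (by
      unfold PS
      exact Finset.mem_insert_self _ _)
  set n : ℕ := Module.finrank ℚ K with hn
  have hn0 : 0 < n := Module.finrank_pos
  have hnR : (0 : ℝ) < n := by exact_mod_cast hn0
  refine ⟨c / n, C / n, by positivity, fun x hx A B hAB hA' => ?_⟩
  have hx0 := prim_ne hx
  have h1 := h x hx
  obtain ⟨m, hm1, hm2, hm⟩ := coeff_value ha x
  set c0 : ℚ := (minpoly ℚ (FF g (iR x))).coeff 0 with hc0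
  have hNne : FF g (iR x) ≠ 0 := by
    intro h
    have h1 := hF x hx0
    have h2 : (∏ i, ∑ j, g i j * (x j : ℝ)) = 0 := h
    rw [h2, abs_zero, zero_mul] at h1
    linarith
  have hc0' : c0 ≠ 0 := by
    intro h0
    rw [h0, abs_zero, zero_pow (by omega), abs_eq_zero, Algebra.norm_eq_zero_iff] at hm
    apply hNne
    have := ha x
    rw [hm, map_zero] at this
    exact_mod_cast this.symm
  have h2 : ∀ v : Pl ℚ, Real.log (av v (Algebra.norm ℚ (Nx a x))) = m * Real.log (av v c0) := by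
    intro v
    have e1 : av v (Algebra.norm ℚ (Nx a x)) = av v (c0 ^ m) := by
      rw [← abs_pow] at hm
      rcases abs_eq_abs.1 hm with e | e
      · rw [e]
      · rw [e, AbsoluteValue.map_neg]
    rw [e1, map_pow, Real.log_pow]
  have h3 : ∑ v ∈ PS S, wt v * Real.log (av v (Algebra.norm ℚ (Nx a x))) =
      m * ∑ v ∈ PS S, wt v * Real.log (av v c0) := by
    rw [Finset.mul_sum]
    refine Finset.sum_congr rfl fun v _ => ?_
    rw [h2]
    ring
  rw [h3] at h1
  have h4 := sum_places_le hc0' S hAB hA'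
  have hB : 0 ≤ Real.log B := Real.log_natCast_nonneg B
  have h5 : (m : ℝ) * ∑ v ∈ PS S, wt v * Real.log (av v c0) ≤ m * Real.log B :=
    mul_le_mul_of_nonneg_left h4 (Nat.cast_nonneg _)
  have h6 : (m : ℝ) * Real.log B ≤ n * Real.log B :=
    mul_le_mul_of_nonneg_right (by exact_mod_cast hm2) hB
  have h7 : c / n * Real.log ((⨆ i, |x i| : ℤ) : ℝ) - C / n =
      (c * Real.log ((⨆ i, |x i| : ℤ) : ℝ) - C) / n := by ring
  rw [h7, div_le_iff₀ hnR]
  linarith

end Pool.Agent.KS6_27.NV
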