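import Mathlib
import Pool.Agent.KS6_27.NV8
import Pool.Graph.R_pool_sql_team_seeded_3997aac3.Q118.VC.Global

/-! # Algebraic rows; growth at all integer points; integral forms -/

set_option autoImplicit false
set_option linter.unusedSectionVars false

open Finset Matrix NumberField IsDedekindDomain Height Module H715R2

namespace Pool.Agent.KS6_27.NV

variable {d : ℕ}

/-- the value of a form with algebraic coefficients at an integer point is algebraic -/
lemma alg_value {g : Matrix (Fin d) (Fin d) ℝ}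
    (hcoef : ∀ m, IsAlgebraic ℚ (MvPolynomial.coeff m (polyF g))) (x : Fin d → ℤ) :
    IsAlgebraic ℚ (FF g (iR x)) := by
  have h1 : FF g (iR x) = MvPolynomial.eval (iR x) (polyF g) := by
    rw [eval_polyF, FF]
  rw [h1, MvPolynomial.eval_eq]
  rw [← mem_algebraicClosure_iff]
  refine Subalgebra.sum_mem (algebraicClosure ℚ ℝ).toSubalgebra fun m _ => ?_
  refine mul_mem (mem_algebraicClosure_iff.2 (hcoef m)) (prod_mem fun i _ => pow_mem ?_ _)
  refine mem_algebraicClosure_iff.2 ?_
  have h2 := isAlgebraic_algebraMap (R := ℚ) (A := ℝ) ((x i : ℤ) : ℚ)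
  simpa [iR] using h2

/-- **Algebraic rows with the same product.** -/
theorem exists_alg_rows (hd : 0 < d) {g : Matrix (Fin d) (Fin d) ℝ}
    (hcoef : ∀ m, IsAlgebraic ℚ (MvPolynomial.coeff m (polyF g)))
    (hF0 : ∀ x : Fin d → ℤ, x ≠ 0 → FF g (iR x) ≠ 0) :
    ∃ g' : Matrix (Fin d) (Fin d) ℝ, (∀ i j, IsAlgebraic ℚ (g' i j)) ∧ polyF g' = polyF g ∧
      (g.det ≠ 0 → g'.det ≠ 0) := by
  classical
  set o : Fin d := ⟨0, hd⟩ with ho
  have hgo : ∀ i, g i o ≠ 0 := by
    intro i h0
    apply hF0 (Pi.single o 1) (by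
      intro h
      have := congrFun h o
      simp at this)
    rw [FF]
    refine Finset.prod_eq_zero (Finset.mem_univ i) ?_
    rw [Finset.sum_eq_single o]
    · rw [h0, zero_mul]
    · intro j _ hj
      simp [iR, Pi.single_eq_of_ne hj]
    · intro h
      exact absurd (Finset.mem_univ o) h
  have hval : FF g (iR (Pi.single o 1)) = ∏ i, g i o := by
    rw [FF]
    refine Finset.prod_congr rfl fun i _ => ?_
    rw [Finset.sum_eq_single o]
    · simp [iR]
    · intro j _ hj
      simp [iR, Pi.single_eq_of_ne hj]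
    · intro h
      exact absurd (Finset.mem_univ o) h
  have hγ : IsAlgebraic ℚ (∏ i, g i o) := by
    rw [← hval]
    exact alg_value hcoef _
  have hrat : ∀ i j, IsAlgebraic ℚ ((g i o)⁻¹ * g i j) := by
    intro i j
    by_cases hj : j = o
    · subst hj
      rw [inv_mul_cancel₀ (hgo i)]
      exact isAlgebraic_one
    set A := algebraicClosure ℚ ℝ with hA
    have hlift : polyF g ∈ Set.range (MvPolynomial.map (σ := Fin d) (algebraMap A ℝ)) := by
      rw [MvPolynomial.mem_range_map_iff_coeffs_subset]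
      intro x hx
      rw [Finset.mem_coe, MvPolynomial.mem_coeffs_iff] at hx
      obtain ⟨m, -, rfl⟩ := hx
      exact ⟨⟨_, mem_algebraicClosure_iff.2 (hcoef m)⟩, rfl⟩
    obtain ⟨Q', hQ'⟩ := hlift
    -- the polynomial in one variable
    set P' : Polynomial A := MvPolynomial.aeval
      (fun l => if l = o then (Polynomial.X : Polynomial A) else if l = j then -1 else 0) Q'
      with hP'
    have hmap : P'.map (algebraMap A ℝ) =
        ∏ i, (Polynomial.C (g i o) * Polynomial.X - Polynomial.C (g i j)) := by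
      have h1 : P'.map (algebraMap A ℝ) = MvPolynomial.aeval
          (fun l => if l = o then (Polynomial.X : Polynomial ℝ) else if l = j then -1 else 0)
          (MvPolynomial.map (algebraMap A ℝ) Q') := by
        rw [hP', MvPolynomial.aeval_def, MvPolynomial.aeval_def, MvPolynomial.eval₂_map]
        have h2 := MvPolynomial.eval₂_comp_left (Polynomial.mapRingHom (algebraMap A ℝ))
          (algebraMap A (Polynomial A))
          (fun l => if l = o then (Polynomial.X : Polynomial A) else if l = j then -1 else 0) Q'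
        rw [← Polynomial.coe_mapRingHom, h2]
        congr 1
        · ext x
          simp
        · funext l
          simp only [Function.comp_apply]
          split_ifs <;> simp
      have hQ'' : (MvPolynomial.map (σ := Fin d) (algebraMap A ℝ)) Q' = polyF g := hQ'
      rw [h1, hQ'', polyF, map_prod]
      refine Finset.prod_congr rfl fun i _ => ?_
      rw [map_sum]
      have h3 : ∀ l, MvPolynomial.aeval
          (fun l => if l = o then (Polynomial.X : Polynomial ℝ) else if l = j then -1 else 0)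
          (MvPolynomial.C (g i l) * MvPolynomial.X l : MvPolynomial (Fin d) ℝ) =
          Polynomial.C (g i l) *
            (if l = o then (Polynomial.X : Polynomial ℝ) else if l = j then -1 else 0) := by
        intro l
        rw [map_mul, MvPolynomial.aeval_X, MvPolynomial.aeval_C]
        rfl
      simp only [h3]
      rw [← Finset.add_sum_erase _ _ (Finset.mem_univ o),
        ← Finset.add_sum_erase _ _ (Finset.mem_erase.2 ⟨hj, Finset.mem_univ j⟩),
        Finset.sum_eq_zero]
      · rw [if_pos rfl, if_neg hj, if_pos rfl]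
        ring
      · intro l hl
        have hl1 := (Finset.mem_erase.1 hl).1
        have hl2 := (Finset.mem_erase.1 (Finset.mem_erase.1 hl).2).1
        rw [if_neg hl2, if_neg hl1, mul_zero]
    have hP0 : P' ≠ 0 := by
      intro h0
      rw [h0, Polynomial.map_zero] at hmap
      have h1 : (∏ i, (Polynomial.C (g i o) * Polynomial.X -
          Polynomial.C (g i j)) : Polynomial ℝ) ≠ 0 := by
        refine Finset.prod_ne_zero_iff.2 fun i _ => ?_
        intro h2
        have h3 := congrArg (fun p => Polynomial.coeff p 1) h2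
        simp at h3
        exact hgo i h3
      exact h1 hmap.symm
    have hroot : Polynomial.aeval ((g i o)⁻¹ * g i j) P' = 0 := by
      rw [Polynomial.aeval_def, ← Polynomial.eval_map, hmap,
        Polynomial.eval_prod, Finset.prod_eq_zero (Finset.mem_univ i)]
      simp only [Polynomial.eval_sub, Polynomial.eval_mul, Polynomial.eval_C, Polynomial.eval_X]
      rw [← mul_assoc, mul_inv_cancel₀ (hgo i), one_mul, sub_self]
    have h1 : IsAlgebraic A ((g i o)⁻¹ * g i j) := ⟨P', hP0, hroot⟩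
    have hAalg : Algebra.IsAlgebraic ℚ A := algebraicClosure.isAlgebraic ℚ ℝ
    exact h1.restrictScalars ℚ
  -- the scaling
  set t : Fin d → ℝ := fun i => (if i = o then ∏ k, g k o else 1) * (g i o)⁻¹ with ht
  have hγ0 : ∏ k, g k o ≠ 0 := Finset.prod_ne_zero_iff.2 fun i _ => hgo i
  have htp : ∏ i, t i = 1 := by
    rw [ht, Finset.prod_mul_distrib, Finset.prod_ite_eq', if_pos (Finset.mem_univ o),
      Finset.prod_inv_distrib, mul_inv_cancel₀ hγ0]
  refine ⟨diagonal t * g, fun i j => ?_, ?_, fun h => ?_⟩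
  · rw [diagonal_mul, ht]
    simp only
    rw [mul_assoc]
    refine IsAlgebraic.mul ?_ (hrat i j)
    split_ifs
    · exact hγ
    · exact isAlgebraic_one
  · have hpoly : polyF (diagonal t * g) = (∏ i, t i) • polyF g := by
      rw [polyF, polyF, MvPolynomial.smul_eq_C_mul, map_prod, ← Finset.prod_mul_distrib]
      refine Finset.prod_congr rfl fun i _ => ?_
      rw [Finset.mul_sum]
      refine Finset.sum_congr rfl fun j _ => ?_
      rw [diagonal_mul, map_mul]
      ring
    rw [hpoly, htp, one_smul]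
  · rw [Matrix.det_mul, Matrix.det_diagonal, htp, one_mul]
    exact h

lemma iSup_eq_norm (hd : 0 < d) (x : Fin d → ℤ) :
    ((⨆ i, |x i| : ℤ) : ℝ) = ‖(fun j => (x j : ℝ))‖ := by
  have hne : Nonempty (Fin d) := ⟨⟨0, hd⟩⟩
  apply le_antisymm
  · obtain ⟨i, hi⟩ := exists_eq_ciSup_of_finite (f := fun i => |x i|)
    rw [← hi, Int.cast_abs, ← Real.norm_eq_abs]
    exact norm_le_pi_norm (fun j => (x j : ℝ)) i
  · have h0 : (0 : ℝ) ≤ ((⨆ i, |x i| : ℤ) : ℝ) := by
      have h1 := le_ciSup (f := fun i => |x i|) (Set.finite_range _).bddAbove ⟨0, hd⟩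
      exact_mod_cast (abs_nonneg _).trans h1
    rw [pi_norm_le_iff_of_nonneg h0]
    intro i
    rw [Real.norm_eq_abs, ← Int.cast_abs]
    have h1 := le_ciSup (f := fun i => |x i|) (Set.finite_range _).bddAbove i
    exact_mod_cast h1

/-- the primitive part of an integer point -/
lemma exists_prim {x : Fin d → ℤ} (hx : x ≠ 0) : ∃ (t : ℕ) (y : Fin d → ℤ), 0 < t ∧
    Finset.univ.gcd y = 1 ∧ ∀ i, x i = t * y i := by
  obtain ⟨j, hj⟩ := Function.ne_iff.1 hx
  obtain ⟨y, hy, hy1⟩ := Finset.extract_gcd x (s := Finset.univ) ⟨j, Finset.mem_univ _⟩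
  set D := Finset.univ.gcd x with hD
  have hD0 : D ≠ 0 := by
    intro h
    apply hj
    have := hy j (Finset.mem_univ _)
    rw [this, h, zero_mul]
    rfl
  have hDn : 0 ≤ D := by
    have h1 : normalize D = D := Finset.normalize_gcd
    rw [← Int.abs_eq_normalize] at h1
    rw [← h1]
    exact abs_nonneg _
  refine ⟨D.toNat, y, ?_, hy1, fun i => ?_⟩
  · omega
  · rw [hy i (Finset.mem_univ _), Int.toNat_of_nonneg hDn]

/-- the norm of a multiple -/
lemma norm_mul_nat {M : Type} [Field M] [NumberField M] (t : ℕ) (y : M) :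
    |Algebra.norm ℚ ((t : M) * y)| = (t : ℚ) ^ Module.finrank ℚ M * |Algebra.norm ℚ y| := by
  rw [map_mul, abs_mul]
  congr 1
  have h1 : ((t : ℕ) : M) = algebraMap ℚ M (t : ℚ) := by simp
  rw [h1, Algebra.norm_algebraMap, abs_pow, Nat.abs_cast]

open Pool.Agent.W180.OP (Pl av wt) in
/-- **Growth of the norms at all nonzero integer points.** -/
theorem core_all (hd : d.Prime) {g : Matrix (Fin d) (Fin d) ℝ} (hg : g.det ≠ 0)
    (halg : ∀ i j, IsAlgebraic ℚ (g i j)) {κ ν : ℝ} (hκ : 0 ≤ κ) (hκd : κ * d < 1) (hν : 0 < ν)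
    (hF : ∀ x : Fin d → ℤ, x ≠ 0 →
      ν ≤ |∏ i, ∑ j, g i j * (x j : ℝ)| * ‖(fun j => (x j : ℝ))‖ ^ κ)
    (hint : ¬ PropInt g) :
    ∃ c C : ℝ, 0 < c ∧ ∀ x : Fin d → ℤ, x ≠ 0 →
      c * Real.log ‖(fun j => (x j : ℝ))‖ - C ≤
        Real.log |(((minpoly ℚ (FF g (iR x))).coeff 0 : ℚ) : ℝ)| := by
  classical
  obtain ⟨K, hNF, a, ha, hT⟩ := core0 hd hg halg hκ hκd hν hF hint
  obtain ⟨c, C, hc, hC, h⟩ := hT {Sum.inl Rat.infinitePlace} (Finset.mem_singleton_self _)
  set n : ℕ := Module.finrank ℚ K with hn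
  have hn0 : 0 < n := Module.finrank_pos
  have hnR : (1 : ℝ) ≤ n := by exact_mod_cast hn0
  have hd0 : 0 < d := hd.pos
  have hdR : (1 : ℝ) ≤ d := by exact_mod_cast hd0
  set c' : ℝ := min c 1 with hc'
  have hc'0 : 0 < c' := lt_min hc one_pos
  refine ⟨c' / n, C, by positivity, fun x hx => ?_⟩
  obtain ⟨t, y, ht, hy, hxy⟩ := exists_prim hx
  have hy0 := prim_ne hy
  have htR : (1 : ℝ) ≤ t := by exact_mod_cast ht
  have h1 := h y hy
  have hav : ∀ q : ℚ, av (Sum.inl Rat.infinitePlace : Pl ℚ) q = |(q : ℝ)| := by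
    intro q
    change Rat.infinitePlace q = _
    rw [Rat.infinitePlace_apply]
    simp
  rw [Finset.sum_singleton, wt_inl, one_mul, hav, iSup_eq_norm hd0] at h1
  have hNx : Nx a x = ((t ^ d : ℕ) : K) * Nx a y := by
    unfold Nx
    have h2 : ∀ i, ∑ j, a i j * (x j : K) = (t : K) * ∑ j, a i j * (y j : K) := by
      intro i
      rw [Finset.mul_sum]
      refine Finset.sum_congr rfl fun j _ => ?_
      rw [hxy]
      push_cast
      ring
    rw [Finset.prod_congr rfl fun i _ => h2 i, Finset.prod_mul_distrib, Finset.prod_const,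
      Finset.card_univ, Fintype.card_fin]
    push_cast
    rfl
  have hnorm : |Algebra.norm ℚ (Nx a x)| =
      ((t ^ d : ℕ) : ℚ) ^ n * |Algebra.norm ℚ (Nx a y)| := by
    rw [hNx, norm_mul_nat]
  obtain ⟨m, hm1, hm2, hm⟩ := coeff_value ha x
  have hFne : ∀ z : Fin d → ℤ, z ≠ 0 → FF g (iR z) ≠ 0 := by
    intro z hz h
    have h1 := hF z hz
    have h2 : (∏ i, ∑ j, g i j * (z j : ℝ)) = 0 := h
    rw [h2, abs_zero, zero_mul] at h1
    linarith
  have hNne : ∀ z : Fin d → ℤ, z ≠ 0 → Algebra.norm ℚ (Nx a z) ≠ 0 := by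
    intro z hz h0
    rw [Algebra.norm_eq_zero_iff] at h0
    apply hFne z hz
    have := ha z
    rw [h0, map_zero] at this
    exact_mod_cast this.symm
  have hlog : Real.log |((Algebra.norm ℚ (Nx a x) : ℚ) : ℝ)| =
      n * (d * Real.log t) + Real.log |((Algebra.norm ℚ (Nx a y) : ℚ) : ℝ)| := by
    have e1 : |((Algebra.norm ℚ (Nx a x) : ℚ) : ℝ)| =
        ((t : ℝ) ^ d) ^ n * |((Algebra.norm ℚ (Nx a y) : ℚ) : ℝ)| := by
      have := congrArg (Rat.cast : ℚ → ℝ) hnorm
      push_cast at this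
      exact this
    have e2 : |((Algebra.norm ℚ (Nx a y) : ℚ) : ℝ)| ≠ 0 :=
      abs_ne_zero.2 (by exact_mod_cast hNne y hy0)
    rw [e1, Real.log_mul (by positivity) e2, Real.log_pow, Real.log_pow]
  have hlogm : Real.log |((Algebra.norm ℚ (Nx a x) : ℚ) : ℝ)| =
      m * Real.log |(((minpoly ℚ (FF g (iR x))).coeff 0 : ℚ) : ℝ)| := by
    have e1 := congrArg (Rat.cast : ℚ → ℝ) hm
    push_cast at e1
    rw [e1, Real.log_pow]
  have hnormx : ‖(fun j => (x j : ℝ))‖ = t * ‖(fun j => (y j : ℝ))‖ := by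
    have e1 : (fun j => (x j : ℝ)) = (t : ℝ) • fun j => (y j : ℝ) := by
      funext j
      rw [hxy]
      push_cast
      rfl
    rw [e1, norm_smul, Real.norm_of_nonneg (by linarith)]
  have hy1 : 1 ≤ ‖(fun j => (y j : ℝ))‖ := by
    obtain ⟨j, hj⟩ := Function.ne_iff.1 hy0
    have e1 := norm_le_pi_norm (fun j => (y j : ℝ)) j
    refine le_trans ?_ e1
    rw [Real.norm_eq_abs]
    have e2 : 1 ≤ |y j| := Int.one_le_abs hj
    exact_mod_cast e2
  have hx1 : 1 ≤ ‖(fun j => (x j : ℝ))‖ := by
    rw [hnormx]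
    calc (1 : ℝ) = 1 * 1 := by ring
      _ ≤ _ := mul_le_mul htR hy1 (by norm_num) (by linarith)
  have hlt : 0 ≤ Real.log t := Real.log_nonneg htR
  have hly : 0 ≤ Real.log ‖(fun j => (y j : ℝ))‖ := Real.log_nonneg hy1
  have hlx : 0 ≤ Real.log ‖(fun j => (x j : ℝ))‖ := Real.log_nonneg hx1
  have hlogx : Real.log ‖(fun j => (x j : ℝ))‖ = Real.log t + Real.log ‖(fun j => (y j : ℝ))‖ := by
    rw [hnormx, Real.log_mul (by linarith) (by linarith)]
  have key : c' * Real.log ‖(fun j => (x j : ℝ))‖ - C ≤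
      m * Real.log |(((minpoly ℚ (FF g (iR x))).coeff 0 : ℚ) : ℝ)| := by
    rw [← hlogm, hlog, hlogx]
    have e1 : c' * Real.log t ≤ n * (d * Real.log t) := by
      have e2 : c' * Real.log t ≤ 1 * Real.log t :=
        mul_le_mul_of_nonneg_right (min_le_right _ _) hlt
      have e3 : Real.log t ≤ d * Real.log t := le_mul_of_one_le_left hlt hdR
      have e4 : (d : ℝ) * Real.log t ≤ n * (d * Real.log t) :=
        le_mul_of_one_le_left (by positivity) hnR
      linarith
    have e5 : c' * Real.log ‖(fun j => (y j : ℝ))‖ ≤ c * Real.log ‖(fun j => (y j : ℝ))‖ :=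
      mul_le_mul_of_nonneg_right (min_le_left _ _) hly
    rw [mul_add]
    linarith
  set H : ℝ := Real.log ‖(fun j => (x j : ℝ))‖ with hH
  set L : ℝ := Real.log |(((minpoly ℚ (FF g (iR x))).coeff 0 : ℚ) : ℝ)| with hL
  have hmR : (1 : ℝ) ≤ m := by exact_mod_cast hm1
  have hmn : (m : ℝ) ≤ n := by exact_mod_cast hm2
  have hcn : c' / n * H ≤ c' * H := by
    refine mul_le_mul_of_nonneg_right ?_ hlx
    exact div_le_self hc'0.le hnR
  rcases le_or_gt 0 L with hL0 | hL0
  · have e1 : (m : ℝ) * L ≤ n * L := mul_le_mul_of_nonneg_right hmn hL0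
    have e2 : (c' * H - C) / n ≤ L := by
      rw [div_le_iff₀ (by linarith)]
      linarith
    have e3 : (c' * H - C) / n = c' / n * H - C / n := by ring
    have e4 : C / n ≤ C := div_le_self hC hnR
    linarith
  · have e1 : (m : ℝ) * L ≤ L := by nlinarith
    linarith

end Pool.Agent.KS6_27.NV
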