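import Mathlib
import Pool.Graph.R_pool_sql_team_seeded_b0a926ef.R446.Pisier2

set_option autoImplicit false

namespace Pool.Agent.KS6_27.PI

open Pool.Agent.R446.Pisier

/-- every edge of the first triple is an edge of another one -/
theorem star {a₁ b₁ c₁ a₂ b₂ c₂ a₃ b₃ c₃ a₄ b₄ c₄ : ℕ}
    (h₁ : a₁ < b₁ ∧ b₁ < c₁) (h₂ : a₂ < b₂ ∧ b₂ < c₂) (h₃ : a₃ < b₃ ∧ b₃ < c₃)
    (h₄ : a₄ < b₄ ∧ b₄ < c₄)
    (h : v a₁ b₁ c₁ + v a₂ b₂ c₂ = v a₃ b₃ c₃ + v a₄ b₄ c₄) (e : Finset ℕ)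
    (he : e ⊆ {a₁, b₁, c₁}) (hc : e.card = 2) :
    e ⊆ {a₂, b₂, c₂} ∨ e ⊆ {a₃, b₃, c₃} ∨ e ⊆ {a₄, b₄, c₄} := by
  have hm := multiset_of_eq h₁ h₂ h₃ h₄ h
  have key2 : ∀ x y : ℕ, P x y ∈ ({P a₁ b₁, P b₁ c₁, P a₂ b₂, P b₂ c₂, P a₃ c₃, P a₄ c₄} :
      Multiset ℕ) ↔ P x y ∈ ({P a₃ b₃, P b₃ c₃, P a₄ b₄, P b₄ c₄, P a₁ c₁, P a₂ c₂} :
      Multiset ℕ) := by
    intro x y
    rw [hm]
  have F1 : ({a₁, b₁} : Finset ℕ) ⊆ {a₂, b₂, c₂} ∨ ({a₁, b₁} : Finset ℕ) ⊆ {a₃, b₃, c₃} ∨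
      ({a₁, b₁} : Finset ℕ) ⊆ {a₄, b₄, c₄} := by
    have := (key2 a₁ b₁).1 (by rw [mem6]; tauto)
    rw [mem6] at this
    rcases this with m | m | m | m | m | m <;> have n := P_inj m
    · right; left; rw [n.1, n.2]; intro z; simp; tauto
    · right; left; rw [n.1, n.2]; intro z; simp; tauto
    · right; right; rw [n.1, n.2]; intro z; simp; tauto
    · right; right; rw [n.1, n.2]; intro z; simp; tauto
    · omega
    · left; rw [n.1, n.2]; intro z; simp; tauto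
  have F2 : ({b₁, c₁} : Finset ℕ) ⊆ {a₂, b₂, c₂} ∨ ({b₁, c₁} : Finset ℕ) ⊆ {a₃, b₃, c₃} ∨
      ({b₁, c₁} : Finset ℕ) ⊆ {a₄, b₄, c₄} := by
    have := (key2 b₁ c₁).1 (by rw [mem6]; tauto)
    rw [mem6] at this
    rcases this with m | m | m | m | m | m <;> have n := P_inj m
    · right; left; rw [n.1, n.2]; intro z; simp; tauto
    · right; left; rw [n.1, n.2]; intro z; simp; tauto
    · right; right; rw [n.1, n.2]; intro z; simp; tauto
    · right; right; rw [n.1, n.2]; intro z; simp; tauto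
    · omega
    · left; rw [n.1, n.2]; intro z; simp; tauto
  have F3 : ({a₁, c₁} : Finset ℕ) ⊆ {a₂, b₂, c₂} ∨ ({a₁, c₁} : Finset ℕ) ⊆ {a₃, b₃, c₃} ∨
      ({a₁, c₁} : Finset ℕ) ⊆ {a₄, b₄, c₄} := by
    have := (key2 a₁ c₁).2 (by rw [mem6]; tauto)
    rw [mem6] at this
    rcases this with m | m | m | m | m | m <;> have n := P_inj m
    · omega
    · omega
    · left; rw [n.1, n.2]; intro z; simp; tauto
    · left; rw [n.1, n.2]; intro z; simp; tauto
    · right; left; rw [n.1, n.2]; intro z; simp; tauto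
    · right; right; rw [n.1, n.2]; intro z; simp; tauto
  obtain ⟨p, q, hpq, rfl⟩ := Finset.card_eq_two.1 hc
  have hp : p = a₁ ∨ p = b₁ ∨ p = c₁ := by simpa using he (Finset.mem_insert_self p _)
  have hq : q = a₁ ∨ q = b₁ ∨ q = c₁ := by
    simpa using he (Finset.mem_insert_of_mem (Finset.mem_singleton_self q))
  rcases hp with rfl | rfl | rfl <;> rcases hq with rfl | rfl | rfl
  · exact absurd rfl hpq
  · exact F1
  · exact F3
  · rw [Finset.pair_comm]; exact F1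
  · exact absurd rfl hpq
  · exact F2
  · rw [Finset.pair_comm]; exact F3
  · rw [Finset.pair_comm]; exact F2
  · exact absurd rfl hpq

/-- the first two triples are different unless the first one is the third one -/
theorem twice {a₁ b₁ c₁ a₃ b₃ c₃ a₄ b₄ c₄ : ℕ}
    (h₁ : a₁ < b₁ ∧ b₁ < c₁) (h₃ : a₃ < b₃ ∧ b₃ < c₃)
    (h₄ : a₄ < b₄ ∧ b₄ < c₄)
    (h : v a₁ b₁ c₁ + v a₁ b₁ c₁ = v a₃ b₃ c₃ + v a₄ b₄ c₄) :
    a₁ = a₃ ∧ b₁ = b₃ ∧ c₁ = c₃ := by
  have hm := multiset_of_eq h₁ h₁ h₃ h₄ h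
  have n1 : P a₁ b₁ ≠ P b₁ c₁ := fun e => by have := P_inj e; omega
  have n2 : P a₁ b₁ ≠ P a₁ c₁ := fun e => by have := P_inj e; omega
  have n3 : P b₁ c₁ ≠ P a₁ c₁ := fun e => by have := P_inj e; omega
  have m3 : P a₃ b₃ ≠ P b₃ c₃ := fun e => by have := P_inj e; omega
  have m4 : P a₄ b₄ ≠ P b₄ c₄ := fun e => by have := P_inj e; omega
  have k1 := congrArg (Multiset.count (P a₁ b₁)) hm
  have k2 := congrArg (Multiset.count (P b₁ c₁)) hm
  simp only [Multiset.insert_eq_cons, Multiset.count_cons, Multiset.count_singleton, if_true,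
    if_neg n1, if_neg n2, if_neg n3, if_neg n1.symm] at k1 k2
  have r1 : P a₁ b₁ = P a₃ b₃ ∨ P a₁ b₁ = P b₃ c₃ := by
    by_contra hcon
    push Not at hcon
    rw [if_neg hcon.1, if_neg hcon.2] at k1
    by_cases g : P a₁ b₁ = P a₄ b₄
    · have g' : P a₁ b₁ ≠ P b₄ c₄ := fun e => m4 (g.symm.trans e)
      rw [if_pos g, if_neg g'] at k1
      omega
    · rw [if_neg g] at k1
      split_ifs at k1 <;> omega
  have r2 : P b₁ c₁ = P a₃ b₃ ∨ P b₁ c₁ = P b₃ c₃ := by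
    by_contra hcon
    push Not at hcon
    rw [if_neg hcon.1, if_neg hcon.2] at k2
    by_cases g : P b₁ c₁ = P a₄ b₄
    · have g' : P b₁ c₁ ≠ P b₄ c₄ := fun e => m4 (g.symm.trans e)
      rw [if_pos g, if_neg g'] at k2
      omega
    · rw [if_neg g] at k2
      split_ifs at k2 <;> omega
  rcases r1 with r1 | r1 <;> rcases r2 with r2 | r2 <;> have s1 := P_inj r1 <;>
    have s2 := P_inj r2 <;> omega

/-- four different triples in which every edge is covered twice are the faces of a tetrahedron -/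
theorem core (T : Fin 4 → Finset ℕ) (hc : ∀ i, (T i).card = 3) (hinj : Function.Injective T)
    (hs : ∀ i, ∀ e ⊆ T i, e.card = 2 → ∃ j, j ≠ i ∧ e ⊆ T j) :
    ∃ a b c x : ℕ, a ≠ b ∧ a ≠ c ∧ b ≠ c ∧ x ≠ a ∧ x ≠ b ∧ x ≠ c ∧
      (∃ i, T i = {a, b, c}) ∧ (∃ i, T i = {b, c, x}) ∧ (∃ i, T i = {a, c, x}) ∧
      (∃ i, T i = {a, b, x}) := by
  obtain ⟨a, b, c, hab, hac, hbc, h0⟩ := Finset.card_eq_three.1 (hc 0)
  obtain ⟨i, hi, hi'⟩ := hs 0 {b, c} (by rw [h0]; intro z; simp; tauto)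
    (Finset.card_pair hbc)
  obtain ⟨j, hj, hj'⟩ := hs 0 {a, c} (by rw [h0]; intro z; simp; tauto)
    (Finset.card_pair hac)
  obtain ⟨k, hk, hk'⟩ := hs 0 {a, b} (by rw [h0]; intro z; simp; tauto)
    (Finset.card_pair hab)
  have full : ∀ l : Fin 4, a ∈ T l → b ∈ T l → c ∈ T l → l = 0 := by
    intro l ha hb hcc
    apply hinj
    symm
    apply Finset.eq_of_subset_of_card_le
    · rw [h0]; intro z hz; simp at hz; rcases hz with rfl | rfl | rfl <;> assumption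
    · rw [hc, hc]
  have bi : b ∈ T i := hi' (by simp)
  have ci : c ∈ T i := hi' (by simp)
  have aj : a ∈ T j := hj' (by simp)
  have cj : c ∈ T j := hj' (by simp)
  have ak : a ∈ T k := hk' (by simp)
  have bk : b ∈ T k := hk' (by simp)
  have ai : a ∉ T i := fun h => hi (full i h bi ci)
  have bj : b ∉ T j := fun h => hj (full j aj h cj)
  have ck : c ∉ T k := fun h => hk (full k ak bk h)
  have hij : i ≠ j := by rintro rfl; exact ai aj
  have hik : i ≠ k := by rintro rfl; exact ai ak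
  have hjk : j ≠ k := by rintro rfl; exact bj bk
  have all : ∀ l : Fin 4, l = 0 ∨ l = i ∨ l = j ∨ l = k := by
    intro l; omega
  have third : ∀ (S : Finset ℕ) (p q : ℕ), S.card = 3 → p ∈ S → q ∈ S → p ≠ q →
      ∃ x, x ≠ p ∧ x ≠ q ∧ S = {p, q, x} := by
    intro S p q hS hp hq hpq
    obtain ⟨x, hx, hx'⟩ : ∃ x ∈ S, x ∉ ({p, q} : Finset ℕ) := by
      apply Finset.exists_mem_notMem_of_card_lt_card
      rw [Finset.card_pair hpq, hS]; norm_num
    simp at hx'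
    refine ⟨x, hx'.1, hx'.2, ?_⟩
    symm
    apply Finset.eq_of_subset_of_card_le
    · intro z hz; simp at hz; rcases hz with rfl | rfl | rfl <;> assumption
    · rw [hS, Finset.card_eq_three.2 ⟨p, q, x, hpq, Ne.symm hx'.1, Ne.symm hx'.2, rfl⟩]
  obtain ⟨x, xb, xc, hx⟩ := third (T i) b c (hc i) bi ci hbc
  obtain ⟨y, ya, yc, hy⟩ := third (T j) a c (hc j) aj cj hac
  obtain ⟨z, za, zb, hz⟩ := third (T k) a b (hc k) ak bk hab
  have xa : x ≠ a := by rintro rfl; exact ai (by rw [hx]; simp)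
  have yb : y ≠ b := by rintro rfl; exact bj (by rw [hy]; simp)
  have zc : z ≠ c := by rintro rfl; exact ck (by rw [hz]; simp)
  have e1 : x = z := by
    obtain ⟨l, hl, hl'⟩ := hs i {b, x} (by rw [hx]; intro z; simp; tauto)
      (Finset.card_pair xb.symm)
    have hb : b ∈ T l := hl' (by simp)
    have hxx : x ∈ T l := hl' (by simp)
    rcases all l with rfl | rfl | rfl | rfl
    · rw [h0] at hxx; simp at hxx; tauto
    · exact absurd rfl hl
    · exact absurd hb bj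
    · rw [hz] at hxx; simp at hxx; tauto
  have e2 : x = y := by
    obtain ⟨l, hl, hl'⟩ := hs i {c, x} (by rw [hx]; intro z; simp; tauto)
      (Finset.card_pair xc.symm)
    have hb : c ∈ T l := hl' (by simp)
    have hxx : x ∈ T l := hl' (by simp)
    rcases all l with rfl | rfl | rfl | rfl
    · rw [h0] at hxx; simp at hxx; tauto
    · exact absurd rfl hl
    · rw [hy] at hxx; simp at hxx; tauto
    · exact absurd hb ck
  exact ⟨a, b, c, x, hab, hac, hbc, xa, xb, xc, ⟨0, h0⟩, ⟨i, hx⟩, ⟨j, by rw [hy, e2]⟩,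
    ⟨k, by rw [hz, e1]⟩⟩

/-- Turán's pattern: the three types are different, or they are `i, i, i + 1` -/
def kp (x y z : ZMod 3) : Prop := x + y + z = 1 ∨ (x + y + z = 0 ∧ x ≠ y)

instance (x y z : ZMod 3) : Decidable (kp x y z) := by unfold kp; infer_instance

/-- the pattern for a finite set -/
def ks (τ : ℕ → ZMod 3) (t : Finset ℕ) : Prop :=
  ∑ x ∈ t, τ x = 1 ∨ (∑ x ∈ t, τ x = 0 ∧ ∃ x ∈ t, ∃ y ∈ t, τ x ≠ τ y)

theorem ks_of (τ : ℕ → ZMod 3) {a b c : ℕ} (hab : a ≠ b) (hac : a ≠ c) (hbc : b ≠ c)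
    (h : kp (τ a) (τ b) (τ c)) : ks τ {a, b, c} := by
  unfold ks
  rw [Finset.sum_insert (by simp [hab, hac]), Finset.sum_pair hbc, ← add_assoc]
  rcases h with h | ⟨h, h'⟩
  · exact Or.inl h
  · exact Or.inr ⟨h, a, by simp, b, by simp, h'⟩

theorem of_ks (τ : ℕ → ZMod 3) {a b c : ℕ} (hab : a ≠ b) (hac : a ≠ c) (hbc : b ≠ c)
    (h : ks τ {a, b, c}) : τ a + τ b + τ c = 1 ∨
      (τ a + τ b + τ c = 0 ∧ ¬ (τ a = τ b ∧ τ b = τ c)) := by
  unfold ks at h
  rw [Finset.sum_insert (by simp [hab, hac]), Finset.sum_pair hbc, ← add_assoc] at h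
  rcases h with h | ⟨h, x, hx, y, hy, h'⟩
  · exact Or.inl h
  · refine Or.inr ⟨h, ?_⟩
    rintro ⟨h1, h2⟩
    simp at hx hy
    apply h'
    rcases hx with rfl | rfl | rfl <;> rcases hy with rfl | rfl | rfl <;> simp_all

theorem noK4 : ∀ a b c x : ZMod 3,
    (a + b + c = 1 ∨ (a + b + c = 0 ∧ ¬ (a = b ∧ b = c))) →
    (b + c + x = 1 ∨ (b + c + x = 0 ∧ ¬ (b = c ∧ c = x))) →
    (a + c + x = 1 ∨ (a + c + x = 0 ∧ ¬ (a = c ∧ c = x))) →
    (a + b + x = 1 ∨ (a + b + x = 0 ∧ ¬ (a = b ∧ b = x))) → False := by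
  decide

theorem set_inj {a₁ b₁ c₁ a₂ b₂ c₂ : ℕ} (h₁ : a₁ < b₁ ∧ b₁ < c₁) (h₂ : a₂ < b₂ ∧ b₂ < c₂)
    (h : ({a₁, b₁, c₁} : Finset ℕ) = {a₂, b₂, c₂}) : a₁ = a₂ ∧ b₁ = b₂ ∧ c₁ = c₂ := by
  have e1 : a₁ ∈ ({a₂, b₂, c₂} : Finset ℕ) := h ▸ by simp
  have e2 : b₁ ∈ ({a₂, b₂, c₂} : Finset ℕ) := h ▸ by simp
  have e3 : c₁ ∈ ({a₂, b₂, c₂} : Finset ℕ) := h ▸ by simp
  simp only [Finset.mem_insert, Finset.mem_singleton] at e1 e2 e3
  omega

theorem card3 {a b c : ℕ} (h : a < b ∧ b < c) : ({a, b, c} : Finset ℕ).card = 3 :=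
  Finset.card_eq_three.2 ⟨a, b, c, by omega, by omega, by omega, rfl⟩

/-- Sidon property for triples of Turán's pattern -/
theorem sidon_kp (τ : ℕ → ZMod 3) {a₁ b₁ c₁ a₂ b₂ c₂ a₃ b₃ c₃ a₄ b₄ c₄ : ℕ}
    (h₁ : a₁ < b₁ ∧ b₁ < c₁) (h₂ : a₂ < b₂ ∧ b₂ < c₂) (h₃ : a₃ < b₃ ∧ b₃ < c₃)
    (h₄ : a₄ < b₄ ∧ b₄ < c₄)
    (t₁ : kp (τ a₁) (τ b₁) (τ c₁)) (t₂ : kp (τ a₂) (τ b₂) (τ c₂))
    (t₃ : kp (τ a₃) (τ b₃) (τ c₃)) (t₄ : kp (τ a₄) (τ b₄) (τ c₄))
    (h : v a₁ b₁ c₁ + v a₂ b₂ c₂ = v a₃ b₃ c₃ + v a₄ b₄ c₄) :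
    (v a₁ b₁ c₁ = v a₃ b₃ c₃ ∧ v a₂ b₂ c₂ = v a₄ b₄ c₄) ∨
      (v a₁ b₁ c₁ = v a₄ b₄ c₄ ∧ v a₂ b₂ c₂ = v a₃ b₃ c₃) := by
  by_contra hcon
  have d13 : v a₁ b₁ c₁ ≠ v a₃ b₃ c₃ := fun e => hcon (Or.inl ⟨e, by omega⟩)
  have d14 : v a₁ b₁ c₁ ≠ v a₄ b₄ c₄ := fun e => hcon (Or.inr ⟨e, by omega⟩)
  have d23 : v a₂ b₂ c₂ ≠ v a₃ b₃ c₃ := fun e => hcon (Or.inr ⟨by omega, e⟩)
  have d24 : v a₂ b₂ c₂ ≠ v a₄ b₄ c₄ := fun e => hcon (Or.inl ⟨by omega, e⟩)
  have d12 : ¬ (a₁ = a₂ ∧ b₁ = b₂ ∧ c₁ = c₂) := by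
    rintro ⟨rfl, rfl, rfl⟩
    obtain ⟨rfl, rfl, rfl⟩ := twice h₁ h₃ h₄ h
    exact d13 rfl
  have d34 : ¬ (a₃ = a₄ ∧ b₃ = b₄ ∧ c₃ = c₄) := by
    rintro ⟨rfl, rfl, rfl⟩
    obtain ⟨rfl, rfl, rfl⟩ := twice h₃ h₁ h₂ h.symm
    exact d13 rfl
  let T : Fin 4 → Finset ℕ := ![{a₁, b₁, c₁}, {a₂, b₂, c₂}, {a₃, b₃, c₃}, {a₄, b₄, c₄}]
  have s1 := star h₁ h₂ h₃ h₄ h
  have s2 := star h₂ h₁ h₃ h₄ (by omega)
  have s3 := star h₃ h₄ h₁ h₂ h.symm
  have s4 := star h₄ h₃ h₁ h₂ (by omega)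
  have ne : ∀ i j : Fin 4, i < j → T i ≠ T j := by
    intro i j hij e
    fin_cases i <;> fin_cases j <;> simp only [Fin.lt_def] at hij <;> (try (simp at hij; done)) <;>
      simp only [T] at e
    · exact d12 (set_inj h₁ h₂ e)
    · obtain ⟨rfl, rfl, rfl⟩ := set_inj h₁ h₃ e; exact d13 rfl
    · obtain ⟨rfl, rfl, rfl⟩ := set_inj h₁ h₄ e; exact d14 rfl
    · obtain ⟨rfl, rfl, rfl⟩ := set_inj h₂ h₃ e; exact d23 rfl
    · obtain ⟨rfl, rfl, rfl⟩ := set_inj h₂ h₄ e; exact d24 rfl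
    · exact d34 (set_inj h₃ h₄ e)
  have hinj : Function.Injective T := by
    intro i j e
    rcases lt_trichotomy i j with g | g | g
    · exact absurd e (ne i j g)
    · exact g
    · exact absurd e.symm (ne j i g)
  have hT : ∀ i, ks τ (T i) := by
    intro i
    fin_cases i
    · exact ks_of τ (by omega) (by omega) (by omega) t₁
    · exact ks_of τ (by omega) (by omega) (by omega) t₂
    · exact ks_of τ (by omega) (by omega) (by omega) t₃
    · exact ks_of τ (by omega) (by omega) (by omega) t₄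
  obtain ⟨a, b, c, x, hab, hac, hbc, xa, xb, xc, ⟨i1, e1⟩, ⟨i2, e2⟩, ⟨i3, e3⟩, ⟨i4, e4⟩⟩ :=
    core T (by
      intro i
      fin_cases i
      · exact card3 h₁
      · exact card3 h₂
      · exact card3 h₃
      · exact card3 h₄) hinj (by
      intro i e he hc
      fin_cases i
      · rcases s1 e he hc with g | g | g
        · exact ⟨1, by decide, g⟩
        · exact ⟨2, by decide, g⟩
        · exact ⟨3, by decide, g⟩
      · rcases s2 e he hc with g | g | g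
        · exact ⟨0, by decide, g⟩
        · exact ⟨2, by decide, g⟩
        · exact ⟨3, by decide, g⟩
      · rcases s3 e he hc with g | g | g
        · exact ⟨3, by decide, g⟩
        · exact ⟨0, by decide, g⟩
        · exact ⟨1, by decide, g⟩
      · rcases s4 e he hc with g | g | g
        · exact ⟨2, by decide, g⟩
        · exact ⟨0, by decide, g⟩
        · exact ⟨1, by decide, g⟩)
  exact noK4 (τ a) (τ b) (τ c) (τ x) (of_ks τ hab hac hbc (e1 ▸ hT i1))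
    (of_ks τ hbc xb.symm xc.symm (e2 ▸ hT i2)) (of_ks τ hac xa.symm xc.symm (e3 ▸ hT i3))
    (of_ks τ hab xa.symm xb.symm (e4 ▸ hT i4))

/-- among all typings of `Fin M` one gives Turán's pattern to at least `5/9` of the triples -/
theorem exists_typing (M : ℕ) {ι : Type*} (A : Finset ι) (a b c : ι → Fin M)
    (hab : ∀ x ∈ A, a x ≠ b x) (hac : ∀ x ∈ A, a x ≠ c x) (hbc : ∀ x ∈ A, b x ≠ c x) :
    ∃ τ : Fin M → ZMod 3,
      5 * A.card ≤ 9 * (A.filter (fun x => kp (τ (a x)) (τ (b x)) (τ (c x)))).card := by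
  classical
  by_contra hcon
  push Not at hcon
  have good : ∀ x ∈ A, 5 * Fintype.card (Fin M → ZMod 3) = 9 * (Finset.univ.filter
      (fun τ : Fin M → ZMod 3 => kp (τ (a x)) (τ (b x)) (τ (c x)))).card := by
    intro x hx
    have h1 := hab x hx
    have h2 := hac x hx
    have h3 := hbc x hx
    let f : (Fin M → ZMod 3) → ZMod 3 × ZMod 3 × ZMod 3 := fun τ => (τ (a x), τ (b x), τ (c x))
    have fib : ∀ w : ZMod 3 × ZMod 3 × ZMod 3,
        (Finset.univ.filter (fun τ => f τ = w)).card = (Finset.univ.filter (fun τ => f τ = 0)).card := by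
      intro w
      let s : Fin M → ZMod 3 := fun i => if i = a x then w.1 else if i = b x then w.2.1 else
        if i = c x then w.2.2 else 0
      have hs : f s = w := by simp [f, s, h1.symm, h2.symm, h3.symm]
      have hadd : ∀ τ, f (τ - s) = f τ - f s := fun τ => rfl
      apply Finset.card_bij (fun τ _ => τ - s)
      · intro τ hτ
        rw [Finset.mem_filter] at hτ ⊢
        exact ⟨Finset.mem_univ _, by rw [hadd, hs, hτ.2, sub_self]⟩
      · intro τ _ τ' _ e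
        exact sub_left_injective e
      · intro τ hτ
        rw [Finset.mem_filter] at hτ
        refine ⟨τ + s, ?_, by simp⟩
        rw [Finset.mem_filter]
        refine ⟨Finset.mem_univ _, ?_⟩
        have : f (τ + s) = f τ + f s := rfl
        rw [this, hτ.2, hs, zero_add]
    have tot : Fintype.card (Fin M → ZMod 3) =
        27 * (Finset.univ.filter (fun τ => f τ = 0)).card := by
      rw [← Finset.card_univ, Finset.card_eq_sum_card_fiberwise (f := f) (t := Finset.univ)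
        (fun _ _ => Finset.mem_univ _)]
      rw [Finset.sum_congr rfl (fun w _ => fib w)]
      rw [Finset.sum_const, smul_eq_mul, Finset.card_univ]
      congr 1
    have k : (Finset.univ.filter
        (fun τ : Fin M → ZMod 3 => kp (τ (a x)) (τ (b x)) (τ (c x)))).card =
        15 * (Finset.univ.filter (fun τ => f τ = 0)).card := by
      rw [Finset.card_eq_sum_card_fiberwise (f := f)
        (t := Finset.univ.filter (fun w : ZMod 3 × ZMod 3 × ZMod 3 => kp w.1 w.2.1 w.2.2))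
        (fun τ hτ => by
          rw [Finset.mem_coe, Finset.mem_filter] at hτ ⊢
          exact ⟨Finset.mem_univ _, hτ.2⟩)]
      have e : ∀ w ∈ Finset.univ.filter
          (fun w : ZMod 3 × ZMod 3 × ZMod 3 => kp w.1 w.2.1 w.2.2),
          ((Finset.univ.filter
            (fun τ : Fin M → ZMod 3 => kp (τ (a x)) (τ (b x)) (τ (c x)))).filter
              (fun τ => f τ = w)).card = (Finset.univ.filter (fun τ => f τ = 0)).card := by
        intro w hw
        rw [← fib w]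
        congr 1
        ext τ
        simp only [Finset.mem_filter, Finset.mem_univ, true_and] at hw ⊢
        constructor
        · exact fun h => h.2
        · intro h
          refine ⟨?_, h⟩
          have : kp (f τ).1 (f τ).2.1 (f τ).2.2 := by rw [h]; exact hw
          exact this
      rw [Finset.sum_congr rfl e, Finset.sum_const, smul_eq_mul]
      congr 1
    rw [tot, k]; ring
  have e1 : ∑ x ∈ A, (Finset.univ.filter
      (fun τ : Fin M → ZMod 3 => kp (τ (a x)) (τ (b x)) (τ (c x)))).card =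
      ∑ τ : Fin M → ZMod 3, (A.filter (fun x => kp (τ (a x)) (τ (b x)) (τ (c x)))).card := by
    simp only [Finset.card_filter]
    exact Finset.sum_comm
  have e2 : A.card * (5 * Fintype.card (Fin M → ZMod 3)) = 9 * ∑ x ∈ A, (Finset.univ.filter
      (fun τ : Fin M → ZMod 3 => kp (τ (a x)) (τ (b x)) (τ (c x)))).card := by
    rw [Finset.mul_sum, ← smul_eq_mul, ← Finset.sum_const]
    exact Finset.sum_congr rfl good
  have e3 : 9 * ∑ τ : Fin M → ZMod 3,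
      (A.filter (fun x => kp (τ (a x)) (τ (b x)) (τ (c x)))).card <
      Fintype.card (Fin M → ZMod 3) * (5 * A.card) := by
    rw [Finset.mul_sum, ← smul_eq_mul, ← Finset.card_univ, ← Finset.sum_const]
    apply Finset.sum_lt_sum_of_nonempty
    · exact ⟨fun _ => 0, Finset.mem_univ _⟩
    · intro τ _
      exact hcon τ
  rw [e1] at e2
  nlinarith

end Pool.Agent.KS6_27.PI
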