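import Mathlib
import Pool.Agent.KS6_27.Gen2
import Pool.Graph.R_seed8.H715R2.Cone

/-! # The lattice of the Littlewood conjecture: rigidity and flags -/

set_option autoImplicit false
set_option linter.unusedSectionVars false

open Finset Matrix Filter Topology H715R2 Module
open Pool.Agent.T6.H49.CSD (cj cj_one cj_mul cj_add cj_sub cj_smul cj_diagonal rigid)

namespace Pool.Agent.KS6_27

/-- the pair `α, β` is a counterexample with the bound `ν` -/
def Cx (ν α β : ℝ) : Prop :=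
  ∀ q p r : ℤ, q ≠ 0 → ν ≤ |(q : ℝ) * (α * q - p) * (β * q - r)|

/-- for a counterexample the numbers `1`, `α`, `β` are linearly independent -/
theorem Cx.indep {α β ν : ℝ} (hν0 : 0 < ν) (hν : Cx ν α β)
    (x y z : ℤ) (h : (x : ℝ) + y * α + z * β = 0) : x = 0 ∧ y = 0 ∧ z = 0 := by
  have hz : z = 0 := by
    by_contra hz
    obtain ⟨n, hn⟩ := exists_nat_gt ((z : ℝ) ^ 2 * |(y : ℝ)| / ν)
    have hn0 : (0 : ℝ) ≤ (z : ℝ) ^ 2 * |(y : ℝ)| / ν := by positivity
    have hnpos : 0 < n := by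
      have : (0 : ℝ) < n := lt_of_le_of_lt hn0 hn
      exact_mod_cast this
    obtain ⟨j, k, hk0, hkn, hjk⟩ := Real.exists_int_int_abs_mul_sub_le α hnpos
    have h1 := hν (z * k) (z * j) (-(x * k + y * j)) (mul_ne_zero hz hk0.ne')
    have e1 : α * ((z * k : ℤ) : ℝ) - ((z * j : ℤ) : ℝ) = z * (k * α - j) := by
      push_cast
      ring
    have e2 : β * ((z * k : ℤ) : ℝ) - ((-(x * k + y * j) : ℤ) : ℝ) = -(y * (k * α - j)) := by
      have h2 : β * z = -(x + y * α) := by linarith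
      push_cast
      calc β * (z * k) - -(x * k + y * j) = (β * z) * k + (x * k + y * j) := by ring
        _ = _ := by rw [h2]; ring
    rw [e1, e2, abs_mul, abs_mul, abs_mul, abs_neg, abs_mul] at h1
    have hkR : |((z * k : ℤ) : ℝ)| = |(z : ℝ)| * k := by
      push_cast
      rw [abs_mul, abs_of_pos (by exact_mod_cast hk0 : (0 : ℝ) < k)]
    have hk0R : (0 : ℝ) < k := by exact_mod_cast hk0
    have hknR : (k : ℝ) ≤ n := by exact_mod_cast hkn
    have hnR : (0 : ℝ) < n := by exact_mod_cast hnpos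
    rw [hkR] at h1
    have h3 : |(z : ℝ)| * k * (|(z : ℝ)| * |(k : ℝ) * α - j|) * (|(y : ℝ)| * |(k : ℝ) * α - j|) ≤
        (z : ℝ) ^ 2 * |(y : ℝ)| / n := by
      calc |(z : ℝ)| * k * (|(z : ℝ)| * |(k : ℝ) * α - j|) * (|(y : ℝ)| * |(k : ℝ) * α - j|) =
            |(z : ℝ)| ^ 2 * |(y : ℝ)| * (k * |(k : ℝ) * α - j| ^ 2) := by ring
        _ ≤ |(z : ℝ)| ^ 2 * |(y : ℝ)| * (n * (1 / ((n : ℝ) + 1)) ^ 2) := by gcongr
        _ = (z : ℝ) ^ 2 * |(y : ℝ)| * (n * (1 / ((n : ℝ) + 1)) ^ 2) := by rw [sq_abs]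
        _ ≤ (z : ℝ) ^ 2 * |(y : ℝ)| * (1 / n) := by
            refine mul_le_mul_of_nonneg_left ?_ (by positivity)
            rw [one_div, one_div, inv_pow, ← div_eq_mul_inv, div_le_iff₀ (by positivity),
              ← div_eq_inv_mul, le_div_iff₀ hnR]
            nlinarith
        _ = _ := by ring
    have h4 := h1.trans h3
    rw [le_div_iff₀ hnR] at h4
    rw [div_lt_iff₀ hν0] at hn
    linarith
  subst hz
  have hy : y = 0 := by
    by_contra hy
    have h1 := hν y (-x) 0 hy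
    have e1 : α * ((y : ℤ) : ℝ) - ((-x : ℤ) : ℝ) = 0 := by
      push_cast at h ⊢
      linarith
    rw [e1, mul_zero, zero_mul, abs_zero] at h1
    linarith
  subst hy
  have hx : x = 0 := by
    have : (x : ℝ) = 0 := by
      push_cast at h
      linarith
    exact_mod_cast this
  exact ⟨hx, rfl, rfl⟩

lemma LLm_sq (α β : ℝ) : LLm α β * LLm α β = 1 := by
  ext i j
  fin_cases i <;> fin_cases j <;>
    simp [LLm, Matrix.mul_apply, Fin.sum_univ_three]

lemma LLm_inv (α β : ℝ) : (LLm α β)⁻¹ = LLm α β :=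
  Matrix.inv_eq_left_inv (LLm_sq α β)

lemma LLm_det_ne (α β : ℝ) : (LLm α β).det ≠ 0 := by
  intro h
  have := LLm_det α β
  rw [h, abs_zero] at this
  exact zero_ne_one this

section entries

variable (α β α' β' : ℝ) (κ : Matrix (Fin 3) (Fin 3) ℤ)

lemma c2_LLm_10 : c2 (LLm α β) (LLm α' β') κ 1 0 =
    α * (κ 0 0 + κ 0 1 * α' + κ 0 2 * β') - (κ 1 0 + κ 1 1 * α' + κ 1 2 * β') := by
  rw [c2, LLm_inv]
  simp only [LLm, Matrix.mul_apply, Fin.sum_univ_three, zR, Matrix.map_apply, Matrix.of_apply,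
    Matrix.cons_val', Matrix.cons_val_zero, Matrix.cons_val_one, Matrix.cons_val,
    Matrix.cons_val_fin_one]
  ring

lemma c2_LLm_20 : c2 (LLm α β) (LLm α' β') κ 2 0 =
    β * (κ 0 0 + κ 0 1 * α' + κ 0 2 * β') - (κ 2 0 + κ 2 1 * α' + κ 2 2 * β') := by
  rw [c2, LLm_inv]
  simp only [LLm, Matrix.mul_apply, Fin.sum_univ_three, zR, Matrix.map_apply, Matrix.of_apply,
    Matrix.cons_val', Matrix.cons_val_zero, Matrix.cons_val_one, Matrix.cons_val,
    Matrix.cons_val_fin_one]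
  ring

lemma c2_LLm_12 : c2 (LLm α β) (LLm α' β') κ 1 2 = κ 1 2 - α * κ 0 2 := by
  rw [c2, LLm_inv]
  simp only [LLm, Matrix.mul_apply, Fin.sum_univ_three, zR, Matrix.map_apply, Matrix.of_apply,
    Matrix.cons_val', Matrix.cons_val_zero, Matrix.cons_val_one, Matrix.cons_val,
    Matrix.cons_val_fin_one]
  ring

lemma c2_LLm_21 : c2 (LLm α β) (LLm α' β') κ 2 1 = κ 2 1 - β * κ 0 1 := by
  rw [c2, LLm_inv]
  simp only [LLm, Matrix.mul_apply, Fin.sum_univ_three, zR, Matrix.map_apply, Matrix.of_apply,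
    Matrix.cons_val', Matrix.cons_val_zero, Matrix.cons_val_one, Matrix.cons_val,
    Matrix.cons_val_fin_one]
  ring

end entries

/-- the arithmetic lemma: only scalar matrices preserve a flag -/
lemma scal_aux {α β : ℝ} (hind : ∀ x y z : ℤ, (x : ℝ) + y * α + z * β = 0 → x = 0 ∧ y = 0 ∧ z = 0)
    (a b c d e f g : ℤ)
    (h1 : α * (a + b * α) - (c + d * α) = 0)
    (h2 : β * (a + b * α) - (e + f * α + g * β) = 0) :
    b = 0 ∧ c = 0 ∧ d = a ∧ e = 0 ∧ f = 0 ∧ g = a := by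
  have hb : b = 0 := by
    by_contra hb
    -- the norm of `b α + (a - g)`
    have hα2 : (b : ℝ) * α * α = c + (d - a) * α := by linarith
    have hβ : β * (b * α + (a - g)) = e + f * α := by linarith
    have key : β * ((b * c + (a - g) * (g - d) : ℤ) : ℝ) =
        ((f * c + e * (g - d) : ℤ) : ℝ) + ((e * b - f * (a - g) : ℤ) : ℝ) * α := by
      have e1 : (b * α + (a - g)) * (b * α + (g - d)) = (b * c + (a - g) * (g - d) : ℝ) := by
        have : (b * α + (a - g)) * (b * α + (g - d)) =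
            b * (b * α * α) + b * α * (a - d) + (a - g) * (g - d) := by ring
        rw [this, hα2]
        ring
      have e2 : (e + f * α) * (b * α + (g - d)) = (f * c + e * (g - d) : ℝ) +
          (e * b - f * (a - g)) * α := by
        have : (e + f * α) * (b * α + (g - d)) =
            f * (b * α * α) + (e * b + f * (g - d)) * α + e * (g - d) := by ring
        rw [this, hα2]
        ring
      push_cast
      rw [← e2, ← hβ, mul_assoc, e1]
    obtain ⟨-, -, h3⟩ := hind (-(f * c + e * (g - d))) (-(e * b - f * (a - g)))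
      (b * c + (a - g) * (g - d)) (by
        rw [Int.cast_neg, Int.cast_neg]
        linarith)
    have e1 : (b * α + (a - g)) * (b * α + (g - d)) = (b * c + (a - g) * (g - d) : ℝ) := by
      have : (b * α + (a - g)) * (b * α + (g - d)) =
          b * (b * α * α) + b * α * (a - d) + (a - g) * (g - d) := by ring
      rw [this, hα2]
      ring
    have h3R : (b * c + (a - g) * (g - d) : ℝ) = 0 := by exact_mod_cast h3
    rw [h3R] at e1
    rcases mul_eq_zero.1 e1 with h4 | h4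
    · exact hb (hind (a - g) b 0 (by push_cast; linarith)).2.1
    · exact hb (hind (g - d) b 0 (by push_cast; linarith)).2.1
  subst hb
  obtain ⟨h3, h4, -⟩ := hind (-c) (a - d) 0 (by push_cast at h1 ⊢; linarith)
  obtain ⟨h5, h6, h7⟩ := hind (-e) (-f) (a - g) (by push_cast at h2 ⊢; linarith)
  exact ⟨rfl, by omega, by omega, by omega, by omega, by omega⟩

theorem scalar_of_flag {α β : ℝ}
    (hind : ∀ x y z : ℤ, (x : ℝ) + y * α + z * β = 0 → x = 0 ∧ y = 0 ∧ z = 0)
    (κ : Matrix (Fin 3) (Fin 3) ℤ) (h10 : c2 (LLm α β) (LLm α β) κ 1 0 = 0)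
    (h20 : c2 (LLm α β) (LLm α β) κ 2 0 = 0)
    (h : c2 (LLm α β) (LLm α β) κ 1 2 = 0 ∨ c2 (LLm α β) (LLm α β) κ 2 1 = 0) :
    ∃ z : ℤ, κ = z • (1 : Matrix (Fin 3) (Fin 3) ℤ) := by
  rw [c2_LLm_10] at h10
  rw [c2_LLm_20] at h20
  rw [c2_LLm_12, c2_LLm_21] at h
  refine ⟨κ 0 0, ?_⟩
  rcases h with h | h
  · obtain ⟨e1, e2, -⟩ := hind (κ 1 2) (-κ 0 2) 0 (by push_cast; linarith)
    have e2' : κ 0 2 = 0 := by omega
    obtain ⟨f1, f2, f3, f4, f5, f6⟩ := scal_aux hind (κ 0 0) (κ 0 1) (κ 1 0) (κ 1 1) (κ 2 0)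
      (κ 2 1) (κ 2 2) (by
        rw [e1, e2'] at h10
        push_cast at h10
        linarith) (by
        rw [e2'] at h20
        push_cast at h20
        linarith)
    ext i j
    fin_cases i <;> fin_cases j <;> simp [*]
  · obtain ⟨e1, -, e2⟩ := hind (κ 2 1) 0 (-κ 0 1) (by push_cast; linarith)
    have e2' : κ 0 1 = 0 := by omega
    obtain ⟨f1, f2, f3, f4, f5, f6⟩ := scal_aux (α := β) (β := α)
      (fun x y z hxyz => by
        obtain ⟨g1, g2, g3⟩ := hind x z y (by linarith)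
        exact ⟨g1, g3, g2⟩) (κ 0 0) (κ 0 2) (κ 2 0) (κ 2 2) (κ 1 0)
      (κ 1 2) (κ 1 1) (by
        rw [e1, e2'] at h20
        push_cast at h20
        linarith) (by
        rw [e2'] at h10
        push_cast at h10
        linarith)
    ext i j
    fin_cases i <;> fin_cases j <;> simp [*]

/-- **Uniform rigidity deep in the cone.** -/
theorem rigid_deep {ν : ℝ} (hν : 0 < ν) : ∃ η ρ : ℝ, 0 < η ∧ 1 ≤ ρ ∧
    ∀ α β α' β' : ℝ, Cx ν α β → Cx ν α' β' → ∀ a a' : Fin 3 → ℝ, (∀ i, 0 < a i) →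
      ∏ i, a i = 1 → ρ < a 1 → ρ < a 2 → (∀ i, 0 < a' i) → ∏ i, a' i = 1 → ρ < a' 1 →
      ρ < a' 2 → ∀ κ : Matrix (Fin 3) (Fin 3) ℤ, κ ≠ 0 →
      ∃ i j, η < |c2 (diagonal a * LLm α β) (diagonal a' * LLm α' β') κ i j| := by
  classical
  obtain ⟨ρ₀, R₀, hρ₀, hR₀⟩ := exists_bound_loc (d := 3) (by norm_num) 1 ν one_pos hν
  set R : ℝ := max R₀ 1 with hR
  have hR1 : 1 ≤ R := le_max_right _ _
  refine ⟨min 1 ν / (2 * 3 * R), max ρ₀ 1, by positivity, le_max_right _ _,
    fun α β α' β' hc hc' a a' ha ha1 h1 h2 ha' ha1' h1' h2' κ hκ => ?_⟩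
  by_contra hcon
  push Not at hcon
  apply hκ
  set G := diagonal a * LLm α β with hG
  set H := diagonal a' * LLm α' β' with hH
  have hdetH : |H.det| = 1 := by
    rw [hH, det_mul, det_diagonal, ha1', one_mul]
    exact LLm_det α' β'
  have hne : H.det ≠ 0 := by
    intro h0
    rw [h0, abs_zero] at hdetH
    exact zero_ne_one hdetH
  have key : ∀ (α β : ℝ), Cx ν α β → ∀ (a : Fin 3 → ℝ), (∀ i, 0 < a i) → ∏ i, a i = 1 →
      ∀ (ρ : ℝ), ρ < a 1 → ρ < a 2 → ∀ m : Fin 3 → ℤ, m ≠ 0 →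
      (∀ i, |((diagonal a * LLm α β) *ᵥ iR m) i| ≤ ρ) → ν ≤ |FF (diagonal a * LLm α β) (iR m)| := by
    intro α β hc a ha ha1 ρ h1 h2 m hm hb
    have e1 : diagonal a * LLm α β * zR (1 : Matrix (Fin 3) (Fin 3) ℤ) = diagonal a * LLm α β := by
      rw [zR_one, Matrix.mul_one]
    have h3 := first_ne α β (γ := 1) ha (by simp) hm (ρ := ρ) h1 h2 (by rw [e1]; exact hb)
    rw [one_mulVec] at h3
    have h4 := hc (m 0) (m 1) (m 2) h3
    rw [← e1, FF_orb ha1, one_mulVec, FF_LLm]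
    exact h4
  obtain ⟨P, hP, hPR⟩ := hR₀ H hdetH (fun m hm hb => key α' β' hc' a' ha' ha1' ρ₀
    ((le_max_left _ _).trans_lt h1') ((le_max_left _ _).trans_lt h2') m hm hb)
  have hGC : G * zR (κ * P) = c2 G H κ * (H * zR P) := by
    rw [c2, zR_mul]
    calc G * (zR κ * zR P) = G * zR κ * 1 * zR P := by
          rw [Matrix.mul_one]; simp only [Matrix.mul_assoc]
      _ = G * zR κ * (H⁻¹ * H) * zR P := by
          rw [Matrix.nonsing_inv_mul _ (isUnit_iff_ne_zero.2 hne)]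
      _ = _ := by simp only [Matrix.mul_assoc]
  have hent : ∀ i j, |(G * zR (κ * P)) i j| ≤ min 1 ν / 2 := by
    intro i j
    rw [hGC, Matrix.mul_apply]
    calc |∑ l, c2 G H κ i l * (H * zR P) l j| ≤ ∑ l, |c2 G H κ i l * (H * zR P) l j| :=
          Finset.abs_sum_le_sum_abs _ _
      _ ≤ ∑ _l : Fin 3, min 1 ν / (2 * 3 * R) * R := by
          refine Finset.sum_le_sum fun l _ => ?_
          rw [abs_mul]
          exact mul_le_mul (hcon i l) ((hPR l j).trans (le_max_left _ _)) (abs_nonneg _)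
            (by positivity)
      _ = min 1 ν / 2 := by
          rw [Finset.sum_const, Finset.card_univ, Fintype.card_fin, nsmul_eq_mul]
          field_simp
          norm_num
  have h4 : (0 : ℝ) ≤ min 1 ν / 2 := by positivity
  have h5 : min 1 ν / 2 ≤ 1 := by
    have := min_le_left 1 ν
    linarith
  have hCP : κ * P = 0 := by
    ext l j
    by_contra hne'
    have hy : (fun l => (κ * P) l j) ≠ 0 := by
      intro h0
      exact hne' (congrFun h0 l)
    have h3 : ∀ i, |(G *ᵥ iR fun l => (κ * P) l j) i| ≤ min 1 ν / 2 := fun i => by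
      have := hent i j
      rw [Matrix.mul_apply] at this
      exact this
    have h6 := key α β hc a ha ha1 1 ((le_max_right _ _).trans_lt h1)
      ((le_max_right _ _).trans_lt h2) _ hy (fun i => (h3 i).trans h5)
    have h2 : |FF G (iR fun l => (κ * P) l j)| ≤ min 1 ν / 2 := by
      rw [FF_eq, Finset.abs_prod]
      calc ∏ i, |(G *ᵥ iR fun l => (κ * P) l j) i| ≤ ∏ _i : Fin 3, min 1 ν / 2 :=
            Finset.prod_le_prod (fun _ _ => abs_nonneg _) fun i _ => h3 i
        _ = (min 1 ν / 2) ^ 3 := by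
            rw [Finset.prod_const, Finset.card_univ, Fintype.card_fin]
        _ ≤ (min 1 ν / 2) ^ 1 := pow_le_pow_of_le_one h4 h5 (by norm_num)
        _ = _ := pow_one _
    have h7 : min 1 ν / 2 < ν := by
      have := min_le_right 1 ν
      linarith
    linarith
  calc κ = κ * (P * P⁻¹) := by rw [Matrix.mul_nonsing_inv _ hP, Matrix.mul_one]
    _ = 0 := by rw [← Matrix.mul_assoc, hCP, Matrix.zero_mul]

end Pool.Agent.KS6_27
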