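import Mathlib
import Pool.Agent.KS6_27.Pairs
import Pool.Agent.KS6_27.Cnt

/-! # The lattice of the Littlewood conjecture: encounters and complexity for algebraic pairs -/

set_option autoImplicit false
set_option linter.unusedSectionVars false

open Finset Matrix Filter Topology H715R2 Module
open Pool.Agent.T6.H49.CSD (cj cj_one cj_mul cj_add cj_sub cj_smul cj_diagonal rigid Cl)

namespace Pool.Agent.KS6_27

lemma LLm_alg {α β : ℝ} (hα : IsAlgebraic ℚ α) (hβ : IsAlgebraic ℚ β) (i j : Fin 3) :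
    IsAlgebraic ℚ (LLm α β i j) := by
  fin_cases i <;> fin_cases j <;>
    simp [LLm, hα, hβ, isAlgebraic_zero, isAlgebraic_one, IsAlgebraic.neg]

lemma c2_self (g : Matrix (Fin 3) (Fin 3) ℝ) (κ : Matrix (Fin 3) (Fin 3) ℤ) :
    c2 g g κ = cj g κ := rfl

/-- **Encounters of two orbits.** -/
theorem enc_pairs {α β α' β' : ℝ} (hα : IsAlgebraic ℚ α) (hβ : IsAlgebraic ℚ β)
    (hα' : IsAlgebraic ℚ α') (hβ' : IsAlgebraic ℚ β') {ν : ℝ} (hν : 0 < ν) (hc : Cx ν α β)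
    (hc' : Cx ν α' β') :
    ∃ ρ : ℝ, 1 ≤ ρ ∧ ∀ ε : ℝ, 0 < ε →
    ∃ η L₀ : ℝ, 0 < η ∧ ∀ L : ℝ, L₀ ≤ L → ∀ (a a' : Fin 3 → ℝ) (γ : Matrix (Fin 3) (Fin 3) ℤ),
      (∀ i, 0 < a i) → ∏ i, a i = 1 → ρ < a 1 → ρ < a 2 → (∀ i, 0 < a' i) → ∏ i, a' i = 1 →
      ρ < a' 1 → ρ < a' 2 →
      (∀ i, |Real.log (a i)| ≤ L) → (∀ i, |Real.log (a' i)| ≤ L) →
      γ.det ≠ 0 → |(γ.det : ℝ)| ≤ Real.exp (η * L) →
      (∀ i, Real.exp (-(η * L)) ≤ |a i * c2 (LLm α β) (LLm α' β') γ i i * (a' i)⁻¹| ∧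
        |a i * c2 (LLm α β) (LLm α' β') γ i i * (a' i)⁻¹| ≤ Real.exp (η * L)) →
      (∀ i j, i ≠ j → |a i * c2 (LLm α β) (LLm α' β') γ i j * (a' j)⁻¹| ≤ Real.exp (-(ε * L))) →
      ∀ i j, j ≠ i → a j ≤ a i → c2 (LLm α β) (LLm α' β') γ i j = 0 := by
  classical
  obtain ⟨c, ρ, hc0, hρ, hrig⟩ := rigid_deep hν
  refine ⟨ρ, hρ, fun ε hε => ?_⟩
  set P : (Fin 3 → ℝ) → (Fin 3 → ℝ) → Prop := fun a a' => ((∀ i, 0 < a i) ∧ ∏ i, a i = 1 ∧
    ρ < a 1 ∧ ρ < a 2) ∧ ((∀ i, 0 < a' i) ∧ ∏ i, a' i = 1 ∧ ρ < a' 1 ∧ ρ < a' 2) with hP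
  obtain ⟨η, L₀, hη, hmain⟩ := enc_scal (d := 3) (by norm_num) (LLm_det_ne α β)
    (LLm_det_ne α' β') (LLm_alg hα hβ) (LLm_alg hα' hβ') P (fun a a' h => h.1.1)
    (fun a a' h => h.2.1) hc0 hc0 (fun a a' h κ hκ => by
      obtain ⟨i, j, hij⟩ := hrig α β α β hc hc a a h.1.1 h.1.2.1 h.1.2.2.1 h.1.2.2.2 h.1.1
        h.1.2.1 h.1.2.2.1 h.1.2.2.2 κ hκ
      exact ⟨i, j, hij.le⟩) (fun a a' h κ hκ =>
      hrig α β α' β' hc hc' a a' h.1.1 h.1.2.1 h.1.2.2.1 h.1.2.2.2 h.2.1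
        h.2.2.1 h.2.2.2.1 h.2.2.2.2 κ hκ) (fun a a' h κ _ hz => by
      obtain ⟨⟨ha, ha1, h1, h2⟩, -⟩ := h
      have ha0 : a 0 ≤ 1 := by
        rw [Fin.prod_univ_three] at ha1
        have h3 : 1 ≤ a 1 * a 2 := one_le_mul_of_one_le_of_one_le (by linarith) (by linarith)
        have h4 : a 0 * 1 ≤ a 0 * (a 1 * a 2) := mul_le_mul_of_nonneg_left h3 (ha 0).le
        linarith
      refine scalar_of_flag (Cx.indep hν hc) κ (hz 1 0 (by decide) (by linarith))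
        (hz 2 0 (by decide) (by linarith)) ?_
      rcases le_total (a 1) (a 2) with h3 | h3
      · exact Or.inr (hz 2 1 (by decide) h3)
      · exact Or.inl (hz 1 2 (by decide) h3)) hε
  exact ⟨η, L₀, hη, fun L hL a a' γ ha ha1 h1 h2 ha' ha1' h1' h2' hLa hLa' =>
    hmain L hL a a' γ ⟨⟨ha, ha1, h1, h2⟩, ⟨ha', ha1', h1', h2'⟩⟩ hLa hLa'⟩

/-- **There are no exponentially good returns of the orbit of a pair.** -/
theorem enc_self {α β : ℝ} (hα : IsAlgebraic ℚ α) (hβ : IsAlgebraic ℚ β) {ν : ℝ} (hν : 0 < ν)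
    (hc : Cx ν α β) :
    ∃ ρ : ℝ, 1 ≤ ρ ∧ ∀ ε : ℝ, 0 < ε →
    ∃ η L₀ : ℝ, 0 < η ∧ ∀ L : ℝ, L₀ ≤ L → ∀ (a a' : Fin 3 → ℝ) (γ : Matrix (Fin 3) (Fin 3) ℤ),
      (∀ i, 0 < a i) → ∏ i, a i = 1 → ρ < a 1 → ρ < a 2 → (∀ i, 0 < a' i) → ∏ i, a' i = 1 →
      ρ < a' 1 → ρ < a' 2 →
      (∀ i, |Real.log (a i)| ≤ L) → (∀ i, |Real.log (a' i)| ≤ L) →
      γ.det ≠ 0 → |(γ.det : ℝ)| ≤ Real.exp (η * L) →
      (∀ i, Real.exp (-(η * L)) ≤ |a i * c2 (LLm α β) (LLm α β) γ i i * (a' i)⁻¹| ∧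
        |a i * c2 (LLm α β) (LLm α β) γ i i * (a' i)⁻¹| ≤ Real.exp (η * L)) →
      (∀ i j, i ≠ j → |a i * c2 (LLm α β) (LLm α β) γ i j * (a' j)⁻¹| ≤ Real.exp (-(ε * L))) →
      ∃ z : ℤ, γ = z • (1 : Matrix (Fin 3) (Fin 3) ℤ) := by
  obtain ⟨ρ, hρ, h⟩ := enc_pairs hα hβ hα hβ hν hc hc
  refine ⟨ρ, hρ, fun ε hε => ?_⟩
  obtain ⟨η, L₀, hη, hmain⟩ := h ε hε
  refine ⟨η, L₀, hη, fun L hL a a' γ ha ha1 h1 h2 ha' ha1' h1' h2' hLa hLa' hγ hdet hd ho => ?_⟩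
  have hz := hmain L hL a a' γ ha ha1 h1 h2 ha' ha1' h1' h2' hLa hLa' hγ hdet hd ho
  have ha0 : a 0 ≤ 1 := by
    rw [Fin.prod_univ_three] at ha1
    have h3 : 1 ≤ a 1 * a 2 := one_le_mul_of_one_le_of_one_le (by linarith) (by linarith)
    have h4 : a 0 * 1 ≤ a 0 * (a 1 * a 2) := mul_le_mul_of_nonneg_left h3 (ha 0).le
    linarith
  refine scalar_of_flag (Cx.indep hν hc) γ (hz 1 0 (by decide) (by linarith))
    (hz 2 0 (by decide) (by linarith)) ?_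
  rcases le_total (a 1) (a 2) with h3 | h3
  · exact Or.inr (hz 2 1 (by decide) h3)
  · exact Or.inl (hz 1 2 (by decide) h3)

/-- places of the cone -/
noncomputable def plc3 (M : ℝ) (u : Fin 2 → ℕ) : Fin 3 → ℝ :=
  ![(M * Real.exp (2 * u 0) * (M * Real.exp (2 * u 1)))⁻¹, M * Real.exp (2 * u 0),
    M * Real.exp (2 * u 1)]

lemma plc3_pos {M : ℝ} (hM : 0 < M) (u : Fin 2 → ℕ) (i : Fin 3) : 0 < plc3 M u i := by
  fin_cases i <;> simp [plc3] <;> positivity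

lemma plc3_prod {M : ℝ} (hM : 0 < M) (u : Fin 2 → ℕ) : ∏ i, plc3 M u i = 1 := by
  rw [Fin.prod_univ_three]
  simp only [plc3, Matrix.cons_val_zero, Matrix.cons_val_one, Matrix.cons_val]
  rw [mul_assoc]
  exact inv_mul_cancel₀ (by positivity)

lemma plc3_log {M : ℝ} (hM : 1 ≤ M) {n : ℕ} {u : Fin 2 → ℕ} (hu : ∀ i, u i ≤ n) (i : Fin 3) :
    |Real.log (plc3 M u i)| ≤ 2 * Real.log M + 4 * n := by
  have hM0 : 0 < M := by linarith
  have hlM : 0 ≤ Real.log M := Real.log_nonneg hM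
  have h0 : ((u 0 : ℕ) : ℝ) ≤ n := by exact_mod_cast hu 0
  have h1 : ((u 1 : ℕ) : ℝ) ≤ n := by exact_mod_cast hu 1
  have h2 : (0 : ℝ) ≤ u 0 := Nat.cast_nonneg _
  have h3 : (0 : ℝ) ≤ u 1 := Nat.cast_nonneg _
  have hlog : ∀ x : ℝ, Real.log (M * Real.exp x) = Real.log M + x := fun x => by
    rw [Real.log_mul hM0.ne' (Real.exp_pos _).ne', Real.log_exp]
  fin_cases i
  · simp only [plc3, Fin.zero_eta, Matrix.cons_val_zero]
    rw [Real.log_inv, abs_neg, Real.log_mul (by positivity) (by positivity), hlog, hlog,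
      abs_of_nonneg (by positivity)]
    linarith
  · simp only [plc3, Fin.mk_one, Matrix.cons_val_one, Matrix.cons_val_zero]
    rw [hlog, abs_of_nonneg (by positivity)]
    linarith
  · simp only [plc3, Fin.reduceFinMk, Matrix.cons_val]
    rw [hlog, abs_of_nonneg (by positivity)]
    linarith

/-- the number of places in a class is bounded -/
theorem class3 {α β : ℝ} (hα : IsAlgebraic ℚ α) (hβ : IsAlgebraic ℚ β) {ν : ℝ} (hν : 0 < ν)
    (hc : Cx ν α β) {K : ℝ} (hK : 1 ≤ K) :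
    ∃ (ρ : ℝ) (C : ℕ), 1 ≤ ρ ∧ ∀ ε₁ : ℝ, 0 < ε₁ → ∃ L₀ : ℝ, ∀ (L M : ℝ) (n : ℕ), L₀ ≤ L →
      ρ < M → 2 * Real.log M + 4 * n ≤ L → ∀ ε : ℝ, K * ε ≤ Real.exp (-(ε₁ * L)) →
      ε ≤ 1 / 2 → ∀ 𝓕 : Finset (Fin 2 → Fin (n + 1)),
      (∀ u ∈ 𝓕, ∀ u' ∈ 𝓕, Cl K ε (diagonal (plc3 M fun i => u i) * LLm α β)
        (diagonal (plc3 M fun i => u' i) * LLm α β)) → 𝓕.card ≤ C := by
  classical
  obtain ⟨ρ, hρ, h⟩ := enc_self hα hβ hν hc
  have hK0 : 0 < K := by linarith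
  obtain ⟨L₁, hL₁⟩ := exists_nat_ge (Real.log (2 * K))
  refine ⟨ρ, (2 * L₁ + 1) ^ 2, hρ, fun ε₁ hε₁ => ?_⟩
  obtain ⟨η, L₀, hη, hmain⟩ := h ε₁ hε₁
  refine ⟨max L₀ (Real.log (2 * K) / η), fun L M n hL hM hnL ε hε hε2 𝓕 hcl => ?_⟩
  have hM1 : 1 ≤ M := by linarith
  have hM0 : 0 < M := by linarith
  have hLη : Real.log (2 * K) ≤ η * L := by
    have := (le_max_right _ _).trans hL
    rw [div_le_iff₀ hη] at this
    linarith
  have h2K : 2 * K ≤ Real.exp (η * L) := by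
    rw [← Real.exp_log (by positivity : (0 : ℝ) < 2 * K)]
    exact Real.exp_le_exp.2 hLη
  rcases Finset.eq_empty_or_nonempty 𝓕 with h𝓕 | ⟨u₀, hu₀⟩
  · rw [h𝓕, Finset.card_empty]
    exact Nat.zero_le _
  set pl : (Fin 2 → Fin (n + 1)) → Fin 3 → ℝ := fun u => plc3 M fun i => u i with hpl
  have hpos : ∀ u i, 0 < pl u i := fun u i => plc3_pos hM0 _ i
  have hprod : ∀ u, ∏ i, pl u i = 1 := fun u => plc3_prod hM0 _
  have hlog : ∀ u i, |Real.log (pl u i)| ≤ L := fun u i =>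
    (plc3_log hM1 (fun i => Nat.lt_succ_iff.1 (u i).2) i).trans hnL
  have hpl1 : ∀ u : Fin 2 → Fin (n + 1), pl u 1 = M * Real.exp (2 * ((u 0 : ℕ) : ℝ)) := fun u => rfl
  have hpl2 : ∀ u : Fin 2 → Fin (n + 1), pl u 2 = M * Real.exp (2 * ((u 1 : ℕ) : ℝ)) := fun u => rfl
  have hge : ∀ x : ℕ, M ≤ M * Real.exp (2 * (x : ℝ)) := fun x =>
    le_mul_of_one_le_right hM0.le (Real.one_le_exp (by positivity))
  have hρ1 : ∀ u, ρ < pl u 1 := fun u => by
    rw [hpl1]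
    exact hM.trans_le (hge _)
  have hρ2 : ∀ u, ρ < pl u 2 := fun u => by
    rw [hpl2]
    exact hM.trans_le (hge _)
  -- the main estimate
  have hmain2 : ∀ u ∈ 𝓕, ∀ i, pl u₀ i / pl u i ≤ 2 * K ∧ pl u i / pl u₀ i ≤ 2 * K := by
    intro u hu i
    obtain ⟨δ, hδ⟩ := rt_of_cl (LLm_det_ne α β) le_rfl (hpos u) (hcl u hu u₀ hu₀)
    have hδ' := hδ
    obtain ⟨hdet, b, E, hb, hE, heq⟩ := hδ'
    have hb0 : ∀ i, 0 < b i := fun i => lt_of_lt_of_le (by positivity) (hb i).1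
    have hent : ∀ i j, pl u i * c2 (LLm α β) (LLm α β) δ i j * (pl u₀ j)⁻¹ =
        b i * (1 + E) i j := by
      intro i j
      rw [c2_self, heq]
      have e1 := (hpos u i).ne'
      have e2 := (hpos u₀ j).ne'
      change pl u i * ((pl u i)⁻¹ * b i * (1 + E) i j * pl u₀ j) * (pl u₀ j)⁻¹ = _
      field_simp
    have hdet1 : |(δ.det : ℝ)| = 1 := by
      rw [← Int.cast_abs, Int.isUnit_iff_abs_eq.1 hdet, Int.cast_one]
    have hL0 : 0 ≤ L := (abs_nonneg _).trans (hlog u₀ 0)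
    obtain ⟨z, hz⟩ := hmain L ((le_max_left _ _).trans hL) (pl u) (pl u₀) δ (hpos u) (hprod u)
      (hρ1 u) (hρ2 u) (hpos u₀) (hprod u₀) (hρ1 u₀) (hρ2 u₀) (hlog u) (hlog u₀)
      (by
        rcases Int.isUnit_iff.1 hdet with h | h <;> rw [h] <;> decide)
      (by
        rw [hdet1]
        exact Real.one_le_exp (by positivity)) (fun i => by
        rw [hent, Matrix.add_apply, Matrix.one_apply_eq, abs_mul, abs_of_pos (hb0 i)]
        have h1 := abs_le.1 ((hE i i).trans hε2)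
        have h2 : 0 ≤ 1 + E i i := by linarith
        rw [abs_of_nonneg h2]
        constructor
        · rw [Real.exp_neg]
          calc (Real.exp (η * L))⁻¹ ≤ (2 * K)⁻¹ := inv_anti₀ (by positivity) h2K
            _ = 1 / K * (1 / 2) := by field_simp
            _ ≤ b i * (1 + E i i) :=
              mul_le_mul (hb i).1 (by linarith) (by norm_num) (hb0 i).le
        · calc b i * (1 + E i i) ≤ K * 2 :=
              mul_le_mul (hb i).2 (by linarith) h2 hK0.le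
            _ = 2 * K := by ring
            _ ≤ _ := h2K) (fun i j hij => by
        rw [hent, Matrix.add_apply, Matrix.one_apply_ne hij, zero_add, abs_mul,
          abs_of_pos (hb0 i)]
        exact (mul_le_mul (hb i).2 (hE i j) (abs_nonneg _) hK0.le).trans hε)
    have h1 := Rt.diag_ge hK hε2 (hpos u) (hpos u₀) hδ i
    have h2 := Rt.diag_le hK hε2 (hpos u) (hpos u₀) hδ i
    have e1 := hpos u i
    have e2 := hpos u₀ i
    have hcj : cj (LLm α β) δ i i = z := by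
      rw [hz, cj_smul, cj_one (LLm_det_ne α β), Matrix.smul_apply, Matrix.one_apply_eq,
        smul_eq_mul, mul_one]
    rw [hcj] at h1 h2
    have hzpos : (0 : ℝ) < z := lt_of_lt_of_le (by positivity) h1
    have hz1 : (z : ℝ) = 1 := by
      have h3 : |(z : ℝ)| ^ 3 = 1 := by
        rw [hz, Matrix.det_smul, Matrix.det_one, mul_one, Fintype.card_fin] at hdet1
        push_cast at hdet1
        rw [abs_pow] at hdet1
        exact hdet1
      rw [abs_of_pos hzpos] at h3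
      exact (pow_eq_one_iff_of_nonneg hzpos.le (by norm_num)).1 h3
    rw [hz1] at h1 h2
    constructor
    · rw [mul_one_div, div_le_iff₀ (by positivity), one_mul] at h1
      exact h1
    · rw [div_mul_eq_mul_div, le_div_iff₀ e1, one_mul] at h2
      rw [div_le_iff₀ e2]
      linarith
  have hlogd : ∀ u ∈ 𝓕, ∀ i, |Real.log (pl u i) - Real.log (pl u₀ i)| ≤ L₁ := by
    intro u hu i
    obtain ⟨h1, h2⟩ := hmain2 u hu i
    have e1 := hpos u i
    have e2 := hpos u₀ i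
    have h3 := Real.log_le_log (div_pos e2 e1) h1
    have h4 := Real.log_le_log (div_pos e1 e2) h2
    rw [Real.log_div e2.ne' e1.ne'] at h3
    rw [Real.log_div e1.ne' e2.ne'] at h4
    rw [abs_le]
    constructor <;> linarith
  have hdiff : ∀ u ∈ 𝓕, ∀ i : Fin 2, |((((u i : ℕ) : ℤ) - ((u₀ i : ℕ) : ℤ) : ℤ) : ℝ)| ≤ L₁ := by
    intro u hu i
    have hlogM : ∀ x : ℝ, Real.log (M * Real.exp x) = Real.log M + x := fun x => by
      rw [Real.log_mul hM0.ne' (Real.exp_pos _).ne', Real.log_exp]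
    have key : |2 * (((u i : ℕ) : ℝ)) - 2 * ((u₀ i : ℕ) : ℝ)| ≤ L₁ := by
      fin_cases i
      · have h1 := hlogd u hu 1
        rw [hpl1, hpl1, hlogM, hlogM] at h1
        simpa using h1
      · have h1 := hlogd u hu 2
        rw [hpl2, hpl2, hlogM, hlogM] at h1
        simpa using h1
    rw [← mul_sub, abs_mul, abs_two] at key
    push_cast
    have := abs_nonneg (((u i : ℕ) : ℝ) - ((u₀ i : ℕ) : ℝ))
    linarith
  set T : Finset (Fin 2 → ℤ) := Fintype.piFinset fun _ => Finset.Icc (-(L₁ : ℤ)) L₁ with hT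
  have hTcard : T.card = (2 * L₁ + 1) ^ 2 := by
    rw [hT, Fintype.card_piFinset, Finset.prod_const, Finset.card_univ, Fintype.card_fin,
      Int.card_Icc]
    congr 1
    omega
  rw [← hTcard]
  refine Finset.card_le_card_of_injOn (fun u l => ((u l : ℕ) : ℤ) - ((u₀ l : ℕ) : ℤ)) ?_ ?_
  · intro u hu
    rw [Finset.mem_coe, hT, Fintype.mem_piFinset]
    intro l
    rw [Finset.mem_Icc, ← abs_le]
    exact_mod_cast hdiff u hu l
  · intro u _ u' _ heq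
    funext l
    have h1 := congrFun heq l
    simp only at h1
    have h2 : (u l : ℕ) = (u' l : ℕ) := by omega
    exact Fin.ext h2

/-- **The complexity of the cone orbit of a pair of algebraic numbers.** -/
theorem complexity3 {α β : ℝ} (hα : IsAlgebraic ℚ α) (hβ : IsAlgebraic ℚ β) {ν : ℝ}
    (hν : 0 < ν) (hc : Cx ν α β) {K : ℝ} (hK : 1 ≤ K) (A : ℕ) :
    ∃ ε₀ : ℝ, 0 < ε₀ ∧ ∀ ε : ℝ, 0 < ε → ε < ε₀ → ∀ N : ℝ, N ≤ (1 / ε) ^ A →
      ∀ (k : ℕ) (col : (Fin 3 → ℝ) → Fin k),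
      (∀ a a' : Fin 3 → ℝ, (∀ i, 0 < a i) → ∏ i, a i = 1 → N ≤ a 1 → N ≤ a 2 →
        (∀ i, 0 < a' i) → ∏ i, a' i = 1 → N ≤ a' 1 → N ≤ a' 2 → col a = col a' →
        Cl K ε (diagonal a * LLm α β) (diagonal a' * LLm α β)) →
      A * Real.log (1 / ε) ^ 2 ≤ k := by
  classical
  obtain ⟨ρ, C, hρ, hC⟩ := class3 hα hβ hν hc hK
  have hK0 : 0 < K := by linarith
  set y : ℝ := A * (C + 1) + 1 with hy
  have hy1 : 1 ≤ y := by
    rw [hy]
    have : (0 : ℝ) ≤ A * (C + 1) := by positivity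
    linarith
  have hy0 : 0 < y := by linarith
  set c : ℝ := 2 * (A + 1) + 4 * y with hcdef
  have hc0 : 0 < c := by positivity
  set ε₁ : ℝ := 1 / (2 * c) with hε₁
  have hε₁0 : 0 < ε₁ := by positivity
  obtain ⟨L₀, hL₀⟩ := hC ε₁ hε₁0
  set ℓ₀ : ℝ := |L₀| + Real.log (ρ + 1) + 2 * Real.log K + 2 with hℓ₀
  have hlogK : 0 ≤ Real.log K := Real.log_nonneg hK
  have hlogρ : 0 ≤ Real.log (ρ + 1) := Real.log_nonneg (by linarith)
  refine ⟨Real.exp (-ℓ₀), Real.exp_pos _, fun ε hε0 hε N hN k col hcol => ?_⟩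
  set ℓ : ℝ := Real.log (1 / ε) with hℓ
  have hεℓ : ε = Real.exp (-ℓ) := by
    rw [hℓ, one_div, Real.log_inv, neg_neg, Real.exp_log hε0]
  have hℓℓ : ℓ₀ < ℓ := by
    rw [hεℓ, Real.exp_lt_exp] at hε
    linarith
  have habsL := abs_nonneg L₀
  have hℓ2 : 2 < ℓ := by linarith
  have hℓ0 : 0 < ℓ := by linarith
  set n : ℕ := ⌊ℓ * y⌋₊ with hn
  have hnle : (n : ℝ) ≤ ℓ * y := Nat.floor_le (by positivity)
  have hnge : ℓ * y < n + 1 := Nat.lt_floor_add_one _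
  set L : ℝ := c * ℓ with hL
  have hℓL : ℓ ≤ L := by
    rw [hL]
    have h1 : 1 ≤ c := by
      rw [hcdef]
      have : (0 : ℝ) ≤ A := Nat.cast_nonneg _
      linarith
    nlinarith
  have hLL₀ : L₀ ≤ L := by
    have := le_abs_self L₀
    linarith
  set M : ℝ := max ((1 / ε) ^ A) (ρ + 1) with hM
  have hMρ : ρ < M := lt_of_lt_of_le (by linarith) (le_max_right _ _)
  have hNM : N ≤ M := hN.trans (le_max_left _ _)
  have hM0 : 0 < M := by linarith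
  have hlogM : Real.log M ≤ (A + 1) * ℓ := by
    have h1 : M ≤ Real.exp ((A + 1) * ℓ) := by
      refine max_le ?_ ?_
      · have h2 : (1 : ℝ) / ε = Real.exp ℓ := by
          rw [hℓ, Real.exp_log (by positivity)]
        rw [h2, ← Real.exp_nat_mul]
        exact Real.exp_le_exp.2 (by nlinarith)
      · have h2 : ρ + 1 ≤ Real.exp ℓ := by
          rw [← Real.exp_log (by linarith : (0 : ℝ) < ρ + 1)]
          exact Real.exp_le_exp.2 (by linarith)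
        refine h2.trans (Real.exp_le_exp.2 ?_)
        have : (0 : ℝ) ≤ A := Nat.cast_nonneg _
        nlinarith
    have h2 := Real.log_le_log hM0 h1
    rwa [Real.log_exp] at h2
  have hnL : 2 * Real.log M + 4 * n ≤ L := by
    rw [hL, hcdef]
    calc 2 * Real.log M + 4 * n ≤ 2 * ((A + 1) * ℓ) + 4 * (ℓ * y) := by linarith
      _ = _ := by ring
  have hεK : K * ε ≤ Real.exp (-(ε₁ * L)) := by
    have h1 : ε₁ * L = ℓ / 2 := by
      rw [hε₁, hL]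
      field_simp
    rw [h1, hεℓ]
    have h2 : K ≤ Real.exp (ℓ / 2) := by
      rw [← Real.exp_log hK0]
      exact Real.exp_le_exp.2 (by linarith)
    calc K * Real.exp (-ℓ) ≤ Real.exp (ℓ / 2) * Real.exp (-ℓ) := by gcongr
      _ = _ := by
          rw [← Real.exp_add]
          congr 1
          ring
  have hε2 : ε ≤ 1 / 2 := by
    rw [hεℓ]
    have h1 : Real.exp (-ℓ) ≤ Real.exp (-1) := Real.exp_le_exp.2 (by linarith)
    have h2 := Real.exp_neg_one_lt_half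
    linarith
  have hM1 : 1 ≤ M := by linarith
  have hge : ∀ x : ℕ, M ≤ M * Real.exp (2 * (x : ℝ)) := fun x =>
    le_mul_of_one_le_right hM0.le (Real.one_le_exp (by positivity))
  -- the pigeonhole principle
  have hk : (n + 1) ^ 2 ≤ k * C := by
    have h1 : Fintype.card (Fin 2 → Fin (n + 1)) = (n + 1) ^ 2 := by
      rw [Fintype.card_fun, Fintype.card_fin, Fintype.card_fin]
    rw [← h1, ← Finset.card_univ]
    have h2 := Finset.card_le_mul_card_image_of_maps_to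
      (s := (Finset.univ : Finset (Fin 2 → Fin (n + 1)))) (t := (Finset.univ : Finset (Fin k)))
      (f := fun u => col (plc3 M fun i => u i)) (fun _ _ => Finset.mem_univ _)
      C (fun j _ => ?_)
    · rw [Finset.card_univ (α := Fin k), Fintype.card_fin] at h2
      rw [mul_comm]
      exact h2
    · refine hL₀ L M n hLL₀ hMρ hnL ε hεK hε2 _ fun u hu u' hu' => ?_
      refine hcol _ _ (plc3_pos hM0 _) (plc3_prod hM0 _) (hNM.trans (hge _)) (hNM.trans (hge _))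
        (plc3_pos hM0 _) (plc3_prod hM0 _) (hNM.trans (hge _)) (hNM.trans (hge _))
        ((Finset.mem_filter.1 hu).2.trans (Finset.mem_filter.1 hu').2.symm)
  have hk3 : (ℓ * y) ^ 2 ≤ k * C := by
    have h1 : (ℓ * y) ^ 2 ≤ ((n : ℝ) + 1) ^ 2 := pow_le_pow_left₀ (by positivity) hnge.le _
    refine h1.trans ?_
    exact_mod_cast hk
  have hk4 : ℓ ^ 2 * y ≤ k * C := by
    calc ℓ ^ 2 * y ≤ ℓ ^ 2 * y ^ 2 := by
          refine mul_le_mul_of_nonneg_left ?_ (by positivity)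
          nlinarith
      _ = (ℓ * y) ^ 2 := by rw [mul_pow]
      _ ≤ k * C := hk3
  have hk5 : ℓ ^ 2 * (A * (C + 1)) ≤ k * (C + 1) := by
    calc ℓ ^ 2 * (A * (C + 1)) ≤ ℓ ^ 2 * y :=
          mul_le_mul_of_nonneg_left (by rw [hy]; linarith) (by positivity)
      _ ≤ k * C := hk4
      _ ≤ k * (C + 1) := mul_le_mul_of_nonneg_left (by linarith) (Nat.cast_nonneg k)
  have hC1 : (0 : ℝ) < (C : ℝ) + 1 := by positivity
  have h6 : (A * ℓ ^ 2) * ((C : ℝ) + 1) ≤ k * (C + 1) := by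
    calc (A * ℓ ^ 2) * ((C : ℝ) + 1) = ℓ ^ 2 * (A * (C + 1)) := by ring
      _ ≤ _ := hk5
  exact le_of_mul_le_mul_right h6 hC1

end Pool.Agent.KS6_27
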