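import Mathlib
import Pool.Graph.R_seed8.Results.MP_02e9fb_an.PowersNotCommuting

set_option autoImplicit false

/-!
# Recurrence along digit sets with arbitrary scales

The positivity part of the library's argument for the digit set works for the same digits with an
arbitrary sequence of scales, and with all the positions beyond a given one.
-/

namespace Pool.Agent.KS6_27.RC

open Finset MeasureTheory
open Pool.Agent.Helper406.Rec (avg ind ind_true ind_false ind_nonneg ind_le_one ind_and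
  integral_ind integrable_ind avg_mono avg_const avg_le_one avg_sum avg_mul_left avg_congr
  Pt Sub avg_restrict' dhj3)
open Pool.Agent.Helper406.Rec2

universe u

/-- the digit set with the scales `L` and the positions at least `m₀` -/
def InL (L : ℕ → ℕ) (m₀ : ℕ) (N : ℕ) : Prop :=
  ∃ (J : Finset ℕ) (s : ℕ → ℕ), (∀ i ∈ J, m₀ ≤ i ∧ s i % qq i ≤ 1 ∧ s i ≤ i) ∧
    Far (∑ i ∈ J, om (qq i) (s i)) ∧ N = ∑ i ∈ J, s i * L i

lemma inL_of (L : ℕ → ℕ) (m₀ : ℕ) {ι : Type} [Fintype ι] [DecidableEq ι] (g : ι → ℕ)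
    (hg : Function.Injective g)
    (s : ι → ℕ) (hs : ∀ i, m₀ ≤ g i ∧ s i % qq (g i) ≤ 1 ∧ s i ≤ g i)
    (h3 : Far (∑ i, om (qq (g i)) (s i))) :
    InL L m₀ (∑ i, s i * L (g i)) := by
  classical
  refine ⟨Finset.univ.image g, Function.extend g s 0, ?_, ?_, ?_⟩
  · intro i hi
    obtain ⟨p, _, rfl⟩ := Finset.mem_image.1 hi
    rw [hg.extend_apply]
    exact hs p
  · rw [Finset.sum_image (fun a _ b _ h => hg h)]
    have : ∀ i ∈ (Finset.univ : Finset ι), om (qq (g i)) (Function.extend g s 0 (g i))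
        = om (qq (g i)) (s i) := by
      intro i _
      rw [hg.extend_apply]
    rw [Finset.sum_congr rfl this]
    exact h3
  · rw [Finset.sum_image (fun a _ b _ h => hg h)]
    apply Finset.sum_congr rfl
    intro p _
    rw [hg.extend_apply]

theorem positivity_core (L : ℕ → ℕ) (m₀ : ℕ) {X : Type u} [MeasurableSpace X] (μ : Measure X) [IsProbabilityMeasure μ]
    (S : Act μ) {A : Set X} (hA : MeasurableSet A) (hpos : 0 < μ A)
    (p : ℕ) [Fact p.Prime] (hodd : Odd p) (k1 k2 : ℤ)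
    (hsum : (p : ℤ) ∣ k1 + k2) (hk : ¬ (p : ℤ) ∣ k1) :
    ∃ N : ℕ, InL L m₀ N ∧ 0 < nz μ S A k1 k2 N := by
  classical
  by_contra hcon
  push Not at hcon
  have hzero : ∀ N : ℕ, InL L m₀ N → nz μ S A k1 k2 N = 0 := fun N hN =>
    le_antisymm (hcon N hN) (nz_nonneg μ S A k1 k2 N)
  set δ : ℝ := μ.real A with hδdef
  have hδ : 0 < δ := by
    rw [hδdef, Measure.real]
    exact ENNReal.toReal_pos hpos.ne' (measure_ne_top μ A)
  have hp3 : 3 ≤ p := by
    have h2 := (Fact.out : p.Prime).two_le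
    obtain ⟨m, hm⟩ := hodd
    omega
  obtain ⟨σ, xx, uu, vv, c, hc0, hc1, hσ, hu, hv, hcyc⟩ := cycle_data p hodd k1 k2 hsum hk
  obtain ⟨M, hM⟩ : ∃ M, ∀ a b, σ a b ≤ M := by
    refine ⟨∑ a, ∑ b, σ a b, fun a b => ?_⟩
    calc σ a b ≤ ∑ b, σ a b :=
          Finset.single_le_sum (f := fun b => σ a b) (fun _ _ => Nat.zero_le _) (Finset.mem_univ b)
      _ ≤ ∑ a, ∑ b, σ a b :=
          Finset.single_le_sum (f := fun a => ∑ b, σ a b) (fun _ _ => Nat.zero_le _)
            (Finset.mem_univ a)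
  obtain ⟨d, hd⟩ := dhj3 (δ / 2) (by linarith)
  set cst : ℝ := δ / 2 / 4 ^ d with hcst
  have hcpos : 0 < cst := by positivity
  set ρ : ℝ := (2 + Real.sqrt (4 - c)) / 4 with hρ
  have hρ0 : 0 < ρ := by positivity
  have hρ1 : ρ < 1 := by
    have : Real.sqrt (4 - c) < 2 := by
      rw [show (2:ℝ) = Real.sqrt 4 by
        rw [show (4:ℝ) = 2 ^ 2 by norm_num]; exact (Real.sqrt_sq (by norm_num)).symm]
      exact Real.sqrt_lt_sqrt (by linarith) (by linarith)
    rw [hρ]; linarith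
  obtain ⟨m, hm⟩ : ∃ m : ℕ, ρ ^ m < cst ^ 2 / 4 :=
    exists_pow_lt_of_lt_one (by positivity) hρ1
  let idx : Fin d × Fin m → ℕ := fun q => Nat.pair (p - 3) (M + m₀ + (finProdFinEquiv q : ℕ))
  have hidx : Function.Injective idx := by
    intro q r hqr
    have h1 := (Nat.pair_eq_pair.1 hqr).2
    exact finProdFinEquiv.injective (Fin.ext (by omega))
  have hqq : ∀ q, qq (idx q) = p := by
    intro q
    simp only [idx, qq, Nat.unpair_pair]
    omega
  have hge0 : ∀ q, M + m₀ ≤ idx q := by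
    intro q
    have := Nat.right_le_pair (p - 3) (M + m₀ + (finProdFinEquiv q : ℕ))
    simp only [idx]
    omega
  have hge : ∀ q, M ≤ idx q := fun q => by have := hge0 q; omega
  let ev : (Fin d × Fin m → ZMod p × Fin 2) → Fin d → ℤ := fun t j =>
    ∑ i : Fin m, (σ (t (j, i)).1 (t (j, i)).2 : ℤ) * (L (idx (j, i)) : ℤ)
  have h1 : ∀ t, δ / 2 ≤ ∑ φ : Fin d → Fin 3 ⊕ Unit, ind (∃ j, φ j = Sum.inr ()) *
      nz μ S A k1 k2 (sz φ (ev t)) := by
    intro t
    exact ip_roth_z μ S k1 k2 hA δ hδ le_rfl d (fun D hD => hd (Fin d) (by simp) D hD) (ev t)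
  have h2 : δ / 2 ≤ ∑ φ : Fin d → Fin 3 ⊕ Unit, ind (∃ j, φ j = Sum.inr ()) *
      avg (fun t => nz μ S A k1 k2 (sz φ (ev t))) := by
    have h3 : avg (fun _ : Fin d × Fin m → ZMod p × Fin 2 => δ / 2) ≤
        avg (fun t => ∑ φ : Fin d → Fin 3 ⊕ Unit, ind (∃ j, φ j = Sum.inr ()) *
      nz μ S A k1 k2 (sz φ (ev t))) := avg_mono h1
    rw [avg_const, avg_sum] at h3
    refine h3.trans (le_of_eq ?_)
    apply Finset.sum_congr rfl; intro φ _
    rw [avg_mul_left]
  obtain ⟨φ, hφ⟩ : ∃ φ : Fin d → Fin 3 ⊕ Unit, cst ≤ ind (∃ j, φ j = Sum.inr ()) *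
      avg (fun t => nz μ S A k1 k2 (sz φ (ev t))) := by
    by_contra hcon2
    push Not at hcon2
    have h3 : ∑ φ : Fin d → Fin 3 ⊕ Unit, ind (∃ j, φ j = Sum.inr ()) *
      avg (fun t => nz μ S A k1 k2 (sz φ (ev t))) < ∑ _φ : Fin d → Fin 3 ⊕ Unit, cst :=
      Finset.sum_lt_sum_of_nonempty Finset.univ_nonempty fun φ _ => hcon2 φ
    have h4 : ∑ _φ : Fin d → Fin 3 ⊕ Unit, cst = δ / 2 := by
      rw [Finset.sum_const, Finset.card_univ, nsmul_eq_mul, Fintype.card_fun]
      simp only [Fintype.card_sum, Fintype.card_fin, Fintype.card_unit]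
      rw [hcst]
      push_cast
      norm_num
      field_simp
    linarith
  have hline : ∃ j, φ j = Sum.inr () := by
    by_contra hno
    rw [ind_false hno, zero_mul] at hφ
    linarith
  rw [ind_true hline, one_mul] at hφ
  obtain ⟨j0, hj0⟩ := hline
  have hst : ∀ t, sz φ (ev t) = ∑ q : {q : Fin d × Fin m // φ q.1 = Sum.inr ()},
      (σ (t q).1 (t q).2 : ℤ) * (L (idx q) : ℤ) := by
    intro t
    unfold sz
    have e1 : ∑ q : {q : Fin d × Fin m // φ q.1 = Sum.inr ()},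
        (σ (t q).1 (t q).2 : ℤ) * (L (idx q) : ℤ)
        = ∑ q : Fin d × Fin m, if φ q.1 = Sum.inr () then
          (σ (t q).1 (t q).2 : ℤ) * (L (idx q) : ℤ) else 0 := by
      rw [← Finset.sum_filter]
      exact (Finset.sum_subtype (p := fun q : Fin d × Fin m => φ q.1 = Sum.inr ()) _
        (by intro x; simp) (fun q : Fin d × Fin m =>
          (σ (t q).1 (t q).2 : ℤ) * (L (idx q) : ℤ))).symm
    rw [e1, Fintype.sum_prod_type]
    apply Finset.sum_congr rfl; intro j _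
    cases hj : φ j with
    | inl a => simp [hj]
    | inr k => simp [hj, ev]
  have h5 : avg (fun t => nz μ S A k1 k2 (sz φ (ev t)))
      = avg (fun t : {q : Fin d × Fin m // φ q.1 = Sum.inr ()} → ZMod p × Fin 2 =>
        nz μ S A k1 k2 (∑ q, (σ (t q).1 (t q).2 : ℤ) * (L (idx q) : ℤ))) := by
    rw [← avg_restrict' (fun q : Fin d × Fin m => φ q.1 = Sum.inr ())
      (fun t : {q : Fin d × Fin m // φ q.1 = Sum.inr ()} → ZMod p × Fin 2 =>
        nz μ S A k1 k2 (∑ q, (σ (t q).1 (t q).2 : ℤ) * (L (idx q) : ℤ)))]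
    apply avg_congr; intro t
    rw [hst]
  have h6 := decay_z μ S (fun a b => ee (om p (σ a b))) (fun a b => norm_ee _) c hc1 hcyc k1 k2
    (fun a b => (σ a b : ℤ)) xx uu vv hu hv hA {q : Fin d × Fin m // φ q.1 = Sum.inr ()}
    (fun q => (L (idx q) : ℤ)) ?_
  · rw [← h5] at h6
    have h7 : m ≤ Fintype.card {q : Fin d × Fin m // φ q.1 = Sum.inr ()} := by
      have : Fintype.card (Fin m) ≤ Fintype.card {q : Fin d × Fin m // φ q.1 = Sum.inr ()} := by
        apply Fintype.card_le_of_injective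
          (fun i : Fin m => (⟨(j0, i), hj0⟩ : {q : Fin d × Fin m // φ q.1 = Sum.inr ()}))
        intro a b hab
        simpa using hab
      simpa using this
    have h8 : ρ ^ (Fintype.card {q : Fin d × Fin m // φ q.1 = Sum.inr ()}) ≤ ρ ^ m :=
      pow_le_pow_of_le_one hρ0.le hρ1.le h7
    have h9 : cst ^ 2 ≤ (avg (fun t => nz μ S A k1 k2 (sz φ (ev t)))) ^ 2 :=
      pow_le_pow_left₀ hcpos.le hφ 2
    linarith
  · intro t ht
    rw [ee_sum] at ht
    have hfar : Far (∑ q, om p (σ (t q).1 (t q).2)) := by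
      by_contra hnf
      have := ee_re_ge hnf
      linarith
    have h10 := inL_of L m₀ (fun q : {q : Fin d × Fin m // φ q.1 = Sum.inr ()} => idx q)
      (fun a b hab => Subtype.ext (hidx hab)) (fun q => σ (t q).1 (t q).2)
      (fun q => ⟨by have := hge0 q.1; omega, by rw [hqq]; exact hσ _ _, (hM _ _).trans (hge _)⟩)
      (by
        have : ∀ q : {q : Fin d × Fin m // φ q.1 = Sum.inr ()},
            om (qq (idx q)) (σ (t q).1 (t q).2) = om p (σ (t q).1 (t q).2) := by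
          intro q; rw [hqq]
        rw [Finset.sum_congr rfl fun q _ => this q]
        exact hfar)
    have h11 := hzero _ h10
    push_cast at h11
    exact h11


section

variable {X : Type u} [MeasurableSpace X] (μ : Measure X) [IsProbabilityMeasure μ]
  (S : Act μ) {A : Set X}

theorem positivity_cop (L : ℕ → ℕ) (m₀ : ℕ) (hA : MeasurableSet A) (hpos : 0 < μ A) (g K1 K2 : ℤ)
    (hcop : IsCoprime K1 K2) (h : Gd (K1 + K2)) :
    ∃ N : ℕ, InL L m₀ N ∧ 0 < nz μ S A (g * K1) (g * K2) N := by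
  have main : ∀ p : ℕ, p.Prime → Odd p → (p : ℤ) ∣ K1 + K2 →
      ∃ N : ℕ, InL L m₀ N ∧ 0 < nz μ S A (g * K1) (g * K2) N := by
    intro p hp hodd hdvd
    have := Fact.mk hp
    have hk : ¬ (p : ℤ) ∣ K1 := by
      intro h1
      have h2 : (p : ℤ) ∣ K2 := (Int.dvd_add_right h1).1 hdvd
      have h3 := hcop.isUnit_of_dvd' h1 h2
      rw [Int.isUnit_iff] at h3
      have := hp.two_le
      omega
    obtain ⟨N, hN, hpos'⟩ := positivity_core L m₀ μ (S.mul μ g) hA hpos p hodd K1 K2 hdvd hk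
    rw [nz_mul] at hpos'
    exact ⟨N, hN, hpos'⟩
  rcases h with h | ⟨p, hp, hodd, hdvd⟩
  · exact main 3 Nat.prime_three (by decide) (by rw [h]; exact dvd_zero _)
  · exact main p hp hodd hdvd

theorem positivity_all (L : ℕ → ℕ) (m₀ : ℕ) (hA : MeasurableSet A) (hpos : 0 < μ A) (k1 k2 : ℤ) :
    ∃ N : ℕ, InL L m₀ N ∧ 0 < nz μ S A k1 k2 N := by
  have degen : ∀ k : ℤ, (k1 = 0 ∨ k1 = k) → (k2 = 0 ∨ k2 = k) →
      ∃ N : ℕ, InL L m₀ N ∧ 0 < nz μ S A k1 k2 N := by
    intro k h1 h2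
    obtain ⟨N, hN, hp⟩ := positivity_cop μ S L m₀ hA hpos k 1 2 (by norm_num)
      (Or.inr ⟨3, Nat.prime_three, by decide, by norm_num⟩)
    refine ⟨N, hN, lt_of_lt_of_le hp ?_⟩
    unfold nz
    apply measureReal_mono
    · intro x hx
      simp only [Set.mem_ofPred_eq] at hx ⊢
      obtain ⟨hx0, hx1, hx2⟩ := hx
      refine ⟨hx0, ?_, ?_⟩
      · rcases h1 with h1 | h1
        · rw [h1, zero_mul, S.zero]; exact hx0
        · rw [h1]; simpa using hx1
      · rcases h2 with h2 | h2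
        · rw [h2, zero_mul, S.zero]; exact hx0
        · rw [h2]; simpa using hx1
    · exact measure_ne_top _ _
  by_cases hk1 : k1 = 0
  · exact degen k2 (Or.inl hk1) (Or.inr rfl)
  by_cases hk2 : k2 = 0
  · exact degen k1 (Or.inr rfl) (Or.inl hk2)
  by_cases hk : k1 = k2
  · exact degen k1 (Or.inr rfl) (Or.inr hk.symm)
  obtain ⟨U, hU⟩ := Int.gcd_dvd_left k1 k2
  obtain ⟨V, hV⟩ := Int.gcd_dvd_right k1 k2
  set g : ℤ := ((Int.gcd k1 k2 : ℕ) : ℤ) with hg
  have hg0 : g ≠ 0 := by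
    intro h0
    rw [h0, zero_mul] at hU
    exact hk1 hU
  have hcop : IsCoprime U V := by
    have h1 := Int.gcd_eq_gcd_ab k1 k2
    refine ⟨Int.gcdA k1 k2, Int.gcdB k1 k2, ?_⟩
    have h2 : g * (Int.gcdA k1 k2 * U + Int.gcdB k1 k2 * V) = g * 1 := by
      calc g * (Int.gcdA k1 k2 * U + Int.gcdB k1 k2 * V)
          = (g * U) * Int.gcdA k1 k2 + (g * V) * Int.gcdB k1 k2 := by ring
        _ = k1 * Int.gcdA k1 k2 + k2 * Int.gcdB k1 k2 := by rw [← hU, ← hV]
        _ = g * 1 := by rw [mul_one, hg]; exact h1.symm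
    exact mul_left_cancel₀ hg0 h2
  have hU0 : U ≠ 0 := by rintro rfl; rw [mul_zero] at hU; exact hk1 hU
  have hV0 : V ≠ 0 := by rintro rfl; rw [mul_zero] at hV; exact hk2 hV
  have hUV : U ≠ V := by rintro rfl; exact hk (hU.trans hV.symm)
  obtain ⟨a, b, hab⟩ := hcop
  rcases exists_good hU0 hV0 hUV with h | h | h
  · obtain ⟨N, hN, hp⟩ := positivity_cop μ S L m₀ hA hpos g U V ⟨a, b, hab⟩ h
    rw [← hU, ← hV] at hp
    exact ⟨N, hN, hp⟩
  · obtain ⟨N, hN, hp⟩ := positivity_cop μ S L m₀ hA hpos g (-U) (V - U)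
      ⟨-a - b, b, by linear_combination hab⟩ (by
        have : -U + (V - U) = V - 2 * U := by ring
        rw [this]; exact h)
    refine ⟨N, hN, ?_⟩
    rw [nz_base μ S hA]
    have e1 : -k1 = g * (-U) := by rw [hU]; ring
    have e2 : k2 - k1 = g * (V - U) := by rw [mul_sub, ← hU, ← hV]
    rw [e1, e2]
    exact hp
  · obtain ⟨N, hN, hp⟩ := positivity_cop μ S L m₀ hA hpos g (-V) (U - V)
      ⟨-a - b, a, by linear_combination hab⟩ (by
        have : -V + (U - V) = U - 2 * V := by ring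
        rw [this]; exact h)
    refine ⟨N, hN, ?_⟩
    rw [nz_comm, nz_base μ S hA]
    have e1 : -k2 = g * (-V) := by rw [hV]; ring
    have e2 : k1 - k2 = g * (U - V) := by rw [mul_sub, ← hU, ← hV]
    rw [e1, e2]
    exact hp


end

end Pool.Agent.KS6_27.RC
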