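import Mathlib
import Pool.Agent.KS6_27.RCa

set_option autoImplicit false

/-!
# Sparse and almost disjoint digit sets
-/

namespace Pool.Agent.KS6_27.RC

open Finset MeasureTheory
open Pool.Agent.Helper406.Rec2
open Pool.Agent.Results.MP_02e9fb_an.PowersNotCommuting (Lm_strictMono far_basic inT_pos)

/-! ### digits -/

lemma Rz_lt (K : ℕ) : Rz K < Lm K := by
  have h1 := Rz_le K
  have h2 := Lm_pos K
  have h3 : 1 ≤ 2 ^ K := Nat.one_le_two_pow
  have h4 : 8 * Rz K ≤ 8 * 2 ^ K * Rz K := by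
    have : 8 * 1 * Rz K ≤ 8 * 2 ^ K * Rz K :=
      Nat.mul_le_mul_right _ (Nat.mul_le_mul_left _ h3)
    simpa using this
  omega

lemma low_lt (K : ℕ) (d : ℕ → ℕ) (hd : ∀ p, d p ≤ p) :
    ∑ p ∈ range K, d p * Lm p < Lm K := by
  refine lt_of_le_of_lt ?_ (Rz_lt K)
  unfold Rz
  exact Finset.sum_le_sum fun p _ => Nat.mul_le_mul_right _ (hd p)

lemma digits_unique (K : ℕ) (d d' : ℕ → ℕ) (hd : ∀ p, d p ≤ p) (hd' : ∀ p, d' p ≤ p)
    (h : ∑ p ∈ range K, d p * Lm p = ∑ p ∈ range K, d' p * Lm p) : ∀ p < K, d p = d' p := by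
  induction K with
  | zero => intro p hp; omega
  | succ K ih =>
    rw [Finset.sum_range_succ, Finset.sum_range_succ] at h
    have h1 := low_lt K d hd
    have h2 := low_lt K d' hd'
    have hL := Lm_pos K
    have e1 : (∑ p ∈ range K, d p * Lm p + d K * Lm K) / Lm K = d K := by
      rw [Nat.add_mul_div_right _ _ hL, Nat.div_eq_of_lt h1, Nat.zero_add]
    have e2 : (∑ p ∈ range K, d' p * Lm p + d' K * Lm K) / Lm K = d' K := by
      rw [Nat.add_mul_div_right _ _ hL, Nat.div_eq_of_lt h2, Nat.zero_add]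
    have e3 : d K = d' K := by rw [← e1, h, e2]
    rw [e3] at h
    have e4 := ih (Nat.add_right_cancel h)
    intro p hp
    rcases Nat.lt_succ_iff_lt_or_eq.1 hp with h5 | h5
    · exact e4 p h5
    · rw [h5]; exact e3

/-- the digit function of a representation with positions `i k` -/
lemma rep (i : ℕ → ℕ) (hi : StrictMono i) (N : ℕ) (h : InL (fun k => Lm (i k)) 0 N) :
    ∃ (d : ℕ → ℕ), (∀ p, d p ≤ p) ∧ (∀ p, d p ≠ 0 → p ∈ Set.range i) ∧
      ∃ K₀, ∀ K, K₀ ≤ K → N = ∑ p ∈ range K, d p * Lm p := by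
  classical
  obtain ⟨J, s, h1, -, h3⟩ := h
  refine ⟨fun p => if p ∈ J.image i then Function.extend i s 0 p else 0, ?_, ?_, ?_⟩
  · intro p
    dsimp only
    split_ifs with hp
    · obtain ⟨k, hk, rfl⟩ := Finset.mem_image.1 hp
      rw [hi.injective.extend_apply]
      exact (h1 k hk).2.2.trans hi.le_apply
    · exact Nat.zero_le _
  · intro p hp
    dsimp only at hp
    split_ifs at hp with hp'
    · obtain ⟨k, hk, rfl⟩ := Finset.mem_image.1 hp'
      exact ⟨k, rfl⟩
    · exact absurd rfl hp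
  · refine ⟨(J.image i).sup id + 1, fun K hK => ?_⟩
    have hsub : J.image i ⊆ range K := by
      intro p hp
      have : p ≤ (J.image i).sup id := Finset.le_sup (f := id) hp
      rw [Finset.mem_range]
      omega
    rw [h3, ← Finset.sum_subset hsub]
    · rw [Finset.sum_image (fun a _ b _ h => hi.injective h)]
      refine Finset.sum_congr rfl fun k hk => ?_
      dsimp only
      rw [if_pos (Finset.mem_image_of_mem i hk), hi.injective.extend_apply]
    · intro p _ hp
      dsimp only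
      rw [if_neg hp, Nat.zero_mul]

lemma common_lt (i i' : ℕ → ℕ) (hi : StrictMono i) (hi' : StrictMono i') (B : ℕ)
    (hB : ∀ p, p ∈ Set.range i → p ∈ Set.range i' → p < B) (N : ℕ)
    (h : InL (fun k => Lm (i k)) 0 N) (h' : InL (fun k => Lm (i' k)) 0 N) : N < Lm B := by
  obtain ⟨d, d1, d2, K₁, d3⟩ := rep i hi N h
  obtain ⟨d', e1, e2, K₂, e3⟩ := rep i' hi' N h'
  have h1 := d3 (K₁ + K₂ + B) (by omega)
  have h2 := e3 (K₁ + K₂ + B) (by omega)
  have h3 := digits_unique (K₁ + K₂ + B) d d' d1 e1 (h1.symm.trans h2)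
  have h4 : ∀ p ∈ range (K₁ + K₂ + B), p ∉ range B → d p * Lm p = 0 := by
    intro p hp hpB
    rw [Finset.mem_range] at hp hpB
    have h5 : d p = 0 := by
      by_contra hne
      have h6 : d' p ≠ 0 := by rw [← h3 p hp]; exact hne
      exact hpB (hB p (d2 p hne) (e2 p h6))
    rw [h5, Nat.zero_mul]
  rw [← Finset.sum_subset (Finset.range_mono (by omega)) h4] at h1
  rw [h1]
  exact low_lt B d d1

lemma inT_of_inL (i : ℕ → ℕ) (hi : StrictMono i) (hq : ∀ k, qq (i k) = qq k) (m₀ N : ℕ)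
    (h : InL (fun k => Lm (i k)) m₀ N) : InT N := by
  classical
  obtain ⟨J, s, h1, h2, h3⟩ := h
  refine ⟨J.image i, Function.extend i s 0, ?_, ?_, ?_⟩
  · intro p hp
    obtain ⟨k, hk, rfl⟩ := Finset.mem_image.1 hp
    rw [hi.injective.extend_apply, hq]
    exact ⟨(h1 k hk).2.1, (h1 k hk).2.2.trans hi.le_apply⟩
  · rw [Finset.sum_image (fun a _ b _ h => hi.injective h)]
    have : ∀ k ∈ J, om (qq (i k)) (Function.extend i s 0 (i k)) = om (qq k) (s k) := by
      intro k _
      rw [hi.injective.extend_apply, hq]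
    rw [Finset.sum_congr rfl this]
    exact h2
  · rw [Finset.sum_image (fun a _ b _ h => hi.injective h), h3]
    refine Finset.sum_congr rfl fun k _ => ?_
    rw [hi.injective.extend_apply]

lemma inL_mono {L : ℕ → ℕ} {m m' N : ℕ} (h : m' ≤ m) (hN : InL L m N) : InL L m' N := by
  obtain ⟨J, s, h1, h2, h3⟩ := hN
  exact ⟨J, s, fun i hi => ⟨h.trans (h1 i hi).1, (h1 i hi).2⟩, h2, h3⟩

lemma inL_ge {L : ℕ → ℕ} (hL : StrictMono L) {m N : ℕ} (hN : InL L m N) : L m ≤ N := by
  obtain ⟨J, s, h1, h2, h3⟩ := hN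
  have h4 : ∃ k ∈ J, s k ≠ 0 := by
    by_contra hcon
    push Not at hcon
    have h5 : ∑ i ∈ J, om (qq i) (s i) = 0 := by
      apply Finset.sum_eq_zero
      intro i hi
      rw [hcon i hi]
      simp [om]
    have h6 := h2 0
    rw [h5] at h6
    norm_num at h6
  obtain ⟨k, hk, hk0⟩ := h4
  have h5 : s k * L k ≤ ∑ i ∈ J, s i * L i :=
    Finset.single_le_sum (f := fun i => s i * L i) (fun _ _ => Nat.zero_le _) hk
  have h6 : L m ≤ L k := hL.monotone (h1 k hk).1
  have h7 : 1 * L k ≤ s k * L k := Nat.mul_le_mul_right _ (Nat.one_le_iff_ne_zero.2 hk0)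
  omega

lemma inL_infinite {L : ℕ → ℕ} (hL : StrictMono L) : {N | InL L 0 N}.Infinite := by
  rw [Set.infinite_iff_exists_gt]
  intro a
  have h1 : InL L (a + 1) (4 * L (Nat.pair 0 (a + 5))) := by
    have h1 : qq (Nat.pair 0 (a + 5)) = 3 := by
      unfold qq; rw [Nat.unpair_pair]
    have h2 := Nat.right_le_pair 0 (a + 5)
    refine ⟨{Nat.pair 0 (a + 5)}, fun _ => 4, ?_, ?_, ?_⟩
    · intro i hi
      rw [Finset.mem_singleton] at hi
      subst hi
      rw [h1]
      refine ⟨by omega, by norm_num, ?_⟩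
      show 4 ≤ Nat.pair 0 (a + 5)
      omega
    · rw [Finset.sum_singleton, h1]
      exact far_basic
    · rw [Finset.sum_singleton]
  have h2 := inL_ge hL h1
  have h3 : a + 1 ≤ L (a + 1) := hL.le_apply
  exact ⟨_, inL_mono (Nat.zero_le _) h1, by omega⟩

/-! ### counting -/

lemma count_le (L : ℕ → ℕ) (X K : ℕ) (hK : ∀ k, K ≤ k → X < L k) [DecidablePred (InL L 0)] :
    ((range (X + 1)).filter (InL L 0)).card ≤ K.factorial := by
  classical
  have h1 : (range (X + 1)).filter (InL L 0) ⊆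
      (Fintype.piFinset (fun k : Fin K => range (k.val + 1))).image
        (fun d => ∑ k : Fin K, d k * L k.val) := by
    intro N hN
    rw [Finset.mem_filter, Finset.mem_range] at hN
    obtain ⟨hNX, J, s, h1, -, h3⟩ := hN
    rw [Finset.mem_image]
    refine ⟨fun k => if k.val ∈ J then s k.val else 0, ?_, ?_⟩
    · rw [Fintype.mem_piFinset]
      intro k
      rw [Finset.mem_range]
      split_ifs with hk
      · have := (h1 _ hk).2.2; omega
      · omega
    · rw [Fin.sum_univ_eq_sum_range (fun k => (if k ∈ J then s k else 0) * L k) K, h3]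
      have e1 : ∑ k ∈ range K, (if k ∈ J then s k else 0) * L k =
          ∑ k ∈ range K with k ∈ J, s k * L k := by
        rw [Finset.sum_filter]
        refine Finset.sum_congr rfl fun k _ => ?_
        split_ifs <;> simp
      rw [e1]
      apply Finset.sum_subset
      · intro k hk
        exact (Finset.mem_filter.1 hk).2
      · intro k hk hk'
        have hkK : K ≤ k := by
          by_contra hlt
          exact hk' (Finset.mem_filter.2 ⟨Finset.mem_range.2 (by omega), hk⟩)
        by_contra hne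
        have h4 : s k ≠ 0 := fun h => hne (by rw [h, Nat.zero_mul])
        have h5 : s k * L k ≤ ∑ i ∈ J, s i * L i :=
          Finset.single_le_sum (f := fun i => s i * L i) (fun _ _ => Nat.zero_le _) hk
        have h7 : 1 * L k ≤ s k * L k :=
          Nat.mul_le_mul_right _ (Nat.one_le_iff_ne_zero.2 h4)
        have := hK k hkK
        omega
  refine (Finset.card_le_card h1).trans (Finset.card_image_le.trans ?_)
  rw [Fintype.card_piFinset]
  simp only [Finset.card_range]
  rw [Fin.prod_univ_eq_prod_range (fun k => k + 1) K, Finset.prod_range_add_one_eq_factorial]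

lemma nth_ge (L : ℕ → ℕ) (hL : StrictMono L) (g : ℕ → ℕ)
    (hg : ∀ k m, m ≤ (k + 1).factorial → g m ≤ L k) (n : ℕ) :
    g n ≤ Nat.nth (InL L 0) n := by
  classical
  have hinf := inL_infinite hL
  set X := Nat.nth (InL L 0) n with hX
  have hmem : InL L 0 X := Nat.nth_mem_of_infinite hinf n
  have h0 : L 0 ≤ X := inL_ge hL hmem
  -- the largest scale below `X`
  set k := Nat.findGreatest (fun k => L k ≤ X) X with hk
  have h1 : L k ≤ X := Nat.findGreatest_spec (P := fun k => L k ≤ X) (Nat.zero_le X) h0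
  have h2 : ∀ j, k + 1 ≤ j → X < L j := by
    intro j hj
    by_contra hle
    have hle' : L j ≤ X := not_lt.1 hle
    have h3 : j ≤ L j := hL.le_apply
    have := Nat.le_findGreatest (P := fun k => L k ≤ X) (h3.trans hle') hle'
    omega
  have h3 := count_le L X (k + 1) h2
  have h4 : Nat.count (InL L 0) (X + 1) = n + 1 := Nat.count_nth_succ_of_infinite hinf n
  rw [Nat.count_eq_card_filter_range] at h4
  have h5 : n + 1 ≤ (k + 1).factorial := by
    rw [← h4]
    convert h3
  exact (hg k n (by omega)).trans h1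

/-! ### the positions -/

/-- partial sums -/
def GG (g : ℕ → ℕ) (m : ℕ) : ℕ := ∑ j ∈ range (m + 1), g j

lemma le_GG (g : ℕ → ℕ) {j m : ℕ} (h : j ≤ m) : g j ≤ GG g m :=
  Finset.single_le_sum (f := g) (fun _ _ => Nat.zero_le _) (Finset.mem_range.2 (by omega))

/-- rapidly increasing numbers -/
def EE (g : ℕ → ℕ) : ℕ → ℕ
  | 0 => GG g 1
  | k + 1 => (EE g k + 2 ^ k + k + 2) ^ 2 + GG g ((k + 2).factorial)

/-- the code of the first `k` terms of `b` -/
def code (b : ℕ → Bool) : ℕ → ℕ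
  | 0 => 0
  | k + 1 => 2 * code b k + (if b k then 1 else 0)

lemma code_lt (b : ℕ → Bool) (k : ℕ) : code b k < 2 ^ k := by
  induction k with
  | zero => simp [code]
  | succ k ih =>
    rw [code, pow_succ]
    split_ifs <;> omega

lemma code_inj (b b' : ℕ → Bool) (k : ℕ) (h : code b k = code b' k) : ∀ j < k, b j = b' j := by
  induction k with
  | zero => intro j hj; omega
  | succ k ih =>
    rw [code, code] at h
    have h1 : code b k = code b' k := by split_ifs at h <;> omega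
    have h2 : b k = b' k := by
      rw [Bool.eq_iff_iff]
      split_ifs at h with h3 h4 h4
      · exact ⟨fun _ => h4, fun _ => h3⟩
      · omega
      · omega
      · exact ⟨fun h => absurd h h3, fun h => absurd h h4⟩
    intro j hj
    rcases Nat.lt_succ_iff_lt_or_eq.1 hj with h5 | h5
    · exact ih h1 j h5
    · rw [h5]; exact h2

/-- the positions -/
def pos (g : ℕ → ℕ) (b : ℕ → Bool) (k : ℕ) : ℕ :=
  Nat.pair (Nat.unpair k).1 (EE g k + code b k)

lemma qq_pos (g : ℕ → ℕ) (b : ℕ → Bool) (k : ℕ) : qq (pos g b k) = qq k := by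
  unfold qq pos
  rw [Nat.unpair_pair]

lemma EE_le_pos (g : ℕ → ℕ) (b : ℕ → Bool) (k : ℕ) : EE g k ≤ pos g b k := by
  have := Nat.right_le_pair (Nat.unpair k).1 (EE g k + code b k)
  unfold pos
  omega

lemma pos_strictMono (g : ℕ → ℕ) (b : ℕ → Bool) : StrictMono (pos g b) := by
  apply strictMono_nat_of_lt_succ
  intro k
  refine lt_of_lt_of_le ?_ (EE_le_pos g b (k + 1))
  have h1 := Nat.pair_lt_max_add_one_sq (Nat.unpair k).1 (EE g k + code b k)
  have h2 := Nat.unpair_left_le k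
  have h3 := code_lt b k
  have h4 : max (Nat.unpair k).1 (EE g k + code b k) + 1 ≤ EE g k + 2 ^ k + k + 2 := by
    have := max_le (a := (Nat.unpair k).1) (b := EE g k + code b k)
      (c := EE g k + 2 ^ k + k + 1) (by omega) (by omega)
    omega
  have h5 := Nat.pow_le_pow_left h4 2
  rw [EE]
  unfold pos
  omega

lemma EE_step (g : ℕ → ℕ) (k : ℕ) : EE g k + 2 ^ k ≤ EE g (k + 1) := by
  rw [EE]
  have h1 : EE g k + 2 ^ k + k + 2 ≤ (EE g k + 2 ^ k + k + 2) ^ 2 :=
    Nat.le_self_pow (by norm_num) _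
  omega

lemma EE_mono (g : ℕ → ℕ) : Monotone (EE g) := by
  apply monotone_nat_of_le_succ
  intro k
  have := EE_step g k
  have h2 : 0 < 2 ^ k := by positivity
  omega

lemma GG_le_EE (g : ℕ → ℕ) (k : ℕ) : GG g ((k + 1).factorial) ≤ EE g k := by
  cases k with
  | zero => exact le_rfl
  | succ k =>
    rw [EE]
    exact Nat.le_add_left _ _

lemma pos_eq (g : ℕ → ℕ) (b b' : ℕ → Bool) (k k' : ℕ) (h : pos g b k = pos g b' k') :
    k = k' ∧ ∀ j < k, b j = b' j := by
  unfold pos at h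
  have h1 := (Nat.pair_eq_pair.1 h).2
  have key : ∀ (c c' : ℕ → Bool) (l l' : ℕ), l < l' → EE g l + code c l ≠ EE g l' + code c' l' := by
    intro c c' l l' hll heq
    have h2 := EE_step g l
    have h3 := EE_mono g (show l + 1 ≤ l' by omega)
    have h4 := code_lt c l
    omega
  have h2 : k = k' := by
    rcases lt_trichotomy k k' with h3 | h3 | h3
    · exact absurd h1 (key b b' k k' h3)
    · exact h3
    · exact absurd h1.symm (key b' b k' k h3)
  subst h2
  exact ⟨rfl, code_inj b b' k (by omega)⟩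

/-- the scales -/
def LL (g : ℕ → ℕ) (b : ℕ → Bool) (k : ℕ) : ℕ := Lm (pos g b k)

lemma LL_strictMono (g : ℕ → ℕ) (b : ℕ → Bool) : StrictMono (LL g b) :=
  Lm_strictMono.comp (pos_strictMono g b)

lemma le_LL (g : ℕ → ℕ) (b : ℕ → Bool) (k m : ℕ) (h : m ≤ (k + 1).factorial) :
    g m ≤ LL g b k :=
  (le_GG g h).trans ((GG_le_EE g k).trans ((EE_le_pos g b k).trans (le_Lm _)))

/-- the sequences -/
noncomputable def sq (g : ℕ → ℕ) (b : ℕ → Bool) (n : ℕ) : ℕ := Nat.nth (InL (LL g b) 0) n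

lemma sq_mem (g : ℕ → ℕ) (b : ℕ → Bool) (n : ℕ) : InL (LL g b) 0 (sq g b n) :=
  Nat.nth_mem_of_infinite (inL_infinite (LL_strictMono g b)) n

lemma sq_strictMono (g : ℕ → ℕ) (b : ℕ → Bool) : StrictMono (sq g b) :=
  Nat.nth_strictMono (inL_infinite (LL_strictMono g b))

lemma sq_inT (g : ℕ → ℕ) (b : ℕ → Bool) (n : ℕ) : InT (sq g b n) :=
  inT_of_inL (pos g b) (pos_strictMono g b) (qq_pos g b) 0 _ (sq_mem g b n)

lemma sq_ge (g : ℕ → ℕ) (b : ℕ → Bool) (n : ℕ) : g n ≤ sq g b n :=
  nth_ge (LL g b) (LL_strictMono g b) g (le_LL g b) n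

lemma sq_surj (g : ℕ → ℕ) (b : ℕ → Bool) (m N : ℕ) (h : InL (LL g b) (sq g b m) N) :
    ∃ n, m ≤ n ∧ sq g b n = N := by
  have h1 : N ∈ Set.range (Nat.nth (InL (LL g b) 0)) := by
    rw [Nat.range_nth_of_infinite (inL_infinite (LL_strictMono g b))]
    exact inL_mono (Nat.zero_le _) h
  obtain ⟨n, hn⟩ := h1
  refine ⟨n, ?_, hn⟩
  have h2 := inL_ge (LL_strictMono g b) h
  have h3 : sq g b m ≤ LL g b (sq g b m) := (LL_strictMono g b).le_apply
  have h4 : sq g b m ≤ sq g b n := by
    change sq g b n = N at hn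
    omega
  exact (sq_strictMono g b).le_iff_le.1 h4

lemma sq_almost_disjoint (g : ℕ → ℕ) (b b' : ℕ → Bool) (h : b ≠ b') :
    (Set.range (sq g b) ∩ Set.range (sq g b')).Finite := by
  obtain ⟨j, hj⟩ := Function.ne_iff.1 h
  refine (Set.finite_Iio (Lm (pos g b j + 1))).subset ?_
  rintro N ⟨⟨n, hn⟩, ⟨n', hn'⟩⟩
  rw [Set.mem_Iio]
  refine common_lt (pos g b) (pos g b') (pos_strictMono g b) (pos_strictMono g b') _ ?_ N
    (hn ▸ sq_mem g b n) (hn' ▸ sq_mem g b' n')
  rintro p ⟨k, rfl⟩ ⟨k', hk'⟩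
  obtain ⟨rfl, h2⟩ := pos_eq g b b' k k' hk'.symm
  have h3 : k ≤ j := by
    by_contra hlt
    exact hj (h2 j (by omega))
  have := (pos_strictMono g b).monotone h3
  omega

end Pool.Agent.KS6_27.RC
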