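import Mathlib

set_option autoImplicit false

namespace Pool.Agent.KS6_27.SRa

open Matrix

variable {R : Type*} [Ring R]

/-- all matrices of the given shape have a quasi-inverse -/
def RegM (R : Type*) [Ring R] (m n : Type) [Fintype m] [Fintype n] : Prop :=
  ∀ A : Matrix m n R, ∃ X : Matrix n m R, A * X * A = A

theorem of_sub {m n : Type} [Fintype m] [Fintype n] {A : Matrix m n R} (Y : Matrix n m R)
    (h : ∃ Z : Matrix n m R, (A - A * Y * A) * Z * (A - A * Y * A) = A - A * Y * A) :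
    ∃ X : Matrix n m R, A * X * A = A := by
  classical
  obtain ⟨Z, hZ⟩ := h
  refine ⟨Y + (1 - Y * A) * Z * (1 - A * Y), ?_⟩
  have e1 : A * (1 - Y * A) = A - A * Y * A := by
    rw [Matrix.mul_sub, Matrix.mul_one, Matrix.mul_assoc]
  have e2 : (1 - A * Y) * A = A - A * Y * A := by
    rw [Matrix.sub_mul, Matrix.one_mul]
  calc A * (Y + (1 - Y * A) * Z * (1 - A * Y)) * A
      = A * Y * A + (A * (1 - Y * A)) * Z * ((1 - A * Y) * A) := by
        simp only [Matrix.mul_add, Matrix.add_mul, Matrix.mul_assoc]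
    _ = A := by rw [e1, e2, hZ]; abel

theorem blocks {m₁ m₂ n₁ n₂ : Type} [Fintype m₁] [Fintype m₂] [Fintype n₁] [Fintype n₂]
    (h11 : RegM R m₁ n₁) (h12 : RegM R m₁ n₂) (h21 : RegM R m₂ n₁) (h22 : RegM R m₂ n₂) :
    RegM R (m₁ ⊕ m₂) (n₁ ⊕ n₂) := by
  intro M
  obtain ⟨A, B, C, D, rfl⟩ : ∃ A B C D, M = fromBlocks A B C D :=
    ⟨_, _, _, _, (fromBlocks_toBlocks M).symm⟩
  obtain ⟨Y, hY⟩ := h12 B
  refine of_sub (fromBlocks 0 0 Y 0 : Matrix (n₁ ⊕ n₂) (m₁ ⊕ m₂) R) ?_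
  have e1 : fromBlocks A B C D - fromBlocks A B C D *
      (fromBlocks 0 0 Y 0 : Matrix (n₁ ⊕ n₂) (m₁ ⊕ m₂) R) * fromBlocks A B C D =
      fromBlocks (A - B * Y * A) 0 (C - D * Y * A) (D - D * Y * B) := by
    rw [fromBlocks_multiply, fromBlocks_multiply, sub_eq_add_neg, fromBlocks_neg, fromBlocks_add]
    simp [hY, sub_eq_add_neg]
  rw [e1]
  set A' := A - B * Y * A
  set C' := C - D * Y * A
  set D' := D - D * Y * B
  obtain ⟨J, hJ⟩ := h11 A'
  obtain ⟨K, hK⟩ := h22 D'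
  refine of_sub (fromBlocks J 0 0 K : Matrix (n₁ ⊕ n₂) (m₁ ⊕ m₂) R) ?_
  have e2 : fromBlocks A' 0 C' D' - fromBlocks A' 0 C' D' *
      (fromBlocks J 0 0 K : Matrix (n₁ ⊕ n₂) (m₁ ⊕ m₂) R) *
      fromBlocks A' 0 C' D' = fromBlocks 0 0 (C' - (C' * J * A' + D' * K * C')) 0 := by
    rw [fromBlocks_multiply, fromBlocks_multiply, sub_eq_add_neg, fromBlocks_neg, fromBlocks_add]
    simp [hJ, hK, sub_eq_add_neg]
  rw [e2]
  obtain ⟨T, hT⟩ := h21 (C' - (C' * J * A' + D' * K * C'))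
  refine ⟨(fromBlocks 0 T 0 0 : Matrix (n₁ ⊕ n₂) (m₁ ⊕ m₂) R), ?_⟩
  rw [fromBlocks_multiply, fromBlocks_multiply]
  simp only [Matrix.zero_mul, Matrix.mul_zero, add_zero, zero_add, hT]

theorem equiv {m n m' n' : Type} [Fintype m] [Fintype n] [Fintype m'] [Fintype n']
    (e : m ≃ m') (f : n ≃ n') (h : RegM R m n) : RegM R m' n' := by
  intro M
  obtain ⟨X, hX⟩ := h (M.submatrix e f)
  refine ⟨X.submatrix f.symm e.symm, ?_⟩
  have h1 : M = (M.submatrix e f).submatrix e.symm f.symm := by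
    ext i j; simp
  conv_lhs => rw [h1]
  conv_rhs => rw [h1, ← hX]
  rw [submatrix_mul_equiv, submatrix_mul_equiv]

theorem empty_left {m n : Type} [Fintype m] [Fintype n] [IsEmpty m] : RegM R m n :=
  fun A => ⟨0, by ext i; exact isEmptyElim i⟩

theorem empty_right {m n : Type} [Fintype m] [Fintype n] [IsEmpty n] : RegM R m n :=
  fun A => ⟨0, by ext i j; exact isEmptyElim j⟩

theorem unit_unit (hR : ∀ a : R, ∃ x : R, a * x * a = a) : RegM R Unit Unit := by
  intro A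
  obtain ⟨x, hx⟩ := hR (A () ())
  refine ⟨Matrix.of fun _ _ => x, ?_⟩
  ext i j
  rw [Matrix.mul_apply]
  simp only [Matrix.mul_apply, Finset.univ_unique, Finset.sum_singleton, Matrix.of_apply]
  exact hx

theorem unit_fin (hR : ∀ a : R, ∃ x : R, a * x * a = a) (n : ℕ) : RegM R Unit (Fin n) := by
  induction n with
  | zero => exact empty_right
  | succ n ih =>
    have h : RegM R (Unit ⊕ Empty) (Fin n ⊕ Unit) :=
      blocks ih (unit_unit hR) empty_left empty_left
    exact equiv (Equiv.sumEmpty _ _)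
      (((Equiv.refl _).sumCongr (Equiv.equivPUnit (Fin 1)).symm).trans finSumFinEquiv) h

theorem fin_fin (hR : ∀ a : R, ∃ x : R, a * x * a = a) (m n : ℕ) : RegM R (Fin m) (Fin n) := by
  induction m with
  | zero => exact empty_left
  | succ m ih =>
    have h : RegM R (Fin m ⊕ Unit) (Fin n ⊕ Empty) :=
      blocks ih empty_right (unit_fin hR n) empty_right
    exact equiv (((Equiv.refl _).sumCongr (Equiv.equivPUnit (Fin 1)).symm).trans finSumFinEquiv)
      (Equiv.sumEmpty _ _) h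

/-- Matrix rings over von Neumann regular rings are von Neumann regular. -/
theorem matrix_regular (hR : ∀ a : R, ∃ x : R, a * x * a = a) (n : ℕ)
    (A : Matrix (Fin n) (Fin n) R) : ∃ X : Matrix (Fin n) (Fin n) R, A * X * A = A :=
  fin_fin hR n n A

end Pool.Agent.KS6_27.SRa
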