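import Pool.Graph.R_seed8.W408.SR.Ring2
import Pool.Agent.KS6_27.SRa

set_option autoImplicit false

namespace Pool.Agent.KS6_27.SRb

open Pool.Agent.W408.SR
open scoped InnerProductSpace

noncomputable section

theorem mem_FI_iff {φ : WW → BB} {h : Rats φ} :
    mk φ h ∈ FI ↔ ∀ᶠ w in (UU : Filter WW), FR (φ w) :=
  ⟨mem_FI, fun hm => (TwoSidedIdeal.mem_mk' _ _ _ _ _ _ _).2 ⟨φ, h, rfl, hm⟩⟩

theorem BB_pos {n : ℕ} (T : Fin n → BB) (h : ∑ i, star (T i) * T i = 0) (i : Fin n) : T i = 0 := by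
  ext1 v
  have h1 : ∑ j, ⟪T j v, T j v⟫_ℂ = 0 := by
    have h2 : ⟪v, (∑ j, star (T j) * T j) v⟫_ℂ = 0 := by
      rw [h]; simp
    rw [sum_apply, inner_sum] at h2
    rw [← h2]
    exact Finset.sum_congr rfl fun j _ => (inner_adj _ _ _ _).symm
  have h3 : ∑ j, ‖T j v‖ ^ 2 = 0 := by
    have h4 := congrArg Complex.re h1
    rw [Complex.re_sum] at h4
    rw [Complex.zero_re] at h4
    rw [← h4]
    refine Finset.sum_congr rfl fun j _ => ?_
    rw [inner_self_eq_norm_sq_to_K]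
    norm_cast
  have h5 := (Finset.sum_eq_zero_iff_of_nonneg (fun j _ => by positivity)).1 h3 i (Finset.mem_univ _)
  have h6 : ‖T i v‖ = 0 := by simpa using h5
  rw [norm_eq_zero] at h6
  rw [h6]; rfl

theorem coe_sum {n : ℕ} (f : Fin n → WW → BB) :
    (((∑ i, f i : WW → BB)) : GE) = ∑ i, ((f i : WW → BB) : GE) :=
  map_sum (Filter.Germ.coeRingHom (UU : Filter WW)) f Finset.univ

theorem RR_pos {n : ℕ} (x : Fin n → RR) (h : ∑ i, star (x i) * x i = 0) (i : Fin n) : x i = 0 := by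
  choose φ hφ hx using fun i => exists_mk (x i)
  have h1 : ∑ i, ((x i).1 : GE) * 0 = 0 := by simp
  have h2 : (∑ i, ((fun w => star (φ i w) * φ i w : WW → BB) : GE)) = 0 := by
    have h3 := congrArg (Subring.subtype RR) h
    rw [map_sum, map_zero] at h3
    rw [← h3]
    refine Finset.sum_congr rfl fun j _ => ?_
    rw [hx j]
    rfl
  rw [← coe_sum] at h2
  have h4 : ∀ᶠ w in (UU : Filter WW), ∑ j, star (φ j w) * φ j w = 0 := by
    have h5 := Filter.Germ.coe_eq.1 (h2.trans (Filter.Germ.coe_zero).symm)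
    filter_upwards [h5] with w hw
    rw [Finset.sum_apply] at hw
    exact hw
  rw [hx i, mk_zero, mk_eq]
  filter_upwards [h4] with w hw
  exact BB_pos _ hw i

theorem RR_div (x : RR) (hx : x ∉ FI) : ∃ y : RR, x * y - 1 ∈ FI ∧ y * x - 1 ∈ FI := by
  obtain ⟨φ, h, rfl⟩ := exists_mk x
  rw [mem_FI_iff] at hx
  have h1 : ∀ᶠ w in (UU : Filter WW), IsUnit (qm (φ w)) := by
    rcases h.1.dich with h2 | h2
    · exact absurd (h2.mono fun w hw => qm_eq_zero.1 hw) hx
    · exact h2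
  obtain ⟨y, hy⟩ := RR_regular (mk φ h)
  obtain ⟨ψ, h', rfl⟩ := exists_mk y
  rw [mk_mul, mk_mul, mk_eq] at hy
  refine ⟨mk ψ h', ?_, ?_⟩
  · have e : mk φ h * mk ψ h' - 1 = mk (φ * ψ + -1) ((h.mul h').add Rats.one.neg) := by
      rw [sub_eq_add_neg]; rfl
    rw [e, mem_FI_iff]
    filter_upwards [h1, hy] with w hw hw'
    obtain ⟨q, hq⟩ := hw
    have h3 := congrArg qm hw'
    rw [Pi.mul_apply, Pi.mul_apply, map_mul, map_mul, ← hq] at h3
    have h4 : (q : QQ) * qm (ψ w) = 1 := by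
      have := congrArg (fun x => x * (↑q⁻¹ : QQ)) h3
      simpa [mul_assoc] using this
    rw [← qm_eq_zero, Pi.add_apply, Pi.mul_apply, Pi.neg_apply, Pi.one_apply, map_add, map_mul,
      map_neg, map_one, ← hq, h4, add_neg_cancel]
  · have e : mk ψ h' * mk φ h - 1 = mk (ψ * φ + -1) ((h'.mul h).add Rats.one.neg) := by
      rw [sub_eq_add_neg]; rfl
    rw [e, mem_FI_iff]
    filter_upwards [h1, hy] with w hw hw'
    obtain ⟨q, hq⟩ := hw
    have h3 := congrArg qm hw'
    rw [Pi.mul_apply, Pi.mul_apply, map_mul, map_mul, ← hq] at h3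
    have h4 : qm (ψ w) * (q : QQ) = 1 := by
      have := congrArg (fun x => (↑q⁻¹ : QQ) * x) h3
      simpa [mul_assoc] using this
    rw [← qm_eq_zero, Pi.add_apply, Pi.mul_apply, Pi.neg_apply, Pi.one_apply, map_add, map_mul,
      map_neg, map_one, ← hq, h4, add_neg_cancel]

theorem not_FR_one : ¬ FR (1 : BB) := by
  intro h
  unfold FR at h
  have h1 : LinearMap.range ((1 : BB) : HH →ₗ[ℂ] HH) = ⊤ :=
    LinearMap.range_eq_top.2 fun x => ⟨x, rfl⟩
  rw [h1] at h
  have h2 : Module.Finite ℂ HH := Module.Finite.equiv Submodule.topEquiv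
  have h3 : Finite ℕ := ee_orthonormal.linearIndependent.finite
  exact not_finite ℕ

theorem one_nmem : (1 : RR) ∉ FI := by
  intro h
  rw [mk_one, mem_FI_iff] at h
  obtain ⟨w, hw⟩ := h.exists
  exact not_FR_one hw

theorem FI_star (x : RR) (hx : x ∈ FI) : star x ∈ FI := by
  obtain ⟨φ, h, rfl⟩ := exists_mk x
  rw [mem_FI_iff] at hx
  rw [mk_star, mem_FI_iff]
  exact hx.mono fun w hw => hw.adj

theorem y_left : ∃ z : RR, z * yR = 1 ∧ yR * z ≠ 1 := by
  obtain ⟨z, hz⟩ := RR_regular yR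
  refine ⟨z, ?_, yR_right z⟩
  apply yR_left
  rw [← mul_assoc, hz]

theorem corner_FI (e : RR) (he : e ∈ FI) (hee : e * e = e) (a : RR)
    (ha : e * a * e = a) : ∃ u v : RR, e * u * e = u ∧ e * v * e = v ∧ u * v = e ∧ v * u = e ∧
      a = a * u * a := by
  classical
  obtain ⟨E, hE, rfl⟩ := exists_mk e
  obtain ⟨A, hA, rfl⟩ := exists_mk a
  have h1 := mem_FI he
  rw [mk_mul, mk_eq] at hee
  rw [mk_mul, mk_mul, mk_eq] at ha
  have h2 : ∀ᶠ w in (UU : Filter WW), ∃ u v : BB, E w * u * E w = u ∧ E w * v * E w = v ∧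
      u * v = E w ∧ v * u = E w ∧ A w = A w * u * A w := by
    filter_upwards [h1, hee, ha] with w k1 k2 k3
    exact corner k1 k2 k3
  let P : WW → Prop := fun w => ∃ u v : BB, E w * u * E w = u ∧ E w * v * E w = v ∧
      u * v = E w ∧ v * u = E w ∧ A w = A w * u * A w
  let u : WW → BB := fun w => if h : P w then h.choose else 0
  let v : WW → BB := fun w => if h : P w then h.choose_spec.choose else 0
  have h3 : ∀ᶠ w in (UU : Filter WW), E w * u w * E w = u w ∧ E w * v w * E w = v w ∧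
      u w * v w = E w ∧ v w * u w = E w ∧ A w = A w * u w * A w := by
    filter_upwards [h2] with w hw
    have hP : P w := hw
    simp only [u, v]
    rw [dif_pos hP, dif_pos hP]
    exact hP.choose_spec.choose_spec
  have hu : Rats u := by
    apply Rats.of_FR
    filter_upwards [h1, h3] with w k1 k2
    rw [← k2.1]
    exact (k1.mul_right _).mul_right _
  have hv : Rats v := by
    apply Rats.of_FR
    filter_upwards [h1, h3] with w k1 k2
    rw [← k2.2.1]
    exact (k1.mul_right _).mul_right _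
  refine ⟨mk u hu, mk v hv, ?_, ?_, ?_, ?_, ?_⟩
  · rw [mk_mul, mk_mul, mk_eq]
    exact h3.mono fun w k => k.1
  · rw [mk_mul, mk_mul, mk_eq]
    exact h3.mono fun w k => k.2.1
  · rw [mk_mul, mk_eq]
    exact h3.mono fun w k => k.2.2.1
  · rw [mk_mul, mk_eq]
    exact h3.mono fun w k => k.2.2.2.1
  · rw [mk_mul, mk_mul, mk_eq]
    exact h3.mono fun w k => k.2.2.2.2

end

end Pool.Agent.KS6_27.SRb
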