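import Mathlib
import Pool.Graph.R_pool_sql_team_seeded_843ab51a.V11147.TensorBlow

set_option autoImplicit false

namespace Pool.Agent.KS6_27.TF

open Finset Filter Topology Pool.Agent.V11147.TB

open scoped Classical

variable {A : Type} [Fintype A] [DecidableEq A]

/-- the maps that are constant on every member of `S` -/
noncomputable def mono (M : ℕ) (S : Finset (Sym2 A)) : Finset (A → Fin M) :=
  univ.filter (fun g => ∀ e ∈ S, (e.map g).IsDiag)

theorem mem_mono {M : ℕ} {S : Finset (Sym2 A)} {g : A → Fin M} :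
    g ∈ mono M S ↔ ∀ e ∈ S, (e.map g).IsDiag := by
  simp [mono]

theorem mono_anti {M : ℕ} {S T : Finset (Sym2 A)} (h : T ⊆ S) : mono M S ⊆ mono M T := by
  intro g hg
  rw [mem_mono] at hg ⊢
  exact fun e he => hg e (h he)

/-- some edge of `S` has an endpoint in no other edge of `S` -/
def Leafy (S : Finset (Sym2 A)) : Prop :=
  ∃ x y, s(x, y) ∈ S ∧ x ≠ y ∧ ∀ e ∈ S, e ≠ s(x, y) → x ∉ e

theorem incl_excl (F : SimpleGraph A) (M : ℕ) :
    ((cols F M).card : ℝ) =
      ∑ S ∈ F.edgeFinset.powerset, (-1 : ℝ) ^ S.card * ((mono M S).card : ℝ) := by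
  have h1 : ((cols F M).card : ℝ) = ∑ g : A → Fin M,
      ∏ e ∈ F.edgeFinset, (1 + (if (e.map g).IsDiag then (-1 : ℝ) else 0)) := by
    rw [cols, card_filter]
    push_cast
    refine sum_congr rfl fun g _ => ?_
    split_ifs with h
    · symm
      apply prod_eq_one
      intro e he
      rw [if_neg, add_zero]
      induction e with
      | _ x y =>
        rw [SimpleGraph.mem_edgeFinset, SimpleGraph.mem_edgeSet] at he
        rw [Sym2.map_mk, Sym2.mk_isDiag_iff]
        exact h x y he
    · symm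
      push Not at h
      obtain ⟨x, y, hxy, hg⟩ := h
      apply prod_eq_zero (i := s(x, y))
      · rw [SimpleGraph.mem_edgeFinset, SimpleGraph.mem_edgeSet]; exact hxy
      · rw [if_pos]
        · norm_num
        · rw [Sym2.map_mk, Sym2.mk_isDiag_iff]; exact hg
  rw [h1]
  have h2 : ∀ g : A → Fin M,
      ∏ e ∈ F.edgeFinset, (1 + (if (e.map g).IsDiag then (-1 : ℝ) else 0)) =
      ∑ S ∈ F.edgeFinset.powerset, (-1 : ℝ) ^ S.card * (if g ∈ mono M S then 1 else 0) := by
    intro g
    rw [prod_one_add]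
    refine sum_congr rfl fun S _ => ?_
    split_ifs with h
    · rw [mem_mono] at h
      rw [mul_one, ← prod_const]
      exact prod_congr rfl fun e he => by rw [if_pos (h e he)]
    · rw [mem_mono] at h
      push Not at h
      obtain ⟨e, he, h'⟩ := h
      rw [mul_zero]
      exact prod_eq_zero he (by rw [if_neg h'])
  rw [sum_congr rfl fun g _ => h2 g, sum_comm]
  refine sum_congr rfl fun S _ => ?_
  rw [← mul_sum]
  congr 1
  rw [sum_ite_mem, univ_inter, sum_const, nsmul_eq_mul, mul_one]

theorem leaf {M : ℕ} {S : Finset (Sym2 A)} {x y : A} (he : s(x, y) ∈ S) (hxy : x ≠ y)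
    (h : ∀ e ∈ S, e ≠ s(x, y) → x ∉ e) :
    (mono M S).card * M = (mono M (S.erase s(x, y))).card := by
  have h1 : (mono M S).card * M = ((mono M S) ×ˢ (univ : Finset (Fin M))).card := by
    rw [card_product, card_univ, Fintype.card_fin]
  rw [h1]
  refine card_nbij' (fun p => Function.update p.1 x p.2)
    (fun g => (Function.update g x (g y), g x)) ?_ ?_ ?_ ?_
  · rintro ⟨g, c⟩ hg
    rw [mem_coe, mem_product, mem_mono] at hg
    rw [mem_coe, mem_mono]
    intro e he'
    rw [mem_erase] at he'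
    have hx := h e he'.2 he'.1
    rw [Sym2.map_congr (g := g)]
    · exact hg.1 e he'.2
    · intro z hz
      show Function.update g x c z = g z
      rw [Function.update_of_ne]
      rintro rfl
      exact hx hz
  · intro g hg
    rw [mem_coe, mem_mono] at hg
    rw [mem_coe, mem_product]
    refine ⟨?_, mem_univ _⟩
    rw [mem_mono]
    intro e he'
    by_cases hee : e = s(x, y)
    · subst hee
      rw [Sym2.map_mk, Sym2.mk_isDiag_iff]
      simp [hxy.symm]
    · have hx := h e he' hee
      show (Sym2.map (Function.update g x (g y)) e).IsDiag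
      rw [Sym2.map_congr (g := g)]
      · exact hg e (mem_erase.2 ⟨hee, he'⟩)
      · intro z hz
        rw [Function.update_of_ne]
        rintro rfl
        exact hx hz
  · rintro ⟨g, c⟩ hg
    rw [mem_coe, mem_product, mem_mono] at hg
    have hgx : g x = g y := by
      have := hg.1 _ he
      rwa [Sym2.map_mk, Sym2.mk_isDiag_iff] at this
    simp only [Function.update_self, Function.update_of_ne hxy.symm, Function.update_idem]
    rw [← hgx, Function.update_eq_self]
  · intro g _
    simp

/-- the edges of `S` impose independent conditions -/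
def Good (M : ℕ) (S : Finset (Sym2 A)) : Prop :=
  (mono M S).card * M ^ S.card = M ^ Fintype.card A

theorem good_empty (M : ℕ) : Good M (∅ : Finset (Sym2 A)) := by
  simp [Good, mono]

theorem good_of_leaf {M : ℕ} {S : Finset (Sym2 A)} {x y : A} (he : s(x, y) ∈ S) (hxy : x ≠ y)
    (h : ∀ e ∈ S, e ≠ s(x, y) → x ∉ e) (hg : Good M (S.erase s(x, y))) : Good M S := by
  unfold Good at *
  rw [← hg, ← leaf he hxy h, card_erase_of_mem he]
  have : 0 < S.card := card_pos.2 ⟨_, he⟩
  obtain ⟨k, hk⟩ : ∃ k, S.card = k + 1 := ⟨S.card - 1, by omega⟩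
  rw [hk, Nat.add_sub_cancel, pow_succ]
  ring

variable {F : SimpleGraph A}

omit [DecidableEq A] in
theorem mem_ne {S : Finset (Sym2 A)} (hS : S ⊆ F.edgeFinset) {x y : A} (h : s(x, y) ∈ S) :
    x ≠ y := by
  have := hS h
  rw [SimpleGraph.mem_edgeFinset, SimpleGraph.mem_edgeSet] at this
  exact this.ne

theorem good1 {M : ℕ} {S : Finset (Sym2 A)} (hS : S ⊆ F.edgeFinset) (hc : S.card = 1) :
    Good M S := by
  obtain ⟨e, rfl⟩ := card_eq_one.1 hc
  induction e with
  | _ x y =>
    refine good_of_leaf (x := x) (y := y) (by simp) (mem_ne hS (by simp)) ?_ ?_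
    · intro e he hne
      rw [mem_singleton] at he
      exact absurd he hne
    · have : ({s(x, y)} : Finset (Sym2 A)).erase s(x, y) = ∅ := by simp
      rw [this]; exact good_empty M

theorem good2 {M : ℕ} {S : Finset (Sym2 A)} (hS : S ⊆ F.edgeFinset) (hc : S.card = 2) :
    Good M S := by
  obtain ⟨e, e', hne, rfl⟩ := card_eq_two.1 hc
  induction e with
  | _ x y =>
    have hxy : x ≠ y := mem_ne hS (by simp)
    have key : ∀ x y : A, x ≠ y → s(x, y) ≠ e' →
        ({s(x, y), e'} : Finset (Sym2 A)) ⊆ F.edgeFinset → x ∉ e' →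
        Good M ({s(x, y), e'} : Finset (Sym2 A)) := by
      intro x y hxy hne hS hx
      refine good_of_leaf (x := x) (y := y) (by simp) hxy ?_ ?_
      · intro e he hne'
        rw [mem_insert, mem_singleton] at he
        rcases he with rfl | rfl
        · exact absurd rfl hne'
        · exact hx
      · have h1 : ({s(x, y), e'} : Finset (Sym2 A)).erase s(x, y) = {e'} := by
          rw [erase_insert]; simpa using hne
        rw [h1]
        exact good1 (F := F) (fun z hz => hS (mem_insert_of_mem hz)) (card_singleton _)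
    by_cases hx : x ∈ e'
    · have hy : y ∉ e' := fun hy => hne ((Sym2.mem_and_mem_iff hxy).1 ⟨hx, hy⟩).symm
      have := key y x hxy.symm (by rw [Sym2.eq_swap]; exact hne)
        (by rw [Sym2.eq_swap]; exact hS) hy
      rwa [Sym2.eq_swap] at this
    · exact key x y hxy hne hS hx

theorem good3 {M : ℕ} {S : Finset (Sym2 A)} (hS : S ⊆ F.edgeFinset) (hc : S.card = 3)
    (hl : Leafy S) : Good M S := by
  obtain ⟨x, y, h1, h2, h3⟩ := hl
  refine good_of_leaf h1 h2 h3 (good2 (F := F) ((erase_subset _ _).trans hS) ?_)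
  rw [card_erase_of_mem h1, hc]

/-- three edges without a leaf form a triangle -/
theorem tri {S : Finset (Sym2 A)} (hS : S ⊆ F.edgeFinset) (hc : S.card = 3)
    (hl : ¬ Leafy S) : ∃ a b c : A, a ≠ b ∧ a ≠ c ∧ b ≠ c ∧
      S = {s(a, b), s(a, c), s(b, c)} := by
  have hl' : ∀ x y, s(x, y) ∈ S → ∃ e ∈ S, e ≠ s(x, y) ∧ x ∈ e := by
    intro x y hxy
    by_contra hcon
    push Not at hcon
    exact hl ⟨x, y, hxy, mem_ne hS hxy, hcon⟩
  obtain ⟨e1, he1⟩ : S.Nonempty := card_pos.1 (by omega)
  induction e1 with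
  | _ a b =>
    have hab := mem_ne hS he1
    obtain ⟨e2, he2, h21, ha2⟩ := hl' a b he1
    obtain ⟨c, rfl⟩ := Sym2.mem_iff_exists.1 ha2
    have hac := mem_ne hS he2
    have hbc : b ≠ c := by rintro rfl; exact h21 rfl
    obtain ⟨e3, he3, h31, hb3⟩ := hl' b a (by rw [Sym2.eq_swap]; exact he1)
    obtain ⟨d, rfl⟩ := Sym2.mem_iff_exists.1 hb3
    have hbd := mem_ne hS he3
    have h32 : s(b, d) ≠ s(a, c) := by
      intro h
      have : b ∈ s(a, c) := by rw [← h]; simp
      rw [Sym2.mem_iff] at this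
      rcases this with h | h
      · exact hab h.symm
      · exact hbc h
    have hSe : ({s(a, b), s(a, c), s(b, d)} : Finset (Sym2 A)) = S := by
      apply eq_of_subset_of_card_le
      · intro z hz
        simp only [mem_insert, mem_singleton] at hz
        rcases hz with rfl | rfl | rfl <;> assumption
      · rw [hc, card_eq_three.2 ⟨s(a, b), s(a, c), s(b, d), h21.symm, ?_, h32.symm, rfl⟩]
        rw [Sym2.eq_swap]; exact h31.symm
    obtain ⟨e', he', h'2, hc'⟩ := hl' c a (by rw [Sym2.eq_swap]; exact he2)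
    rw [← hSe] at he'
    simp only [mem_insert, mem_singleton] at he'
    have hcd : c = d := by
      rcases he' with rfl | rfl | rfl
      · rw [Sym2.mem_iff] at hc'
        rcases hc' with h | h
        · exact absurd h.symm hac
        · exact absurd h.symm hbc
      · exact absurd (Sym2.eq_swap) h'2
      · rw [Sym2.mem_iff] at hc'
        rcases hc' with h | h
        · exact absurd h.symm hbc
        · exact h
    subst hcd
    exact ⟨a, b, c, hab, hac, hbc, hSe.symm⟩

theorem card_tri {M : ℕ} {S : Finset (Sym2 A)} (hS : S ⊆ F.edgeFinset) (hc : S.card = 3)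
    (hl : ¬ Leafy S) : (mono M S).card * M ^ 2 = M ^ Fintype.card A := by
  obtain ⟨a, b, c, hab, hac, hbc, rfl⟩ := tri hS hc hl
  have h1 : mono M ({s(a, b), s(a, c), s(b, c)} : Finset (Sym2 A)) =
      mono M ({s(a, b), s(a, c)} : Finset (Sym2 A)) := by
    apply Subset.antisymm
    · apply mono_anti
      intro z hz
      simp only [mem_insert, mem_singleton] at hz ⊢
      tauto
    · intro g hg
      rw [mem_mono] at hg ⊢
      have e1 := hg s(a, b) (by simp)
      have e2 := hg s(a, c) (by simp)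
      rw [Sym2.map_mk, Sym2.mk_isDiag_iff] at e1 e2
      intro e he
      simp only [mem_insert, mem_singleton] at he
      rcases he with rfl | rfl | rfl <;> rw [Sym2.map_mk, Sym2.mk_isDiag_iff]
      · exact e1
      · exact e2
      · rw [← e1, e2]
  have h2 : ({s(a, b), s(a, c)} : Finset (Sym2 A)).card = 2 := by
    rw [card_pair]
    intro h
    have : b ∈ s(a, c) := by rw [← h]; simp
    rw [Sym2.mem_iff] at this
    rcases this with h | h
    · exact hab h.symm
    · exact hbc h
  have h3 := good2 (M := M) (F := F) (S := {s(a, b), s(a, c)}) (fun z hz => hS (by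
      simp only [mem_insert, mem_singleton] at hz ⊢
      tauto)) h2
  unfold Good at h3
  rw [h1, ← h3, h2]

theorem exists_leafy {S : Finset (Sym2 A)} (hS : S ⊆ F.edgeFinset) (hc : 4 ≤ S.card) :
    ∃ T ⊆ S, T.card = 3 ∧ Leafy T := by
  obtain ⟨T, hT, hTc⟩ := exists_subset_card_eq (s := S) (n := 3) (by omega)
  by_cases hl : Leafy T
  · exact ⟨T, hT, hTc, hl⟩
  obtain ⟨a, b, c, hab, hac, hbc, rfl⟩ := tri (hT.trans hS) hTc hl
  obtain ⟨e, he, heT⟩ : ∃ e ∈ S, e ∉ ({s(a, b), s(a, c), s(b, c)} : Finset (Sym2 A)) := by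
    apply exists_mem_notMem_of_card_lt_card
    omega
  simp only [mem_insert, mem_singleton, not_or] at heT
  have n1 : s(a, b) ≠ s(b, c) := by
    intro h
    have : a ∈ s(b, c) := by rw [← h]; simp
    rw [Sym2.mem_iff] at this
    tauto
  have hsub : ({s(a, b), s(b, c), e} : Finset (Sym2 A)) ⊆ S := by
    intro z hz
    simp only [mem_insert, mem_singleton] at hz
    rcases hz with rfl | rfl | rfl
    · exact hT (by simp)
    · exact hT (by simp)
    · exact he
  refine ⟨{s(a, b), s(b, c), e}, hsub, card_eq_three.2 ⟨_, _, _, n1, Ne.symm heT.1,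
    Ne.symm heT.2.2, rfl⟩, ?_⟩
  by_contra hcon
  have hl' : ∀ x y, s(x, y) ∈ ({s(a, b), s(b, c), e} : Finset (Sym2 A)) →
      ∃ e' ∈ ({s(a, b), s(b, c), e} : Finset (Sym2 A)), e' ≠ s(x, y) ∧ x ∈ e' := by
    intro x y hxy
    by_contra hcon'
    push Not at hcon'
    exact hcon ⟨x, y, hxy, mem_ne (hsub.trans hS) hxy, hcon'⟩
  have hae : a ∈ e := by
    obtain ⟨e', h1, h2, h3⟩ := hl' a b (by simp)
    simp only [mem_insert, mem_singleton] at h1
    rcases h1 with rfl | rfl | rfl
    · exact absurd rfl h2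
    · rw [Sym2.mem_iff] at h3; tauto
    · exact h3
  have hce : c ∈ e := by
    obtain ⟨e', h1, h2, h3⟩ := hl' c b (by rw [Sym2.eq_swap]; simp)
    simp only [mem_insert, mem_singleton] at h1
    rcases h1 with rfl | rfl | rfl
    · rw [Sym2.mem_iff] at h3
      rcases h3 with h | h
      · exact absurd h.symm hac
      · exact absurd h.symm hbc
    · exact absurd Sym2.eq_swap h2
    · exact h3
  exact heT.2.1 ((Sym2.mem_and_mem_iff hac).1 ⟨hae, hce⟩)

theorem card_big {M : ℕ} {S : Finset (Sym2 A)} (hS : S ⊆ F.edgeFinset) (hc : 4 ≤ S.card) :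
    (mono M S).card * M ^ 3 ≤ M ^ Fintype.card A := by
  obtain ⟨T, hT, hTc, hl⟩ := exists_leafy hS hc
  have h := good3 (M := M) (F := F) (hT.trans hS) hTc hl
  unfold Good at h
  rw [← h, hTc]
  exact Nat.mul_le_mul_right _ (card_le_card (mono_anti hT))

/-- the sets of three edges without a leaf (the triangles) -/
noncomputable def T3 (F : SimpleGraph A) : Finset (Finset (Sym2 A)) :=
  F.edgeFinset.powerset.filter (fun S => S.card = 3 ∧ ¬ Leafy S)

theorem T3_empty (h : F.CliqueFree 3) : T3 F = ∅ := by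
  rw [T3, filter_eq_empty_iff]
  intro S hS
  rw [mem_powerset] at hS
  rintro ⟨hc, hl⟩
  obtain ⟨a, b, c, hab, hac, hbc, rfl⟩ := tri hS hc hl
  refine h {a, b, c} ?_
  rw [SimpleGraph.is3Clique_triple_iff]
  refine ⟨?_, ?_, ?_⟩ <;> rw [← SimpleGraph.mem_edgeSet, ← SimpleGraph.mem_edgeFinset] <;>
    exact hS (by simp)

theorem T3_pos (h : ¬ F.CliqueFree 3) : 1 ≤ (T3 F).card := by
  unfold SimpleGraph.CliqueFree at h
  push Not at h
  obtain ⟨s, hs⟩ := h
  obtain ⟨a, b, c, hab, hac, hbc, rfl⟩ := SimpleGraph.is3Clique_iff.1 hs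
  apply card_pos.2
  have n1 : s(a, b) ≠ s(a, c) := by
    intro h
    have : b ∈ s(a, c) := by rw [← h]; simp
    rw [Sym2.mem_iff] at this
    rcases this with h | h
    · exact hab.ne h.symm
    · exact hbc.ne h
  have n2 : s(a, b) ≠ s(b, c) := by
    intro h
    have : a ∈ s(b, c) := by rw [← h]; simp
    rw [Sym2.mem_iff] at this
    rcases this with h | h
    · exact hab.ne h
    · exact hac.ne h
  have n3 : s(a, c) ≠ s(b, c) := by
    intro h
    have : a ∈ s(b, c) := by rw [← h]; simp
    rw [Sym2.mem_iff] at this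
    rcases this with h | h
    · exact hab.ne h
    · exact hac.ne h
  refine ⟨{s(a, b), s(a, c), s(b, c)}, ?_⟩
  rw [T3, mem_filter, mem_powerset]
  refine ⟨?_, card_eq_three.2 ⟨_, _, _, n1, n2, n3, rfl⟩, ?_⟩
  · intro z hz
    simp only [mem_insert, mem_singleton] at hz
    rw [SimpleGraph.mem_edgeFinset]
    rcases hz with rfl | rfl | rfl <;> rw [SimpleGraph.mem_edgeSet] <;> assumption
  · rintro ⟨x, y, h1, h2, h3⟩
    simp only [mem_insert, mem_singleton, Sym2.eq_iff] at h1
    have k1 := h3 s(a, b) (by simp)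
    have k2 := h3 s(a, c) (by simp)
    have k3 := h3 s(b, c) (by simp)
    rcases h1 with (⟨rfl, rfl⟩ | ⟨rfl, rfl⟩) | (⟨rfl, rfl⟩ | ⟨rfl, rfl⟩) | (⟨rfl, rfl⟩ | ⟨rfl, rfl⟩)
    · exact k2 n1.symm (by simp)
    · rw [Sym2.eq_swap] at n2
      exact k3 n2.symm (by simp)
    · exact k1 n1 (by simp)
    · exact k3 (fun h => n3 (Sym2.eq_swap.trans h.symm)) (by simp)
    · exact k1 n2 (by simp)
    · exact k2 (by intro h; exact n3 (h.trans Sym2.eq_swap)) (by simp)

end Pool.Agent.KS6_27.TF
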