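import Pool.Agent.KS6_27.TFa

set_option autoImplicit false

namespace Pool.Agent.KS6_27.TF

open Finset Filter Topology Pool.Agent.V11147.TB

open scoped Classical

variable {A : Type} [Fintype A] [DecidableEq A]

theorem est (F : SimpleGraph A) (M : ℕ) (hM : 2 ≤ M) :
    |((cols F M).card : ℝ) / (M : ℝ) ^ Fintype.card A - (1 - 1 / (M : ℝ)) ^ F.edgeFinset.card +
      ((T3 F).card : ℝ) * (1 / (M : ℝ) ^ 2 - 1 / (M : ℝ) ^ 3)| ≤
      2 ^ F.edgeFinset.card / (M : ℝ) ^ 3 := by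
  have hM0 : (0 : ℝ) < M := by exact_mod_cast (by omega : 0 < M)
  have hM1 : (1 : ℝ) ≤ M := by exact_mod_cast (by omega : 1 ≤ M)
  have h1 : ((cols F M).card : ℝ) / (M : ℝ) ^ Fintype.card A =
      ∑ S ∈ F.edgeFinset.powerset, (-1 : ℝ) ^ S.card *
        (((mono M S).card : ℝ) / (M : ℝ) ^ Fintype.card A) := by
    rw [incl_excl, sum_div]
    exact sum_congr rfl fun S _ => by rw [mul_div_assoc]
  have h2 : (1 - 1 / (M : ℝ)) ^ F.edgeFinset.card =
      ∑ S ∈ F.edgeFinset.powerset, (-1 : ℝ) ^ S.card * (1 / (M : ℝ) ^ S.card) := by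
    have : (1 - 1 / (M : ℝ)) ^ F.edgeFinset.card =
        ∏ _e ∈ F.edgeFinset, (1 + (-(1 / (M : ℝ)))) := by
      rw [prod_const]; ring_nf
    rw [this, prod_one_add]
    refine sum_congr rfl fun S _ => ?_
    rw [prod_const, neg_pow, one_div_pow]
  have h3 : ((T3 F).card : ℝ) * (1 / (M : ℝ) ^ 2 - 1 / (M : ℝ) ^ 3) =
      ∑ S ∈ F.edgeFinset.powerset,
        (if S.card = 3 ∧ ¬ Leafy S then (1 / (M : ℝ) ^ 2 - 1 / (M : ℝ) ^ 3) else 0) := by
    rw [← sum_filter, sum_const, nsmul_eq_mul]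
    rfl
  rw [h1, h2, h3, ← sum_sub_distrib, ← sum_add_distrib]
  refine (abs_sum_le_sum_abs _ _).trans ?_
  have h4 : ∀ S ∈ F.edgeFinset.powerset,
      |(-1 : ℝ) ^ S.card * (((mono M S).card : ℝ) / (M : ℝ) ^ Fintype.card A) -
        (-1 : ℝ) ^ S.card * (1 / (M : ℝ) ^ S.card) +
        (if S.card = 3 ∧ ¬ Leafy S then (1 / (M : ℝ) ^ 2 - 1 / (M : ℝ) ^ 3) else 0)| ≤
        1 / (M : ℝ) ^ 3 := by
    intro S hS
    rw [mem_powerset] at hS
    have hv : (0 : ℝ) < (M : ℝ) ^ Fintype.card A := by positivity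
    have good : Good M S → ((mono M S).card : ℝ) / (M : ℝ) ^ Fintype.card A =
        1 / (M : ℝ) ^ S.card := by
      intro hg
      unfold Good at hg
      have hg' : ((mono M S).card : ℝ) * (M : ℝ) ^ S.card = (M : ℝ) ^ Fintype.card A := by
        exact_mod_cast hg
      rw [div_eq_div_iff hv.ne' (by positivity), one_mul]
      exact hg'
    have hpos : (0 : ℝ) < 1 / (M : ℝ) ^ 3 := by positivity
    rcases (by omega : S.card = 0 ∨ S.card = 1 ∨ S.card = 2 ∨ S.card = 3 ∨ 4 ≤ S.card) with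
      hc | hc | hc | hc | hc
    · have hS0 : S = ∅ := card_eq_zero.1 hc
      rw [good (hS0 ▸ good_empty M), sub_self, if_neg (by omega), add_zero, abs_zero]
      exact hpos.le
    · rw [good (good1 hS hc), sub_self, if_neg (by omega), add_zero, abs_zero]
      exact hpos.le
    · rw [good (good2 hS hc), sub_self, if_neg (by omega), add_zero, abs_zero]
      exact hpos.le
    · by_cases hl : Leafy S
      · rw [good (good3 hS hc hl), sub_self, if_neg (fun h => h.2 hl), add_zero, abs_zero]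
        exact hpos.le
      · have ht := card_tri (M := M) hS hc hl
        have ht' : ((mono M S).card : ℝ) * (M : ℝ) ^ 2 = (M : ℝ) ^ Fintype.card A := by
          exact_mod_cast ht
        have e : ((mono M S).card : ℝ) / (M : ℝ) ^ Fintype.card A = 1 / (M : ℝ) ^ 2 := by
          rw [div_eq_div_iff hv.ne' (by positivity), one_mul]
          exact ht'
        rw [e, if_pos ⟨hc, hl⟩, hc]
        have : (-1 : ℝ) ^ 3 * (1 / (M : ℝ) ^ 2) - (-1) ^ 3 * (1 / (M : ℝ) ^ 3) +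
            (1 / (M : ℝ) ^ 2 - 1 / (M : ℝ) ^ 3) = 0 := by ring
        rw [this, abs_zero]
        exact hpos.le
    · rw [if_neg (by omega), add_zero, ← mul_sub, abs_mul, abs_pow, abs_neg, abs_one, one_pow,
        one_mul]
      have hb := card_big (M := M) hS hc
      have hb' : ((mono M S).card : ℝ) * (M : ℝ) ^ 3 ≤ (M : ℝ) ^ Fintype.card A := by
        exact_mod_cast hb
      have e1 : ((mono M S).card : ℝ) / (M : ℝ) ^ Fintype.card A ≤ 1 / (M : ℝ) ^ 3 := by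
        rw [div_le_div_iff₀ hv (by positivity), one_mul]
        exact hb'
      have e2 : (0 : ℝ) ≤ ((mono M S).card : ℝ) / (M : ℝ) ^ Fintype.card A := by positivity
      have e3 : 1 / (M : ℝ) ^ S.card ≤ 1 / (M : ℝ) ^ 3 :=
        one_div_le_one_div_of_le (by positivity) (pow_le_pow_right₀ hM1 (by omega))
      have e4 : (0 : ℝ) ≤ 1 / (M : ℝ) ^ S.card := by positivity
      rw [abs_le]
      constructor <;> linarith
  refine (sum_le_sum h4).trans ?_
  rw [sum_const, card_powerset, nsmul_eq_mul]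
  push_cast
  rw [mul_one_div]

/-- The normalised number of colourings. -/
noncomputable def X (F : SimpleGraph A) (M : ℕ) : ℝ :=
  ((cols F M).card : ℝ) / ((M : ℝ) ^ Fintype.card A * (1 - 1 / (M : ℝ)) ^ F.edgeFinset.card)

theorem q_facts {M : ℕ} (hM : 2 ≤ M) (e : ℕ) :
    (1 / 2 : ℝ) ^ e ≤ (1 - 1 / (M : ℝ)) ^ e ∧ (1 - 1 / (M : ℝ)) ^ e ≤ 1 ∧
      0 < (1 - 1 / (M : ℝ)) ^ e := by
  have hM2 : (2 : ℝ) ≤ M := by exact_mod_cast hM
  have h1 : 1 / (M : ℝ) ≤ 1 / 2 := one_div_le_one_div_of_le (by norm_num) hM2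
  have h0 : 0 < 1 / (M : ℝ) := by positivity
  refine ⟨pow_le_pow_left₀ (by norm_num) (by linarith) _, pow_le_one₀ (by linarith) (by linarith),
    pow_pos (by linarith) _⟩

theorem X_nonneg (F : SimpleGraph A) {M : ℕ} (hM : 2 ≤ M) : 0 ≤ X F M := by
  have := (q_facts hM F.edgeFinset.card).2.2
  unfold X
  positivity

theorem X_free (F : SimpleGraph A) (hF : F.CliqueFree 3) {M : ℕ} (hM : 2 ≤ M) :
    |X F M - 1| ≤ 4 ^ F.edgeFinset.card / (M : ℝ) ^ 3 := by
  have hM0 : (0 : ℝ) < M := by exact_mod_cast (by omega : 0 < M)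
  have h := est F M hM
  rw [T3_empty hF, card_empty, Nat.cast_zero, zero_mul, add_zero] at h
  obtain ⟨q1, q2, q3⟩ := q_facts hM F.edgeFinset.card
  set q := (1 - 1 / (M : ℝ)) ^ F.edgeFinset.card with hq
  have e : X F M - 1 = (((cols F M).card : ℝ) / (M : ℝ) ^ Fintype.card A - q) / q := by
    unfold X
    rw [← hq]
    field_simp
  rw [e, abs_div, abs_of_pos q3, div_le_iff₀ q3]
  refine h.trans ?_
  have h4 : (4 : ℝ) ^ F.edgeFinset.card / (M : ℝ) ^ 3 * q ≥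
      (4 : ℝ) ^ F.edgeFinset.card / (M : ℝ) ^ 3 * (1 / 2) ^ F.edgeFinset.card :=
    mul_le_mul_of_nonneg_left q1 (by positivity)
  refine le_trans (le_of_eq ?_) h4
  rw [div_mul_eq_mul_div, ← mul_pow]
  norm_num

theorem X_tri (F : SimpleGraph A) (hF : ¬ F.CliqueFree 3) {M : ℕ} (hM : 2 ≤ M)
    (hM' : 2 * (1 + 2 ^ F.edgeFinset.card) ≤ M) :
    X F M ≤ 1 - 1 / (2 * (M : ℝ) ^ 2) := by
  have hM0 : (0 : ℝ) < M := by exact_mod_cast (by omega : 0 < M)
  have hM1 : (1 : ℝ) ≤ M := by exact_mod_cast (by omega : 1 ≤ M)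
  have h := est F M hM
  have ht : (1 : ℝ) ≤ ((T3 F).card : ℝ) := by exact_mod_cast T3_pos hF
  obtain ⟨q1, q2, q3⟩ := q_facts hM F.edgeFinset.card
  set q := (1 - 1 / (M : ℝ)) ^ F.edgeFinset.card with hq
  have h1 := (abs_le.1 h).2
  have h23 : 1 / (M : ℝ) ^ 3 ≤ 1 / (M : ℝ) ^ 2 :=
    one_div_le_one_div_of_le (by positivity) (pow_le_pow_right₀ hM1 (by norm_num))
  have h2 : (1 / (M : ℝ) ^ 2 - 1 / (M : ℝ) ^ 3) ≤
      ((T3 F).card : ℝ) * (1 / (M : ℝ) ^ 2 - 1 / (M : ℝ) ^ 3) := by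
    nlinarith
  have h3 : (1 + 2 ^ F.edgeFinset.card) / (M : ℝ) ^ 3 ≤ 1 / (2 * (M : ℝ) ^ 2) := by
    have hM'' : 2 * (1 + (2 : ℝ) ^ F.edgeFinset.card) ≤ M := by exact_mod_cast hM'
    rw [div_le_div_iff₀ (by positivity) (by positivity)]
    nlinarith [pow_pos hM0 2, mul_le_mul_of_nonneg_left hM'' (pow_pos hM0 2).le]
  have h4 : ((cols F M).card : ℝ) / (M : ℝ) ^ Fintype.card A ≤ q - 1 / (2 * (M : ℝ) ^ 2) := by
    have e1 : (1 + 2 ^ F.edgeFinset.card) / (M : ℝ) ^ 3 =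
        1 / (M : ℝ) ^ 3 + 2 ^ F.edgeFinset.card / (M : ℝ) ^ 3 := add_div _ _ _
    have e2 : 1 / (M : ℝ) ^ 2 = 1 / (2 * (M : ℝ) ^ 2) + 1 / (2 * (M : ℝ) ^ 2) := by
      field_simp; norm_num
    linarith
  have e : X F M = (((cols F M).card : ℝ) / (M : ℝ) ^ Fintype.card A) / q := by
    unfold X
    rw [← hq]
    field_simp
  rw [e, div_le_iff₀ q3]
  refine h4.trans ?_
  have : (0 : ℝ) < 1 / (2 * (M : ℝ) ^ 2) := by positivity
  nlinarith

/-- The upper bound for the normalised count. -/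
theorem ratio_le (F : SimpleGraph A)
    (hiso : ∀ a, ∃ b, F.Adj a b) (M D n : ℕ) (hM : 2 ≤ M) :
    (emb F (host M D n) : ℝ) /
      ((n.descFactorial (Fintype.card A) : ℝ) *
        (((1 - 1 / (M : ℝ)) ^ D)) ^ F.edgeFinset.card) ≤
    (X F M) ^ D * ((((n / M ^ D : ℕ) : ℝ) * ((M ^ D : ℕ) : ℝ)) ^ Fintype.card A /
      (n.descFactorial (Fintype.card A) : ℝ)) := by
  have hM0 : (0 : ℝ) < M := by exact_mod_cast (by omega : 0 < M)
  have hq : (0 : ℝ) < 1 - 1 / (M : ℝ) := by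
    have : (1 : ℝ) / M ≤ 1 / 2 := one_div_le_one_div_of_le (by norm_num) (by exact_mod_cast hM)
    linarith
  have h1 : (emb F (host M D n) : ℝ) ≤
      ((cols F M).card : ℝ) ^ D * ((n / M ^ D : ℕ) : ℝ) ^ Fintype.card A := by
    exact_mod_cast emb_le F hiso M D n
  rw [mul_comm ((n.descFactorial (Fintype.card A) : ℝ)), ← div_div, ← mul_div_assoc]
  refine div_le_div_of_nonneg_right ?_ (Nat.cast_nonneg _)
  rw [div_le_iff₀ (by positivity)]
  refine h1.trans (le_of_eq ?_)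
  unfold X
  generalize F.edgeFinset.card = e
  have h2 : ((1 - 1 / (M : ℝ)) ^ D) ^ e = ((1 - 1 / (M : ℝ)) ^ e) ^ D := by
    rw [← pow_mul, ← pow_mul, mul_comm]
  have h3 : (((M ^ D : ℕ) : ℝ)) ^ Fintype.card A = ((M : ℝ) ^ Fintype.card A) ^ D := by
    push_cast
    rw [← pow_mul, ← pow_mul, mul_comm]
  rw [h2, mul_pow, h3, div_pow, mul_pow]
  have h4 : ((1 - 1 / (M : ℝ)) ^ e) ^ D ≠ 0 := by positivity
  have h5 : ((M : ℝ) ^ Fintype.card A) ^ D ≠ 0 := by positivity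
  generalize ((1 - 1 / (M : ℝ)) ^ e) ^ D = z at h4
  generalize ((M : ℝ) ^ Fintype.card A) ^ D = w at h5
  field_simp

/-- The lower bound for the normalised count. -/
theorem le_ratio (F : SimpleGraph A)
    (M D n : ℕ) (hM : 2 ≤ M) :
    (X F M) ^ D * (((n / M ^ D).descFactorial (Fintype.card A) : ℝ) *
      ((M ^ D : ℕ) : ℝ) ^ Fintype.card A / (n.descFactorial (Fintype.card A) : ℝ)) ≤
    (emb F (host M D n) : ℝ) /
      ((n.descFactorial (Fintype.card A) : ℝ) *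
        (((1 - 1 / (M : ℝ)) ^ D)) ^ F.edgeFinset.card) := by
  have hM0 : (0 : ℝ) < M := by exact_mod_cast (by omega : 0 < M)
  have hq : (0 : ℝ) < 1 - 1 / (M : ℝ) := by
    have : (1 : ℝ) / M ≤ 1 / 2 := one_div_le_one_div_of_le (by norm_num) (by exact_mod_cast hM)
    linarith
  have h1 : ((cols F M).card : ℝ) ^ D * ((n / M ^ D).descFactorial (Fintype.card A) : ℝ) ≤
      (emb F (host M D n) : ℝ) := by
    exact_mod_cast le_emb F M D n
  rw [mul_comm ((n.descFactorial (Fintype.card A) : ℝ)), ← div_div, ← mul_div_assoc]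
  refine div_le_div_of_nonneg_right ?_ (Nat.cast_nonneg _)
  rw [le_div_iff₀ (by positivity)]
  refine le_trans (le_of_eq ?_) h1
  unfold X
  generalize F.edgeFinset.card = e
  have h2 : ((1 - 1 / (M : ℝ)) ^ D) ^ e = ((1 - 1 / (M : ℝ)) ^ e) ^ D := by
    rw [← pow_mul, ← pow_mul, mul_comm]
  have h3 : (((M ^ D : ℕ) : ℝ)) ^ Fintype.card A = ((M : ℝ) ^ Fintype.card A) ^ D := by
    push_cast
    rw [← pow_mul, ← pow_mul, mul_comm]
  rw [h2, h3, div_pow, mul_pow]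
  have h4 : ((1 - 1 / (M : ℝ)) ^ e) ^ D ≠ 0 := by positivity
  have h5 : ((M : ℝ) ^ Fintype.card A) ^ D ≠ 0 := by positivity
  generalize ((1 - 1 / (M : ℝ)) ^ e) ^ D = z at h4
  generalize ((M : ℝ) ^ Fintype.card A) ^ D = w at h5
  field_simp

end Pool.Agent.KS6_27.TF
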