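import Pool.Agent.KS6_27.TFb

set_option autoImplicit false

namespace Pool.Agent.KS6_27.TF

open Finset Filter Topology Pool.Agent.V11147.TB

open scoped Classical

/-- the parameters -/
theorem exists_f (r : ℕ → ℝ) (hr : Tendsto r atTop (𝓝 0)) : ∃ f : ℕ → ℕ, Tendsto f atTop atTop ∧
    Tendsto (fun n => n / ((f n + 2) ^ 2) ^ ((f n + 2) ^ 5)) atTop atTop ∧
    ∀ᶠ n in atTop, r n ≤ (1 - 1 / (((f n + 2) ^ 2 : ℕ) : ℝ)) ^ ((f n + 2) ^ 5) := by
  obtain ⟨f, hf, hfQ⟩ := exists_slow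
    (fun k n => k ≤ n / ((k + 2) ^ 2) ^ ((k + 2) ^ 5) ∧
      r n ≤ (1 - 1 / (((k + 2) ^ 2 : ℕ) : ℝ)) ^ ((k + 2) ^ 5)) (by
    intro k
    have hk2 : 2 ≤ (k + 2) ^ 2 := by
      have : 2 ^ 2 ≤ (k + 2) ^ 2 := Nat.pow_le_pow_left (by omega) 2
      omega
    have hp := (q_facts (M := (k + 2) ^ 2) hk2 ((k + 2) ^ 5)).2.2
    filter_upwards [hr.eventually (eventually_le_nhds hp),
      eventually_ge_atTop (((k + 2) ^ 2) ^ ((k + 2) ^ 5) * k)] with n h1 h2
    refine ⟨?_, h1⟩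
    rw [Nat.le_div_iff_mul_le (by positivity), mul_comm]
    exact h2)
  exact ⟨f, hf, tendsto_atTop_mono' atTop (hfQ.mono fun n h => h.1) hf, hfQ.mono fun n h => h.2⟩

theorem main (r : ℕ → ℝ) (hr : Tendsto r atTop (𝓝 0)) :
    ∃ (p : ℕ → ℝ) (G : ∀ n, SimpleGraph (Fin n)),
      (∀ n, 0 < p n ∧ p n ≤ 1) ∧ Tendsto p atTop (𝓝 0) ∧ (∀ᶠ n in atTop, r n ≤ p n) ∧
      ∀ (A : Type) [Fintype A] [DecidableEq A] (F : SimpleGraph A), (∀ a, ∃ b, F.Adj a b) →
        (F.CliqueFree 3 → Tendsto (fun n => (emb F (G n) : ℝ) /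
          ((n.descFactorial (Fintype.card A) : ℝ) * p n ^ F.edgeFinset.card)) atTop (𝓝 1)) ∧
        (¬ F.CliqueFree 3 → Tendsto (fun n => (emb F (G n) : ℝ) /
          ((n.descFactorial (Fintype.card A) : ℝ) * p n ^ F.edgeFinset.card)) atTop (𝓝 0)) := by
  obtain ⟨f, hf, hh, hfr⟩ := exists_f r hr
  have hfR : Tendsto (fun n => ((f n : ℕ) : ℝ) + 2) atTop atTop :=
    tendsto_atTop_add_const_right _ _ (tendsto_natCast_atTop_atTop.comp hf)
  have hM2 : ∀ n, 2 ≤ (f n + 2) ^ 2 := fun n => by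
    have : 2 ^ 2 ≤ (f n + 2) ^ 2 := Nat.pow_le_pow_left (by omega) 2
    omega
  have hm : ∀ n, 0 < ((f n + 2) ^ 2) ^ ((f n + 2) ^ 5) := fun n => by positivity
  have hplus := fun k => tendsto_plus k (fun n => ((f n + 2) ^ 2) ^ ((f n + 2) ^ 5)) hm hh
  have hminus := fun k => tendsto_minus k (fun n => ((f n + 2) ^ 2) ^ ((f n + 2) ^ 5)) hm hh
  have hcast : ∀ n, (((f n + 2) ^ 2 : ℕ) : ℝ) = ((f n : ℝ) + 2) ^ 2 := fun n => by push_cast; ring
  have hcast5 : ∀ n, (((f n + 2) ^ 5 : ℕ) : ℝ) = ((f n : ℝ) + 2) ^ 5 := fun n => by push_cast; ring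
  have hk0 : ∀ n, (0 : ℝ) < (f n : ℝ) + 2 := fun n => by positivity
  refine ⟨fun n => (1 - 1 / (((f n + 2) ^ 2 : ℕ) : ℝ)) ^ ((f n + 2) ^ 5),
    fun n => host ((f n + 2) ^ 2) ((f n + 2) ^ 5) n, ?_, ?_, hfr, ?_⟩
  · intro n
    exact ⟨(q_facts (hM2 n) _).2.2, (q_facts (hM2 n) _).2.1⟩
  · have h1 : Tendsto (fun n : ℕ => Real.exp (-((f n : ℝ) + 2))) atTop (𝓝 0) :=
      Real.tendsto_exp_neg_atTop_nhds_zero.comp hfR
    refine tendsto_of_tendsto_of_tendsto_of_le_of_le tendsto_const_nhds h1 ?_ ?_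
    · intro n
      exact (q_facts (hM2 n) _).2.2.le
    · intro n
      have h2 : (1 : ℝ) - 1 / (((f n + 2) ^ 2 : ℕ) : ℝ) ≤
          Real.exp (-(1 / (((f n + 2) ^ 2 : ℕ) : ℝ))) := Real.one_sub_le_exp_neg _
      have h3 := (q_facts (hM2 n) 1).2.2.le
      rw [pow_one] at h3
      refine (pow_le_pow_left₀ h3 h2 _).trans ?_
      rw [← Real.exp_nat_mul, Real.exp_le_exp, hcast, hcast5]
      have e : ((f n : ℝ) + 2) ^ 5 * -(1 / ((f n : ℝ) + 2) ^ 2) = -((f n : ℝ) + 2) ^ 3 := by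
        have := (hk0 n).ne'
        field_simp
      rw [e]
      have h4 : (1 : ℝ) ≤ (f n : ℝ) + 2 := by
        have : (0 : ℝ) ≤ (f n : ℝ) := Nat.cast_nonneg _
        linarith
      have h5 : ((f n : ℝ) + 2) ^ 1 ≤ ((f n : ℝ) + 2) ^ 3 := pow_le_pow_right₀ h4 (by norm_num)
      rw [pow_one] at h5
      linarith
  · intro A _ _ F hiso
    constructor
    · intro hF
      set C : ℝ := 4 ^ F.edgeFinset.card with hC
      have hC0 : 0 < C := by positivity
      have hX : ∀ n, |X F ((f n + 2) ^ 2) - 1| ≤ C / ((f n : ℝ) + 2) ^ 6 := by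
        intro n
        have := X_free F hF (hM2 n)
        rw [hcast] at this
        refine this.trans (le_of_eq ?_)
        rw [← pow_mul]
      have hDy : ∀ n, (((f n + 2) ^ 5 : ℕ) : ℝ) * (C / ((f n : ℝ) + 2) ^ 6) =
          C / ((f n : ℝ) + 2) := by
        intro n
        rw [hcast5]
        have := (hk0 n).ne'
        field_simp
      have hlowX : ∀ n, 1 - C / ((f n : ℝ) + 2) ≤ X F ((f n + 2) ^ 2) ^ ((f n + 2) ^ 5) := by
        intro n
        have h1 := one_add_mul_le_pow (a := X F ((f n + 2) ^ 2) - 1)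
          (by have := X_nonneg F (hM2 n); linarith) ((f n + 2) ^ 5)
        rw [add_sub_cancel] at h1
        refine le_trans ?_ h1
        have h2 := (abs_le.1 (hX n)).1
        have h3 : (0 : ℝ) ≤ (((f n + 2) ^ 5 : ℕ) : ℝ) := Nat.cast_nonneg _
        have h4 := mul_le_mul_of_nonneg_left h2 h3
        rw [mul_neg, hDy] at h4
        linarith
      have huppX : ∀ n, X F ((f n + 2) ^ 2) ^ ((f n + 2) ^ 5) ≤
          Real.exp (C / ((f n : ℝ) + 2)) := by
        intro n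
        have h1 : X F ((f n + 2) ^ 2) ≤ Real.exp (X F ((f n + 2) ^ 2) - 1) := by
          have := Real.add_one_le_exp (X F ((f n + 2) ^ 2) - 1)
          linarith
        refine (pow_le_pow_left₀ (X_nonneg F (hM2 n)) h1 _).trans ?_
        rw [← Real.exp_nat_mul, Real.exp_le_exp, ← hDy n]
        exact mul_le_mul_of_nonneg_left (abs_le.1 (hX n)).2 (Nat.cast_nonneg _)
      have hlim0 : Tendsto (fun n : ℕ => C / ((f n : ℝ) + 2)) atTop (𝓝 0) :=
        hfR.const_div_atTop C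
      have hlow := (hlim0.const_sub 1).mul (hminus (Fintype.card A))
      rw [sub_zero, one_mul] at hlow
      have hexp : Tendsto (fun n : ℕ => Real.exp (C / ((f n : ℝ) + 2))) atTop (𝓝 1) := by
        have h2 := (Real.continuous_exp.tendsto 0).comp hlim0
        rw [Real.exp_zero] at h2
        exact h2
      have hupp := hexp.mul (hplus (Fintype.card A))
      rw [one_mul] at hupp
      refine tendsto_of_tendsto_of_tendsto_of_le_of_le hlow hupp ?_ ?_
      · intro n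
        refine le_trans ?_ (le_ratio F ((f n + 2) ^ 2) ((f n + 2) ^ 5) n (hM2 n))
        exact mul_le_mul_of_nonneg_right (hlowX n) (by positivity)
      · intro n
        refine (ratio_le F hiso ((f n + 2) ^ 2) ((f n + 2) ^ 5) n (hM2 n)).trans ?_
        exact mul_le_mul_of_nonneg_right (huppX n) (by positivity)
    · intro hF
      have hexp : Tendsto (fun n : ℕ => Real.exp (-(((f n : ℝ) + 2) / 2))) atTop (𝓝 0) :=
        Real.tendsto_exp_neg_atTop_nhds_zero.comp (hfR.atTop_div_const (by norm_num))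
      have hupp := hexp.mul (hplus (Fintype.card A))
      rw [zero_mul] at hupp
      refine tendsto_of_tendsto_of_tendsto_of_le_of_le' tendsto_const_nhds hupp ?_ ?_
      · refine Eventually.of_forall fun n => ?_
        have := (q_facts (hM2 n) ((f n + 2) ^ 5)).2.2
        positivity
      · filter_upwards [hf.eventually_ge_atTop (2 * (1 + 2 ^ F.edgeFinset.card))] with n hn
        refine (ratio_le F hiso ((f n + 2) ^ 2) ((f n + 2) ^ 5) n (hM2 n)).trans ?_
        refine mul_le_mul_of_nonneg_right ?_ (by positivity)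
        have h1 := X_tri F hF (hM2 n) (by nlinarith)
        have h2 : (1 : ℝ) - 1 / (2 * (((f n + 2) ^ 2 : ℕ) : ℝ) ^ 2) ≤
            Real.exp (-(1 / (2 * (((f n + 2) ^ 2 : ℕ) : ℝ) ^ 2))) := Real.one_sub_le_exp_neg _
        refine (pow_le_pow_left₀ (X_nonneg F (hM2 n)) (h1.trans h2) _).trans ?_
        rw [← Real.exp_nat_mul, Real.exp_le_exp, hcast, hcast5]
        have e : ((f n : ℝ) + 2) ^ 5 * -(1 / (2 * (((f n : ℝ) + 2) ^ 2) ^ 2)) =
            -(((f n : ℝ) + 2) / 2) := by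
          have := (hk0 n).ne'
          field_simp
        rw [e]

end Pool.Agent.KS6_27.TF
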